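import Pool.Agent.H9.Low.Defs

/-!
# Basic facts on averages, translations and averages over groups
-/

namespace Pool.Agent.H9.Low

open Equiv Finset

section av

variable {X Y : Type*} [Fintype X] [Fintype Y]

theorem av_add (f g : X → ℝ) : av (fun x => f x + g x) = av f + av g := by
  unfold av; rw [Finset.sum_add_distrib, add_div]

theorem av_sub (f g : X → ℝ) : av (fun x => f x - g x) = av f - av g := by
  unfold av; rw [Finset.sum_sub_distrib, sub_div]

theorem av_mul_left (c : ℝ) (f : X → ℝ) : av (fun x => c * f x) = c * av f := by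
  unfold av; rw [← Finset.mul_sum, mul_div_assoc]

theorem av_mul_right (c : ℝ) (f : X → ℝ) : av (fun x => f x * c) = av f * c := by
  unfold av; rw [← Finset.sum_mul, div_mul_eq_mul_div]

theorem av_const [Nonempty X] (c : ℝ) : av (fun _ : X => c) = c := by
  unfold av
  rw [Finset.sum_const, nsmul_eq_mul, Finset.card_univ]
  field_simp

theorem av_zero : av (fun _ : X => (0 : ℝ)) = 0 := by
  unfold av; simp

theorem av_nonneg {f : X → ℝ} (h : ∀ x, 0 ≤ f x) : 0 ≤ av f :=
  div_nonneg (Finset.sum_nonneg fun x _ => h x) (Nat.cast_nonneg _)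

theorem av_le_av {f g : X → ℝ} (h : ∀ x, f x ≤ g x) : av f ≤ av g :=
  div_le_div_of_nonneg_right (Finset.sum_le_sum fun x _ => h x) (Nat.cast_nonneg _)

theorem av_le_const [Nonempty X] {f : X → ℝ} {c : ℝ} (h : ∀ x, f x ≤ c) : av f ≤ c := by
  calc av f ≤ av (fun _ : X => c) := av_le_av h
    _ = c := av_const c

theorem av_abs_le (f : X → ℝ) : |av f| ≤ av fun x => |f x| := by
  unfold av
  rw [abs_div, abs_of_nonneg (Nat.cast_nonneg (α := ℝ) (Fintype.card X))]
  exact div_le_div_of_nonneg_right (Finset.abs_sum_le_sum_abs _ _) (Nat.cast_nonneg _)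

theorem av_comp_equiv (e : X ≃ Y) (f : Y → ℝ) : av (fun x => f (e x)) = av f := by
  unfold av
  rw [Equiv.sum_comp e f, Fintype.card_congr e]

theorem av_comm (f : X → Y → ℝ) :
    av (fun x => av fun y => f x y) = av fun y => av fun x => f x y := by
  unfold av
  rw [← Finset.sum_div, ← Finset.sum_div, Finset.sum_comm, div_div, div_div, mul_comm]

theorem av_prod (f : X × Y → ℝ) : av f = av fun x => av fun y => f (x, y) := by
  unfold av
  rw [← Finset.sum_div, div_div, Fintype.card_prod, Nat.cast_mul, mul_comm,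
    Fintype.sum_prod_type]

theorem av_sum {ι : Type*} (s : Finset ι) (f : ι → X → ℝ) :
    av (fun x => ∑ i ∈ s, f i x) = ∑ i ∈ s, av (f i) := by
  unfold av
  rw [Finset.sum_comm, Finset.sum_div]

/-- average over `Fin (t+1) → X` -/
theorem av_cons (t : ℕ) (f : (Fin (t + 1) → X) → ℝ) :
    av f = av fun x : X => av fun v : Fin t → X => f (Fin.cons x v) := by
  rw [← av_prod (fun q : X × (Fin t → X) => f (Fin.cons q.1 q.2))]
  rw [← av_comp_equiv (Fin.consEquiv (fun _ : Fin (t + 1) => X)) f]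
  rfl

theorem sq_av_le (f : X → ℝ) : (av f) ^ 2 ≤ av fun x => f x ^ 2 := by
  rcases isEmpty_or_nonempty X with hX | hX
  · simp [av]
  · have hc : (0 : ℝ) < Fintype.card X := by exact_mod_cast Fintype.card_pos
    unfold av
    rw [div_pow, div_le_div_iff₀ (by positivity) hc]
    have := sq_sum_le_card_mul_sum_sq (s := (Finset.univ : Finset X)) (f := f)
    rw [Finset.card_univ] at this
    nlinarith [this, hc]

theorem nsq_nonneg (f : X → ℝ) : 0 ≤ nsq f := av_nonneg fun x => sq_nonneg _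

theorem nsq_eq_zero {f : X → ℝ} (h : nsq f = 0) : f = 0 := by
  unfold nsq av at h
  rcases isEmpty_or_nonempty X with hX | hX
  · ext x; exact hX.elim x
  · have hc : (Fintype.card X : ℝ) ≠ 0 := by exact_mod_cast Fintype.card_ne_zero
    rw [div_eq_zero_iff, or_iff_left hc] at h
    rw [Finset.sum_eq_zero_iff_of_nonneg (fun x _ => sq_nonneg _)] at h
    ext x
    have := h x (Finset.mem_univ x)
    simpa using this

theorem nsq_smul (c : ℝ) (f : X → ℝ) : nsq (fun x => c * f x) = c ^ 2 * nsq f := by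
  unfold nsq
  rw [← av_mul_left]
  congr 1; ext x; ring

theorem nsq_eq_ipr (f : X → ℝ) : nsq f = ipr f f := by
  unfold nsq ipr; congr 1; ext x; ring

theorem ipr_comm (f g : X → ℝ) : ipr f g = ipr g f := by
  unfold ipr; congr 1; ext x; ring

theorem ipr_add_left (f f' g : X → ℝ) : ipr (fun x => f x + f' x) g = ipr f g + ipr f' g := by
  unfold ipr; rw [← av_add]; congr 1; ext x; ring

theorem ipr_sub_left (f f' g : X → ℝ) : ipr (fun x => f x - f' x) g = ipr f g - ipr f' g := by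
  unfold ipr; rw [← av_sub]; congr 1; ext x; ring

theorem ipr_smul_left (c : ℝ) (f g : X → ℝ) : ipr (fun x => c * f x) g = c * ipr f g := by
  unfold ipr; rw [← av_mul_left]; congr 1; ext x; ring

theorem ipr_add_right (f g g' : X → ℝ) : ipr f (fun x => g x + g' x) = ipr f g + ipr f g' := by
  rw [ipr_comm, ipr_add_left, ipr_comm g, ipr_comm g']

theorem ipr_sub_right (f g g' : X → ℝ) : ipr f (fun x => g x - g' x) = ipr f g - ipr f g' := by
  rw [ipr_comm, ipr_sub_left, ipr_comm g, ipr_comm g']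

theorem ipr_smul_right (c : ℝ) (f g : X → ℝ) : ipr f (fun x => c * g x) = c * ipr f g := by
  rw [ipr_comm, ipr_smul_left, ipr_comm]

theorem ipr_av_right {ι : Type*} [Fintype ι] (f : X → ℝ) (g : ι → X → ℝ) :
    ipr f (fun x => av fun i => g i x) = av fun i => ipr f (g i) := by
  unfold ipr
  rw [av_comm]
  congr 1; ext x
  rw [av_mul_left]

theorem ipr_av_left {ι : Type*} [Fintype ι] (f : ι → X → ℝ) (g : X → ℝ) :
    ipr (fun x => av fun i => f i x) g = av fun i => ipr (f i) g := by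
  rw [ipr_comm, ipr_av_right]
  congr 1; ext i; exact ipr_comm _ _

theorem ipr_sq_le (f g : X → ℝ) : (ipr f g) ^ 2 ≤ nsq f * nsq g := by
  unfold ipr nsq av
  rw [div_pow, div_mul_div_comm, ← pow_two]
  exact div_le_div_of_nonneg_right (Finset.sum_mul_sq_le_sq_mul_sq _ f g) (by positivity)

theorem abs_ipr_le (f g : X → ℝ) : |ipr f g| ≤ √(nsq f) * √(nsq g) := by
  rw [← Real.sqrt_mul (nsq_nonneg f), ← Real.sqrt_sq_eq_abs]
  exact Real.sqrt_le_sqrt (ipr_sq_le f g)

theorem nsq_add (f g : X → ℝ) : nsq (fun x => f x + g x) = nsq f + 2 * ipr f g + nsq g := by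
  unfold nsq ipr
  rw [← av_mul_left, ← av_add, ← av_add]
  congr 1; ext x; ring

theorem nsq_sub (f g : X → ℝ) : nsq (fun x => f x - g x) = nsq f - 2 * ipr f g + nsq g := by
  unfold nsq ipr
  rw [← av_mul_left, ← av_sub, ← av_add]
  congr 1; ext x; ring

theorem sqrt_nsq_add_le (f g : X → ℝ) :
    √(nsq fun x => f x + g x) ≤ √(nsq f) + √(nsq g) := by
  rw [Real.sqrt_le_left (by positivity), nsq_add, add_sq, Real.sq_sqrt (nsq_nonneg f),
    Real.sq_sqrt (nsq_nonneg g)]
  have := (le_abs_self _).trans (abs_ipr_le f g)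
  nlinarith

theorem sqrt_nsq_sub_le (f g : X → ℝ) :
    √(nsq fun x => f x - g x) ≤ √(nsq f) + √(nsq g) := by
  have h := sqrt_nsq_add_le f (fun x => (-1) * g x)
  rw [nsq_smul] at h
  simpa [sub_eq_add_neg] using h

theorem nsq_add_le (f g : X → ℝ) : nsq (fun x => f x + g x) ≤ 2 * nsq f + 2 * nsq g := by
  have h1 := nsq_add f g
  have h2 := nsq_sub f g
  have h3 := nsq_nonneg (fun x => f x - g x)
  linarith

theorem nsq_av_le {ι : Type*} [Fintype ι] (f : ι → X → ℝ) :
    nsq (fun x => av fun i => f i x) ≤ av fun i => nsq (f i) := by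
  unfold nsq
  rw [av_comm]
  exact av_le_av fun _ => sq_av_le _

theorem sqrt_nsq_av_le {ι : Type*} [Fintype ι] (f : ι → X → ℝ) {c : ℝ}
    [Nonempty ι] (h : ∀ i, nsq (f i) ≤ c) : nsq (fun x => av fun i => f i x) ≤ c :=
  (nsq_av_le f).trans (av_le_const h)

theorem av_abs_le_sqrt (f : X → ℝ) [Nonempty X] : av (fun x => |f x|) ≤ √(nsq f) := by
  refine Real.le_sqrt_of_sq_le ?_
  refine (sq_av_le _).trans (le_of_eq ?_)
  unfold nsq; congr 1; ext x; exact sq_abs _

theorem nsq_mono {f g : X → ℝ} (h0 : ∀ x, 0 ≤ f x) (h : ∀ x, f x ≤ g x) : nsq f ≤ nsq g :=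
  av_le_av fun x => pow_le_pow_left₀ (h0 x) (h x) 2

end av

section group

variable {G : Type*} [Group G] [Fintype G]

theorem av_mulRight (g : G) (F : G → ℝ) : av (fun σ => F (σ * g)) = av F :=
  av_comp_equiv (Equiv.mulRight g) F

theorem av_mulLeft (g : G) (F : G → ℝ) : av (fun σ => F (g * σ)) = av F :=
  av_comp_equiv (Equiv.mulLeft g) F

theorem av_inv (F : G → ℝ) : av (fun σ => F σ⁻¹) = av F :=
  av_comp_equiv (Equiv.inv G) F

theorem av_R (g : G) (F : G → ℝ) : av (R g F) = av F := av_mulRight g⁻¹ F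

omit [Fintype G] in
theorem R_R (g h : G) (F : G → ℝ) : R g (R h F) = R (h * g) F := by
  ext σ; simp [R, mul_assoc]

omit [Fintype G] in
theorem R_one (F : G → ℝ) : R 1 F = F := by ext σ; simp [R]

theorem nsq_R (g : G) (F : G → ℝ) : nsq (R g F) = nsq F :=
  av_mulRight g⁻¹ (fun σ => F σ ^ 2)

theorem ipr_R (g : G) (F F' : G → ℝ) : ipr (R g F) (R g F') = ipr F F' :=
  av_mulRight g⁻¹ (fun σ => F σ * F' σ)

theorem ipr_R_left (g : G) (F F' : G → ℝ) : ipr (R g F) F' = ipr F (R g⁻¹ F') := by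
  rw [← ipr_R g F, R_R, inv_mul_cancel, R_one]

theorem dens_R {F : G → ℝ} (h : Dens F) (g : G) : Dens (R g F) :=
  ⟨fun σ => h.1 _, by rw [av_R]; exact h.2⟩

variable {ι : Type*} [Fintype ι]

theorem av_Mav [Nonempty ι] (s : ι → G) (F : G → ℝ) : av (Mav s F) = av F := by
  unfold Mav
  rw [av_comm]
  have : (fun i : ι => av fun σ => F (σ * (s i)⁻¹)) = fun _ => av F := by
    ext i; exact av_mulRight _ F
  rw [this, av_const]

theorem nsq_Mav_le [Nonempty ι] (s : ι → G) (F : G → ℝ) : nsq (Mav s F) ≤ nsq F :=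
  (nsq_av_le (fun i σ => F (σ * (s i)⁻¹))).trans
    (av_le_const fun i => le_of_eq (nsq_R (s i) F))

theorem av_abs_Mav_le (s : ι → G) [Nonempty ι] (F : G → ℝ) :
    av (fun σ => |Mav s F σ|) ≤ av fun σ => |F σ| := by
  have h1 : av (fun σ => |Mav s F σ|) ≤ av fun σ => av fun i => |F (σ * (s i)⁻¹)| :=
    av_le_av fun σ => av_abs_le _
  refine h1.trans ?_
  rw [av_comm]
  exact av_le_const fun i => le_of_eq (av_mulRight (s i)⁻¹ fun σ => |F σ|)

omit [Fintype G] in
theorem Mav_add (s : ι → G) (F F' : G → ℝ) :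
    Mav s (fun σ => F σ + F' σ) = fun σ => Mav s F σ + Mav s F' σ := by
  ext σ; exact av_add _ _

omit [Fintype G] in
theorem Mav_sub (s : ι → G) (F F' : G → ℝ) :
    Mav s (fun σ => F σ - F' σ) = fun σ => Mav s F σ - Mav s F' σ := by
  ext σ; exact av_sub _ _

omit [Fintype G] in
theorem Mav_smul (s : ι → G) (c : ℝ) (F : G → ℝ) :
    Mav s (fun σ => c * F σ) = fun σ => c * Mav s F σ := by
  ext σ; exact av_mul_left _ _

omit [Fintype G] in
theorem Mav_mono (s : ι → G) {F F' : G → ℝ} (h : ∀ σ, F σ ≤ F' σ) (σ : G) :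
    Mav s F σ ≤ Mav s F' σ := av_le_av fun _ => h _

theorem dens_Mav [Nonempty ι] {F : G → ℝ} (h : Dens F) (s : ι → G) : Dens (Mav s F) :=
  ⟨fun σ => av_nonneg fun _ => h.1 _, by rw [av_Mav]; exact h.2⟩

omit [Fintype G] [Fintype ι] in
theorem wd_zero (s : ι → G) (v : Fin 0 → ι) : wd s v = 1 := by simp [wd]

omit [Fintype G] [Fintype ι] in
theorem wd_cons (s : ι → G) {t : ℕ} (i : ι) (v : Fin t → ι) :
    wd s (Fin.cons i v : Fin (t + 1) → ι) = s i * wd s v := by
  simp [wd, List.ofFn_succ]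

omit [Fintype G] in
/-- iterates of the step operator are averages over words -/
theorem Mav_iter (s : ι → G) (t : ℕ) (F : G → ℝ) :
    (Mav s)^[t] F = fun σ => av fun v : Fin t → ι => R (wd s v) F σ := by
  induction t generalizing F with
  | zero =>
    ext σ
    have : ∀ v : Fin 0 → ι, R (wd s v) F σ = F σ := fun v => by rw [wd_zero, R_one]
    simp only [Function.iterate_zero, id, this]
    rw [av_const]
  | succ t ih =>
    rw [Function.iterate_succ_apply, ih]
    ext σ
    rw [av_cons, av_comm]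
    congr 1; ext v
    simp only [R, Mav]
    congr 1; ext i
    rw [wd_cons, mul_inv_rev, mul_assoc]

end group

section EK

variable {G K : Type*} [Group G] [Fintype G] [Group K] [Fintype K] (κ : K →* G)

omit [Fintype G] in
theorem EK_mul_right (F : G → ℝ) (σ : G) (k : K) : EK κ F (σ * κ k) = EK κ F σ := by
  unfold EK
  have := av_mulLeft k (fun k' : K => F (σ * κ k'))
  rw [← this]
  congr 1; ext k'
  rw [map_mul, mul_assoc]

omit [Fintype G] in
theorem EK_of_inv {F : G → ℝ} (h : ∀ σ k, F (σ * κ k) = F σ) : EK κ F = F := by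
  ext σ
  unfold EK
  simp only [h]
  exact av_const _

omit [Fintype G] in
theorem EK_idem (F : G → ℝ) : EK κ (EK κ F) = EK κ F :=
  EK_of_inv κ fun σ k => EK_mul_right κ F σ k

theorem av_EK (F : G → ℝ) : av (EK κ F) = av F := by
  unfold EK
  rw [av_comm]
  have : (fun k : K => av fun σ => F (σ * κ k)) = fun _ => av F := by
    ext i; exact av_mulRight _ F
  rw [this, av_const]

theorem ipr_EK_left (F F' : G → ℝ) : ipr (EK κ F) F' = ipr F (EK κ F') := by
  unfold EK
  rw [ipr_av_left (fun (k : K) σ => F (σ * κ k)) F',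
    ipr_av_right F (fun (k : K) σ => F' (σ * κ k)), ← av_inv (fun k : K => ipr F _)]
  congr 1; ext k
  have h := ipr_R_left (κ k)⁻¹ F F'
  rw [inv_inv] at h
  have e1 : R (κ k)⁻¹ F = fun σ => F (σ * κ k) := by ext σ; simp [R]
  have e2 : (fun σ => F' (σ * κ k⁻¹)) = R (κ k) F' := by ext σ; simp [R]
  rw [e1] at h
  rw [e2]
  exact h

omit [Fintype G] in
theorem EK_sub (F F' : G → ℝ) : EK κ (fun σ => F σ - F' σ) = fun σ => EK κ F σ - EK κ F' σ := by
  ext σ; exact av_sub _ _

omit [Fintype G] in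
theorem EK_add (F F' : G → ℝ) : EK κ (fun σ => F σ + F' σ) = fun σ => EK κ F σ + EK κ F' σ := by
  ext σ; exact av_add _ _

omit [Fintype G] in
theorem EK_smul (c : ℝ) (F : G → ℝ) : EK κ (fun σ => c * F σ) = fun σ => c * EK κ F σ := by
  ext σ; exact av_mul_left _ _

/-- Pythagoras -/
theorem nsq_EK (F : G → ℝ) : nsq F = nsq (EK κ F) + nsq (fun σ => F σ - EK κ F σ) := by
  have h1 := nsq_sub F (EK κ F)
  have h2 : ipr F (EK κ F) = nsq (EK κ F) := by
    rw [nsq_eq_ipr, ipr_EK_left, EK_idem]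
  rw [h1, h2]; ring

theorem nsq_EK_le (F : G → ℝ) : nsq (EK κ F) ≤ nsq F := by
  rw [nsq_EK κ F]
  linarith [nsq_nonneg (fun σ => F σ - EK κ F σ)]

theorem nsq_sub_EK_le (F : G → ℝ) : nsq (fun σ => F σ - EK κ F σ) ≤ nsq F := by
  rw [nsq_EK κ F]
  linarith [nsq_nonneg (EK κ F)]

theorem av_abs_EK_le (F : G → ℝ) : av (fun σ => |EK κ F σ|) ≤ av fun σ => |F σ| := by
  have h1 : av (fun σ => |EK κ F σ|) ≤ av fun σ => av fun k : K => |F (σ * κ k)| :=
    av_le_av fun σ => av_abs_le _
  refine h1.trans ?_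
  rw [av_comm]
  exact av_le_const fun k => le_of_eq (av_mulRight (κ k) fun σ => |F σ|)

theorem dens_EK {F : G → ℝ} (h : Dens F) : Dens (EK κ F) :=
  ⟨fun σ => av_nonneg fun _ => h.1 _, by rw [av_EK]; exact h.2⟩

end EK

theorem dens_dl {G : Type*} [Group G] [Fintype G] [DecidableEq G] : Dens (dl G) := by
  refine ⟨fun σ => ?_, ?_⟩
  · unfold dl; split_ifs <;> positivity
  · unfold av dl
    rw [Finset.sum_ite_eq' Finset.univ (1 : G)]
    simp

end Pool.Agent.H9.Low
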