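import Pool.Agent.H9.Low.Defs

/-!
# The norm hypotheses on the letters `B2`
-/

namespace Pool.Agent.H9.Low

open Equiv Finset

variable {β I : Type} [Fintype β] [DecidableEq β] [Fintype I] [DecidableEq I] {w w2 d : ℕ}

/-- the norm hypotheses on the letters `B2` -/
def N3 (S : HSys β I w w2 d) (J : ℕ) : Prop :=
  ∀ φ : (Fin J ↪ Pos β I d) → ℝ,
    nsq (fun x : Fin J ↪ Pos β I d => av fun k : Fin w2 =>
      φ (x.trans (S.B2 k).toEmbedding) - EHt φ (x.trans (S.B2 k).toEmbedding)) ≤ 1 / 16 * nsq φ ∧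
    nsq (fun x : Fin J ↪ Pos β I d => av fun k : Fin w2 =>
      sgr (S.θ (S.e (Sum.inr (Sum.inr k)))) * φ (x.trans (S.B2 k).toEmbedding)) ≤ 1 / 16 * nsq φ

end Pool.Agent.H9.Low
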