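import Mathlib
import Pool.Agent.H79.CutDefs

/-!
# Definitions for the fast window: cut-off times `n ≪ t_n`

Laws on a finite group are described by their densities with respect to the uniform measure.
A step of the walk is `σ ↦ σ * g`; for `σ : Perm X`, `σ x` is the card at position `x`.
-/

namespace Pool.Agent.H9.Low

open Equiv Finset

noncomputable section

/-- average over a finite type -/
def av {X : Type*} [Fintype X] (f : X → ℝ) : ℝ := (∑ x, f x) / (Fintype.card X : ℝ)

/-- normalised square norm -/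
def nsq {X : Type*} [Fintype X] (f : X → ℝ) : ℝ := av fun x => f x ^ 2

/-- normalised inner product -/
def ipr {X : Type*} [Fintype X] (f g : X → ℝ) : ℝ := av fun x => f x * g x

/-- densities with respect to the uniform measure -/
def Dens {X : Type*} [Fintype X] (f : X → ℝ) : Prop := (∀ x, 0 ≤ f x) ∧ av f = 1

section group

variable {G : Type*} [Group G]

/-- right translation: if `F` is the density of `X` then `R g F` is the density of `X * g` -/
def R (g : G) (F : G → ℝ) : G → ℝ := fun σ => F (σ * g⁻¹)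

/-- left translation -/
def Lt (g : G) (F : G → ℝ) : G → ℝ := fun σ => F (g * σ)

/-- one step of the walk with a uniform letter of the family `s` -/
def Mav {ι : Type*} [Fintype ι] (s : ι → G) (F : G → ℝ) : G → ℝ :=
  fun σ => av fun i => F (σ * (s i)⁻¹)

/-- the product of a word -/
def wd {ι : Type*} (s : ι → G) {t : ℕ} (v : Fin t → ι) : G := (List.ofFn fun i => s (v i)).prod

/-- average over the image of a finite group (right multiplication) -/
def EK {K : Type*} [Group K] [Fintype K] (κ : K →* G) (F : G → ℝ) : G → ℝ :=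
  fun σ => av fun k : K => F (σ * κ k)

/-- the density of the unit mass at `1` -/
def dl (G : Type*) [Group G] [Fintype G] [DecidableEq G] : G → ℝ :=
  fun σ => if σ = 1 then (Fintype.card G : ℝ) else 0

end group

/-- permutations of the left part -/
def inlP (X Y : Type*) : Perm X →* Perm (X ⊕ Y) where
  toFun e := Equiv.sumCongr e (Equiv.refl Y)
  map_one' := by ext x; cases x <;> rfl
  map_mul' _ _ := by ext x; cases x <;> rfl

@[simp] theorem inlP_inl {X Y : Type*} (e : Perm X) (x : X) :
    inlP X Y e (Sum.inl x) = Sum.inl (e x) := rfl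
@[simp] theorem inlP_inr {X Y : Type*} (e : Perm X) (y : Y) :
    inlP X Y e (Sum.inr y) = Sum.inr y := rfl

/-! ### functions on a symmetric group -/

section perm

variable {X : Type*} [Fintype X] [DecidableEq X]

/-- the sign as a real number -/
def sgr (σ : Perm X) : ℝ := ((Perm.sign σ : ℤˣ) : ℤ)

/-- sign twist of a function -/
def sgt (F : Perm X → ℝ) : Perm X → ℝ := fun σ => sgr σ * F σ

/-- marginals: sum of `F` over the permutations with `σ (x i) = z i` for all `i` -/
def mg {J : ℕ} (F : Perm X → ℝ) (x z : Fin J ↪ X) : ℝ :=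
  ∑ σ : Perm X, if ∀ i, σ (x i) = z i then F σ else 0

theorem mg_add {J : ℕ} (F G : Perm X → ℝ) (x z : Fin J ↪ X) :
    mg (F + G) x z = mg F x z + mg G x z := by
  unfold mg
  rw [← Finset.sum_add_distrib]
  refine Finset.sum_congr rfl fun σ _ => ?_
  by_cases h : ∀ i, σ (x i) = z i
  · rw [if_pos h, if_pos h, if_pos h, Pi.add_apply]
  · rw [if_neg h, if_neg h, if_neg h, add_zero]

theorem mg_smul {J : ℕ} (c : ℝ) (F : Perm X → ℝ) (x z : Fin J ↪ X) :
    mg (c • F) x z = c * mg F x z := by
  unfold mg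
  rw [Finset.mul_sum]
  refine Finset.sum_congr rfl fun σ _ => ?_
  by_cases h : ∀ i, σ (x i) = z i
  · rw [if_pos h, if_pos h, Pi.smul_apply, smul_eq_mul]
  · rw [if_neg h, if_neg h, mul_zero]

/-- functions all whose `J`-marginals vanish -/
def HighS (X : Type*) [Fintype X] [DecidableEq X] (J : ℕ) : Submodule ℝ (Perm X → ℝ) where
  carrier := {F | ∀ x z : Fin J ↪ X, mg F x z = 0}
  add_mem' := by
    intro F G hF hG x z
    rw [mg_add, hF x z, hG x z, add_zero]
  zero_mem' := by intro x z; simp [mg]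
  smul_mem' := by
    intro c F hF x z
    rw [mg_smul, hF x z, mul_zero]

/-- the orthogonal complement of a subspace of functions -/
def orth {Y : Type*} [Fintype Y] (U : Submodule ℝ (Y → ℝ)) : Submodule ℝ (Y → ℝ) where
  carrier := {F | ∀ G ∈ U, ∑ y, F y * G y = 0}
  add_mem' := by
    intro F F' hF hF' G hG
    have h1 := hF G hG; have h2 := hF' G hG
    simp only [Pi.add_apply, add_mul, Finset.sum_add_distrib, h1, h2, add_zero]
  zero_mem' := by intro G _; simp
  smul_mem' := by
    intro c F hF G hG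
    have h1 := hF G hG
    simp only [Pi.smul_apply, smul_eq_mul, mul_assoc, ← Finset.mul_sum, h1, mul_zero]

/-- functions of level `≤ J` -/
def LowS (X : Type*) [Fintype X] [DecidableEq X] (J : ℕ) : Submodule ℝ (Perm X → ℝ) :=
  orth (HighS X J)

/-- the sign twist as a linear map -/
def sgL (X : Type*) [Fintype X] [DecidableEq X] : (Perm X → ℝ) →ₗ[ℝ] (Perm X → ℝ) where
  toFun := sgt
  map_add' _ _ := by ext σ; simp [sgt, mul_add]
  map_smul' _ _ := by ext σ; simp [sgt]; ring

/-- functions all whose `J`-marginals and signed `J`-marginals vanish -/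
def HH (X : Type*) [Fintype X] [DecidableEq X] (J : ℕ) : Submodule ℝ (Perm X → ℝ) :=
  HighS X J ⊓ (HighS X J).comap (sgL X)

/-- sums of a function of level `≤ J` and of a sign twist of such a function -/
def UU (X : Type*) [Fintype X] [DecidableEq X] (J : ℕ) : Submodule ℝ (Perm X → ℝ) :=
  orth (HH X J)

/-- the projection `(1 - (x y)) / 2` (right multiplication) -/
def Qsw (x y : X) (F : Perm X → ℝ) : Perm X → ℝ := fun σ => (F σ - F (σ * swap x y)) / 2

/-- the average of the projections `Qsw x y` over the pairs `x ≠ y` -/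
def Dlt (F : Perm X → ℝ) : Perm X → ℝ := fun σ =>
  (∑ x, ∑ y, Qsw x y F σ) / ((Fintype.card X : ℝ) * ((Fintype.card X : ℝ) - 1))

end perm

/-! ### the system of letters -/

/-- positions: bulk `β`, private pairs `I × Bool` (`false`: lo, `true`: hi), device `Fin (d+1)` -/
abbrev Out (I : Type) (d : ℕ) : Type := (I × Bool) ⊕ Fin (d + 1)

/-- all positions -/
abbrev Pos (β I : Type) (d : ℕ) : Type := β ⊕ Out I d

/-- the data of the construction -/
structure Sys (β I : Type) (d : ℕ) where
  θ : I → Perm β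
  u : I → β
  p : β
  c : Perm (Pos β I d)
  u_inj : Function.Injective u
  p_ne : ∀ i, u i ≠ p
  c_u : ∀ i, c (Sum.inl (u i)) = Sum.inr (Sum.inl (i, false))
  c_lo : ∀ i, c (Sum.inr (Sum.inl (i, false))) = Sum.inl (u i)
  c_hi : ∀ i, c (Sum.inr (Sum.inl (i, true))) = Sum.inr (Sum.inl (i, true))
  c_p : c (Sum.inl p) = Sum.inr (Sum.inr (Fin.last d))
  c_dv0 : c (Sum.inr (Sum.inr 0)) = Sum.inl p
  c_dvs : ∀ j : Fin d, c (Sum.inr (Sum.inr j.succ)) = Sum.inr (Sum.inr j.castSucc)
  c_oth : ∀ x, x ≠ p → (∀ i, u i ≠ x) → c (Sum.inl x) = Sum.inl x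

/-- private swaps: the pairs `i` with `z i = true` are swapped -/
def pz {I : Type} (z : I → Bool) : Perm (I × Bool) where
  toFun q := (q.1, xor q.2 (z q.1))
  invFun q := (q.1, xor q.2 (z q.1))
  left_inv q := by ext <;> simp
  right_inv q := by ext <;> simp

/-- private swaps as permutations of the positions -/
def zt {β I : Type} {d : ℕ} (z : I → Bool) : Perm (Pos β I d) :=
  Equiv.sumCongr (Equiv.refl β) (Equiv.sumCongr (pz z) (Equiv.refl (Fin (d + 1))))

@[simp] theorem zt_inl {β I : Type} {d : ℕ} (z : I → Bool) (x : β) :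
    (zt z : Perm (Pos β I d)) (Sum.inl x) = Sum.inl x := rfl
@[simp] theorem zt_pr {β I : Type} {d : ℕ} (z : I → Bool) (i : I) (b : Bool) :
    (zt z : Perm (Pos β I d)) (Sum.inr (Sum.inl (i, b))) = Sum.inr (Sum.inl (i, xor b (z i))) := rfl
@[simp] theorem zt_dv {β I : Type} {d : ℕ} (z : I → Bool) (j : Fin (d + 1)) :
    (zt z : Perm (Pos β I d)) (Sum.inr (Sum.inr j)) = Sum.inr (Sum.inr j) := rfl

variable {β I : Type} {d : ℕ}

/-- average over the permutations of the bulk -/
def EH [Fintype β] [DecidableEq β] (F : Perm (Pos β I d) → ℝ) : Perm (Pos β I d) → ℝ :=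
  EK (inlP β (Out I d)) F

/-- the letter `i` -/
def Sys.g [DecidableEq I] (S : Sys β I d) (i : I) : Perm (Pos β I d) :=
  inlP β (Out I d) (S.θ i) * zt (fun j => decide (j = i))

/-- all letters: `none` is the letter `c` -/
def Sys.gl [DecidableEq I] (S : Sys β I d) : Option I → Perm (Pos β I d)
  | none => S.c
  | some i => S.g i

/-- one step of the walk -/
def Sys.P [Fintype I] [DecidableEq I] (S : Sys β I d) (F : Perm (Pos β I d) → ℝ) :
    Perm (Pos β I d) → ℝ := Mav S.gl F

/-- one step of the walk without the letter `c` -/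
def Sys.Po [Fintype I] [DecidableEq I] (S : Sys β I d) (F : Perm (Pos β I d) → ℝ) :
    Perm (Pos β I d) → ℝ := Mav S.g F

/-- index types of the letters: `A`, `B1`, `B2` -/
abbrev II (w w2 : ℕ) : Type := Fin w ⊕ (Fin w ⊕ Fin w2)

/-- the system together with the types `A`, `B1`, `B2` of its letters -/
structure HSys (β I : Type) (w w2 d : ℕ) extends Sys β I d where
  e : II w w2 ≃ I

/-- extension by `false` of a pattern on the hidden letters `A`, `B1` -/
def ext {w w2 : ℕ} (z : Fin w ⊕ Fin w → Bool) : II w w2 → Bool :=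
  Sum.elim (fun j => z (Sum.inl j)) (Sum.elim (fun j => z (Sum.inr j)) (fun _ => false))

/-- average over the private swaps of the hidden letters -/
def HSys.EZ {w w2 : ℕ} (S : HSys β I w w2 d) (F : Perm (Pos β I d) → ℝ) :
    Perm (Pos β I d) → ℝ :=
  fun σ => av fun z : Fin w ⊕ Fin w → Bool => F (σ * zt (fun i => ext z (S.e.symm i)))

/-- the letters `A` -/
def HSys.A1 [DecidableEq I] {w w2 : ℕ} (S : HSys β I w w2 d) : Fin w → Perm (Pos β I d) :=
  fun j => S.g (S.e (Sum.inl j))

/-- the letters `B1` -/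
def HSys.B1 [DecidableEq I] {w w2 : ℕ} (S : HSys β I w w2 d) : Fin w → Perm (Pos β I d) :=
  fun j => S.g (S.e (Sum.inr (Sum.inl j)))

/-- the letters `B2` -/
def HSys.B2 [DecidableEq I] {w w2 : ℕ} (S : HSys β I w w2 d) : Fin w2 → Perm (Pos β I d) :=
  fun j => S.g (S.e (Sum.inr (Sum.inr j)))

/-- a good block: revealed `B1` word `v`, then a hidden letter `A`, then a hidden letter `B1` -/
def HSys.hb [DecidableEq I] {w w2 ℓ : ℕ} (S : HSys β I w w2 d) (v : Fin ℓ → Fin w)
    (F : Perm (Pos β I d) → ℝ) : Perm (Pos β I d) → ℝ :=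
  Mav S.B1 (Mav S.A1 (R (wd S.B1 v) F))

/-- sub-densities -/
def SD {X : Type*} [Fintype X] (f : X → ℝ) : Prop := (∀ x, 0 ≤ f x) ∧ av f ≤ 1

/-- `f` is a mixture of sub-densities with mean potential `≤ x` -/
def Dec {X : Type*} [Fintype X] (ψ : (X → ℝ) → ℝ) (f : X → ℝ) (x : ℝ) : Prop :=
  ∃ (n : ℕ) (p : Fin n → ℝ) (F : Fin n → X → ℝ), (∀ i, 0 ≤ p i) ∧ ∑ i, p i = 1 ∧
    (∀ i, SD (F i)) ∧ (∀ a, f a = ∑ i, p i * F i a) ∧ ∑ i, p i * ψ (F i) ≤ x

/-- the potential of stage 0 -/
def HSys.psi [Fintype β] [DecidableEq β] [Fintype I] [DecidableEq I] {w w2 : ℕ}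
    (S : HSys β I w w2 d) (F : Perm (Pos β I d) → ℝ) : ℝ := nsq (S.EZ F) ^ ((1 : ℝ) / w)

/-- the potential of the long windows -/
def HSys.psi' [Fintype β] [DecidableEq β] [Fintype I] [DecidableEq I] {w w2 : ℕ}
    (S : HSys β I w w2 d) (F : Perm (Pos β I d) → ℝ) : ℝ :=
  nsq (fun σ => S.EZ F σ - EH (S.EZ F) σ) ^ ((1 : ℝ) / w)

/-- number of outer positions mapped to outer positions -/
def kk {β γ : Type} [Fintype γ] (g : Perm (β ⊕ γ)) : ℕ :=
  (univ.filter fun y : γ => (g (Sum.inr y)).isRight = true).card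

/-- one forward step for masses on positions -/
def fw {X ι : Type*} [Fintype ι] (s : ι → Perm X) (n : X → ℝ) : X → ℝ :=
  fun a => av fun i => n (s i a)

/-- total mass -/
def tot {X : Type*} [Fintype X] (n : X → ℝ) : ℝ := ∑ a, n a

/-- weighted private mass -/
def VV [Fintype I] (n : Pos β I d → ℝ) : ℝ :=
  ∑ i, (n (Sum.inr (Sum.inl (i, false))) + 3 / 2 * n (Sum.inr (Sum.inl (i, true))))

/-- device mass -/
def DV (n : Pos β I d → ℝ) : ℝ := ∑ j, n (Sum.inr (Sum.inr j))

/-- bulk mass -/
def BM [Fintype β] (n : Pos β I d → ℝ) : ℝ := ∑ x, n (Sum.inl x)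

/-- averaging over the bulk, for functions on tuples of positions -/
def EHt [Fintype β] [DecidableEq β] {J : ℕ} (φ : (Fin J ↪ Pos β I d) → ℝ) :
    (Fin J ↪ Pos β I d) → ℝ :=
  fun x => av fun h : Perm β => φ (x.trans (inlP β (Out I d) h).toEmbedding)

/-- convolution -/
def cv {G : Type*} [Group G] [Fintype G] (f h : G → ℝ) : G → ℝ :=
  fun σ => av fun g => f (σ * g⁻¹) * h g

/-- weights of positions for a test function -/
def Wt {X : Type*} [Fintype X] [DecidableEq X] (φ : Perm X → ℝ) (Ω : X → ℝ) : Prop :=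
  ∀ σ σ' : Perm X, |φ σ - φ σ'| ≤ ∑ a, if σ a ≠ σ' a then Ω a else 0

/-- one word of the modified walk: the bulk is averaged after a word without `c` -/
def Sys.st [Fintype β] [DecidableEq β] [DecidableEq I] (S : Sys β I d) {T : ℕ}
    (v : Fin T → Option I) (F : Perm (Pos β I d) → ℝ) : Perm (Pos β I d) → ℝ :=
  if ∀ i, v i ≠ none then EH (R (wd S.gl v) F) else R (wd S.gl v) F

/-- one window of the modified walk -/
def Sys.Dm [Fintype β] [DecidableEq β] [Fintype I] [DecidableEq I] (S : Sys β I d) (T : ℕ)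
    (F : Perm (Pos β I d) → ℝ) : Perm (Pos β I d) → ℝ :=
  fun σ => av fun v : Fin T → Option I => S.st v F σ

/-- reset of the bulk masses: one bulk unit, uniformly spread, for each outer unit -/
def rst [Fintype β] [Fintype I] (n : Pos β I d → ℝ) : Pos β I d → ℝ :=
  Sum.elim (fun _ => (∑ y, n (Sum.inr y)) / (Fintype.card β : ℝ)) (fun y => n (Sum.inr y))

/-- one window for the masses -/
def Sys.WW [Fintype β] [Fintype I] [DecidableEq I] (S : Sys β I d) (T : ℕ)
    (n : Pos β I d → ℝ) : Pos β I d → ℝ :=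
  fun a => av fun v : Fin T → Option I =>
    if ∀ i, v i ≠ none then rst (fun a' => n (wd S.gl v a')) a else n (wd S.gl v a)

end

end Pool.Agent.H9.Low
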