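import Pool.Agent.H9.Low.Basic

/-!
# The hypothesis on the letters used in the blocks (shared by T8, T9, T12, T13)
-/

namespace Pool.Agent.H9.Low

open Equiv Finset

/-- the hypothesis on the letters used in the blocks -/
def MSc {β : Type} [Fintype β] [DecidableEq β] {w : ℕ} (A B : Fin w → Perm β) (ℓ : ℕ)
    (κ : ℝ) : Prop :=
  ∀ F : Perm β → ℝ, av F = 0 →
    av (fun v : Fin ℓ → Fin w => nsq (Mav B (Mav A (R (wd B v) F)))) ≤ κ * nsq F

end Pool.Agent.H9.Low
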