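import Pool.Agent.H9.Low.Basic

/-!
# Forward masses (T15)
-/

namespace Pool.Agent.H9.Low

open Equiv Finset

section fwd
variable {β I : Type} [Fintype β] [DecidableEq β] [Fintype I] [DecidableEq I] {d : ℕ}

theorem fw_word {X ι : Type} [Fintype X] [Fintype ι] (s : ι → Perm X) (t : ℕ) (n : X → ℝ)
    (a : X) : (fw s)^[t] n a = av fun v : Fin t → ι => n (wd s v a) := by
  induction t generalizing n with
  | zero =>
    have : ∀ v : Fin 0 → ι, n (wd s v a) = n a := fun v => by rw [wd_zero]; rfl
    simp only [Function.iterate_zero, id, this]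
    rw [av_const]
  | succ t ih =>
    rw [Function.iterate_succ_apply, ih, av_cons, av_comm]
    congr 1; ext v
    unfold fw
    congr 1; ext i
    rw [wd_cons]
    rfl

theorem tot_fw {X ι : Type} [Fintype X] [Fintype ι] [Nonempty ι] (s : ι → Perm X) (n : X → ℝ) :
    tot (fw s n) = tot n := by
  unfold tot fw
  rw [← av_sum univ (fun a i => n (s i a))]
  have : (fun i : ι => ∑ a, n (s i a)) = fun _ => ∑ a, n a := by
    ext i
    exact Equiv.sum_comp (s i) n
  rw [this, av_const]

theorem t15_tot_iter {X ι : Type} [Fintype X] [Fintype ι] [Nonempty ι] (s : ι → Perm X) (t : ℕ)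
    (n : X → ℝ) : tot ((fw s)^[t] n) = tot n := by
  induction t generalizing n with
  | zero => rfl
  | succ t ih => rw [Function.iterate_succ_apply, ih, tot_fw]

theorem t15_nonneg_iter {X ι : Type} [Fintype X] [Fintype ι] (s : ι → Perm X) (t : ℕ)
    (n : X → ℝ) (hn : ∀ a, 0 ≤ n a) (a : X) : 0 ≤ (fw s)^[t] n a := by
  rw [fw_word]
  exact av_nonneg fun _ => hn _

theorem t15_le_one_iter {X ι : Type} [Fintype X] [Fintype ι] [Nonempty ι] (s : ι → Perm X) (t : ℕ)
    (n : X → ℝ) (hn : ∀ a, n a ≤ 1) (a : X) : (fw s)^[t] n a ≤ 1 := by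
  rw [fw_word]
  exact av_le_const fun _ => hn _

omit [DecidableEq I] in
/-- averages over `Option I` -/
theorem t15_av_option (f : Option I → ℝ) (m : ℝ) (hm : m = Fintype.card I + 1) :
    av f = 1 / m * (f none + ∑ i, f (some i)) := by
  unfold av
  rw [Fintype.sum_option, Fintype.card_option, hm]
  push_cast
  ring

omit [DecidableEq I] in
theorem t15_av_some (h : I → ℝ) (hh : ∀ i, 0 ≤ h i) :
    av (fun x : Option I => x.elim 0 h) ≤ av h := by
  rw [t15_av_option _ _ rfl]
  simp only [Option.elim_none, Option.elim_some, zero_add]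
  rcases isEmpty_or_nonempty I with hI | hI
  · simp [av]
  · unfold av
    have hc : (0 : ℝ) < Fintype.card I := by exact_mod_cast Fintype.card_pos
    rw [one_div, ← div_eq_inv_mul]
    apply div_le_div_of_nonneg_left (Finset.sum_nonneg fun i _ => hh i) hc
    linarith

open Classical in
/-- proportion of the words that contain `c` -/
theorem t15_hasc (t : ℕ) (m : ℝ) (hm : m = Fintype.card I + 1) :
    av (fun v : Fin t → Option I => if ∃ i, v i = none then (1 : ℝ) else 0) ≤ t / m := by
  have hm0 : 0 < m := by rw [hm]; positivity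
  induction t with
  | zero =>
    have : (fun v : Fin 0 → Option I => if ∃ i, v i = none then (1 : ℝ) else 0) = fun _ => 0 := by
      ext v
      rw [if_neg]
      rintro ⟨i, _⟩
      exact i.elim0
    rw [this, av_zero]
    simp
  | succ t ih =>
    rw [av_cons]
    have h1 : ∀ (x : Option I) (v : Fin t → Option I),
        (if ∃ i, (Fin.cons x v : Fin (t + 1) → Option I) i = none then (1 : ℝ) else 0) ≤
          (if x = none then (1 : ℝ) else 0) + (if ∃ i, v i = none then (1 : ℝ) else 0) := by
      intro x v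
      by_cases hx : x = none
      · rw [if_pos hx]
        split_ifs <;> norm_num
      · by_cases hv : ∃ i, v i = none
        · rw [if_pos hv]
          split_ifs <;> norm_num
        · rw [if_neg, if_neg hx, if_neg hv]
          · norm_num
          · rintro ⟨i, hi⟩
            refine Fin.cases ?_ ?_ i hi
            · intro h
              exact hx (by simpa using h)
            · intro j h
              exact hv ⟨j, by simpa using h⟩
    have h2 : av (fun x : Option I => if x = none then (1 : ℝ) else 0) = 1 / m := by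
      rw [t15_av_option _ m hm]
      simp
    calc av (fun x : Option I => av fun v : Fin t → Option I =>
          if ∃ i, (Fin.cons x v : Fin (t + 1) → Option I) i = none then (1 : ℝ) else 0)
        ≤ av (fun x : Option I => av fun v : Fin t → Option I =>
          (if x = none then (1 : ℝ) else 0) + (if ∃ i, v i = none then (1 : ℝ) else 0)) :=
          av_le_av fun x => av_le_av fun v => h1 x v
      _ = 1 / m + av (fun v : Fin t → Option I => if ∃ i, v i = none then (1 : ℝ) else 0) := by
          have h3 : ∀ x : Option I, av (fun v : Fin t → Option I =>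
              (if x = none then (1 : ℝ) else 0) + (if ∃ i, v i = none then (1 : ℝ) else 0)) =
              (if x = none then (1 : ℝ) else 0) +
                av (fun v : Fin t → Option I => if ∃ i, v i = none then (1 : ℝ) else 0) := by
            intro x
            rw [av_add, av_const]
          simp only [h3]
          rw [av_add, av_const, h2]
      _ ≤ 1 / m + t / m := by gcongr
      _ = ((t + 1 : ℕ) : ℝ) / m := by push_cast; ring

open Classical in
/-- words without `c` -/
theorem t15_noc (t : ℕ) (F : (Fin t → Option I) → ℝ) (hF : ∀ v, 0 ≤ F v) :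
    av (fun v : Fin t → Option I => if ∃ i, v i = none then (0 : ℝ) else F v) ≤
      av (fun v : Fin t → I => F (fun i => some (v i))) := by
  induction t with
  | zero =>
    have h1 : ∀ v : Fin 0 → Option I, (if ∃ i, v i = none then (0 : ℝ) else F v) =
        F (fun i => i.elim0) := by
      intro v
      rw [if_neg]
      · congr 1
        ext i
        exact i.elim0
      · rintro ⟨i, _⟩
        exact i.elim0
    have h2 : ∀ v : Fin 0 → I, F (fun i => some (v i)) = F (fun i => i.elim0) := by
      intro v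
      congr 1
      ext i
      exact i.elim0
    simp only [h1, h2]
    rw [av_const, av_const]
  | succ t ih =>
    rw [av_cons, av_cons]
    have h1 : ∀ x : Option I, av (fun v : Fin t → Option I =>
        if ∃ i, (Fin.cons x v : Fin (t + 1) → Option I) i = none then (0 : ℝ)
          else F (Fin.cons x v)) ≤
        x.elim 0 (fun j => av fun v : Fin t → I => F (Fin.cons (some j) (fun i => some (v i)))) := by
      intro x
      cases x with
      | none =>
        simp only [Option.elim_none]
        refine le_of_eq ?_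
        have : (fun v : Fin t → Option I =>
            if ∃ i, (Fin.cons none v : Fin (t + 1) → Option I) i = none then (0 : ℝ)
              else F (Fin.cons none v)) = fun _ => 0 := by
          ext v
          rw [if_pos ⟨0, by simp⟩]
        rw [this, av_zero]
      | some j =>
        simp only [Option.elim_some]
        refine le_trans (av_le_av fun v => ?_) (ih (fun v => F (Fin.cons (some j) v))
          (fun v => hF _))
        by_cases hv : ∃ i, v i = none
        · obtain ⟨i, hi⟩ := hv
          rw [if_pos ⟨i.succ, by simpa using hi⟩, if_pos ⟨i, hi⟩]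
        · rw [if_neg hv]
          split_ifs
          · exact hF _
          · exact le_rfl
    refine (av_le_av h1).trans ((t15_av_some _ (fun i => av_nonneg fun v => hF _)).trans
      (le_of_eq ?_))
    congr 1; ext j
    congr 1; ext v
    congr 1
    ext i
    refine Fin.cases ?_ ?_ i
    · simp
    · intro k
      simp

omit [Fintype β] [DecidableEq β] [Fintype I] in
theorem t15_g_inl (S : Sys β I d) (i : I) (x : β) :
    S.g i (Sum.inl x) = Sum.inl (S.θ i x) := rfl

omit [Fintype β] [DecidableEq β] [Fintype I] in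
theorem t15_g_pr (S : Sys β I d) (j i : I) (b : Bool) :
    S.g j (Sum.inr (Sum.inl (i, b))) = Sum.inr (Sum.inl (i, xor b (decide (i = j)))) := rfl

omit [Fintype β] [DecidableEq β] [Fintype I] in
theorem t15_g_dv (S : Sys β I d) (j : I) (k : Fin (d + 1)) :
    S.g j (Sum.inr (Sum.inr k)) = Sum.inr (Sum.inr k) := rfl

omit [Fintype β] [DecidableEq β] [Fintype I] in
/-- words without `c` map the bulk to the bulk -/
theorem t15_wd_inl (S : Sys β I d) (t : ℕ) (v : Fin t → I) (x : β) :
    ∃ x', wd S.g v (Sum.inl x) = Sum.inl x' := by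
  induction t with
  | zero => exact ⟨x, by rw [wd_zero]; rfl⟩
  | succ t ih =>
    obtain ⟨x', hx'⟩ := ih (fun i => v i.succ)
    refine ⟨S.θ (v 0) x', ?_⟩
    have h : v = (Fin.cons (v 0) (fun i => v i.succ) : Fin (t + 1) → I) :=
      (Fin.cons_self_tail v).symm
    rw [h, wd_cons, Perm.mul_apply, hx', t15_g_inl]
    rfl

theorem VV_step (S : Sys β I d) (n : Pos β I d → ℝ) (hn : ∀ a, 0 ≤ n a) (m : ℝ)
    (hm : m = Fintype.card I + 1) :
    VV (fw S.gl n) ≤ (1 - 1 / (3 * m)) * VV n + 1 / m * ∑ i, n (Sum.inl (S.u i)) := by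
  have hm0 : 0 < m := by rw [hm]; positivity
  have hlo : ∀ i, fw S.gl n (Sum.inr (Sum.inl (i, false))) = 1 / m *
      (n (Sum.inl (S.u i)) + (n (Sum.inr (Sum.inl (i, true))) +
        (m - 2) * n (Sum.inr (Sum.inl (i, false))))) := by
    intro i
    unfold fw
    rw [t15_av_option _ m hm]
    congr 2
    · change n (S.c _) = _
      rw [S.c_lo]
    · change ∑ j, n (S.g j _) = _
      simp only [t15_g_pr]
      rw [← Finset.add_sum_erase univ _ (Finset.mem_univ i)]
      congr 1
      · simp
      · have h1 : ∀ j ∈ univ.erase i,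
            n (Sum.inr (Sum.inl (i, xor false (decide (i = j))))) =
              n (Sum.inr (Sum.inl (i, false))) := by
          intro j hj
          rw [Finset.mem_erase] at hj
          rw [decide_eq_false (fun h => hj.1 h.symm)]
          rfl
        rw [Finset.sum_congr rfl h1, Finset.sum_const, Finset.card_erase_of_mem (Finset.mem_univ i),
          Finset.card_univ, nsmul_eq_mul, Nat.cast_sub (Fintype.card_pos_iff.2 ⟨i⟩), hm]
        push_cast
        ring
  have hhi : ∀ i, fw S.gl n (Sum.inr (Sum.inl (i, true))) = 1 / m *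
      (n (Sum.inr (Sum.inl (i, true))) + (n (Sum.inr (Sum.inl (i, false))) +
        (m - 2) * n (Sum.inr (Sum.inl (i, true))))) := by
    intro i
    unfold fw
    rw [t15_av_option _ m hm]
    congr 2
    · change n (S.c _) = _
      rw [S.c_hi]
    · change ∑ j, n (S.g j _) = _
      simp only [t15_g_pr]
      rw [← Finset.add_sum_erase univ _ (Finset.mem_univ i)]
      congr 1
      · simp
      · have h1 : ∀ j ∈ univ.erase i,
            n (Sum.inr (Sum.inl (i, xor true (decide (i = j))))) =
              n (Sum.inr (Sum.inl (i, true))) := by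
          intro j hj
          rw [Finset.mem_erase] at hj
          rw [decide_eq_false (fun h => hj.1 h.symm)]
          rfl
        rw [Finset.sum_congr rfl h1, Finset.sum_const, Finset.card_erase_of_mem (Finset.mem_univ i),
          Finset.card_univ, nsmul_eq_mul, Nat.cast_sub (Fintype.card_pos_iff.2 ⟨i⟩), hm]
        push_cast
        ring
  unfold VV
  rw [Finset.mul_sum, Finset.mul_sum, ← Finset.sum_add_distrib]
  refine Finset.sum_le_sum fun i _ => ?_
  rw [hlo, hhi]
  have h1 := hn (Sum.inr (Sum.inl (i, false)))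
  set a := n (Sum.inr (Sum.inl (i, false)))
  set b := n (Sum.inr (Sum.inl (i, true)))
  set u := n (Sum.inl (S.u i))
  have h2 : (1 - 1 / (3 * m)) * (a + 3 / 2 * b) + 1 / m * u -
      (1 / m * (u + (b + (m - 2) * a)) + 3 / 2 * (1 / m * (b + (a + (m - 2) * b)))) =
      a / (6 * m) := by
    field_simp
    ring
  have h3 : 0 ≤ a / (6 * m) := by positivity
  linarith

theorem DV_step (S : Sys β I d) (n : Pos β I d → ℝ) (hn : ∀ a, 0 ≤ n a) (m : ℝ)
    (hm : m = Fintype.card I + 1) :
    DV (fw S.gl n) ≤ DV n + 1 / m * n (Sum.inl S.p) := by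
  have hm0 : 0 < m := by rw [hm]; positivity
  have hdv : ∀ j, fw S.gl n (Sum.inr (Sum.inr j)) = 1 / m *
      (n (S.c (Sum.inr (Sum.inr j))) + (m - 1) * n (Sum.inr (Sum.inr j))) := by
    intro j
    unfold fw
    rw [t15_av_option _ m hm]
    congr 2
    change ∑ i, n (S.g i _) = _
    simp only [t15_g_dv]
    rw [Finset.sum_const, Finset.card_univ, nsmul_eq_mul, hm]
    ring
  unfold DV
  simp only [hdv]
  rw [← Finset.mul_sum, Finset.sum_add_distrib, ← Finset.mul_sum,
    Fin.sum_univ_succ (fun j => n (S.c (Sum.inr (Sum.inr j)))), S.c_dv0]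
  simp only [S.c_dvs]
  have h1 : ∑ j : Fin (d + 1), n (Sum.inr (Sum.inr j)) =
      ∑ j : Fin d, n (Sum.inr (Sum.inr j.castSucc)) + n (Sum.inr (Sum.inr (Fin.last d))) :=
    Fin.sum_univ_castSucc _
  have h2 := hn (Sum.inr (Sum.inr (Fin.last d)))
  set T := ∑ j : Fin (d + 1), n (Sum.inr (Sum.inr j))
  have h3 : ∑ j : Fin d, n (Sum.inr (Sum.inr j.castSucc)) ≤ T := by linarith
  calc 1 / m * (n (Sum.inl S.p) + ∑ j : Fin d, n (Sum.inr (Sum.inr j.castSucc)) + (m - 1) * T)
      ≤ 1 / m * (n (Sum.inl S.p) + T + (m - 1) * T) := by gcongr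
    _ = T + 1 / m * n (Sum.inl S.p) := by field_simp; ring

/-- the mixing of one bulk position by words without `c` -/
def M8 (S : Sys β I d) (g0 : ℕ) : Prop :=
  ∀ x x' : β, (fw S.g)^[g0] (fun a => if a = Sum.inl x' then (1 : ℝ) else 0) (Sum.inl x)
    ≤ 2 / (Fintype.card β : ℝ)

/-- mass transported by words without `c` -/
theorem t15_noc_mass (S : Sys β I d) (g0 : ℕ) (hM : M8 S g0) (n : Pos β I d → ℝ)
    (hn : ∀ a, 0 ≤ n a) (x : β) :
    (fw S.g)^[g0] n (Sum.inl x) ≤ 2 / (Fintype.card β : ℝ) * tot n := by
  have h1 : (fw S.g)^[g0] n (Sum.inl x) =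
      ∑ x', n (Sum.inl x') *
        (fw S.g)^[g0] (fun a => if a = Sum.inl x' then (1 : ℝ) else 0) (Sum.inl x) := by
    simp only [fw_word]
    have h2 : ∀ v : Fin g0 → I, n (wd S.g v (Sum.inl x)) =
        ∑ x', n (Sum.inl x') * (if wd S.g v (Sum.inl x) = Sum.inl x' then (1 : ℝ) else 0) := by
      intro v
      obtain ⟨y, hy⟩ := t15_wd_inl S g0 v x
      rw [hy]
      simp
    simp only [h2]
    rw [av_sum univ (fun x' (v : Fin g0 → I) =>
      n (Sum.inl x') * (if wd S.g v (Sum.inl x) = Sum.inl x' then (1 : ℝ) else 0))]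
    refine Finset.sum_congr rfl fun x' _ => ?_
    rw [av_mul_left]
  rw [h1]
  calc ∑ x', n (Sum.inl x') *
        (fw S.g)^[g0] (fun a => if a = Sum.inl x' then (1 : ℝ) else 0) (Sum.inl x)
      ≤ ∑ x', n (Sum.inl x') * (2 / (Fintype.card β : ℝ)) := by
        refine Finset.sum_le_sum fun x' _ => ?_
        exact mul_le_mul_of_nonneg_left (hM x x') (hn _)
    _ = 2 / (Fintype.card β : ℝ) * ∑ x', n (Sum.inl x') := by
        rw [← Finset.sum_mul, mul_comm]
    _ ≤ 2 / (Fintype.card β : ℝ) * tot n := by
        unfold tot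
        rw [Fintype.sum_sum_type]
        have : 0 ≤ ∑ y, n (Sum.inr y) := Finset.sum_nonneg fun y _ => hn _
        have h3 : (0 : ℝ) ≤ 2 / (Fintype.card β : ℝ) := by positivity
        exact mul_le_mul_of_nonneg_left (by linarith) h3

open Classical in
/-- decomposition of a block of length `g0` -/
theorem t15_block (S : Sys β I d) (g0 : ℕ) (hM : M8 S g0) (n : Pos β I d → ℝ)
    (hn : ∀ a, 0 ≤ n a) (x : β) :
    (fw S.gl)^[g0] n (Sum.inl x) ≤ 2 / (Fintype.card β : ℝ) * tot n +
      av (fun v : Fin g0 → Option I =>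
        if ∃ i, v i = none then n (wd S.gl v (Sum.inl x)) else 0) := by
  have h1 : (fw S.gl)^[g0] n (Sum.inl x) =
      av (fun v : Fin g0 → Option I => if ∃ i, v i = none then (0 : ℝ)
        else n (wd S.gl v (Sum.inl x))) +
      av (fun v : Fin g0 → Option I =>
        if ∃ i, v i = none then n (wd S.gl v (Sum.inl x)) else 0) := by
    rw [fw_word, ← av_add]
    congr 1; ext v
    split_ifs <;> simp
  rw [h1]
  have h2 := t15_noc g0 (fun v => n (wd S.gl v (Sum.inl x))) (fun v => hn _)
  have h3 := t15_noc_mass S g0 hM n hn x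
  rw [fw_word] at h3
  have h4 : av (fun v : Fin g0 → I => n (wd S.gl (fun i => some (v i)) (Sum.inl x))) =
      av (fun v : Fin g0 → I => n (wd S.g v (Sum.inl x))) := rfl
  linarith

theorem bulk_tot (S : Sys β I d) (g0 : ℕ) (hM : M8 S g0) (m : ℝ) (hm : m = Fintype.card I + 1)
    (t : ℕ) (ht : g0 ≤ t) (n : Pos β I d → ℝ) (hn : ∀ a, 0 ≤ n a) :
    ∑ i, (fw S.gl)^[t] n (Sum.inl (S.u i))
      ≤ (2 * Fintype.card I / (Fintype.card β : ℝ) + g0 / m) * tot n := by
  classical
  have hm0 : 0 < m := by rw [hm]; positivity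
  obtain ⟨k, rfl⟩ := Nat.exists_eq_add_of_le ht
  rw [Function.iterate_add]
  simp only [Function.comp_apply]
  have hn' := t15_nonneg_iter S.gl k n hn
  have ht' := t15_tot_iter S.gl k n
  set n' := (fw S.gl)^[k] n
  rw [← ht']
  have htot : 0 ≤ tot n' := Finset.sum_nonneg fun a _ => hn' a
  have h1 : ∀ v : Fin g0 → Option I, ∑ i, n' (wd S.gl v (Sum.inl (S.u i))) ≤ tot n' := by
    intro v
    unfold tot
    have hinj : Function.Injective (fun i : I => wd S.gl v (Sum.inl (S.u i))) := by
      intro i j hij
      exact S.u_inj (Sum.inl_injective ((wd S.gl v).injective hij))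
    calc ∑ i, n' (wd S.gl v (Sum.inl (S.u i)))
        = ∑ a ∈ univ.image (fun i : I => wd S.gl v (Sum.inl (S.u i))), n' a :=
          (Finset.sum_image fun i _ j _ h => hinj h).symm
      _ ≤ ∑ a, n' a := Finset.sum_le_sum_of_subset_of_nonneg (Finset.subset_univ _)
          fun a _ _ => hn' a
  calc ∑ i, (fw S.gl)^[g0] n' (Sum.inl (S.u i))
      ≤ ∑ i, (2 / (Fintype.card β : ℝ) * tot n' + av (fun v : Fin g0 → Option I =>
          if ∃ i, v i = none then n' (wd S.gl v (Sum.inl (S.u i))) else 0)) :=
        Finset.sum_le_sum fun i _ => t15_block S g0 hM n' hn' (S.u i)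
    _ = Fintype.card I * (2 / (Fintype.card β : ℝ) * tot n') +
        av (fun v : Fin g0 → Option I => ∑ i,
          if ∃ i, v i = none then n' (wd S.gl v (Sum.inl (S.u i))) else 0) := by
        rw [Finset.sum_add_distrib, Finset.sum_const, Finset.card_univ, nsmul_eq_mul,
          av_sum univ (fun i (v : Fin g0 → Option I) =>
            if ∃ i, v i = none then n' (wd S.gl v (Sum.inl (S.u i))) else 0)]
    _ ≤ Fintype.card I * (2 / (Fintype.card β : ℝ) * tot n') +
        av (fun v : Fin g0 → Option I =>
          (if ∃ i, v i = none then (1 : ℝ) else 0) * tot n') := by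
        gcongr
        refine av_le_av fun v => ?_
        by_cases hv : ∃ i, v i = none
        · simp only [if_pos hv, one_mul]
          exact h1 v
        · simp only [if_neg hv, zero_mul, Finset.sum_const_zero]
          exact le_rfl
    _ ≤ Fintype.card I * (2 / (Fintype.card β : ℝ) * tot n') + g0 / m * tot n' := by
        rw [av_mul_right]
        gcongr
        exact t15_hasc g0 m hm
    _ = _ := by ring

theorem bulk_pt (S : Sys β I d) (g0 : ℕ) (hM : M8 S g0) (m : ℝ) (hm : m = Fintype.card I + 1)
    (t : ℕ) (ht : g0 ≤ t) (n : Pos β I d → ℝ) (hn : ∀ a, 0 ≤ n a) (hn1 : ∀ a, n a ≤ 1)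
    (x : β) :
    (fw S.gl)^[t] n (Sum.inl x) ≤ 2 / (Fintype.card β : ℝ) * tot n + g0 / m := by
  classical
  obtain ⟨k, rfl⟩ := Nat.exists_eq_add_of_le ht
  rw [Function.iterate_add]
  simp only [Function.comp_apply]
  have hn' := t15_nonneg_iter S.gl k n hn
  have hn1' := t15_le_one_iter S.gl k n hn1
  have ht' := t15_tot_iter S.gl k n
  set n' := (fw S.gl)^[k] n
  rw [← ht']
  refine (t15_block S g0 hM n' hn' x).trans ?_
  gcongr
  refine le_trans (av_le_av fun v => ?_) (t15_hasc g0 m hm)
  split_ifs
  · exact hn1' _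
  · exact le_rfl

theorem kexp (S : Sys β I d) (g0 : ℕ) (hM : M8 S g0) (m : ℝ) (hm : m = Fintype.card I + 1)
    (t : ℕ) :
    av (fun v : Fin t → Option I => (kk (wd S.gl v) : ℝ)) ≤
      (1 - 1 / (3 * m)) ^ t * (5 / 2 * Fintype.card I)
        + 3 * Fintype.card I * (g0 / m + 2 * Fintype.card (Out I d) / Fintype.card β)
        + (d + 1) := by
  classical
  have hm1 : 1 ≤ m := by rw [hm]; linarith [(Nat.cast_nonneg (Fintype.card I) : (0 : ℝ) ≤ _)]
  have hm0 : 0 < m := by linarith
  obtain ⟨n, hn⟩ : ∃ n : Pos β I d → ℝ, n = fun a => if a.isRight = true then (1 : ℝ) else 0 :=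
    ⟨_, rfl⟩
  have hn0 : ∀ a, 0 ≤ n a := by
    intro a
    rw [hn]
    simp only
    split_ifs <;> norm_num
  have hn1 : ∀ a, n a ≤ 1 := by
    intro a
    rw [hn]
    simp only
    split_ifs <;> norm_num
  have htot : tot n = Fintype.card (Out I d) := by
    unfold tot
    rw [Fintype.sum_sum_type, hn]
    simp
  -- the mean of `kk`
  have hkk : av (fun v : Fin t → Option I => (kk (wd S.gl v) : ℝ)) =
      ∑ y, (fw S.gl)^[t] n (Sum.inr y) := by
    simp only [fw_word]
    rw [← av_sum univ (fun y (v : Fin t → Option I) => n (wd S.gl v (Sum.inr y)))]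
    congr 1; ext v
    unfold kk
    rw [Finset.card_filter, hn]
    push_cast
    rfl
  obtain ⟨ρ, hρ⟩ : ∃ ρ : ℝ, ρ = g0 / m + 2 * Fintype.card (Out I d) / Fintype.card β := ⟨_, rfl⟩
  have hρ0 : 0 ≤ ρ := by rw [hρ]; positivity
  -- bulk values
  have hbulk : ∀ s x, (fw S.gl)^[s] n (Sum.inl x) ≤ ρ := by
    intro s x
    rcases le_or_gt g0 s with hs | hs
    · have := bulk_pt S g0 hM m hm s hs n hn0 hn1 x
      rw [htot] at this
      rw [hρ]
      calc (fw S.gl)^[s] n (Sum.inl x)
          ≤ 2 / (Fintype.card β : ℝ) * Fintype.card (Out I d) + g0 / m := this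
        _ = _ := by ring
    · have h1 : (fw S.gl)^[s] n (Sum.inl x) ≤ s / m := by
        rw [fw_word]
        refine le_trans (av_le_av fun v => ?_) (t15_hasc s m hm)
        by_cases hv : ∃ i, v i = none
        · rw [if_pos hv]
          exact hn1 _
        · rw [if_neg hv]
          push Not at hv
          have hv' : ∀ i, ∃ j, v i = some j := fun i => Option.ne_none_iff_exists'.1 (hv i)
          choose v' hv' using hv'
          have hveq : v = fun i => some (v' i) := funext hv'
          obtain ⟨x', hx'⟩ := t15_wd_inl S s v' x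
          have hwd : wd S.gl v (Sum.inl x) = Sum.inl x' := by
            rw [hveq]
            exact hx'
          rw [hwd, hn]
          simp
      have h2 : (s : ℝ) / m ≤ g0 / m := by
        gcongr
      have h3 : (0 : ℝ) ≤ 2 * Fintype.card (Out I d) / Fintype.card β := by positivity
      rw [hρ]
      linarith
  -- the private mass
  have hVV : ∀ s, VV ((fw S.gl)^[s] n) ≤ (1 - 1 / (3 * m)) ^ s * (5 / 2 * Fintype.card I) +
      3 * Fintype.card I * ρ := by
    intro s
    induction s with
    | zero =>
      have : VV n = 5 / 2 * Fintype.card I := by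
        unfold VV
        rw [hn]
        simp
        ring
      simp only [Function.iterate_zero, id, pow_zero, one_mul]
      rw [this]
      have : 0 ≤ 3 * (Fintype.card I : ℝ) * ρ := by positivity
      linarith
    | succ s ih =>
      rw [Function.iterate_succ_apply']
      have h1 := VV_step S ((fw S.gl)^[s] n) (t15_nonneg_iter S.gl s n hn0) m hm
      have h2 : ∑ i, (fw S.gl)^[s] n (Sum.inl (S.u i)) ≤ Fintype.card I * ρ := by
        calc ∑ i, (fw S.gl)^[s] n (Sum.inl (S.u i)) ≤ ∑ _i : I, ρ :=
              Finset.sum_le_sum fun i _ => hbulk s _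
          _ = Fintype.card I * ρ := by rw [Finset.sum_const, Finset.card_univ, nsmul_eq_mul]
      have h3 : 0 ≤ 1 - 1 / (3 * m) := by
        rw [sub_nonneg, div_le_one (by positivity)]
        linarith
      calc VV (fw S.gl ((fw S.gl)^[s] n))
          ≤ (1 - 1 / (3 * m)) * VV ((fw S.gl)^[s] n) +
            1 / m * ∑ i, (fw S.gl)^[s] n (Sum.inl (S.u i)) := h1
        _ ≤ (1 - 1 / (3 * m)) * ((1 - 1 / (3 * m)) ^ s * (5 / 2 * Fintype.card I) +
            3 * Fintype.card I * ρ) + 1 / m * (Fintype.card I * ρ) := by gcongr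
        _ = (1 - 1 / (3 * m)) ^ (s + 1) * (5 / 2 * Fintype.card I) +
            3 * Fintype.card I * ρ := by
            have h4 : (1 - 1 / (3 * m)) * (3 * Fintype.card I * ρ) + 1 / m * (Fintype.card I * ρ)
                = 3 * Fintype.card I * ρ := by
              field_simp
              ring
            rw [pow_succ]
            linear_combination h4
  have hDV : DV ((fw S.gl)^[t] n) ≤ d + 1 := by
    unfold DV
    calc ∑ j, (fw S.gl)^[t] n (Sum.inr (Sum.inr j)) ≤ ∑ _j : Fin (d + 1), (1 : ℝ) :=
          Finset.sum_le_sum fun j _ => t15_le_one_iter S.gl t n hn1 _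
      _ = d + 1 := by simp
  have hsum : ∑ y, (fw S.gl)^[t] n (Sum.inr y) ≤
      VV ((fw S.gl)^[t] n) + DV ((fw S.gl)^[t] n) := by
    rw [Fintype.sum_sum_type]
    unfold VV DV
    gcongr
    rw [Fintype.sum_prod_type]
    refine Finset.sum_le_sum fun i _ => ?_
    rw [Fintype.sum_bool]
    have := t15_nonneg_iter S.gl t n hn0 (Sum.inr (Sum.inl (i, true)))
    linarith
  rw [hkk, ← hρ]
  have := hVV t
  linarith

end fwd

end Pool.Agent.H9.Low
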