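import Pool.Agent.H9.Low.Basic
import Pool.Agent.H9.Low.MSc
import Pool.Agent.H9.Low.DefN3
import Pool.Agent.H9.Low.T15

/-!
# Definitions, second part
-/

namespace Pool.Agent.H9.Low

open Equiv Finset

/-- the level of the marginals that the letters `B2` contract -/
noncomputable def J0r (r : ℕ) : ℕ := ⌊65536 * (r : ℝ) ^ 14 / (14700 * Real.log r)⌋₊

/-- number of blocks of a long window -/
noncomputable def qWr (r : ℕ) : ℕ := ⌊65538 * (r : ℝ) ^ 14 * Real.log r / 204⌋₊

/-- one step without `c`, for functions on tuples of positions -/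
noncomputable def Qo {β I : Type} [Fintype I] [DecidableEq I] {d : ℕ} (S : Sys β I d) {J : ℕ}
    (φ : (Fin J ↪ Pos β I d) → ℝ) : (Fin J ↪ Pos β I d) → ℝ :=
  fun x => av fun i : I => φ (x.trans (S.g i).toEmbedding)

/-- the densities `F`, `G` have `δ`-close marginals on all tuples of `J` positions -/
def TMc {X : Type} [Fintype X] [DecidableEq X] (J : ℕ) (F G : Perm X → ℝ) (δ : ℝ) : Prop :=
  ∀ (x : Fin J ↪ X) (ψ : (Fin J ↪ X) → ℝ), (∀ y, |ψ y| ≤ 1) →
    |av fun σ : Perm X => (F σ - G σ) * ψ (x.trans σ.toEmbedding)| ≤ δ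

/-- start masses: the private positions, and the bulk after one reset -/
noncomputable def n0 (β I : Type) [Fintype β] [Fintype I] (d : ℕ) : Pos β I d → ℝ :=
  Sum.elim (fun _ => 2 * (Fintype.card I : ℝ) / (Fintype.card β : ℝ))
    (Sum.elim (fun _ => 1) (fun _ => 0))

end Pool.Agent.H9.Low
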