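import Pool.Agent.H9.Low.Basic

/-!
# T10: facts on `EZ` and `EH`
-/

namespace Pool.Agent.H9.Low

open Equiv Finset

section EZ
variable {β I : Type} {w w2 d : ℕ}

theorem t10_zt_mul (z z' : I → Bool) :
    (zt z : Perm (Pos β I d)) * zt z' = zt (fun i => xor (z i) (z' i)) := by
  ext x
  rcases x with x | ⟨i, b⟩ | j
  · rfl
  · simp only [Equiv.Perm.mul_apply, zt_pr]
    cases b <;> cases z i <;> cases z' i <;> rfl
  · rfl

theorem t10_zt_false : (zt (fun _ => false) : Perm (Pos β I d)) = 1 := by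
  ext x
  rcases x with x | ⟨i, b⟩ | j
  · rfl
  · simp only [zt_pr]; cases b <;> rfl
  · rfl

theorem t10_zt_sq (z : I → Bool) : (zt z : Perm (Pos β I d)) * zt z = 1 := by
  rw [t10_zt_mul, ← t10_zt_false]
  congr 1
  ext i
  cases z i <;> rfl

theorem t10_zt_inv (z : I → Bool) : (zt z : Perm (Pos β I d))⁻¹ = zt z :=
  inv_eq_of_mul_eq_one_left (t10_zt_sq z)

theorem t10_comm (z : I → Bool) (h : Perm β) :
    (zt z : Perm (Pos β I d)) * inlP β (Out I d) h = inlP β (Out I d) h * zt z := by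
  ext x
  rcases x with x | ⟨i, b⟩ | j <;> rfl

/-- the swaps of the hidden letters -/
def t10_z (S : HSys β I w w2 d) (z : Fin w ⊕ Fin w → Bool) : Perm (Pos β I d) :=
  zt (fun i => ext z (S.e.symm i))

theorem t10_z_mul (S : HSys β I w w2 d) (z z' : Fin w ⊕ Fin w → Bool) :
    t10_z S z * t10_z S z' = t10_z S (fun i => xor (z i) (z' i)) := by
  unfold t10_z
  rw [t10_zt_mul]
  congr 1
  ext i
  unfold ext
  rcases S.e.symm i with j | j | j <;> simp

theorem EZ_add (S : HSys β I w w2 d) (F F' : Perm (Pos β I d) → ℝ) :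
    S.EZ (fun σ => F σ + F' σ) = fun σ => S.EZ F σ + S.EZ F' σ := by
  ext σ; exact av_add _ _

theorem EZ_smul (S : HSys β I w w2 d) (c : ℝ) (F : Perm (Pos β I d) → ℝ) :
    S.EZ (fun σ => c * F σ) = fun σ => c * S.EZ F σ := by
  ext σ; exact av_mul_left _ _

theorem EZ_mono (S : HSys β I w w2 d) {F F' : Perm (Pos β I d) → ℝ} (h : ∀ σ, F σ ≤ F' σ)
    (σ) : S.EZ F σ ≤ S.EZ F' σ := av_le_av fun _ => h _

theorem t10_EZ_R_aux (S : HSys β I w w2 d) (g : Perm (Pos β I d)) (k : Fin w ⊕ Fin w → Bool)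
    (u : Perm (Pos β I d)) (hg : g = u * t10_z S k)
    (hu : ∀ z, t10_z S z * u = u * t10_z S z)
    (F : Perm (Pos β I d) → ℝ) : S.EZ (R g F) = R u (S.EZ F) := by
  ext σ
  have h1 : S.EZ (R g F) σ = av fun z : Fin w ⊕ Fin w → Bool => F (σ * t10_z S z * g⁻¹) := rfl
  have h2 : R u (S.EZ F) σ = av fun z : Fin w ⊕ Fin w → Bool => F (σ * u⁻¹ * t10_z S z) := rfl
  rw [h1, h2]
  let e : (Fin w ⊕ Fin w → Bool) ≃ (Fin w ⊕ Fin w → Bool) :=
    { toFun := fun z i => xor (z i) (k i)
      invFun := fun z i => xor (z i) (k i)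
      left_inv := fun z => by ext i; simp
      right_inv := fun z => by ext i; simp }
  rw [← av_comp_equiv e (fun z : Fin w ⊕ Fin w → Bool => F (σ * u⁻¹ * t10_z S z))]
  congr 1
  ext z
  congr 1
  have h3 : t10_z S (e z) = t10_z S z * t10_z S k := (t10_z_mul S z k).symm
  have h4 : (t10_z S k)⁻¹ = t10_z S k := t10_zt_inv _
  have h5 : u⁻¹ * t10_z S z = t10_z S z * u⁻¹ := by
    rw [inv_mul_eq_iff_eq_mul, ← mul_assoc, ← hu z, mul_inv_cancel_right]
  have h6 : t10_z S z * t10_z S k = t10_z S k * t10_z S z := by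
    rw [t10_z_mul, t10_z_mul]
    congr 1
    ext i
    exact Bool.xor_comm _ _
  have h7 : u⁻¹ * t10_z S k = t10_z S k * u⁻¹ := by
    rw [inv_mul_eq_iff_eq_mul, ← mul_assoc, ← hu k, mul_inv_cancel_right]
  rw [h3, hg, mul_inv_rev, h4, mul_assoc, mul_assoc]
  congr 1
  rw [← mul_assoc, ← mul_assoc, h5, mul_assoc, mul_assoc, h7]

variable [Fintype β] [DecidableEq β] [Fintype I] [DecidableEq I]

theorem le_EZ (S : HSys β I w w2 d) (F : Perm (Pos β I d) → ℝ) (hF : ∀ σ, 0 ≤ F σ) (σ) :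
    F σ ≤ 4 ^ w * S.EZ F σ := by
  have h1 : S.EZ F σ = (∑ z : Fin w ⊕ Fin w → Bool, F (σ * t10_z S z)) / 4 ^ w := by
    unfold HSys.EZ av
    congr 1
    rw [Fintype.card_fun, Fintype.card_bool, Fintype.card_sum, Fintype.card_fin]
    push_cast
    rw [← two_mul, pow_mul]
    norm_num
  rw [h1, mul_div_cancel₀ _ (by positivity)]
  have h2 : F σ = F (σ * t10_z S (fun _ => false)) := by
    have : t10_z S (fun _ => false) = 1 := by
      unfold t10_z
      rw [← t10_zt_false]
      congr 1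
      ext i
      unfold ext
      rcases S.e.symm i with j | j | j <;> simp
    rw [this, mul_one]
  calc F σ = F (σ * t10_z S (fun _ => false)) := h2
    _ ≤ ∑ z : Fin w ⊕ Fin w → Bool, F (σ * t10_z S z) :=
        Finset.single_le_sum (f := fun z : Fin w ⊕ Fin w → Bool => F (σ * t10_z S z))
          (fun z _ => hF _) (Finset.mem_univ _)

theorem av_EZ (S : HSys β I w w2 d) (F : Perm (Pos β I d) → ℝ) : av (S.EZ F) = av F := by
  unfold HSys.EZ
  rw [av_comm]
  have : (fun z : Fin w ⊕ Fin w → Bool => av fun σ =>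
      F (σ * zt (fun i => ext z (S.e.symm i)))) = fun _ => av F := by
    ext i; exact av_mulRight _ F
  rw [this, av_const]

theorem EZ_idem (S : HSys β I w w2 d) (F : Perm (Pos β I d) → ℝ) :
    S.EZ (S.EZ F) = S.EZ F := by
  ext σ
  have h1 : S.EZ (S.EZ F) σ = av fun z : Fin w ⊕ Fin w → Bool => S.EZ F (σ * t10_z S z) := rfl
  rw [h1]
  have h2 : (fun z : Fin w ⊕ Fin w → Bool => S.EZ F (σ * t10_z S z)) = fun _ => S.EZ F σ := by
    ext z
    have h3 := t10_EZ_R_aux S (t10_z S z) z 1 (by rw [one_mul]) (fun z => by simp) F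
    have h4 : S.EZ F (σ * t10_z S z) = av fun z' : Fin w ⊕ Fin w → Bool =>
        F (σ * t10_z S z * t10_z S z') := rfl
    have h5 : S.EZ (R (t10_z S z) F) σ = av fun z' : Fin w ⊕ Fin w → Bool =>
        F (σ * t10_z S z' * (t10_z S z)⁻¹) := rfl
    have h6 := congrFun h3 σ
    rw [R_one, h5] at h6
    rw [h4, ← h6]
    congr 1
    ext z'
    have h7 : (t10_z S z)⁻¹ = t10_z S z := t10_zt_inv _
    rw [h7, mul_assoc, mul_assoc, t10_z_mul, t10_z_mul]
    congr 3
    ext i
    exact Bool.xor_comm _ _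
  rw [h2, av_const]

theorem nsq_EZ_le (S : HSys β I w w2 d) (F : Perm (Pos β I d) → ℝ) :
    nsq (S.EZ F) ≤ nsq F := by
  refine (nsq_av_le (fun (z : Fin w ⊕ Fin w → Bool) σ =>
    F (σ * zt (fun i => ext z (S.e.symm i))))).trans (av_le_const fun z => le_of_eq ?_)
  exact av_mulRight _ (fun σ => F σ ^ 2)

theorem EH_EZ (S : HSys β I w w2 d) (F : Perm (Pos β I d) → ℝ) :
    EH (S.EZ F) = S.EZ (EH F) := by
  ext σ
  have h1 : EH (S.EZ F) σ = av fun k : Perm β => av fun z : Fin w ⊕ Fin w → Bool =>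
      F (σ * inlP β (Out I d) k * zt (fun i => ext z (S.e.symm i))) := rfl
  have h2 : S.EZ (EH F) σ = av fun z : Fin w ⊕ Fin w → Bool => av fun k : Perm β =>
      F (σ * zt (fun i => ext z (S.e.symm i)) * inlP β (Out I d) k) := rfl
  rw [h1, h2, av_comm]
  congr 1
  ext z
  congr 1
  ext k
  rw [mul_assoc, mul_assoc, t10_comm]

/-- hidden letters act on `Z`-averages through their bulk part only -/
theorem EZ_R_A (S : HSys β I w w2 d) (j : Fin w) (F : Perm (Pos β I d) → ℝ) :
    S.EZ (R (S.A1 j) F) = R (inlP β (Out I d) (S.θ (S.e (Sum.inl j)))) (S.EZ F) := by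
  refine t10_EZ_R_aux S _ (fun i => decide (i = Sum.inl j)) _ ?_ (fun z => t10_comm _ _) F
  unfold HSys.A1 Sys.g t10_z
  congr 2
  ext i
  unfold ext
  obtain ⟨q, rfl⟩ := S.e.surjective i
  rw [Equiv.symm_apply_apply]
  rcases q with j' | j' | j' <;> simp

theorem EZ_R_B (S : HSys β I w w2 d) (j : Fin w) (F : Perm (Pos β I d) → ℝ) :
    S.EZ (R (S.B1 j) F)
      = R (inlP β (Out I d) (S.θ (S.e (Sum.inr (Sum.inl j))))) (S.EZ F) := by
  refine t10_EZ_R_aux S _ (fun i => decide (i = Sum.inr j)) _ ?_ (fun z => t10_comm _ _) F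
  unfold HSys.B1 Sys.g t10_z
  congr 2
  ext i
  unfold ext
  obtain ⟨q, rfl⟩ := S.e.surjective i
  rw [Equiv.symm_apply_apply]
  rcases q with j' | j' | j' <;> simp

theorem EZ_R_B2 (S : HSys β I w w2 d) (j : Fin w2) (F : Perm (Pos β I d) → ℝ) :
    S.EZ (R (S.B2 j) F) = R (S.B2 j) (S.EZ F) := by
  refine t10_EZ_R_aux S _ (fun _ => false) _ ?_ (fun z => ?_) F
  · have : t10_z S (fun _ => false) = 1 := by
      unfold t10_z
      rw [← t10_zt_false]
      congr 1
      ext i
      unfold ext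
      rcases S.e.symm i with j | j | j <;> simp
    rw [this, mul_one]
  · unfold HSys.B2 Sys.g t10_z
    rw [← mul_assoc, t10_comm, mul_assoc, mul_assoc, t10_zt_mul, t10_zt_mul]
    congr 2
    ext i
    exact Bool.xor_comm _ _

/-- the letters different from `c` act on `H`-averages through their private swap only -/
theorem EH_R_g (S : Sys β I d) (i : I) (F : Perm (Pos β I d) → ℝ) :
    EH (R (S.g i) F) = R (zt (fun j => decide (j = i))) (EH F) := by
  ext σ
  have h1 : EH (R (S.g i) F) σ = av fun k : Perm β =>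
      F (σ * inlP β (Out I d) k * (S.g i)⁻¹) := rfl
  have h2 : R (zt (fun j => decide (j = i))) (EH F) σ = av fun k : Perm β =>
      F (σ * (zt (fun j => decide (j = i)))⁻¹ * inlP β (Out I d) k) := rfl
  rw [h1, h2, ← av_mulRight (S.θ i)⁻¹ (fun k : Perm β =>
      F (σ * (zt (fun j => decide (j = i)))⁻¹ * inlP β (Out I d) k))]
  congr 1
  ext k
  congr 1
  unfold Sys.g
  rw [mul_inv_rev, t10_zt_inv, map_mul, map_inv, mul_assoc, mul_assoc]
  congr 1
  rw [← mul_assoc, ← mul_assoc, t10_comm]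

theorem R_g_EH (S : Sys β I d) (i : I) (F : Perm (Pos β I d) → ℝ) :
    R (S.g i) (EH F) = EH (R (S.g i) F) := by
  rw [EH_R_g]
  ext σ
  have h1 : R (S.g i) (EH F) σ = EH F (σ * (S.g i)⁻¹) := rfl
  have h2 : R (zt (fun j => decide (j = i))) (EH F) σ
      = EH F (σ * (zt (fun j => decide (j = i)))⁻¹) := rfl
  rw [h1, h2]
  have h3 : σ * (S.g i)⁻¹ = σ * (zt (fun j => decide (j = i)))⁻¹ *
      inlP β (Out I d) (S.θ i)⁻¹ := by
    unfold Sys.g
    rw [mul_inv_rev, map_inv, mul_assoc]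
  rw [h3]
  exact EK_mul_right (inlP β (Out I d)) F _ _

theorem EH_le (F : Perm (Pos β I d) → ℝ) (hF : ∀ σ, 0 ≤ F σ) (σ) :
    EH F σ ≤ (Fintype.card (Pos β I d) : ℝ) ^ Fintype.card (Out I d) * av F := by
  have hinj : Function.Injective fun k : Perm β => σ * inlP β (Out I d) k := by
    intro k k' hk
    have hk' := mul_left_cancel hk
    ext b
    have := congrArg (fun e : Perm (Pos β I d) => e (Sum.inl b)) hk'
    simpa using this
  have h1 : ∑ k : Perm β, F (σ * inlP β (Out I d) k) ≤ ∑ s, F s := by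
    rw [← Finset.sum_image (f := F) (g := fun k : Perm β => σ * inlP β (Out I d) k)
      (fun k _ k' _ h => hinj h)]
    exact Finset.sum_le_sum_of_subset_of_nonneg (Finset.subset_univ _) fun s _ _ => hF s
  have hNf : (0 : ℝ) < (Fintype.card β).factorial := by exact_mod_cast Nat.factorial_pos _
  have hnf : (0 : ℝ) < (Fintype.card β + Fintype.card (Out I d)).factorial := by
    exact_mod_cast Nat.factorial_pos _
  have h2 : (Fintype.card β + Fintype.card (Out I d)).factorial ≤
      (Fintype.card β).factorial *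
        (Fintype.card β + Fintype.card (Out I d)) ^ Fintype.card (Out I d) := by
    rw [← Nat.factorial_mul_ascFactorial]
    exact Nat.mul_le_mul_left _ (Nat.ascFactorial_le_pow_add _ _)
  have hcard : Fintype.card (Pos β I d) = Fintype.card β + Fintype.card (Out I d) :=
    Fintype.card_sum
  have h2' : ((Fintype.card β + Fintype.card (Out I d)).factorial : ℝ) ≤
      (Fintype.card β).factorial * ((Fintype.card β + Fintype.card (Out I d) : ℕ) : ℝ) ^
        Fintype.card (Out I d) := by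
    exact_mod_cast h2
  have hs0 : 0 ≤ ∑ s, F s := Finset.sum_nonneg fun s _ => hF s
  unfold EH EK av
  rw [Fintype.card_perm, Fintype.card_perm, hcard, div_le_iff₀ hNf]
  calc ∑ k : Perm β, F (σ * inlP β (Out I d) k) ≤ ∑ s, F s := h1
    _ = (Fintype.card β + Fintype.card (Out I d)).factorial *
        ((∑ s, F s) / (Fintype.card β + Fintype.card (Out I d)).factorial) := by
        field_simp
    _ ≤ ((Fintype.card β).factorial * ((Fintype.card β + Fintype.card (Out I d) : ℕ) : ℝ) ^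
        Fintype.card (Out I d)) *
        ((∑ s, F s) / (Fintype.card β + Fintype.card (Out I d)).factorial) :=
        mul_le_mul_of_nonneg_right h2' (by positivity)
    _ = _ := by ring

theorem nsq_EH_le (F : Perm (Pos β I d) → ℝ) (hF : SD F) :
    nsq (EH F) ≤ (Fintype.card (Pos β I d) : ℝ) ^ Fintype.card (Out I d) := by
  set C : ℝ := (Fintype.card (Pos β I d) : ℝ) ^ Fintype.card (Out I d) with hC
  have hC0 : 0 ≤ C := by positivity
  have ha0 : 0 ≤ av F := av_nonneg hF.1
  have h0 : ∀ σ, 0 ≤ EH F σ := fun σ => av_nonneg fun k => hF.1 _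
  have h1 : ∀ σ, EH F σ ≤ C := fun σ =>
    (EH_le F hF.1 σ).trans (mul_le_of_le_one_right hC0 hF.2)
  calc nsq (EH F) ≤ av fun σ => C * EH F σ := av_le_av fun σ => by
        rw [sq]; exact mul_le_mul_of_nonneg_right (h1 σ) (h0 σ)
    _ = C * av (EH F) := av_mul_left _ _
    _ = C * av F := by
        have h2 : av (EH F) = av F := av_EK (inlP β (Out I d)) F
        rw [h2]
    _ ≤ C := mul_le_of_le_one_right hC0 hF.2

end EZ

end Pool.Agent.H9.Low
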