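import Pool.Agent.H9.Low.Basic

/-!
# Mixtures of sub-densities with a mean potential
-/

namespace Pool.Agent.H9.Low

open Finset

section Dec
variable {X : Type} [Fintype X]

theorem Dec.of_fintype {ψ : (X → ℝ) → ℝ} {f : X → ℝ} {x : ℝ} {ι : Type} [Fintype ι]
    (p : ι → ℝ) (F : ι → X → ℝ) (hp : ∀ i, 0 ≤ p i) (h1 : ∑ i, p i = 1) (hF : ∀ i, SD (F i))
    (hf : ∀ a, f a = ∑ i, p i * F i a) (hx : ∑ i, p i * ψ (F i) ≤ x) : Dec ψ f x := by
  let e := Fintype.equivFin ι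
  refine ⟨Fintype.card ι, fun i => p (e.symm i), fun i => F (e.symm i), fun i => hp _, ?_,
    fun i => hF _, fun a => ?_, ?_⟩
  · rw [← h1]; exact Equiv.sum_comp e.symm p
  · rw [hf a]; exact (Equiv.sum_comp e.symm fun i => p i * F i a).symm
  · refine le_of_eq_of_le ?_ hx
    exact Equiv.sum_comp e.symm fun i => p i * ψ (F i)

theorem Dec.self {ψ : (X → ℝ) → ℝ} {f : X → ℝ} (hf : SD f) : Dec ψ f (ψ f) := by
  refine ⟨1, fun _ => 1, fun _ => f, fun _ => zero_le_one, by simp, fun _ => hf, fun a => by simp,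
    by simp⟩

theorem Dec.mono {ψ : (X → ℝ) → ℝ} {f : X → ℝ} {x y : ℝ} (h : Dec ψ f x) (hxy : x ≤ y) :
    Dec ψ f y := by
  obtain ⟨n, p, F, h1, h2, h3, h4, h5⟩ := h
  exact ⟨n, p, F, h1, h2, h3, h4, h5.trans hxy⟩

theorem Dec.mono_fun {ψ ψ' : (X → ℝ) → ℝ} {f : X → ℝ} {x : ℝ} (h : Dec ψ f x)
    (hψ : ∀ F, SD F → ψ' F ≤ ψ F) : Dec ψ' f x := by
  obtain ⟨n, p, F, h1, h2, h3, h4, h5⟩ := h
  exact ⟨n, p, F, h1, h2, h3, h4,
    (Finset.sum_le_sum fun i _ => mul_le_mul_of_nonneg_left (hψ _ (h3 i)) (h1 i)).trans h5⟩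

theorem Dec.bind {ψ ψ' : (X → ℝ) → ℝ} {f : X → ℝ} {x : ℝ} (T : (X → ℝ) → (X → ℝ))
    (hT : ∀ (n : ℕ) (p : Fin n → ℝ) (F : Fin n → X → ℝ),
      T (fun a => ∑ i, p i * F i a) = fun a => ∑ i, p i * T (F i) a)
    (a c : ℝ) (ha : 0 ≤ a) (h : ∀ F, SD F → Dec ψ' (T F) (a * ψ F + c)) (hf : Dec ψ f x) :
    Dec ψ' (T f) (a * x + c) := by
  obtain ⟨n, p, F, h1, h2, h3, h4, h5⟩ := hf
  have hf' : f = fun b => ∑ i, p i * F i b := funext h4
  have hTf : T f = fun b => ∑ i, p i * T (F i) b := by rw [hf', hT]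
  choose N q G g1 g2 g3 g4 g5 using fun i => h (F i) (h3 i)
  refine Dec.of_fintype (ι := Σ i : Fin n, Fin (N i)) (fun s => p s.1 * q s.1 s.2)
    (fun s => G s.1 s.2) (fun s => mul_nonneg (h1 _) (g1 _ _)) ?_ (fun s => g3 _ _) (fun b => ?_) ?_
  · rw [Fintype.sum_sigma]
    rw [← h2]
    refine Finset.sum_congr rfl fun i _ => ?_
    show ∑ j, p i * q i j = p i
    rw [← Finset.mul_sum, g2 i, mul_one]
  · rw [hTf, Fintype.sum_sigma]
    refine Finset.sum_congr rfl fun i _ => ?_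
    rw [g4 i b, Finset.mul_sum]
    refine Finset.sum_congr rfl fun j _ => ?_
    ring
  · rw [Fintype.sum_sigma]
    calc ∑ i, ∑ j, p i * q i j * ψ' (G i j) = ∑ i, p i * ∑ j, q i j * ψ' (G i j) := by
          refine Finset.sum_congr rfl fun i _ => ?_
          rw [Finset.mul_sum]
          refine Finset.sum_congr rfl fun j _ => ?_
          ring
      _ ≤ ∑ i, p i * (a * ψ (F i) + c) :=
          Finset.sum_le_sum fun i _ => mul_le_mul_of_nonneg_left (g5 i) (h1 i)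
      _ = a * (∑ i, p i * ψ (F i)) + c * ∑ i, p i := by
          rw [Finset.mul_sum, Finset.mul_sum, ← Finset.sum_add_distrib]
          refine Finset.sum_congr rfl fun i _ => ?_
          ring
      _ ≤ a * x + c := by
          rw [h2, mul_one]
          have := mul_le_mul_of_nonneg_left h5 ha
          linarith

theorem Dec.iterate {ψ : (X → ℝ) → ℝ} {f : X → ℝ} {x : ℝ} (T : (X → ℝ) → (X → ℝ))
    (hT : ∀ (n : ℕ) (p : Fin n → ℝ) (F : Fin n → X → ℝ),
      T (fun a => ∑ i, p i * F i a) = fun a => ∑ i, p i * T (F i) a)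
    (a c : ℝ) (ha : 0 ≤ a) (ha1 : a < 1) (hc : 0 ≤ c)
    (h : ∀ F, SD F → Dec ψ (T F) (a * ψ F + c)) (hf : Dec ψ f x) (_hx : 0 ≤ x) (q : ℕ) :
    Dec ψ (T^[q] f) (a ^ q * x + c / (1 - a)) := by
  have h1a : 0 < 1 - a := by linarith
  induction q with
  | zero =>
    refine hf.mono ?_
    have : 0 ≤ c / (1 - a) := div_nonneg hc h1a.le
    simpa using this
  | succ q ih =>
    rw [Function.iterate_succ_apply']
    refine (Dec.bind T hT a c ha h ih).mono ?_
    have : c / (1 - a) = a * (c / (1 - a)) + c := by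
      field_simp
      ring
    rw [pow_succ]
    nlinarith [this]

/-- Markov: split off the pieces with large potential -/
theorem Dec.split {ψ : (X → ℝ) → ℝ} {f : X → ℝ} {x η : ℝ} (hη : 0 < η)
    (hψ : ∀ F, SD F → 0 ≤ ψ F) (h : Dec ψ f x) :
    ∃ (n : ℕ) (p : Fin n → ℝ) (F : Fin n → X → ℝ) (ρ : X → ℝ), (∀ i, 0 ≤ p i) ∧
      ∑ i, p i ≤ 1 ∧ (∀ i, SD (F i)) ∧ (∀ i, ψ (F i) ≤ η) ∧ (∀ a, 0 ≤ ρ a) ∧ av ρ ≤ x / η ∧
      ∀ a, f a = ∑ i, p i * F i a + ρ a := by
  classical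
  obtain ⟨n, p, F, h1, h2, h3, h4, h5⟩ := h
  let good : Type := {i : Fin n // ψ (F i) ≤ η}
  let e := Fintype.equivFin good
  have hs : ∀ g : Fin n → ℝ,
      ∑ i : Fin (Fintype.card good), g (e.symm i).1
        = ∑ i ∈ univ.filter (fun i : Fin n => ψ (F i) ≤ η), g i := by
    intro g
    have h6 : ∑ i : Fin (Fintype.card good), g (e.symm i).1 = ∑ i : good, g i.1 :=
      Equiv.sum_comp e.symm (fun i : good => g i.1)
    rw [h6]
    exact (Finset.sum_subtype (univ.filter (fun i : Fin n => ψ (F i) ≤ η))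
      (fun i => by simp) g).symm
  refine ⟨Fintype.card good, fun i => p (e.symm i).1, fun i => F (e.symm i).1,
    fun a => ∑ i ∈ univ.filter (fun i : Fin n => ¬ ψ (F i) ≤ η), p i * F i a,
    fun i => h1 _, ?_, fun i => h3 _, fun i => (e.symm i).2, ?_, ?_, ?_⟩
  · rw [hs p, ← h2]
    exact Finset.sum_le_sum_of_subset_of_nonneg (Finset.filter_subset _ _) fun i _ _ => h1 i
  · intro a
    exact Finset.sum_nonneg fun i _ => mul_nonneg (h1 i) ((h3 i).1 a)
  · rw [av_sum]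
    have hb : ∀ i ∈ univ.filter (fun i : Fin n => ¬ ψ (F i) ≤ η),
        av (fun a => p i * F i a) ≤ p i * ψ (F i) / η := by
      intro i hi
      rw [Finset.mem_filter] at hi
      rw [av_mul_left, mul_div_assoc]
      refine mul_le_mul_of_nonneg_left ?_ (h1 i)
      have h6 : 1 ≤ ψ (F i) / η := by
        rw [le_div_iff₀ hη, one_mul]
        exact (not_le.1 hi.2).le
      exact (h3 i).2.trans h6
    refine (Finset.sum_le_sum hb).trans ?_
    rw [← Finset.sum_div]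
    refine div_le_div_of_nonneg_right ?_ hη.le
    refine le_trans ?_ h5
    exact Finset.sum_le_sum_of_subset_of_nonneg (Finset.filter_subset _ _)
      fun i _ _ => mul_nonneg (h1 i) (hψ _ (h3 i))
  · intro a
    rw [hs (fun i => p i * F i a), h4 a, Finset.sum_filter_add_sum_filter_not]

end Dec

end Pool.Agent.H9.Low
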