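import Pool.Agent.H9.Low.T9
import Pool.Agent.H9.Low.T10
import Pool.Agent.H9.Low.T11

/-!
# T12: blocks of stage 0
-/

namespace Pool.Agent.H9.Low

open Equiv Finset

section gen

private theorem t12_wd_snoc {G ι : Type*} [Group G] (s : ι → G) {t : ℕ} (v : Fin t → ι) (i : ι) :
    wd s (Fin.snoc v i : Fin (t + 1) → ι) = wd s v * s i := by
  unfold wd
  rw [List.ofFn_succ', List.concat_eq_append, List.prod_append, List.prod_singleton]
  simp

private theorem t12_split {Y Z : Type*} [Fintype Y] [Fintype Z] [DecidableEq Y] (φ : Z → Y)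
    (hφ : Function.Injective φ) (f : Y → ℝ) :
    ∑ y, f y = ∑ z, f (φ z) + ∑ y, (if y ∈ univ.image φ then 0 else f y) := by
  have h1 : ∑ z, f (φ z) = ∑ y, (if y ∈ univ.image φ then f y else 0) := by
    rw [Finset.sum_ite_mem, Finset.univ_inter, Finset.sum_image (fun a _ b _ h => hφ h)]
  rw [h1, ← Finset.sum_add_distrib]
  refine Finset.sum_congr rfl fun y _ => ?_
  split_ifs <;> simp

/-- Jensen for the powers `1 / w` -/
private theorem t12_jensen {V : Type*} [Fintype V] [Nonempty V] (w : ℕ) (hw : 1 ≤ w) (x : V → ℝ)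
    (hx : ∀ v, 0 ≤ x v) : av (fun v => x v ^ ((1 : ℝ) / w)) ≤ (av x) ^ ((1 : ℝ) / w) := by
  have hw' : (1 : ℝ) ≤ w := by exact_mod_cast hw
  have hc : (0 : ℝ) < Fintype.card V := by exact_mod_cast Fintype.card_pos
  have h0 : ∀ v, 0 ≤ x v ^ ((1 : ℝ) / w) := fun v => Real.rpow_nonneg (hx v) _
  have h1 := Real.pow_arith_mean_le_arith_mean_pow (s := (univ : Finset V))
    (fun _ => (1 : ℝ) / Fintype.card V) (fun v => x v ^ ((1 : ℝ) / w))
    (fun _ _ => by positivity) (by
      rw [Finset.sum_const, Finset.card_univ, nsmul_eq_mul]; field_simp) (fun v _ => h0 v) w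
  have h2 : ∑ v, (1 : ℝ) / Fintype.card V * x v ^ ((1 : ℝ) / w)
      = av (fun v => x v ^ ((1 : ℝ) / w)) := by
    unfold av
    rw [Finset.sum_div]
    refine Finset.sum_congr rfl fun v _ => ?_
    ring
  have h3 : ∑ v, (1 : ℝ) / Fintype.card V * (x v ^ ((1 : ℝ) / w)) ^ w = av x := by
    unfold av
    rw [Finset.sum_div]
    refine Finset.sum_congr rfl fun v _ => ?_
    rw [← Real.rpow_natCast, ← Real.rpow_mul (hx v), one_div_mul_cancel (by linarith),
      Real.rpow_one]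
    ring
  rw [h2, h3] at h1
  have h4 : 0 ≤ av (fun v => x v ^ ((1 : ℝ) / w)) := av_nonneg h0
  calc av (fun v => x v ^ ((1 : ℝ) / w))
      = (av (fun v => x v ^ ((1 : ℝ) / w)) ^ w) ^ ((1 : ℝ) / w) := by
        rw [← Real.rpow_natCast, ← Real.rpow_mul h4, mul_one_div_cancel (by linarith),
          Real.rpow_one]
    _ ≤ (av x) ^ ((1 : ℝ) / w) :=
        Real.rpow_le_rpow (by positivity) h1 (by positivity)

end gen

section

variable {β I : Type} [Fintype β] [DecidableEq β] [Fintype I] [DecidableEq I] {w w2 d : ℕ}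

/-- one letter different from `c` -/
private theorem t12_nsq_EZ_g (S : HSys β I w w2 d) (i : I) (F : Perm (Pos β I d) → ℝ) :
    nsq (S.EZ (R (S.g i) F)) = nsq (S.EZ F) := by
  obtain ⟨x, rfl⟩ := S.e.surjective i
  rcases x with j | j | j
  · have h := EZ_R_A S j F
    have h2 : S.A1 j = S.g (S.e (Sum.inl j)) := rfl
    rw [h2] at h
    rw [h, nsq_R]
  · have h := EZ_R_B S j F
    have h2 : S.B1 j = S.g (S.e (Sum.inr (Sum.inl j))) := rfl
    rw [h2] at h
    rw [h, nsq_R]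
  · have h := EZ_R_B2 S j F
    have h2 : S.B2 j = S.g (S.e (Sum.inr (Sum.inr j))) := rfl
    rw [h2] at h
    rw [h, nsq_R]

/-- any letter -/
private theorem t12_nsq_EZ_any (S : HSys β I w w2 d) (g : Perm (Pos β I d))
    (F : Perm (Pos β I d) → ℝ) (hF : ∀ σ, 0 ≤ F σ) :
    nsq (S.EZ (R g F)) ≤ (16 : ℝ) ^ w * nsq (S.EZ F) := by
  have h1 : nsq (S.EZ (R g F)) ≤ nsq (R g F) := nsq_EZ_le S _
  rw [nsq_R] at h1
  have h2 : nsq F ≤ nsq (fun σ => 4 ^ w * S.EZ F σ) := nsq_mono hF (le_EZ S F hF)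
  rw [nsq_smul] at h2
  have h3 : ((4 : ℝ) ^ w) ^ 2 = 16 ^ w := by
    rw [← pow_mul, mul_comm, pow_mul]; norm_num
  rw [h3] at h2
  exact h1.trans h2

/-- number of letters `c` of a word -/
private theorem t12_card_cons {t : ℕ} (o : Option I) (v : Fin t → Option I) :
    (univ.filter fun i => (Fin.cons o v : Fin (t + 1) → Option I) i = none).card
      = (if o = none then 1 else 0) + (univ.filter fun i => v i = none).card := by
  rw [Fin.card_filter_univ_succ']
  simp

/-- revealed letters -/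
theorem nsq_EZ_word (S : HSys β I w w2 d) (t : ℕ) (v : Fin t → Option I)
    (F : Perm (Pos β I d) → ℝ) (hF : ∀ σ, 0 ≤ F σ) :
    nsq (S.EZ (R (wd S.gl v) F))
      ≤ (16 : ℝ) ^ (w * (univ.filter fun i => v i = none).card) * nsq (S.EZ F) := by
  induction t generalizing F with
  | zero =>
    rw [wd_zero, R_one]
    simp
  | succ t ih =>
    obtain ⟨o, v, rfl⟩ : ∃ o v', v = (Fin.cons o v' : Fin (t + 1) → Option I) :=
      ⟨v 0, Fin.tail v, (Fin.cons_self_tail v).symm⟩
    rw [wd_cons, ← R_R, t12_card_cons]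
    have h1 := ih v (R (S.gl o) F) (fun σ => hF _)
    refine h1.trans ?_
    rcases o with _ | i
    · have h2 := t12_nsq_EZ_any S (S.gl none) F hF
      have h3 : (16 : ℝ) ^ (w * ((if (none : Option I) = none then 1 else 0)
          + (univ.filter fun i => v i = none).card))
          = 16 ^ (w * (univ.filter fun i => v i = none).card) * 16 ^ w := by
        rw [← pow_add]
        congr 1
        simp
        ring
      rw [h3, mul_assoc]
      exact mul_le_mul_of_nonneg_left h2 (by positivity)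
    · have h2 : nsq (S.EZ (R (S.gl (some i)) F)) = nsq (S.EZ F) := t12_nsq_EZ_g S i F
      rw [h2]
      simp

private theorem t12_psi_nonneg (S : HSys β I w w2 d) (F : Perm (Pos β I d) → ℝ) :
    0 ≤ S.psi F := Real.rpow_nonneg (nsq_nonneg _) _

private theorem t12_psi_word (S : HSys β I w w2 d) (hw : 1 ≤ w) (t : ℕ) (v : Fin t → Option I)
    (F : Perm (Pos β I d) → ℝ) (hF : ∀ σ, 0 ≤ F σ) :
    S.psi (R (wd S.gl v) F) ≤ 16 ^ (univ.filter fun i => v i = none).card * S.psi F := by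
  have hwR : (w : ℝ) ≠ 0 := by
    have : (1 : ℝ) ≤ w := by exact_mod_cast hw
    linarith
  unfold HSys.psi
  have h1 := Real.rpow_le_rpow (nsq_nonneg _) (nsq_EZ_word S t v F hF)
    (show (0 : ℝ) ≤ 1 / w by positivity)
  refine h1.trans (le_of_eq ?_)
  rw [Real.mul_rpow (by positivity) (nsq_nonneg _)]
  congr 1
  rw [mul_comm w, pow_mul, ← Real.rpow_natCast (16 ^ _) w, ← Real.rpow_mul (by positivity),
    mul_one_div_cancel hwR, Real.rpow_one]

private theorem t12_sum_words (t : ℕ) :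
    ∑ v : Fin t → Option I, (16 : ℝ) ^ (univ.filter fun i => v i = none).card
      = ((Fintype.card I : ℝ) + 16) ^ t := by
  have h1 : ∑ o : Option I, (if o = none then (16 : ℝ) else 1) = (Fintype.card I : ℝ) + 16 := by
    rw [Fintype.sum_option]
    simp
    ring
  rw [← h1, Fintype.sum_pow]
  refine Finset.sum_congr rfl fun v _ => ?_
  rw [Finset.prod_ite, Finset.prod_const, Finset.prod_const_one, mul_one]

private theorem t12_SD_R {F : Perm (Pos β I d) → ℝ} (hF : SD F) (g : Perm (Pos β I d)) :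
    SD (R g F) := ⟨fun σ => hF.1 _, by rw [av_R]; exact hF.2⟩

private theorem t12_SD_Mav {ι : Type*} [Fintype ι] [Nonempty ι] {F : Perm (Pos β I d) → ℝ}
    (hF : SD F) (s : ι → Perm (Pos β I d)) : SD (Mav s F) :=
  ⟨fun σ => av_nonneg fun _ => hF.1 _, by rw [av_Mav]; exact hF.2⟩

private theorem t12_SD_hb (S : HSys β I w w2 d) (hw : 1 ≤ w) {ℓ : ℕ} (v : Fin ℓ → Fin w)
    {F : Perm (Pos β I d) → ℝ} (hF : SD F) : SD (S.hb v F) := by
  have : Nonempty (Fin w) := ⟨⟨0, hw⟩⟩
  exact t12_SD_Mav (t12_SD_Mav (t12_SD_R hF _) _) _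

/-- the good words -/
private def t12_phi (S : HSys β I w w2 d) {ℓ : ℕ} (z : (Fin ℓ → Fin w) × (Fin w × Fin w)) :
    Fin (ℓ + 2) → Option I :=
  Fin.snoc (Fin.snoc (fun i => some (S.e (Sum.inr (Sum.inl (z.1 i)))))
    (some (S.e (Sum.inl z.2.1))) : Fin (ℓ + 1) → Option I) (some (S.e (Sum.inr (Sum.inl z.2.2))))

omit [DecidableEq I] [Fintype β] [DecidableEq β] [Fintype I] in
private theorem t12_phi_inj (S : HSys β I w w2 d) (ℓ : ℕ) :
    Function.Injective (t12_phi S (ℓ := ℓ)) := by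
  intro z z' h
  unfold t12_phi at h
  obtain ⟨h1, h2⟩ := Fin.snoc_injective2 h
  obtain ⟨h3, h4⟩ := Fin.snoc_injective2 h1
  have h5 : z.2.2 = z'.2.2 := by
    have := S.e.injective (Option.some_injective _ h2)
    simpa using this
  have h6 : z.2.1 = z'.2.1 := by
    have := S.e.injective (Option.some_injective _ h4)
    simpa using this
  have h7 : z.1 = z'.1 := by
    ext1 i
    have := S.e.injective (Option.some_injective _ (congrFun h3 i))
    simpa using this
  exact Prod.ext h7 (Prod.ext h6 h5)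

omit [Fintype β] [DecidableEq β] [Fintype I] in
private theorem t12_wd_phi (S : HSys β I w w2 d) {ℓ : ℕ}
    (z : (Fin ℓ → Fin w) × (Fin w × Fin w)) :
    wd S.gl (t12_phi S z) = wd S.B1 z.1 * S.A1 z.2.1 * S.B1 z.2.2 := by
  unfold t12_phi
  rw [t12_wd_snoc, t12_wd_snoc]
  rfl

omit [Fintype β] [DecidableEq β] [Fintype I] in
private theorem t12_hb_sum (S : HSys β I w w2 d) (hw : 1 ≤ w) (ℓ : ℕ)
    (F : Perm (Pos β I d) → ℝ) (σ : Perm (Pos β I d)) :
    ∑ z : (Fin ℓ → Fin w) × (Fin w × Fin w), R (wd S.gl (t12_phi S z)) F σ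
      = (w : ℝ) ^ 2 * ∑ v : Fin ℓ → Fin w, S.hb v F σ := by
  have hw' : (w : ℝ) ≠ 0 := by
    have : (1 : ℝ) ≤ w := by exact_mod_cast hw
    linarith
  rw [Fintype.sum_prod_type, Finset.mul_sum]
  refine Finset.sum_congr rfl fun v _ => ?_
  rw [Fintype.sum_prod_type, Finset.sum_comm]
  have h1 : S.hb v F σ = (∑ b : Fin w, (∑ a : Fin w,
      F (σ * (S.B1 b)⁻¹ * (S.A1 a)⁻¹ * (wd S.B1 v)⁻¹)) / (w : ℝ)) / (w : ℝ) := by
    unfold HSys.hb Mav av R
    rw [Fintype.card_fin]
  rw [h1, ← Finset.sum_div, div_div, ← pow_two, mul_div_cancel₀ _ (pow_ne_zero 2 hw')]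
  refine Finset.sum_congr rfl fun b _ => Finset.sum_congr rfl fun a _ => ?_
  rw [t12_wd_phi]
  simp only [R, mul_inv_rev, mul_assoc]

private theorem t12_phi_none (S : HSys β I w w2 d) {ℓ : ℕ}
    (z : (Fin ℓ → Fin w) × (Fin w × Fin w)) (i : Fin (ℓ + 2)) : t12_phi S z i ≠ none := by
  unfold t12_phi
  refine Fin.lastCases ?_ (fun i => ?_) i
  · rw [Fin.snoc_last]; exact Option.some_ne_none _
  · rw [Fin.snoc_castSucc]
    refine Fin.lastCases ?_ (fun i => ?_) i
    · rw [Fin.snoc_last]; exact Option.some_ne_none _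
    · rw [Fin.snoc_castSucc]; exact Option.some_ne_none _

private theorem t12_SD_EZ (S : HSys β I w w2 d) {F : Perm (Pos β I d) → ℝ} (hF : SD F) :
    SD (S.EZ F) := ⟨fun σ => av_nonneg fun _ => hF.1 _, by rw [av_EZ]; exact hF.2⟩

/-- the potential after a good block -/
private theorem t12_good (S : HSys β I w w2 d) (hw : 1 ≤ w) (ℓ : ℕ) (κ : ℝ) (hκ : 0 ≤ κ)
    (hMS : MSc (fun j => S.θ (S.e (Sum.inl j))) (fun j => S.θ (S.e (Sum.inr (Sum.inl j)))) ℓ κ)
    (F : Perm (Pos β I d) → ℝ) (hF : SD F) :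
    av (fun v : Fin ℓ → Fin w => S.psi (S.hb v F)) ≤ κ ^ ((1 : ℝ) / w) * S.psi F
      + ((Fintype.card (Pos β I d) : ℝ) ^ Fintype.card (Out I d)) ^ ((1 : ℝ) / w) := by
  have hneW : Nonempty (Fin w) := ⟨⟨0, hw⟩⟩
  have hw' : (1 : ℝ) ≤ w := by exact_mod_cast hw
  set C : ℝ := (Fintype.card (Pos β I d) : ℝ) ^ Fintype.card (Out I d) with hC
  have hC0 : 0 ≤ C := by positivity
  have h1 := t12_jensen w hw (fun v : Fin ℓ → Fin w => nsq (S.EZ (S.hb v F)))
    (fun v => nsq_nonneg _)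
  refine h1.trans ?_
  have h2 : av (fun v : Fin ℓ → Fin w => nsq (S.EZ (S.hb v F))) ≤ C + κ * nsq (S.EZ F) := by
    have h3 : ∀ v : Fin ℓ → Fin w, nsq (S.EZ (S.hb v F))
        ≤ C + nsq (fun σ => S.EZ (S.hb v F) σ - EH (S.EZ (S.hb v F)) σ) := by
      intro v
      have h4 := nsq_EK (inlP β (Out I d)) (S.EZ (S.hb v F))
      have h5 : nsq (EH (S.EZ (S.hb v F))) ≤ C :=
        nsq_EH_le _ (t12_SD_EZ S (t12_SD_hb S hw v hF))
      have h6 : nsq (EK (inlP β (Out I d)) (S.EZ (S.hb v F))) ≤ C := h5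
      have h7 : nsq (fun σ => S.EZ (S.hb v F) σ - EK (inlP β (Out I d)) (S.EZ (S.hb v F)) σ)
        = nsq (fun σ => S.EZ (S.hb v F) σ - EH (S.EZ (S.hb v F)) σ) := rfl
      rw [← h7]
      linarith
    have h8 := av_le_av h3
    rw [av_add, av_const] at h8
    have h9 := hb_contr S hw ℓ κ hκ hMS F
    have h10 : nsq (fun σ => S.EZ F σ - EH (S.EZ F) σ) ≤ nsq (S.EZ F) :=
      nsq_sub_EK_le (inlP β (Out I d)) (S.EZ F)
    have h11 := mul_le_mul_of_nonneg_left h10 hκ
    linarith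
  have h12 := Real.rpow_le_rpow (av_nonneg fun v => nsq_nonneg _) h2
    (show (0 : ℝ) ≤ 1 / w by positivity)
  refine h12.trans ?_
  have h13 : (1 : ℝ) / w ≤ 1 := by
    rw [div_le_one (by linarith)]; exact hw'
  have h14 := Real.rpow_add_le_add_rpow hC0 (mul_nonneg hκ (nsq_nonneg (S.EZ F)))
    (show (0 : ℝ) ≤ 1 / w by positivity) h13
  refine h14.trans (le_of_eq ?_)
  rw [Real.mul_rpow hκ (nsq_nonneg _)]
  unfold HSys.psi
  ring

theorem st0_block (S : HSys β I w w2 d) (hw : 1 ≤ w) (ℓ : ℕ) (κ : ℝ) (hκ : 0 ≤ κ)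
    (hMS : MSc (fun j => S.θ (S.e (Sum.inl j))) (fun j => S.θ (S.e (Sum.inr (Sum.inl j)))) ℓ κ)
    (m pg : ℝ) (hm : m = Fintype.card I + 1) (hpg : pg = (w / m) ^ (ℓ + 2))
    (F : Perm (Pos β I d) → ℝ) (hF : SD F) :
    Dec S.psi (S.P^[ℓ + 2] F)
      ((pg * κ ^ ((1 : ℝ) / w) + (1 + 15 / m) ^ (ℓ + 2) - pg) * S.psi F
        + ((Fintype.card (Pos β I d) : ℝ) ^ Fintype.card (Out I d)) ^ ((1 : ℝ) / w)) := by
  have hneW : Nonempty (Fin w) := ⟨⟨0, hw⟩⟩
  have hwR : (0 : ℝ) < w := by exact_mod_cast hw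
  have hm0 : 0 < m := by rw [hm]; positivity
  have hwm : (w : ℝ) ≤ m := by
    have h1 : w ≤ Fintype.card I := by
      have h2 := Fintype.card_le_of_injective (fun j : Fin w => S.e (Sum.inl j))
        (fun a b h => Sum.inl_injective (S.e.injective h))
      rwa [Fintype.card_fin] at h2
    have h3 : (w : ℝ) ≤ Fintype.card I := by exact_mod_cast h1
    rw [hm]; linarith
  have hpg0 : 0 ≤ pg := by rw [hpg]; positivity
  have hpg1 : pg ≤ 1 := by
    rw [hpg]
    exact pow_le_one₀ (by positivity) ((div_le_one hm0).2 hwm)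
  set M : ℝ := m ^ (ℓ + 2) with hM
  have hM0 : 0 < M := by positivity
  have hcardY : (Fintype.card (Fin (ℓ + 2) → Option I) : ℝ) = M := by
    rw [Fintype.card_fun, Fintype.card_fin, Fintype.card_option]
    push_cast
    rw [hM, hm]
  have hcardV : (Fintype.card (Fin ℓ → Fin w) : ℝ) = (w : ℝ) ^ ℓ := by
    rw [Fintype.card_fun, Fintype.card_fin, Fintype.card_fin]; push_cast; rfl
  have hwl : (0 : ℝ) < (w : ℝ) ^ ℓ := by positivity
  have hpgM : pg / (w : ℝ) ^ ℓ = (w : ℝ) ^ 2 / M := by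
    rw [hpg, hM, div_pow, pow_add]
    field_simp
  set gd : Finset (Fin (ℓ + 2) → Option I) := univ.image (t12_phi S (ℓ := ℓ)) with hgd
  have hcardZ : ((Fintype.card (Fin ℓ → Fin w) * (w * w) : ℕ) : ℝ) * (1 / M) = pg := by
    push_cast
    rw [hcardV, hpg, hM, div_pow, pow_add]
    ring
  -- the sum of the weights of the other words
  have hrest : ∑ y : Fin (ℓ + 2) → Option I, (if y ∈ gd then 0 else 1 / M) = 1 - pg := by
    have h1 := t12_split (t12_phi S (ℓ := ℓ)) (t12_phi_inj S ℓ) (fun _ => 1 / M)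
    rw [Finset.sum_const, Finset.sum_const, Finset.card_univ, Finset.card_univ, nsmul_eq_mul,
      nsmul_eq_mul, hcardY, Fintype.card_prod, Fintype.card_prod, Fintype.card_fin, hcardZ,
      mul_one_div_cancel hM0.ne'] at h1
    linarith
  have hrest2 : ∑ y : Fin (ℓ + 2) → Option I,
      (if y ∈ gd then 0 else 1 / M * (16 : ℝ) ^ (univ.filter fun i => y i = none).card)
      = (1 + 15 / m) ^ (ℓ + 2) - pg := by
    have h1 := t12_split (t12_phi S (ℓ := ℓ)) (t12_phi_inj S ℓ)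
      (fun y => 1 / M * (16 : ℝ) ^ (univ.filter fun i => y i = none).card)
    have h2 : ∑ z : (Fin ℓ → Fin w) × (Fin w × Fin w), 1 / M *
        (16 : ℝ) ^ (univ.filter fun i => t12_phi S z i = none).card = pg := by
      have h3 : ∀ z : (Fin ℓ → Fin w) × (Fin w × Fin w),
          (univ.filter fun i => t12_phi S z i = none).card = 0 := by
        intro z
        rw [Finset.card_eq_zero, Finset.filter_eq_empty_iff]
        intro i _
        exact t12_phi_none S z i
      simp only [h3, pow_zero, mul_one]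
      rw [Finset.sum_const, Finset.card_univ, nsmul_eq_mul, Fintype.card_prod,
        Fintype.card_prod, Fintype.card_fin, hcardZ]
    rw [← Finset.mul_sum, t12_sum_words, h2] at h1
    have h4 : 1 / M * ((Fintype.card I : ℝ) + 16) ^ (ℓ + 2) = (1 + 15 / m) ^ (ℓ + 2) := by
      rw [hM, one_div, ← inv_pow, ← mul_pow]
      congr 1
      have h5 : (Fintype.card I : ℝ) + 16 = m + 15 := by rw [hm]; ring
      rw [h5]
      field_simp
    rw [h4] at h1
    linarith
  refine Dec.of_fintype (ι := (Fin ℓ → Fin w) ⊕ (Fin (ℓ + 2) → Option I))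
    (Sum.elim (fun _ => pg / (w : ℝ) ^ ℓ) (fun y => if y ∈ gd then 0 else 1 / M))
    (Sum.elim (fun v => S.hb v F) (fun y => R (wd S.gl y) F)) ?_ ?_ ?_ ?_ ?_
  · rintro (v | y)
    · simp only [Sum.elim_inl]; positivity
    · simp only [Sum.elim_inr]; split_ifs <;> positivity
  · rw [Fintype.sum_sum_type]
    simp only [Sum.elim_inl, Sum.elim_inr]
    rw [hrest, Finset.sum_const, Finset.card_univ, nsmul_eq_mul, hcardV]
    field_simp
    ring
  · rintro (v | y)
    · exact t12_SD_hb S hw v hF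
    · exact t12_SD_R hF _
  · intro σ
    rw [Fintype.sum_sum_type]
    simp only [Sum.elim_inl, Sum.elim_inr]
    have h1 : S.P^[ℓ + 2] F σ
        = ∑ y : Fin (ℓ + 2) → Option I, (1 / M) * R (wd S.gl y) F σ := by
      have h2 : S.P = Mav S.gl := rfl
      rw [h2, Mav_iter]
      show av _ = _
      unfold av
      rw [hcardY, Finset.sum_div]
      refine Finset.sum_congr rfl fun y _ => ?_
      ring
    rw [h1, t12_split (t12_phi S (ℓ := ℓ)) (t12_phi_inj S ℓ), ← Finset.mul_sum,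
      ← Finset.mul_sum, t12_hb_sum S hw, hpgM]
    congr 1
    · ring
    · refine Finset.sum_congr rfl fun y _ => ?_
      split_ifs <;> simp
  · rw [Fintype.sum_sum_type]
    simp only [Sum.elim_inl, Sum.elim_inr]
    have h1 : ∑ y : Fin (ℓ + 2) → Option I,
        (if y ∈ gd then 0 else 1 / M) * S.psi (R (wd S.gl y) F)
        ≤ ((1 + 15 / m) ^ (ℓ + 2) - pg) * S.psi F := by
      rw [← hrest2, Finset.sum_mul]
      refine Finset.sum_le_sum fun y _ => ?_
      split_ifs
      · simp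
      · rw [mul_assoc]
        exact mul_le_mul_of_nonneg_left (t12_psi_word S hw _ y F hF.1) (by positivity)
    have h2 : ∑ v : Fin ℓ → Fin w, pg / (w : ℝ) ^ ℓ * S.psi (S.hb v F)
        = pg * av (fun v : Fin ℓ → Fin w => S.psi (S.hb v F)) := by
      unfold av
      rw [hcardV, ← Finset.mul_sum]
      ring
    have h3 := t12_good S hw ℓ κ hκ hMS F hF
    have h4 := mul_le_mul_of_nonneg_left h3 hpg0
    have hC0 : 0 ≤ ((Fintype.card (Pos β I d) : ℝ) ^ Fintype.card (Out I d)) ^ ((1 : ℝ) / w) := by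
      positivity
    have h5 := mul_le_mul_of_nonneg_right hpg1 hC0
    rw [h2]
    nlinarith [h1, h4, h5]

end

end Pool.Agent.H9.Low
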