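import Pool.Agent.H9.Low.Defs2
import Pool.Agent.H9.Low.T10
import Pool.Agent.H9.Low.T11
import Pool.Agent.H9.Low.T12

/-!
# Stage 0 with the parameters
-/

namespace Pool.Agent.H9.Low

open Equiv Finset

namespace LawA

/-- the step operators are linear -/
lemma lin_P {β I : Type} [Fintype β] [DecidableEq β] [Fintype I] [DecidableEq I] {d : ℕ}
    (S : Sys β I d) (N : ℕ) (p : Fin N → ℝ) (F : Fin N → Perm (Pos β I d) → ℝ) :
    S.P (fun a => ∑ i, p i * F i a) = fun a => ∑ i, p i * S.P (F i) a := by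
  ext a
  unfold Sys.P Mav
  rw [av_sum]
  refine Finset.sum_congr rfl fun i _ => ?_
  exact av_mul_left _ _

lemma lin_iter {X : Type} (T : (X → ℝ) → (X → ℝ))
    (hT : ∀ (n : ℕ) (p : Fin n → ℝ) (F : Fin n → X → ℝ),
      T (fun a => ∑ i, p i * F i a) = fun a => ∑ i, p i * T (F i) a) (k : ℕ)
    (n : ℕ) (p : Fin n → ℝ) (F : Fin n → X → ℝ) :
    T^[k] (fun a => ∑ i, p i * F i a) = fun a => ∑ i, p i * T^[k] (F i) a := by
  induction k with
  | zero => rfl
  | succ k ih =>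
    simp only [Function.iterate_succ_apply']
    rw [ih, hT]

lemma nsq_dl (n : ℕ) {G : Type} [Group G] [Fintype G] [DecidableEq G]
    (hn : Fintype.card G = n) : nsq (dl G) = n := by
  unfold nsq av dl
  have h0 : (Fintype.card G : ℝ) ≠ 0 := by exact_mod_cast Fintype.card_ne_zero
  have h1 : ∀ x : G, (if x = 1 then (Fintype.card G : ℝ) else 0) ^ 2
      = if x = 1 then (Fintype.card G : ℝ) ^ 2 else 0 := by
    intro x; split_ifs <;> simp
  simp only [h1]
  rw [Finset.sum_ite_eq' Finset.univ (1 : G)]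
  simp only [Finset.mem_univ, if_true]
  rw [← hn]
  field_simp

/-- `κ^(1/w) ≤ 1 - L/(2w)` for `κ = 1/r` -/
lemma kap {r w L : ℝ} (hr : 0 < r) (hL : L = Real.log r) (hL0 : 0 ≤ L) (hw : 0 < w)
    (hLw : 2 * L ≤ w) : (1 / r) ^ ((1 : ℝ) / w) ≤ 1 - L / (2 * w) := by
  have h1 : (1 / r) ^ ((1 : ℝ) / w) = Real.exp (-(L / w)) := by
    rw [Real.rpow_def_of_pos (by positivity), Real.log_div one_ne_zero hr.ne', Real.log_one, hL]
    congr 1; ring
  rw [h1]
  have hy0 : 0 ≤ L / w := by positivity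
  have hy1 : L / w ≤ 1 / 2 := by rw [div_le_iff₀ hw]; linarith
  have h2 : L / (2 * w) = (L / w) / 2 := by field_simp
  rw [h2]
  set y := L / w with hy
  have h3 := Real.abs_exp_sub_one_sub_id_le (x := -y) (by rw [abs_neg, abs_of_nonneg hy0]; linarith)
  have h4 := (abs_le.1 h3).2
  have h5 : (-y) ^ 2 ≤ y / 2 := by nlinarith
  linarith

/-- `(1 + 15/m)^102 ≤ 1 + 1/w` for `m ≥ 65538 w` -/
lemma pw {m w : ℝ} (hw : 1 ≤ w) (hm : 65538 * w ≤ m) : (1 + 15 / m) ^ 102 ≤ 1 + 1 / w := by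
  have hm0 : 0 < m := by linarith
  have hw0 : 0 < w := by linarith
  have h1 : (1 + 15 / m) ^ 102 ≤ Real.exp (1530 / m) := by
    have h2 : 1 + 15 / m ≤ Real.exp (15 / m) := by
      have := Real.add_one_le_exp (15 / m); linarith
    calc (1 + 15 / m) ^ 102 ≤ Real.exp (15 / m) ^ 102 :=
          pow_le_pow_left₀ (by positivity) h2 102
      _ = Real.exp (1530 / m) := by rw [← Real.exp_nat_mul]; congr 1; push_cast; ring
  refine h1.trans ?_
  have hy0 : 0 ≤ 1530 / m := by positivity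
  have hy1 : 1530 / m ≤ 1 := by rw [div_le_one hm0]; linarith
  have h3 := Real.abs_exp_sub_one_sub_id_le (x := 1530 / m) (by rw [abs_of_nonneg hy0]; exact hy1)
  have h4 := (abs_le.1 h3).2
  have h5 : 1530 / m ≤ 1 / (2 * w) := by
    rw [div_le_div_iff₀ hm0 (by positivity)]; linarith
  have h6 : 1 / (2 * w) = (1 / w) / 2 := by field_simp
  have h7 : (1530 / m) ^ 2 ≤ 1530 / m := by nlinarith
  linarith

/-- the contraction factor -/
lemma fac {r w m L p0 pg : ℝ} (hr : 0 < r) (hL : L = Real.log r) (hL0 : 0 ≤ L) (hw : 1 ≤ w)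
    (hLw : 2 * L ≤ w) (hm : 65538 * w ≤ m) (hp0 : 0 < p0) (hpg : p0 ≤ pg) (hpg1 : pg ≤ 1)
    (hLp : 4 ≤ p0 * L) :
    0 ≤ pg * (1 / r) ^ ((1 : ℝ) / w) + (1 + 15 / m) ^ 102 - pg ∧
    pg * (1 / r) ^ ((1 : ℝ) / w) + (1 + 15 / m) ^ 102 - pg ≤ 1 - p0 * L / (4 * w) := by
  have hw0 : 0 < w := by linarith
  have h1 := kap hr hL hL0 hw0 hLw
  have h2 := pw hw hm
  have h3 : 0 ≤ (1 / r) ^ ((1 : ℝ) / w) := Real.rpow_nonneg (by positivity) _
  have hm0 : 0 < m := by linarith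
  have h4 : (1 : ℝ) ≤ (1 + 15 / m) ^ 102 :=
    one_le_pow₀ (by have : 0 ≤ 15 / m := by positivity
                    linarith)
  constructor
  · have : 0 ≤ pg * (1 / r) ^ ((1 : ℝ) / w) := mul_nonneg (by linarith) h3
    linarith
  · have h5 : pg * (1 / r) ^ ((1 : ℝ) / w) ≤ pg * (1 - L / (2 * w)) :=
      mul_le_mul_of_nonneg_left h1 (by linarith)
    have h6 : p0 * (L / (2 * w)) ≤ pg * (L / (2 * w)) :=
      mul_le_mul_of_nonneg_right hpg (by positivity)
    have h7 : 1 / w ≤ p0 * L / (4 * w) := by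
      rw [div_le_div_iff₀ hw0 (by positivity)]
      nlinarith
    have h8 : p0 * (L / (2 * w)) = 2 * (p0 * L / (4 * w)) := by field_simp; ring
    nlinarith

/-- `(n^k)^(1/w) ≤ exp(k l / w)` -/
lemma rp {n l w : ℝ} {k : ℕ} (hn : 0 < n) (hl : Real.log n ≤ l) (hw : 0 < w) :
    (n ^ k) ^ ((1 : ℝ) / w) ≤ Real.exp (k * l / w) := by
  rw [Real.rpow_def_of_pos (by positivity), Real.exp_le_exp, Real.log_pow, mul_one_div]
  exact div_le_div_of_nonneg_right (mul_le_mul_of_nonneg_left hl (Nat.cast_nonneg k)) hw.le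

/-- the threshold -/
lemma thr (c : ℝ) : ∃ r0 : ℕ, ∀ r : ℕ, r0 ≤ r → 29 ≤ r ∧ c ≤ Real.log r := by
  have h1 : Filter.Tendsto (fun r : ℕ => Real.log (r : ℝ)) Filter.atTop Filter.atTop :=
    Real.tendsto_log_atTop.comp tendsto_natCast_atTop_atTop
  obtain ⟨r0, hr0⟩ := Filter.eventually_atTop.1
    ((h1.eventually_ge_atTop c).and (Filter.eventually_ge_atTop 29))
  exact ⟨r0, fun r hr => ⟨(hr0 r hr).2, (hr0 r hr).1⟩⟩

lemma two20 {x : ℝ} (hx : 29 ≤ x) : (x + 1) ^ 20 ≤ 2 * x ^ 20 := by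
  have hx0 : 0 < x := by linarith
  have h1 : (x + 1) ≤ x * (1 + 1 / 29) := by
    have : x * (1 + 1 / 29) = x + x / 29 := by ring
    rw [this]; linarith
  calc (x + 1) ^ 20 ≤ (x * (1 + 1 / 29)) ^ 20 := pow_le_pow_left₀ (by linarith) h1 20
    _ = x ^ 20 * (1 + 1 / 29) ^ 20 := by rw [mul_pow]
    _ ≤ x ^ 20 * 2 := mul_le_mul_of_nonneg_left (by norm_num) (by positivity)
    _ = 2 * x ^ 20 := by ring

/-- `log n ≤ 21 log r` -/
lemma logn {x n : ℝ} (hx : 29 ≤ x) (hL : 1 ≤ Real.log x) (hn0 : 0 < n)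
    (hnx : n ≤ 2 * x ^ 20) : Real.log n ≤ 21 * Real.log x := by
  have hx0 : 0 < x := by linarith
  have e1 : Real.log n ≤ Real.log (2 * x ^ 20) := Real.log_le_log hn0 hnx
  rw [Real.log_mul (by norm_num) (by positivity), Real.log_pow] at e1
  have e2 := Real.log_two_lt_d9
  push_cast at e1
  linarith

/-- final sizes: `a = a0^Q`, start `X`, `c` the additive constant -/
lemma fin {a0 w L p0 c n A o : ℝ} {Q : ℕ} (hw : 1 ≤ w) (hL0 : 0 < L) (hp0 : 0 < p0)
    (hLp : 4 ≤ p0 * L) (ha : 0 ≤ a0) (ha0 : a0 ≤ 1 - p0 * L / (4 * w))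
    (hQ : 84 / p0 * n ≤ Q) (hc0 : 0 ≤ c) (hwL : w = Real.exp (14 * L))
    (hc : c ≤ Real.exp (o * L)) (hA : A = 15 + o) (ho : 0 ≤ o) (hL1 : 1 ≤ L) :
    a0 ^ Q * Real.exp (21 * L * n / w) + c / (1 - a0) ≤ Real.exp (A * L) := by
  have hw0 : 0 < w := by linarith
  have h1 : a0 ≤ Real.exp (-(p0 * L / (4 * w))) := by
    have := Real.add_one_le_exp (-(p0 * L / (4 * w))); linarith
  have h2 : a0 ^ Q ≤ Real.exp (-(21 * L * n / w)) := by
    calc a0 ^ Q ≤ Real.exp (-(p0 * L / (4 * w))) ^ Q := pow_le_pow_left₀ ha h1 Q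
      _ = Real.exp (Q * (-(p0 * L / (4 * w)))) := by rw [← Real.exp_nat_mul]
      _ ≤ Real.exp (-(21 * L * n / w)) := by
          rw [Real.exp_le_exp]
          have h3 : (84 / p0 * n) * (p0 * L / (4 * w)) ≤ Q * (p0 * L / (4 * w)) :=
            mul_le_mul_of_nonneg_right hQ (by positivity)
          have h4 : (84 / p0 * n) * (p0 * L / (4 * w)) = 21 * L * n / w := by
            field_simp; ring
          linarith
  have h3 : a0 ^ Q * Real.exp (21 * L * n / w) ≤ 1 := by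
    calc a0 ^ Q * Real.exp (21 * L * n / w)
        ≤ Real.exp (-(21 * L * n / w)) * Real.exp (21 * L * n / w) :=
          mul_le_mul_of_nonneg_right h2 (Real.exp_pos _).le
      _ = 1 := by rw [← Real.exp_add]; simp
  have h4 : 1 / w ≤ 1 - a0 := by
    have h5 : 1 / w ≤ p0 * L / (4 * w) := by
      rw [div_le_div_iff₀ hw0 (by positivity)]
      nlinarith
    linarith
  have h5 : c / (1 - a0) ≤ w * c := by
    have h6 : 0 < 1 - a0 := lt_of_lt_of_le (by positivity) h4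
    rw [div_le_iff₀ h6]
    have h7 : 1 ≤ w * (1 - a0) := by
      calc (1 : ℝ) = w * (1 / w) := by field_simp
        _ ≤ w * (1 - a0) := mul_le_mul_of_nonneg_left h4 hw0.le
    calc c = c * 1 := (mul_one c).symm
      _ ≤ c * (w * (1 - a0)) := mul_le_mul_of_nonneg_left h7 hc0
      _ = w * c * (1 - a0) := by ring
  have h6 : w * c ≤ Real.exp ((14 + o) * L) := by
    calc w * c ≤ Real.exp (14 * L) * Real.exp (o * L) := by
          rw [hwL]; exact mul_le_mul_of_nonneg_left hc (Real.exp_pos _).le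
      _ = Real.exp ((14 + o) * L) := by rw [← Real.exp_add]; congr 1; ring
  have h7 : 1 + Real.exp ((14 + o) * L) ≤ Real.exp (A * L) := by
    have h8 : Real.exp (A * L) = Real.exp L * Real.exp ((14 + o) * L) := by
      rw [← Real.exp_add, hA]; congr 1; ring
    have h9 : 2 ≤ Real.exp L := by
      have := Real.add_one_le_exp L; linarith
    have h10 : 1 ≤ Real.exp ((14 + o) * L) := Real.one_le_exp (by positivity)
    rw [h8]
    nlinarith
  linarith

end LawA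

open LawA in
theorem law_a : ∃ C1 : ℕ, ∃ A1 : ℝ, 0 < A1 ∧ ∃ r0 : ℕ, ∀ r ≥ r0, ∀ n d : ℕ, r ^ 20 ≤ n →
    n < (r + 1) ^ 20 → d + 1 ≤ r ^ 7 →
    ∀ (β I : Type) [Fintype β] [DecidableEq β] [Fintype I] [DecidableEq I]
      (S : HSys β I (r ^ 14) (65536 * r ^ 14) d),
      Fintype.card β + 131076 * r ^ 14 + (d + 1) = n →
      MSc (fun j => S.θ (S.e (Sum.inl j))) (fun j => S.θ (S.e (Sum.inr (Sum.inl j)))) 100
        (1 / r) →
    (∀ Q : ℕ, C1 * n ≤ Q →
      Dec S.psi (S.P^[102 * Q] (dl (Perm (Pos β I d)))) (Real.exp (A1 * Real.log r))) ∧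
    16 * ((Fintype.card (Pos β I d) : ℝ) ^ Fintype.card (Out I d)) ^ ((1 : ℝ) / (r ^ 14 : ℕ))
      ≤ Real.exp (A1 * Real.log r) := by
  obtain ⟨p0, hp0⟩ : ∃ p0 : ℝ, p0 = (1 / 65539) ^ 102 := ⟨_, rfl⟩
  have hp0pos : 0 < p0 := by rw [hp0]; exact pow_pos (by norm_num) 102
  obtain ⟨r0, hr0⟩ := thr (max 3 (4 / p0))
  refine ⟨⌈84 / p0⌉₊, 15 + 21 * 131077, by norm_num, r0, ?_⟩
  intro r hr n d hn1 hn2 hd β I _ _ _ _ S hcard hMS
  obtain ⟨hr29, hrL⟩ := hr0 r hr
  have hx : (29 : ℝ) ≤ r := by exact_mod_cast hr29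
  have hL3 : 3 ≤ Real.log r := (le_max_left _ _).trans hrL
  have hLp : 4 ≤ p0 * Real.log r := by
    have := (le_max_right _ _).trans hrL
    rw [div_le_iff₀ hp0pos] at this
    linarith
  have hnx : (n : ℝ) ≤ 2 * (r : ℝ) ^ 20 := by
    have e1 : (n : ℝ) ≤ ((r : ℝ) + 1) ^ 20 := by exact_mod_cast hn2.le
    exact e1.trans (two20 hx)
  clear hn2
  have hr1 : 1 ≤ r := by omega
  have hn0 : (0 : ℝ) < n := by
    have h1 : (r : ℝ) ^ 20 ≤ n := by exact_mod_cast hn1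
    exact lt_of_lt_of_le (by positivity) h1
  have hlogn := logn hx (by linarith) hn0 hnx
  -- cardinalities
  have hI : Fintype.card I = 65538 * r ^ 14 := by
    rw [← Fintype.card_congr S.e]
    simp only [Fintype.card_sum, Fintype.card_fin]
    ring
  have hO : Fintype.card (Out I d) = 131076 * r ^ 14 + (d + 1) := by
    simp only [Fintype.card_sum, Fintype.card_prod, Fintype.card_fin, Fintype.card_bool]
    rw [hI]; ring
  have hPos : Fintype.card (Pos β I d) = n := by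
    rw [Fintype.card_sum, hO]; omega
  have hd' : (d : ℝ) + 1 ≤ (r : ℝ) ^ 14 := by
    have h1 : r ^ 7 ≤ r ^ 14 := Nat.pow_le_pow_right hr1 (by norm_num)
    have h2 : d + 1 ≤ r ^ 14 := hd.trans h1
    exact_mod_cast h2
  have hw1 : 1 ≤ r ^ 14 := Nat.one_le_pow _ _ hr1
  have hcastw : ((r ^ 14 : ℕ) : ℝ) = (r : ℝ) ^ 14 := by push_cast; rfl
  have hw1r : (1 : ℝ) ≤ ((r ^ 14 : ℕ) : ℝ) := by exact_mod_cast hw1
  have hwL : ((r ^ 14 : ℕ) : ℝ) = Real.exp (14 * Real.log r) := by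
    rw [hcastw, ← Real.exp_log (show (0 : ℝ) < (r : ℝ) ^ 14 by positivity), Real.log_pow]
    push_cast; rfl
  have hOr : (Fintype.card (Out I d) : ℝ) ≤ 131077 * ((r ^ 14 : ℕ) : ℝ) := by
    rw [hO, hcastw]; push_cast; linarith
  -- the additive constant
  have hc0 : (0 : ℝ) ≤ ((n : ℝ) ^ Fintype.card (Out I d)) ^ ((1 : ℝ) / (r ^ 14 : ℕ)) :=
    Real.rpow_nonneg (by positivity) _
  have hc : ((n : ℝ) ^ Fintype.card (Out I d)) ^ ((1 : ℝ) / (r ^ 14 : ℕ))
      ≤ Real.exp ((21 * 131077) * Real.log r) := by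
    refine (rp hn0 hlogn (by linarith)).trans ?_
    rw [Real.exp_le_exp, div_le_iff₀ (by linarith)]
    calc (Fintype.card (Out I d) : ℝ) * (21 * Real.log r)
        ≤ (131077 * ((r ^ 14 : ℕ) : ℝ)) * (21 * Real.log r) :=
          mul_le_mul_of_nonneg_right hOr (by linarith)
      _ = 21 * 131077 * Real.log r * ((r ^ 14 : ℕ) : ℝ) := by ring
  rw [hPos]
  refine ⟨fun Q hQ => ?_, ?_⟩
  · -- the iteration
    have hQr : 84 / p0 * n ≤ Q := by
      have h1 : ((⌈84 / p0⌉₊ * n : ℕ) : ℝ) ≤ (Q : ℝ) := by exact_mod_cast hQ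
      push_cast at h1
      exact (mul_le_mul_of_nonneg_right (Nat.le_ceil _) hn0.le).trans h1
    set m : ℝ := (Fintype.card I : ℝ) + 1 with hm
    have hmI : m = 65538 * ((r ^ 14 : ℕ) : ℝ) + 1 := by rw [hm, hI]; push_cast; ring
    have hm0 : 0 < m := by rw [hm]; positivity
    set pg : ℝ := (((r ^ 14 : ℕ) : ℝ) / m) ^ (100 + 2) with hpg
    have hwm1 : ((r ^ 14 : ℕ) : ℝ) / m ≤ 1 := by rw [div_le_one hm0]; linarith
    have hwm0 : 0 ≤ ((r ^ 14 : ℕ) : ℝ) / m := by positivity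
    have hpg1 : pg ≤ 1 := pow_le_one₀ hwm0 hwm1
    have hpgp : p0 ≤ pg := by
      rw [hp0, hpg]
      refine pow_le_pow_left₀ (by norm_num) ?_ _
      rw [div_le_div_iff₀ (by norm_num) hm0, one_mul]
      linarith
    have hLw : 2 * Real.log r ≤ ((r ^ 14 : ℕ) : ℝ) := by
      have h1 : Real.log r ≤ r := (Real.log_le_sub_one_of_pos (by linarith)).trans (by linarith)
      have h2 : (r : ℝ) ^ 2 ≤ (r : ℝ) ^ 14 := pow_le_pow_right₀ (by linarith) (by norm_num)
      rw [hcastw]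
      nlinarith
    obtain ⟨ha, ha0⟩ := fac (r := (r : ℝ)) (w := ((r ^ 14 : ℕ) : ℝ)) (m := m) (p0 := p0)
      (pg := pg) (by linarith) rfl (by linarith) hw1r hLw (by linarith) hp0pos hpgp hpg1 hLp
    set a0 : ℝ := pg * (1 / (r : ℝ)) ^ ((1 : ℝ) / ((r ^ 14 : ℕ) : ℝ)) + (1 + 15 / m) ^ 102 - pg
      with ha0d
    have ha1 : a0 < 1 := by
      have : 0 < p0 * Real.log r / (4 * ((r ^ 14 : ℕ) : ℝ)) := by
        have : 0 < p0 * Real.log r := by linarith
        positivity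
      linarith
    have hdl : SD (dl (Perm (Pos β I d))) := ⟨dens_dl.1, dens_dl.2.le⟩
    have hstart : S.psi (dl (Perm (Pos β I d))) ≤ Real.exp (21 * Real.log r * n / ((r ^ 14 : ℕ) : ℝ)) := by
      unfold HSys.psi
      have h1 : nsq (S.EZ (dl (Perm (Pos β I d)))) ≤ (n : ℝ) ^ n := by
        refine (nsq_EZ_le S _).trans ?_
        rw [nsq_dl n.factorial (by rw [Fintype.card_perm, hPos])]
        exact_mod_cast Nat.factorial_le_pow n
      have h2 : nsq (S.EZ (dl (Perm (Pos β I d)))) ^ ((1 : ℝ) / (r ^ 14 : ℕ)) ≤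
          ((n : ℝ) ^ n) ^ ((1 : ℝ) / (r ^ 14 : ℕ)) :=
        Real.rpow_le_rpow (nsq_nonneg _) h1 (by positivity)
      refine h2.trans ((rp hn0 hlogn (by linarith)).trans (le_of_eq ?_))
      congr 1; ring
    have hit := Dec.iterate (ψ := S.psi) (S.P^[102])
      (fun N p F => lin_iter S.P (fun N p F => lin_P S.toSys N p F) 102 N p F) a0
      (((n : ℝ) ^ Fintype.card (Out I d)) ^ ((1 : ℝ) / (r ^ 14 : ℕ))) ha ha1 hc0
      (fun F hF => by
        have h1 := st0_block S hw1 100 (1 / r) (by positivity) hMS m pg hm rfl F hF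
        rw [hPos] at h1
        exact h1)
      ((Dec.self hdl).mono hstart) (Real.exp_pos _).le Q
    rw [Function.iterate_mul]
    refine hit.mono ?_
    exact fin (w := ((r ^ 14 : ℕ) : ℝ)) (p0 := p0) (n := (n : ℝ)) (o := 21 * 131077)
      hw1r (by linarith) hp0pos hLp ha ha0 hQr hc0 hwL hc rfl (by norm_num) (by linarith)
  · have h16 : (16 : ℝ) ≤ Real.exp (15 * Real.log r) := by
      have := Real.add_one_le_exp (15 * Real.log r); linarith
    calc 16 * ((n : ℝ) ^ Fintype.card (Out I d)) ^ ((1 : ℝ) / (r ^ 14 : ℕ))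
        ≤ Real.exp (15 * Real.log r) * Real.exp ((21 * 131077) * Real.log r) :=
          mul_le_mul h16 hc hc0 (Real.exp_pos _).le
      _ = Real.exp ((15 + 21 * 131077) * Real.log r) := by
          rw [← Real.exp_add]; congr 1; ring

end Pool.Agent.H9.Low
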