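import Pool.Agent.H9.Low.T9
import Pool.Agent.H9.Low.T11

/-!
# T13: long windows without the letter `c`
-/

namespace Pool.Agent.H9.Low

open Equiv Finset

section gen

private theorem t13_wd_snoc {G ι : Type*} [Group G] (s : ι → G) {t : ℕ} (v : Fin t → ι) (i : ι) :
    wd s (Fin.snoc v i : Fin (t + 1) → ι) = wd s v * s i := by
  unfold wd
  rw [List.ofFn_succ', List.concat_eq_append, List.prod_append, List.prod_singleton]
  simp

private theorem t13_split {Y Z : Type*} [Fintype Y] [Fintype Z] [DecidableEq Y] (φ : Z → Y)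
    (hφ : Function.Injective φ) (f : Y → ℝ) :
    ∑ y, f y = ∑ z, f (φ z) + ∑ y, (if y ∈ univ.image φ then 0 else f y) := by
  have h1 : ∑ z, f (φ z) = ∑ y, (if y ∈ univ.image φ then f y else 0) := by
    rw [Finset.sum_ite_mem, Finset.univ_inter, Finset.sum_image (fun a _ b _ h => hφ h)]
  rw [h1, ← Finset.sum_add_distrib]
  refine Finset.sum_congr rfl fun y _ => ?_
  split_ifs <;> simp

/-- Jensen for the powers `1 / w` -/
private theorem t13_jensen {V : Type*} [Fintype V] [Nonempty V] (w : ℕ) (hw : 1 ≤ w) (x : V → ℝ)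
    (hx : ∀ v, 0 ≤ x v) : av (fun v => x v ^ ((1 : ℝ) / w)) ≤ (av x) ^ ((1 : ℝ) / w) := by
  have hw' : (1 : ℝ) ≤ w := by exact_mod_cast hw
  have hc : (0 : ℝ) < Fintype.card V := by exact_mod_cast Fintype.card_pos
  have h0 : ∀ v, 0 ≤ x v ^ ((1 : ℝ) / w) := fun v => Real.rpow_nonneg (hx v) _
  have h1 := Real.pow_arith_mean_le_arith_mean_pow (s := (univ : Finset V))
    (fun _ => (1 : ℝ) / Fintype.card V) (fun v => x v ^ ((1 : ℝ) / w))
    (fun _ _ => by positivity) (by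
      rw [Finset.sum_const, Finset.card_univ, nsmul_eq_mul]; field_simp) (fun v _ => h0 v) w
  have h2 : ∑ v, (1 : ℝ) / Fintype.card V * x v ^ ((1 : ℝ) / w)
      = av (fun v => x v ^ ((1 : ℝ) / w)) := by
    unfold av
    rw [Finset.sum_div]
    refine Finset.sum_congr rfl fun v _ => ?_
    ring
  have h3 : ∑ v, (1 : ℝ) / Fintype.card V * (x v ^ ((1 : ℝ) / w)) ^ w = av x := by
    unfold av
    rw [Finset.sum_div]
    refine Finset.sum_congr rfl fun v _ => ?_
    rw [← Real.rpow_natCast, ← Real.rpow_mul (hx v), one_div_mul_cancel (by linarith),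
      Real.rpow_one]
    ring
  rw [h2, h3] at h1
  have h4 : 0 ≤ av (fun v => x v ^ ((1 : ℝ) / w)) := av_nonneg h0
  calc av (fun v => x v ^ ((1 : ℝ) / w))
      = (av (fun v => x v ^ ((1 : ℝ) / w)) ^ w) ^ ((1 : ℝ) / w) := by
        rw [← Real.rpow_natCast, ← Real.rpow_mul h4, mul_one_div_cancel (by linarith),
          Real.rpow_one]
    _ ≤ (av x) ^ ((1 : ℝ) / w) :=
        Real.rpow_le_rpow (by positivity) h1 (by positivity)

end gen

section

variable {β I : Type} {w w2 d : ℕ}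

private theorem t13_zt_mul (z z' : I → Bool) :
    (zt z : Perm (Pos β I d)) * zt z' = zt (fun i => xor (z' i) (z i)) := by
  ext x
  rcases x with x | ⟨i, b⟩ | x
  · rfl
  · simp [Perm.mul_apply]
  · rfl

private theorem t13_zt_inv (z : I → Bool) : (zt z : Perm (Pos β I d))⁻¹ = zt z := by
  refine inv_eq_of_mul_eq_one_left ?_
  rw [t13_zt_mul]
  ext x
  rcases x with x | ⟨i, b⟩ | x
  · rfl
  · simp
  · rfl

private theorem t13_zt_comm (z : I → Bool) (h : Perm β) :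
    (zt z : Perm (Pos β I d)) * inlP β (Out I d) h = inlP β (Out I d) h * zt z := by
  ext x
  rcases x with x | ⟨i, b⟩ | x
  · rfl
  · rfl
  · rfl

private theorem t13_zt_comm' (z z' : I → Bool) :
    (zt z : Perm (Pos β I d)) * zt z' = zt z' * zt z := by
  rw [t13_zt_mul, t13_zt_mul]
  congr 1
  ext i
  cases z i <;> cases z' i <;> rfl

variable [DecidableEq I]

private theorem t13_EZ_R (S : HSys β I w w2 d) (y : Fin w ⊕ Fin w) (x : II w w2)
    (hx : ∀ z : Fin w ⊕ Fin w → Bool,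
      (fun i => xor (decide (i = x)) (ext z i)) = ext (w2 := w2) (fun y' => xor (decide (y' = y)) (z y')))
    (F : Perm (Pos β I d) → ℝ) :
    S.EZ (R (S.g (S.e x)) F) = R (inlP β (Out I d) (S.θ (S.e x))) (S.EZ F) := by
  ext σ
  unfold HSys.EZ R
  let E : (Fin w ⊕ Fin w → Bool) ≃ (Fin w ⊕ Fin w → Bool) :=
    ⟨fun z y' => xor (decide (y' = y)) (z y'), fun z y' => xor (decide (y' = y)) (z y'),
      fun z => by ext y'; simp, fun z => by ext y'; simp⟩
  rw [← av_comp_equiv E]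
  congr 1; ext z
  congr 1
  have h1 : (S.g (S.e x))⁻¹ = zt (fun j => decide (j = S.e x)) *
      (inlP β (Out I d) (S.θ (S.e x)))⁻¹ := by
    unfold Sys.g
    rw [mul_inv_rev, t13_zt_inv]
  have h2 : (zt (fun i => ext (E z) (S.e.symm i)) : Perm (Pos β I d)) =
      zt (fun i => ext z (S.e.symm i)) * zt (fun j => decide (j = S.e x)) := by
    rw [t13_zt_mul]
    congr 1
    ext i
    have h3 := congrFun (hx z) (S.e.symm i)
    have h4 : decide (S.e.symm i = x) = decide (i = S.e x) := by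
      rw [decide_eq_decide]; exact S.e.symm_apply_eq
    rw [h4] at h3
    exact h3.symm
  have h5 : (zt (fun j => decide (j = S.e x)) : Perm (Pos β I d)) *
      zt (fun j => decide (j = S.e x)) = 1 := by
    have h6 := t13_zt_inv (β := β) (d := d) (fun j => decide (j = S.e x))
    have h8 := mul_inv_cancel (zt (fun j => decide (j = S.e x)) : Perm (Pos β I d))
    rw [h6] at h8
    exact h8
  have h7 := t13_zt_comm (d := d) (fun i => ext z (S.e.symm i)) (S.θ (S.e x))⁻¹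
  rw [map_inv] at h7
  show σ * zt (fun i => ext (E z) (S.e.symm i)) * (S.g (S.e x))⁻¹ =
    σ * (inlP β (Out I d) (S.θ (S.e x)))⁻¹ * zt (fun i => ext z (S.e.symm i))
  rw [h1, h2, mul_assoc, mul_assoc, ← mul_assoc (zt (fun j => decide (j = S.e x))), h5, one_mul,
    h7, mul_assoc]

private theorem t13_EZ_R_A (S : HSys β I w w2 d) (j : Fin w) (F : Perm (Pos β I d) → ℝ) :
    S.EZ (R (S.g (S.e (Sum.inl j))) F)
      = R (inlP β (Out I d) (S.θ (S.e (Sum.inl j)))) (S.EZ F) := by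
  refine t13_EZ_R S (Sum.inl j) (Sum.inl j) (fun z => ?_) F
  ext i
  rcases i with i | i | i <;> simp [ext]

private theorem t13_EZ_R_B (S : HSys β I w w2 d) (j : Fin w) (F : Perm (Pos β I d) → ℝ) :
    S.EZ (R (S.g (S.e (Sum.inr (Sum.inl j)))) F)
      = R (inlP β (Out I d) (S.θ (S.e (Sum.inr (Sum.inl j))))) (S.EZ F) := by
  refine t13_EZ_R S (Sum.inr j) (Sum.inr (Sum.inl j)) (fun z => ?_) F
  ext i
  rcases i with i | i | i <;> simp [ext]

private theorem t13_EZ_R_B2 (S : HSys β I w w2 d) (j : Fin w2) (F : Perm (Pos β I d) → ℝ) :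
    S.EZ (R (S.g (S.e (Sum.inr (Sum.inr j)))) F)
      = R (S.g (S.e (Sum.inr (Sum.inr j)))) (S.EZ F) := by
  ext σ
  unfold HSys.EZ R
  congr 1; ext z
  congr 1
  have h1 : (S.g (S.e (Sum.inr (Sum.inr j))))⁻¹ =
      zt (fun i => decide (i = S.e (Sum.inr (Sum.inr j)))) *
      (inlP β (Out I d) (S.θ (S.e (Sum.inr (Sum.inr j)))))⁻¹ := by
    unfold Sys.g
    rw [mul_inv_rev, t13_zt_inv]
  have h7 := t13_zt_comm (d := d) (fun i => ext z (S.e.symm i)) (S.θ (S.e (Sum.inr (Sum.inr j))))⁻¹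
  rw [map_inv] at h7
  rw [h1, mul_assoc, mul_assoc, ← mul_assoc (zt _) (zt _), t13_zt_comm' (fun i => ext z _),
    mul_assoc, h7, mul_assoc]

variable [Fintype β] [DecidableEq β]

omit [DecidableEq I] in
private theorem t13_EH_R (g : Perm β) (F : Perm (Pos β I d) → ℝ) :
    EH (R (inlP β (Out I d) g) F) = EH F := by
  ext σ
  have h1 := av_mulRight g⁻¹ (fun h : Perm β => F (σ * inlP β (Out I d) h))
  have h2 : EH F σ = av fun h : Perm β => F (σ * inlP β (Out I d) h) := rfl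
  rw [h2, ← h1]
  show (av fun h : Perm β => R (inlP β (Out I d) g) F (σ * inlP β (Out I d) h)) = _
  congr 1; ext h
  simp only [R, map_mul, map_inv, mul_assoc]

omit [DecidableEq I] in
private theorem t13_R_EH (g : Perm β) (F : Perm (Pos β I d) → ℝ) :
    R (inlP β (Out I d) g) (EH F) = EH F := by
  ext σ
  have := EK_mul_right (inlP β (Out I d)) F σ g⁻¹
  rw [map_inv] at this
  exact this

omit [DecidableEq I] in
private theorem t13_zt_EH (z : I → Bool) (F : Perm (Pos β I d) → ℝ) :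
    R (zt z) (EH F) = EH (R (zt z) F) := by
  ext σ
  show (av fun h : Perm β => F (σ * (zt z)⁻¹ * inlP β (Out I d) h)) =
    av fun h : Perm β => F (σ * inlP β (Out I d) h * (zt z)⁻¹)
  congr 1; ext h
  congr 1
  rw [t13_zt_inv, mul_assoc, mul_assoc, t13_zt_comm]

private theorem t13_R_g_EH (S : Sys β I d) (i : I) (F : Perm (Pos β I d) → ℝ) :
    R (S.g i) (EH F) = EH (R (S.g i) F) := by
  unfold Sys.g
  rw [← R_R, ← R_R, t13_R_EH, t13_zt_EH, ← t13_zt_EH, ← t13_zt_EH, t13_EH_R]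

variable [Fintype I]

/-- the potential of the letters without `c` -/
private theorem t13_dev (S : HSys β I w w2 d) (i : I) (F : Perm (Pos β I d) → ℝ) :
    nsq (fun σ => S.EZ (R (S.g i) F) σ - EH (S.EZ (R (S.g i) F)) σ)
      = nsq (fun σ => S.EZ F σ - EH (S.EZ F) σ) := by
  obtain ⟨x, rfl⟩ := S.e.surjective i
  rcases x with j | j | j
  · rw [t13_EZ_R_A, t13_EH_R]
    have h := t13_R_EH (S.θ (S.e (Sum.inl j))) (S.EZ F)
    have h2 : (fun σ => R (inlP β (Out I d) (S.θ (S.e (Sum.inl j)))) (S.EZ F) σ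
        - EH (S.EZ F) σ) = R (inlP β (Out I d) (S.θ (S.e (Sum.inl j))))
          (fun σ => S.EZ F σ - EH (S.EZ F) σ) := by
      ext σ
      have h3 := congrFun h σ
      simp only [R] at h3 ⊢
      rw [h3]
    rw [h2, nsq_R]
  · rw [t13_EZ_R_B, t13_EH_R]
    have h := t13_R_EH (S.θ (S.e (Sum.inr (Sum.inl j)))) (S.EZ F)
    have h2 : (fun σ => R (inlP β (Out I d) (S.θ (S.e (Sum.inr (Sum.inl j))))) (S.EZ F) σ
        - EH (S.EZ F) σ) = R (inlP β (Out I d) (S.θ (S.e (Sum.inr (Sum.inl j)))))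
          (fun σ => S.EZ F σ - EH (S.EZ F) σ) := by
      ext σ
      have h3 := congrFun h σ
      simp only [R] at h3 ⊢
      rw [h3]
    rw [h2, nsq_R]
  · rw [t13_EZ_R_B2, ← t13_R_g_EH]
    exact nsq_R _ (fun σ => S.EZ F σ - EH (S.EZ F) σ)

private theorem t13_psi_word (S : HSys β I w w2 d) {t : ℕ} (v : Fin t → I)
    (F : Perm (Pos β I d) → ℝ) : S.psi' (R (wd S.g v) F) = S.psi' F := by
  induction t generalizing F with
  | zero => rw [wd_zero, R_one]
  | succ t ih =>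
    rw [← Fin.cons_self_tail v, wd_cons, ← R_R, ih]
    unfold HSys.psi'
    rw [t13_dev]

private theorem t13_psi'_nonneg (S : HSys β I w w2 d) (F : Perm (Pos β I d) → ℝ) :
    0 ≤ S.psi' F := Real.rpow_nonneg (nsq_nonneg _) _

private theorem t13_psi'_le (S : HSys β I w w2 d) (F : Perm (Pos β I d) → ℝ) :
    S.psi' F ≤ S.psi F := by
  unfold HSys.psi' HSys.psi
  exact Real.rpow_le_rpow (nsq_nonneg _) (nsq_sub_EK_le (inlP β (Out I d)) (S.EZ F))
    (by positivity)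

private theorem t13_SD_R {F : Perm (Pos β I d) → ℝ} (hF : SD F) (g : Perm (Pos β I d)) :
    SD (R g F) := ⟨fun σ => hF.1 _, by rw [av_R]; exact hF.2⟩

private theorem t13_SD_Mav {ι : Type*} [Fintype ι] [Nonempty ι] {F : Perm (Pos β I d) → ℝ}
    (hF : SD F) (s : ι → Perm (Pos β I d)) : SD (Mav s F) :=
  ⟨fun σ => av_nonneg fun _ => hF.1 _, by rw [av_Mav]; exact hF.2⟩

private theorem t13_SD_hb (S : HSys β I w w2 d) (hw : 1 ≤ w) {ℓ : ℕ} (v : Fin ℓ → Fin w)
    {F : Perm (Pos β I d) → ℝ} (hF : SD F) : SD (S.hb v F) := by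
  have : Nonempty (Fin w) := ⟨⟨0, hw⟩⟩
  exact t13_SD_Mav (t13_SD_Mav (t13_SD_R hF _) _) _

/-- the good words -/
private def t13_phi (S : HSys β I w w2 d) {ℓ : ℕ} (z : (Fin ℓ → Fin w) × (Fin w × Fin w)) :
    Fin (ℓ + 2) → I :=
  Fin.snoc (Fin.snoc (fun i => S.e (Sum.inr (Sum.inl (z.1 i)))) (S.e (Sum.inl z.2.1)) :
    Fin (ℓ + 1) → I) (S.e (Sum.inr (Sum.inl z.2.2)))

omit [DecidableEq I] [Fintype β] [DecidableEq β] [Fintype I] in
private theorem t13_phi_inj (S : HSys β I w w2 d) (ℓ : ℕ) :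
    Function.Injective (t13_phi S (ℓ := ℓ)) := by
  intro z z' h
  unfold t13_phi at h
  obtain ⟨h1, h2⟩ := Fin.snoc_injective2 h
  obtain ⟨h3, h4⟩ := Fin.snoc_injective2 h1
  have h5 : z.2.2 = z'.2.2 := by
    have := S.e.injective h2
    simpa using this
  have h6 : z.2.1 = z'.2.1 := by
    have := S.e.injective h4
    simpa using this
  have h7 : z.1 = z'.1 := by
    ext1 i
    have := S.e.injective (congrFun h3 i)
    simpa using this
  exact Prod.ext h7 (Prod.ext h6 h5)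

omit [Fintype β] [DecidableEq β] [Fintype I] in
private theorem t13_wd_phi (S : HSys β I w w2 d) {ℓ : ℕ}
    (z : (Fin ℓ → Fin w) × (Fin w × Fin w)) :
    wd S.g (t13_phi S z) = wd S.B1 z.1 * S.A1 z.2.1 * S.B1 z.2.2 := by
  unfold t13_phi
  rw [t13_wd_snoc, t13_wd_snoc]
  rfl

omit [Fintype β] [DecidableEq β] [Fintype I] in
private theorem t13_hb_sum (S : HSys β I w w2 d) (hw : 1 ≤ w) (ℓ : ℕ)
    (F : Perm (Pos β I d) → ℝ) (σ : Perm (Pos β I d)) :
    ∑ z : (Fin ℓ → Fin w) × (Fin w × Fin w), R (wd S.g (t13_phi S z)) F σ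
      = (w : ℝ) ^ 2 * ∑ v : Fin ℓ → Fin w, S.hb v F σ := by
  have hw' : (w : ℝ) ≠ 0 := by
    have : (1 : ℝ) ≤ w := by exact_mod_cast hw
    linarith
  rw [Fintype.sum_prod_type, Finset.mul_sum]
  refine Finset.sum_congr rfl fun v _ => ?_
  rw [Fintype.sum_prod_type, Finset.sum_comm]
  have h1 : S.hb v F σ = (∑ b : Fin w, (∑ a : Fin w,
      F (σ * (S.B1 b)⁻¹ * (S.A1 a)⁻¹ * (wd S.B1 v)⁻¹)) / (w : ℝ)) / (w : ℝ) := by
    unfold HSys.hb Mav av R
    rw [Fintype.card_fin]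
  rw [h1, ← Finset.sum_div, div_div, ← pow_two, mul_div_cancel₀ _ (pow_ne_zero 2 hw')]
  refine Finset.sum_congr rfl fun b _ => Finset.sum_congr rfl fun a _ => ?_
  rw [t13_wd_phi]
  simp only [R, mul_inv_rev, mul_assoc]

theorem lw_block (S : HSys β I w w2 d) (hw : 1 ≤ w) (ℓ : ℕ) (κ : ℝ) (hκ : 0 ≤ κ)
    (hMS : MSc (fun j => S.θ (S.e (Sum.inl j))) (fun j => S.θ (S.e (Sum.inr (Sum.inl j)))) ℓ κ)
    (pg : ℝ) (hpg : pg = ((w : ℝ) / Fintype.card I) ^ (ℓ + 2))
    (F : Perm (Pos β I d) → ℝ) (hF : SD F) :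
    Dec S.psi' (S.Po^[ℓ + 2] F) ((1 - pg + pg * κ ^ ((1 : ℝ) / w)) * S.psi' F) := by
  have hneI : Nonempty I := ⟨S.e (Sum.inl ⟨0, hw⟩)⟩
  have hneW : Nonempty (Fin w) := ⟨⟨0, hw⟩⟩
  have hwR : (0 : ℝ) < w := by exact_mod_cast hw
  set m : ℝ := (Fintype.card I : ℝ) with hm
  have hm0 : 0 < m := by rw [hm]; exact_mod_cast Fintype.card_pos
  have hpg0 : 0 ≤ pg := by rw [hpg]; positivity
  set M : ℝ := m ^ (ℓ + 2) with hM
  have hM0 : 0 < M := by positivity
  have hcardY : (Fintype.card (Fin (ℓ + 2) → I) : ℝ) = M := by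
    rw [Fintype.card_fun, Fintype.card_fin]; push_cast; rfl
  have hcardV : (Fintype.card (Fin ℓ → Fin w) : ℝ) = (w : ℝ) ^ ℓ := by
    rw [Fintype.card_fun, Fintype.card_fin, Fintype.card_fin]; push_cast; rfl
  have hwl : (0 : ℝ) < (w : ℝ) ^ ℓ := by positivity
  have hpgM : pg / (w : ℝ) ^ ℓ = (w : ℝ) ^ 2 / M := by
    rw [hpg, hM, div_pow, pow_add]
    field_simp
  set gd : Finset (Fin (ℓ + 2) → I) := univ.image (t13_phi S (ℓ := ℓ)) with hgd
  -- the sum of the weights of the other words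
  have hrest : ∑ y : Fin (ℓ + 2) → I, (if y ∈ gd then 0 else 1 / M) = 1 - pg := by
    have h1 := t13_split (t13_phi S (ℓ := ℓ)) (t13_phi_inj S ℓ) (fun _ => 1 / M)
    rw [Finset.sum_const, Finset.sum_const, Finset.card_univ, Finset.card_univ, nsmul_eq_mul,
      nsmul_eq_mul, hcardY, Fintype.card_prod, Fintype.card_prod, Fintype.card_fin] at h1
    have h2 : ((Fintype.card (Fin ℓ → Fin w) * (w * w) : ℕ) : ℝ) * (1 / M) = pg := by
      push_cast
      rw [hcardV, hpg, hM, div_pow, pow_add]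
      ring
    rw [h2, mul_one_div_cancel hM0.ne'] at h1
    linarith
  refine Dec.of_fintype (ι := (Fin ℓ → Fin w) ⊕ (Fin (ℓ + 2) → I))
    (Sum.elim (fun _ => pg / (w : ℝ) ^ ℓ) (fun y => if y ∈ gd then 0 else 1 / M))
    (Sum.elim (fun v => S.hb v F) (fun y => R (wd S.g y) F)) ?_ ?_ ?_ ?_ ?_
  · rintro (v | y)
    · simp only [Sum.elim_inl]; positivity
    · simp only [Sum.elim_inr]; split_ifs <;> positivity
  · rw [Fintype.sum_sum_type]
    simp only [Sum.elim_inl, Sum.elim_inr]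
    rw [hrest, Finset.sum_const, Finset.card_univ, nsmul_eq_mul, hcardV]
    field_simp
    ring
  · rintro (v | y)
    · exact t13_SD_hb S hw v hF
    · exact t13_SD_R hF _
  · intro σ
    rw [Fintype.sum_sum_type]
    simp only [Sum.elim_inl, Sum.elim_inr]
    have h1 : S.Po^[ℓ + 2] F σ = ∑ y : Fin (ℓ + 2) → I, (1 / M) * R (wd S.g y) F σ := by
      have h2 : S.Po = Mav S.g := rfl
      rw [h2, Mav_iter]
      show av _ = _
      unfold av
      rw [hcardY, Finset.sum_div]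
      refine Finset.sum_congr rfl fun y _ => ?_
      ring
    rw [h1, t13_split (t13_phi S (ℓ := ℓ)) (t13_phi_inj S ℓ), ← Finset.mul_sum, ← Finset.mul_sum,
      t13_hb_sum S hw, hpgM]
    congr 1
    · ring
    · refine Finset.sum_congr rfl fun y _ => ?_
      split_ifs <;> simp
  · rw [Fintype.sum_sum_type]
    simp only [Sum.elim_inl, Sum.elim_inr]
    have h1 : ∑ y : Fin (ℓ + 2) → I, (if y ∈ gd then 0 else 1 / M) * S.psi' (R (wd S.g y) F)
        = (1 - pg) * S.psi' F := by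
      simp only [t13_psi_word]
      rw [← Finset.sum_mul, hrest]
    have h2 : ∑ v : Fin ℓ → Fin w, pg / (w : ℝ) ^ ℓ * S.psi' (S.hb v F)
        = pg * av (fun v : Fin ℓ → Fin w => S.psi' (S.hb v F)) := by
      unfold av
      rw [hcardV, ← Finset.mul_sum]
      ring
    have h3 : av (fun v : Fin ℓ → Fin w => S.psi' (S.hb v F)) ≤ κ ^ ((1 : ℝ) / w) * S.psi' F := by
      have h4 := t13_jensen w hw (fun v : Fin ℓ → Fin w =>
        nsq (fun σ => S.EZ (S.hb v F) σ - EH (S.EZ (S.hb v F)) σ)) (fun v => nsq_nonneg _)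
      have h5 := hb_contr S hw ℓ κ hκ hMS F
      refine h4.trans ?_
      unfold HSys.psi'
      rw [← Real.mul_rpow hκ (nsq_nonneg _)]
      exact Real.rpow_le_rpow (av_nonneg fun v => nsq_nonneg _) h5 (by positivity)
    rw [h1, h2]
    have h6 := mul_le_mul_of_nonneg_left h3 hpg0
    linarith [h6]

/-! ### the long window -/

omit [DecidableEq I] [Fintype β] [DecidableEq β] [Fintype I] in
private theorem t13_av_lin {Y : Type*} [Fintype Y] {n : ℕ} (p : Fin n → ℝ) (F : Fin n → Y → ℝ) :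
    av (fun y => ∑ i, p i * F i y) = ∑ i, p i * av (F i) := by
  rw [av_sum]
  refine Finset.sum_congr rfl fun i _ => ?_
  rw [av_mul_left]

omit [Fintype β] [DecidableEq β] in
private theorem t13_Po_lin (S : Sys β I d) (t n : ℕ) (p : Fin n → ℝ)
    (F : Fin n → Perm (Pos β I d) → ℝ) :
    S.Po^[t] (fun a => ∑ i, p i * F i a) = fun a => ∑ i, p i * S.Po^[t] (F i) a := by
  induction t generalizing F with
  | zero => rfl
  | succ t ih =>
    rw [Function.iterate_succ_apply]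
    have h1 : S.Po (fun a => ∑ i, p i * F i a) = fun a => ∑ i, p i * S.Po (F i) a := by
      ext σ
      exact t13_av_lin p (fun i x => F i (σ * (S.g x)⁻¹))
    rw [h1, ih]
    rfl

omit [DecidableEq I] [Fintype β] [DecidableEq β] [Fintype I] in
private theorem t13_EZ_lin (S : HSys β I w w2 d) {n : ℕ} (p : Fin n → ℝ)
    (F : Fin n → Perm (Pos β I d) → ℝ) :
    S.EZ (fun a => ∑ i, p i * F i a) = fun a => ∑ i, p i * S.EZ (F i) a := by
  ext σ
  exact t13_av_lin p (fun i (z : Fin w ⊕ Fin w → Bool) =>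
    F i (σ * zt (fun i => ext z (S.e.symm i))))

omit [DecidableEq I] [Fintype I] in
private theorem t13_EH_lin {n : ℕ} (p : Fin n → ℝ) (F : Fin n → Perm (Pos β I d) → ℝ) :
    EH (fun a => ∑ i, p i * F i a) = fun a => ∑ i, p i * EH (F i) a := by
  ext σ
  exact t13_av_lin p (fun i (h : Perm β) => F i (σ * inlP β (Out I d) h))

omit [DecidableEq I] [Fintype β] [DecidableEq β] [Fintype I] in
private theorem t13_EZ_mono (S : HSys β I w w2 d) {F F' : Perm (Pos β I d) → ℝ}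
    (h : ∀ σ, F σ ≤ F' σ) (σ : Perm (Pos β I d)) : S.EZ F σ ≤ S.EZ F' σ :=
  av_le_av fun _ => h _

omit [DecidableEq I] [Fintype I] in
private theorem t13_EH_mono {F F' : Perm (Pos β I d) → ℝ}
    (h : ∀ σ, F σ ≤ F' σ) (σ : Perm (Pos β I d)) : EH F σ ≤ EH F' σ :=
  av_le_av fun _ => h _

omit [DecidableEq I] [Fintype β] [DecidableEq β] [Fintype I] in
private theorem t13_le_EZ (S : HSys β I w w2 d) (F : Perm (Pos β I d) → ℝ)
    (hF : ∀ σ, 0 ≤ F σ) (σ : Perm (Pos β I d)) : F σ ≤ 4 ^ w * S.EZ F σ := by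
  have hcard : (Fintype.card (Fin w ⊕ Fin w → Bool) : ℝ) = 4 ^ w := by
    rw [Fintype.card_fun, Fintype.card_sum, Fintype.card_fin, Fintype.card_bool]
    push_cast
    rw [← two_mul, pow_mul]
    norm_num
  unfold HSys.EZ av
  rw [hcard, mul_div_cancel₀ _ (by positivity)]
  have h1 := Finset.single_le_sum (f := fun z : Fin w ⊕ Fin w → Bool =>
    F (σ * zt (fun i => ext z (S.e.symm i)))) (fun z _ => hF _)
    (Finset.mem_univ (fun _ => false))
  refine le_trans (le_of_eq ?_) h1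
  have h2 : (zt (fun i => ext (w2 := w2) (fun _ : Fin w ⊕ Fin w => false) (S.e.symm i)) :
      Perm (Pos β I d)) = 1 := by
    have h3 : ∀ x : II w w2, ext (w2 := w2) (fun _ : Fin w ⊕ Fin w => false) x = false := by
      rintro (j | j | j) <;> rfl
    simp only [h3]
    ext x
    rcases x with x | ⟨i, b⟩ | x
    · rfl
    · simp
    · rfl
  simp only [h2, mul_one]

theorem LW (S : HSys β I w w2 d) (hw : 1 ≤ w) (ℓ : ℕ) (a : ℝ) (ha : 0 ≤ a)
    (hblk : ∀ F : Perm (Pos β I d) → ℝ, SD F → Dec S.psi' (S.Po^[ℓ + 2] F) (a * S.psi' F))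
    (F : Perm (Pos β I d) → ℝ) (x : ℝ) (hF : Dec S.psi F x) (q : ℕ) :
    ∃ ρ : Perm (Pos β I d) → ℝ, (∀ σ, 0 ≤ ρ σ) ∧ av ρ ≤ 64 * a ^ q * x + (1 / 2) ^ w ∧
      ∀ σ, S.Po^[q * (ℓ + 2)] F σ ≤ 4 ^ w * EH (S.EZ (S.Po^[q * (ℓ + 2)] F)) σ + ρ σ := by
  have hwR : (0 : ℝ) < w := by exact_mod_cast hw
  have hDec : Dec S.psi' (S.Po^[q * (ℓ + 2)] F) (a ^ q * x) := by
    rw [mul_comm, Function.iterate_mul]
    induction q with
    | zero =>
      have h1 : Dec S.psi' F x := hF.mono_fun fun G _ => t13_psi'_le S G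
      simpa using h1
    | succ q ih =>
      rw [Function.iterate_succ_apply']
      have h1 := Dec.bind (S.Po^[ℓ + 2]) (fun n p G => t13_Po_lin S.toSys (ℓ + 2) n p G) a 0 ha
        (fun G hG => by simpa using hblk G hG) ih
      refine h1.mono (le_of_eq ?_)
      rw [pow_succ]; ring
  obtain ⟨n, p, G, ρ0, hp0, hp1, hG, hψ, hρ0, hρ1, hsum⟩ :=
    Dec.split (η := 1 / 64) (by norm_num) (fun G _ => t13_psi'_nonneg S G) hDec
  set H := S.Po^[q * (ℓ + 2)] F with hH
  let D : Fin n → Perm (Pos β I d) → ℝ := fun i σ => S.EZ (G i) σ - EH (S.EZ (G i)) σ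
  have hD : ∀ i, av (fun σ => |D i σ|) ≤ (1 / 8) ^ w := by
    intro i
    refine (av_abs_le_sqrt (D i)).trans ?_
    rw [Real.sqrt_le_left (by positivity)]
    have h1 : nsq (D i) ^ ((1 : ℝ) / w) ≤ 1 / 64 := hψ i
    have h2 := pow_le_pow_left₀ (Real.rpow_nonneg (nsq_nonneg (D i)) _) h1 w
    rw [← Real.rpow_natCast, ← Real.rpow_mul (nsq_nonneg _), one_div_mul_cancel hwR.ne',
      Real.rpow_one] at h2
    refine h2.trans (le_of_eq ?_)
    rw [← pow_mul, mul_comm w 2, pow_mul]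
    norm_num
  refine ⟨fun σ => ρ0 σ + 4 ^ w * ∑ i, p i * |D i σ|, fun σ => ?_, ?_, fun σ => ?_⟩
  · have h1 : 0 ≤ ∑ i, p i * |D i σ| := Finset.sum_nonneg fun i _ => mul_nonneg (hp0 i) (abs_nonneg _)
    have h2 := hρ0 σ
    positivity
  · rw [av_add, av_mul_left, t13_av_lin p (fun i σ => |D i σ|)]
    have h1 : ∑ i, p i * av (fun σ => |D i σ|) ≤ ∑ i, p i * (1 / 8 : ℝ) ^ w :=
      Finset.sum_le_sum fun i _ => mul_le_mul_of_nonneg_left (hD i) (hp0 i)
    rw [← Finset.sum_mul] at h1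
    have h2 : (∑ i, p i) * (1 / 8 : ℝ) ^ w ≤ 1 * (1 / 8 : ℝ) ^ w :=
      mul_le_mul_of_nonneg_right hp1 (by positivity)
    have h3 : (4 : ℝ) ^ w * ∑ i, p i * av (fun σ => |D i σ|) ≤ (1 / 2) ^ w := by
      calc (4 : ℝ) ^ w * ∑ i, p i * av (fun σ => |D i σ|) ≤ 4 ^ w * (1 / 8 : ℝ) ^ w :=
            mul_le_mul_of_nonneg_left (by linarith) (by positivity)
        _ = (1 / 2) ^ w := by rw [← mul_pow]; norm_num
    have h4 : a ^ q * x / (1 / 64) = 64 * a ^ q * x := by ring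
    rw [h4] at hρ1
    linarith
  · have h1 : ∀ i, G i σ ≤ 4 ^ w * EH (S.EZ (G i)) σ + 4 ^ w * |D i σ| := by
      intro i
      have h2 := t13_le_EZ S (G i) (hG i).1 σ
      have h3 : S.EZ (G i) σ ≤ EH (S.EZ (G i)) σ + |D i σ| := by
        have := le_abs_self (D i σ)
        have h4 : D i σ = S.EZ (G i) σ - EH (S.EZ (G i)) σ := rfl
        linarith
      have h5 : (0 : ℝ) ≤ 4 ^ w := by positivity
      nlinarith [mul_le_mul_of_nonneg_left h3 h5]
    have h2 : ∑ i, p i * G i σ ≤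
        4 ^ w * ∑ i, p i * EH (S.EZ (G i)) σ + 4 ^ w * ∑ i, p i * |D i σ| := by
      rw [Finset.mul_sum, Finset.mul_sum, ← Finset.sum_add_distrib]
      refine Finset.sum_le_sum fun i _ => ?_
      have := mul_le_mul_of_nonneg_left (h1 i) (hp0 i)
      linarith
    have h3 : ∑ i, p i * EH (S.EZ (G i)) σ ≤ EH (S.EZ H) σ := by
      have h4 : ∑ i, p i * EH (S.EZ (G i)) σ = EH (S.EZ (fun b => ∑ i, p i * G i b)) σ := by
        rw [t13_EZ_lin, t13_EH_lin]
      rw [h4]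
      refine t13_EH_mono (fun τ => t13_EZ_mono S (fun υ => ?_) τ) σ
      rw [hsum υ]
      linarith [hρ0 υ]
    have h5 := hsum σ
    have h6 : (0 : ℝ) ≤ 4 ^ w := by positivity
    have h7 := mul_le_mul_of_nonneg_left h3 h6
    linarith

end

end Pool.Agent.H9.Low
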