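import Pool.Agent.H9.Low.Defs2
import Pool.Agent.H9.Low.T13
import Pool.Agent.H9.Low.LawA

/-!
# Long windows with the parameters
-/

namespace Pool.Agent.H9.Low

open Equiv Finset

/-- the contraction factor of one block -/
private lemma lawb_fac {r w L p : ℝ} (hr : 0 < r) (hL : L = Real.log r) (hL0 : 0 ≤ L)
    (hw : 0 < w) (hLw : 2 * L ≤ w) (hp : 0 ≤ p) (hp1 : p ≤ 1) :
    0 ≤ 1 - p + p * (1 / r) ^ ((1 : ℝ) / w) ∧
    1 - p + p * (1 / r) ^ ((1 : ℝ) / w) ≤ Real.exp (-(p * L / (2 * w))) := by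
  have h1 := LawA.kap hr hL hL0 hw hLw
  have h3 : 0 ≤ (1 / r) ^ ((1 : ℝ) / w) := Real.rpow_nonneg (by positivity) _
  have h4 : 0 ≤ p * (1 / r) ^ ((1 : ℝ) / w) := mul_nonneg hp h3
  refine ⟨by linarith, ?_⟩
  have h5 : p * (1 / r) ^ ((1 : ℝ) / w) ≤ p * (1 - L / (2 * w)) := mul_le_mul_of_nonneg_left h1 hp
  have h6 : p * (L / (2 * w)) = p * L / (2 * w) := by ring
  have h7 := Real.add_one_le_exp (-(p * L / (2 * w)))
  linarith

/-- long windows -/
theorem law_b (A : ℝ) : ∃ r0 : ℕ, ∀ r ≥ r0, ∀ n d : ℕ, r ^ 20 ≤ n →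
    n < (r + 1) ^ 20 → d + 1 ≤ r ^ 7 →
    ∀ (β I : Type) [Fintype β] [DecidableEq β] [Fintype I] [DecidableEq I]
      (S : HSys β I (r ^ 14) (65536 * r ^ 14) d),
      Fintype.card β + 131076 * r ^ 14 + (d + 1) = n →
      MSc (fun j => S.θ (S.e (Sum.inl j))) (fun j => S.θ (S.e (Sum.inr (Sum.inl j)))) 100
        (1 / r) →
    ∀ (F : Perm (Pos β I d) → ℝ) (y : ℝ), 0 ≤ y → SD F → Dec S.psi F y →
      ∃ ρ : Perm (Pos β I d) → ℝ, (∀ σ, 0 ≤ ρ σ) ∧
        av ρ ≤ Real.exp (-(A * Real.log r)) * y + (1 / 2) ^ (r ^ 14) ∧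
        ∀ σ, S.Po^[102 * qWr r] F σ
          ≤ 4 ^ (r ^ 14) * EH (S.EZ (S.Po^[102 * qWr r] F)) σ + ρ σ := by
  obtain ⟨p, hp⟩ : ∃ p : ℝ, p = (1 / 65538) ^ 102 := ⟨_, rfl⟩
  have hp0 : 0 < p := by rw [hp]; exact pow_pos (by norm_num) 102
  have hp1 : p ≤ 1 := by rw [hp]; exact pow_le_one₀ (by norm_num) (by norm_num)
  obtain ⟨r0, hr0⟩ := LawA.thr (max 1 ((5 + |A|) / (150 * p)))
  refine ⟨r0, ?_⟩
  intro r hr n d hn1 hn2 hd β I _ _ _ _ S hcard hMS F y hy hF0 hDec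
  clear hn1 hn2 hd hcard hF0
  obtain ⟨hr29, hrL⟩ := hr0 r hr
  have hx : (29 : ℝ) ≤ r := by exact_mod_cast hr29
  have hL1 : 1 ≤ Real.log r := (le_max_left _ _).trans hrL
  have hLp : 5 + |A| ≤ 150 * p * Real.log r := by
    have := (le_max_right _ _).trans hrL
    rw [div_le_iff₀ (by positivity)] at this
    linarith
  have hr1 : 1 ≤ r := by omega
  have hI : Fintype.card I = 65538 * r ^ 14 := by
    rw [← Fintype.card_congr S.e]
    simp only [Fintype.card_sum, Fintype.card_fin]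
    ring
  have hw1 : 1 ≤ r ^ 14 := Nat.one_le_pow _ _ hr1
  have hcastw : ((r ^ 14 : ℕ) : ℝ) = (r : ℝ) ^ 14 := by push_cast; rfl
  have hw1r : (1 : ℝ) ≤ ((r ^ 14 : ℕ) : ℝ) := by exact_mod_cast hw1
  have hLw : 2 * Real.log r ≤ ((r ^ 14 : ℕ) : ℝ) := by
    have h1 : Real.log r ≤ r := (Real.log_le_sub_one_of_pos (by linarith)).trans (by linarith)
    have h2 : (r : ℝ) ^ 2 ≤ (r : ℝ) ^ 14 := pow_le_pow_right₀ (by linarith) (by norm_num)
    rw [hcastw]
    nlinarith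
  have hpg : p = (((r ^ 14 : ℕ) : ℝ) / (Fintype.card I : ℝ)) ^ (100 + 2) := by
    rw [hp, hI]
    congr 1
    push_cast
    field_simp
  obtain ⟨ha, ha'⟩ := lawb_fac (r := (r : ℝ)) (w := ((r ^ 14 : ℕ) : ℝ)) (p := p)
    (by linarith) rfl (by linarith) (by linarith) hLw hp0.le hp1
  set a : ℝ := 1 - p + p * (1 / (r : ℝ)) ^ ((1 : ℝ) / ((r ^ 14 : ℕ) : ℝ)) with ha_def
  obtain ⟨ρ, hρ0, hρ1, hρ2⟩ := LW S hw1 100 a ha
    (fun F hF => lw_block S hw1 100 (1 / r) (by positivity) hMS p hpg F hF) F y hDec (qWr r)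
  have hq : 300 * (((r ^ 14 : ℕ) : ℝ) * Real.log r) ≤ (qWr r : ℝ) := by
    have h1 : 65538 * (r : ℝ) ^ 14 * Real.log r / 204 < (qWr r : ℝ) + 1 := Nat.lt_floor_add_one _
    have h2 : 1 ≤ ((r ^ 14 : ℕ) : ℝ) * Real.log r := by
      calc (1 : ℝ) = 1 * 1 := by ring
        _ ≤ ((r ^ 14 : ℕ) : ℝ) * Real.log r := mul_le_mul hw1r hL1 (by norm_num) (by linarith)
    rw [← hcastw] at h1
    have h3 : 65538 * ((r ^ 14 : ℕ) : ℝ) * Real.log r / 204
        = 65538 / 204 * (((r ^ 14 : ℕ) : ℝ) * Real.log r) := by ring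
    rw [h3] at h1
    have h4 : (301 : ℝ) * (((r ^ 14 : ℕ) : ℝ) * Real.log r)
        ≤ 65538 / 204 * (((r ^ 14 : ℕ) : ℝ) * Real.log r) :=
      mul_le_mul_of_nonneg_right (by norm_num) (by linarith)
    linarith
  have haq : 64 * a ^ (qWr r) ≤ Real.exp (-(A * Real.log r)) := by
    have h1 : a ^ (qWr r) ≤ Real.exp (-(150 * p * Real.log r ^ 2)) := by
      calc a ^ (qWr r) ≤ Real.exp (-(p * Real.log r / (2 * ((r ^ 14 : ℕ) : ℝ)))) ^ (qWr r) :=
            pow_le_pow_left₀ ha ha' _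
        _ = Real.exp ((qWr r : ℝ) * (-(p * Real.log r / (2 * ((r ^ 14 : ℕ) : ℝ))))) := by
            rw [← Real.exp_nat_mul]
        _ ≤ Real.exp (-(150 * p * Real.log r ^ 2)) := by
            rw [Real.exp_le_exp]
            have h2 := mul_le_mul_of_nonneg_right hq
              (show 0 ≤ p * Real.log r / (2 * ((r ^ 14 : ℕ) : ℝ)) by positivity)
            have h3 : 300 * (((r ^ 14 : ℕ) : ℝ) * Real.log r)
                * (p * Real.log r / (2 * ((r ^ 14 : ℕ) : ℝ))) = 150 * p * Real.log r ^ 2 := by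
              have : ((r ^ 14 : ℕ) : ℝ) ≠ 0 := by linarith
              field_simp
              ring
            rw [h3] at h2
            linarith
    have h64 : (64 : ℝ) ≤ Real.exp 5 := by
      have h2 : (2 : ℝ) ≤ Real.exp 1 := by
        have := Real.add_one_le_exp (1 : ℝ); linarith
      have h27 : (2.7 : ℝ) ≤ Real.exp 1 := by
        have := Real.exp_one_gt_d9; linarith
      have h3 : Real.exp 5 = Real.exp 1 ^ 5 := by rw [← Real.exp_nat_mul]; norm_num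
      rw [h3]
      calc (64 : ℝ) ≤ 2.7 ^ 5 := by norm_num
        _ ≤ Real.exp 1 ^ 5 := pow_le_pow_left₀ (by norm_num) h27 5
    calc 64 * a ^ (qWr r) ≤ Real.exp 5 * Real.exp (-(150 * p * Real.log r ^ 2)) :=
          mul_le_mul h64 h1 (pow_nonneg ha _) (Real.exp_pos _).le
      _ = Real.exp (5 + -(150 * p * Real.log r ^ 2)) := by rw [← Real.exp_add]
      _ ≤ Real.exp (-(A * Real.log r)) := by
          rw [Real.exp_le_exp]
          have h2 := mul_le_mul_of_nonneg_right hLp (show 0 ≤ Real.log r by linarith)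
          have h3 : A * Real.log r ≤ |A| * Real.log r :=
            mul_le_mul_of_nonneg_right (le_abs_self A) (by linarith)
          nlinarith
  refine ⟨ρ, hρ0, ?_, ?_⟩
  · refine hρ1.trans ?_
    have := mul_le_mul_of_nonneg_right haq hy
    linarith
  · intro σ
    have h := hρ2 σ
    rw [show qWr r * (100 + 2) = 102 * qWr r by ring] at h
    exact h

end Pool.Agent.H9.Low
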