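import Pool.Agent.H9.Low.Basic

/-!
# Number of maps without singleton fibres
-/

namespace Pool.Agent.H9.Low

open Equiv Finset

/-- the maps determined by their values on `P` and by a retraction to `P` -/
def t1_map {n w : ℕ} (P : Finset (Fin n)) (q : (P → Fin w) × ({a // a ∉ P} → P)) :
    Fin n → Fin w :=
  fun a => if h : a ∈ P then q.1 ⟨a, h⟩ else q.1 (q.2 ⟨a, h⟩)

theorem t1_card_image {n w : ℕ} (P : Finset (Fin n)) :
    ((univ : Finset ((P → Fin w) × ({a // a ∉ P} → P))).image (t1_map P)).card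
      ≤ w ^ P.card * P.card ^ (n - P.card) := by
  refine Finset.card_image_le.trans (le_of_eq ?_)
  rw [Finset.card_univ, Fintype.card_prod, Fintype.card_fun, Fintype.card_fun, Fintype.card_fin,
    Fintype.card_coe]
  congr 2
  rw [Fintype.card_subtype_compl, Fintype.card_fin, Fintype.card_coe]

theorem t1_arith (k w b : ℕ) (hb : b ≤ k) (hkw : k ≤ w) :
    w ^ b * b ^ (2 * k - b) ≤ k ^ k * w ^ k := by
  have h1 : b ^ (2 * k - b) ≤ k ^ k * w ^ (k - b) := by
    calc b ^ (2 * k - b) ≤ k ^ (2 * k - b) := Nat.pow_le_pow_left hb _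
      _ = k ^ k * k ^ (k - b) := by rw [← pow_add]; congr 1; omega
      _ ≤ k ^ k * w ^ (k - b) := Nat.mul_le_mul_left _ (Nat.pow_le_pow_left hkw _)
  calc w ^ b * b ^ (2 * k - b) ≤ w ^ b * (k ^ k * w ^ (k - b)) := Nat.mul_le_mul_left _ h1
    _ = k ^ k * (w ^ b * w ^ (k - b)) := by ring
    _ = k ^ k * w ^ k := by rw [← pow_add]; congr 2; omega

theorem t1_mem {k w : ℕ} (hk : 1 ≤ k) (f : Fin (2 * k) → Fin w)
    (hf : ∀ v, (univ.filter fun a => f a = v).card ≠ 1) :
    ∃ P : Finset (Fin (2 * k)), P.card ≤ k ∧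
      f ∈ (univ : Finset ((P → Fin w) × ({a // a ∉ P} → P))).image (t1_map P) := by
  classical
  have : Nonempty (Fin (2 * k)) := ⟨⟨0, by omega⟩⟩
  have hinv : ∀ a, f (Function.invFun f (f a)) = f a := fun a => Function.invFun_eq ⟨a, rfl⟩
  set P : Finset (Fin (2 * k)) := univ.image (fun a => Function.invFun f (f a)) with hP
  have hPf : P = (univ.image f).image (Function.invFun f) := by
    rw [hP, Finset.image_image]; rfl
  have hmem : ∀ a, Function.invFun f (f a) ∈ P := fun a => by
    rw [hP]; exact Finset.mem_image_of_mem _ (Finset.mem_univ a)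
  have hfix : ∀ a ∈ P, Function.invFun f (f a) = a := by
    intro a ha
    rw [hP] at ha
    obtain ⟨b, -, rfl⟩ := Finset.mem_image.1 ha
    simp only [hinv]
  refine ⟨P, ?_, ?_⟩
  · have h1 : P.card ≤ (univ.image f).card := by rw [hPf]; exact Finset.card_image_le
    have h2 : 2 * (univ.image f).card ≤ (univ : Finset (Fin (2 * k))).card := by
      refine Finset.mul_card_image_le_card _ _ fun v hv => ?_
      obtain ⟨a, -, ha⟩ := Finset.mem_image.1 hv
      have h3 : 0 < (univ.filter fun a => f a = v).card :=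
        Finset.card_pos.2 ⟨a, by simp [ha]⟩
      have h4 := hf v
      omega
    rw [Finset.card_univ, Fintype.card_fin] at h2
    omega
  · refine Finset.mem_image.2 ⟨(fun a => f a, fun a => ⟨Function.invFun f (f a), hmem a⟩),
      Finset.mem_univ _, ?_⟩
    funext a
    unfold t1_map
    by_cases h : a ∈ P
    · rw [dif_pos h]
    · rw [dif_neg h]
      exact hinv a

theorem count_nosing (k w : ℕ) (hk : 1 ≤ k) (hkw : k ≤ w) :
    (((univ : Finset (Fin (2 * k) → Fin w)).filter
      fun f => ∀ v, (univ.filter fun a => f a = v).card ≠ 1).card : ℝ)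
      ≤ 4 ^ k * (k : ℝ) ^ k * (w : ℝ) ^ k := by
  classical
  have h1 : ((univ : Finset (Fin (2 * k) → Fin w)).filter
      fun f => ∀ v, (univ.filter fun a => f a = v).card ≠ 1) ⊆
      ((univ : Finset (Finset (Fin (2 * k)))).filter fun P => P.card ≤ k).biUnion
        fun P => (univ : Finset ((P → Fin w) × ({a // a ∉ P} → P))).image (t1_map P) := by
    intro f hf
    rw [Finset.mem_filter] at hf
    obtain ⟨P, hP, hm⟩ := t1_mem hk f hf.2
    exact Finset.mem_biUnion.2 ⟨P, by simp [hP], hm⟩
  have h2 := Finset.card_le_card h1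
  have h3 : (((univ : Finset (Finset (Fin (2 * k)))).filter fun P => P.card ≤ k).biUnion
        fun P => (univ : Finset ((P → Fin w) × ({a // a ∉ P} → P))).image (t1_map P)).card ≤
      4 ^ k * (k ^ k * w ^ k) := by
    refine Finset.card_biUnion_le.trans ?_
    refine (Finset.sum_le_card_nsmul _ _ (k ^ k * w ^ k) fun P hP => ?_).trans ?_
    · rw [Finset.mem_filter] at hP
      exact (t1_card_image P).trans (t1_arith k w _ hP.2 hkw)
    · rw [smul_eq_mul]
      refine Nat.mul_le_mul_right _ ?_
      refine (Finset.card_filter_le _ _).trans ?_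
      rw [Finset.card_univ, Fintype.card_finset, Fintype.card_fin, pow_mul]
      norm_num
  have h4 : (((univ : Finset (Fin (2 * k) → Fin w)).filter
      fun f => ∀ v, (univ.filter fun a => f a = v).card ≠ 1).card : ℝ) ≤
      ((4 ^ k * (k ^ k * w ^ k) : ℕ) : ℝ) := by exact_mod_cast h2.trans h3
  refine h4.trans (le_of_eq ?_)
  push_cast
  ring

end Pool.Agent.H9.Low
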