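import Pool.Agent.H9.Low.Basic

/-!
# T14: the sup bound
-/

namespace Pool.Agent.H9.Low

open Equiv Finset

section t14

/-- permutations with prescribed values on `Y` -/
theorem t14_count {β : Type*} [Fintype β] [DecidableEq β] (Y : Finset β) (c : β → β) :
    (univ.filter fun h : Perm β => ∀ y ∈ Y, h y = c y).card
      ≤ (Fintype.card β - Y.card).factorial := by
  classical
  rcases (univ.filter fun h : Perm β => ∀ y ∈ Y, h y = c y).eq_empty_or_nonempty with h0 | ⟨h₀, h0⟩
  · rw [h0, card_empty]; exact Nat.zero_le _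
  rw [mem_filter] at h0
  have hcard : (Y.image c).card = Y.card := by
    apply card_image_of_injOn
    intro a ha b hb hab
    rw [← h0.2 a ha, ← h0.2 b hb] at hab
    exact h₀.injective hab
  let f : {h : Perm β // ∀ y ∈ Y, h y = c y} → ({x // x ∉ Y} ↪ {x // x ∉ Y.image c}) := fun h =>
    ⟨fun x => ⟨h.1 x.1, fun hx => by
      obtain ⟨y, hy, hyx⟩ := mem_image.1 hx
      rw [← h.2 y hy] at hyx
      exact x.2 (h.1.injective hyx ▸ hy)⟩, fun a b hab => by
        have := congrArg Subtype.val hab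
        exact Subtype.ext (h.1.injective this)⟩
  have hf : Function.Injective f := by
    intro h h' hh
    apply Subtype.ext
    ext x
    by_cases hx : x ∈ Y
    · rw [h.2 x hx, h'.2 x hx]
    · have h1 := congrArg (fun e : ({x // x ∉ Y} ↪ {x // x ∉ Y.image c}) => (e ⟨x, hx⟩).1) hh
      exact h1
  have h1 := Fintype.card_le_of_injective f hf
  rw [Fintype.card_subtype] at h1
  refine h1.trans ?_
  rw [Fintype.card_embedding_eq]
  have e1 : Fintype.card {x // x ∉ Y} = Fintype.card β - Y.card := by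
    rw [Fintype.card_subtype_compl, Fintype.card_coe]
  have e2 : Fintype.card {x // x ∉ Y.image c} = Fintype.card β - Y.card := by
    rw [Fintype.card_subtype_compl, Fintype.card_coe, hcard]
  rw [e1, e2, Nat.descFactorial_self]

theorem t14_Y {β γ : Type} [Fintype β] [DecidableEq β] [Fintype γ] [DecidableEq γ]
    (g : Perm (β ⊕ γ)) :
    (univ.filter fun b : β => (g (Sum.inl b)).isRight = true).card + kk g = Fintype.card γ := by
  classical
  have h1 : ∑ x : β ⊕ γ, (if (g x).isRight = true then 1 else 0)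
      = ∑ x : β ⊕ γ, (if x.isRight = true then 1 else 0) :=
    Equiv.sum_comp g (fun x : β ⊕ γ => if x.isRight = true then 1 else 0)
  rw [Fintype.sum_sum_type, Fintype.sum_sum_type] at h1
  simp only [← Finset.card_filter] at h1
  unfold kk
  rw [h1]
  simp

/-- number of `h'` for which the permutation lands in a given coset -/
theorem t14_count2 {β γ : Type} [Fintype β] [DecidableEq β] [Fintype γ] [DecidableEq γ]
    (g σ s : Perm (β ⊕ γ)) :
    (univ.filter fun q : Perm β × Perm β =>
      σ * inlP β γ q.1 * g⁻¹ * inlP β γ q.2 = s).card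
      ≤ (Fintype.card β - (Fintype.card γ - kk g)).factorial := by
  classical
  have hY := t14_Y g
  set Y := univ.filter fun b : β => (g (Sum.inl b)).isRight = true with hYdef
  have hinj : ∀ k k' : Perm β, inlP β γ k = inlP β γ k' → k = k' := by
    intro k k' hk
    ext b
    have := congrArg (fun e : Perm (β ⊕ γ) => e (Sum.inl b)) hk
    simpa using this
  have h1 : (univ.filter fun q : Perm β × Perm β =>
      σ * inlP β γ q.1 * g⁻¹ * inlP β γ q.2 = s).card ≤
      (univ.filter fun h : Perm β => ∀ b ∈ Y,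
        h b = (σ⁻¹ (s (g (Sum.inl b)))).elim id (fun _ => b)).card := by
    refine card_le_card_of_injOn Prod.fst ?_ ?_
    · intro q hq
      rw [mem_coe, mem_filter] at hq
      rw [mem_coe, mem_filter]
      refine ⟨mem_univ _, fun b hb => ?_⟩
      rw [hYdef, mem_filter] at hb
      obtain ⟨y, hy⟩ : ∃ y, g (Sum.inl b) = Sum.inr y := by
        rcases hu : g (Sum.inl b) with x | y'
        · rw [hu] at hb; simp at hb
        · exact ⟨y', rfl⟩
      have h2 : g⁻¹ (Sum.inr y) = Sum.inl b := by rw [← hy]; simp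
      have h3 : σ⁻¹ (s (Sum.inr y)) = Sum.inl (q.1 b) := by
        rw [← hq.2]
        simp only [Equiv.Perm.mul_apply, inlP_inr, h2, inlP_inl]
        simp
      rw [hy, h3]
      rfl
    · intro q hq q' hq' hqq
      rw [mem_coe, mem_filter] at hq hq'
      have hqq' : q.1 = q'.1 := hqq
      have h2 := hq.2.trans hq'.2.symm
      rw [hqq'] at h2
      have h3 := mul_left_cancel h2
      exact Prod.ext hqq' (hinj _ _ h3)
  refine (h1.trans (t14_count Y _)).trans (le_of_eq ?_)
  congr 1
  omega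

/-- the arithmetic -/
theorem t14_arith (N G k : ℕ) (hk : k ≤ G) (hG : 2 * G ≤ N) :
    ((N - (G - k)).factorial : ℝ) * (N + G).factorial / ((N.factorial : ℝ) * N.factorial)
      ≤ ((N + G : ℕ) : ℝ) ^ k * (((N : ℝ) + G) / (N - G)) ^ G := by
  obtain ⟨r, rfl⟩ : ∃ r, G = k + r := ⟨G - k, by omega⟩
  have e0 : k + r - k = r := by omega
  rw [e0]
  rcases Nat.eq_zero_or_pos N with rfl | hN
  · have hk0 : k = 0 := by omega
    have hr0 : r = 0 := by omega
    subst hk0 hr0
    simp
  have hNf : (0 : ℝ) < N.factorial := by exact_mod_cast Nat.factorial_pos _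
  -- upper bound for `(N + G)!`
  have h1 : (N + (k + r)).factorial ≤ N.factorial * (N + (k + r)) ^ (k + r) := by
    rw [← Nat.factorial_mul_ascFactorial]
    exact Nat.mul_le_mul_left _ (Nat.ascFactorial_le_pow_add _ _)
  -- lower bound for `N!`
  have h2 : (N - r).factorial * (N - (k + r)) ^ r ≤ N.factorial := by
    obtain ⟨M, rfl⟩ : ∃ M, N = M + r := ⟨N - r, by omega⟩
    have e1 : M + r - r = M := by omega
    rw [e1]
    have h3 : M.factorial * (M + 1) ^ r ≤ (M + r).factorial :=
      Nat.factorial_mul_pow_le_factorial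
    refine le_trans ?_ h3
    exact Nat.mul_le_mul_left _ (Nat.pow_le_pow_left (by omega) _)
  have h1' : ((N + (k + r)).factorial : ℝ) ≤ N.factorial * ((N + (k + r) : ℕ) : ℝ) ^ (k + r) := by
    exact_mod_cast h1
  have hsub : ((N - (k + r) : ℕ) : ℝ) = (N : ℝ) - ((k + r : ℕ) : ℝ) := by
    rw [Nat.cast_sub (by omega)]
  have h2' : ((N - r).factorial : ℝ) * ((N : ℝ) - ((k + r : ℕ) : ℝ)) ^ r ≤ N.factorial := by
    rw [← hsub]; exact_mod_cast h2
  have hpos : (0 : ℝ) < (N : ℝ) - ((k + r : ℕ) : ℝ) := by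
    rw [← hsub]; exact_mod_cast (by omega : 0 < N - (k + r))
  have hratio : (1 : ℝ) ≤ ((N : ℝ) + ((k + r : ℕ) : ℝ)) / (N - ((k + r : ℕ) : ℝ)) := by
    rw [le_div_iff₀ hpos]
    have : (0 : ℝ) ≤ ((k + r : ℕ) : ℝ) := Nat.cast_nonneg _
    linarith
  calc ((N - r).factorial : ℝ) * (N + (k + r)).factorial / ((N.factorial : ℝ) * N.factorial)
      ≤ ((N - r).factorial : ℝ) * (N.factorial * ((N + (k + r) : ℕ) : ℝ) ^ (k + r))
          / ((N.factorial : ℝ) * N.factorial) := by gcongr
    _ = ((N - r).factorial : ℝ) / N.factorial * ((N + (k + r) : ℕ) : ℝ) ^ (k + r) := by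
        field_simp
    _ ≤ (1 / ((N : ℝ) - ((k + r : ℕ) : ℝ)) ^ r) * ((N + (k + r) : ℕ) : ℝ) ^ (k + r) := by
        apply mul_le_mul_of_nonneg_right _ (by positivity)
        rw [div_le_div_iff₀ hNf (by positivity), one_mul]
        exact h2'
    _ = ((N + (k + r) : ℕ) : ℝ) ^ k *
          (((N : ℝ) + ((k + r : ℕ) : ℝ)) / (N - ((k + r : ℕ) : ℝ))) ^ r := by
        rw [div_pow, pow_add, Nat.cast_add N (k + r)]
        field_simp
    _ ≤ ((N + (k + r) : ℕ) : ℝ) ^ k *
          (((N : ℝ) + ((k + r : ℕ) : ℝ)) / (N - ((k + r : ℕ) : ℝ))) ^ (k + r) := by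
        apply mul_le_mul_of_nonneg_left _ (by positivity)
        exact pow_le_pow_right₀ hratio (by omega)

end t14

theorem sup_bound {β γ : Type} [Fintype β] [DecidableEq β] [Fintype γ] [DecidableEq γ]
    (g : Perm (β ⊕ γ)) (hγ : 2 * Fintype.card γ ≤ Fintype.card β)
    (h : Perm (β ⊕ γ) → ℝ) (h0 : SD h) (hinv : EK (inlP β γ) h = h) (σ : Perm (β ⊕ γ)) :
    EK (inlP β γ) (R g h) σ ≤ (Fintype.card (β ⊕ γ) : ℝ) ^ kk g *
      (((Fintype.card β : ℝ) + Fintype.card γ) / (Fintype.card β - Fintype.card γ)) ^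
        Fintype.card γ := by
  classical
  have hkk : kk g ≤ Fintype.card γ := by
    have := t14_Y g; omega
  have hNf : (0 : ℝ) < (Fintype.card β).factorial := by exact_mod_cast Nat.factorial_pos _
  have e1 : EK (inlP β γ) (R g h) σ = (∑ q : Perm β × Perm β,
      h (σ * inlP β γ q.1 * g⁻¹ * inlP β γ q.2)) /
        (((Fintype.card β).factorial : ℝ) * (Fintype.card β).factorial) := by
    have h1 : EK (inlP β γ) (R g h) σ = av fun k : Perm β =>
        EK (inlP β γ) h (σ * inlP β γ k * g⁻¹) := by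
      rw [hinv]; rfl
    rw [h1]
    unfold EK
    rw [← av_prod (fun q : Perm β × Perm β => h (σ * inlP β γ q.1 * g⁻¹ * inlP β γ q.2))]
    unfold av
    rw [Fintype.card_prod, Fintype.card_perm]
    push_cast
    rfl
  have e2 : (∑ q : Perm β × Perm β, h (σ * inlP β γ q.1 * g⁻¹ * inlP β γ q.2))
      ≤ ((Fintype.card β - (Fintype.card γ - kk g)).factorial : ℝ) * ∑ s, h s := by
    rw [← Finset.sum_fiberwise_of_maps_to (s := univ) (t := univ)
      (g := fun q : Perm β × Perm β => σ * inlP β γ q.1 * g⁻¹ * inlP β γ q.2)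
      (fun _ _ => mem_univ _), Finset.mul_sum]
    refine Finset.sum_le_sum fun s _ => ?_
    rw [Finset.sum_congr rfl (fun q hq => by rw [(mem_filter.1 hq).2]), Finset.sum_const,
      nsmul_eq_mul]
    exact mul_le_mul_of_nonneg_right (by exact_mod_cast t14_count2 g σ s) (h0.1 s)
  have e3 : ∑ s, h s ≤ ((Fintype.card β + Fintype.card γ).factorial : ℝ) := by
    have h1 := h0.2
    unfold av at h1
    rw [Fintype.card_perm, Fintype.card_sum, div_le_one (by exact_mod_cast Nat.factorial_pos _)]
      at h1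
    exact h1
  rw [e1]
  calc _ ≤ (((Fintype.card β - (Fintype.card γ - kk g)).factorial : ℝ) *
        (Fintype.card β + Fintype.card γ).factorial) /
        (((Fintype.card β).factorial : ℝ) * (Fintype.card β).factorial) := by
        apply div_le_div_of_nonneg_right _ (by positivity)
        exact e2.trans (mul_le_mul_of_nonneg_left e3 (by positivity))
    _ ≤ _ := by
        rw [Fintype.card_sum]
        exact t14_arith _ _ _ hkk hγ

end Pool.Agent.H9.Low
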