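import Pool.Agent.H9.Low.T10
import Pool.Agent.H9.Low.T11

/-!
# T16: stage 1
-/

namespace Pool.Agent.H9.Low

open Equiv Finset

section t16

variable {Y : Type*} [Fintype Y]

/-- bounded by `a` up to a function of mass `b` -/
def t16_B {Y : Type*} [Fintype Y] (F : Y → ℝ) (a b : ℝ) : Prop :=
  ∃ ρ : Y → ℝ, (∀ σ, 0 ≤ ρ σ) ∧ av ρ ≤ b ∧ ∀ σ, F σ ≤ a + ρ σ

theorem t16_B_add {F G : Y → ℝ} {a b a' b' : ℝ} (hF : t16_B F a b) (hG : t16_B G a' b') :
    t16_B (fun σ => F σ + G σ) (a + a') (b + b') := by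
  obtain ⟨ρ, h1, h2, h3⟩ := hF
  obtain ⟨ρ', h1', h2', h3'⟩ := hG
  refine ⟨fun σ => ρ σ + ρ' σ, fun σ => add_nonneg (h1 σ) (h1' σ), ?_, fun σ => ?_⟩
  · rw [av_add]; exact add_le_add h2 h2'
  · have := h3 σ; have := h3' σ; linarith

theorem t16_B_mono {F G : Y → ℝ} {a b : ℝ} (h : ∀ σ, F σ ≤ G σ) (hG : t16_B G a b) :
    t16_B F a b := by
  obtain ⟨ρ, h1, h2, h3⟩ := hG
  exact ⟨ρ, h1, h2, fun σ => (h σ).trans (h3 σ)⟩

theorem t16_B_mono' {F : Y → ℝ} {a b a' b' : ℝ} (hF : t16_B F a b) (ha : a ≤ a') (hb : b ≤ b') :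
    t16_B F a' b' := by
  obtain ⟨ρ, h1, h2, h3⟩ := hF
  exact ⟨ρ, h1, h2.trans hb, fun σ => by have := h3 σ; linarith⟩

theorem t16_B_self {F : Y → ℝ} (hF : ∀ σ, 0 ≤ F σ) {b : ℝ} (hb : av F ≤ b) : t16_B F 0 b :=
  ⟨F, hF, hb, fun σ => by rw [zero_add]⟩

theorem t16_B_av {ι : Type*} [Fintype ι] [Nonempty ι] {F : ι → Y → ℝ} {a : ℝ} {b : ι → ℝ}
    (h : ∀ i, t16_B (F i) a (b i)) : t16_B (fun σ => av fun i => F i σ) a (av b) := by
  choose ρ h1 h2 h3 using h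
  refine ⟨fun σ => av fun i => ρ i σ, fun σ => av_nonneg fun i => h1 i σ, ?_, fun σ => ?_⟩
  · rw [av_comm]
    exact av_le_av h2
  · calc av (fun i => F i σ) ≤ av fun i => a + ρ i σ := av_le_av fun i => h3 i σ
      _ = a + av fun i => ρ i σ := by rw [av_add, av_const]

variable {G : Type*} [Group G] [Fintype G] {ι : Type*} [Fintype ι]

theorem t16_B_Mav [Nonempty ι] (s : ι → G) {F : G → ℝ} {a b : ℝ} (hF : t16_B F a b) :
    t16_B (Mav s F) a b := by
  obtain ⟨ρ, h1, h2, h3⟩ := hF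
  refine ⟨Mav s ρ, fun σ => av_nonneg fun i => h1 _, by rw [av_Mav]; exact h2, fun σ => ?_⟩
  calc Mav s F σ ≤ Mav s (fun σ => a + ρ σ) σ := Mav_mono s h3 σ
    _ = a + Mav s ρ σ := by
        unfold Mav
        rw [av_add, av_const]

theorem t16_B_iter [Nonempty ι] (s : ι → G) {F : G → ℝ} {a b : ℝ} (hF : t16_B F a b) (t : ℕ) :
    t16_B ((Mav s)^[t] F) a b := by
  induction t with
  | zero => exact hF
  | succ t ih => rw [Function.iterate_succ_apply']; exact t16_B_Mav s ih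

omit [Fintype G] in
theorem t16_iter_add (s : ι → G) (t : ℕ) (F F' : G → ℝ) :
    (Mav s)^[t] (fun σ => F σ + F' σ) = fun σ => (Mav s)^[t] F σ + (Mav s)^[t] F' σ := by
  induction t with
  | zero => rfl
  | succ t ih => rw [Function.iterate_succ_apply', ih, Mav_add, Function.iterate_succ_apply',
      Function.iterate_succ_apply']

omit [Fintype G] in
theorem t16_iter_smul (s : ι → G) (t : ℕ) (c : ℝ) (F : G → ℝ) :
    (Mav s)^[t] (fun σ => c * F σ) = fun σ => c * (Mav s)^[t] F σ := by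
  induction t with
  | zero => rfl
  | succ t ih => rw [Function.iterate_succ_apply', ih, Mav_smul, Function.iterate_succ_apply']

omit [Fintype G] in
theorem t16_iter_mono (s : ι → G) (t : ℕ) {F F' : G → ℝ} (h : ∀ σ, F σ ≤ F' σ) (σ : G) :
    (Mav s)^[t] F σ ≤ (Mav s)^[t] F' σ := by
  induction t generalizing σ with
  | zero => exact h σ
  | succ t ih =>
    rw [Function.iterate_succ_apply', Function.iterate_succ_apply']
    exact Mav_mono s ih σ

omit [Fintype G] in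
theorem t16_iter_nonneg (s : ι → G) (t : ℕ) {F : G → ℝ} (h : ∀ σ, 0 ≤ F σ) (σ : G) :
    0 ≤ (Mav s)^[t] F σ := by
  induction t generalizing σ with
  | zero => exact h σ
  | succ t ih =>
    rw [Function.iterate_succ_apply']
    exact av_nonneg fun i => ih _

theorem t16_av_iter [Nonempty ι] (s : ι → G) (t : ℕ) (F : G → ℝ) :
    av ((Mav s)^[t] F) = av F := by
  induction t with
  | zero => rfl
  | succ t ih => rw [Function.iterate_succ_apply', av_Mav, ih]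

end t16

section t16b

variable {β I : Type} [Fintype β] [DecidableEq β] [Fintype I] [DecidableEq I] {w w2 d : ℕ}

/-- one step dominates the step without `c` -/
theorem t16_P_ge (S : Sys β I d) (m : ℝ) (hm : m = Fintype.card I + 1)
    (F : Perm (Pos β I d) → ℝ) (hF : ∀ σ, 0 ≤ F σ) (σ) :
    (1 - 1 / m) * S.Po F σ ≤ S.P F σ := by
  have hm0 : 0 < m := by rw [hm]; positivity
  unfold Sys.Po Sys.P Mav av
  rw [Fintype.sum_option, Fintype.card_option]
  push_cast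
  rw [← hm]
  rcases isEmpty_or_nonempty I with hI | hI
  · simp only [Finset.univ_eq_empty, Finset.sum_empty, zero_div, mul_zero]
    exact div_nonneg (add_nonneg (hF _) le_rfl) hm0.le
  · have hc : (0 : ℝ) < Fintype.card I := by exact_mod_cast Fintype.card_pos
    have e1 : (1 - 1 / m) = (Fintype.card I : ℝ) / m := by
      rw [hm]; field_simp; ring
    have e2 : ∀ A : ℝ, (Fintype.card I : ℝ) / m * (A / Fintype.card I) = A / m := fun A => by
      field_simp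
    rw [e1, e2]
    exact div_le_div_of_nonneg_right (le_add_of_nonneg_left (hF _)) hm0.le

theorem t16_P_ge_iter (S : Sys β I d) (m : ℝ) (hm : m = Fintype.card I + 1) (W : ℕ)
    (F : Perm (Pos β I d) → ℝ) (hF : ∀ σ, 0 ≤ F σ) (σ) :
    (1 - 1 / m) ^ W * S.Po^[W] F σ ≤ S.P^[W] F σ := by
  have hm1 : 1 ≤ m := by rw [hm]; linarith [Nat.cast_nonneg (α := ℝ) (Fintype.card I)]
  have hp : 0 ≤ 1 - 1 / m := by
    rw [sub_nonneg, div_le_one (by linarith)]; exact hm1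
  have hPo : ∀ t, ∀ σ, 0 ≤ S.Po^[t] F σ := fun t σ => t16_iter_nonneg S.g t hF σ
  induction W generalizing σ with
  | zero => simp
  | succ W ih =>
    rw [Function.iterate_succ_apply', Function.iterate_succ_apply']
    calc (1 - 1 / m) ^ (W + 1) * S.Po (S.Po^[W] F) σ
        = (1 - 1 / m) ^ W * ((1 - 1 / m) * S.Po (S.Po^[W] F) σ) := by ring
      _ ≤ (1 - 1 / m) ^ W * S.P (S.Po^[W] F) σ :=
          mul_le_mul_of_nonneg_left (t16_P_ge S m hm _ (hPo W) σ) (pow_nonneg hp _)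
      _ = S.P (fun σ => (1 - 1 / m) ^ W * S.Po^[W] F σ) σ := by
          unfold Sys.P; rw [Mav_smul]
      _ ≤ S.P (S.P^[W] F) σ := Mav_mono _ ih σ

/-- the decomposition of `R` windows -/
theorem t16_dec [Nonempty I] (S : Sys β I d) (m : ℝ) (hm : m = Fintype.card I + 1) (W : ℕ)
    (f : Perm (Pos β I d) → ℝ) (hf : ∀ σ, 0 ≤ f σ)
    (Q : (Perm (Pos β I d) → ℝ) → ℝ → ℝ → Prop)
    (hQ0 : Q (fun _ => 0) 0 0)
    (hQa : ∀ F G a b a' b', Q F a b → Q G a' b' → Q (fun σ => F σ + G σ) (a + a') (b + b'))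
    (hQW : ∀ F a b, Q F a b → Q (S.P^[W] F) a b)
    (a₀ b₀ : ℝ) (R : ℕ) (hA : ∀ j < R, Q (S.Po^[W] (S.P^[j * W] f)) a₀ b₀) :
    ∃ E c : Perm (Pos β I d) → ℝ, (∀ σ, 0 ≤ c σ) ∧ (∀ σ, c σ ≤ S.P^[R * W] f σ) ∧
      av c = (1 - (1 - 1 / m) ^ W) ^ R * av f ∧ Q E (R * a₀) (R * b₀) ∧
      ∀ σ, S.P^[R * W] f σ ≤ E σ + c σ := by
  have hm1 : 1 ≤ m := by rw [hm]; linarith [Nat.cast_nonneg (α := ℝ) (Fintype.card I)]
  have hp : 0 ≤ 1 - 1 / m := by
    rw [sub_nonneg, div_le_one (by linarith)]; exact hm1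
  have hp1 : (1 - 1 / m) ^ W ≤ 1 := pow_le_one₀ hp (by
    have : 0 ≤ 1 / m := by positivity
    linarith)
  have hp0 : 0 ≤ (1 - 1 / m) ^ W := pow_nonneg hp _
  induction R with
  | zero =>
    refine ⟨fun _ => 0, f, hf, fun σ => by simp, by simp, ?_, fun σ => by simp⟩
    simpa using hQ0
  | succ R ih =>
    obtain ⟨E, c, h1, h2, h3, h4, h5⟩ := ih fun j hj => hA j (by omega)
    have e1 : ∀ F : Perm (Pos β I d) → ℝ, S.P^[(R + 1) * W] F = S.P^[W] (S.P^[R * W] F) := by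
      intro F
      rw [← Function.iterate_add_apply]
      congr 1
      ring
    refine ⟨fun σ => S.P^[W] E σ + S.Po^[W] (S.P^[R * W] f) σ,
      fun σ => S.P^[W] c σ - (1 - 1 / m) ^ W * S.Po^[W] c σ, ?_, ?_, ?_, ?_, ?_⟩
    · intro σ
      have := t16_P_ge_iter S m hm W c h1 σ
      linarith
    · intro σ
      have h6 : 0 ≤ (1 - 1 / m) ^ W * S.Po^[W] c σ :=
        mul_nonneg hp0 (t16_iter_nonneg S.g W h1 σ)
      have h7 : S.P^[W] c σ ≤ S.P^[W] (S.P^[R * W] f) σ := t16_iter_mono S.gl W h2 σ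
      rw [e1]
      linarith
    · have h6 : av (S.P^[W] c) = av c := t16_av_iter S.gl W c
      have h7 : av (S.Po^[W] c) = av c := t16_av_iter S.g W c
      rw [av_sub, av_mul_left, h6, h7, h3]
      ring
    · have h6 := hQa _ _ _ _ _ _ (hQW E _ _ h4) (hA R (by omega))
      have e2 : ((R + 1 : ℕ) : ℝ) * a₀ = R * a₀ + a₀ := by push_cast; ring
      have e3 : ((R + 1 : ℕ) : ℝ) * b₀ = R * b₀ + b₀ := by push_cast; ring
      rw [e2, e3]
      exact h6
    · intro σ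
      rw [e1]
      have h6 : S.P^[W] (S.P^[R * W] f) σ ≤ S.P^[W] (fun σ => E σ + c σ) σ :=
        t16_iter_mono S.gl W h5 σ
      have h7 : S.P^[W] (fun σ => E σ + c σ) = fun σ => S.P^[W] E σ + S.P^[W] c σ :=
        t16_iter_add S.gl W E c
      rw [h7] at h6
      have h8 : (1 - 1 / m) ^ W * S.Po^[W] c σ ≤ S.Po^[W] c σ :=
        mul_le_of_le_one_left (t16_iter_nonneg S.g W h1 σ) hp1
      have h9 : S.Po^[W] c σ ≤ S.Po^[W] (S.P^[R * W] f) σ := t16_iter_mono S.g W h2 σ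
      linarith


theorem t16_EH_Po (S : Sys β I d) (F : Perm (Pos β I d) → ℝ) : EH (S.Po F) = S.Po (EH F) := by
  ext σ
  have h1 : S.Po (EH F) σ = av fun i => R (S.g i) (EH F) σ := rfl
  have h2 : EH (S.Po F) σ = av fun i => EH (R (S.g i) F) σ := by
    unfold EH EK Sys.Po Mav
    rw [av_comm]
    rfl
  rw [h1, h2]
  congr 1
  ext i
  rw [R_g_EH]

theorem t16_EH_Po_iter (S : Sys β I d) (W : ℕ) (F : Perm (Pos β I d) → ℝ) :
    EH (S.Po^[W] F) = S.Po^[W] (EH F) := by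
  induction W with
  | zero => rfl
  | succ W ih => rw [Function.iterate_succ_apply', t16_EH_Po, ih, Function.iterate_succ_apply']

theorem t16_sup_iter {G : Type*} [Group G] {ι : Type*} [Fintype ι] [Nonempty ι] (s : ι → G)
    (t : ℕ) {F : G → ℝ} {C : ℝ} (hF : ∀ σ, F σ ≤ C) (σ : G) : (Mav s)^[t] F σ ≤ C := by
  induction t generalizing σ with
  | zero => exact hF σ
  | succ t ih => rw [Function.iterate_succ_apply']; exact av_le_const fun i => ih _

theorem t16_iter_av {G : Type*} [Group G] {ι κ : Type*} [Fintype ι] [Fintype κ] (s : ι → G)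
    (t : ℕ) (F : κ → G → ℝ) :
    (Mav s)^[t] (fun σ => av fun k => F k σ) = fun σ => av fun k => (Mav s)^[t] (F k) σ := by
  induction t with
  | zero => rfl
  | succ t ih =>
    rw [Function.iterate_succ_apply', ih]
    ext σ
    simp only [Function.iterate_succ_apply']
    unfold Mav
    rw [av_comm]

theorem t16_core (S : HSys β I w w2 d) (hw : 1 ≤ w) (W ks : ℕ) (x' e1 e2 Ck : ℝ)
    (hx' : x' = 16 * ((Fintype.card (Pos β I d) : ℝ) ^ Fintype.card (Out I d)) ^ ((1 : ℝ) / w))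
    (hLW : ∀ (F : Perm (Pos β I d) → ℝ) (y : ℝ), SD F → Dec S.psi F y →
      ∃ ρ : Perm (Pos β I d) → ℝ, (∀ σ, 0 ≤ ρ σ) ∧ av ρ ≤ e1 * y + e2 ∧
        ∀ σ, S.Po^[W] F σ ≤ 4 ^ w * EH (S.EZ (S.Po^[W] F)) σ + ρ σ)
    (hsup : ∀ g : Perm (Pos β I d), kk g ≤ ks → ∀ h : Perm (Pos β I d) → ℝ, SD h → EH h = h →
      ∀ σ, EH (R g h) σ ≤ Ck)
    (g h : Perm (Pos β I d) → ℝ) (hg : SD g) (hh : SD h) (hhE : EH h = h)
    (hgh : ∀ σ, g σ ≤ 4 ^ w * h σ)
    (hn : nsq h ≤ (Fintype.card (Pos β I d) : ℝ) ^ Fintype.card (Out I d))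
    (u : Perm (Pos β I d)) (hu : kk u ≤ ks) :
    t16_B (S.Po^[W] (R u g)) (16 ^ w * Ck) (e1 * x' + e2) := by
  have : Nonempty I := ⟨S.e (Sum.inl ⟨0, hw⟩)⟩
  have hF : SD (R u g) := ⟨fun σ => hg.1 _, by rw [av_R]; exact hg.2⟩
  have hw0 : (0 : ℝ) < w := by exact_mod_cast hw
  have hpsi : S.psi (R u g) ≤ x' := by
    unfold HSys.psi
    have h1 : nsq (S.EZ (R u g)) ≤ 16 ^ w * nsq h := by
      calc nsq (S.EZ (R u g)) ≤ nsq (R u g) := nsq_EZ_le S _
        _ = nsq g := nsq_R u g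
        _ ≤ nsq (fun σ => 4 ^ w * h σ) := nsq_mono hg.1 hgh
        _ = (4 ^ w) ^ 2 * nsq h := nsq_smul _ _
        _ = 16 ^ w * nsq h := by
            rw [← pow_mul, mul_comm w 2, pow_mul]; norm_num
    have h2 : nsq (S.EZ (R u g)) ≤ 16 ^ w *
        (Fintype.card (Pos β I d) : ℝ) ^ Fintype.card (Out I d) :=
      h1.trans (mul_le_mul_of_nonneg_left hn (by positivity))
    calc nsq (S.EZ (R u g)) ^ ((1 : ℝ) / w)
        ≤ (16 ^ w * (Fintype.card (Pos β I d) : ℝ) ^ Fintype.card (Out I d)) ^ ((1 : ℝ) / w) :=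
          Real.rpow_le_rpow (nsq_nonneg _) h2 (by positivity)
      _ = x' := by
          rw [Real.mul_rpow (by positivity) (by positivity), hx']
          congr 1
          rw [← Real.rpow_natCast, ← Real.rpow_mul (by norm_num), mul_one_div_cancel hw0.ne',
            Real.rpow_one]
  obtain ⟨ρ, h1, h2, h3⟩ := hLW (R u g) x' hF ((Dec.self hF).mono hpsi)
  refine ⟨ρ, h1, h2, fun σ => (h3 σ).trans (add_le_add_left ?_ _)⟩
  have h4 : ∀ σ, EH (R u g) σ ≤ 4 ^ w * Ck := by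
    intro σ
    have h5 : EH (R u g) σ ≤ EH (fun σ => 4 ^ w * R u h σ) σ :=
      av_le_av fun k => hgh _
    have h6 : EH (fun σ => 4 ^ w * R u h σ) = fun σ => 4 ^ w * EH (R u h) σ :=
      EK_smul (inlP β (Out I d)) (4 ^ w) (R u h)
    rw [h6] at h5
    exact h5.trans (mul_le_mul_of_nonneg_left (hsup u hu h hh hhE σ) (by positivity))
  have h7 : EH (S.EZ (S.Po^[W] (R u g))) σ ≤ 4 ^ w * Ck := by
    rw [EH_EZ, t16_EH_Po_iter]
    refine av_le_const fun z => ?_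
    exact t16_sup_iter S.g W h4 _
  calc 4 ^ w * EH (S.EZ (S.Po^[W] (R u g))) σ ≤ 4 ^ w * (4 ^ w * Ck) :=
        mul_le_mul_of_nonneg_left h7 (by positivity)
    _ = 16 ^ w * Ck := by
        rw [← mul_assoc, ← mul_pow]; norm_num

theorem stage1 (S : HSys β I w w2 d) (hw : 1 ≤ w) (Rn W τ T0 ks : ℕ) (m : ℝ)
    (hm : m = Fintype.card I + 1) (x x' e1 e2 Pb Ck : ℝ) (he1 : 0 ≤ e1) (he2 : 0 ≤ e2)
    (hx : 0 ≤ x) (hPb : 0 ≤ Pb) (hCk : 0 ≤ Ck)
    (hx' : x' = 16 * ((Fintype.card (Pos β I d) : ℝ) ^ Fintype.card (Out I d)) ^ ((1 : ℝ) / w))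
    (hLW : ∀ (F : Perm (Pos β I d) → ℝ) (y : ℝ), SD F → Dec S.psi F y →
      ∃ ρ : Perm (Pos β I d) → ℝ, (∀ σ, 0 ≤ ρ σ) ∧ av ρ ≤ e1 * y + e2 ∧
        ∀ σ, S.Po^[W] F σ ≤ 4 ^ w * EH (S.EZ (S.Po^[W] F)) σ + ρ σ)
    (hDec : ∀ i < Rn, Dec S.psi (S.P^[T0 + i * W] (dl (Perm (Pos β I d)))) x)
    (hk : ∀ s ≥ τ, av (fun v : Fin s → Option I => if ks < kk (wd S.gl v) then (1 : ℝ) else 0)
      ≤ Pb)
    (hsup : ∀ g : Perm (Pos β I d), kk g ≤ ks → ∀ h : Perm (Pos β I d) → ℝ, SD h → EH h = h →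
      ∀ σ, EH (R g h) σ ≤ Ck) :
    ∃ ρ : Perm (Pos β I d) → ℝ, (∀ σ, 0 ≤ ρ σ) ∧
      av ρ ≤ (1 - (1 - 1 / m) ^ W) ^ Rn + Rn * (e1 * x + e2)
        + Rn * ((1 - (1 - 1 / m) ^ W) ^ Rn + Rn * (Pb + e1 * x' + e2)) ∧
      ∀ σ, S.P^[T0 + Rn * W + τ + Rn * W] (dl (Perm (Pos β I d))) σ
        ≤ Rn ^ 2 * 16 ^ w * Ck + ρ σ := by
  have : Nonempty I := ⟨S.e (Sum.inl ⟨0, hw⟩)⟩
  have hm1 : 1 ≤ m := by rw [hm]; linarith [Nat.cast_nonneg (α := ℝ) (Fintype.card I)]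
  have hp : 0 ≤ 1 - 1 / m := by
    rw [sub_nonneg, div_le_one (by linarith)]; exact hm1
  have hp1 : (1 - 1 / m) ^ W ≤ 1 := pow_le_one₀ hp (by
    have : 0 ≤ 1 / m := by positivity
    linarith)
  set r : ℝ := (1 - (1 - 1 / m) ^ W) ^ Rn with hr
  have hr0 : 0 ≤ r := pow_nonneg (by linarith) _
  have hx'0 : 0 ≤ x' := by rw [hx']; positivity
  -- the second stage
  have core : ∀ g h : Perm (Pos β I d) → ℝ, SD g → SD h → EH h = h →
      (∀ σ, g σ ≤ 4 ^ w * h σ) →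
      nsq h ≤ (Fintype.card (Pos β I d) : ℝ) ^ Fintype.card (Out I d) →
      ∀ s ≥ τ, t16_B (S.P^[Rn * W] (S.P^[s] g)) (Rn * (16 ^ w * Ck))
        (r + Rn * (Pb + e1 * x' + e2)) := by
    intro g h hg hh hhE hgh hn s hs
    have hA : ∀ j < Rn, t16_B (S.Po^[W] (S.P^[j * W] (S.P^[s] g))) (16 ^ w * Ck)
        (Pb + e1 * x' + e2) := by
      intro j _
      have e1' : S.P^[j * W] (S.P^[s] g)
          = fun σ => av fun v : Fin (j * W + s) → Option I => R (wd S.gl v) g σ := by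
        rw [← Function.iterate_add_apply]
        exact Mav_iter S.gl _ g
      have e2' : S.Po^[W] (fun σ => av fun v : Fin (j * W + s) → Option I => R (wd S.gl v) g σ)
          = fun σ => av fun v : Fin (j * W + s) → Option I => S.Po^[W] (R (wd S.gl v) g) σ :=
        t16_iter_av S.g W _
      rw [e1', e2']
      have h1 : ∀ v : Fin (j * W + s) → Option I, t16_B (S.Po^[W] (R (wd S.gl v) g))
          (16 ^ w * Ck) ((if ks < kk (wd S.gl v) then (1 : ℝ) else 0) + (e1 * x' + e2)) := by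
        intro v
        by_cases hv : ks < kk (wd S.gl v)
        · rw [if_pos hv]
          have h3 : av (S.Po^[W] (R (wd S.gl v) g)) ≤ 1 := by
            have h4 : av (S.Po^[W] (R (wd S.gl v) g)) = av (R (wd S.gl v) g) :=
              t16_av_iter S.g W _
            rw [h4, av_R]
            exact hg.2
          have h2 : t16_B (S.Po^[W] (R (wd S.gl v) g)) 0 1 :=
            t16_B_self (fun σ => t16_iter_nonneg S.g W (fun σ => hg.1 _) σ) h3
          exact t16_B_mono' h2 (by positivity) (by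
            have := mul_nonneg he1 hx'0
            linarith)
        · rw [if_neg hv, zero_add]
          exact t16_core S hw W ks x' e1 e2 Ck hx' hLW hsup g h hg hh hhE hgh hn _
            (not_lt.1 hv)
      refine t16_B_mono' (t16_B_av h1) le_rfl ?_
      rw [av_add, av_const]
      have := hk (j * W + s) (by omega)
      linarith
    obtain ⟨E, c, h1, h2, h3, h4, h5⟩ := t16_dec S.toSys m hm W (S.P^[s] g)
      (fun σ => t16_iter_nonneg S.gl s hg.1 σ) (fun F a b => t16_B F a b)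
      ⟨fun _ => 0, fun _ => le_rfl, by rw [av_zero], fun σ => by simp⟩
      (fun F G a b a' b' hF hG => t16_B_add hF hG)
      (fun F a b hF => t16_B_iter S.gl hF W) (16 ^ w * Ck) (Pb + e1 * x' + e2) Rn hA
    have h6 : av c ≤ r := by
      have h7 : av (S.P^[s] g) = av g := t16_av_iter S.gl s g
      rw [h3, h7]
      exact mul_le_of_le_one_right hr0 hg.2
    have h8 := t16_B_mono h5 (t16_B_add h4 (t16_B_self h1 h6))
    exact t16_B_mono' h8 (by linarith) (by linarith)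
  -- the first stage
  have hD : ∀ t, SD (S.P^[t] (dl (Perm (Pos β I d)))) := fun t =>
    ⟨fun σ => t16_iter_nonneg S.gl t dens_dl.1 σ, by
      have h1 : av (S.P^[t] (dl (Perm (Pos β I d)))) = av (dl (Perm (Pos β I d))) :=
        t16_av_iter S.gl t _
      rw [h1]
      exact dens_dl.2.le⟩
  have hA : ∀ j < Rn, (fun (F : Perm (Pos β I d) → ℝ) (a b : ℝ) =>
      ∀ s ≥ τ, t16_B (S.P^[Rn * W] (S.P^[s] F)) a b)
      (S.Po^[W] (S.P^[j * W] (S.P^[T0] (dl (Perm (Pos β I d))))))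
      (Rn * (16 ^ w * Ck)) ((e1 * x + e2) + (r + Rn * (Pb + e1 * x' + e2))) := by
    intro j hj s hs
    have e1' : S.P^[j * W] (S.P^[T0] (dl (Perm (Pos β I d))))
        = S.P^[T0 + j * W] (dl (Perm (Pos β I d))) := by
      rw [← Function.iterate_add_apply, add_comm]
    rw [e1']
    set F := S.P^[T0 + j * W] (dl (Perm (Pos β I d))) with hF
    have hFS : SD F := hD _
    obtain ⟨ρ, h1, h2, h3⟩ := hLW F x hFS (hDec j hj)
    have hG0 : ∀ σ, 0 ≤ S.Po^[W] F σ := fun σ => t16_iter_nonneg S.g W hFS.1 σ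
    have hGa : av (S.Po^[W] F) = av F := t16_av_iter S.g W F
    have hEZ : SD (S.EZ (S.Po^[W] F)) :=
      ⟨fun σ => av_nonneg fun z => hG0 _, by rw [av_EZ, hGa]; exact hFS.2⟩
    have hh : SD (EH (S.EZ (S.Po^[W] F))) :=
      ⟨fun σ => av_nonneg fun z => hEZ.1 _, by
        have h4 : av (EH (S.EZ (S.Po^[W] F))) = av (S.EZ (S.Po^[W] F)) :=
          av_EK (inlP β (Out I d)) _
        rw [h4]; exact hEZ.2⟩
    have hhE : EH (EH (S.EZ (S.Po^[W] F))) = EH (S.EZ (S.Po^[W] F)) :=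
      EK_idem (inlP β (Out I d)) _
    have hn := nsq_EH_le (S.EZ (S.Po^[W] F)) hEZ
    have hg : SD (fun σ => min (S.Po^[W] F σ) (4 ^ w * EH (S.EZ (S.Po^[W] F)) σ)) := by
      refine ⟨fun σ => le_min (hG0 σ) (mul_nonneg (by positivity) (hh.1 σ)), ?_⟩
      refine (av_le_av fun σ => min_le_left _ _).trans ?_
      exact hGa.le.trans hFS.2
    have hc := core _ _ hg hh hhE (fun σ => min_le_right _ _) hn s hs
    have hrest : t16_B (S.P^[Rn * W] (S.P^[s] (fun σ => S.Po^[W] F σ -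
        min (S.Po^[W] F σ) (4 ^ w * EH (S.EZ (S.Po^[W] F)) σ)))) 0 (e1 * x + e2) := by
      refine t16_B_self (fun σ => t16_iter_nonneg S.gl _ (fun σ => t16_iter_nonneg S.gl _
        (fun σ => sub_nonneg.2 (min_le_left _ _)) σ) σ) ?_
      refine (le_of_eq ((t16_av_iter S.gl _ _).trans (t16_av_iter S.gl _ _))).trans ?_
      refine (av_le_av fun σ => ?_).trans h2
      rw [sub_le_iff_le_add]
      rcases min_cases (S.Po^[W] F σ) (4 ^ w * EH (S.EZ (S.Po^[W] F)) σ) with h6 | h6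
      · rw [h6.1]; linarith [h1 σ]
      · rw [h6.1]; linarith [h3 σ]
    have hsum : S.P^[Rn * W] (S.P^[s] (S.Po^[W] F)) = fun σ =>
        S.P^[Rn * W] (S.P^[s] (fun σ => S.Po^[W] F σ -
          min (S.Po^[W] F σ) (4 ^ w * EH (S.EZ (S.Po^[W] F)) σ))) σ +
        S.P^[Rn * W] (S.P^[s] (fun σ =>
          min (S.Po^[W] F σ) (4 ^ w * EH (S.EZ (S.Po^[W] F)) σ))) σ := by
      have h4 := t16_iter_add S.gl s (fun σ => S.Po^[W] F σ -
          min (S.Po^[W] F σ) (4 ^ w * EH (S.EZ (S.Po^[W] F)) σ))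
          (fun σ => min (S.Po^[W] F σ) (4 ^ w * EH (S.EZ (S.Po^[W] F)) σ))
      have h5 : (fun σ => S.Po^[W] F σ - min (S.Po^[W] F σ)
          (4 ^ w * EH (S.EZ (S.Po^[W] F)) σ) + min (S.Po^[W] F σ)
          (4 ^ w * EH (S.EZ (S.Po^[W] F)) σ)) = S.Po^[W] F := by
        ext σ; ring
      rw [h5] at h4
      have h6 := t16_iter_add S.gl (Rn * W) ((Mav S.gl)^[s] (fun σ => S.Po^[W] F σ -
          min (S.Po^[W] F σ) (4 ^ w * EH (S.EZ (S.Po^[W] F)) σ)))
          ((Mav S.gl)^[s] (fun σ => min (S.Po^[W] F σ) (4 ^ w * EH (S.EZ (S.Po^[W] F)) σ)))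
      rw [← h4] at h6
      exact h6
    rw [hsum]
    have h7 := t16_B_add hrest hc
    rwa [zero_add] at h7
  obtain ⟨E, c, h1, h2, h3, h4, h5⟩ := t16_dec S.toSys m hm W
    (S.P^[T0] (dl (Perm (Pos β I d)))) (hD T0).1
    (fun (F : Perm (Pos β I d) → ℝ) (a b : ℝ) => ∀ s ≥ τ, t16_B (S.P^[Rn * W] (S.P^[s] F)) a b)
    (fun s _ => ⟨fun _ => 0, fun _ => le_rfl, by rw [av_zero], fun σ => by
      rw [add_zero]
      exact t16_sup_iter S.gl _ (fun σ => t16_sup_iter S.gl _ (fun σ => le_rfl) σ) σ⟩)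
    (fun F G a b a' b' hF hG s hs => by
      have h6 := t16_B_add (hF s hs) (hG s hs)
      have h7 := t16_iter_add S.gl s F G
      have h8 := t16_iter_add S.gl (Rn * W) ((Mav S.gl)^[s] F) ((Mav S.gl)^[s] G)
      rw [← h7] at h8
      have h9 : S.P^[Rn * W] (S.P^[s] fun σ => F σ + G σ) = fun σ =>
        S.P^[Rn * W] (S.P^[s] F) σ + S.P^[Rn * W] (S.P^[s] G) σ := h8
      rw [h9]
      exact h6)
    (fun F a b hF s hs => by
      have h6 := hF (s + W) (by omega)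
      rwa [Function.iterate_add_apply] at h6)
    (Rn * (16 ^ w * Ck)) ((e1 * x + e2) + (r + Rn * (Pb + e1 * x' + e2))) Rn hA
  have h6 : av c ≤ r := by
    rw [h3]
    exact mul_le_of_le_one_right hr0 (hD T0).2
  have h7 := h4 τ le_rfl
  have h8 : t16_B (S.P^[Rn * W] (S.P^[τ] c)) 0 r :=
    t16_B_self (fun σ => t16_iter_nonneg S.gl _ (fun σ => t16_iter_nonneg S.gl _ h1 σ) σ)
      ((le_of_eq ((t16_av_iter S.gl _ _).trans (t16_av_iter S.gl _ _))).trans h6)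
  have h9 := t16_B_add h7 h8
  have h10 : ∀ σ, S.P^[T0 + Rn * W + τ + Rn * W] (dl (Perm (Pos β I d))) σ ≤
      S.P^[Rn * W] (S.P^[τ] E) σ + S.P^[Rn * W] (S.P^[τ] c) σ := by
    intro σ
    have e3 : T0 + Rn * W + τ + Rn * W = Rn * W + (τ + (Rn * W + T0)) := by ring
    rw [e3, Function.iterate_add_apply, Function.iterate_add_apply,
      Function.iterate_add_apply S.P (Rn * W) T0]
    have h11 := t16_iter_mono S.gl (Rn * W) (t16_iter_mono S.gl τ h5) σ
    have h12 := t16_iter_add S.gl τ E c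
    have h13 := t16_iter_add S.gl (Rn * W) ((Mav S.gl)^[τ] E) ((Mav S.gl)^[τ] c)
    rw [← h12] at h13
    rw [h13] at h11
    exact h11
  obtain ⟨ρ, g1, g2, g3⟩ := t16_B_mono h10 h9
  refine ⟨ρ, g1, g2.trans (le_of_eq (by ring)), fun σ => (g3 σ).trans (le_of_eq (by ring))⟩

end t16b

end Pool.Agent.H9.Low
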