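import Pool.Agent.H9.Low.T19
import Pool.Agent.H9.Low.DefN3

/-!
# Contraction of the walk without `c` on the functions of low level
-/

namespace Pool.Agent.H9.Low

open Equiv Finset

theorem UU_R {X : Type} [Fintype X] [DecidableEq X] (J : ℕ) (g : Perm X) (F : Perm X → ℝ)
    (hF : F ∈ UU X J) : R g F ∈ UU X J := t19_UU_R J g hF

/-! ### averages of right multiplications -/

section gen

/-- average of right multiplications -/
noncomputable def t17a_A {G ι : Type*} [Group G] [Fintype ι] (g : ι → G) :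
    (G → ℝ) →ₗ[ℝ] (G → ℝ) where
  toFun F := fun σ => av fun i => F (σ * g i)
  map_add' F F' := by ext σ; exact av_add _ _
  map_smul' c F := by ext σ; exact av_mul_left _ _

theorem t17a_A_adj {G ι : Type*} [Group G] [Fintype G] [Fintype ι] (g : ι → G) (F F' : G → ℝ) :
    ipr (t17a_A g F) F' = ipr F (t17a_A (fun i => (g i)⁻¹) F') := by
  have e1 : ipr (t17a_A g F) F' = av fun i => ipr (fun σ => F (σ * g i)) F' :=
    ipr_av_left (fun i σ => F (σ * g i)) F'
  have e2 : ipr F (t17a_A (fun i => (g i)⁻¹) F') = av fun i => ipr F (fun σ => F' (σ * (g i)⁻¹)) :=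
    ipr_av_right F (fun i σ => F' (σ * (g i)⁻¹))
  rw [e1, e2]
  congr 1; ext i
  unfold ipr
  rw [← av_mulRight (g i) (fun σ => F σ * F' (σ * (g i)⁻¹))]
  congr 1; ext σ
  rw [mul_inv_cancel_right]

theorem t17a_A_mem {G ι : Type*} [Group G] [Fintype ι] (g : ι → G)
    (U : Submodule ℝ (G → ℝ)) (hU : ∀ (g : G) (F : G → ℝ), F ∈ U → R g F ∈ U) {F : G → ℝ}
    (hF : F ∈ U) : t17a_A g F ∈ U := by
  have e : t17a_A g F = ∑ i, ((Fintype.card ι : ℝ)⁻¹) • R (g i)⁻¹ F := by
    ext σ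
    change (av fun i => F (σ * g i)) = _
    unfold av
    rw [div_eq_inv_mul, Finset.mul_sum, Finset.sum_apply]
    refine Finset.sum_congr rfl fun i _ => ?_
    simp only [Pi.smul_apply, smul_eq_mul, R, inv_inv]
  rw [e]
  exact Submodule.sum_mem _ fun i _ => Submodule.smul_mem _ _ (hU _ F hF)

variable {X : Type} [Fintype X] [DecidableEq X] {J : ℕ}

theorem t17a_av_tr (g : Perm X) (ψ : (Fin J ↪ X) → ℝ) :
    av (fun x : Fin J ↪ X => ψ (x.trans g.toEmbedding)) = av ψ :=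
  av_comp_equiv (Equiv.embeddingCongr (Equiv.refl (Fin J)) g) ψ

omit [Fintype X] [DecidableEq X] in
theorem t17a_trans (x : Fin J ↪ X) (a b : Perm X) :
    (x.trans a.toEmbedding).trans b.toEmbedding = x.trans (b * a).toEmbedding := by
  ext i; rfl

omit [Fintype X] [DecidableEq X] in
theorem t17a_trans_one (x : Fin J ↪ X) : x.trans (1 : Perm X).toEmbedding = x := by
  ext i; rfl

/-- twisted average on tuples -/
noncomputable def t17a_B {ι : Type*} [Fintype ι] (χ : Perm X →* ℝ) (g : ι → Perm X)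
    (φ : (Fin J ↪ X) → ℝ) : (Fin J ↪ X) → ℝ :=
  fun x => av fun i => χ (g i) * φ (x.trans (g i)⁻¹.toEmbedding)

/-- twist of a function -/
def t17a_tw (χ : Perm X →* ℝ) (F : Perm X → ℝ) : Perm X → ℝ := fun σ => χ σ * F σ

omit [Fintype X] [DecidableEq X] in
theorem t17a_chi_inv (χ : Perm X →* ℝ) (hχ : ∀ g, χ g * χ g = 1) (g : Perm X) :
    χ g⁻¹ = χ g := by
  have h1 : χ g * χ g⁻¹ = 1 := by rw [← map_mul, mul_inv_cancel, map_one]
  have h2 := hχ g
  have h3 : χ g ≠ 0 := fun h => by rw [h, zero_mul] at h2; exact zero_ne_one h2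
  exact mul_left_cancel₀ h3 (h1.trans h2.symm)

theorem t17a_mg_one (χ : Perm X →* ℝ) (hχ : ∀ g, χ g * χ g = 1) (g : Perm X)
    (F : Perm X → ℝ) (x z : Fin J ↪ X) :
    mg (t17a_tw χ fun σ => F (σ * g)) x z
      = χ g * mg (t17a_tw χ F) (x.trans g⁻¹.toEmbedding) z := by
  unfold mg t17a_tw
  rw [Finset.mul_sum, ← Equiv.sum_comp (Equiv.mulRight g⁻¹)
    (fun σ => if ∀ i, σ (x i) = z i then χ σ * F (σ * g) else 0)]
  refine Finset.sum_congr rfl fun σ _ => ?_
  simp only [Equiv.coe_mulRight, inv_mul_cancel_right, Perm.mul_apply,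
    Function.Embedding.trans_apply, Equiv.coe_toEmbedding, map_mul, t17a_chi_inv χ hχ]
  split_ifs <;> ring

theorem t17a_mg_A {ι : Type*} [Fintype ι] (χ : Perm X →* ℝ) (hχ : ∀ g, χ g * χ g = 1)
    (g : ι → Perm X) (F : Perm X → ℝ) (x z : Fin J ↪ X) :
    mg (t17a_tw χ (t17a_A g F)) x z = t17a_B χ g (fun x => mg (t17a_tw χ F) x z) x := by
  have e1 : mg (t17a_tw χ (t17a_A g F)) x z
      = av fun i => mg (t17a_tw χ fun σ => F (σ * g i)) x z := by
    unfold mg
    rw [av_sum]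
    refine Finset.sum_congr rfl fun σ _ => ?_
    by_cases h : ∀ i, σ (x i) = z i
    · simp only [if_pos h]
      exact (av_mul_left (χ σ) (fun i => F (σ * g i))).symm
    · simp only [if_neg h]
      exact av_zero.symm
  rw [e1]
  unfold t17a_B
  congr 1; ext i
  exact t17a_mg_one χ hχ (g i) F x z

theorem t17a_B_adj {ι : Type*} [Fintype ι] (χ : Perm X →* ℝ) (hχ : ∀ g, χ g * χ g = 1)
    (g : ι → Perm X) (φ ψ : (Fin J ↪ X) → ℝ) :
    ipr (t17a_B χ g φ) ψ = ipr φ (t17a_B χ (fun i => (g i)⁻¹) ψ) := by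
  have e1 : ipr (t17a_B χ g φ) ψ
      = av fun i => ipr (fun x => χ (g i) * φ (x.trans (g i)⁻¹.toEmbedding)) ψ :=
    ipr_av_left (fun i (x : Fin J ↪ X) => χ (g i) * φ (x.trans (g i)⁻¹.toEmbedding)) ψ
  have e2 : ipr φ (t17a_B χ (fun i => (g i)⁻¹) ψ)
      = av fun i => ipr φ (fun x => χ (g i)⁻¹ * ψ (x.trans (g i)⁻¹⁻¹.toEmbedding)) :=
    ipr_av_right φ (fun i (x : Fin J ↪ X) => χ (g i)⁻¹ * ψ (x.trans (g i)⁻¹⁻¹.toEmbedding))
  rw [e1, e2]
  congr 1; ext i
  unfold ipr
  rw [← t17a_av_tr (g i)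
    (fun x => χ (g i) * φ (x.trans (g i)⁻¹.toEmbedding) * ψ x)]
  congr 1; ext x
  rw [t17a_trans, inv_mul_cancel, t17a_trans_one, t17a_chi_inv χ hχ, inv_inv]
  ring

theorem t17a_B_sub {ι : Type*} [Fintype ι] (χ : Perm X →* ℝ) (g : ι → Perm X)
    (φ ψ : (Fin J ↪ X) → ℝ) :
    t17a_B χ g (fun x => φ x - ψ x) = fun x => t17a_B χ g φ x - t17a_B χ g ψ x := by
  ext x
  unfold t17a_B
  rw [← av_sub]
  congr 1; ext i; ring

/-- the trivial character -/
def t17a_one (X : Type) : Perm X →* ℝ := 1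

/-- the sign character -/
def t17a_sg (X : Type) [Fintype X] [DecidableEq X] : Perm X →* ℝ where
  toFun := sgr
  map_one' := by simp [sgr]
  map_mul' a b := by simp [sgr, Perm.sign_mul]

theorem t17a_sg_sq (g : Perm X) : t17a_sg X g * t17a_sg X g = 1 := by
  change sgr g * sgr g = 1
  unfold sgr
  exact_mod_cast Int.units_coe_mul_self (Perm.sign g)

end gen

/-! ### splitting the letters -/

theorem t17a_split {E I : Type} [Fintype E] [Fintype I] {w w2 : ℕ} (hw1 : 1 ≤ w)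
    (hw : 8 * w ≤ w2) (e : II w w2 ≃ I) (u : I → E → ℝ) (n0 : ℝ) (h0 : 0 ≤ n0)
    (h1 : ∀ i, nsq (u i) ≤ n0)
    (h2 : nsq (fun x => av fun k : Fin w2 => u (e (Sum.inr (Sum.inr k))) x) ≤ 1 / 16 * n0) :
    nsq (fun x => av fun i => u i x) ≤ 1 / 4 * n0 := by
  have hwr : (1 : ℝ) ≤ w := by exact_mod_cast hw1
  have hw2r : (8 : ℝ) * w ≤ w2 := by exact_mod_cast hw
  set m : ℝ := 2 * w + w2 with hm
  have hmpos : 0 < m := by rw [hm]; linarith
  have hcard : (Fintype.card I : ℝ) = m := by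
    rw [← Fintype.card_congr e, Fintype.card_sum, Fintype.card_sum, Fintype.card_fin,
      Fintype.card_fin]
    push_cast
    rw [hm]; ring
  let a : E → ℝ := fun x => av fun j : Fin w ⊕ Fin w =>
    u (e (Sum.elim Sum.inl (fun i => Sum.inr (Sum.inl i)) j)) x
  let b : E → ℝ := fun x => av fun k : Fin w2 => u (e (Sum.inr (Sum.inr k))) x
  have hne : Nonempty (Fin w ⊕ Fin w) := ⟨Sum.inl ⟨0, hw1⟩⟩
  have ha : nsq a ≤ n0 := sqrt_nsq_av_le (fun j : Fin w ⊕ Fin w =>
    u (e (Sum.elim Sum.inl (fun i => Sum.inr (Sum.inl i)) j))) fun j => h1 _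
  have hb : nsq b ≤ 1 / 16 * n0 := h2
  have hsplit : (fun x => av fun i => u i x) = fun x => (2 * w / m) * a x + (w2 / m) * b x := by
    ext x
    change (∑ i, u i x) / (Fintype.card I : ℝ) = _
    rw [hcard, ← Equiv.sum_comp e, Fintype.sum_sum_type, Fintype.sum_sum_type]
    have ea : a x = (∑ j : Fin w, u (e (Sum.inl j)) x + ∑ j : Fin w, u (e (Sum.inr (Sum.inl j))) x)
        / (2 * w) := by
      change (∑ j : Fin w ⊕ Fin w, _) / (Fintype.card (Fin w ⊕ Fin w) : ℝ) = _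
      rw [Fintype.sum_sum_type, Fintype.card_sum, Fintype.card_fin]
      simp only [Sum.elim_inl, Sum.elim_inr]
      push_cast
      ring
    have eb : b x = (∑ k : Fin w2, u (e (Sum.inr (Sum.inr k))) x) / w2 := by
      change (∑ k : Fin w2, _) / (Fintype.card (Fin w2) : ℝ) = _
      rw [Fintype.card_fin]
    rw [ea, eb]
    have hw0 : (w : ℝ) ≠ 0 := by positivity
    have hw20 : (w2 : ℝ) ≠ 0 := by
      have : (0 : ℝ) < w2 := by linarith
      exact this.ne'
    field_simp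
    ring
  rw [hsplit]
  have h3 := sqrt_nsq_add_le (fun x => (2 * w / m) * a x) (fun x => (w2 / m) * b x)
  rw [nsq_smul, nsq_smul, Real.sqrt_mul (sq_nonneg _), Real.sqrt_mul (sq_nonneg _),
    Real.sqrt_sq (by positivity), Real.sqrt_sq (by positivity)] at h3
  have h4 : √(nsq a) ≤ √n0 := Real.sqrt_le_sqrt ha
  have h5 : √(nsq b) ≤ 1 / 4 * √n0 := by
    calc √(nsq b) ≤ √(1 / 16 * n0) := Real.sqrt_le_sqrt hb
      _ = 1 / 4 * √n0 := by
          rw [Real.sqrt_mul (by norm_num)]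
          congr 1
          rw [show (1 : ℝ) / 16 = (1 / 4) ^ 2 by norm_num, Real.sqrt_sq (by norm_num)]
  have h6 : 2 * w / m ≤ 1 / 5 := by
    rw [div_le_iff₀ hmpos, hm]; linarith
  have h7 : w2 / m ≤ 1 := by
    rw [div_le_one hmpos, hm]; linarith
  have h8 : 0 ≤ √n0 := Real.sqrt_nonneg _
  have h9 : √(nsq fun x => (2 * w / m) * a x + (w2 / m) * b x) ≤ 1 / 2 * √n0 := by
    refine h3.trans ?_
    have e1 : 2 * w / m * √(nsq a) ≤ 1 / 5 * √n0 :=
      mul_le_mul h6 h4 (Real.sqrt_nonneg _) (by norm_num)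
    have e2 : w2 / m * √(nsq b) ≤ 1 * (1 / 4 * √n0) :=
      mul_le_mul h7 h5 (Real.sqrt_nonneg _) (by norm_num)
    linarith
  have h10 := mul_self_le_mul_self (Real.sqrt_nonneg _) h9
  rw [Real.mul_self_sqrt (nsq_nonneg _)] at h10
  calc _ ≤ _ := h10
    _ = 1 / 4 * (√n0 * √n0) := by ring
    _ = 1 / 4 * n0 := by rw [Real.mul_self_sqrt h0]

section low
variable {β I : Type} [Fintype β] [DecidableEq β] [Fintype I] [DecidableEq I] {w w2 d : ℕ}

omit [Fintype β] [DecidableEq β] [Fintype I] in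
theorem t17a_conj (S : Sys β I d) (i : I) (h : Perm β) :
    S.g i * inlP β (Out I d) h = inlP β (Out I d) (S.θ i * h * (S.θ i)⁻¹) * S.g i := by
  unfold Sys.g
  have hc : (zt (fun j => decide (j = i)) : Perm (Pos β I d)) * inlP β (Out I d) h
      = inlP β (Out I d) h * zt (fun j => decide (j = i)) := by
    ext x
    rcases x with x | ⟨j, b⟩ | j <;> rfl
  rw [mul_assoc, hc, ← mul_assoc, ← mul_assoc, ← map_mul, ← map_mul]
  congr 2
  rw [inv_mul_cancel_right]

/-- letters different from `c` commute with the average over the bulk -/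
theorem t17a_A_EH (S : Sys β I d) (F : Perm (Pos β I d) → ℝ) :
    t17a_A (fun i => (S.g i)⁻¹) (EH F) = EH (t17a_A (fun i => (S.g i)⁻¹) F) := by
  ext σ
  change (av fun i => av fun h : Perm β => F (σ * (S.g i)⁻¹ * inlP β (Out I d) h))
    = av fun h : Perm β => av fun i => F (σ * inlP β (Out I d) h * (S.g i)⁻¹)
  rw [av_comm (fun (h : Perm β) i => F (σ * inlP β (Out I d) h * (S.g i)⁻¹))]
  congr 1; ext i
  rw [← av_comp_equiv (MulAut.conj (S.θ i)).toEquiv
    (fun h => F (σ * (S.g i)⁻¹ * inlP β (Out I d) h))]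
  congr 1; ext h
  congr 1
  rw [mul_assoc, mul_assoc]
  congr 1
  rw [inv_mul_eq_iff_eq_mul, ← mul_assoc, eq_mul_inv_iff_mul_eq]
  simp only [MulEquiv.toEquiv_eq_coe, MulEquiv.coe_toEquiv, MulAut.conj_apply]
  exact (t17a_conj S i h).symm

/-- twisted version of the averages over the bulk on tuples commute with the letters -/
theorem t17a_B_comm (S : Sys β I d) {J : ℕ} (χ : Perm (Pos β I d) →* ℝ)
    (hχ : ∀ g, χ g * χ g = 1) (φ : (Fin J ↪ Pos β I d) → ℝ) :
    t17a_B χ (fun h : Perm β => inlP β (Out I d) h) (t17a_B χ (fun i => (S.g i)⁻¹) φ)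
      = t17a_B χ (fun i => (S.g i)⁻¹)
          (t17a_B χ (fun h : Perm β => inlP β (Out I d) h) φ) := by
  ext x
  have e1 : t17a_B χ (fun h : Perm β => inlP β (Out I d) h) (t17a_B χ (fun i => (S.g i)⁻¹) φ) x
      = av fun i => av fun h : Perm β => χ (inlP β (Out I d) h) * (χ (S.g i)⁻¹ *
        φ ((x.trans (inlP β (Out I d) h)⁻¹.toEmbedding).trans (S.g i)⁻¹⁻¹.toEmbedding)) := by
    rw [av_comm]
    unfold t17a_B
    congr 1; ext h
    rw [av_mul_left]
  have e2 : t17a_B χ (fun i => (S.g i)⁻¹) (t17a_B χ (fun h : Perm β => inlP β (Out I d) h) φ) x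
      = av fun i => av fun h : Perm β => χ (S.g i)⁻¹ * (χ (inlP β (Out I d) h) *
        φ ((x.trans (S.g i)⁻¹⁻¹.toEmbedding).trans (inlP β (Out I d) h)⁻¹.toEmbedding)) := by
    unfold t17a_B
    congr 1; ext i
    rw [av_mul_left]
  rw [e1, e2]
  congr 1; ext i
  rw [← av_comp_equiv (MulAut.conj (S.θ i)).toEquiv
    (fun h : Perm β => χ (S.g i)⁻¹ * (χ (inlP β (Out I d) h) *
        φ ((x.trans (S.g i)⁻¹⁻¹.toEmbedding).trans (inlP β (Out I d) h)⁻¹.toEmbedding)))]
  congr 1; ext h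
  simp only [MulEquiv.toEquiv_eq_coe, MulEquiv.coe_toEquiv, MulAut.conj_apply]
  have hc := t17a_conj S i h
  have h1 : χ (inlP β (Out I d) (S.θ i * h * (S.θ i)⁻¹)) = χ (inlP β (Out I d) h) := by
    have h2 := congrArg χ hc
    rw [map_mul, map_mul] at h2
    have h3 : χ (S.g i) ≠ 0 := fun h0 => by
      have := hχ (S.g i)
      rw [h0, zero_mul] at this
      exact zero_ne_one this
    have h4 : χ (S.g i) * χ (inlP β (Out I d) h)
        = χ (S.g i) * χ (inlP β (Out I d) (S.θ i * h * (S.θ i)⁻¹)) := by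
      rw [h2, mul_comm]
    exact (mul_left_cancel₀ h3 h4).symm
  have h5 : (S.g i)⁻¹⁻¹ * (inlP β (Out I d) h)⁻¹
      = (inlP β (Out I d) (S.θ i * h * (S.θ i)⁻¹))⁻¹ * (S.g i)⁻¹⁻¹ := by
    rw [inv_inv, eq_inv_mul_iff_mul_eq, ← mul_assoc, ← hc, mul_inv_cancel_right]
  rw [t17a_trans, t17a_trans, h1, h5]
  ring

theorem t17a_P_inv {J : ℕ} (χ : Perm (Pos β I d) →* ℝ) (hχ : ∀ g, χ g * χ g = 1)
    (φ : (Fin J ↪ Pos β I d) → ℝ) :
    t17a_B χ (fun h : Perm β => inlP β (Out I d) h)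
      (t17a_B χ (fun h : Perm β => inlP β (Out I d) h) φ)
      = t17a_B χ (fun h : Perm β => inlP β (Out I d) h) φ := by
  ext x
  have hinv : ∀ h : Perm β, χ (inlP β (Out I d) h) *
      t17a_B χ (fun h : Perm β => inlP β (Out I d) h) φ
        (x.trans (inlP β (Out I d) h)⁻¹.toEmbedding)
      = t17a_B χ (fun h : Perm β => inlP β (Out I d) h) φ x := by
    intro h
    unfold t17a_B
    rw [← av_mulLeft h (fun k : Perm β => χ (inlP β (Out I d) k) *
      φ (x.trans (inlP β (Out I d) k)⁻¹.toEmbedding)), ← av_mul_left]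
    congr 1; ext k
    rw [t17a_trans, map_mul (inlP β (Out I d)), map_mul χ, mul_inv_rev]
    ring
  change (av fun h : Perm β => χ (inlP β (Out I d) h) *
      t17a_B χ (fun h : Perm β => inlP β (Out I d) h) φ
        (x.trans (inlP β (Out I d) h)⁻¹.toEmbedding)) = _
  simp only [hinv]
  exact av_const _

theorem t17a_P_self {J : ℕ} (χ : Perm (Pos β I d) →* ℝ) (hχ : ∀ g, χ g * χ g = 1)
    (φ ψ : (Fin J ↪ Pos β I d) → ℝ) :
    ipr (t17a_B χ (fun h : Perm β => inlP β (Out I d) h) φ) ψ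
      = ipr φ (t17a_B χ (fun h : Perm β => inlP β (Out I d) h) ψ) := by
  rw [t17a_B_adj χ hχ]
  congr 1; ext x
  unfold t17a_B
  rw [← av_inv]
  congr 1

theorem t17a_P_le {J : ℕ} (χ : Perm (Pos β I d) →* ℝ) (hχ : ∀ g, χ g * χ g = 1)
    (φ : (Fin J ↪ Pos β I d) → ℝ) :
    nsq (fun x => φ x - t17a_B χ (fun h : Perm β => inlP β (Out I d) h) φ x) ≤ nsq φ := by
  rw [nsq_sub]
  have h1 : ipr φ (t17a_B χ (fun h : Perm β => inlP β (Out I d) h) φ)
      = nsq (t17a_B χ (fun h : Perm β => inlP β (Out I d) h) φ) := by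
    rw [nsq_eq_ipr, t17a_P_self χ hχ, t17a_P_inv χ hχ]
  have h2 := nsq_nonneg (t17a_B χ (fun h : Perm β => inlP β (Out I d) h) φ)
  rw [h1]
  linarith

/-- the operator `B^* B` -/
noncomputable def t17a_M (S : Sys β I d) :
    (Perm (Pos β I d) → ℝ) →ₗ[ℝ] (Perm (Pos β I d) → ℝ) :=
  t17a_A S.g ∘ₗ (LinearMap.id - t17a_A (fun h : Perm β => inlP β (Out I d) h)) ∘ₗ
    (LinearMap.id - t17a_A (fun h : Perm β => inlP β (Out I d) h)) ∘ₗ
    t17a_A (fun i => (S.g i)⁻¹)

theorem t17a_mg_sub {X : Type} [Fintype X] [DecidableEq X] {J : ℕ} (χ : Perm X →* ℝ)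
    (F G : Perm X → ℝ) (x z : Fin J ↪ X) :
    mg (t17a_tw χ (F - G)) x z = mg (t17a_tw χ F) x z - mg (t17a_tw χ G) x z := by
  have e : t17a_tw χ (F - G) = t17a_tw χ F + (-1 : ℝ) • t17a_tw χ G := by
    ext σ
    simp only [t17a_tw, Pi.sub_apply, Pi.add_apply, Pi.smul_apply, smul_eq_mul]
    ring
  rw [e, mg_add, mg_smul]
  ring

/-- the eigenvalue equation on marginals -/
theorem t17a_key (S : Sys β I d) {J : ℕ} (χ : Perm (Pos β I d) →* ℝ)
    (hχ : ∀ g, χ g * χ g = 1) (F : Perm (Pos β I d) → ℝ) (l : ℝ)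
    (hl : t17a_M S F = l • F) (z : Fin J ↪ Pos β I d) :
    let φ : (Fin J ↪ Pos β I d) → ℝ := fun x => mg (t17a_tw χ F) x z
    let φ' : (Fin J ↪ Pos β I d) → ℝ := fun x =>
      φ x - t17a_B χ (fun h : Perm β => inlP β (Out I d) h) φ x
    l * nsq φ = nsq (fun x : Fin J ↪ Pos β I d =>
      av fun i => χ (S.g i) * φ' (x.trans (S.g i).toEmbedding)) := by
  intro φ φ'
  let P : ((Fin J ↪ Pos β I d) → ℝ) → ((Fin J ↪ Pos β I d) → ℝ) :=
    t17a_B χ (fun h : Perm β => inlP β (Out I d) h)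
  let T : ((Fin J ↪ Pos β I d) → ℝ) → ((Fin J ↪ Pos β I d) → ℝ) :=
    t17a_B χ (fun i => (S.g i)⁻¹)
  let T' : ((Fin J ↪ Pos β I d) → ℝ) → ((Fin J ↪ Pos β I d) → ℝ) := t17a_B χ S.g
  let F1 := t17a_A (fun i => (S.g i)⁻¹) F
  let F2 := F1 - t17a_A (fun h : Perm β => inlP β (Out I d) h) F1
  let F3 := F2 - t17a_A (fun h : Perm β => inlP β (Out I d) h) F2
  have hM : t17a_M S F = t17a_A S.g F3 := rfl
  have m1 : (fun x => mg (t17a_tw χ F1) x z) = T φ := by
    ext x; exact t17a_mg_A χ hχ _ F x z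
  have m2 : (fun x => mg (t17a_tw χ F2) x z) = fun x => T φ x - P (T φ) x := by
    ext x
    have h1 := t17a_mg_A χ hχ (fun h : Perm β => inlP β (Out I d) h) F1 x z
    rw [m1] at h1
    rw [t17a_mg_sub, h1]
    have h2 := congrFun m1 x
    rw [h2]
  have m3 : (fun x => mg (t17a_tw χ F3) x z)
      = fun x => (T φ x - P (T φ) x) - P (fun x => T φ x - P (T φ) x) x := by
    ext x
    have h1 := t17a_mg_A χ hχ (fun h : Perm β => inlP β (Out I d) h) F2 x z
    rw [m2] at h1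
    rw [t17a_mg_sub, h1]
    have h2 := congrFun m2 x
    rw [h2]
  have m4 : (fun x => l * φ x)
      = T' (fun x => (T φ x - P (T φ) x) - P (fun x => T φ x - P (T φ) x) x) := by
    ext x
    have h1 := t17a_mg_A χ hχ S.g F3 x z
    rw [m3, ← hM, hl] at h1
    refine Eq.trans ?_ h1
    have h2 : t17a_tw χ (l • F) = l • t17a_tw χ F := by
      ext σ
      simp only [t17a_tw, Pi.smul_apply, smul_eq_mul]
      ring
    rw [h2, mg_smul]
  have h5 : l * nsq φ = ipr φ (fun x => l * φ x) := by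
    rw [ipr_smul_right, nsq_eq_ipr]
  have hTT : ∀ a b : (Fin J ↪ Pos β I d) → ℝ, ipr a (T' b) = ipr (T a) b := by
    intro a b
    rw [ipr_comm a, ipr_comm (T a)]
    exact t17a_B_adj χ hχ S.g b a
  have h6 : nsq (fun x => T φ x - P (T φ) x) = l * nsq φ := by
    have hself : ∀ a b : (Fin J ↪ Pos β I d) → ℝ,
        ipr (fun x => a x - P a x) b = ipr a (fun x => b x - P b x) := by
      intro a b
      rw [ipr_sub_left, ipr_sub_right]
      congr 1
      exact t17a_P_self χ hχ a b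
    rw [h5, m4, hTT, nsq_eq_ipr]
    exact hself (T φ) (fun x => T φ x - P (T φ) x)
  rw [← h6]
  congr 1
  ext x
  have h7 : P (T φ) = T (P φ) := t17a_B_comm S χ hχ φ
  rw [h7]
  have h8 := congrFun (t17a_B_sub χ (fun i => (S.g i)⁻¹) φ (P φ)) x
  change T φ x - T (P φ) x = _
  rw [← h8]
  unfold t17a_B
  congr 1; ext i
  rw [t17a_chi_inv χ hχ, inv_inv]

omit [DecidableEq I] in
theorem t17a_sgr_inlP (h : Perm β) [DecidableEq I] :
    sgr (inlP β (Out I d) h) = sgr h := by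
  unfold sgr
  have h1 : inlP β (Out I d) h = Perm.sumCongr h 1 := rfl
  rw [h1, Perm.sign_sumCongr, map_one, mul_one]

/-- the signed average over the bulk vanishes on short tuples -/
theorem t17a_P_sg {J : ℕ} (hJ : J + 2 ≤ Fintype.card β) (φ : (Fin J ↪ Pos β I d) → ℝ) :
    t17a_B (t17a_sg (Pos β I d)) (fun h : Perm β => inlP β (Out I d) h) φ = fun _ => 0 := by
  ext x
  -- two free positions of the bulk
  let s : Finset β := univ.filter fun a => ∃ i, x i = Sum.inl a
  have hs : s.card ≤ J := by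
    have h1 : s.map ⟨Sum.inl, Sum.inl_injective⟩ ⊆ (univ : Finset (Fin J)).map x := by
      intro y hy
      rw [Finset.mem_map] at hy ⊢
      obtain ⟨a, ha, rfl⟩ := hy
      obtain ⟨i, hi⟩ := (Finset.mem_filter.1 ha).2
      exact ⟨i, Finset.mem_univ _, hi⟩
    have h2 := Finset.card_le_card h1
    rw [Finset.card_map, Finset.card_map, Finset.card_univ, Fintype.card_fin] at h2
    exact h2
  have hsc : 1 < sᶜ.card := by
    rw [Finset.card_compl]; omega
  obtain ⟨a, ha, b, hb, hab⟩ := Finset.one_lt_card.1 hsc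
  have hfree : ∀ c ∈ sᶜ, ∀ i, x i ≠ Sum.inl c := by
    intro c hc i hi
    exact (Finset.mem_compl.1 hc) (Finset.mem_filter.2 ⟨Finset.mem_univ _, i, hi⟩)
  have hfix : ∀ i, (inlP β (Out I d) (swap a b)) (x i) = x i := by
    intro i
    rcases hx : x i with c | c
    · rw [inlP_inl, swap_apply_of_ne_of_ne]
      · rintro rfl; exact hfree _ ha i hx
      · rintro rfl; exact hfree _ hb i hx
    · rfl
  change (av fun h : Perm β => t17a_sg (Pos β I d) (inlP β (Out I d) h)
    * φ (x.trans (inlP β (Out I d) h)⁻¹.toEmbedding)) = 0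
  have h1 := av_mulLeft (swap a b) (fun h : Perm β => t17a_sg (Pos β I d) (inlP β (Out I d) h)
    * φ (x.trans (inlP β (Out I d) h)⁻¹.toEmbedding))
  have h2 : (fun h : Perm β => t17a_sg (Pos β I d) (inlP β (Out I d) (swap a b * h))
      * φ (x.trans (inlP β (Out I d) (swap a b * h))⁻¹.toEmbedding))
      = fun h : Perm β => (-1) * (t17a_sg (Pos β I d) (inlP β (Out I d) h)
        * φ (x.trans (inlP β (Out I d) h)⁻¹.toEmbedding)) := by
    ext h
    have e1 : t17a_sg (Pos β I d) (inlP β (Out I d) (swap a b)) = -1 := by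
      change sgr (inlP β (Out I d) (swap a b)) = -1
      rw [t17a_sgr_inlP]
      unfold sgr
      rw [Perm.sign_swap hab]
      simp
    have e2 : x.trans (inlP β (Out I d) (swap a b * h))⁻¹.toEmbedding
        = x.trans (inlP β (Out I d) h)⁻¹.toEmbedding := by
      rw [map_mul, mul_inv_rev, ← t17a_trans]
      congr 1
      ext i
      change (inlP β (Out I d) (swap a b))⁻¹ (x i) = x i
      rw [Perm.inv_eq_iff_eq]
      exact (hfix i).symm
    rw [e2, map_mul (inlP β (Out I d)), map_mul (t17a_sg (Pos β I d)), e1]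
    ring
  rw [h2, av_mul_left] at h1
  linarith

theorem t17a_sgr_g (S : Sys β I d) (i : I) : sgr (S.g i) = - sgr (S.θ i) := by
  have h1 : (zt (fun j => decide (j = i)) : Perm (Pos β I d))
      = swap (Sum.inr (Sum.inl (i, false))) (Sum.inr (Sum.inl (i, true))) := by
    ext x
    rcases x with x | ⟨j, b⟩ | j
    · rw [swap_apply_of_ne_of_ne (by simp) (by simp)]; rfl
    · by_cases hj : j = i
      · subst hj
        cases b
        · rw [swap_apply_left, zt_pr]; simp
        · rw [swap_apply_right, zt_pr]; simp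
      · rw [swap_apply_of_ne_of_ne (by simp [hj]) (by simp [hj]), zt_pr]
        simp [hj]
    · rw [swap_apply_of_ne_of_ne (by simp) (by simp)]; rfl
  have h2 : sgr (S.g i) = sgr (inlP β (Out I d) (S.θ i))
      * sgr (zt (fun j => decide (j = i)) : Perm (Pos β I d)) :=
    map_mul (t17a_sg (Pos β I d)) _ _
  rw [h2, t17a_sgr_inlP, h1]
  unfold sgr
  rw [Perm.sign_swap (by simp)]
  push_cast
  ring

/-- eigenvalues of `B^* B` on `UU` -/
theorem t17a_eig (S : HSys β I w w2 d) (J : ℕ) (hN : N3 S J) (hw : 8 * w ≤ w2) (hw1 : 1 ≤ w)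
    (hJ : J + 2 ≤ Fintype.card β) (F : Perm (Pos β I d) → ℝ) (hF : F ∈ UU (Pos β I d) J)
    (hF0 : F ≠ 0) (l : ℝ) (hl : t17a_M S.toSys F = l • F) : l ≤ 1 / 4 := by
  have hnot : ¬ F ∈ HH (Pos β I d) J := by
    intro hH
    have h1 := hF F hH
    have h2 : ∀ σ, F σ = 0 := by
      intro σ
      have h3 := (Finset.sum_eq_zero_iff_of_nonneg (fun σ _ => mul_self_nonneg (F σ))).1 h1 σ
        (Finset.mem_univ _)
      exact mul_self_eq_zero.1 h3
    exact hF0 (funext h2)
  -- a common conclusion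
  have hconc : ∀ (χ : Perm (Pos β I d) →* ℝ) (hχ : ∀ g, χ g * χ g = 1)
      (x z : Fin J ↪ Pos β I d) (hne : mg (t17a_tw χ F) x z ≠ 0)
      (hB2 : ∀ φ : (Fin J ↪ Pos β I d) → ℝ, nsq (fun x : Fin J ↪ Pos β I d =>
        av fun k : Fin w2 => χ (S.g (S.e (Sum.inr (Sum.inr k)))) *
          (φ (x.trans (S.g (S.e (Sum.inr (Sum.inr k)))).toEmbedding)
          - t17a_B χ (fun h : Perm β => inlP β (Out I d) h) φ
            (x.trans (S.g (S.e (Sum.inr (Sum.inr k)))).toEmbedding))) ≤ 1 / 16 * nsq φ),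
      l ≤ 1 / 4 := by
    intro χ hχ x z hne hB2
    have hk := t17a_key S.toSys χ hχ F l hl z
    simp only at hk
    set φ : (Fin J ↪ Pos β I d) → ℝ := fun x => mg (t17a_tw χ F) x z with hφ
    have hpos : 0 < nsq φ := by
      rcases (nsq_nonneg φ).lt_or_eq with h | h
      · exact h
      · exact absurd (congrFun (nsq_eq_zero h.symm) x) hne
    have hs := t17a_split hw1 hw S.e (fun i (x : Fin J ↪ Pos β I d) => χ (S.g i) *
      (φ (x.trans (S.g i).toEmbedding) - t17a_B χ (fun h : Perm β => inlP β (Out I d) h) φ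
        (x.trans (S.g i).toEmbedding))) (nsq φ) (nsq_nonneg _) (fun i => by
          rw [nsq_smul]
          have e1 : χ (S.g i) ^ 2 = 1 := by rw [pow_two]; exact hχ _
          rw [e1, one_mul]
          refine le_trans (le_of_eq ?_) (t17a_P_le χ hχ φ)
          exact t17a_av_tr (S.g i) (fun x =>
            (φ x - t17a_B χ (fun h : Perm β => inlP β (Out I d) h) φ x) ^ 2)) (hB2 φ)
    have h3 : l * nsq φ ≤ 1 / 4 * nsq φ := by
      rw [hk]; exact hs
    exact le_of_mul_le_mul_right h3 hpos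
  by_cases h1 : F ∈ HighS (Pos β I d) J
  · -- signed marginals
    have h2 : ¬ sgt F ∈ HighS (Pos β I d) J := fun h => hnot ⟨h1, h⟩
    have h3 : ∃ x z : Fin J ↪ Pos β I d, mg (sgt F) x z ≠ 0 := by
      by_contra hcon
      push_neg at hcon
      exact h2 hcon
    obtain ⟨x, z, hxz⟩ := h3
    refine hconc (t17a_sg _) t17a_sg_sq x z hxz fun φ => ?_
    rw [t17a_P_sg hJ φ]
    have h4 := (hN φ).2
    refine le_trans (le_of_eq ?_) h4
    have h5 : (fun x : Fin J ↪ Pos β I d =>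
        av fun k : Fin w2 => t17a_sg (Pos β I d) (S.g (S.e (Sum.inr (Sum.inr k)))) *
          (φ (x.trans (S.g (S.e (Sum.inr (Sum.inr k)))).toEmbedding) - 0))
        = fun x : Fin J ↪ Pos β I d => (-1) * av fun k : Fin w2 =>
          sgr (S.θ (S.e (Sum.inr (Sum.inr k)))) * φ (x.trans (S.B2 k).toEmbedding) := by
      ext x
      rw [← av_mul_left]
      congr 1; ext k
      have h6 : t17a_sg (Pos β I d) (S.g (S.e (Sum.inr (Sum.inr k))))
          = - sgr (S.θ (S.e (Sum.inr (Sum.inr k)))) := t17a_sgr_g S.toSys _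
      rw [h6, sub_zero]
      unfold HSys.B2
      ring
    rw [h5, nsq_smul]
    ring
  · have h3 : ∃ x z : Fin J ↪ Pos β I d, mg F x z ≠ 0 := by
      by_contra hcon
      push_neg at hcon
      exact h1 hcon
    obtain ⟨x, z, hxz⟩ := h3
    have htw : t17a_tw (t17a_one (Pos β I d)) F = F := by
      ext σ
      change (1 : ℝ) * F σ = F σ
      exact one_mul _
    refine hconc (t17a_one _) (fun g => by change (1 : ℝ) * 1 = 1; norm_num) x z
      (by rw [htw]; exact hxz) fun φ => ?_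
    have h4 := (hN φ).1
    refine le_trans (le_of_eq ?_) h4
    congr 1
    ext x
    congr 1; ext k
    have h5 : t17a_B (t17a_one (Pos β I d)) (fun h : Perm β => inlP β (Out I d) h) φ
        = EHt φ := by
      ext x
      unfold t17a_B EHt
      rw [← av_inv]
      congr 1; ext h
      change (1 : ℝ) * _ = _
      rw [one_mul]
      rfl
    rw [h5]
    change (1 : ℝ) * _ = _
    rw [one_mul]
    rfl

theorem low_alpha (S : HSys β I w w2 d) (J : ℕ) (hN : N3 S J) (hw : 8 * w ≤ w2) (hw1 : 1 ≤ w)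
    (hJ : J + 2 ≤ Fintype.card β) (t : ℕ) (F : Perm (Pos β I d) → ℝ)
    (hF : F ∈ UU (Pos β I d) J) :
    nsq (fun σ => S.Po^[t] F σ - EH (S.Po^[t] F) σ) ≤ (1 / 4) ^ t * nsq F := by
  -- one step
  let A := t17a_A (fun i => (S.g i)⁻¹)
  have hPo : ∀ F, S.Po F = A F := fun F => rfl
  have hUR : ∀ (g : Perm (Pos β I d)) (F : Perm (Pos β I d) → ℝ), F ∈ UU (Pos β I d) J →
      R g F ∈ UU (Pos β I d) J := fun g F hF => UU_R J g F hF
  have hstep : ∀ F ∈ UU (Pos β I d) J,
      nsq (fun σ => A F σ - EH (A F) σ) ≤ 1 / 4 * nsq F := by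
    intro F hF
    have hself : ∀ a b : Perm (Pos β I d) → ℝ,
        ipr (fun σ => a σ - EH a σ) b = ipr a (fun σ => b σ - EH b σ) := by
      intro a b
      rw [ipr_sub_left, ipr_sub_right]
      congr 1
      exact ipr_EK_left _ a b
    have hMipr : ∀ F F' : Perm (Pos β I d) → ℝ, ipr F (t17a_M S.toSys F')
        = ipr (fun σ => A F σ - EH (A F) σ) (fun σ => A F' σ - EH (A F') σ) := by
      intro F F'
      have e1 : t17a_M S.toSys F' = t17a_A S.g (fun σ =>
          (fun σ => A F' σ - EH (A F') σ) σ - EH (fun σ => A F' σ - EH (A F') σ) σ) := rfl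
      rw [e1, ipr_comm, t17a_A_adj, ipr_comm]
      exact (hself (A F) (fun σ => A F' σ - EH (A F') σ)).symm
    have hsym : ∀ F F' : Perm (Pos β I d) → ℝ,
        ∑ y, t17a_M S.toSys F y * F' y = ∑ y, F y * t17a_M S.toSys F' y := by
      intro F F'
      rw [t19_sum_ipr, t19_sum_ipr, ipr_comm (t17a_M S.toSys F) F', hMipr, hMipr, ipr_comm]
    have hinv : ∀ F ∈ UU (Pos β I d) J, t17a_M S.toSys F ∈ UU (Pos β I d) J := by
      intro F hF
      have h1 := t17a_A_mem (fun i => (S.g i)⁻¹) (UU (Pos β I d) J) hUR hF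
      have h2 : ∀ G ∈ UU (Pos β I d) J,
          G - t17a_A (fun h : Perm β => inlP β (Out I d) h) G ∈ UU (Pos β I d) J := fun G hG =>
        Submodule.sub_mem _ hG (t17a_A_mem _ _ hUR hG)
      exact t17a_A_mem _ _ hUR (h2 _ (h2 _ h1))
    have htev := tev (t17a_M S.toSys) hsym (UU (Pos β I d) J) hinv (1 / 4)
      (fun F hF hF0 l hl => t17a_eig S J hN hw hw1 hJ F hF hF0 l hl) F hF
    have hc : (0 : ℝ) < Fintype.card (Perm (Pos β I d)) := by exact_mod_cast Fintype.card_pos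
    have h2 : ∑ y, F y ^ 2 = Fintype.card (Perm (Pos β I d)) * nsq F := by
      rw [nsq_eq_ipr, ← t19_sum_ipr]
      exact Finset.sum_congr rfl fun y _ => pow_two _
    rw [t19_sum_ipr, hMipr, h2, ← nsq_eq_ipr] at htev
    have h3 : (Fintype.card (Perm (Pos β I d)) : ℝ) * nsq (fun σ => A F σ - EH (A F) σ)
        ≤ Fintype.card (Perm (Pos β I d)) * (1 / 4 * nsq F) := by
      calc _ ≤ _ := htev
        _ = _ := by ring
    exact le_of_mul_le_mul_left h3 hc
  have hmem : ∀ t, S.Po^[t] F ∈ UU (Pos β I d) J := by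
    intro t
    induction t with
    | zero => exact hF
    | succ t ih =>
      rw [Function.iterate_succ_apply', hPo]
      exact t17a_A_mem _ _ hUR ih
  induction t with
  | zero =>
    simp only [Function.iterate_zero, id, pow_zero, one_mul]
    exact nsq_sub_EK_le _ F
  | succ t ih =>
    set G := S.Po^[t] F with hG
    have hGm : G ∈ UU (Pos β I d) J := hmem t
    have hG' : (fun σ => G σ - EH G σ) ∈ UU (Pos β I d) J :=
      Submodule.sub_mem _ hGm (t17a_A_mem (fun h : Perm β => inlP β (Out I d) h) _ hUR hGm)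
    have h1 := hstep _ hG'
    have h2 : (fun σ => A (fun σ => G σ - EH G σ) σ - EH (A fun σ => G σ - EH G σ) σ)
        = fun σ => A G σ - EH (A G) σ := by
      have e1 : (fun σ => G σ - EH G σ) = G - EH G := rfl
      have e2 : A (G - EH G) = A G - EH (A G) := by
        rw [map_sub]
        congr 1
        exact t17a_A_EH S.toSys G
      rw [e1, e2]
      ext σ
      have e3 : EH (A G - EH (A G)) = fun σ => EH (A G) σ - EH (EH (A G)) σ :=
        EK_sub _ (A G) (EH (A G))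
      have e4 : EH (EH (A G)) = EH (A G) := EK_idem _ _
      rw [e3, e4, Pi.sub_apply]
      ring
    rw [Function.iterate_succ_apply', hPo, ← hG, ← h2]
    refine h1.trans ?_
    rw [pow_succ]
    calc 1 / 4 * nsq (fun σ => G σ - EH G σ) ≤ 1 / 4 * ((1 / 4) ^ t * nsq F) :=
          mul_le_mul_of_nonneg_left ih (by norm_num)
      _ = _ := by ring

end low

end Pool.Agent.H9.Low
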