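import Pool.Agent.H9.Low.Basic
import Pool.Agent.H9.Low.DefN3
import Pool.Agent.H9.Low.T15

/-!
# The mixing of one bulk position by words without the letter `c`
-/

namespace Pool.Agent.H9.Low

open Equiv Finset

/-! ### Averages over permutations and over tuples -/

theorem t17b_av_perm {X : Type*} [Fintype X] [DecidableEq X] (ψ : X → ℝ) (y : X) :
    av (fun g : Perm X => ψ (g y)) = av ψ := by
  have h1 : ∀ z : X, av (fun g : Perm X => ψ (g z)) = av (fun g : Perm X => ψ (g y)) := by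
    intro z
    have := av_mulRight (swap y z) (fun g : Perm X => ψ (g z))
    rw [← this]
    simp
  have _ : Nonempty X := ⟨y⟩
  have h2 : av (fun z : X => av fun g : Perm X => ψ (g z)) = av (fun g : Perm X => ψ (g y)) := by
    rw [show (fun z : X => av fun g : Perm X => ψ (g z))
      = fun _ : X => av (fun g : Perm X => ψ (g y)) from funext h1]
    exact av_const _
  rw [← h2, av_comm]
  have h3 : (fun g : Perm X => av fun z : X => ψ (g z)) = fun _ => av ψ := by
    funext g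
    exact av_comp_equiv g ψ
  rw [h3]
  exact av_const _

theorem t17b_av_emb {X : Type*} [Fintype X] [DecidableEq X] {J : ℕ} (hJ : J ≤ Fintype.card X)
    (i0 : Fin J) (ψ : X → ℝ) : av (fun x : Fin J ↪ X => ψ (x i0)) = av ψ := by
  have _ : Nonempty (Fin J ↪ X) := by
    rw [Function.Embedding.nonempty_iff_card_le]
    simpa using hJ
  have h1 : ∀ g : Perm X, av (fun x : Fin J ↪ X => ψ (g (x i0)))
      = av (fun x : Fin J ↪ X => ψ (x i0)) := by
    intro g
    exact av_comp_equiv (Equiv.embeddingCongr (Equiv.refl (Fin J)) g)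
      (fun x : Fin J ↪ X => ψ (x i0))
  have h2 : av (fun g : Perm X => av fun x : Fin J ↪ X => ψ (g (x i0)))
      = av (fun x : Fin J ↪ X => ψ (x i0)) := by
    rw [show (fun g : Perm X => av fun x : Fin J ↪ X => ψ (g (x i0)))
      = fun _ => av (fun x : Fin J ↪ X => ψ (x i0)) from funext h1]
    exact av_const _
  rw [← h2, av_comm]
  have h3 : (fun x : Fin J ↪ X => av fun g : Perm X => ψ (g (x i0))) = fun _ => av ψ := by
    funext x
    exact t17b_av_perm ψ (x i0)
  rw [h3]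
  exact av_const _

section m8
variable {β I : Type} [Fintype β] [DecidableEq β] [Fintype I] [DecidableEq I] {w w2 d : ℕ}

/-- one step on the bulk -/
noncomputable def t17b_T (S : Sys β I d) (f : β → ℝ) : β → ℝ :=
  fun x => av fun i : I => f (S.θ i x)

theorem t17b_fw (S : Sys β I d) (t : ℕ) (n : Pos β I d → ℝ) (x : β) :
    (fw S.g)^[t] n (Sum.inl x) = (t17b_T S)^[t] (fun y => n (Sum.inl y)) x := by
  induction t generalizing n x with
  | zero => rfl
  | succ t ih =>
    rw [Function.iterate_succ_apply, Function.iterate_succ_apply, ih]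
    rfl

theorem t17b_sum (S : Sys β I d) (hI : Nonempty I) (f : β → ℝ) :
    ∑ x, t17b_T S f x = ∑ x, f x := by
  unfold t17b_T av
  rw [← Finset.sum_div, Finset.sum_comm]
  have : ∀ i : I, ∑ x, f (S.θ i x) = ∑ x, f x := fun i => Equiv.sum_comp (S.θ i) f
  simp only [this, Finset.sum_const, Finset.card_univ, nsmul_eq_mul]
  have hc : (Fintype.card I : ℝ) ≠ 0 := by exact_mod_cast Fintype.card_ne_zero
  field_simp

theorem t17b_sumsq {m : ℕ} (θ : Fin m → Perm β) (f : β → ℝ) :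
    ∑ x, (∑ j, f (θ j x)) ^ 2 ≤ (m : ℝ) ^ 2 * ∑ x, f x ^ 2 := by
  have h1 : ∀ x, (∑ j, f (θ j x)) ^ 2 ≤ (m : ℝ) * ∑ j, f (θ j x) ^ 2 := by
    intro x
    have := sq_sum_le_card_mul_sum_sq (s := (Finset.univ : Finset (Fin m)))
      (f := fun j => f (θ j x))
    simpa using this
  calc ∑ x, (∑ j, f (θ j x)) ^ 2 ≤ ∑ x, (m : ℝ) * ∑ j, f (θ j x) ^ 2 :=
        Finset.sum_le_sum fun x _ => h1 x
    _ = (m : ℝ) * ∑ j : Fin m, ∑ x, f (θ j x) ^ 2 := by
        rw [← Finset.mul_sum, Finset.sum_comm]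
    _ = (m : ℝ) * ∑ _j : Fin m, ∑ x, f x ^ 2 := by
        congr 1
        exact Finset.sum_congr rfl fun j _ => Equiv.sum_comp (θ j) (fun x => f x ^ 2)
    _ = (m : ℝ) ^ 2 * ∑ x, f x ^ 2 := by
        rw [Finset.sum_const, Finset.card_univ, Fintype.card_fin, nsmul_eq_mul]
        ring

theorem t17b_B2 (S : HSys β I w w2 d) (J : ℕ) (hJ1 : 1 ≤ J) (hN : N3 S J)
    (hJ : J ≤ Fintype.card β) (f : β → ℝ) (hf : ∑ x, f x = 0) :
    ∑ x, (av fun k : Fin w2 => f (S.θ (S.e (Sum.inr (Sum.inr k))) x)) ^ 2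
      ≤ 1 / 16 * ∑ x, f x ^ 2 := by
  set f' : Pos β I d → ℝ := Sum.elim f (fun _ => 0) with hf'
  have hcard : J ≤ Fintype.card (Pos β I d) := by
    refine hJ.trans ?_
    rw [Fintype.card_sum]
    omega
  set i0 : Fin J := ⟨0, hJ1⟩ with hi0
  have h := (hN (fun x => f' (x i0))).1
  have hE : ∀ y : Fin J ↪ Pos β I d, EHt (fun x => f' (x i0)) y = 0 := by
    intro y
    unfold EHt
    rcases hy : y i0 with b | c
    · have h1 : (fun h : Perm β =>
          f' ((y.trans (inlP β (Out I d) h).toEmbedding) i0)) = fun h : Perm β => f (h b) := by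
        funext h
        simp only [Function.Embedding.trans_apply, hy, Equiv.coe_toEmbedding, inlP_inl, hf',
          Sum.elim_inl]
      rw [h1, t17b_av_perm f b]
      unfold av
      rw [hf, zero_div]
    · have h1 : (fun h : Perm β =>
          f' ((y.trans (inlP β (Out I d) h).toEmbedding) i0)) = fun _ => 0 := by
        funext h
        simp only [Function.Embedding.trans_apply, hy, Equiv.coe_toEmbedding, inlP_inr, hf',
          Sum.elim_inr]
      rw [h1]
      exact av_zero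
  simp only [hE, sub_zero] at h
  have e1 : nsq (fun x : Fin J ↪ Pos β I d => av fun k : Fin w2 =>
      f' ((x.trans (S.B2 k).toEmbedding) i0))
      = av (fun a : Pos β I d => (av fun k : Fin w2 => f' (S.B2 k a)) ^ 2) :=
    t17b_av_emb hcard i0 (fun a => (av fun k : Fin w2 => f' (S.B2 k a)) ^ 2)
  have e2 : nsq (fun x : Fin J ↪ Pos β I d => f' (x i0)) = av (fun a : Pos β I d => f' a ^ 2) :=
    t17b_av_emb hcard i0 (fun a => f' a ^ 2)
  rw [e1, e2] at h
  have e3 : ∀ (k : Fin w2) (c : Out I d), f' (S.B2 k (Sum.inr c)) = 0 := by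
    intro k c
    have : S.B2 k (Sum.inr c) = Sum.inr ((Equiv.sumCongr (pz (fun j => decide
        (j = S.e (Sum.inr (Sum.inr k))))) (Equiv.refl (Fin (d + 1)))) c) := rfl
    rw [this]
    rfl
  have e4 : ∀ (k : Fin w2) (b : β), f' (S.B2 k (Sum.inl b))
      = f (S.θ (S.e (Sum.inr (Sum.inr k))) b) := fun k b => rfl
  have s1 : ∑ a : Pos β I d, (av fun k : Fin w2 => f' (S.B2 k a)) ^ 2
      = ∑ x, (av fun k : Fin w2 => f (S.θ (S.e (Sum.inr (Sum.inr k))) x)) ^ 2 := by
    rw [Fintype.sum_sum_type]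
    have z : ∀ c : Out I d, (av fun k : Fin w2 => f' (S.B2 k (Sum.inr c))) ^ 2 = 0 := by
      intro c
      simp only [e3]
      rw [av_zero]
      norm_num
    rw [Finset.sum_congr rfl (fun c _ => z c), Finset.sum_const_zero, add_zero]
    simp only [e4]
  have s2 : ∑ a : Pos β I d, f' a ^ 2 = ∑ x, f x ^ 2 := by
    rw [Fintype.sum_sum_type]
    have z : ∀ c : Out I d, f' (Sum.inr c) ^ 2 = 0 := by
      intro c
      show (0 : ℝ) ^ 2 = 0
      norm_num
    rw [Finset.sum_congr rfl (fun c _ => z c), Finset.sum_const_zero, add_zero]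
    rfl
  rw [show av (fun a : Pos β I d => (av fun k : Fin w2 => f' (S.B2 k a)) ^ 2)
      = (∑ a : Pos β I d, (av fun k : Fin w2 => f' (S.B2 k a)) ^ 2)
        / (Fintype.card (Pos β I d) : ℝ) from rfl,
    show av (fun a : Pos β I d => f' a ^ 2)
      = (∑ a : Pos β I d, f' a ^ 2) / (Fintype.card (Pos β I d) : ℝ) from rfl, s1, s2] at h
  have hpos : (0 : ℝ) < Fintype.card (Pos β I d) := by
    have : 0 < Fintype.card (Pos β I d) := by omega
    exact_mod_cast this
  rw [mul_div_assoc', div_le_div_iff_of_pos_right hpos] at h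
  exact h

theorem t17b_contr (S : HSys β I w w2 d) (J : ℕ) (hJ1 : 1 ≤ J) (hN : N3 S J) (hw : 8 * w ≤ w2)
    (hw1 : 1 ≤ w) (hJ : J ≤ Fintype.card β) (f : β → ℝ) (hf : ∑ x, f x = 0) :
    ∑ x, t17b_T S.toSys f x ^ 2 ≤ 1 / 4 * ∑ x, f x ^ 2 := by
  set A : β → ℝ := fun x => ∑ j : Fin w, f (S.θ (S.e (Sum.inl j)) x) with hA
  set B : β → ℝ := fun x => ∑ j : Fin w, f (S.θ (S.e (Sum.inr (Sum.inl j))) x) with hB
  set C : β → ℝ := fun x => ∑ j : Fin w2, f (S.θ (S.e (Sum.inr (Sum.inr j))) x) with hC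
  have hcard : Fintype.card I = 2 * w + w2 := by
    rw [← Fintype.card_congr S.e]
    simp
    omega
  have hT : ∀ x, t17b_T S.toSys f x = (A x + B x + C x) / (2 * w + w2 : ℝ) := by
    intro x
    unfold t17b_T av
    rw [hcard, ← Equiv.sum_comp S.e, Fintype.sum_sum_type, Fintype.sum_sum_type]
    push_cast
    rw [hA, hB, hC]
    ring
  have h1 : ∑ x, A x ^ 2 ≤ (w : ℝ) ^ 2 * ∑ x, f x ^ 2 :=
    t17b_sumsq (fun j => S.θ (S.e (Sum.inl j))) f
  have h2 : ∑ x, B x ^ 2 ≤ (w : ℝ) ^ 2 * ∑ x, f x ^ 2 :=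
    t17b_sumsq (fun j => S.θ (S.e (Sum.inr (Sum.inl j)))) f
  have hw2 : (0 : ℝ) < w2 := by
    have : 0 < w2 := by omega
    exact_mod_cast this
  have h3 : ∑ x, C x ^ 2 ≤ (w2 : ℝ) ^ 2 / 16 * ∑ x, f x ^ 2 := by
    have h := t17b_B2 S J hJ1 hN hJ f hf
    have e1 : ∀ x, (av fun k : Fin w2 => f (S.θ (S.e (Sum.inr (Sum.inr k))) x)) ^ 2
        = C x ^ 2 / (w2 : ℝ) ^ 2 := by
      intro x
      unfold av
      rw [Fintype.card_fin, div_pow]
    simp only [e1] at h
    rw [← Finset.sum_div, div_le_iff₀ (by positivity)] at h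
    linarith
  have hss : 0 ≤ ∑ x, f x ^ 2 := Finset.sum_nonneg fun x _ => sq_nonneg _
  have h4 : ∑ x, (A x + B x + C x) ^ 2 ≤ 4 * ∑ x, A x ^ 2 + 4 * ∑ x, B x ^ 2
      + 2 * ∑ x, C x ^ 2 := by
    rw [Finset.mul_sum, Finset.mul_sum, Finset.mul_sum, ← Finset.sum_add_distrib,
      ← Finset.sum_add_distrib]
    refine Finset.sum_le_sum fun x _ => ?_
    nlinarith [sq_nonneg (A x - B x), sq_nonneg (A x + B x - C x)]
  have hw' : (8 : ℝ) * w ≤ w2 := by exact_mod_cast hw
  have hw0 : (0 : ℝ) ≤ w := Nat.cast_nonneg _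
  have hD : (0 : ℝ) < (2 * w + w2 : ℝ) ^ 2 := by positivity
  simp only [hT, div_pow]
  rw [← Finset.sum_div, div_le_iff₀ hD]
  have h5 : 8 * (w : ℝ) ^ 2 + (w2 : ℝ) ^ 2 / 8 ≤ 1 / 4 * (2 * w + w2 : ℝ) ^ 2 := by nlinarith
  have h6 := mul_le_mul_of_nonneg_right h5 hss
  nlinarith

theorem m8 (S : HSys β I w w2 d) (J : ℕ) (hJ1 : 1 ≤ J) (hN : N3 S J) (hw : 8 * w ≤ w2)
    (hw1 : 1 ≤ w) (hJ : J ≤ Fintype.card β) (g0 : ℕ) (hg : (Fintype.card β : ℝ) ≤ 2 ^ g0) :
    M8 S.toSys g0 := by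
  intro x x'
  have hNpos : (0 : ℝ) < Fintype.card β := by
    have : 0 < Fintype.card β := by omega
    exact_mod_cast this
  have hI : Nonempty I := ⟨S.e (Sum.inl ⟨0, hw1⟩)⟩
  rw [t17b_fw]
  have e1 : (fun y : β => (if (Sum.inl y : Pos β I d) = Sum.inl x' then (1 : ℝ) else 0))
      = fun y => (if y = x' then 1 else 0 : ℝ) := by
    funext y
    simp only [Sum.inl.injEq]
  rw [e1]
  set N : ℝ := (Fintype.card β : ℝ) with hNdef
  -- the centred function
  have key : ∀ t : ℕ, ∃ f : β → ℝ, ∑ y, f y = 0 ∧ ∑ y, f y ^ 2 ≤ (1 / 4) ^ t ∧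
      (t17b_T S.toSys)^[t] (fun y => (if y = x' then 1 else 0 : ℝ)) = fun y => f y + 1 / N := by
    intro t
    induction t with
    | zero =>
      refine ⟨fun y => (if y = x' then 1 else 0 : ℝ) - 1 / N, ?_, ?_, ?_⟩
      · rw [Finset.sum_sub_distrib, Finset.sum_ite_eq' Finset.univ x', if_pos (Finset.mem_univ _),
          Finset.sum_const, Finset.card_univ, nsmul_eq_mul, ← hNdef]
        field_simp
        ring
      · have e2 : ∀ y : β, ((if y = x' then 1 else 0 : ℝ) - 1 / N) ^ 2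
            = (if y = x' then 1 - 2 / N else 0) + 1 / N ^ 2 := by
          intro y
          split_ifs
          · field_simp; ring
          · field_simp; ring
        simp only [e2]
        rw [Finset.sum_add_distrib, Finset.sum_ite_eq' Finset.univ x',
          if_pos (Finset.mem_univ _), Finset.sum_const, Finset.card_univ, nsmul_eq_mul, ← hNdef]
        have : N * (1 / N ^ 2) = 1 / N := by field_simp
        rw [this, pow_zero]
        have h3 : 0 ≤ 1 / N := by positivity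
        have h4 : 2 / N = 2 * (1 / N) := by ring
        rw [h4]
        linarith
      · funext y
        simp
    | succ t ih =>
      obtain ⟨f, h1, h2, h3⟩ := ih
      refine ⟨t17b_T S.toSys f, ?_, ?_, ?_⟩
      · rw [t17b_sum S.toSys hI, h1]
      · have h4 := t17b_contr S J hJ1 hN hw hw1 hJ f h1
        calc _ ≤ 1 / 4 * ∑ y, f y ^ 2 := h4
          _ ≤ 1 / 4 * (1 / 4) ^ t := by linarith
          _ = (1 / 4) ^ (t + 1) := by ring
      · rw [Function.iterate_succ_apply', h3]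
        funext y
        show av (fun i : I => f (S.θ i y) + 1 / N) = _
        rw [av_add]
        congr 1
        exact av_const _
  obtain ⟨f, h1, h2, h3⟩ := key g0
  rw [h3]
  have h4 : f x ^ 2 ≤ (1 / 4) ^ g0 :=
    (Finset.single_le_sum (f := fun y => f y ^ 2) (fun y _ => sq_nonneg _)
      (Finset.mem_univ x)).trans h2
  have h5 : f x ≤ (1 / 2) ^ g0 := by
    have h6 : ((1 : ℝ) / 4) ^ g0 = ((1 / 2) ^ g0) ^ 2 := by
      rw [← pow_mul, mul_comm, pow_mul]
      norm_num
    rw [h6] at h4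
    exact (le_abs_self _).trans (abs_le_of_sq_le_sq h4 (by positivity))
  have h7 : ((1 : ℝ) / 2) ^ g0 ≤ 1 / N := by
    rw [div_pow, one_pow]
    exact one_div_le_one_div_of_le hNpos hg
  show f x + 1 / N ≤ 2 / N
  have h8 : 2 / N = 1 / N + 1 / N := by ring
  rw [h8]
  linarith

end m8

end Pool.Agent.H9.Low
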