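import Pool.Agent.H9.Low.Basic

/-!
# T18: the dimension of an invariant space of high functions
-/

namespace Pool.Agent.H9.Low

open Equiv Finset

section t18

variable {X : Type} [Fintype X] [DecidableEq X] {h : ℕ}

omit [Fintype X] [DecidableEq X] in
theorem t18_Lt_Lt (g g' : Perm X) (F : Perm X → ℝ) : Lt g (Lt g' F) = Lt (g' * g) F := by
  ext σ; simp [Lt, mul_assoc]

omit [Fintype X] [DecidableEq X] in
theorem t18_Lt_one (F : Perm X → ℝ) : Lt 1 F = F := by
  ext σ; simp [Lt]

omit [Fintype X] [DecidableEq X] in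
theorem t18_Lt_add (g : Perm X) (F G : Perm X → ℝ) : Lt g (F + G) = Lt g F + Lt g G := rfl

omit [Fintype X] [DecidableEq X] in
theorem t18_Lt_sub (g : Perm X) (F G : Perm X → ℝ) : Lt g (F - G) = Lt g F - Lt g G := rfl

omit [Fintype X] [DecidableEq X] in
theorem t18_Lt_neg (g : Perm X) (F : Perm X → ℝ) : Lt g (-F) = -Lt g F := rfl

omit [Fintype X] [DecidableEq X] in
theorem t18_Lt_smul (g : Perm X) (c : ℝ) (F : Perm X → ℝ) : Lt g (c • F) = c • Lt g F := rfl

omit [Fintype X] [DecidableEq X] in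
theorem t18_Lt_zero (g : Perm X) : Lt g (0 : Perm X → ℝ) = 0 := rfl

omit [Fintype X] [DecidableEq X] in
theorem t18_Lt_ne_zero (g : Perm X) {F : Perm X → ℝ} (hF : F ≠ 0) : Lt g F ≠ 0 := by
  intro h0
  apply hF
  have h1 := congrArg (Lt g⁻¹) h0
  rw [t18_Lt_Lt, mul_inv_cancel, t18_Lt_one, t18_Lt_zero] at h1
  exact h1

/-- the transposition of the pair `i` -/
def t18_tau (p : Fin h × Bool ↪ X) (i : Fin h) : Perm X := swap (p (i, false)) (p (i, true))

/-- joint eigenvectors -/
def t18_Eig (p : Fin h × Bool ↪ X) (T : Finset (Fin h)) (v : Perm X → ℝ) : Prop :=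
  ∀ i, Lt (t18_tau p i) v = if i ∈ T then -v else v

omit [Fintype X] in
theorem t18_comm_swap {a b c d : X} (h1 : a ≠ c) (h2 : a ≠ d) (h3 : b ≠ c) (h4 : b ≠ d) :
    swap a b * swap c d = swap c d * swap a b := by
  have h := Equiv.swap_apply_apply (swap c d) a b
  rw [swap_apply_of_ne_of_ne h1 h2, swap_apply_of_ne_of_ne h3 h4] at h
  exact eq_mul_inv_iff_mul_eq.1 h

omit [Fintype X] in
theorem t18_tau_comm (p : Fin h × Bool ↪ X) (i j : Fin h) :
    t18_tau p i * t18_tau p j = t18_tau p j * t18_tau p i := by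
  rcases eq_or_ne i j with rfl | hij
  · rfl
  · have hne : ∀ b b', p (i, b) ≠ p (j, b') := fun b b' hp => by
      have := p.injective hp
      exact hij (congrArg Prod.fst this)
    exact t18_comm_swap (hne _ _) (hne _ _) (hne _ _) (hne _ _)

omit [Fintype X] in
theorem t18_tau_sq (p : Fin h × Bool ↪ X) (i : Fin h) : t18_tau p i * t18_tau p i = 1 :=
  swap_mul_self _ _

omit [Fintype X] in
theorem t18_decomp (p : Fin h × Bool ↪ X) (V : Submodule ℝ (Perm X → ℝ))
    (hinv : ∀ (g : Perm X) (F : Perm X → ℝ), F ∈ V → Lt g F ∈ V) (s : Finset (Fin h)) :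
    ∀ (T₀ : Finset (Fin h)) (F : Perm X → ℝ), F ∈ V →
      (∀ i ∉ s, Lt (t18_tau p i) F = if i ∈ T₀ then -F else F) →
      F ∈ Submodule.span ℝ {v | v ∈ V ∧ ∃ T, t18_Eig p T v ∧ T \ s = T₀ \ s} := by
  induction s using Finset.induction_on with
  | empty =>
    intro T₀ F hF h0
    exact Submodule.subset_span ⟨hF, T₀, fun i => h0 i (by simp), rfl⟩
  | insert a s ha ih =>
    intro T₀ F hF h0
    have e1 : F = (1 / 2 : ℝ) • (F + Lt (t18_tau p a) F)
        + (1 / 2 : ℝ) • (F - Lt (t18_tau p a) F) := by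
      ext σ
      simp only [Pi.add_apply, Pi.smul_apply, Pi.sub_apply, smul_eq_mul]
      ring
    have hsq : Lt (t18_tau p a) (Lt (t18_tau p a) F) = F := by
      rw [t18_Lt_Lt, t18_tau_sq, t18_Lt_one]
    have hcm : ∀ i, Lt (t18_tau p i) (Lt (t18_tau p a) F)
        = Lt (t18_tau p a) (Lt (t18_tau p i) F) := by
      intro i
      rw [t18_Lt_Lt, t18_Lt_Lt, t18_tau_comm]
    have hp : F + Lt (t18_tau p a) F ∈
        Submodule.span ℝ {v | v ∈ V ∧ ∃ T, t18_Eig p T v ∧ T \ s = (T₀.erase a) \ s} := by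
      apply ih _ _ (V.add_mem hF (hinv _ _ hF))
      intro i hi
      rcases eq_or_ne i a with rfl | hia
      · rw [if_neg (by simp), t18_Lt_add, hsq, add_comm]
      · have h1 := h0 i (by simp [hia, hi])
        rw [t18_Lt_add, hcm, h1]
        by_cases hiT : i ∈ T₀
        · rw [if_pos hiT, if_pos (by simp [hia, hiT]), t18_Lt_neg, neg_add]
        · rw [if_neg hiT, if_neg (by simp [hiT])]
    have hm : F - Lt (t18_tau p a) F ∈
        Submodule.span ℝ {v | v ∈ V ∧ ∃ T, t18_Eig p T v ∧ T \ s = (insert a T₀) \ s} := by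
      apply ih _ _ (V.sub_mem hF (hinv _ _ hF))
      intro i hi
      rcases eq_or_ne i a with rfl | hia
      · rw [if_pos (by simp), t18_Lt_sub, hsq, neg_sub]
      · have h1 := h0 i (by simp [hia, hi])
        rw [t18_Lt_sub, hcm, h1]
        by_cases hiT : i ∈ T₀
        · rw [if_pos hiT, if_pos (by simp [hiT]), t18_Lt_neg]
          abel
        · rw [if_neg hiT, if_neg (by simp [hiT, hia])]
    have hmono : ∀ T₁ : Finset (Fin h), (∀ j, j ≠ a → (j ∈ T₁ ↔ j ∈ T₀)) →
        Submodule.span ℝ {v | v ∈ V ∧ ∃ T, t18_Eig p T v ∧ T \ s = T₁ \ s} ≤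
        Submodule.span ℝ {v | v ∈ V ∧ ∃ T, t18_Eig p T v ∧ T \ insert a s = T₀ \ insert a s} := by
      intro T₁ hT₁
      apply Submodule.span_mono
      rintro v ⟨hv, T, hE, hTs⟩
      refine ⟨hv, T, hE, ?_⟩
      ext j
      have h2 := Finset.ext_iff.1 hTs j
      simp only [mem_sdiff, mem_insert, not_or] at h2 ⊢
      constructor
      · rintro ⟨h3, h4, h5⟩
        exact ⟨(hT₁ j h4).1 (h2.1 ⟨h3, h5⟩).1, h4, h5⟩
      · rintro ⟨h3, h4, h5⟩
        exact ⟨(h2.2 ⟨(hT₁ j h4).2 h3, h5⟩).1, h4, h5⟩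
    rw [e1]
    apply Submodule.add_mem
    · exact Submodule.smul_mem _ _ (hmono _ (fun j hj => by simp [hj]) hp)
    · exact Submodule.smul_mem _ _ (hmono _ (fun j hj => by simp [hj]) hm)

omit [Fintype X] [DecidableEq X] in
theorem t18_exists_of_span {S : Set (Perm X → ℝ)} {F : Perm X → ℝ}
    (hF : F ∈ Submodule.span ℝ S) (h0 : F ≠ 0) : ∃ v ∈ S, v ≠ 0 := by
  by_contra hcon
  push Not at hcon
  apply h0
  have : Submodule.span ℝ S = ⊥ := Submodule.span_eq_bot.2 hcon
  rw [this] at hF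
  simpa using hF

theorem t18_ip_Lt (g : Perm X) (F G : Perm X → ℝ) :
    ∑ σ, Lt g F σ * Lt g G σ = ∑ σ, F σ * G σ :=
  Equiv.sum_comp (Equiv.mulLeft g) (fun σ => F σ * G σ)

theorem t18_orth (p : Fin h × Bool ↪ X) {T T' : Finset (Fin h)} {v w : Perm X → ℝ}
    (hv : t18_Eig p T v) (hw : t18_Eig p T' w) (hTT : T ≠ T') : ∑ σ, v σ * w σ = 0 := by
  have key : ∀ i, (i ∈ T ∧ i ∉ T') ∨ (i ∉ T ∧ i ∈ T') → ∑ σ, v σ * w σ = 0 := by
    intro i hi
    have h1 := t18_ip_Lt (t18_tau p i) v w
    rw [hv i, hw i] at h1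
    rcases hi with ⟨h2, h3⟩ | ⟨h2, h3⟩
    · rw [if_pos h2, if_neg h3] at h1
      simp only [Pi.neg_apply, neg_mul, sum_neg_distrib] at h1
      linarith
    · rw [if_neg h2, if_pos h3] at h1
      simp only [Pi.neg_apply, mul_neg, sum_neg_distrib] at h1
      linarith
  by_contra hcon
  apply hTT
  ext i
  by_contra hi
  apply hcon
  apply key i
  tauto

theorem t18_dim (p : Fin h × Bool ↪ X) (V : Submodule ℝ (Perm X → ℝ)) (k : ℕ)
    (hk : ∀ T : Finset (Fin h), T.card = k → ∃ v ∈ V, v ≠ 0 ∧ t18_Eig p T v) :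
    h.choose k ≤ Module.finrank ℝ V := by
  classical
  have hk' : ∀ T : {T : Finset (Fin h) // T.card = k}, ∃ v : V, (v : Perm X → ℝ) ≠ 0 ∧
      t18_Eig p T.1 (v : Perm X → ℝ) := fun T => by
    obtain ⟨v, h1, h2, h3⟩ := hk T.1 T.2
    exact ⟨⟨v, h1⟩, h2, h3⟩
  choose b hb0 hbE using hk'
  have hli : LinearIndependent ℝ b := by
    rw [Fintype.linearIndependent_iff]
    intro c hc T
    have h1 : ∀ σ, ∑ T', c T' * (b T' : Perm X → ℝ) σ = 0 := by
      intro σ
      have h2 := congrArg (fun w : V => (w : Perm X → ℝ) σ) hc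
      simpa [Finset.sum_apply] using h2
    have h3 : ∑ σ, (∑ T', c T' * (b T' : Perm X → ℝ) σ) * (b T : Perm X → ℝ) σ = 0 := by
      simp [h1]
    simp only [Finset.sum_mul] at h3
    rw [Finset.sum_comm] at h3
    rw [Finset.sum_eq_single T] at h3
    · simp only [mul_assoc, ← Finset.mul_sum] at h3
      rcases mul_eq_zero.1 h3 with h4 | h4
      · exact h4
      · exfalso
        apply hb0 T
        ext σ
        have h5 := (Finset.sum_eq_zero_iff_of_nonneg (fun σ _ => mul_self_nonneg _)).1 h4 σ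
          (Finset.mem_univ σ)
        simpa using h5
    · intro T' _ hT'
      simp only [mul_assoc, ← Finset.mul_sum]
      rw [t18_orth p (hbE T') (hbE T) (fun hh => hT' (Subtype.ext hh)), mul_zero]
    · intro hT; exact absurd (Finset.mem_univ T) hT
  have hcard := hli.fintype_card_le_finrank
  rwa [Fintype.card_finset_len, Fintype.card_fin] at hcard

theorem t18_conj (p p' : Fin h × Bool ↪ X) (T T' : Finset (Fin h)) (hT : T.card = T'.card)
    (V : Submodule ℝ (Perm X → ℝ))
    (hinv : ∀ (g : Perm X) (F : Perm X → ℝ), F ∈ V → Lt g F ∈ V)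
    (hex : ∃ v ∈ V, v ≠ 0 ∧ t18_Eig p T v) : ∃ v ∈ V, v ≠ 0 ∧ t18_Eig p' T' v := by
  classical
  obtain ⟨e, he⟩ : ∃ e : Perm (Fin h), ∀ i, e i ∈ T ↔ i ∈ T' := by
    refine ⟨(Finset.equivOfCardEq hT.symm).extendSubtype, fun i => ⟨fun h1 => ?_, fun h1 => ?_⟩⟩
    · by_contra h2
      exact Equiv.extendSubtype_not_mem (Finset.equivOfCardEq hT.symm) i h2 h1
    · exact Equiv.extendSubtype_mem (Finset.equivOfCardEq hT.symm) i h1
  obtain ⟨π, hπ⟩ : ∃ π : Perm X, ∀ i b, π (p' (i, b)) = p (e i, b) := by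
    let f : {x // x ∈ Set.range p'} ≃ {x // x ∈ Set.range p} :=
      (Equiv.ofInjective p' p'.injective).symm.trans
        ((e.prodCongr (Equiv.refl Bool)).trans (Equiv.ofInjective p p.injective))
    refine ⟨f.extendSubtype, fun i b => ?_⟩
    rw [Equiv.extendSubtype_apply_of_mem f (p' (i, b)) ⟨(i, b), rfl⟩]
    have h1 : (⟨p' (i, b), ⟨(i, b), rfl⟩⟩ : {x // x ∈ Set.range p'})
        = Equiv.ofInjective p' p'.injective (i, b) := rfl
    simp only [f, h1, Equiv.trans_apply, Equiv.symm_apply_apply]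
    rfl
  obtain ⟨v, h1, h2, h3⟩ := hex
  refine ⟨Lt π v, hinv _ _ h1, t18_Lt_ne_zero _ h2, fun i => ?_⟩
  have h4 : π * t18_tau p' i = t18_tau p (e i) * π := by
    have h5 := Equiv.swap_apply_apply π (p' (i, false)) (p' (i, true))
    rw [hπ, hπ] at h5
    unfold t18_tau
    rw [h5]
    simp [mul_assoc]
  rw [t18_Lt_Lt, h4, ← t18_Lt_Lt, h3 (e i)]
  by_cases hi : i ∈ T'
  · rw [if_pos hi, if_pos ((he i).2 hi), t18_Lt_neg]
  · rw [if_neg hi, if_neg (fun h6 => hi ((he i).1 h6))]


/-- a function fixed by the transpositions outside `A` is fixed by the permutations fixing `A` -/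
theorem t18_fix (A : Finset X) (v : Perm X → ℝ)
    (hsw : ∀ x x', x ∉ A → x' ∉ A → Lt (swap x x') v = v) (n : ℕ) :
    ∀ g : Perm X, g.support.card ≤ n → (∀ a ∈ A, g a = a) → Lt g v = v := by
  induction n with
  | zero =>
    intro g hg _
    have h1 : g = 1 := by
      rw [← Equiv.Perm.support_eq_empty_iff]
      exact Finset.card_eq_zero.1 (by omega)
    rw [h1, t18_Lt_one]
  | succ n ih =>
    intro g hg hA
    by_cases h1 : g = 1
    · rw [h1, t18_Lt_one]
    · obtain ⟨x, hx⟩ : ∃ x, g x ≠ x := by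
        by_contra hcon
        push Not at hcon
        exact h1 (Equiv.ext hcon)
      have hxA : x ∉ A := fun h2 => hx (hA x h2)
      have hgxA : g x ∉ A := fun h2 => hx (g.injective (hA _ h2))
      have h3 := Equiv.Perm.card_support_swap_mul hx
      have h4 := ih (swap x (g x) * g) (by omega) (fun a ha => by
        rw [Equiv.Perm.mul_apply, hA a ha]
        exact swap_apply_of_ne_of_ne (fun h5 => hxA (h5 ▸ ha)) (fun h5 => hgxA (h5 ▸ ha)))
      rw [← t18_Lt_Lt, hsw x (g x) hxA hgxA] at h4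
      exact h4

theorem t18_step (J : ℕ) (hJ : J ≤ Fintype.card X) (hh : h = Fintype.card X / 2)
    (V : Submodule ℝ (Perm X → ℝ)) (hV : V ≤ HighS X J)
    (hinv : ∀ (g : Perm X) (F : Perm X → ℝ), F ∈ V → Lt g F ∈ V)
    (p : Fin h × Bool ↪ X) (T : Finset (Fin h)) (hT : 2 * T.card ≤ J) (v : Perm X → ℝ)
    (hv : v ∈ V) (hv0 : v ≠ 0) (hE : t18_Eig p T v) :
    ∃ (p' : Fin h × Bool ↪ X) (T' : Finset (Fin h)), T.card < T'.card ∧
      ∃ v' ∈ V, v' ≠ 0 ∧ t18_Eig p' T' v' := by
  classical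
  by_contra hcon
  push Not at hcon
  set A : Finset X := (T ×ˢ (univ : Finset Bool)).map p with hAdef
  have hAc : A.card = 2 * T.card := by
    rw [hAdef, card_map, card_product]
    simp [mul_comm]
  have hmA : ∀ i b, p (i, b) ∈ A ↔ i ∈ T := by
    intro i b
    rw [hAdef]
    simp
  have hsw : ∀ x x', x ∉ A → x' ∉ A → Lt (swap x x') v = v := by
    intro x x' hx hx'
    by_contra hne
    have hxx : x ≠ x' := by
      rintro rfl
      apply hne
      rw [swap_self]
      exact t18_Lt_one v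
    have hTc : T.card < h := by
      have h1 : (insert x (insert x' A)).card ≤ Fintype.card X := Finset.card_le_univ _
      rw [card_insert_of_notMem (by simp [hx, hxx]), card_insert_of_notMem hx', hAc] at h1
      omega
    obtain ⟨i0, hi0⟩ : ∃ i0, i0 ∉ T := by
      by_contra hcon2
      push Not at hcon2
      have : T = univ := Finset.eq_univ_iff_forall.2 hcon2
      rw [this, card_univ, Fintype.card_fin] at hTc
      omega
    obtain ⟨π, hπA, hπ1, hπ2⟩ : ∃ π : Perm X, (∀ a ∈ A, π a = a) ∧ π (p (i0, false)) = x ∧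
        π (p (i0, true)) = x' := by
      have hp1 : ∀ b, p (i0, b) ∉ A := fun b hb => hi0 ((hmA _ _).1 hb)
      refine ⟨swap (swap (p (i0, false)) x (p (i0, true))) x' * swap (p (i0, false)) x,
        fun a ha => ?_, ?_, ?_⟩
      · have ha1 : swap (p (i0, false)) x a = a :=
          swap_apply_of_ne_of_ne (fun h5 => hp1 _ (h5 ▸ ha)) (fun h5 => hx (h5 ▸ ha))
        rw [Equiv.Perm.mul_apply, ha1]
        refine swap_apply_of_ne_of_ne (fun h5 => ?_) (fun h5 => hx' (h5 ▸ ha))
        have h6 : swap (p (i0, false)) x a = swap (p (i0, false)) x (p (i0, true)) := by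
          rw [ha1, ← h5]
        exact hp1 true ((swap (p (i0, false)) x).injective h6 ▸ ha)
      · rw [Equiv.Perm.mul_apply, swap_apply_left]
        refine swap_apply_of_ne_of_ne (fun h5 => ?_) hxx
        have h6 : swap (p (i0, false)) x (p (i0, false))
            = swap (p (i0, false)) x (p (i0, true)) := by
          rw [swap_apply_left, ← h5]
        have h7 := p.injective ((swap (p (i0, false)) x).injective h6)
        simp at h7
      · rw [Equiv.Perm.mul_apply, swap_apply_left]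
    let p' : Fin h × Bool ↪ X := p.trans π.toEmbedding
    have hp'T : ∀ i ∈ T, ∀ b, p' (i, b) = p (i, b) := fun i hi b =>
      hπA _ ((hmA i b).2 hi)
    have hp'1 : p' (i0, false) = x := hπ1
    have hp'2 : p' (i0, true) = x' := hπ2
    set v' := v - Lt (swap x x') v with hv'
    have hv'V : v' ∈ V := V.sub_mem hv (hinv _ _ hv)
    have hv'0 : v' ≠ 0 := fun h1 => hne (sub_eq_zero.1 h1).symm
    have hsq : Lt (swap x x') (Lt (swap x x') v) = v := by
      rw [t18_Lt_Lt, swap_mul_self, t18_Lt_one]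
    have hTv : ∀ i ∈ insert i0 T, Lt (t18_tau p' i) v' = -v' := by
      intro i hi
      rcases Finset.mem_insert.1 hi with rfl | hi
      · have h1 : t18_tau p' i = swap x x' := by
          unfold t18_tau; rw [hp'1, hp'2]
        rw [h1, hv', t18_Lt_sub, hsq, neg_sub]
      · have h1 : t18_tau p' i = t18_tau p i := by
          unfold t18_tau; rw [hp'T i hi, hp'T i hi]
        have h2 : t18_tau p i * swap x x' = swap x x' * t18_tau p i := by
          have h3 : ∀ b, p (i, b) ≠ x := fun b h4 => hx (h4 ▸ (hmA i b).2 hi)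
          have h4 : ∀ b, p (i, b) ≠ x' := fun b h4 => hx' (h4 ▸ (hmA i b).2 hi)
          exact t18_comm_swap (h3 _) (h4 _) (h3 _) (h4 _)
        have h3 := hE i
        rw [if_pos hi] at h3
        rw [h1, hv', t18_Lt_sub, t18_Lt_Lt, ← h2, ← t18_Lt_Lt, h3, t18_Lt_neg]
        abel
    have hsp := t18_decomp p' V hinv (insert i0 T)ᶜ (insert i0 T) v' hv'V (fun i hi => by
      rw [Finset.mem_compl, not_not] at hi
      rw [if_pos hi, hTv i hi])
    obtain ⟨w, ⟨hwV, T', hwE, hwT⟩, hw0⟩ := t18_exists_of_span hsp hv'0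
    refine hcon p' T' ?_ w hwV hw0 hwE
    have hsub : insert i0 T ⊆ T' := by
      intro j hj
      have h1 : j ∈ T' \ (insert i0 T)ᶜ := by
        rw [hwT, mem_sdiff, Finset.mem_compl, not_not]
        exact ⟨hj, hj⟩
      exact (mem_sdiff.1 h1).1
    have h2 := Finset.card_le_card hsub
    rw [card_insert_of_notMem hi0] at h2
    omega
  apply hv0
  ext σ
  obtain ⟨B, hAB, -, hB⟩ : ∃ B, A ⊆ B ∧ B ⊆ univ ∧ B.card = J :=
    Finset.exists_subsuperset_card_eq (Finset.subset_univ A) (by omega)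
      (by rw [Finset.card_univ]; exact hJ)
  let z : Fin J ↪ X := (B.equivFinOfCardEq hB).symm.toEmbedding.trans (Function.Embedding.subtype _)
  let x : Fin J ↪ X := z.trans σ.symm.toEmbedding
  have hzr : ∀ a ∈ A, ∃ i, z i = a := by
    intro a ha
    refine ⟨B.equivFinOfCardEq hB ⟨a, hAB ha⟩, ?_⟩
    simp [z]
  have h1 : mg v x z = 0 := hV hv x z
  have h2 : ∀ τ : Perm X, (∀ i, τ (x i) = z i) → v τ = v σ := by
    intro τ hτ
    have h3 : ∀ i, τ (σ.symm (z i)) = z i := hτ
    have h4 : Lt (τ * σ⁻¹) v = v := by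
      apply t18_fix A v hsw _ _ le_rfl
      intro a ha
      obtain ⟨i, rfl⟩ := hzr a ha
      exact h3 i
    have h5 := congrFun h4 σ
    simpa [Lt] using h5
  have h3 : mg v x z = ((univ.filter fun τ : Perm X => ∀ i, τ (x i) = z i).card : ℝ) * v σ := by
    unfold mg
    rw [← Finset.sum_filter, Finset.sum_congr rfl (fun τ hτ => h2 τ (Finset.mem_filter.1 hτ).2),
      Finset.sum_const, nsmul_eq_mul]
  rw [h3] at h1
  rcases mul_eq_zero.1 h1 with h4 | h4
  · exfalso
    have h5 : σ ∈ univ.filter fun τ : Perm X => ∀ i, τ (x i) = z i := by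
      simp [x]
    have h6 : (univ.filter fun τ : Perm X => ∀ i, τ (x i) = z i).card = 0 := by exact_mod_cast h4
    rw [Finset.card_eq_zero] at h6
    rw [h6] at h5
    simp at h5
  · exact h4

theorem t18_a (J : ℕ) (hJ : J ≤ Fintype.card X) (hh : h = Fintype.card X / 2)
    (V : Submodule ℝ (Perm X → ℝ)) (hV : V ≤ HighS X J) (hne : V ≠ ⊥)
    (hinv : ∀ (g : Perm X) (F : Perm X → ℝ), F ∈ V → Lt g F ∈ V) :
    ∃ (p : Fin h × Bool ↪ X) (T : Finset (Fin h)), J < 2 * T.card ∧
      ∃ v ∈ V, v ≠ 0 ∧ t18_Eig p T v := by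
  classical
  by_contra hcon
  push Not at hcon
  have key : ∀ j : ℕ, ∃ (p : Fin h × Bool ↪ X) (T : Finset (Fin h)), j ≤ T.card ∧
      ∃ v ∈ V, v ≠ 0 ∧ t18_Eig p T v := by
    intro j
    induction j with
    | zero =>
      have hcard : Fintype.card (Fin h × Bool) ≤ Fintype.card X := by
        rw [Fintype.card_prod, Fintype.card_fin, Fintype.card_bool]
        omega
      obtain ⟨p⟩ := Function.Embedding.nonempty_of_card_le hcard
      obtain ⟨F, hF, hF0⟩ := Submodule.exists_mem_ne_zero_of_ne_bot hne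
      have hsp := t18_decomp p V hinv univ ∅ F hF (fun i hi => absurd (Finset.mem_univ i) hi)
      obtain ⟨w, ⟨hwV, T', hwE, -⟩, hw0⟩ := t18_exists_of_span hsp hF0
      exact ⟨p, T', Nat.zero_le _, w, hwV, hw0, hwE⟩
    | succ j ih =>
      obtain ⟨p, T, hjT, v, hv, hv0, hE⟩ := ih
      have h2 : 2 * T.card ≤ J := by
        by_contra h3
        exact hcon p T (by omega) v hv hv0 hE
      obtain ⟨p', T', h4, h5⟩ := t18_step J hJ hh V hV hinv p T h2 v hv hv0 hE
      exact ⟨p', T', by omega, h5⟩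
  obtain ⟨p, T, h1, -⟩ := key (h + 1)
  have h2 := Finset.card_le_univ T
  rw [Fintype.card_fin] at h2
  omega

theorem t18_sgr_mul (g σ : Perm X) : sgr (g * σ) = sgr g * sgr σ := by
  unfold sgr
  rw [Equiv.Perm.sign_mul]
  push_cast
  ring

theorem t18_sgr_sq (g : Perm X) : sgr g * sgr g = 1 := by
  unfold sgr
  rcases Int.units_eq_one_or (Equiv.Perm.sign g) with h1 | h1 <;> rw [h1] <;> simp

theorem t18_sgt_sgt (F : Perm X → ℝ) : sgt (sgt F) = F := by
  ext σ
  unfold sgt
  rw [← mul_assoc, t18_sgr_sq, one_mul]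

theorem t18_Lt_sgt (g : Perm X) (F : Perm X → ℝ) : Lt g (sgt F) = sgr g • sgt (Lt g F) := by
  ext σ
  simp only [Lt, sgt, Pi.smul_apply, smul_eq_mul, t18_sgr_mul, mul_assoc]

theorem t18_b (J : ℕ) (hJ : J ≤ Fintype.card X) (hh : h = Fintype.card X / 2)
    (V : Submodule ℝ (Perm X → ℝ)) (hV : V ≤ HH X J) (hne : V ≠ ⊥)
    (hinv : ∀ (g : Perm X) (F : Perm X → ℝ), F ∈ V → Lt g F ∈ V) :
    ∃ (p : Fin h × Bool ↪ X) (T : Finset (Fin h)), J < 2 * (h - T.card) ∧
      ∃ v ∈ V, v ≠ 0 ∧ t18_Eig p T v := by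
  classical
  have hmem : ∀ F : Perm X → ℝ, F ∈ V.comap (sgL X) ↔ sgt F ∈ V := fun F => Iff.rfl
  have hV' : V.comap (sgL X) ≤ HighS X J := by
    intro F hF
    have h1 := (hV ((hmem F).1 hF)).2
    have h2 : sgt (sgt F) ∈ HighS X J := h1
    rwa [t18_sgt_sgt] at h2
  have hne' : V.comap (sgL X) ≠ ⊥ := by
    obtain ⟨F, hF, hF0⟩ := Submodule.exists_mem_ne_zero_of_ne_bot hne
    intro h1
    have h2 : sgt F ∈ V.comap (sgL X) := by
      rw [hmem, t18_sgt_sgt]; exact hF
    rw [h1, Submodule.mem_bot] at h2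
    apply hF0
    rw [← t18_sgt_sgt F, h2]
    ext σ
    simp [sgt]
  have hinv' : ∀ (g : Perm X) (F : Perm X → ℝ), F ∈ V.comap (sgL X) →
      Lt g F ∈ V.comap (sgL X) := by
    intro g F hF
    rw [hmem] at hF ⊢
    have h1 := V.smul_mem (sgr g) (hinv g _ hF)
    rw [t18_Lt_sgt, smul_smul, t18_sgr_sq, one_smul] at h1
    exact h1
  obtain ⟨p, T, hT, v, hv, hv0, hE⟩ := t18_a J hJ hh (V.comap (sgL X)) hV' hne' hinv'
  have hTc : Tᶜ.card = h - T.card := by
    rw [Finset.card_compl, Fintype.card_fin]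
  have hTl : T.card ≤ h := by
    have := Finset.card_le_univ T
    rwa [Fintype.card_fin] at this
  refine ⟨p, Tᶜ, by rw [hTc]; omega, sgt v, (hmem v).1 hv, ?_, ?_⟩
  · intro h1
    apply hv0
    rw [← t18_sgt_sgt v, h1]
    ext σ
    simp [sgt]
  · intro i
    have hs : sgr (t18_tau p i) = -1 := by
      unfold sgr t18_tau
      have hne : p (i, false) ≠ p (i, true) := fun h1 => by
        have := p.injective h1
        simp at this
      rw [Equiv.Perm.sign_swap hne]
      simp
    rw [t18_Lt_sgt, hE i, hs]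
    by_cases hi : i ∈ T
    · rw [if_pos hi, if_neg (by simp [hi])]
      ext σ
      simp [sgt]
    · rw [if_neg hi, if_pos (by simp [hi])]
      ext σ
      simp [sgt]


theorem t18_choose {h k₁ k : ℕ} (h1 : k₁ ≤ k) (h2 : k ≤ h - k₁) :
    h.choose k₁ ≤ h.choose k := by
  have key : ∀ j, k₁ ≤ j → j ≤ h / 2 → h.choose k₁ ≤ h.choose j := by
    intro j hj
    induction j, hj using Nat.le_induction with
    | base => intro _; exact le_rfl
    | succ j hj ih =>
      intro h3
      exact (ih (by omega)).trans (Nat.choose_le_succ_of_lt_half_left (by omega))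
  rcases le_or_gt k (h / 2) with h3 | h3
  · exact key k h1 h3
  · rcases le_or_gt k h with h4 | h4
    · rw [← Nat.choose_symm h4]
      exact key (h - k) (by omega) (by omega)
    · omega

/-- membership in the span of the eigenvectors with many signs is preserved -/
theorem t18_plus (p : Fin h × Bool ↪ X) (V : Submodule ℝ (Perm X → ℝ))
    (hinv : ∀ (g : Perm X) (F : Perm X → ℝ), F ∈ V → Lt g F ∈ V) (k₁ : ℕ)
    (hk : 2 * k₁ + 1 ≤ h)
    (hocc : ∀ T : Finset (Fin h), k₁ ≤ T.card → T.card ≤ h - k₁ → ∀ v ∈ V, t18_Eig p T v → v = 0)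
    (g : Perm X) :
    ∀ F ∈ Submodule.span ℝ {v | v ∈ V ∧ ∃ T, t18_Eig p T v ∧ h - k₁ < T.card},
      Lt g F ∈ Submodule.span ℝ {v | v ∈ V ∧ ∃ T, t18_Eig p T v ∧ h - k₁ < T.card} := by
  classical
  induction g using Equiv.Perm.swap_induction_on with
  | one => intro F hF; rw [t18_Lt_one]; exact hF
  | swap_mul f x y hxy ih =>
    intro F hF
    rw [← t18_Lt_Lt]
    apply ih
    induction hF using Submodule.span_induction with
    | zero => rw [t18_Lt_zero]; exact Submodule.zero_mem _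
    | add F G _ _ hF hG => rw [t18_Lt_add]; exact Submodule.add_mem _ hF hG
    | smul c F _ hF => rw [t18_Lt_smul]; exact Submodule.smul_mem _ _ hF
    | mem v hv =>
      obtain ⟨hvV, T, hE, hT⟩ := hv
      -- the indices of the pairs touched by the transposition
      set s : Finset (Fin h) := (univ.filter fun i => ∃ b, p (i, b) = x) ∪
        (univ.filter fun i => ∃ b, p (i, b) = y) with hs
      have hone : ∀ c : X, (univ.filter fun i : Fin h => ∃ b, p (i, b) = c).card ≤ 1 := by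
        intro c
        rw [Finset.card_le_one]
        intro i hi j hj
        obtain ⟨b, hb⟩ := (Finset.mem_filter.1 hi).2
        obtain ⟨b', hb'⟩ := (Finset.mem_filter.1 hj).2
        have := p.injective (hb.trans hb'.symm)
        exact congrArg Prod.fst this
      have hsc : s.card ≤ 2 := by
        rw [hs]
        exact (Finset.card_union_le _ _).trans (Nat.add_le_add (hone x) (hone y))
      have hsp := t18_decomp p V hinv s T (Lt (swap x y) v) (hinv _ _ hvV) (fun i hi => by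
        have h1 : ∀ b, p (i, b) ≠ x := fun b hb => hi (by
          rw [hs, Finset.mem_union, Finset.mem_filter]
          exact Or.inl ⟨Finset.mem_univ _, b, hb⟩)
        have h2 : ∀ b, p (i, b) ≠ y := fun b hb => hi (by
          rw [hs, Finset.mem_union, Finset.mem_filter, Finset.mem_filter]
          exact Or.inr ⟨Finset.mem_univ _, b, hb⟩)
        have h3 : t18_tau p i * swap x y = swap x y * t18_tau p i :=
          t18_comm_swap (h1 _) (h2 _) (h1 _) (h2 _)
        rw [t18_Lt_Lt, ← h3, ← t18_Lt_Lt, hE i]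
        by_cases hi : i ∈ T
        · rw [if_pos hi, if_pos hi, t18_Lt_neg]
        · rw [if_neg hi, if_neg hi])
      refine Submodule.span_le.2 ?_ hsp
      rintro u ⟨huV, T', huE, huT⟩
      have h1 : (T \ s).card ≤ T'.card := by
        rw [← huT]
        exact Finset.card_le_card Finset.sdiff_subset
      have h2 : T.card ≤ (T \ s).card + s.card := by
        exact Finset.card_le_card_sdiff_add_card (s := T) (t := s)
      rcases le_or_gt T'.card (h - k₁) with h3 | h3
      · have h4 := hocc T' (by omega) h3 u huV huE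
        rw [h4]
        exact Submodule.zero_mem _
      · exact Submodule.subset_span ⟨huV, T', huE, h3⟩

end t18

theorem dim_HH {X : Type} [Fintype X] [DecidableEq X] (J : ℕ)
    (hJ : 2 * (J / 2) + 1 ≤ Fintype.card X / 2)
    (V : Submodule ℝ (Perm X → ℝ)) (hV : V ≤ HH X J) (hne : V ≠ ⊥)
    (hinv : ∀ (g : Perm X) (F : Perm X → ℝ), F ∈ V → Lt g F ∈ V) :
    (Fintype.card X / 2).choose (J / 2) ≤ Module.finrank ℝ V := by
  classical
  obtain ⟨h, hh⟩ : ∃ h, h = Fintype.card X / 2 := ⟨_, rfl⟩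
  rw [← hh] at hJ ⊢
  have hJX : J ≤ Fintype.card X := by omega
  obtain ⟨p⟩ : Nonempty (Fin h × Bool ↪ X) := by
    apply Function.Embedding.nonempty_of_card_le
    rw [Fintype.card_prod, Fintype.card_fin, Fintype.card_bool]
    omega
  by_cases hocc : ∃ T : Finset (Fin h), J / 2 ≤ T.card ∧ T.card ≤ h - J / 2 ∧
      ∃ v ∈ V, v ≠ 0 ∧ t18_Eig p T v
  · obtain ⟨T, h1, h2, hex⟩ := hocc
    have h3 := t18_dim p V T.card (fun T' hT' => t18_conj p p T T' hT'.symm V hinv hex)
    exact (t18_choose h1 h2).trans h3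
  · exfalso
    have hocc' : ∀ T : Finset (Fin h), J / 2 ≤ T.card → T.card ≤ h - J / 2 →
        ∀ v ∈ V, t18_Eig p T v → v = 0 := by
      intro T h1 h2 v hv hE
      by_contra h3
      exact hocc ⟨T, h1, h2, v, hv, h3, hE⟩
    set Vp := Submodule.span ℝ {v | v ∈ V ∧ ∃ T, t18_Eig p T v ∧ h - J / 2 < T.card} with hVp
    have hVpV : Vp ≤ V := Submodule.span_le.2 fun v hv => hv.1
    have hVinv : ∀ (g : Perm X) (F : Perm X → ℝ), F ∈ Vp → Lt g F ∈ Vp := fun g F hF =>
      t18_plus p V hinv (J / 2) (by omega) hocc' g F hF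
    have hbot : Vp = ⊥ := by
      by_contra hVne
      obtain ⟨p', T', hT', hex'⟩ := t18_b J hJX hh Vp (hVpV.trans hV) hVne hVinv
      obtain ⟨v, hv, hv0, hE⟩ := t18_conj p' p T' T' rfl Vp hVinv hex'
      -- `v` is orthogonal to the generators of `Vp`
      have horth : ∀ F ∈ Vp, ∑ σ, F σ * v σ = 0 := by
        intro F hF
        induction hF using Submodule.span_induction with
        | zero => simp
        | add F G _ _ hF hG =>
          simp only [Pi.add_apply, add_mul, Finset.sum_add_distrib, hF, hG, add_zero]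
        | smul c F _ hF =>
          simp only [Pi.smul_apply, smul_eq_mul, mul_assoc, ← Finset.mul_sum, hF, mul_zero]
        | mem u hu =>
          obtain ⟨-, T, huE, hT⟩ := hu
          refine t18_orth p huE hE ?_
          rintro rfl
          omega
      apply hv0
      ext σ
      have h5 := (Finset.sum_eq_zero_iff_of_nonneg (fun σ _ => mul_self_nonneg _)).1
        (horth v hv) σ (Finset.mem_univ σ)
      simpa using h5
    obtain ⟨p', T', hT', hex'⟩ := t18_a J hJX hh V (hV.trans inf_le_left) hne hinv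
    obtain ⟨v, hv, hv0, hE⟩ := t18_conj p' p T' T' rfl V hinv hex'
    rcases le_or_gt T'.card (h - J / 2) with h3 | h3
    · exact hv0 (hocc' T' (by omega) h3 v hv hE)
    · have h4 : v ∈ Vp := Submodule.subset_span ⟨hv, T', hE, h3⟩
      rw [hbot, Submodule.mem_bot] at h4
      exact hv0 h4

end Pool.Agent.H9.Low
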