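import Pool.Agent.H9.Low.T3

/-!
# Quasirandomness: the convolution square of a nearly bounded density is close to level `UU`
-/

namespace Pool.Agent.H9.Low

open Equiv Finset

section lin
variable {Y : Type*} [Fintype Y]

/-- an orthonormal family spanning a subspace, with the Bessel inequality -/
theorem t19_onb (V : Submodule ℝ (Y → ℝ)) :
    ∃ e : Fin (Module.finrank ℝ V) → (Y → ℝ), (∀ i, e i ∈ V) ∧ (∀ i, ∑ y, e i y ^ 2 = 1) ∧
      ∀ r : Y → ℝ, ∑ i, (∑ y, r y * e i y) ^ 2 ≤ ∑ y, r y ^ 2 := by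
  classical
  let E := EuclideanSpace ℝ Y
  let Φ : E ≃ₗ[ℝ] (Y → ℝ) := (WithLp.linearEquiv 2 ℝ (Y → ℝ))
  have hin : ∀ x y : E, inner ℝ x y = ∑ i, Φ x i * Φ y i := by
    intro x y
    rw [PiLp.inner_apply]
    refine Finset.sum_congr rfl fun i _ => ?_
    simp only [RCLike.inner_apply, conj_trivial]
    exact mul_comm _ _
  let V' : Submodule ℝ E := V.comap (Φ : E →ₗ[ℝ] (Y → ℝ))
  have hfr : Module.finrank ℝ V' = Module.finrank ℝ V := by
    have h1 : V = V'.map (Φ : E →ₗ[ℝ] (Y → ℝ)) := by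
      ext x
      simp only [V', Submodule.mem_map, Submodule.mem_comap]
      constructor
      · intro hx
        exact ⟨Φ.symm x, by simpa using hx, by simp⟩
      · rintro ⟨y, hy, rfl⟩
        exact hy
    conv_rhs => rw [h1]
    exact (LinearEquiv.finrank_map_eq Φ V').symm
  let b := stdOrthonormalBasis ℝ V'
  have hb : Orthonormal ℝ (fun i => ((b i : V') : E)) :=
    b.orthonormal.comp_linearIsometry V'.subtypeₗᵢ
  let c : Fin (Module.finrank ℝ V) → Fin (Module.finrank ℝ V') := Fin.cast hfr.symm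
  refine ⟨fun i => Φ ((b (c i) : V') : E), fun i => (b (c i)).2, fun i => ?_, fun r => ?_⟩
  · have h1 := hb.1 (c i)
    have h2 : inner ℝ ((b (c i) : V') : E) ((b (c i) : V') : E) = (1 : ℝ) := by
      rw [real_inner_self_eq_norm_sq, h1]; norm_num
    rw [hin] at h2
    rw [← h2]
    exact Finset.sum_congr rfl fun y _ => pow_two _
  · have h1 := hb.sum_inner_products_le (Φ.symm r) (s := Finset.univ)
    have h2 : ‖Φ.symm r‖ ^ 2 = ∑ y, r y ^ 2 := by
      rw [← real_inner_self_eq_norm_sq, hin]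
      refine Finset.sum_congr rfl fun y _ => ?_
      rw [LinearEquiv.apply_symm_apply, pow_two]
    rw [h2] at h1
    refine le_trans (le_of_eq ?_) h1
    have h3 : ∀ i, ‖inner ℝ ((b i : V') : E) (Φ.symm r)‖ ^ 2
        = (∑ y, r y * Φ ((b i : V') : E) y) ^ 2 := by
      intro i
      rw [hin, Real.norm_eq_abs, sq_abs, LinearEquiv.apply_symm_apply]
      congr 1
      exact Finset.sum_congr rfl fun y _ => mul_comm _ _
    simp only [h3]
    exact Equiv.sum_comp (finCongr hfr.symm)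
      (fun i => (∑ y, r y * Φ ((b i : V') : E) y) ^ 2)

/-- orthogonal decomposition -/
theorem t19_decomp (U : Submodule ℝ (Y → ℝ)) (f : Y → ℝ) :
    ∃ a ∈ orth U, ∃ b ∈ U, ∀ y, f y = a y + b y := by
  classical
  let E := EuclideanSpace ℝ Y
  let Φ : E ≃ₗ[ℝ] (Y → ℝ) := (WithLp.linearEquiv 2 ℝ (Y → ℝ))
  have hin : ∀ x y : E, inner ℝ x y = ∑ i, Φ x i * Φ y i := by
    intro x y
    rw [PiLp.inner_apply]
    refine Finset.sum_congr rfl fun i _ => ?_
    simp only [RCLike.inner_apply, conj_trivial]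
    exact mul_comm _ _
  let U' : Submodule ℝ E := U.comap (Φ : E →ₗ[ℝ] (Y → ℝ))
  obtain ⟨b, hb, a, ha, hab⟩ := U'.exists_add_mem_mem_orthogonal (Φ.symm f)
  refine ⟨Φ a, ?_, Φ b, hb, fun y => ?_⟩
  · intro G hG
    have h1 : Φ.symm G ∈ U' := by
      change Φ (Φ.symm G) ∈ U
      simpa using hG
    have h2 := (Submodule.mem_orthogonal U' a).1 ha _ h1
    rw [hin, LinearEquiv.apply_symm_apply] at h2
    rw [← h2]
    exact Finset.sum_congr rfl fun y _ => mul_comm _ _
  · have h1 := congrArg Φ hab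
    rw [LinearEquiv.apply_symm_apply, map_add] at h1
    rw [h1, Pi.add_apply, add_comm]

end lin

section cvs
variable {G : Type*} [Group G] [Fintype G]

theorem t19_sum_ipr {Y : Type*} [Fintype Y] [Nonempty Y] (f g : Y → ℝ) :
    ∑ y, f y * g y = Fintype.card Y * ipr f g := by
  unfold ipr av
  have hc : (Fintype.card Y : ℝ) ≠ 0 := by exact_mod_cast Fintype.card_ne_zero
  field_simp

theorem t19_cv_add_left (f f' h : G → ℝ) (σ : G) :
    cv (fun σ => f σ + f' σ) h σ = cv f h σ + cv f' h σ := by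
  unfold cv
  rw [← av_add]
  congr 1; ext g; ring

theorem t19_av_abs_cv (f h : G → ℝ) :
    av (fun σ => |cv f h σ|) ≤ av (fun σ => |f σ|) * av (fun σ => |h σ|) := by
  calc av (fun σ => |cv f h σ|)
      ≤ av (fun σ => av fun g => |f (σ * g⁻¹)| * |h g|) := by
        refine av_le_av fun σ => (av_abs_le _).trans (le_of_eq ?_)
        congr 1; ext g; exact abs_mul _ _
    _ = av (fun g => av (fun σ => |f (σ * g⁻¹)| * |h g|)) := av_comm _
    _ = av (fun g => av (fun σ => |f σ|) * |h g|) := by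
        congr 1; ext g
        rw [av_mul_right, av_mulRight g⁻¹ (fun σ => |f σ|)]
    _ = _ := av_mul_left _ _

/-- convolution from the right as a linear map -/
noncomputable def t19A (h : G → ℝ) : (G → ℝ) →ₗ[ℝ] (G → ℝ) where
  toFun F := cv F h
  map_add' F F' := by ext σ; exact t19_cv_add_left F F' h σ
  map_smul' c F := by
    ext σ
    simp only [RingHom.id_apply, Pi.smul_apply, smul_eq_mul]
    unfold cv
    rw [← av_mul_left]
    congr 1; ext g
    simp only [Pi.smul_apply, smul_eq_mul]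
    ring

theorem t19_adj (f h k : G → ℝ) : ipr (cv f h) k = ipr f (cv k fun g => h g⁻¹) := by
  have e1 : ipr (cv f h) k = av fun g => av fun σ => (f (σ * g⁻¹) * h g) * k σ := by
    unfold ipr cv
    rw [av_comm]
    congr 1; ext σ
    rw [av_mul_right]
  have e2 : ipr f (cv k fun g => h g⁻¹)
      = av fun g => av fun σ => f σ * (k (σ * g⁻¹) * h g⁻¹) := by
    unfold ipr cv
    rw [av_comm]
    congr 1; ext σ
    rw [av_mul_left]
  rw [e1, e2, ← av_inv (fun g => av fun σ => (f (σ * g⁻¹) * h g) * k σ)]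
  congr 1; ext g
  rw [← av_mulRight g⁻¹ (fun σ => f (σ * g⁻¹⁻¹) * h g⁻¹ * k σ)]
  congr 1; ext σ
  rw [inv_inv, inv_mul_cancel_right]
  ring

theorem t19_cv_eq_avR (F h : G → ℝ) (σ : G) : cv F h σ = av fun g => h g * R g F σ := by
  unfold cv R
  congr 1; ext g; ring

/-- convolution with a sub-density is a contraction -/
theorem t19_nsq_cv_le (F h : G → ℝ) (h0 : ∀ g, 0 ≤ h g) (h1 : av h ≤ 1) :
    nsq (cv F h) ≤ nsq F := by
  have key : ∀ σ, cv F h σ ^ 2 ≤ av fun g => h g * (R g F σ) ^ 2 := by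
    intro σ
    rw [t19_cv_eq_avR]
    have hh : (av fun g => h g * R g F σ) ^ 2 ≤ av h * av fun g => h g * (R g F σ) ^ 2 := by
      have h2 := ipr_sq_le (fun g => √(h g)) (fun g => √(h g) * R g F σ)
      have e1 : ipr (fun g => √(h g)) (fun g => √(h g) * R g F σ)
          = av fun g => h g * R g F σ := by
        unfold ipr
        congr 1; ext g
        rw [← mul_assoc, Real.mul_self_sqrt (h0 g)]
      have e2 : nsq (fun g => √(h g)) = av h := by
        unfold nsq
        congr 1; ext g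
        exact Real.sq_sqrt (h0 g)
      have e3 : nsq (fun g => √(h g) * R g F σ) = av fun g => h g * (R g F σ) ^ 2 := by
        unfold nsq
        congr 1; ext g
        rw [mul_pow, Real.sq_sqrt (h0 g)]
      rwa [e1, e2, e3] at h2
    refine hh.trans ?_
    have hnn : 0 ≤ av fun g => h g * (R g F σ) ^ 2 :=
      av_nonneg fun g => mul_nonneg (h0 g) (sq_nonneg _)
    exact mul_le_of_le_one_left hnn h1
  calc nsq (cv F h) ≤ av fun σ => av fun g => h g * (R g F σ) ^ 2 := av_le_av key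
    _ = av fun g => av fun σ => h g * (R g F σ) ^ 2 := av_comm _
    _ = av fun g => h g * nsq F := by
        congr 1; ext g
        rw [av_mul_left]
        congr 1
        exact nsq_R g F
    _ = av h * nsq F := av_mul_right _ _
    _ ≤ nsq F := mul_le_of_le_one_left (nsq_nonneg _) h1

/-- the Hilbert-Schmidt bound for the convolution operator -/
theorem t19_HS (h : G → ℝ) {n : ℕ} (e : Fin n → G → ℝ)
    (he : ∀ r : G → ℝ, ∑ i, (∑ y, r y * e i y) ^ 2 ≤ ∑ y, r y ^ 2) :
    ∑ i, ∑ σ, cv (e i) h σ ^ 2 ≤ nsq h := by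
  have hc : (0 : ℝ) < Fintype.card G := by exact_mod_cast Fintype.card_pos
  rw [Finset.sum_comm]
  have hrow : ∀ σ : G, ∑ i, cv (e i) h σ ^ 2 ≤ (Fintype.card G : ℝ)⁻¹ * nsq h := by
    intro σ
    have h1 := he fun τ => (Fintype.card G : ℝ)⁻¹ * h (τ⁻¹ * σ)
    have e1 : ∀ i, (∑ τ, (Fintype.card G : ℝ)⁻¹ * h (τ⁻¹ * σ) * e i τ) = cv (e i) h σ := by
      intro i
      unfold cv av
      rw [div_eq_inv_mul, Finset.mul_sum]
      rw [← Equiv.sum_comp ((Equiv.inv G).trans (Equiv.mulLeft σ))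
        (fun τ => (Fintype.card G : ℝ)⁻¹ * h (τ⁻¹ * σ) * e i τ)]
      refine Finset.sum_congr rfl fun g _ => ?_
      simp only [Equiv.trans_apply, Equiv.inv_apply, Equiv.coe_mulLeft]
      have : (σ * g⁻¹)⁻¹ * σ = g := by group
      rw [this]; ring
    simp only [e1] at h1
    refine h1.trans (le_of_eq ?_)
    unfold nsq av
    rw [div_eq_inv_mul, ← mul_assoc, Finset.mul_sum]
    rw [← Equiv.sum_comp ((Equiv.inv G).trans (Equiv.mulLeft σ))
      (fun τ => ((Fintype.card G : ℝ)⁻¹ * h (τ⁻¹ * σ)) ^ 2)]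
    refine Finset.sum_congr rfl fun g _ => ?_
    simp only [Equiv.trans_apply, Equiv.inv_apply, Equiv.coe_mulLeft]
    have : (σ * g⁻¹)⁻¹ * σ = g := by group
    rw [this]; ring
  calc ∑ σ, ∑ i, cv (e i) h σ ^ 2 ≤ ∑ _σ : G, (Fintype.card G : ℝ)⁻¹ * nsq h :=
        Finset.sum_le_sum fun σ _ => hrow σ
    _ = nsq h := by
        rw [Finset.sum_const, Finset.card_univ, nsmul_eq_mul]
        field_simp

theorem t19_Lt_cv (g : G) (F h : G → ℝ) : Lt g (cv F h) = cv (Lt g F) h := by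
  ext σ
  unfold Lt cv
  congr 1; ext k
  rw [mul_assoc]

end cvs

section perm
variable {X : Type*} [Fintype X] [DecidableEq X]

theorem t19_mg_R {J : ℕ} (g : Perm X) (F : Perm X → ℝ) (x z : Fin J ↪ X) :
    mg (R g F) x z = mg F (x.trans g.toEmbedding) z := by
  unfold mg
  rw [← Equiv.sum_comp (Equiv.mulRight g)
    (fun σ => if ∀ i, σ (x i) = z i then R g F σ else 0)]
  refine Finset.sum_congr rfl fun σ _ => ?_
  simp only [Equiv.coe_mulRight, R, mul_inv_cancel_right, Perm.mul_apply,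
    Function.Embedding.trans_apply, Equiv.coe_toEmbedding]

theorem t19_HighS_R (J : ℕ) (g : Perm X) {F : Perm X → ℝ} (hF : F ∈ HighS X J) :
    R g F ∈ HighS X J := by
  intro x z
  rw [t19_mg_R]
  exact hF _ _

theorem t19_sgt_R (g : Perm X) (F : Perm X → ℝ) : sgt (R g F) = sgr g • R g (sgt F) := by
  ext σ
  simp only [sgt, R, Pi.smul_apply, smul_eq_mul]
  have h1 : sgr (σ * g⁻¹) = sgr σ * sgr g := by
    unfold sgr
    rw [Perm.sign_mul, Perm.sign_inv]
    push_cast
    rfl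
  have h2 : sgr g * sgr g = 1 := by
    unfold sgr
    exact_mod_cast Int.units_coe_mul_self (Perm.sign g)
  rw [h1]
  calc sgr σ * F (σ * g⁻¹) = (sgr g * sgr g) * (sgr σ * F (σ * g⁻¹)) := by rw [h2, one_mul]
    _ = _ := by ring

theorem t19_HH_R (J : ℕ) (g : Perm X) {F : Perm X → ℝ} (hF : F ∈ HH X J) :
    R g F ∈ HH X J := by
  refine ⟨t19_HighS_R J g hF.1, ?_⟩
  change sgt (R g F) ∈ HighS X J
  rw [t19_sgt_R]
  exact Submodule.smul_mem _ _ (t19_HighS_R J g hF.2)

theorem t19_UU_R (J : ℕ) (g : Perm X) {F : Perm X → ℝ} (hF : F ∈ UU X J) :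
    R g F ∈ UU X J := by
  intro G hG
  have h1 := hF _ (t19_HH_R J g⁻¹ hG)
  rw [t19_sum_ipr] at h1 ⊢
  rw [ipr_R_left]
  exact h1

/-- subspaces invariant under right translations are invariant under convolution -/
theorem t19_cv_mem (U : Submodule ℝ (Perm X → ℝ))
    (hU : ∀ (g : Perm X) (F : Perm X → ℝ), F ∈ U → R g F ∈ U) (h : Perm X → ℝ)
    {F : Perm X → ℝ} (hF : F ∈ U) : cv F h ∈ U := by
  have e : cv F h = ∑ g : Perm X, ((Fintype.card (Perm X) : ℝ)⁻¹ * h g) • R g F := by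
    ext σ
    rw [t19_cv_eq_avR]
    unfold av
    rw [div_eq_inv_mul, Finset.mul_sum, Finset.sum_apply]
    refine Finset.sum_congr rfl fun g _ => ?_
    simp only [Pi.smul_apply, smul_eq_mul]
    ring
  rw [e]
  exact Submodule.sum_mem _ fun g _ => Submodule.smul_mem _ _ (hU g F hF)

theorem t19_HH_Lt (J : ℕ) (g : Perm X) {F : Perm X → ℝ} (hF : F ∈ HH X J) :
    Lt g F ∈ HH X J := by
  have hmg : ∀ (F : Perm X → ℝ) (x z : Fin J ↪ X),
      mg (Lt g F) x z = mg F x (z.trans g.toEmbedding) := by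
    intro F x z
    unfold mg
    rw [← Equiv.sum_comp (Equiv.mulLeft g)
      (fun σ => if ∀ i, σ (x i) = (z.trans g.toEmbedding) i then F σ else 0)]
    refine Finset.sum_congr rfl fun σ _ => ?_
    simp only [Equiv.coe_mulLeft, Lt, Perm.mul_apply, Function.Embedding.trans_apply,
      Equiv.coe_toEmbedding, EmbeddingLike.apply_eq_iff_eq]
  have hsg : sgt (Lt g F) = sgr g • Lt g (sgt F) := by
    ext σ
    simp only [sgt, Lt, Pi.smul_apply, smul_eq_mul]
    have h1 : sgr (g * σ) = sgr g * sgr σ := by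
      unfold sgr
      rw [Perm.sign_mul]
      push_cast
      rfl
    have h2 : sgr g * sgr g = 1 := by
      unfold sgr
      exact_mod_cast Int.units_coe_mul_self (Perm.sign g)
    rw [h1]
    calc sgr σ * F (g * σ) = (sgr g * sgr g) * (sgr σ * F (g * σ)) := by rw [h2, one_mul]
      _ = _ := by ring
  refine ⟨fun x z => ?_, ?_⟩
  · rw [hmg]
    exact hF.1 _ _
  · change sgt (Lt g F) ∈ HighS X J
    rw [hsg]
    refine Submodule.smul_mem _ _ fun x z => ?_
    rw [hmg]
    exact hF.2 _ _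

end perm

theorem quasi {X : Type} [Fintype X] [DecidableEq X] (J D : ℕ) (hD0 : 0 < D)
    (hD : ∀ V : Submodule ℝ (Perm X → ℝ), V ≤ HH X J → V ≠ ⊥ →
      (∀ (g : Perm X) (F : Perm X → ℝ), F ∈ V → Lt g F ∈ V) → D ≤ Module.finrank ℝ V)
    (f ρ : Perm X → ℝ) (C ε : ℝ) (hC : 1 ≤ C) (hf : Dens f) (hρ : ∀ σ, 0 ≤ ρ σ)
    (hρ1 : av ρ ≤ ε) (hfC : ∀ σ, f σ ≤ C + ρ σ) :
    ∃ low ∈ UU X J, nsq low ≤ C ∧ av (fun σ => |cv f f σ - low σ|) ≤ 2 * ε + C / √D := by
  have hDr : (0 : ℝ) < D := by exact_mod_cast hD0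
  have hC0 : (0 : ℝ) ≤ C := by linarith
  -- truncation
  let f1 : Perm X → ℝ := fun σ => min (f σ) C
  have f1nn : ∀ σ, 0 ≤ f1 σ := fun σ => le_min (hf.1 σ) hC0
  have f1le : ∀ σ, f1 σ ≤ f σ := fun σ => min_le_left _ _
  have f1C : ∀ σ, f1 σ ≤ C := fun σ => min_le_right _ _
  have hav1 : av f1 ≤ 1 := by rw [← hf.2]; exact av_le_av f1le
  have hd : ∀ σ, |f σ - f1 σ| ≤ ρ σ := by
    intro σ
    rw [abs_of_nonneg (sub_nonneg.2 (f1le σ))]
    have h1 := hfC σ
    rcases le_total (f σ) C with h | h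
    · have : f1 σ = f σ := min_eq_left h
      rw [this, sub_self]; exact hρ σ
    · have : f1 σ = C := min_eq_right h
      rw [this]; linarith
  have hdav : av (fun σ => |f σ - f1 σ|) ≤ ε := (av_le_av hd).trans hρ1
  have hnsq1 : nsq f1 ≤ C := by
    calc nsq f1 ≤ av (fun σ => C * f1 σ) := by
          refine av_le_av fun σ => ?_
          rw [pow_two]
          exact mul_le_mul_of_nonneg_right (f1C σ) (f1nn σ)
      _ = C * av f1 := av_mul_left _ _
      _ ≤ C := mul_le_of_le_one_right hC0 hav1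
  -- the operator
  let f1' : Perm X → ℝ := fun g => f1 g⁻¹
  let M : (Perm X → ℝ) →ₗ[ℝ] (Perm X → ℝ) := t19A f1' ∘ₗ t19A f1
  have hM : ∀ F, M F = cv (cv F f1) f1' := fun F => rfl
  have hMipr : ∀ F F' : Perm X → ℝ, ipr F (M F') = ipr (cv F f1) (cv F' f1) := by
    intro F F'
    rw [hM, t19_adj F f1 (cv F' f1)]
  have hsym : ∀ F F' : Perm X → ℝ, ∑ y, M F y * F' y = ∑ y, F y * M F' y := by
    intro F F'
    rw [t19_sum_ipr, t19_sum_ipr, ipr_comm (M F) F', hMipr, hMipr, ipr_comm]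
  have hUinv : ∀ F ∈ HH X J, M F ∈ HH X J := by
    intro F hF
    rw [hM]
    exact t19_cv_mem _ (fun g F hF => t19_HH_R J g hF) _
      (t19_cv_mem _ (fun g F hF => t19_HH_R J g hF) _ hF)
  have hev : ∀ F ∈ HH X J, F ≠ 0 → ∀ l : ℝ, M F = l • F → l ≤ C / D := by
    intro F hF hF0 l hl
    rcases le_or_gt l 0 with hl0 | hl0
    · exact hl0.trans (by positivity)
    let V : Submodule ℝ (Perm X → ℝ) := HH X J ⊓ LinearMap.ker (M - l • LinearMap.id)
    have hVmem : ∀ F', F' ∈ V ↔ F' ∈ HH X J ∧ M F' = l • F' := by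
      intro F'
      simp only [V, Submodule.mem_inf, LinearMap.mem_ker, LinearMap.sub_apply,
        LinearMap.smul_apply, LinearMap.id_apply, sub_eq_zero]
    have hVle : V ≤ HH X J := inf_le_left
    have hVne : V ≠ ⊥ := by
      intro hbot
      have : F ∈ V := (hVmem F).2 ⟨hF, hl⟩
      rw [hbot, Submodule.mem_bot] at this
      exact hF0 this
    have hVinv : ∀ (g : Perm X) (F : Perm X → ℝ), F ∈ V → Lt g F ∈ V := by
      intro g F' hF'
      rw [hVmem] at hF' ⊢
      refine ⟨t19_HH_Lt J g hF'.1, ?_⟩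
      rw [hM, ← t19_Lt_cv, ← t19_Lt_cv, ← hM, hF'.2]
      rfl
    have hdim := hD V hVle hVne hVinv
    obtain ⟨e, heV, he1, heB⟩ := t19_onb V
    have hHS := t19_HS f1 e heB
    have hsum : ∀ i, ∑ σ, cv (e i) f1 σ ^ 2 = l := by
      intro i
      have h1 : ∑ σ, cv (e i) f1 σ ^ 2 = ∑ y, e i y * M (e i) y := by
        rw [t19_sum_ipr, hMipr, ← t19_sum_ipr]
        exact Finset.sum_congr rfl fun y _ => pow_two _
      rw [h1, ((hVmem (e i)).1 (heV i)).2]
      simp only [Pi.smul_apply, smul_eq_mul]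
      calc ∑ y, e i y * (l * e i y) = l * ∑ y, e i y ^ 2 := by
            rw [Finset.mul_sum]
            exact Finset.sum_congr rfl fun y _ => by ring
        _ = l := by rw [he1, mul_one]
    simp only [hsum] at hHS
    rw [Finset.sum_const, Finset.card_univ, Fintype.card_fin, nsmul_eq_mul] at hHS
    have h3 : (D : ℝ) ≤ Module.finrank ℝ V := by exact_mod_cast hdim
    rw [le_div_iff₀ hDr]
    calc l * D ≤ l * Module.finrank ℝ V := mul_le_mul_of_nonneg_left h3 hl0.le
      _ = Module.finrank ℝ V * l := mul_comm _ _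
      _ ≤ nsq f1 := hHS
      _ ≤ C := hnsq1
  have htev := tev M hsym (HH X J) hUinv (C / D) hev
  -- decomposition
  obtain ⟨a, ha, b, hb, hab⟩ := t19_decomp (HH X J) f1
  have horth : ipr a b = 0 := by
    have h1 := ha b hb
    rw [t19_sum_ipr] at h1
    have hc : (Fintype.card (Perm X) : ℝ) ≠ 0 := by exact_mod_cast Fintype.card_ne_zero
    rcases mul_eq_zero.1 h1 with h | h
    · exact absurd h hc
    · exact h
  have hpyth : nsq f1 = nsq a + nsq b := by
    have e1 : f1 = fun y => a y + b y := funext hab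
    rw [e1, nsq_add, horth]; ring
  have hnb : nsq b ≤ C := by
    have := nsq_nonneg a
    linarith
  have hna : nsq a ≤ C := by
    have := nsq_nonneg b
    linarith
  have hAb : nsq (cv b f1) ≤ C / D * nsq b := by
    have h1 := htev b hb
    have hc : (0 : ℝ) < Fintype.card (Perm X) := by exact_mod_cast Fintype.card_pos
    have h2 : ∑ y, b y ^ 2 = Fintype.card (Perm X) * nsq b := by
      rw [nsq_eq_ipr, ← t19_sum_ipr]
      exact Finset.sum_congr rfl fun y _ => pow_two _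
    rw [t19_sum_ipr, hMipr, h2, ← nsq_eq_ipr] at h1
    have h3 : (Fintype.card (Perm X) : ℝ) * nsq (cv b f1)
        ≤ Fintype.card (Perm X) * (C / D * nsq b) := by
      calc _ ≤ _ := h1
        _ = _ := by ring
    exact le_of_mul_le_mul_left h3 hc
  refine ⟨cv a f1, t19_cv_mem _ (fun g F hF => t19_UU_R J g hF) _ ha,
    (t19_nsq_cv_le a f1 f1nn hav1).trans hna, ?_⟩
  -- the estimate
  have hdec : ∀ σ, cv f f σ - cv a f1 σ
      = cv (fun σ => f σ - f1 σ) f σ + cv f1 (fun σ => f σ - f1 σ) σ + cv b f1 σ := by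
    intro σ
    have e1 : cv (fun σ => f σ - f1 σ) f σ = cv f f σ - cv f1 f σ := by
      unfold cv; rw [← av_sub]; congr 1; ext g; ring
    have e2 : cv f1 (fun σ => f σ - f1 σ) σ = cv f1 f σ - cv f1 f1 σ := by
      unfold cv; rw [← av_sub]; congr 1; ext g; ring
    have e3 : cv f1 f1 σ = cv a f1 σ + cv b f1 σ := by
      rw [← t19_cv_add_left]
      have e1 : f1 = fun y => a y + b y := funext hab
      conv_lhs => rw [e1]
      unfold cv
      congr 1; ext g
      rw [hab g]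
    rw [e1, e2]
    linarith
  have hf1av : av (fun σ => |f σ|) = 1 := by
    rw [← hf.2]; congr 1; ext σ; exact abs_of_nonneg (hf.1 σ)
  have hf1av' : av (fun σ => |f1 σ|) ≤ 1 := by
    have : (fun σ => |f1 σ|) = f1 := by ext σ; exact abs_of_nonneg (f1nn σ)
    rw [this]; exact hav1
  have hdnn : 0 ≤ av (fun σ => |f σ - f1 σ|) := av_nonneg fun σ => abs_nonneg _
  have h1 : av (fun σ => |cv (fun σ => f σ - f1 σ) f σ|) ≤ ε := by
    refine (t19_av_abs_cv _ _).trans ?_
    rw [hf1av, mul_one]; exact hdav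
  have h2 : av (fun σ => |cv f1 (fun σ => f σ - f1 σ) σ|) ≤ ε := by
    refine (t19_av_abs_cv _ _).trans ?_
    calc av (fun σ => |f1 σ|) * av (fun σ => |f σ - f1 σ|)
        ≤ 1 * av (fun σ => |f σ - f1 σ|) := mul_le_mul_of_nonneg_right hf1av' hdnn
      _ ≤ ε := by rw [one_mul]; exact hdav
  have h3 : av (fun σ => |cv b f1 σ|) ≤ C / √D := by
    refine (av_abs_le_sqrt _).trans ?_
    have : nsq (cv b f1) ≤ (C / √D) ^ 2 := by
      rw [div_pow, Real.sq_sqrt hDr.le]
      calc nsq (cv b f1) ≤ C / D * nsq b := hAb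
        _ ≤ C / D * C := mul_le_mul_of_nonneg_left hnb (by positivity)
        _ = C ^ 2 / D := by ring
    calc √(nsq (cv b f1)) ≤ √((C / √D) ^ 2) := Real.sqrt_le_sqrt this
      _ = C / √D := Real.sqrt_sq (by positivity)
  calc av (fun σ => |cv f f σ - cv a f1 σ|)
      ≤ av (fun σ => |cv (fun σ => f σ - f1 σ) f σ| + |cv f1 (fun σ => f σ - f1 σ) σ|
          + |cv b f1 σ|) := by
        refine av_le_av fun σ => ?_
        rw [hdec σ]
        exact (abs_add_le _ _).trans (add_le_add_left (abs_add_le _ _) _)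
    _ = av (fun σ => |cv (fun σ => f σ - f1 σ) f σ|)
        + av (fun σ => |cv f1 (fun σ => f σ - f1 σ) σ|) + av (fun σ => |cv b f1 σ|) := by
        rw [av_add, av_add]
    _ ≤ 2 * ε + C / √D := by linarith

end Pool.Agent.H9.Low
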