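import Pool.Agent.H9.Low.Basic

/-!
# T20: discrepancy of the modified walk by weights of positions
-/

namespace Pool.Agent.H9.Low

open Equiv Finset

theorem t20_ite {p q : Prop} [Decidable p] [Decidable q] (h : p ↔ q) (a : ℝ) :
    (if p then a else 0) = a * (if q then 1 else 0) := by
  by_cases hp : p
  · rw [if_pos hp, if_pos (h.mp hp), mul_one]
  · rw [if_neg hp, if_neg (fun hq => hp (h.mpr hq)), mul_zero]

theorem t20_ite' {p q : Prop} [Decidable p] [Decidable q] (h : p ↔ q) (a : ℝ) :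
    (if p then a else 0) = (if q then a else 0) := by
  by_cases hp : p
  · rw [if_pos hp, if_pos (h.mp hp)]
  · rw [if_neg hp, if_neg (fun hq => hp (h.mpr hq))]

theorem t20_inv {X : Type*} (g : Perm X) (a : X) : g⁻¹ (g a) = a := by
  rw [← Perm.mul_apply, inv_mul_cancel]; rfl

/-- the average over permutations of a function of one value -/
theorem t20_av_perm {X : Type*} [Fintype X] [DecidableEq X] (g : X → ℝ) (y : X) :
    av (fun k : Perm X => g (k y)) = av g := by
  have hne : Nonempty X := ⟨y⟩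
  have h1 : ∀ y' : X, av (fun k : Perm X => g (k y')) = av (fun k : Perm X => g (k y)) := by
    intro y'
    have h := av_mulRight (swap y' y) (fun k : Perm X => g (k y'))
    rw [← h]
    congr 1
    ext k
    rw [Perm.mul_apply, swap_apply_left]
  have h2 : av (fun y' : X => av (fun k : Perm X => g (k y'))) = av (fun k : Perm X => g (k y)) := by
    simp only [h1]
    exact av_const _
  rw [← h2, av_comm]
  have h3 : ∀ k : Perm X, av (fun y' : X => g (k y')) = av g := fun k => av_comp_equiv k g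
  simp only [h3]
  exact av_const _

/-- matching of the bulk -/
theorem t20_match {β γ : Type} [Fintype β] [DecidableEq β] [Fintype γ] [DecidableEq γ]
    (τ : Perm (β ⊕ γ)) :
    ∃ h0 : Perm β, (∑ x : β, if τ (Sum.inl x) ≠ Sum.inl (h0 x) then (1 : ℝ) else 0) ≤
      ∑ y : γ, if τ (Sum.inr y) ≠ Sum.inr y then (1 : ℝ) else 0 := by
  classical
  have hk : ∀ (τ : Perm (β ⊕ γ)) (x : β) (h : (τ (Sum.inl x)).isLeft = true),
      (Sum.inl ((τ (Sum.inl x)).getLeft h) : β ⊕ γ) = τ (Sum.inl x) :=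
    fun τ x h => Sum.inl_getLeft _ h
  let e : {x : β // (τ (Sum.inl x)).isLeft = true} ≃
      {x : β // (τ.symm (Sum.inl x)).isLeft = true} :=
    { toFun := fun x => ⟨(τ (Sum.inl x.1)).getLeft x.2, by
        rw [hk τ x.1 x.2, Equiv.symm_apply_apply]; rfl⟩
      invFun := fun x => ⟨(τ.symm (Sum.inl x.1)).getLeft x.2, by
        rw [hk τ.symm x.1 x.2, Equiv.apply_symm_apply]; rfl⟩
      left_inv := fun x => by
        apply Subtype.ext
        have h : (Sum.inl ((τ.symm (Sum.inl ((τ (Sum.inl x.1)).getLeft x.2))).getLeft (by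
          rw [hk τ x.1 x.2, Equiv.symm_apply_apply]; rfl)) : β ⊕ γ) = Sum.inl x.1 := by
          rw [hk, hk, Equiv.symm_apply_apply]
        exact Sum.inl_injective h
      right_inv := fun x => by
        apply Subtype.ext
        have h : (Sum.inl ((τ (Sum.inl ((τ.symm (Sum.inl x.1)).getLeft x.2))).getLeft (by
          rw [hk τ.symm x.1 x.2, Equiv.apply_symm_apply]; rfl)) : β ⊕ γ) = Sum.inl x.1 := by
          rw [hk, hk, Equiv.apply_symm_apply]
        exact Sum.inl_injective h }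
  refine ⟨e.extendSubtype, ?_⟩
  have h1 : ∀ x : β, (if τ (Sum.inl x) ≠ Sum.inl (e.extendSubtype x) then (1 : ℝ) else 0) ≤
      1 - (if (τ (Sum.inl x)).isLeft = true then (1 : ℝ) else 0) := by
    intro x
    by_cases hx : (τ (Sum.inl x)).isLeft = true
    · have h : τ (Sum.inl x) = Sum.inl (e.extendSubtype x) := by
        rw [e.extendSubtype_apply_of_mem x hx]
        exact (hk τ x hx).symm
      rw [if_neg (by rw [not_not]; exact h), if_pos hx]; norm_num
    · rw [if_neg hx]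
      split_ifs <;> norm_num
  have h2 : ∀ y : γ, (if (τ (Sum.inr y)).isLeft = true then (1 : ℝ) else 0) ≤
      (if τ (Sum.inr y) ≠ Sum.inr y then (1 : ℝ) else 0) := by
    intro y
    by_cases hy : (τ (Sum.inr y)).isLeft = true
    · rw [if_pos hy, if_pos]
      intro h
      rw [h] at hy
      simp at hy
    · rw [if_neg hy]; split_ifs <;> norm_num
  have h3 : ∑ z : β ⊕ γ, (if (τ z).isLeft = true then (1 : ℝ) else 0) =
      ∑ z : β ⊕ γ, (if z.isLeft = true then (1 : ℝ) else 0) :=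
    Equiv.sum_comp τ (fun z : β ⊕ γ => if z.isLeft = true then (1 : ℝ) else 0)
  rw [Fintype.sum_sum_type, Fintype.sum_sum_type] at h3
  simp only [Sum.isLeft_inl, Sum.isLeft_inr, if_true, Bool.false_eq_true, if_false,
    Finset.sum_const_zero, add_zero] at h3
  calc (∑ x : β, if τ (Sum.inl x) ≠ Sum.inl (e.extendSubtype x) then (1 : ℝ) else 0)
      ≤ ∑ x : β, (1 - (if (τ (Sum.inl x)).isLeft = true then (1 : ℝ) else 0)) :=
        Finset.sum_le_sum fun x _ => h1 x
    _ = ∑ y : γ, (if (τ (Sum.inr y)).isLeft = true then (1 : ℝ) else 0) := by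
        rw [Finset.sum_sub_distrib]; linarith
    _ ≤ _ := Finset.sum_le_sum fun y _ => h2 y

/-- weights after averaging over the bulk -/
noncomputable def t20_E {β γ : Type} [Fintype β] (Ω : β ⊕ γ → ℝ) : β ⊕ γ → ℝ :=
  Sum.elim (fun _ => 0) (fun y => Ω (Sum.inr y) + (∑ x, Ω (Sum.inl x)) / (Fintype.card β : ℝ))

theorem t20_EK {β γ : Type} [Fintype β] [DecidableEq β] [Fintype γ] [DecidableEq γ]
    (φ : Perm (β ⊕ γ) → ℝ) (Ω : β ⊕ γ → ℝ) (hΩ : ∀ a, 0 ≤ Ω a) (h : Wt φ Ω) :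
    Wt (EK (inlP β γ) φ) (t20_E Ω) := by
  intro σ σ'
  obtain ⟨h0, hh0⟩ := t20_match (σ'⁻¹ * σ)
  have e1 : ∀ x : β, ((σ'⁻¹ * σ) (Sum.inl x) ≠ Sum.inl (h0 x)) ↔
      (σ (Sum.inl x) ≠ σ' (Sum.inl (h0 x))) := by
    intro x
    rw [Perm.mul_apply, Ne, Ne, Perm.inv_eq_iff_eq]
  have e2 : ∀ y : γ, ((σ'⁻¹ * σ) (Sum.inr y) ≠ Sum.inr y) ↔
      (σ (Sum.inr y) ≠ σ' (Sum.inr y)) := by
    intro y
    rw [Perm.mul_apply, Ne, Ne, Perm.inv_eq_iff_eq]
  simp only [e1, e2] at hh0
  have h1 : EK (inlP β γ) φ σ' = av fun k : Perm β => φ (σ' * inlP β γ (h0 * k)) := by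
    unfold EK
    exact (av_mulLeft h0 (fun k : Perm β => φ (σ' * inlP β γ k))).symm
  have h2 : |EK (inlP β γ) φ σ - EK (inlP β γ) φ σ'| ≤
      av fun k : Perm β => ∑ a, if (σ * inlP β γ k) a ≠ (σ' * inlP β γ (h0 * k)) a
        then Ω a else 0 := by
    rw [h1]
    unfold EK
    rw [← av_sub]
    exact (av_abs_le _).trans (av_le_av fun k => h _ _)
  refine h2.trans ?_
  have h3 : ∀ k : Perm β, (∑ a, if (σ * inlP β γ k) a ≠ (σ' * inlP β γ (h0 * k)) a
        then Ω a else 0) =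
      (∑ x, Ω (Sum.inl x) * (fun x' : β => if σ (Sum.inl x') ≠ σ' (Sum.inl (h0 x'))
        then (1 : ℝ) else 0) (k x)) +
      ∑ y, if σ (Sum.inr y) ≠ σ' (Sum.inr y) then Ω (Sum.inr y) else 0 := by
    intro k
    rw [Fintype.sum_sum_type]
    congr 1
    refine Finset.sum_congr rfl fun x _ => ?_
    exact t20_ite Iff.rfl _
  simp only [h3]
  rw [av_add, av_sum]
  have h4 : ∀ x : β, av (fun k : Perm β => Ω (Sum.inl x) *
      (fun x' : β => if σ (Sum.inl x') ≠ σ' (Sum.inl (h0 x')) then (1 : ℝ) else 0) (k x)) =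
      Ω (Sum.inl x) * ((∑ x' : β, if σ (Sum.inl x') ≠ σ' (Sum.inl (h0 x'))
        then (1 : ℝ) else 0) / (Fintype.card β : ℝ)) := by
    intro x
    rw [av_mul_left, t20_av_perm (fun x' : β => if σ (Sum.inl x') ≠ σ' (Sum.inl (h0 x'))
      then (1 : ℝ) else 0) x]
    rfl
  rw [Finset.sum_congr rfl fun x _ => h4 x, av_const, ← Finset.sum_mul, Fintype.sum_sum_type]
  simp only [t20_E, Sum.elim_inl, Sum.elim_inr, ite_self, Finset.sum_const_zero, zero_add]
  have h5 : (∑ y : γ, if σ (Sum.inr y) ≠ σ' (Sum.inr y) then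
      Ω (Sum.inr y) + (∑ x, Ω (Sum.inl x)) / (Fintype.card β : ℝ) else 0) =
      (∑ y : γ, if σ (Sum.inr y) ≠ σ' (Sum.inr y) then Ω (Sum.inr y) else 0) +
      (∑ y : γ, if σ (Sum.inr y) ≠ σ' (Sum.inr y) then (1 : ℝ) else 0) *
        ((∑ x, Ω (Sum.inl x)) / (Fintype.card β : ℝ)) := by
    rw [Finset.sum_mul, ← Finset.sum_add_distrib]
    refine Finset.sum_congr rfl fun y _ => ?_
    split_ifs <;> simp
  rw [h5, add_comm]
  refine add_le_add le_rfl ?_
  have h6 : 0 ≤ (∑ x, Ω (Sum.inl x)) / (Fintype.card β : ℝ) :=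
    div_nonneg (Finset.sum_nonneg fun x _ => hΩ _) (Nat.cast_nonneg _)
  calc (∑ x, Ω (Sum.inl x)) * ((∑ x' : β, if σ (Sum.inl x') ≠ σ' (Sum.inl (h0 x'))
        then (1 : ℝ) else 0) / (Fintype.card β : ℝ))
      = (∑ x' : β, if σ (Sum.inl x') ≠ σ' (Sum.inl (h0 x')) then (1 : ℝ) else 0) *
        ((∑ x, Ω (Sum.inl x)) / (Fintype.card β : ℝ)) := by ring
    _ ≤ _ := mul_le_mul_of_nonneg_right hh0 h6

theorem t20_E_nonneg {β γ : Type} [Fintype β] {Ω : β ⊕ γ → ℝ} (hΩ : ∀ a, 0 ≤ Ω a) (a) :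
    0 ≤ t20_E Ω a := by
  unfold t20_E
  rcases a with x | y
  · simp
  · simp only [Sum.elim_inr]
    exact add_nonneg (hΩ _) (div_nonneg (Finset.sum_nonneg fun x _ => hΩ _) (Nat.cast_nonneg _))

theorem t20_shift {X : Type*} [Fintype X] [DecidableEq X] {φ : Perm X → ℝ} {Ω : X → ℝ}
    (h : Wt φ Ω) (g : Perm X) : Wt (fun σ => φ (σ * g)) (fun a => Ω (g⁻¹ a)) := by
  intro σ σ'
  refine (h (σ * g) (σ' * g)).trans (le_of_eq ?_)
  rw [← Equiv.sum_comp g (fun a => if σ a ≠ σ' a then Ω (g⁻¹ a) else 0)]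
  refine Finset.sum_congr rfl fun a _ => ?_
  rw [t20_inv]
  exact t20_ite' Iff.rfl _

theorem t20_av {X : Type*} [Fintype X] [DecidableEq X] {ι : Type*} [Fintype ι]
    (φ : ι → Perm X → ℝ) (Ω : ι → X → ℝ) (h : ∀ i, Wt (φ i) (Ω i)) :
    Wt (fun σ => av fun i => φ i σ) (fun a => av fun i => Ω i a) := by
  intro σ σ'
  have h1 : |(av fun i => φ i σ) - av fun i => φ i σ'| ≤
      av fun i => ∑ a, if σ a ≠ σ' a then Ω i a else 0 := by
    rw [← av_sub]
    exact (av_abs_le _).trans (av_le_av fun i => h i σ σ')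
  refine h1.trans (le_of_eq ?_)
  rw [av_sum]
  refine Finset.sum_congr rfl fun a _ => ?_
  split_ifs
  · rfl
  · exact av_zero

section disc
variable {β I : Type} [Fintype β] [DecidableEq β] [Fintype I] [DecidableEq I] {d : ℕ}

/-- the dual of one window of the modified walk -/
noncomputable def t20_Ds (S : Sys β I d) (T : ℕ) (φ : Perm (Pos β I d) → ℝ) :
    Perm (Pos β I d) → ℝ :=
  fun σ => av fun v : Fin T → Option I =>
    (if ∀ i, v i ≠ none then EH φ else φ) (σ * wd S.gl v)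

/-- weights of the dual -/
noncomputable def t20_Ws (S : Sys β I d) (T : ℕ) (Ω : Pos β I d → ℝ) : Pos β I d → ℝ :=
  fun a => av fun v : Fin T → Option I =>
    (if ∀ i, v i ≠ none then t20_E Ω else Ω) ((wd S.gl v)⁻¹ a)

theorem t20_Ws_nonneg (S : Sys β I d) (T : ℕ) {Ω : Pos β I d → ℝ} (hΩ : ∀ a, 0 ≤ Ω a) (a) :
    0 ≤ t20_Ws S T Ω a := by
  unfold t20_Ws
  refine av_nonneg fun v => ?_
  split_ifs
  · exact t20_E_nonneg hΩ _
  · exact hΩ _

theorem t20_wt (S : Sys β I d) (T : ℕ) {φ : Perm (Pos β I d) → ℝ} {Ω : Pos β I d → ℝ}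
    (hΩ : ∀ a, 0 ≤ Ω a) (h : Wt φ Ω) : Wt (t20_Ds S T φ) (t20_Ws S T Ω) := by
  refine t20_av (fun (v : Fin T → Option I) σ =>
    (if ∀ i, v i ≠ none then EH φ else φ) (σ * wd S.gl v))
    (fun (v : Fin T → Option I) a =>
    (if ∀ i, v i ≠ none then t20_E Ω else Ω) ((wd S.gl v)⁻¹ a)) fun v => ?_
  by_cases hv : ∀ i, v i ≠ none
  · simp only [if_pos hv]
    exact t20_shift (t20_EK φ Ω hΩ h) (wd S.gl v)
  · simp only [if_neg hv]
    exact t20_shift h (wd S.gl v)

theorem t20_avD (S : Sys β I d) (T : ℕ) (φ : Perm (Pos β I d) → ℝ) :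
    av (t20_Ds S T φ) = av φ := by
  unfold t20_Ds
  rw [av_comm]
  have h : ∀ v : Fin T → Option I, (av fun σ =>
      (if ∀ i, v i ≠ none then EH φ else φ) (σ * wd S.gl v)) = av φ := by
    intro v
    by_cases hv : ∀ i, v i ≠ none
    · simp only [if_pos hv]
      rw [av_mulRight]
      exact av_EK (inlP β (Out I d)) φ
    · simp only [if_neg hv]
      rw [av_mulRight]
  simp only [h]
  exact av_const _

theorem t20_dual (S : Sys β I d) (T : ℕ) (φ F : Perm (Pos β I d) → ℝ) :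
    ipr φ (S.Dm T F) = ipr (t20_Ds S T φ) F := by
  unfold Sys.Dm t20_Ds
  rw [ipr_av_right (f := φ) (g := fun (v : Fin T → Option I) σ => S.st v F σ),
    ipr_av_left (f := fun (v : Fin T → Option I) σ =>
      (if ∀ i, v i ≠ none then EH φ else φ) (σ * wd S.gl v))]
  congr 1
  ext v
  have e : ∀ ψ : Perm (Pos β I d) → ℝ, (fun σ => ψ (σ * wd S.gl v)) = R (wd S.gl v)⁻¹ ψ := by
    intro ψ; ext σ; simp [R]
  by_cases hv : ∀ i, v i ≠ none
  · simp only [if_pos hv, Sys.st]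
    rw [e (EH φ)]
    rw [ipr_comm (R _ _) F, ← ipr_R_left, ipr_comm]
    exact (ipr_EK_left (inlP β (Out I d)) (R (wd S.gl v) F) φ ▸ rfl)
  · simp only [if_neg hv, Sys.st]
    rw [e φ, ipr_comm (R _ _) F, ← ipr_R_left, ipr_comm]

theorem t20_sum (S : Sys β I d) (T : ℕ) (n Ω : Pos β I d → ℝ) :
    ∑ a, n a * t20_Ws S T Ω a = ∑ a, S.WW T n a * Ω a := by
  unfold t20_Ws Sys.WW
  simp only [← av_mul_left, ← av_mul_right]
  rw [← av_sum, ← av_sum]
  congr 1
  ext v
  rw [← Equiv.sum_comp (wd S.gl v)]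
  simp only [t20_inv]
  by_cases hv : ∀ i, v i ≠ none
  · simp only [if_pos hv]
    have hA : ∀ f : Pos β I d → ℝ, ∑ a, f a = ∑ x, f (Sum.inl x) + ∑ y, f (Sum.inr y) :=
      fun f => Fintype.sum_sum_type f
    rw [hA, hA]
    simp only [t20_E, rst, Sum.elim_inl, Sum.elim_inr, mul_zero, Finset.sum_const_zero, zero_add]
    simp only [mul_add, Finset.sum_add_distrib]
    rw [← Finset.sum_mul, ← Finset.mul_sum]
    ring
  · simp only [if_neg hv]

theorem t20_main (S : Sys β I d) (T r : ℕ) (F : Perm (Pos β I d) → ℝ) (hF : Dens F) :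
    ∀ (φ : Perm (Pos β I d) → ℝ) (Ω : Pos β I d → ℝ), (∀ a, 0 ≤ Ω a) → Wt φ Ω →
    |ipr φ ((S.Dm T)^[r] F) - av φ| ≤ ∑ a, (S.WW T)^[r] (fun _ => 1) a * Ω a := by
  induction r with
  | zero =>
    intro φ Ω hΩ h
    simp only [Function.iterate_zero, id, one_mul]
    have h1 : ∀ σ, |φ σ - av φ| ≤ ∑ a, Ω a := by
      intro σ
      have h2 : φ σ - av φ = av fun σ' => φ σ - φ σ' := by
        rw [av_sub, av_const]
      rw [h2]
      refine (av_abs_le _).trans (av_le_const fun σ' => (h σ σ').trans ?_)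
      refine Finset.sum_le_sum fun a _ => ?_
      split_ifs
      · exact le_rfl
      · exact hΩ a
    have h3 : ipr φ F - av φ = av fun σ => F σ * (φ σ - av φ) := by
      have h4 : (fun σ => F σ * (φ σ - av φ)) = fun σ => φ σ * F σ - F σ * av φ := by
        ext σ; ring
      rw [h4, av_sub, av_mul_right, hF.2, one_mul]
      rfl
    rw [h3]
    refine (av_abs_le _).trans ?_
    have h5 : ∀ σ, |F σ * (φ σ - av φ)| ≤ F σ * ∑ a, Ω a := by
      intro σ
      rw [abs_mul, abs_of_nonneg (hF.1 σ)]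
      exact mul_le_mul_of_nonneg_left (h1 σ) (hF.1 σ)
    refine (av_le_av h5).trans (le_of_eq ?_)
    rw [av_mul_right, hF.2, one_mul]
  | succ r ih =>
    intro φ Ω hΩ h
    rw [Function.iterate_succ_apply', Function.iterate_succ_apply', t20_dual,
      ← t20_avD S T φ, ← t20_sum]
    exact ih _ _ (t20_Ws_nonneg S T hΩ) (t20_wt S T hΩ h)

theorem disc (S : Sys β I d) (T r : ℕ) (hβ : Nonempty β) (F : Perm (Pos β I d) → ℝ)
    (hF : Dens F) :
    av (fun σ => |(S.Dm T)^[r] F σ - 1|) ≤ tot ((S.WW T)^[r] (fun _ => 1)) := by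
  classical
  set G := (S.Dm T)^[r] F with hG
  let φ : Perm (Pos β I d) → ℝ := fun σ => if 0 ≤ G σ - 1 then 1 else -1
  have h1 : (fun σ => |G σ - 1|) = fun σ => φ σ * G σ - φ σ := by
    ext σ
    simp only [φ]
    split_ifs with h
    · rw [abs_of_nonneg h]; ring
    · rw [abs_of_neg (not_le.mp h)]; ring
  have h2 : Wt φ (fun _ => 1) := by
    intro σ σ'
    by_cases hs : σ = σ'
    · subst hs; simp
    · have h3 : |φ σ - φ σ'| ≤ 2 := by
        simp only [φ]
        split_ifs <;> norm_num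
      refine h3.trans ?_
      have h4 : 2 ≤ (σ'⁻¹ * σ).support.card := by
        apply Perm.two_le_card_support_of_ne_one
        intro h
        apply hs
        rw [inv_mul_eq_one] at h
        exact h.symm
      have h5 : (∑ a, if σ a ≠ σ' a then (1 : ℝ) else 0) = ((σ'⁻¹ * σ).support.card : ℝ) := by
        rw [← Finset.sum_filter, Finset.sum_const, nsmul_eq_mul, mul_one]
        congr 2
        ext a
        simp only [Finset.mem_filter, Finset.mem_univ, true_and, Perm.mem_support,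
          Perm.mul_apply, Ne, Perm.inv_eq_iff_eq]
      rw [h5]
      exact_mod_cast h4
  have h6 := t20_main S T r F hF φ (fun _ => 1) (fun _ => zero_le_one) h2
  rw [h1, av_sub]
  refine (le_abs_self _).trans (h6.trans (le_of_eq ?_))
  unfold tot
  simp only [mul_one]

end disc

end Pool.Agent.H9.Low
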