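import Pool.Agent.H9.Low.T15

/-!
# Window recursion (T21)
-/

namespace Pool.Agent.H9.Low

open Equiv Finset

section win
variable {β I : Type} [Fintype β] [DecidableEq β] [Fintype I] [DecidableEq I] {d : ℕ}

/-! ### one window: pointwise formulas -/

theorem t21_split (n : Pos β I d → ℝ) :
    ∑ a, n a = ∑ x, n (Sum.inl x) + ∑ y : Out I d, n (Sum.inr y) := Fintype.sum_sum_type n

/-- words without `c` permute the outer positions -/
theorem t21_outer (S : Sys β I d) (T : ℕ) (v : Fin T → Option I) (hv : ∀ i, v i ≠ none)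
    (n : Pos β I d → ℝ) : ∑ y, n (wd S.gl v (Sum.inr y)) = ∑ y, n (Sum.inr y) := by
  have hv' : ∀ i, ∃ j, v i = some j := fun i => Option.ne_none_iff_exists'.1 (hv i)
  choose v' hv' using hv'
  have hveq : v = fun i => some (v' i) := funext hv'
  have h1 : ∀ x, ∃ x', wd S.gl v (Sum.inl x) = Sum.inl x' := by
    intro x
    obtain ⟨x', hx'⟩ := t15_wd_inl S T v' x
    exact ⟨x', by rw [hveq]; exact hx'⟩
  choose f hf using h1
  have hinj : Function.Injective f := by
    intro x y hxy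
    have : wd S.gl v (Sum.inl x) = wd S.gl v (Sum.inl y) := by rw [hf, hf, hxy]
    exact Sum.inl_injective ((wd S.gl v).injective this)
  have hbij : Function.Bijective f := Finite.injective_iff_bijective.1 hinj
  have h2 : ∑ x, n (wd S.gl v (Sum.inl x)) = ∑ x, n (Sum.inl x) := by
    simp only [hf]
    exact hbij.sum_comp (fun x => n (Sum.inl x))
  have h3 := Equiv.sum_comp (wd S.gl v) n
  rw [t21_split (fun a => n (wd S.gl v a)), t21_split n] at h3
  linarith

theorem t21_WW_inr (S : Sys β I d) (T : ℕ) (n : Pos β I d → ℝ) (y : Out I d) :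
    S.WW T n (Sum.inr y) = (fw S.gl)^[T] n (Sum.inr y) := by
  rw [fw_word]
  unfold Sys.WW
  congr 1; ext v
  split_ifs <;> rfl

open Classical in
theorem t21_WW_inl (S : Sys β I d) (T : ℕ) (n : Pos β I d → ℝ) (x : β) :
    S.WW T n (Sum.inl x) = av fun v : Fin T → Option I =>
      if ∃ i, v i = none then n (wd S.gl v (Sum.inl x))
      else (∑ y, n (Sum.inr y)) / (Fintype.card β : ℝ) := by
  unfold Sys.WW
  congr 1; ext v
  by_cases hv : ∀ i, v i ≠ none
  · rw [if_pos hv, if_neg (by push Not; exact hv)]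
    simp only [rst, Sum.elim_inl]
    rw [t21_outer S T v hv]
  · rw [if_neg hv, if_pos (by push Not at hv; exact hv)]

/-! ### total masses -/

theorem t21_outmass (n : Pos β I d → ℝ) (hn : ∀ a, 0 ≤ n a) :
    ∑ y, n (Sum.inr y) ≤ VV n + DV n := by
  rw [Fintype.sum_sum_type]
  unfold VV DV
  gcongr
  rw [Fintype.sum_prod_type]
  refine Finset.sum_le_sum fun i _ => ?_
  rw [Fintype.sum_bool]
  have := hn (Sum.inr (Sum.inl (i, true)))
  linarith

theorem t21_tot (n : Pos β I d → ℝ) (hn : ∀ a, 0 ≤ n a) :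
    tot n ≤ BM n + (VV n + DV n) := by
  unfold tot
  rw [t21_split n]
  have := t21_outmass n hn
  unfold BM
  linarith

theorem t21_tot_nonneg (n : Pos β I d → ℝ) (hn : ∀ a, 0 ≤ n a) : 0 ≤ tot n :=
  Finset.sum_nonneg fun a _ => hn a

theorem t21_out_le_tot (n : Pos β I d → ℝ) (hn : ∀ a, 0 ≤ n a) :
    ∑ y, n (Sum.inr y) ≤ tot n := by
  unfold tot
  rw [t21_split n]
  have : 0 ≤ ∑ x, n (Sum.inl x) := Finset.sum_nonneg fun _ _ => hn _
  linarith

theorem t21_out_le_card (n : Pos β I d → ℝ) (hn1 : ∀ a, n a ≤ 1) :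
    ∑ y, n (Sum.inr y) ≤ Fintype.card (Out I d) := by
  calc ∑ y, n (Sum.inr y) ≤ ∑ _y : Out I d, (1 : ℝ) := Finset.sum_le_sum fun y _ => hn1 _
    _ = Fintype.card (Out I d) := by simp

theorem t21_DV_le (n : Pos β I d → ℝ) (hn1 : ∀ a, n a ≤ 1) : DV n ≤ d + 1 := by
  unfold DV
  calc ∑ j, n (Sum.inr (Sum.inr j)) ≤ ∑ _j : Fin (d + 1), (1 : ℝ) :=
        Finset.sum_le_sum fun j _ => hn1 _
    _ = d + 1 := by simp

theorem t21_VV_nonneg (n : Pos β I d → ℝ) (hn : ∀ a, 0 ≤ n a) : 0 ≤ VV n := by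
  unfold VV
  refine Finset.sum_nonneg fun i _ => ?_
  have h1 := hn (Sum.inr (Sum.inl (i, false)))
  have h2 := hn (Sum.inr (Sum.inl (i, true)))
  linarith

theorem t21_BM_nonneg (n : Pos β I d → ℝ) (hn : ∀ a, 0 ≤ n a) : 0 ≤ BM n :=
  Finset.sum_nonneg fun _ _ => hn _

theorem t21_DV_nonneg (n : Pos β I d → ℝ) (hn : ∀ a, 0 ≤ n a) : 0 ≤ DV n :=
  Finset.sum_nonneg fun _ _ => hn _

/-! ### the window keeps `0 ≤ n ≤ 1` -/

theorem t21_WW_nonneg (S : Sys β I d) (T : ℕ) (n : Pos β I d → ℝ) (hn : ∀ a, 0 ≤ n a)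
    (a : Pos β I d) : 0 ≤ S.WW T n a := by
  rcases a with x | y
  · rw [t21_WW_inl]
    refine av_nonneg fun v => ?_
    split_ifs
    · exact hn _
    · exact div_nonneg (Finset.sum_nonneg fun y _ => hn _) (Nat.cast_nonneg _)
  · rw [t21_WW_inr]
    exact t15_nonneg_iter S.gl T n hn _

theorem t21_WW_le_one (S : Sys β I d) (T : ℕ) (n : Pos β I d → ℝ) (hn1 : ∀ a, n a ≤ 1)
    (N : ℝ) (hN : N = Fintype.card β) (hIN : 2 * Fintype.card (Out I d) ≤ N)
    (a : Pos β I d) : S.WW T n a ≤ 1 := by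
  rcases a with x | y
  · rw [t21_WW_inl]
    refine av_le_const fun v => ?_
    split_ifs
    · exact hn1 _
    · have h1 := t21_out_le_card n hn1
      have hN0 : 0 < N := by
        rw [hN]
        exact_mod_cast Fintype.card_pos_iff.2 ⟨x⟩
      rw [← hN, div_le_one hN0]
      have : (0 : ℝ) ≤ Fintype.card (Out I d) := Nat.cast_nonneg _
      linarith
  · rw [t21_WW_inr]
    exact t15_le_one_iter S.gl T n hn1 _

/-! ### the private mass -/

theorem t21_V (S : Sys β I d) (g0 T : ℕ) (hM : M8 S g0) (m q N : ℝ)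
    (hm : m = Fintype.card I + 1) (hN : N = Fintype.card β)
    (hq : q = T / m) (hq2 : q ≤ 1 / 2)
    (hδ : g0 / m + q * (2 * Fintype.card I / N + g0 / m) ≤ q / 192)
    (n : Pos β I d → ℝ) (hn : ∀ a, 0 ≤ n a) :
    VV ((fw S.gl)^[T] n) ≤ (1 - q / 6) * VV n + q / 192 * tot n := by
  have hm1 : 1 ≤ m := by rw [hm]; linarith [(Nat.cast_nonneg (Fintype.card I) : (0 : ℝ) ≤ _)]
  have hm0 : 0 < m := by linarith
  have htot := t21_tot_nonneg n hn
  obtain ⟨δ, hδd⟩ : ∃ δ : ℝ, δ = 2 * Fintype.card I / N + g0 / m := ⟨_, rfl⟩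
  have hδ0 : 0 ≤ δ := by rw [hδd, hN]; positivity
  have h3 : 0 ≤ 1 - 1 / (3 * m) := by
    rw [sub_nonneg, div_le_one (by positivity)]
    linarith
  have h3' : 1 - 1 / (3 * m) ≤ 1 := by
    have : 0 ≤ 1 / (3 * m) := by positivity
    linarith
  have key : ∀ t : ℕ, VV ((fw S.gl)^[t] n) ≤ (1 - 1 / (3 * m)) ^ t * VV n +
      1 / m * (((min t g0 : ℕ) : ℝ) + t * δ) * tot n := by
    intro t
    induction t with
    | zero => simp
    | succ t ih =>
      rw [Function.iterate_succ_apply']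
      have h1 := VV_step S ((fw S.gl)^[t] n) (t15_nonneg_iter S.gl t n hn) m hm
      have h2 : ∑ i, (fw S.gl)^[t] n (Sum.inl (S.u i)) ≤
          ((((min (t + 1) g0 : ℕ) : ℝ) - ((min t g0 : ℕ) : ℝ)) + δ) * tot n := by
        rcases le_or_gt g0 t with ht | ht
        · have h4 := bulk_tot S g0 hM m hm t ht n hn
          rw [min_eq_right ht, min_eq_right (by omega), sub_self, zero_add, hδd, hN]
          exact h4
        · rw [min_eq_left (by omega), min_eq_left (by omega)]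
          have h4 : ∑ i, (fw S.gl)^[t] n (Sum.inl (S.u i)) ≤ tot ((fw S.gl)^[t] n) := by
            have hn' := t15_nonneg_iter S.gl t n hn
            calc ∑ i, (fw S.gl)^[t] n (Sum.inl (S.u i))
                = ∑ x ∈ univ.image S.u, (fw S.gl)^[t] n (Sum.inl x) :=
                  (Finset.sum_image (f := fun x => (fw S.gl)^[t] n (Sum.inl x))
                    fun i _ j _ h => S.u_inj h).symm
              _ ≤ ∑ x, (fw S.gl)^[t] n (Sum.inl x) :=
                  Finset.sum_le_sum_of_subset_of_nonneg (Finset.subset_univ _)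
                    fun a _ _ => hn' _
              _ ≤ tot ((fw S.gl)^[t] n) := by
                  unfold tot
                  rw [t21_split]
                  have : 0 ≤ ∑ y, (fw S.gl)^[t] n (Sum.inr y) :=
                    Finset.sum_nonneg fun y _ => hn' _
                  linarith
          rw [t15_tot_iter] at h4
          push_cast
          nlinarith [mul_nonneg hδ0 htot]
      have h5 : 0 ≤ 1 / m * (((min t g0 : ℕ) : ℝ) + t * δ) * tot n := by positivity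
      calc VV (fw S.gl ((fw S.gl)^[t] n))
          ≤ (1 - 1 / (3 * m)) * VV ((fw S.gl)^[t] n) +
            1 / m * ∑ i, (fw S.gl)^[t] n (Sum.inl (S.u i)) := h1
        _ ≤ (1 - 1 / (3 * m)) * ((1 - 1 / (3 * m)) ^ t * VV n +
              1 / m * (((min t g0 : ℕ) : ℝ) + t * δ) * tot n) +
            1 / m * (((((min (t + 1) g0 : ℕ) : ℝ) - ((min t g0 : ℕ) : ℝ)) + δ) * tot n) := by
            gcongr
        _ ≤ (1 - 1 / (3 * m)) * ((1 - 1 / (3 * m)) ^ t * VV n) +
              1 / m * (((min t g0 : ℕ) : ℝ) + t * δ) * tot n +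
            1 / m * (((((min (t + 1) g0 : ℕ) : ℝ) - ((min t g0 : ℕ) : ℝ)) + δ) * tot n) := by
            nlinarith [mul_le_mul_of_nonneg_right h3' h5]
        _ = (1 - 1 / (3 * m)) ^ (t + 1) * VV n +
            1 / m * (((min (t + 1) g0 : ℕ) : ℝ) + ((t + 1 : ℕ) : ℝ) * δ) * tot n := by
            rw [pow_succ]; push_cast; ring
  refine (key T).trans ?_
  have hq0 : 0 ≤ q := by rw [hq]; positivity
  have h6 : (1 - 1 / (3 * m)) ^ T ≤ 1 - q / 6 := by
    have hb : (1 : ℝ) + T * (1 / (3 * m)) ≤ (1 + 1 / (3 * m)) ^ T :=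
      one_add_mul_le_pow (by have : 0 ≤ 1 / (3 * m) := by positivity
                             linarith) T
    have hc : (1 - 1 / (3 * m)) ^ T * (1 + 1 / (3 * m)) ^ T ≤ 1 := by
      rw [← mul_pow]
      refine pow_le_one₀ (mul_nonneg h3 (by positivity)) ?_
      have : 0 ≤ (1 / (3 * m)) ^ 2 := by positivity
      nlinarith
    have hd : (T : ℝ) * (1 / (3 * m)) = q / 3 := by rw [hq]; field_simp
    rw [hd] at hb
    have he : (1 - 1 / (3 * m)) ^ T * (1 + q / 3) ≤ 1 :=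
      (mul_le_mul_of_nonneg_left hb (pow_nonneg h3 T)).trans hc
    have hf : (1 : ℝ) ≤ (1 - q / 6) * (1 + q / 3) := by nlinarith
    have hg : 0 < 1 + q / 3 := by positivity
    exact le_of_mul_le_mul_right (he.trans hf) hg
  have h7 : 1 / m * (((min T g0 : ℕ) : ℝ) + T * δ) ≤ q / 192 := by
    have h8 : ((min T g0 : ℕ) : ℝ) ≤ g0 := by exact_mod_cast min_le_right T g0
    calc 1 / m * (((min T g0 : ℕ) : ℝ) + T * δ) ≤ 1 / m * ((g0 : ℝ) + T * δ) := by gcongr
      _ = g0 / m + q * δ := by rw [hq]; ring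
      _ ≤ q / 192 := by rw [hδd]; exact hδ
  have hV := t21_VV_nonneg n hn
  gcongr

/-! ### the bulk mass -/

open Classical in
theorem t21_B (S : Sys β I d) (T : ℕ) (m q : ℝ)
    (hm : m = Fintype.card I + 1) (hq : q = T / m)
    (n : Pos β I d → ℝ) (hn : ∀ a, 0 ≤ n a) :
    BM (S.WW T n) ≤ (VV n + DV n) + q * tot n := by
  have htot := t21_tot_nonneg n hn
  have hout : 0 ≤ ∑ y, n (Sum.inr y) := Finset.sum_nonneg fun y _ => hn _
  have h1 : BM (S.WW T n) = av fun v : Fin T → Option I => ∑ x,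
      if ∃ i, v i = none then n (wd S.gl v (Sum.inl x))
      else (∑ y, n (Sum.inr y)) / (Fintype.card β : ℝ) := by
    unfold BM
    rw [av_sum univ (fun x (v : Fin T → Option I) =>
      if ∃ i, v i = none then n (wd S.gl v (Sum.inl x))
      else (∑ y, n (Sum.inr y)) / (Fintype.card β : ℝ))]
    exact Finset.sum_congr rfl fun x _ => t21_WW_inl S T n x
  rw [h1]
  have h2 : ∀ v : Fin T → Option I, (∑ x,
      if ∃ i, v i = none then n (wd S.gl v (Sum.inl x))
      else (∑ y, n (Sum.inr y)) / (Fintype.card β : ℝ)) ≤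
      (VV n + DV n) + (if ∃ i, v i = none then (1 : ℝ) else 0) * tot n := by
    intro v
    have h3 := t21_outmass n hn
    by_cases hv : ∃ i, v i = none
    · simp only [if_pos hv, one_mul]
      have h4 : ∑ x, n (wd S.gl v (Sum.inl x)) ≤ tot n := by
        unfold tot
        rw [← Equiv.sum_comp (wd S.gl v) n, t21_split (fun a => n (wd S.gl v a))]
        have : 0 ≤ ∑ y, n (wd S.gl v (Sum.inr y)) := Finset.sum_nonneg fun y _ => hn _
        linarith
      linarith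
    · simp only [if_neg hv, zero_mul, add_zero]
      rw [Finset.sum_const, Finset.card_univ, nsmul_eq_mul]
      refine le_trans ?_ h3
      rcases isEmpty_or_nonempty β with hβ | hβ
      · simp only [Fintype.card_eq_zero, Nat.cast_zero, zero_mul]
        exact hout
      · have hc : (Fintype.card β : ℝ) ≠ 0 := by exact_mod_cast Fintype.card_ne_zero
        exact le_of_eq (by field_simp)
  refine (av_le_av h2).trans ?_
  rw [av_add, av_const, av_mul_right]
  have h5 := t15_hasc (I := I) T m hm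
  rw [← hq] at h5
  gcongr

/-! ### the potential -/

/-- one window for the potential -/
theorem t21_Phi (S : Sys β I d) (g0 T : ℕ) (hM : M8 S g0) (m q N : ℝ)
    (hm : m = Fintype.card I + 1) (hN : N = Fintype.card β)
    (hq : q = T / m) (hq2 : q ≤ 1 / 2)
    (hδ : g0 / m + q * (2 * Fintype.card I / N + g0 / m) ≤ q / 192)
    (n : Pos β I d → ℝ) (hn : ∀ a, 0 ≤ n a) :
    VV (S.WW T n) + q / 48 * BM (S.WW T n) ≤
      (1 - q / 12) * (VV n + q / 48 * BM n) + q / 16 * DV n := by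
  have hm0 : 0 < m := by rw [hm]; positivity
  have hq0 : 0 ≤ q := by rw [hq]; positivity
  have hVW : VV (S.WW T n) = VV ((fw S.gl)^[T] n) := by
    unfold VV
    simp only [t21_WW_inr]
  have h1 := t21_V S g0 T hM m q N hm hN hq hq2 hδ n hn
  have h2 := t21_B S T m q hm hq n hn
  have h3 := t21_tot n hn
  have hV := t21_VV_nonneg n hn
  have hB := t21_BM_nonneg n hn
  have hD := t21_DV_nonneg n hn
  rw [hVW]
  set V := VV n
  set B := BM n
  set D := DV n
  set M := tot n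
  have h4 : q / 48 * BM (S.WW T n) ≤ q / 48 * ((V + D) + q * M) := by gcongr
  have h5 : (q / 192 + q / 48 * q) * M ≤ (q / 192 + q / 48 * q) * (B + (V + D)) := by gcongr
  have hqq : q * q ≤ q / 2 := by nlinarith
  have hqV : q * q * V ≤ q / 2 * V := by gcongr
  have hqB : q * q * B ≤ q / 2 * B := by gcongr
  have hqD : q * q * D ≤ q / 2 * D := by gcongr
  have e1 : 0 ≤ q * V := mul_nonneg hq0 hV
  have e2 : 0 ≤ q * B := mul_nonneg hq0 hB
  have e3 : 0 ≤ q * D := mul_nonneg hq0 hD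
  nlinarith

/-! ### pointwise bounds in the bulk -/

open Classical in
theorem t21_pt (S : Sys β I d) (g0 T : ℕ) (hM : M8 S g0) (m N : ℝ)
    (hm : m = Fintype.card I + 1) (hN : N = Fintype.card β) (hg : g0 ≤ T)
    (n : Pos β I d → ℝ) (hn : ∀ a, 0 ≤ n a) (hn1 : ∀ a, n a ≤ 1) (x : β) :
    S.WW T n (Sum.inl x) ≤ 3 / N * tot n + g0 / m := by
  have hN0 : 0 < N := by
    rw [hN]
    exact_mod_cast Fintype.card_pos_iff.2 ⟨x⟩
  have h1 := bulk_pt S g0 hM m hm T hg n hn hn1 x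
  rw [← hN, fw_word] at h1
  have h2 : S.WW T n (Sum.inl x) ≤ (∑ y, n (Sum.inr y)) / N +
      av (fun v : Fin T → Option I => n (wd S.gl v (Sum.inl x))) := by
    rw [t21_WW_inl, ← av_const (X := Fin T → Option I) ((∑ y, n (Sum.inr y)) / N), ← av_add]
    refine av_le_av fun v => ?_
    have h3 : 0 ≤ (∑ y, n (Sum.inr y)) / N :=
      div_nonneg (Finset.sum_nonneg fun y _ => hn _) hN0.le
    have h4 := hn (wd S.gl v (Sum.inl x))
    rw [← hN]
    split_ifs <;> linarith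
  have h5 : (∑ y, n (Sum.inr y)) / N ≤ 1 / N * tot n := by
    rw [div_eq_inv_mul, one_div]
    exact mul_le_mul_of_nonneg_left (t21_out_le_tot n hn) (by positivity)
  calc S.WW T n (Sum.inl x) ≤ 1 / N * tot n + (2 / N * tot n + g0 / m) := by linarith
    _ = 3 / N * tot n + g0 / m := by ring

open Classical in
/-- bulk values inside a window -/
theorem t21_in (S : Sys β I d) (g0 : ℕ) (hM : M8 S g0) (m N K : ℝ)
    (hm : m = Fintype.card I + 1) (hN : N = Fintype.card β)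
    (n : Pos β I d → ℝ) (hn : ∀ a, 0 ≤ n a) (hn1 : ∀ a, n a ≤ 1)
    (hK : ∀ x, n (Sum.inl x) ≤ K) (hK2 : 2 / N * tot n ≤ K) (hK0 : 0 ≤ K) (t : ℕ) (x : β) :
    (fw S.gl)^[t] n (Sum.inl x) ≤ K + g0 / m := by
  have hm0 : 0 < m := by rw [hm]; positivity
  rcases le_or_gt g0 t with ht | ht
  · have h1 := bulk_pt S g0 hM m hm t ht n hn hn1 x
    rw [← hN] at h1
    linarith
  · have h1 : (fw S.gl)^[t] n (Sum.inl x) ≤
        K + av (fun v : Fin t → Option I => if ∃ i, v i = none then (1 : ℝ) else 0) := by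
      rw [fw_word, ← av_const (X := Fin t → Option I) K, ← av_add]
      refine av_le_av fun v => ?_
      by_cases hv : ∃ i, v i = none
      · rw [if_pos hv]
        have := hn1 (wd S.gl v (Sum.inl x))
        linarith
      · rw [if_neg hv]
        push Not at hv
        have hv' : ∀ i, ∃ j, v i = some j := fun i => Option.ne_none_iff_exists'.1 (hv i)
        choose v' hv' using hv'
        have hveq : v = fun i => some (v' i) := funext hv'
        obtain ⟨x', hx'⟩ := t15_wd_inl S t v' x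
        have hwd : wd S.gl v (Sum.inl x) = Sum.inl x' := by
          rw [hveq]
          exact hx'
        rw [hwd, add_zero]
        exact hK x'
    have h2 := t15_hasc (I := I) t m hm
    have h3 : (t : ℝ) / m ≤ g0 / m := by gcongr
    linarith

/-! ### the device -/

/-- transport in the device alone -/
noncomputable def t21_dst (m : ℝ) (y : Fin (d + 1) → ℝ) : Fin (d + 1) → ℝ :=
  fun j => (1 - 1 / m) * y j + 1 / m * (Fin.cons 0 (fun k : Fin d => y k.castSucc) :
    Fin (d + 1) → ℝ) j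

theorem t21_fw_dv (S : Sys β I d) (n : Pos β I d → ℝ) (m : ℝ)
    (hm : m = Fintype.card I + 1) (j : Fin (d + 1)) :
    fw S.gl n (Sum.inr (Sum.inr j)) = 1 / m *
      (n (S.c (Sum.inr (Sum.inr j))) + (m - 1) * n (Sum.inr (Sum.inr j))) := by
  unfold fw
  rw [t15_av_option _ m hm]
  congr 2
  change ∑ i, n (S.g i _) = _
  simp only [t15_g_dv]
  rw [Finset.sum_const, Finset.card_univ, nsmul_eq_mul, hm]
  ring

theorem t21_dst_le (S : Sys β I d) (n : Pos β I d → ℝ) (hn : ∀ a, 0 ≤ n a) (m : ℝ)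
    (hm : m = Fintype.card I + 1) (y : Fin (d + 1) → ℝ)
    (hy : ∀ j, y j ≤ n (Sum.inr (Sum.inr j))) (j : Fin (d + 1)) :
    t21_dst m y j ≤ fw S.gl n (Sum.inr (Sum.inr j)) := by
  have hm1 : 1 ≤ m := by rw [hm]; linarith [(Nat.cast_nonneg (Fintype.card I) : (0 : ℝ) ≤ _)]
  have hm0 : 0 < m := by linarith
  have h1 : 0 ≤ 1 - 1 / m := by
    rw [sub_nonneg, div_le_one hm0]
    exact hm1
  have h2 : (0 : ℝ) ≤ 1 / m := by positivity
  rw [t21_fw_dv S n m hm j]
  have h3 : 1 / m * (n (S.c (Sum.inr (Sum.inr j))) + (m - 1) * n (Sum.inr (Sum.inr j))) =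
      (1 - 1 / m) * n (Sum.inr (Sum.inr j)) + 1 / m * n (S.c (Sum.inr (Sum.inr j))) := by
    field_simp
    ring
  rw [h3]
  unfold t21_dst
  refine add_le_add (mul_le_mul_of_nonneg_left (hy j) h1) (mul_le_mul_of_nonneg_left ?_ h2)
  refine Fin.cases ?_ (fun k => ?_) j
  · rw [Fin.cons_zero]
    exact hn _
  · rw [Fin.cons_succ, S.c_dvs]
    exact hy _

theorem t21_sum_dst (m : ℝ) (y : Fin (d + 1) → ℝ) :
    ∑ j, t21_dst m y j = (1 - 1 / m) * ∑ j, y j + 1 / m * ∑ k : Fin d, y k.castSucc := by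
  unfold t21_dst
  rw [Finset.sum_add_distrib, ← Finset.mul_sum, ← Finset.mul_sum, Fin.sum_univ_succ (fun j =>
    (Fin.cons 0 (fun k : Fin d => y k.castSucc) : Fin (d + 1) → ℝ) j)]
  simp only [Fin.cons_zero, Fin.cons_succ, zero_add]

theorem t21_diff (S : Sys β I d) (n : Pos β I d → ℝ) (m : ℝ)
    (hm : m = Fintype.card I + 1) (y : Fin (d + 1) → ℝ)
    (hy : ∀ j, y j ≤ n (Sum.inr (Sum.inr j))) :
    DV (fw S.gl n) - ∑ j, t21_dst m y j ≤ (DV n - ∑ j, y j) + 1 / m * n (Sum.inl S.p) := by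
  have hm0 : 0 < m := by rw [hm]; positivity
  rw [t21_sum_dst]
  unfold DV
  simp only [t21_fw_dv S n m hm]
  rw [← Finset.mul_sum, Finset.sum_add_distrib, ← Finset.mul_sum,
    Fin.sum_univ_succ (fun j => n (S.c (Sum.inr (Sum.inr j)))), S.c_dv0]
  simp only [S.c_dvs]
  have h1 : ∑ j : Fin (d + 1), n (Sum.inr (Sum.inr j)) =
      ∑ j : Fin d, n (Sum.inr (Sum.inr j.castSucc)) + n (Sum.inr (Sum.inr (Fin.last d))) :=
    Fin.sum_univ_castSucc _
  have h2 : ∑ j : Fin (d + 1), y j = ∑ j : Fin d, y j.castSucc + y (Fin.last d) :=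
    Fin.sum_univ_castSucc _
  have h3 := hy (Fin.last d)
  set A := ∑ j : Fin (d + 1), n (Sum.inr (Sum.inr j))
  set B := ∑ j : Fin (d + 1), y j
  set A' := ∑ j : Fin d, n (Sum.inr (Sum.inr j.castSucc))
  set B' := ∑ j : Fin d, y j.castSucc
  have h4 : A' - B' ≤ A - B := by linarith
  have h5 : 1 / m * (A' - B') ≤ 1 / m * (A - B) :=
    mul_le_mul_of_nonneg_left h4 (by positivity)
  have h6 : 1 / m * (n (Sum.inl S.p) + A' + (m - 1) * A) -
      ((1 - 1 / m) * B + 1 / m * B') =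
      1 / m * n (Sum.inl S.p) + 1 / m * (A' - B') + (A - B) - 1 / m * (A - B) := by
    field_simp
    ring
  linarith

/-- one window for the device -/
theorem t21_dev (S : Sys β I d) (n : Pos β I d → ℝ) (hn : ∀ a, 0 ≤ n a) (m K : ℝ)
    (hm : m = Fintype.card I + 1) (y : Fin (d + 1) → ℝ)
    (hy : ∀ j, y j ≤ n (Sum.inr (Sum.inr j)))
    (hK : ∀ t, (fw S.gl)^[t] n (Sum.inl S.p) ≤ K) (t : ℕ) :
    (∀ j, (t21_dst m)^[t] y j ≤ (fw S.gl)^[t] n (Sum.inr (Sum.inr j))) ∧
      DV ((fw S.gl)^[t] n) - ∑ j, (t21_dst m)^[t] y j ≤ (DV n - ∑ j, y j) + t / m * K := by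
  have hm0 : 0 < m := by rw [hm]; positivity
  induction t with
  | zero => exact ⟨hy, by simp⟩
  | succ t ih =>
    obtain ⟨h1, h2⟩ := ih
    have hn' := t15_nonneg_iter S.gl t n hn
    rw [Function.iterate_succ_apply', Function.iterate_succ_apply']
    refine ⟨t21_dst_le S _ hn' m hm _ h1, ?_⟩
    have h3 := t21_diff S _ m hm _ h1
    have h4 : 1 / m * (fw S.gl)^[t] n (Sum.inl S.p) ≤ 1 / m * K :=
      mul_le_mul_of_nonneg_left (hK t) (by positivity)
    have h5 : ((t + 1 : ℕ) : ℝ) / m * K = t / m * K + 1 / m * K := by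
      push_cast
      ring
    rw [h5]
    linarith

/-- the weighted device mass -/
noncomputable def t21_Lam (l : ℝ) (y : Fin (d + 1) → ℝ) : ℝ :=
  ∑ j : Fin (d + 1), l ^ (d + 1 - (j : ℕ)) * y j

theorem t21_dst_nonneg (m : ℝ) (hm1 : 1 ≤ m) (y : Fin (d + 1) → ℝ) (hy : ∀ j, 0 ≤ y j)
    (j : Fin (d + 1)) : 0 ≤ t21_dst m y j := by
  have hm0 : 0 < m := by linarith
  have h1 : 0 ≤ 1 - 1 / m := by
    rw [sub_nonneg, div_le_one hm0]
    exact hm1
  have h2 : (0 : ℝ) ≤ 1 / m := by positivity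
  unfold t21_dst
  refine add_nonneg (mul_nonneg h1 (hy j)) (mul_nonneg h2 ?_)
  refine Fin.cases ?_ (fun k => ?_) j
  · rw [Fin.cons_zero]
  · rw [Fin.cons_succ]
    exact hy _

theorem t21_Lam_step (m l : ℝ) (hm1 : 1 ≤ m) (hl : 1 < l) (y : Fin (d + 1) → ℝ)
    (hy : ∀ j, 0 ≤ y j) :
    t21_Lam l (t21_dst m y) ≤ (1 - (1 - 1 / l) / m) * t21_Lam l y := by
  have hm0 : 0 < m := by linarith
  have hl0 : 0 < l := by linarith
  have h1 : t21_Lam l (t21_dst m y) = (1 - 1 / m) * t21_Lam l y +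
      1 / m * ∑ k : Fin d, l ^ (d - (k : ℕ)) * y k.castSucc := by
    unfold t21_Lam t21_dst
    rw [Finset.mul_sum, Fin.sum_univ_succ (fun j : Fin (d + 1) => l ^ (d + 1 - (j : ℕ)) *
      ((1 - 1 / m) * y j + 1 / m * (Fin.cons 0 (fun k : Fin d => y k.castSucc) :
        Fin (d + 1) → ℝ) j)), Fin.sum_univ_succ (fun j : Fin (d + 1) => (1 - 1 / m) *
          (l ^ (d + 1 - (j : ℕ)) * y j))]
    simp only [Fin.cons_zero, Fin.cons_succ, Fin.val_succ, Nat.add_sub_add_right, mul_add]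
    rw [Finset.sum_add_distrib, Finset.mul_sum]
    have e1 : ∀ k : Fin d, l ^ (d - (k : ℕ)) * ((1 - 1 / m) * y k.succ) =
        (1 - 1 / m) * (l ^ (d - (k : ℕ)) * y k.succ) := fun k => by ring
    have e2 : ∀ k : Fin d, l ^ (d - (k : ℕ)) * (1 / m * y k.castSucc) =
        1 / m * (l ^ (d - (k : ℕ)) * y k.castSucc) := fun k => by ring
    simp only [e1, e2]
    ring
  have h2 : ∑ k : Fin d, l ^ (d - (k : ℕ)) * y k.castSucc ≤ 1 / l * t21_Lam l y := by
    unfold t21_Lam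
    rw [Fin.sum_univ_castSucc (fun j : Fin (d + 1) => l ^ (d + 1 - (j : ℕ)) * y j), mul_add,
      Finset.mul_sum]
    have h3 : 0 ≤ 1 / l * (l ^ (d + 1 - (Fin.last d : ℕ)) * y (Fin.last d)) := by
      have := hy (Fin.last d)
      positivity
    have h4 : ∑ k : Fin d, l ^ (d - (k : ℕ)) * y k.castSucc =
        ∑ k : Fin d, 1 / l * (l ^ (d + 1 - ((k.castSucc : Fin (d + 1)) : ℕ)) * y k.castSucc) := by
      refine Finset.sum_congr rfl fun k _ => ?_
      have h5 : d + 1 - ((k.castSucc : Fin (d + 1)) : ℕ) = (d - (k : ℕ)) + 1 := by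
        have := k.2
        simp only [Fin.val_castSucc]
        omega
      rw [h5, pow_succ]
      field_simp
    rw [h4]
    linarith
  have h6 : 1 / m * ∑ k : Fin d, l ^ (d - (k : ℕ)) * y k.castSucc ≤
      1 / m * (1 / l * t21_Lam l y) := mul_le_mul_of_nonneg_left h2 (by positivity)
  have h7 : (1 - (1 - 1 / l) / m) * t21_Lam l y =
      (1 - 1 / m) * t21_Lam l y + 1 / m * (1 / l * t21_Lam l y) := by
    field_simp
    ring
  rw [h1, h7]
  linarith

theorem t21_sum_le_Lam (l : ℝ) (hl : 1 < l) (y : Fin (d + 1) → ℝ) (hy : ∀ j, 0 ≤ y j) :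
    ∑ j, y j ≤ t21_Lam l y := by
  unfold t21_Lam
  refine Finset.sum_le_sum fun j _ => ?_
  have h1 : (1 : ℝ) ≤ l ^ (d + 1 - (j : ℕ)) := one_le_pow₀ hl.le
  nlinarith [hy j]

theorem t21_geom (l : ℝ) (hl : 1 < l) (k : ℕ) :
    ∑ j ∈ Finset.range k, l ^ (k - j) ≤ l ^ (k + 1) / (l - 1) := by
  have h0 : 0 < l - 1 := by linarith
  induction k with
  | zero =>
    simp only [Finset.range_zero, Finset.sum_empty]
    positivity
  | succ k ih =>
    rw [Finset.sum_range_succ']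
    simp only [Nat.add_sub_add_right, Nat.sub_zero]
    have h1 : l ^ (k + 1 + 1) / (l - 1) = l ^ (k + 1) / (l - 1) + l ^ (k + 1) := by
      field_simp
      ring
    rw [h1]
    linarith

theorem t21_Lam_le (l : ℝ) (hl : 1 < l) (y : Fin (d + 1) → ℝ) (hy : ∀ j, y j ≤ 1) :
    t21_Lam l y ≤ l ^ (d + 2) / (l - 1) := by
  have hl0 : 0 < l := by linarith
  unfold t21_Lam
  calc ∑ j : Fin (d + 1), l ^ (d + 1 - (j : ℕ)) * y j
      ≤ ∑ j : Fin (d + 1), l ^ (d + 1 - (j : ℕ)) := by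
        refine Finset.sum_le_sum fun j _ => ?_
        have h1 : 0 < l ^ (d + 1 - (j : ℕ)) := by positivity
        nlinarith [hy j]
    _ = ∑ j ∈ Finset.range (d + 1), l ^ (d + 1 - j) :=
        Fin.sum_univ_eq_sum_range (fun j => l ^ (d + 1 - j)) (d + 1)
    _ ≤ l ^ (d + 2) / (l - 1) := t21_geom l hl (d + 1)

/-! ### assembly -/

/-- the affine recursion -/
theorem t21_rec (f D : ℕ → ℝ) (q D0 : ℝ) (hq0 : 0 ≤ q) (hq2 : q ≤ 1 / 2) (r0 L : ℕ)
    (hf : ∀ r, f (r + 1) ≤ (1 - q / 12) * f r + q / 16 * D r)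
    (hD : ∀ k, k < L → D (r0 + k) ≤ D0) (hD0 : 0 ≤ D0) (k : ℕ) (hk : k ≤ L) :
    f (r0 + k) ≤ (1 - q / 12) ^ k * f r0 + 3 / 4 * D0 := by
  induction k with
  | zero =>
    simp only [add_zero, pow_zero, one_mul]
    linarith
  | succ k ih =>
    have h1 := ih (by omega)
    have h2 := hf (r0 + k)
    have h3 := hD k (by omega)
    have h4 : 0 ≤ 1 - q / 12 := by linarith
    have h5 : (1 - q / 12) * f (r0 + k) ≤
        (1 - q / 12) * ((1 - q / 12) ^ k * f r0 + 3 / 4 * D0) :=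
      mul_le_mul_of_nonneg_left h1 h4
    have h6 : q / 16 * D (r0 + k) ≤ q / 16 * D0 := mul_le_mul_of_nonneg_left h3 (by linarith)
    have h7 : (1 - q / 12) ^ (k + 1) * f r0 = (1 - q / 12) * ((1 - q / 12) ^ k * f r0) := by
      rw [pow_succ]; ring
    rw [← add_assoc, h7]
    linarith

theorem win_bound (S : Sys β I d) (g0 T r2 r3 r4 : ℕ) (hM : M8 S g0) (m q b N : ℝ)
    (hm : m = Fintype.card I + 1) (hN : N = Fintype.card β) (hb : b = d + 1)
    (hq : q = T / m) (hq2 : q ≤ 1 / 2) (hg : g0 ≤ T) (hT : 1 ≤ T)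
    (hδ : g0 / m + q * (2 * Fintype.card I / N + g0 / m) ≤ q / 192)
    (hIN : 2 * Fintype.card (Out I d) ≤ N)
    (h2 : (1 - q / 12) ^ r2 * (4 * N) ≤ b) (l : ℝ) (hl : 1 < l) :
    tot ((S.WW T)^[r2 + r3 + r4] (fun _ => 1)) ≤
      200 / q * (2 * b * (1 - q / 12) ^ r4
        + l ^ (d + 2) / (l - 1) * (1 - (1 - 1 / l) / m) ^ (r3 * T)
        + (r3 + r4) * q * (400 * b / (q * N) + 2 * g0 / m)) := by
  have hm1 : 1 ≤ m := by rw [hm]; linarith [(Nat.cast_nonneg (Fintype.card I) : (0 : ℝ) ≤ _)]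
  have hm0 : 0 < m := by linarith
  have hq0 : 0 < q := by
    rw [hq]
    have : (0 : ℝ) < T := by exact_mod_cast hT
    positivity
  have hb1 : 1 ≤ b := by rw [hb]; linarith [(Nat.cast_nonneg d : (0 : ℝ) ≤ _)]
  have hcard : (Fintype.card (Out I d) : ℝ) = 2 * Fintype.card I + b := by
    rw [hb]
    simp only [Out, Fintype.card_sum, Fintype.card_prod, Fintype.card_bool, Fintype.card_fin]
    push_cast
    ring
  have hI0 : (0 : ℝ) ≤ Fintype.card I := Nat.cast_nonneg _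
  have hN2 : 2 * b + 4 * Fintype.card I ≤ N := by rw [hcard] at hIN; linarith
  have hN0 : 0 < N := by linarith
  have ha0 : 0 ≤ 1 - q / 12 := by linarith
  have ha1 : 1 - q / 12 ≤ 1 := by linarith
  have ha2 : 23 / 24 ≤ 1 - q / 12 := by linarith
  -- the masses
  obtain ⟨nn, hnn⟩ : ∃ nn : ℕ → Pos β I d → ℝ, nn = fun r => (S.WW T)^[r] (fun _ => 1) :=
    ⟨_, rfl⟩
  have hnn0 : nn 0 = fun _ => 1 := by rw [hnn]; rfl
  have hnns : ∀ r, nn (r + 1) = S.WW T (nn r) := by
    intro r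
    rw [hnn]
    exact Function.iterate_succ_apply' _ _ _
  have hn : ∀ r a, 0 ≤ nn r a := by
    intro r
    induction r with
    | zero => intro a; rw [hnn0]; exact zero_le_one
    | succ r ih => intro a; rw [hnns]; exact t21_WW_nonneg S T _ ih a
  have hn1 : ∀ r a, nn r a ≤ 1 := by
    intro r
    induction r with
    | zero => intro a; rw [hnn0]
    | succ r ih => intro a; rw [hnns]; exact t21_WW_le_one S T _ ih N hN hIN a
  have hDb : ∀ r, DV (nn r) ≤ b := by
    intro r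
    rw [hb]
    exact t21_DV_le _ (hn1 r)
  -- the potential
  obtain ⟨Φ, hΦ⟩ : ∃ Φ : ℕ → ℝ, Φ = fun r => VV (nn r) + q / 48 * BM (nn r) := ⟨_, rfl⟩
  have hΦs : ∀ r, Φ (r + 1) ≤ (1 - q / 12) * Φ r + q / 16 * DV (nn r) := by
    intro r
    rw [hΦ]
    simp only [hnns]
    exact t21_Phi S g0 T hM m q N hm hN hq hq2 hδ (nn r) (hn r)
  have hΦ0 : Φ 0 ≤ N := by
    have h1 : VV (nn 0) = 5 / 2 * Fintype.card I := by
      rw [hnn0]
      unfold VV
      rw [Finset.sum_const, Finset.card_univ, nsmul_eq_mul]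
      ring
    have h3 : BM (nn 0) = N := by
      rw [hnn0]
      unfold BM
      rw [Finset.sum_const, Finset.card_univ, nsmul_eq_mul, hN]
      ring
    rw [hΦ]
    simp only [h1, h3]
    have h4 : q / 48 * N ≤ 1 / 96 * N := mul_le_mul_of_nonneg_right (by linarith) hN0.le
    linarith
  have hΦA : ∀ r, r2 ≤ r + 1 → Φ r ≤ 11 / 10 * b := by
    intro r hr
    have h1 := t21_rec Φ (fun r => DV (nn r)) q b hq0.le hq2 0 r hΦs (fun k _ => hDb _)
      (by linarith) r le_rfl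
    rw [zero_add] at h1
    have h3 : (1 - q / 12) ^ (r + 1) ≤ (1 - q / 12) ^ r2 := pow_le_pow_of_le_one ha0 ha1 hr
    have h4 : (1 - q / 12) ^ (r + 1) * (4 * N) ≤ b :=
      (mul_le_mul_of_nonneg_right h3 (by linarith)).trans h2
    have h5 : (1 - q / 12) ^ r * Φ 0 ≤ (1 - q / 12) ^ r * N :=
      mul_le_mul_of_nonneg_left hΦ0 (pow_nonneg ha0 r)
    have h6 : 0 ≤ (1 - q / 12) ^ r * N := mul_nonneg (pow_nonneg ha0 r) hN0.le
    have h7 : (1 - q / 12) ^ (r + 1) * (4 * N) = (1 - q / 12) * (4 * ((1 - q / 12) ^ r * N)) := by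
      rw [pow_succ]; ring
    have h8 : 23 / 24 * (4 * ((1 - q / 12) ^ r * N)) ≤
        (1 - q / 12) * (4 * ((1 - q / 12) ^ r * N)) :=
      mul_le_mul_of_nonneg_right ha2 (by linarith)
    linarith
  have htot : ∀ r, tot (nn r) ≤ 48 / q * Φ r + DV (nn r) := by
    intro r
    have h1 := t21_tot (nn r) (hn r)
    have hV := t21_VV_nonneg (nn r) (hn r)
    have h3 : 48 / q * Φ r = 48 / q * VV (nn r) + BM (nn r) := by
      rw [hΦ]
      field_simp
    have h4 : 1 * VV (nn r) ≤ 48 / q * VV (nn r) := by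
      refine mul_le_mul_of_nonneg_right ?_ hV
      rw [le_div_iff₀ hq0]
      linarith
    linarith
  have hq1 : 1 ≤ 1 / (2 * q) := by
    rw [le_div_iff₀ (by positivity)]
    linarith
  have hMA : ∀ r, r2 ≤ r + 1 → tot (nn r) ≤ 60 * b / q := by
    intro r hr
    have h1 := htot r
    have h3 := hΦA r hr
    have h4 := hDb r
    have h5 : 48 / q * Φ r ≤ 48 / q * (11 / 10 * b) :=
      mul_le_mul_of_nonneg_left h3 (by positivity)
    have h6 : b ≤ b * (1 / (2 * q)) := by nlinarith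
    have h7 : 60 * b / q = 48 / q * (11 / 10 * b) + b * (1 / (2 * q)) + 67 / 10 * (b / q) := by
      field_simp
      ring
    have h8 : 0 ≤ 67 / 10 * (b / q) := by positivity
    linarith
  -- `r2 ≥ 1`
  have hr2 : 1 ≤ r2 := by
    by_contra h
    have h0 : r2 = 0 := by omega
    rw [h0, pow_zero, one_mul] at h2
    linarith
  -- the inflow
  obtain ⟨K, hK⟩ : ∃ K : ℝ, K = 180 * b / (q * N) + g0 / m := ⟨_, rfl⟩
  have hK0 : 0 ≤ K := by rw [hK]; positivity
  have hin : ∀ r, r2 ≤ r → ∀ t, (fw S.gl)^[t] (nn r) (Sum.inl S.p) ≤ K + g0 / m := by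
    intro r hr t
    obtain ⟨r', rfl⟩ : ∃ r', r = r' + 1 := ⟨r - 1, by omega⟩
    refine t21_in S g0 hM m N K hm hN (nn (r' + 1)) (hn _) (hn1 _) ?_ ?_ hK0 t S.p
    · intro x
      have h1 := t21_pt S g0 T hM m N hm hN hg (nn r') (hn _) (hn1 _) x
      rw [hnns]
      refine h1.trans ?_
      have h3 : 3 / N * tot (nn r') ≤ 3 / N * (60 * b / q) :=
        mul_le_mul_of_nonneg_left (hMA r' hr) (by positivity)
      have h4 : 3 / N * (60 * b / q) = 180 * b / (q * N) := by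
        field_simp
        ring
      rw [hK]
      linarith
    · have h3 : 2 / N * tot (nn (r' + 1)) ≤ 2 / N * (60 * b / q) :=
        mul_le_mul_of_nonneg_left (hMA (r' + 1) (by omega)) (by positivity)
      have h4 : 2 / N * (60 * b / q) = 120 * b / (q * N) := by
        field_simp
        ring
      have h5 : 120 * b / (q * N) ≤ 180 * b / (q * N) := by gcongr; norm_num
      have h6 : (0 : ℝ) ≤ g0 / m := by positivity
      rw [hK]
      linarith
  -- the device
  obtain ⟨Y, hY⟩ : ∃ Y : ℕ → Fin (d + 1) → ℝ, Y = fun k => ((t21_dst m)^[T])^[k]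
    (fun j => nn r2 (Sum.inr (Sum.inr j))) := ⟨_, rfl⟩
  have hY0 : Y 0 = fun j => nn r2 (Sum.inr (Sum.inr j)) := by rw [hY]; rfl
  have hYs : ∀ k, Y (k + 1) = (t21_dst m)^[T] (Y k) := by
    intro k
    rw [hY]
    exact Function.iterate_succ_apply' _ _ _
  have hDVW : ∀ r, DV (nn (r + 1)) = DV ((fw S.gl)^[T] (nn r)) := by
    intro r
    rw [hnns]
    unfold DV
    simp only [t21_WW_inr]
  have hdev : ∀ k, (∀ j, Y k j ≤ nn (r2 + k) (Sum.inr (Sum.inr j))) ∧
      DV (nn (r2 + k)) - ∑ j, Y k j ≤ k * q * (K + g0 / m) := by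
    intro k
    induction k with
    | zero =>
      rw [hY0]
      refine ⟨fun j => le_rfl, ?_⟩
      simp only [add_zero, Nat.cast_zero, zero_mul]
      unfold DV
      rw [sub_self]
    | succ k ih =>
      obtain ⟨h1, h3⟩ := ih
      have h4 := t21_dev S (nn (r2 + k)) (hn _) m (K + g0 / m) hm (Y k) h1
        (hin (r2 + k) (by omega)) T
      rw [← add_assoc, hYs, hDVW]
      refine ⟨?_, ?_⟩
      · intro j
        rw [hnns, t21_WW_inr]
        exact h4.1 j
      · have h5 := h4.2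
        rw [← hq] at h5
        push_cast
        linarith
  obtain ⟨ρ, hρ⟩ : ∃ ρ : ℝ, ρ = 1 - (1 - 1 / l) / m := ⟨_, rfl⟩
  have hl0 : 0 < l := by linarith
  have hl1 : 0 ≤ 1 - 1 / l := by
    rw [sub_nonneg, div_le_one hl0]
    exact hl.le
  have hl2 : 1 - 1 / l ≤ 1 := by
    have : 0 ≤ 1 / l := by positivity
    linarith
  have hρ0 : 0 ≤ ρ := by
    rw [hρ, sub_nonneg, div_le_one hm0]
    linarith
  have hρ1 : ρ ≤ 1 := by
    rw [hρ]
    have : 0 ≤ (1 - 1 / l) / m := by positivity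
    linarith
  have hlam : ∀ (t : ℕ) (y : Fin (d + 1) → ℝ), (∀ j, 0 ≤ y j) →
      (∀ j, 0 ≤ (t21_dst m)^[t] y j) ∧ t21_Lam l ((t21_dst m)^[t] y) ≤ ρ ^ t * t21_Lam l y := by
    intro t y hy
    induction t with
    | zero => exact ⟨hy, by simp⟩
    | succ t ih =>
      rw [Function.iterate_succ_apply']
      refine ⟨t21_dst_nonneg m hm1 _ ih.1, ?_⟩
      refine (t21_Lam_step m l hm1 hl _ ih.1).trans ?_
      rw [← hρ, pow_succ]
      have := mul_le_mul_of_nonneg_left ih.2 hρ0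
      linarith
  have hlamY : ∀ k, (∀ j, 0 ≤ Y k j) ∧ t21_Lam l (Y k) ≤ ρ ^ (k * T) * t21_Lam l (Y 0) := by
    intro k
    induction k with
    | zero =>
      refine ⟨fun j => ?_, by simp⟩
      rw [hY0]
      exact hn _ _
    | succ k ih =>
      have h1 := hlam T (Y k) ih.1
      rw [hYs]
      refine ⟨h1.1, h1.2.trans ?_⟩
      have h3 := mul_le_mul_of_nonneg_left ih.2 (pow_nonneg hρ0 T)
      have h4 : ρ ^ ((k + 1) * T) = ρ ^ T * ρ ^ (k * T) := by
        rw [← pow_add]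
        congr 1
        ring
      rw [h4]
      linarith
  have hLam0 : t21_Lam l (Y 0) ≤ l ^ (d + 2) / (l - 1) := by
    refine t21_Lam_le l hl _ fun j => ?_
    rw [hY0]
    exact hn1 _ _
  obtain ⟨Ds, hDs⟩ : ∃ Ds : ℝ, Ds = l ^ (d + 2) / (l - 1) * ρ ^ (r3 * T) +
    (r3 + r4) * q * (400 * b / (q * N) + 2 * g0 / m) := ⟨_, rfl⟩
  have hLpos : 0 ≤ l ^ (d + 2) / (l - 1) := by
    have : 0 < l - 1 := by linarith
    positivity
  have hDs0 : 0 ≤ Ds := by rw [hDs]; positivity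
  have hD : ∀ k, k ≤ r4 → DV (nn (r2 + r3 + k)) ≤ Ds := by
    intro k hk
    have h1 := (hdev (r3 + k)).2
    have h3 := t21_sum_le_Lam l hl (Y (r3 + k)) (hlamY (r3 + k)).1
    have h4 := (hlamY (r3 + k)).2
    rw [← add_assoc] at h1
    have h5 : ρ ^ ((r3 + k) * T) ≤ ρ ^ (r3 * T) :=
      pow_le_pow_of_le_one hρ0 hρ1 (Nat.mul_le_mul_right T (Nat.le_add_right _ _))
    have h6 : ρ ^ ((r3 + k) * T) * t21_Lam l (Y 0) ≤ ρ ^ (r3 * T) * (l ^ (d + 2) / (l - 1)) := by
      calc ρ ^ ((r3 + k) * T) * t21_Lam l (Y 0)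
          ≤ ρ ^ ((r3 + k) * T) * (l ^ (d + 2) / (l - 1)) :=
            mul_le_mul_of_nonneg_left hLam0 (pow_nonneg hρ0 _)
        _ ≤ ρ ^ (r3 * T) * (l ^ (d + 2) / (l - 1)) := mul_le_mul_of_nonneg_right h5 hLpos
    have h7 : ((r3 + k : ℕ) : ℝ) * q * (K + g0 / m) ≤
        (r3 + r4) * q * (400 * b / (q * N) + 2 * g0 / m) := by
      have h8 : ((r3 + k : ℕ) : ℝ) ≤ r3 + r4 := by
        push_cast
        have : (k : ℝ) ≤ r4 := by exact_mod_cast hk
        linarith
      have h9 : K + g0 / m ≤ 400 * b / (q * N) + 2 * g0 / m := by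
        have e1 : 180 * b / (q * N) ≤ 400 * b / (q * N) := by gcongr; norm_num
        rw [hK]
        have e2 : 2 * (g0 : ℝ) / m = g0 / m + g0 / m := by ring
        rw [e2]
        linarith
      have h10 : 0 ≤ K + g0 / m := by positivity
      gcongr
    rw [hDs]
    linarith
  have hΦB : Φ (r2 + r3 + r4) ≤ (1 - q / 12) ^ r4 * (11 / 10 * b) + 3 / 4 * Ds := by
    have h1 := t21_rec Φ (fun r => DV (nn r)) q Ds hq0.le hq2 (r2 + r3) r4 hΦs
      (fun k hk => hD k hk.le) hDs0 r4 le_rfl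
    have h3 := mul_le_mul_of_nonneg_left (hΦA (r2 + r3) (by omega)) (pow_nonneg ha0 r4)
    linarith
  have hfin := htot (r2 + r3 + r4)
  have hDfin := hD r4 le_rfl
  have e0 : (S.WW T)^[r2 + r3 + r4] (fun _ => 1) = nn (r2 + r3 + r4) := by rw [hnn]
  rw [e0]
  have e1 : 2 * b * (1 - q / 12) ^ r4 + l ^ (d + 2) / (l - 1) * (1 - (1 - 1 / l) / m) ^ (r3 * T)
        + (r3 + r4) * q * (400 * b / (q * N) + 2 * g0 / m) =
      2 * b * (1 - q / 12) ^ r4 + Ds := by
    rw [hDs, hρ]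
    ring
  rw [e1]
  have e2 : 48 / q * Φ (r2 + r3 + r4) ≤
      48 / q * ((1 - q / 12) ^ r4 * (11 / 10 * b) + 3 / 4 * Ds) :=
    mul_le_mul_of_nonneg_left hΦB (by positivity)
  have e3 : Ds ≤ Ds * (1 / (2 * q)) := by nlinarith
  have e4 : 200 / q * (2 * b * (1 - q / 12) ^ r4 + Ds) =
      48 / q * ((1 - q / 12) ^ r4 * (11 / 10 * b) + 3 / 4 * Ds) + Ds * (1 / (2 * q)) +
        (1736 / 5 * (b * (1 - q / 12) ^ r4 / q) + 327 / 2 * (Ds / q)) := by
    field_simp
    ring
  have e5 : 0 ≤ 1736 / 5 * (b * (1 - q / 12) ^ r4 / q) + 327 / 2 * (Ds / q) := by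
    have := pow_nonneg ha0 r4
    positivity
  linarith

end win

end Pool.Agent.H9.Low
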