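import Pool.Agent.H9.Low.T22a
import Pool.Agent.H9.Low.T19
import Pool.Agent.H9.Low.T20

/-!
# The final total variation bound
-/

namespace Pool.Agent.H9.Low

open Equiv Finset

variable {β I : Type} [Fintype β] [DecidableEq β] [Fintype I] [DecidableEq I] {w w2 d : ℕ}

theorem final_tv (S : HSys β I w w2 d) (hβ : Nonempty β) (J D t2 T r : ℕ) (hD0 : 0 < D)
    (hD : ∀ V : Submodule ℝ (Perm (Pos β I d) → ℝ), V ≤ HH (Pos β I d) J → V ≠ ⊥ →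
      (∀ (g : Perm (Pos β I d)) (F : Perm (Pos β I d) → ℝ), F ∈ V → Lt g F ∈ V) →
      D ≤ Module.finrank ℝ V)
    (C ε : ℝ) (hC : 1 ≤ C) (ρ : Perm (Pos β I d) → ℝ) (hρ : ∀ σ, 0 ≤ ρ σ) (hρ1 : av ρ ≤ ε)
    (hfC : ∀ σ, S.P^[t2] (dl (Perm (Pos β I d))) σ ≤ C + ρ σ)
    (hlow : ∀ F ∈ UU (Pos β I d) J,
      nsq (fun σ => S.Po^[T] F σ - EH (S.Po^[T] F) σ) ≤ (1 / 4) ^ T * nsq F)
    (t : ℕ) (ht : 2 * t2 + r * T ≤ t) :
    av (fun σ => |S.P^[t] (dl (Perm (Pos β I d))) σ - 1|) ≤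
      2 * (2 * ε + C / √D) + r * (1 / 2) ^ T * √C + tot ((S.WW T)^[r] (fun _ => 1)) :=
  final_tv_of S J D t2 T r C ε (fun g _ hF => t19_UU_R J g hF)
    (quasi J D hD0 hD _ ρ C ε hC (t22_iter_dens S.gl t2 dens_dl) hρ hρ1 hfC)
    (fun F hF => disc S.toSys T r hβ F hF) hlow t ht

end Pool.Agent.H9.Low
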