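import Pool.Agent.H9.Low.Basic

/-!
# The final total variation bound, from its three inputs
-/

namespace Pool.Agent.H9.Low

open Equiv Finset

section gen

variable {G : Type*} [Group G] [Fintype G]

theorem t22_R_dl [DecidableEq G] (g σ : G) :
    R g (dl G) σ = if σ = g then (Fintype.card G : ℝ) else 0 := by
  unfold R dl
  simp only [mul_inv_eq_one]

/-- the iterates of the step operator are convolutions with the iterates of the unit mass -/
theorem t22_cv {ι : Type*} [Fintype ι] [DecidableEq G] (s : ι → G) (t : ℕ) (h : G → ℝ) :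
    cv h ((Mav s)^[t] (dl G)) = (Mav s)^[t] h := by
  funext σ
  rw [Mav_iter s t (dl G), Mav_iter s t h]
  unfold cv
  have h1 : ∀ g : G, h (σ * g⁻¹) * (av fun v : Fin t → ι => R (wd s v) (dl G) g) =
      av fun v : Fin t → ι => h (σ * g⁻¹) * R (wd s v) (dl G) g := fun g => by
    rw [av_mul_left]
  simp only [h1]
  rw [av_comm]
  congr 1
  funext v
  have hc : (Fintype.card G : ℝ) ≠ 0 := by exact_mod_cast Fintype.card_ne_zero
  simp only [t22_R_dl]
  unfold av
  rw [Finset.sum_eq_single (wd s v)]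
  · rw [if_pos rfl]
    unfold R
    field_simp
  · intro g _ hg
    rw [if_neg hg, mul_zero]
  · intro hn
    exact absurd (Finset.mem_univ _) hn

theorem t22_iter_dens {ι : Type*} [Fintype ι] [Nonempty ι] (s : ι → G) (t : ℕ) {h : G → ℝ}
    (hh : Dens h) : Dens ((Mav s)^[t] h) := by
  induction t with
  | zero => exact hh
  | succ t ih =>
    rw [Function.iterate_succ_apply']
    exact dens_Mav ih s

theorem t22_iter_sub {ι : Type*} [Fintype ι] (s : ι → G) (t : ℕ) (F F' : G → ℝ) :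
    (Mav s)^[t] (fun σ => F σ - F' σ) = fun σ => (Mav s)^[t] F σ - (Mav s)^[t] F' σ := by
  induction t generalizing F F' with
  | zero => rfl
  | succ t ih =>
    rw [Function.iterate_succ_apply, Function.iterate_succ_apply, Function.iterate_succ_apply,
      Mav_sub, ih]

theorem t22_iter_abs {ι : Type*} [Fintype ι] [Nonempty ι] (s : ι → G) (t : ℕ) (F : G → ℝ) :
    av (fun σ => |(Mav s)^[t] F σ|) ≤ av fun σ => |F σ| := by
  induction t generalizing F with
  | zero => exact le_rfl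
  | succ t ih =>
    rw [Function.iterate_succ_apply]
    exact (ih _).trans (av_abs_Mav_le s F)

theorem t22_iter_nsq {ι : Type*} [Fintype ι] [Nonempty ι] (s : ι → G) (t : ℕ) (F : G → ℝ) :
    nsq ((Mav s)^[t] F) ≤ nsq F := by
  induction t generalizing F with
  | zero => exact le_rfl
  | succ t ih =>
    rw [Function.iterate_succ_apply]
    exact (ih _).trans (nsq_Mav_le s F)

theorem t22_iter_one {ι : Type*} [Fintype ι] [Nonempty ι] (s : ι → G) (t : ℕ) :
    (Mav s)^[t] (fun _ : G => (1 : ℝ)) = fun _ => 1 := by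
  induction t with
  | zero => rfl
  | succ t ih =>
    rw [Function.iterate_succ_apply]
    have h1 : Mav s (fun _ : G => (1 : ℝ)) = fun _ => 1 := by
      funext σ
      unfold Mav
      exact av_const 1
    rw [h1, ih]

/-- the distance from the uniform law decreases -/
theorem t22_mono {ι : Type*} [Fintype ι] [Nonempty ι] (s : ι → G) {t t' : ℕ} (htt : t ≤ t')
    (F : G → ℝ) :
    av (fun σ => |(Mav s)^[t'] F σ - 1|) ≤ av fun σ => |(Mav s)^[t] F σ - 1| := by
  obtain ⟨k, rfl⟩ := Nat.exists_eq_add_of_le htt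
  have h1 : ∀ σ, (Mav s)^[t + k] F σ - 1 =
      (Mav s)^[k] (fun σ => (Mav s)^[t] F σ - (fun _ : G => (1 : ℝ)) σ) σ := by
    intro σ
    rw [t22_iter_sub, t22_iter_one, add_comm t k, Function.iterate_add_apply]
  simp only [h1]
  exact t22_iter_abs s k _

/-- the average of `|F|` is subadditive -/
theorem t22_abs_add {X : Type*} [Fintype X] (f g : X → ℝ) :
    av (fun x => |f x + g x|) ≤ av (fun x => |f x|) + av fun x => |g x| := by
  rw [← av_add]
  exact av_le_av fun x => abs_add_le _ _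

end gen

section fin

variable {β I : Type} [Fintype β] [DecidableEq β] [Fintype I] [DecidableEq I] {w w2 d : ℕ}

theorem t22_P_mem (S : Sys β I d) (J : ℕ)
    (hUU : ∀ (g : Perm (Pos β I d)) (F : Perm (Pos β I d) → ℝ), F ∈ UU (Pos β I d) J →
      R g F ∈ UU (Pos β I d) J)
    (F : Perm (Pos β I d) → ℝ) (hF : F ∈ UU (Pos β I d) J) : S.P F ∈ UU (Pos β I d) J := by
  have h1 : S.P F = ((Fintype.card (Option I) : ℝ))⁻¹ • ∑ i : Option I, R (S.gl i) F := by
    funext σ
    simp only [Sys.P, Mav, av, R, Pi.smul_apply, Finset.sum_apply, smul_eq_mul]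
    rw [div_eq_inv_mul]
  rw [h1]
  exact Submodule.smul_mem _ _ (Submodule.sum_mem _ fun i _ => hUU _ _ hF)

theorem t22_iter_mem (S : Sys β I d) (J : ℕ)
    (hUU : ∀ (g : Perm (Pos β I d)) (F : Perm (Pos β I d) → ℝ), F ∈ UU (Pos β I d) J →
      R g F ∈ UU (Pos β I d) J) (t : ℕ)
    (F : Perm (Pos β I d) → ℝ) (hF : F ∈ UU (Pos β I d) J) :
    S.P^[t] F ∈ UU (Pos β I d) J := by
  induction t with
  | zero => exact hF
  | succ t ih =>
    rw [Function.iterate_succ_apply']
    exact t22_P_mem S J hUU _ ih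

theorem t22_st_sub (S : Sys β I d) {T : ℕ} (v : Fin T → Option I)
    (F F' : Perm (Pos β I d) → ℝ) (σ : Perm (Pos β I d)) :
    S.st v (fun σ => F σ - F' σ) σ = S.st v F σ - S.st v F' σ := by
  unfold Sys.st
  have h1 : R (wd S.gl v) (fun σ => F σ - F' σ) =
      fun σ => R (wd S.gl v) F σ - R (wd S.gl v) F' σ := rfl
  by_cases h : ∀ i, v i ≠ none
  · rw [if_pos h, if_pos h, if_pos h, h1]
    exact congrFun (EK_sub (inlP β (Out I d)) _ _) σ
  · rw [if_neg h, if_neg h, if_neg h, h1]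

theorem t22_Dm_sub (S : Sys β I d) (T : ℕ) (F F' : Perm (Pos β I d) → ℝ) :
    S.Dm T (fun σ => F σ - F' σ) = fun σ => S.Dm T F σ - S.Dm T F' σ := by
  funext σ
  unfold Sys.Dm
  rw [← av_sub]
  congr 1
  funext v
  exact t22_st_sub S v F F' σ

theorem t22_Dm_iter_sub (S : Sys β I d) (T r : ℕ) (F F' : Perm (Pos β I d) → ℝ) :
    (S.Dm T)^[r] (fun σ => F σ - F' σ) = fun σ => (S.Dm T)^[r] F σ - (S.Dm T)^[r] F' σ := by
  induction r generalizing F F' with
  | zero => rfl
  | succ r ih =>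
    rw [Function.iterate_succ_apply, Function.iterate_succ_apply, Function.iterate_succ_apply,
      t22_Dm_sub, ih]

theorem t22_st_abs (S : Sys β I d) {T : ℕ} (v : Fin T → Option I)
    (F : Perm (Pos β I d) → ℝ) :
    av (fun σ => |S.st v F σ|) ≤ av fun σ => |F σ| := by
  unfold Sys.st
  have h1 : av (fun σ => |R (wd S.gl v) F σ|) = av fun σ => |F σ| :=
    av_R (wd S.gl v) (fun σ => |F σ|)
  by_cases h : ∀ i, v i ≠ none
  · simp only [if_pos h]
    exact (av_abs_EK_le (inlP β (Out I d)) _).trans h1.le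
  · simp only [if_neg h]
    exact h1.le

theorem t22_Dm_abs (S : Sys β I d) (T : ℕ) (F : Perm (Pos β I d) → ℝ) :
    av (fun σ => |S.Dm T F σ|) ≤ av fun σ => |F σ| := by
  unfold Sys.Dm
  have h1 : av (fun σ => |av fun v : Fin T → Option I => S.st v F σ|) ≤
      av fun σ => av fun v : Fin T → Option I => |S.st v F σ| := av_le_av fun σ => av_abs_le _
  refine h1.trans ?_
  rw [av_comm]
  exact av_le_const fun v => t22_st_abs S v F

theorem t22_Dm_iter_abs (S : Sys β I d) (T r : ℕ) (F : Perm (Pos β I d) → ℝ) :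
    av (fun σ => |(S.Dm T)^[r] F σ|) ≤ av fun σ => |F σ| := by
  induction r generalizing F with
  | zero => exact le_rfl
  | succ r ih =>
    rw [Function.iterate_succ_apply]
    exact (ih _).trans (t22_Dm_abs S T F)

theorem t22_wd_some (S : Sys β I d) {T : ℕ} (v : Fin T → I) :
    wd S.gl (fun i => some (v i)) = wd S.g v := rfl

/-- words without the letter `c` -/
theorem t22_sum_some {T : ℕ} (f : (Fin T → Option I) → ℝ) :
    (∑ v : Fin T → Option I, if ∀ i, v i ≠ none then f v else 0) =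
      ∑ v : Fin T → I, f (fun i => some (v i)) := by
  rw [← Finset.sum_filter]
  symm
  refine Finset.sum_bij (fun v _ => fun i => some (v i)) ?_ ?_ ?_ ?_
  · intro v _
    rw [Finset.mem_filter]
    exact ⟨Finset.mem_univ _, fun i => Option.some_ne_none _⟩
  · intro v _ v' _ h
    funext i
    exact Option.some_injective _ (congrFun h i)
  · intro v hv
    rw [Finset.mem_filter] at hv
    refine ⟨fun i => (v i).get (Option.ne_none_iff_isSome.1 (hv.2 i)), Finset.mem_univ _, ?_⟩
    funext i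
    simp
  · intro v _
    rfl

theorem t22_diff (S : Sys β I d) (T : ℕ) (F : Perm (Pos β I d) → ℝ) (σ : Perm (Pos β I d)) :
    S.P^[T] F σ - S.Dm T F σ =
      ((Fintype.card I : ℝ) / Fintype.card (Option I)) ^ T *
        (S.Po^[T] F σ - EH (S.Po^[T] F) σ) := by
  have e1 : S.P^[T] F = fun σ => av fun v : Fin T → Option I => R (wd S.gl v) F σ :=
    Mav_iter S.gl T F
  have e2 : S.Po^[T] F = fun σ => av fun v : Fin T → I => R (wd S.g v) F σ :=
    Mav_iter S.g T F
  have h1 : S.P^[T] F σ - S.Dm T F σ = av fun v : Fin T → Option I =>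
      if ∀ i, v i ≠ none then (R (wd S.gl v) F σ - EH (R (wd S.gl v) F) σ) else 0 := by
    rw [e1]
    unfold Sys.Dm
    rw [← av_sub]
    congr 1
    funext v
    unfold Sys.st
    by_cases h : ∀ i, v i ≠ none
    · rw [if_pos h, if_pos h]
    · rw [if_neg h, if_neg h, sub_self]
  have h2 : S.Po^[T] F σ - EH (S.Po^[T] F) σ = av fun v : Fin T → I =>
      (R (wd S.g v) F σ - EH (R (wd S.g v) F) σ) := by
    rw [e2, av_sub]
    congr 1
    unfold EH EK
    rw [av_comm]
  rw [h1, h2]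
  unfold av
  rw [t22_sum_some (fun v => R (wd S.gl v) F σ - EH (R (wd S.gl v) F) σ)]
  simp only [t22_wd_some]
  rw [Fintype.card_fun, Fintype.card_fun, Fintype.card_fin]
  push_cast
  rcases Nat.eq_zero_or_pos T with hT | hT
  · subst hT
    simp
  rcases Nat.eq_zero_or_pos (Fintype.card I) with hI | hI
  · have : IsEmpty I := Fintype.card_eq_zero_iff.1 hI
    have h3 : (∑ v : Fin T → I, (R (wd S.g v) F σ - EH (R (wd S.g v) F) σ)) = 0 := by
      have : IsEmpty (Fin T → I) := ⟨fun v => IsEmpty.false (v ⟨0, hT⟩)⟩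
      exact Finset.sum_of_isEmpty _
    rw [h3]
    simp
  · have hI' : (Fintype.card I : ℝ) ≠ 0 := by exact_mod_cast hI.ne'
    have hO : (Fintype.card (Option I) : ℝ) ≠ 0 := by exact_mod_cast Fintype.card_ne_zero
    rw [div_pow]
    field_simp

theorem t22_diff_nsq (S : Sys β I d) (T : ℕ) (F : Perm (Pos β I d) → ℝ) (c : ℝ)
    (h : nsq (fun σ => S.Po^[T] F σ - EH (S.Po^[T] F) σ) ≤ c) :
    nsq (fun σ => S.P^[T] F σ - S.Dm T F σ) ≤ c := by
  simp only [t22_diff]
  rw [nsq_smul]
  have h0 : 0 ≤ (Fintype.card I : ℝ) / Fintype.card (Option I) := by positivity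
  have h1 : (Fintype.card I : ℝ) / Fintype.card (Option I) ≤ 1 := by
    have hO : (0 : ℝ) < Fintype.card (Option I) := by exact_mod_cast Fintype.card_pos
    rw [div_le_one hO]
    rw [Fintype.card_option]
    push_cast
    linarith
  have h2 : (((Fintype.card I : ℝ) / Fintype.card (Option I)) ^ T) ^ 2 ≤ 1 := by
    rw [← pow_mul]
    exact pow_le_one₀ h0 h1
  calc _ ≤ 1 * nsq (fun σ => S.Po^[T] F σ - EH (S.Po^[T] F) σ) :=
        mul_le_mul_of_nonneg_right h2 (nsq_nonneg _)
    _ ≤ c := by rw [one_mul]; exact h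

theorem final_tv_of (S : HSys β I w w2 d) (J D t2 T r : ℕ)
    (C ε : ℝ)
    (hUU : ∀ (g : Perm (Pos β I d)) (F : Perm (Pos β I d) → ℝ), F ∈ UU (Pos β I d) J →
      R g F ∈ UU (Pos β I d) J)
    (hquasi : ∃ low ∈ UU (Pos β I d) J, nsq low ≤ C ∧
      av (fun σ => |cv (S.P^[t2] (dl (Perm (Pos β I d)))) (S.P^[t2] (dl (Perm (Pos β I d)))) σ -
        low σ|) ≤ 2 * ε + C / √D)
    (hdisc : ∀ F : Perm (Pos β I d) → ℝ, Dens F →
      av (fun σ => |(S.Dm T)^[r] F σ - 1|) ≤ tot ((S.WW T)^[r] (fun _ => 1)))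
    (hlow : ∀ F ∈ UU (Pos β I d) J,
      nsq (fun σ => S.Po^[T] F σ - EH (S.Po^[T] F) σ) ≤ (1 / 4) ^ T * nsq F)
    (t : ℕ) (ht : 2 * t2 + r * T ≤ t) :
    av (fun σ => |S.P^[t] (dl (Perm (Pos β I d))) σ - 1|) ≤
      2 * (2 * ε + C / √D) + r * (1 / 2) ^ T * √C + tot ((S.WW T)^[r] (fun _ => 1)) := by
  obtain ⟨low, hlU, hlC, hl1⟩ := hquasi
  set P := S.P with hP
  have hPM : P = Mav S.gl := rfl
  set f := P^[t2] (dl (Perm (Pos β I d))) with hf
  have hcv : cv f f = P^[t2 + t2] (dl (Perm (Pos β I d))) := by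
    rw [Function.iterate_add_apply, hf, hPM]
    exact t22_cv S.gl t2 _
  -- monotonicity
  have hmono : av (fun σ => |P^[t] (dl (Perm (Pos β I d))) σ - 1|) ≤
      av (fun σ => |P^[r * T] (cv f f) σ - 1|) := by
    rw [hcv, ← Function.iterate_add_apply, hPM]
    exact t22_mono S.gl (by omega) _
  refine hmono.trans ?_
  -- the telescoping sum
  have htel : ∀ k : ℕ, av (fun σ => |P^[k * T] low σ - (S.Dm T)^[k] low σ|) ≤
      k * (1 / 2) ^ T * √C := by
    intro k
    induction k with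
    | zero => simp [av]
    | succ k ih =>
      have hmem : P^[k * T] low ∈ UU (Pos β I d) J := t22_iter_mem S.toSys J hUU _ _ hlU
      have hn : nsq (P^[k * T] low) ≤ C := by
        refine le_trans ?_ hlC
        rw [hPM]
        exact t22_iter_nsq S.gl _ _
      have h1 : ∀ σ, P^[(k + 1) * T] low σ - (S.Dm T)^[k + 1] low σ =
          (P^[T] (P^[k * T] low) σ - S.Dm T (P^[k * T] low) σ) +
            S.Dm T (fun σ => P^[k * T] low σ - (S.Dm T)^[k] low σ) σ := by
        intro σ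
        rw [t22_Dm_sub, Function.iterate_succ_apply', ← Function.iterate_add_apply,
          show T + k * T = (k + 1) * T by ring]
        ring
      simp only [h1]
      refine (t22_abs_add _ _).trans ?_
      have h2 : av (fun σ => |P^[T] (P^[k * T] low) σ - S.Dm T (P^[k * T] low) σ|) ≤
          (1 / 2) ^ T * √C := by
        refine (av_abs_le_sqrt _).trans ?_
        have h3 := t22_diff_nsq S.toSys T (P^[k * T] low) _ (hlow _ hmem)
        refine (Real.sqrt_le_sqrt h3).trans ?_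
        rw [Real.sqrt_mul (by positivity), show ((1 : ℝ) / 4) ^ T = ((1 / 2) ^ T) ^ 2 by
          rw [← pow_mul, mul_comm T 2, pow_mul]; norm_num, Real.sqrt_sq (by positivity)]
        exact mul_le_mul_of_nonneg_left (Real.sqrt_le_sqrt hn) (by positivity)
      have h4 := t22_Dm_abs S.toSys T (fun σ => P^[k * T] low σ - (S.Dm T)^[k] low σ)
      push_cast
      linarith
  have hdens : Dens (cv f f) := by
    rw [hcv, hPM]
    exact t22_iter_dens S.gl _ dens_dl
  have hd := hdisc (cv f f) hdens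
  have hA : av (fun σ => |P^[r * T] (cv f f) σ - P^[r * T] low σ|) ≤ 2 * ε + C / √D := by
    have h1 : ∀ σ, P^[r * T] (cv f f) σ - P^[r * T] low σ =
        (Mav S.gl)^[r * T] (fun σ => cv f f σ - low σ) σ := by
      intro σ
      rw [t22_iter_sub, hPM]
    simp only [h1]
    exact (t22_iter_abs S.gl _ _).trans hl1
  have hB : av (fun σ => |(S.Dm T)^[r] low σ - (S.Dm T)^[r] (cv f f) σ|) ≤
      2 * ε + C / √D := by
    have h1 : ∀ σ, |(S.Dm T)^[r] low σ - (S.Dm T)^[r] (cv f f) σ| =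
        |(S.Dm T)^[r] (fun σ => cv f f σ - low σ) σ| := by
      intro σ
      rw [t22_Dm_iter_sub, abs_sub_comm]
    simp only [h1]
    exact (t22_Dm_iter_abs S.toSys T r _).trans hl1
  have hsum : ∀ σ, P^[r * T] (cv f f) σ - 1 =
      (P^[r * T] (cv f f) σ - P^[r * T] low σ) +
        ((P^[r * T] low σ - (S.Dm T)^[r] low σ) +
          (((S.Dm T)^[r] low σ - (S.Dm T)^[r] (cv f f) σ) + ((S.Dm T)^[r] (cv f f) σ - 1))) := by
    intro σ
    ring
  simp only [hsum]
  have s1 := t22_abs_add (fun σ => P^[r * T] (cv f f) σ - P^[r * T] low σ)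
    (fun σ => (P^[r * T] low σ - (S.Dm T)^[r] low σ) +
      (((S.Dm T)^[r] low σ - (S.Dm T)^[r] (cv f f) σ) + ((S.Dm T)^[r] (cv f f) σ - 1)))
  have s2 := t22_abs_add (fun σ => P^[r * T] low σ - (S.Dm T)^[r] low σ)
    (fun σ => ((S.Dm T)^[r] low σ - (S.Dm T)^[r] (cv f f) σ) + ((S.Dm T)^[r] (cv f f) σ - 1))
  have s3 := t22_abs_add (fun σ => (S.Dm T)^[r] low σ - (S.Dm T)^[r] (cv f f) σ)
    (fun σ => (S.Dm T)^[r] (cv f f) σ - 1)
  have h5 := htel r
  linarith

end fin

end Pool.Agent.H9.Low
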