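import Pool.Agent.H9.Low.T17b

/-!
# Lower bound: the device is not flushed before time `t_n`
-/

namespace Pool.Agent.H9.Low

open Equiv Finset

section lower
variable {β I : Type} [Fintype β] [DecidableEq β] [Fintype I] [DecidableEq I] {d : ℕ}

/-- the card that starts at the first place of the device is in the device -/
def inDev (β I : Type) (d : ℕ) (σ : Perm (Pos β I d)) : Prop :=
  ∃ j : Fin (d + 1), σ (Sum.inr (Sum.inr j)) = Sum.inr (Sum.inr 0)

theorem t23_dl {G : Type*} [Group G] [Fintype G] [DecidableEq G] (f : G → ℝ) (g : G) :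
    av (fun σ => f σ * R g (dl G) σ) = f g := by
  rw [← av_mulRight g (fun σ => f σ * R g (dl G) σ)]
  unfold R dl av
  have h1 : ∀ σ : G, f (σ * g) * (if σ * g * g⁻¹ = 1 then (Fintype.card G : ℝ) else 0)
      = if σ = 1 then f g * (Fintype.card G : ℝ) else 0 := by
    intro σ
    rw [mul_inv_cancel_right]
    by_cases h : σ = 1
    · rw [if_pos h, if_pos h, h, one_mul]
    · rw [if_neg h, if_neg h, mul_zero]
  simp only [h1]
  rw [Finset.sum_ite_eq' Finset.univ (1 : G), if_pos (Finset.mem_univ _)]
  have : (Fintype.card G : ℝ) ≠ 0 := by exact_mod_cast Fintype.card_ne_zero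
  field_simp

theorem t23_word {G : Type*} [Group G] [Fintype G] [DecidableEq G] {ι : Type*} [Fintype ι]
    (s : ι → G) (t : ℕ) (f : G → ℝ) :
    av (fun σ => f σ * (Mav s)^[t] (dl G) σ) = av fun v : Fin t → ι => f (wd s v) := by
  rw [Mav_iter]
  have h1 : (fun σ => f σ * av fun v : Fin t → ι => R (wd s v) (dl G) σ)
      = fun σ => av fun v : Fin t → ι => f σ * R (wd s v) (dl G) σ := by
    funext σ
    rw [av_mul_left]
  rw [h1, av_comm]
  congr 1
  funext v
  exact t23_dl f (wd s v)

/-- the number of letters `c` of a word -/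
def t23_n {t : ℕ} (v : Fin t → Option I) : ℕ := ∑ i, if v i = none then 1 else 0

theorem t23_n_cons {t : ℕ} (i : Option I) (v : Fin t → Option I) :
    t23_n (Fin.cons i v : Fin (t + 1) → Option I) = (if i = none then 1 else 0) + t23_n v := by
  unfold t23_n
  rw [Fin.sum_univ_succ]
  simp only [Fin.cons_zero, Fin.cons_succ]

theorem t23_dev (S : Sys β I d) (t : ℕ) : ∀ (v : Fin t → Option I) (j : ℕ)
    (h : t23_n v + j < d + 1) (h' : j < d + 1),
    wd S.gl v (Sum.inr (Sum.inr ⟨t23_n v + j, h⟩)) = Sum.inr (Sum.inr ⟨j, h'⟩) := by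
  induction t with
  | zero =>
    intro v j h h'
    rw [wd_zero]
    have : t23_n v = 0 := by simp [t23_n]
    simp only [this, zero_add, Equiv.Perm.coe_one, id]
  | succ t ih =>
    intro v
    rw [← Fin.cons_self_tail v]
    generalize v 0 = i
    generalize Fin.tail v = u
    intro j h h'
    have hn := t23_n_cons i u
    rw [wd_cons, Equiv.Perm.mul_apply]
    rcases i with _ | i
    · have hn' : t23_n (Fin.cons none u : Fin (t + 1) → Option I) = t23_n u + 1 := by
        rw [hn, if_pos rfl]; ring
      have hlt : t23_n u + (j + 1) < d + 1 := by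
        rw [hn'] at h; omega
      have e1 : (⟨t23_n (Fin.cons none u : Fin (t + 1) → Option I) + j, h⟩ : Fin (d + 1))
          = ⟨t23_n u + (j + 1), hlt⟩ := by
        apply Fin.ext
        show t23_n (Fin.cons none u : Fin (t + 1) → Option I) + j = t23_n u + (j + 1)
        omega
      rw [e1, ih u (j + 1) hlt (by omega)]
      have := S.c_dvs ⟨j, by omega⟩
      exact this
    · have hn' : t23_n (Fin.cons (some i) u : Fin (t + 1) → Option I) = t23_n u := by
        rw [hn, if_neg (by simp)]; ring
      have hlt : t23_n u + j < d + 1 := by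
        rw [hn'] at h; exact h
      have e1 : (⟨t23_n (Fin.cons (some i) u : Fin (t + 1) → Option I) + j, h⟩ : Fin (d + 1))
          = ⟨t23_n u + j, hlt⟩ := by
        apply Fin.ext
        show t23_n (Fin.cons (some i) u : Fin (t + 1) → Option I) + j = t23_n u + j
        omega
      rw [e1, ih u j hlt h']
      rfl

theorem t23_inDev (S : Sys β I d) (t : ℕ) (v : Fin t → Option I) (h : t23_n v < d + 1) :
    inDev β I d (wd S.gl v) :=
  ⟨⟨t23_n v + 0, h⟩, t23_dev S t v 0 h (by omega)⟩

theorem t23_var (m : ℝ) (hm : m = Fintype.card I + 1) (t : ℕ) :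
    av (fun v : Fin t → Option I => ((t23_n v : ℝ) - t / m)) = 0 ∧
    av (fun v : Fin t → Option I => ((t23_n v : ℝ) - t / m) ^ 2) ≤ t / m := by
  have hm0 : 0 < m := by rw [hm]; positivity
  have hcard : (Fintype.card (Option I) : ℝ) = m := by
    rw [Fintype.card_option, hm]
    push_cast
    ring
  induction t with
  | zero =>
    constructor
    · simp [av, t23_n]
    · simp [av, t23_n]
  | succ t ih =>
    obtain ⟨h1, h2⟩ := ih
    have hX1 : av (fun i : Option I => (if i = none then (1 : ℝ) else 0) - 1 / m) = 0 := by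
      unfold av
      rw [Finset.sum_sub_distrib, Finset.sum_ite_eq' Finset.univ none,
        if_pos (Finset.mem_univ _), Finset.sum_const, Finset.card_univ, nsmul_eq_mul, hcard]
      field_simp
      ring
    have hX2 : av (fun i : Option I => ((if i = none then (1 : ℝ) else 0) - 1 / m) ^ 2)
        ≤ 1 / m := by
      have e : ∀ i : Option I, ((if i = none then (1 : ℝ) else 0) - 1 / m) ^ 2
          = (if i = none then 1 - 2 / m else 0) + 1 / m ^ 2 := by
        intro i
        split_ifs <;> field_simp <;> ring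
      simp only [e]
      unfold av
      rw [Finset.sum_add_distrib, Finset.sum_ite_eq' Finset.univ none,
        if_pos (Finset.mem_univ _), Finset.sum_const, Finset.card_univ, nsmul_eq_mul, hcard]
      have : (1 - 2 / m + m * (1 / m ^ 2)) / m = 1 / m - 1 / m ^ 2 := by
        field_simp
        ring
      rw [this]
      have : 0 ≤ 1 / m ^ 2 := by positivity
      linarith
    have e0 : ∀ (i : Option I) (v : Fin t → Option I),
        ((t23_n (Fin.cons i v : Fin (t + 1) → Option I) : ℝ) - ((t + 1 : ℕ) : ℝ) / m)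
          = ((if i = none then (1 : ℝ) else 0) - 1 / m) + ((t23_n v : ℝ) - t / m) := by
      intro i v
      rw [t23_n_cons]
      push_cast
      ring
    have hne : Nonempty (Fin t → Option I) := ⟨fun _ => none⟩
    have hne2 : Nonempty (Option I) := ⟨none⟩
    constructor
    · rw [av_cons]
      simp only [e0]
      have e2 : (fun i : Option I => av fun v : Fin t → Option I =>
          ((if i = none then (1 : ℝ) else 0) - 1 / m) + ((t23_n v : ℝ) - t / m))
          = fun i : Option I => (if i = none then (1 : ℝ) else 0) - 1 / m := by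
        funext i
        rw [av_add, h1, av_const, add_zero]
      rw [e2, hX1]
    · rw [av_cons]
      simp only [e0]
      have e2 : (fun i : Option I => av fun v : Fin t → Option I =>
          (((if i = none then (1 : ℝ) else 0) - 1 / m) + ((t23_n v : ℝ) - t / m)) ^ 2)
          = fun i : Option I => ((if i = none then (1 : ℝ) else 0) - 1 / m) ^ 2
            + av (fun v : Fin t → Option I => ((t23_n v : ℝ) - t / m) ^ 2) := by
        funext i
        set X : ℝ := (if i = none then (1 : ℝ) else 0) - 1 / m with hX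
        have e3 : (fun v : Fin t → Option I => (X + ((t23_n v : ℝ) - t / m)) ^ 2)
            = fun v : Fin t → Option I => (X ^ 2 + (2 * X) * ((t23_n v : ℝ) - t / m))
              + ((t23_n v : ℝ) - t / m) ^ 2 := by
          funext v; ring
        rw [e3, av_add, av_add, av_mul_left, h1, av_const]
        ring
      rw [e2, av_add, av_const]
      push_cast
      have e4 : ((t : ℝ) + 1) / m = 1 / m + t / m := by ring
      rw [e4]
      linarith

open Classical in
theorem lower_walk (S : Sys β I d) (t : ℕ) (m : ℝ) (hm : m = Fintype.card I + 1)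
    (htm : (t : ℝ) / m < d + 1) :
    1 - (t / m) / (d + 1 - t / m) ^ 2 ≤
      av (fun σ => (if inDev β I d σ then (1 : ℝ) else 0)
        * S.P^[t] (dl (Perm (Pos β I d))) σ) := by
  have hP : S.P = Mav S.gl := rfl
  rw [hP, t23_word]
  have hne : Nonempty (Fin t → Option I) := ⟨fun _ => none⟩
  set D : ℝ := d + 1 - t / m with hD
  have hDpos : 0 < D := by rw [hD]; linarith
  have h1 : ∀ v : Fin t → Option I, 1 - ((t23_n v : ℝ) - t / m) ^ 2 / D ^ 2
      ≤ if inDev β I d (wd S.gl v) then (1 : ℝ) else 0 := by
    intro v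
    by_cases hv : t23_n v < d + 1
    · rw [if_pos (t23_inDev S t v hv)]
      have : 0 ≤ ((t23_n v : ℝ) - t / m) ^ 2 / D ^ 2 := by positivity
      linarith
    · have h2 : (d : ℝ) + 1 ≤ t23_n v := by
        rw [not_lt] at hv
        exact_mod_cast hv
      have h3 : D ≤ (t23_n v : ℝ) - t / m := by rw [hD]; linarith
      have h4 : 1 ≤ ((t23_n v : ℝ) - t / m) ^ 2 / D ^ 2 := by
        rw [one_le_div (by positivity)]
        exact pow_le_pow_left₀ hDpos.le h3 2
      have h5 : (0 : ℝ) ≤ if inDev β I d (wd S.gl v) then (1 : ℝ) else 0 := by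
        split_ifs <;> norm_num
      linarith
  refine le_trans ?_ (av_le_av h1)
  rw [av_sub, av_const]
  have h2 := (t23_var (I := I) m hm t).2
  have h3 : av (fun v : Fin t → Option I => ((t23_n v : ℝ) - t / m) ^ 2 / D ^ 2)
      = av (fun v : Fin t → Option I => ((t23_n v : ℝ) - t / m) ^ 2) * (1 / D ^ 2) := by
    rw [← av_mul_right]
    congr 1
    funext v
    ring
  rw [h3]
  have h4 := mul_le_mul_of_nonneg_right h2 (show 0 ≤ 1 / D ^ 2 by positivity)
  have h5 : (t : ℝ) / m / D ^ 2 = t / m * (1 / D ^ 2) := by ring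
  rw [h5]
  linarith

open Classical in
theorem lower_unif :
    av (fun σ : Perm (Pos β I d) => if inDev β I d σ then (1 : ℝ) else 0)
      ≤ (d + 1) / Fintype.card (Pos β I d) := by
  have h1 : ∀ σ : Perm (Pos β I d), (if inDev β I d σ then (1 : ℝ) else 0)
      ≤ ∑ j : Fin (d + 1), if σ (Sum.inr (Sum.inr j)) = Sum.inr (Sum.inr 0) then (1 : ℝ) else 0 := by
    intro σ
    by_cases h : inDev β I d σ
    · rw [if_pos h]
      obtain ⟨j, hj⟩ := h
      have := Finset.single_le_sum (f := fun j : Fin (d + 1) =>
        if σ (Sum.inr (Sum.inr j)) = Sum.inr (Sum.inr 0) then (1 : ℝ) else 0)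
        (fun j _ => by positivity) (Finset.mem_univ j)
      simpa [hj] using this
    · rw [if_neg h]
      exact Finset.sum_nonneg fun j _ => by positivity
  refine (av_le_av h1).trans ?_
  rw [av_sum]
  have h2 : ∀ j : Fin (d + 1), av (fun σ : Perm (Pos β I d) =>
      if σ (Sum.inr (Sum.inr j)) = Sum.inr (Sum.inr 0) then (1 : ℝ) else 0)
      = 1 / Fintype.card (Pos β I d) := by
    intro j
    have := t17b_av_perm (fun a : Pos β I d => if a = Sum.inr (Sum.inr 0) then (1 : ℝ) else 0)
      (Sum.inr (Sum.inr j))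
    rw [this]
    unfold av
    rw [Finset.sum_ite_eq' Finset.univ, if_pos (Finset.mem_univ _)]
  rw [Finset.sum_congr rfl (fun j _ => h2 j), Finset.sum_const, Finset.card_univ,
    Fintype.card_fin, nsmul_eq_mul]
  apply le_of_eq
  push_cast
  ring

end lower

end Pool.Agent.H9.Low
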