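import Pool.Agent.H9.Low.Basic

/-!
# Minimality of the generating sets and construction of the letter `c`
-/

namespace Pool.Agent.H9.Low

open Equiv Finset

section construction

variable {β I : Type} [DecidableEq β] [DecidableEq I]

open Classical in
/-- the map `c` -/
noncomputable def t24_f (d : ℕ) (u : I → β) (p : β) : Pos β I d → Pos β I d
  | Sum.inl x => if x = p then Sum.inr (Sum.inr (Fin.last d)) else
      if h : ∃ i, u i = x then Sum.inr (Sum.inl (h.choose, false)) else Sum.inl x
  | Sum.inr (Sum.inl (i, b)) => if b = true then Sum.inr (Sum.inl (i, true)) else Sum.inl (u i)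
  | Sum.inr (Sum.inr j) => Fin.cases (Sum.inl p) (fun j => Sum.inr (Sum.inr j.castSucc)) j

open Classical in
/-- the left inverse of `c` -/
noncomputable def t24_g (d : ℕ) (u : I → β) (p : β) : Pos β I d → Pos β I d
  | Sum.inl x => if x = p then Sum.inr (Sum.inr 0) else
      if h : ∃ i, u i = x then Sum.inr (Sum.inl (h.choose, false)) else Sum.inl x
  | Sum.inr (Sum.inl (i, b)) => if b = true then Sum.inr (Sum.inl (i, true)) else Sum.inl (u i)
  | Sum.inr (Sum.inr j) => Fin.lastCases (Sum.inl p) (fun j => Sum.inr (Sum.inr j.succ)) j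

omit [DecidableEq β] [DecidableEq I] in
theorem t24_choose {u : I → β} (hu : Function.Injective u) (i : I) (h : ∃ j, u j = u i) :
    h.choose = i := hu h.choose_spec

theorem t24_left {d : ℕ} {u : I → β} {p : β} (hu : Function.Injective u)
    (hp : ∀ i, u i ≠ p) : Function.LeftInverse (t24_g d u p) (t24_f d u p) := by
  rintro (x | ⟨i, b⟩ | j)
  · by_cases hx : x = p
    · subst hx
      simp [t24_f, t24_g]
    · by_cases h : ∃ i, u i = x
      · obtain ⟨i, rfl⟩ := h
        have h' : ∃ j, u j = u i := ⟨i, rfl⟩
        have e1 : t24_f d u p (Sum.inl (u i)) = Sum.inr (Sum.inl (i, false)) := by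
          simp only [t24_f]
          rw [if_neg hx, dif_pos h', t24_choose hu i h']
        rw [e1]
        simp [t24_g]
      · simp only [t24_f]
        rw [if_neg hx, dif_neg h]
        simp only [t24_g]
        rw [if_neg hx, dif_neg h]
  · cases b
    · have h' : ∃ j, u j = u i := ⟨i, rfl⟩
      simp only [t24_f, Bool.false_eq_true, if_false, t24_g]
      rw [if_neg (hp i), dif_pos h', t24_choose hu i h']
    · simp [t24_f, t24_g]
  · refine Fin.cases ?_ (fun j => ?_) j
    · simp [t24_f, t24_g]
    · simp [t24_f, t24_g]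

end construction

theorem exists_sys {β I : Type} [Fintype β] [DecidableEq β] [Fintype I] [DecidableEq I]
    (d : ℕ) (θ : I → Perm β) (h : Fintype.card I + 1 ≤ Fintype.card β) :
    ∃ S : Sys β I d, S.θ = θ := by
  obtain ⟨f⟩ : Nonempty (Option I ↪ β) := by
    refine Function.Embedding.nonempty_of_card_le ?_
    rw [Fintype.card_option]
    exact h
  let u : I → β := fun i => f (some i)
  let p : β := f none
  have hu : Function.Injective u := fun i j hij => by
    have := f.injective hij
    exact Option.some_injective _ this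
  have hp : ∀ i, u i ≠ p := fun i hi => by
    have := f.injective hi
    exact absurd this (by simp)
  have hb : Function.Bijective (t24_f d u p) :=
    Finite.injective_iff_bijective.mp (t24_left hu hp).injective
  refine ⟨⟨θ, u, p, Equiv.ofBijective _ hb, hu, hp, ?_, ?_, ?_, ?_, ?_, ?_, ?_⟩, rfl⟩
  · intro i
    have h' : ∃ j, u j = u i := ⟨i, rfl⟩
    simp only [Equiv.ofBijective_apply, t24_f]
    rw [if_neg (hp i), dif_pos h', t24_choose hu i h']
  · intro i
    simp [Equiv.ofBijective_apply, t24_f]
  · intro i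
    simp [Equiv.ofBijective_apply, t24_f]
  · simp [Equiv.ofBijective_apply, t24_f]
  · simp [Equiv.ofBijective_apply, t24_f]
  · intro j
    simp [Equiv.ofBijective_apply, t24_f]
  · intro x hx hxu
    simp only [Equiv.ofBijective_apply, t24_f]
    rw [if_neg hx, dif_neg (by rintro ⟨i, hi⟩; exact hxu i hi)]

section gen

variable {G : Type} [Group G] [Fintype G] [DecidableEq G] {ι : Type} [Fintype ι]

theorem t24_supp (s : ι → G) (K : Subgroup G) (hK : ∀ i, s i ∈ K) (t : ℕ) (σ : G)
    (hσ : σ ∉ K) : (Mav s)^[t] (dl G) σ = 0 := by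
  rw [Mav_iter]
  have h1 : ∀ v : Fin t → ι, R (wd s v) (dl G) σ = 0 := by
    intro v
    have h2 : wd s v ∈ K := by
      unfold wd
      refine Subgroup.list_prod_mem K ?_
      intro x hx
      rw [List.mem_ofFn] at hx
      obtain ⟨i, rfl⟩ := hx
      exact hK _
    have h3 : σ * (wd s v)⁻¹ ≠ 1 := by
      intro h4
      apply hσ
      rw [mul_inv_eq_one] at h4
      rw [h4]
      exact h2
    simp [R, dl, h3]
  simp only [h1]
  exact av_zero

theorem t24_dens [Nonempty ι] (s : ι → G) (t : ℕ) : Dens ((Mav s)^[t] (dl G)) := by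
  induction t with
  | zero => exact dens_dl
  | succ t ih =>
    rw [Function.iterate_succ_apply']
    exact dens_Mav ih s

theorem t24_top [Nonempty ι] (s : ι → G) (t : ℕ)
    (ht : av (fun σ => |(Mav s)^[t] (dl G) σ - 1|) < 1) (K : Subgroup G)
    (hK : ∀ i, s i ∈ K) : K = ⊤ := by
  classical
  by_contra hne
  set f := (Mav s)^[t] (dl G) with hf
  have hd : Dens f := t24_dens s t
  have h0 : ∀ σ, σ ∉ K → f σ = 0 := fun σ hσ => t24_supp s K hK t σ hσ
  let k : G → ℝ := fun σ => if σ ∈ K then 1 else 0
  have h1 : ∀ σ, f σ + 1 - 2 * k σ ≤ |f σ - 1| := by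
    intro σ
    by_cases hσ : σ ∈ K
    · simp only [k, if_pos hσ]
      have := le_abs_self (f σ - 1)
      linarith
    · simp only [k, if_neg hσ, h0 σ hσ]
      norm_num
  have h2 : av (fun σ => f σ + 1 - 2 * k σ) = 2 - 2 * av k := by
    rw [av_sub, av_add, hd.2, av_const, av_mul_left]
    norm_num
  have h3 : av k ≤ 1 / 2 := by
    have h4 : ∑ σ, k σ = (Fintype.card K : ℝ) := by
      simp only [k]
      rw [Finset.sum_boole, Fintype.card_subtype]
    have h5 : 2 * Nat.card K ≤ Nat.card G := by
      have h6 := K.card_mul_index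
      have h7 : 2 ≤ K.index := by
        have h8 : K.index ≠ 1 := by
          rw [Ne, Subgroup.index_eq_one]
          exact hne
        have h9 : K.index ≠ 0 := Subgroup.index_ne_zero_of_finite
        omega
      calc 2 * Nat.card K ≤ K.index * Nat.card K := Nat.mul_le_mul_right _ h7
        _ = Nat.card G := by rw [mul_comm]; exact h6
    rw [Nat.card_eq_fintype_card, Nat.card_eq_fintype_card] at h5
    have hG : (0 : ℝ) < Fintype.card G := by exact_mod_cast Fintype.card_pos
    unfold av
    rw [h4, div_le_div_iff₀ hG (by norm_num)]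
    have : (2 * Fintype.card K : ℝ) ≤ Fintype.card G := by exact_mod_cast h5
    linarith
  have h6 := av_le_av h1
  linarith

end gen

open Pool.Agent.H79.Cut in
theorem sys_isMinGen {β I : Type} [Fintype β] [DecidableEq β] [Fintype I] [DecidableEq I]
    [Nonempty β] [Nonempty I] {d : ℕ} (S : Sys β I d) (t : ℕ)
    (ht : av (fun σ => |S.P^[t] (dl (Perm (Pos β I d))) σ - 1|) < 1) :
    Function.Injective S.gl ∧ IsMinGen (univ.image S.gl) := by
  have hg_hi : ∀ i : I, S.gl (some i) (Sum.inr (Sum.inl (i, true))) =
      Sum.inr (Sum.inl (i, false)) := by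
    intro i
    simp [Sys.gl, Sys.g]
  have hg_fix : ∀ i : I, ∀ a : Option I, a ≠ some i →
      S.gl a (Sum.inr (Sum.inl (i, true))) = Sum.inr (Sum.inl (i, true)) := by
    intro i a ha
    cases a with
    | none => exact S.c_hi i
    | some j =>
      have hij : i ≠ j := fun h => ha (by rw [h])
      simp [Sys.gl, Sys.g, hij]
  have hc_fix : ∀ i : I, S.gl (some i) (Sum.inr (Sum.inr 0)) = Sum.inr (Sum.inr 0) := by
    intro i
    simp [Sys.gl, Sys.g]
  have hc_move : S.gl none (Sum.inr (Sum.inr 0)) = Sum.inl S.p := S.c_dv0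
  have hinj : Function.Injective S.gl := by
    intro a b hab
    cases a with
    | none =>
      cases b with
      | none => rfl
      | some j =>
        exfalso
        have h1 := hg_fix j none (by simp)
        rw [hab, hg_hi j] at h1
        simp at h1
    | some i =>
      by_contra hne
      have h1 := hg_fix i b (fun h => hne h.symm)
      rw [← hab, hg_hi i] at h1
      simp at h1
  refine ⟨hinj, ?_, ?_⟩
  · refine t24_top S.gl t ht _ fun i => ?_
    refine Subgroup.subset_closure ?_
    rw [Finset.mem_coe]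
    exact Finset.mem_image_of_mem _ (Finset.mem_univ _)
  · intro T hT htop
    obtain ⟨hT1, hT2⟩ := Finset.ssubset_iff_subset_ne.mp hT
    obtain ⟨x, hx, hxT⟩ : ∃ x ∈ univ.image S.gl, x ∉ T := by
      by_contra hcon
      exact hT2 (Finset.Subset.antisymm hT1 fun x hx => by_contra fun h => hcon ⟨x, hx, h⟩)
    obtain ⟨a, -, rfl⟩ := Finset.mem_image.mp hx
    have hT3 : ∀ y ∈ T, ∃ b : Option I, b ≠ a ∧ S.gl b = y := by
      intro y hy
      obtain ⟨b, -, rfl⟩ := Finset.mem_image.mp (hT1 hy)
      exact ⟨b, fun hb => hxT (hb ▸ hy), rfl⟩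
    obtain ⟨z, hz1, hz2⟩ : ∃ z : Pos β I d, (∀ b : Option I, b ≠ a → S.gl b z = z) ∧
        S.gl a z ≠ z := by
      cases a with
      | none =>
        refine ⟨Sum.inr (Sum.inr 0), ?_, ?_⟩
        · intro b hb
          cases b with
          | none => exact absurd rfl hb
          | some j => exact hc_fix j
        · rw [hc_move]
          simp
      | some i =>
        refine ⟨Sum.inr (Sum.inl (i, true)), fun b hb => hg_fix i b hb, ?_⟩
        rw [hg_hi i]
        simp
    have h1 : Subgroup.closure (T : Set (Perm (Pos β I d))) ≤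
        MulAction.stabilizer (Perm (Pos β I d)) z := by
      rw [Subgroup.closure_le]
      intro y hy
      obtain ⟨b, hb, rfl⟩ := hT3 y hy
      simpa [MulAction.mem_stabilizer_iff] using hz1 b hb
    rw [htop] at h1
    have h2 := h1 (Subgroup.mem_top (S.gl a))
    exact hz2 (by simpa [MulAction.mem_stabilizer_iff] using h2)

end Pool.Agent.H9.Low
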