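import Pool.Agent.H9.Low.Basic

/-!
# Transport of the walk to `Perm (Fin n)` and total variation as an `L¹` distance
-/

namespace Pool.Agent.H9.Low

open Equiv Finset

open Pool.Agent.H79.Cut in
theorem t25_tv_le {G : Type*} [Group G] [Fintype G] [DecidableEq G] {μ ν : G → ℝ} {c : ℝ}
    (h : ∀ A : Finset G, |∑ g ∈ A, μ g - ∑ g ∈ A, ν g| ≤ c) : tv μ ν ≤ c := ciSup_le h

open Pool.Agent.H79.Cut in
theorem t25_le_tv {G : Type*} [Group G] [Fintype G] [DecidableEq G] (μ ν : G → ℝ)
    (A : Finset G) : |∑ g ∈ A, μ g - ∑ g ∈ A, ν g| ≤ tv μ ν :=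
  le_ciSup (f := fun A : Finset G => |∑ g ∈ A, μ g - ∑ g ∈ A, ν g|)
    (Set.finite_range _).bddAbove A

open Pool.Agent.H79.Cut in
/-- total variation is half the `L¹` distance for functions with the same total mass -/
theorem t25_two_tv {G : Type*} [Group G] [Fintype G] [DecidableEq G] (μ ν : G → ℝ)
    (h : ∑ g, μ g = ∑ g, ν g) : 2 * tv μ ν = ∑ g, |μ g - ν g| := by
  have key : ∀ A : Finset G, ∑ g ∈ A, (μ g - ν g) = - ∑ g ∈ Aᶜ, (μ g - ν g) := by
    intro A
    have h1 := Finset.sum_add_sum_compl A (fun g => μ g - ν g)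
    have h2 : ∑ g, (μ g - ν g) = 0 := by rw [Finset.sum_sub_distrib, h, sub_self]
    linarith
  apply le_antisymm
  · have : tv μ ν ≤ (∑ g, |μ g - ν g|) / 2 := by
      apply t25_tv_le
      intro A
      rw [← Finset.sum_sub_distrib]
      have h1 : |∑ g ∈ A, (μ g - ν g)| ≤ ∑ g ∈ A, |μ g - ν g| := Finset.abs_sum_le_sum_abs _ _
      have h2 : |∑ g ∈ A, (μ g - ν g)| ≤ ∑ g ∈ Aᶜ, |μ g - ν g| := by
        rw [key, abs_neg]; exact Finset.abs_sum_le_sum_abs _ _
      have h3 := Finset.sum_add_sum_compl A (fun g => |μ g - ν g|)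
      linarith
    linarith
  · have h0 := t25_le_tv μ ν (univ.filter fun g => 0 ≤ μ g - ν g)
    rw [← Finset.sum_sub_distrib] at h0
    have hA : ∑ g ∈ univ.filter (fun g => 0 ≤ μ g - ν g), |μ g - ν g|
        = ∑ g ∈ univ.filter (fun g => 0 ≤ μ g - ν g), (μ g - ν g) :=
      Finset.sum_congr rfl fun g hg => abs_of_nonneg (Finset.mem_filter.1 hg).2
    have hB : ∑ g ∈ (univ.filter (fun g => 0 ≤ μ g - ν g))ᶜ, |μ g - ν g|
        = - ∑ g ∈ (univ.filter (fun g => 0 ≤ μ g - ν g))ᶜ, (μ g - ν g) := by
      rw [← Finset.sum_neg_distrib]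
      refine Finset.sum_congr rfl fun g hg => abs_of_nonpos ?_
      rw [Finset.mem_compl, Finset.mem_filter, not_and] at hg
      exact le_of_lt (not_le.1 (hg (Finset.mem_univ g)))
    rw [← key] at hB
    have h3 := Finset.sum_add_sum_compl (univ.filter fun g => 0 ≤ μ g - ν g)
      (fun g => |μ g - ν g|)
    rw [hA, hB] at h3
    have h4 := le_abs_self (∑ g ∈ univ.filter (fun g => 0 ≤ μ g - ν g), (μ g - ν g))
    linarith

open Pool.Agent.H79.Cut in
/-- the law after `t` steps is the density divided by the order of the group -/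
theorem t25_law {α : Type} [Fintype α] [DecidableEq α] {ι : Type} [Fintype ι] [Nonempty ι]
    (n : ℕ) (e : α ≃ Fin n) (s : ι → Perm α) (hs : Function.Injective s) (t : ℕ) (σ : Perm α) :
    convPow (unifOn (univ.image fun i => e.permCongr (s i))) t (e.permCongr σ)
      = (Mav s)^[t] (dl (Perm α)) σ / (Fintype.card (Perm α) : ℝ) := by
  have hc : (Fintype.card (Perm α) : ℝ) ≠ 0 := by exact_mod_cast Fintype.card_ne_zero
  induction t generalizing σ with
  | zero =>
    have h1 : (e.permCongr σ = 1) ↔ σ = 1 := by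
      constructor
      · intro h
        have : e.permCongr σ = e.permCongr 1 := by rw [h]; ext x; simp [Equiv.permCongr_apply]
        exact e.permCongr.injective this
      · intro h; rw [h]; ext x; simp [Equiv.permCongr_apply]
    simp only [convPow, Function.iterate_zero, id, dl, h1]
    split_ifs with h
    · rw [div_self hc]
    · rw [zero_div]
  | succ t ih =>
    rw [Function.iterate_succ_apply']
    have hinj : Function.Injective fun i => e.permCongr (s i) :=
      fun i j h => hs (e.permCongr.injective h)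
    have hcard : ((univ.image fun i => e.permCongr (s i)).card : ℝ) = Fintype.card ι := by
      rw [Finset.card_image_of_injective _ hinj, Finset.card_univ]
    simp only [convPow, conv]
    -- reindex `h = g * x⁻¹`
    rw [← Equiv.sum_comp ((Equiv.inv (Perm (Fin n))).trans
      (Equiv.mulLeft (e.permCongr σ)))]
    have e1 : ∀ x : Perm (Fin n),
        convPow (unifOn (univ.image fun i => e.permCongr (s i))) t
            (((Equiv.inv (Perm (Fin n))).trans (Equiv.mulLeft (e.permCongr σ))) x) *
          unifOn (univ.image fun i => e.permCongr (s i))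
            ((((Equiv.inv (Perm (Fin n))).trans (Equiv.mulLeft (e.permCongr σ))) x)⁻¹ *
              e.permCongr σ)
        = if x ∈ univ.image (fun i => e.permCongr (s i)) then
            convPow (unifOn (univ.image fun i => e.permCongr (s i))) t
              (e.permCongr σ * x⁻¹) * (1 / (Fintype.card ι : ℝ)) else 0 := by
      intro x
      have h1 : ((Equiv.inv (Perm (Fin n))).trans (Equiv.mulLeft (e.permCongr σ))) x
          = e.permCongr σ * x⁻¹ := rfl
      have h2 : (e.permCongr σ * x⁻¹)⁻¹ * e.permCongr σ = x := by group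
      rw [h1, h2]
      by_cases hx : x ∈ univ.image (fun i => e.permCongr (s i))
      · simp only [unifOn, if_pos hx, hcard]
      · simp only [unifOn, if_neg hx, mul_zero]
    rw [Finset.sum_congr rfl fun x _ => e1 x, Finset.sum_ite_mem, Finset.univ_inter,
      Finset.sum_image fun i _ j _ h => hinj h]
    have e2 : ∀ i : ι, convPow (unifOn (univ.image fun i => e.permCongr (s i))) t
        (e.permCongr σ * (e.permCongr (s i))⁻¹)
        = (Mav s)^[t] (dl (Perm α)) (σ * (s i)⁻¹) / (Fintype.card (Perm α) : ℝ) := by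
      intro i
      rw [← ih]
      congr 1
      rw [Equiv.permCongr_mul]
      rfl
    simp only [e2]
    unfold Mav av
    rw [div_div, mul_comm (Fintype.card ι : ℝ), ← div_div, Finset.sum_div, Finset.sum_div]
    refine Finset.sum_congr rfl fun i _ => ?_
    ring

open Pool.Agent.H79.Cut in
theorem tv_transport {α : Type} [Fintype α] [DecidableEq α] {ι : Type} [Fintype ι] [Nonempty ι]
    (n : ℕ) (e : α ≃ Fin n) (s : ι → Perm α) (hs : Function.Injective s) (t : ℕ) :
    2 * tv (convPow (unifOn (univ.image fun i => e.permCongr (s i))) t) (unifOn univ)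
      = av (fun σ => |(Mav s)^[t] (dl (Perm α)) σ - 1|) := by
  have hcn : (Fintype.card (Perm α) : ℝ) = ((univ : Finset (Perm (Fin n))).card : ℝ) := by
    rw [Finset.card_univ, Fintype.card_congr e.permCongr]
  have hc : (0 : ℝ) < (Fintype.card (Perm α) : ℝ) := by exact_mod_cast Fintype.card_pos
  have hd : Dens ((Mav s)^[t] (dl (Perm α))) := by
    induction t with
    | zero => exact dens_dl
    | succ t ih => rw [Function.iterate_succ_apply']; exact dens_Mav ih s
  have hu : ∀ g : Perm (Fin n), unifOn univ g = 1 / (Fintype.card (Perm α) : ℝ) := by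
    intro g
    simp only [unifOn, Finset.mem_univ, if_true, hcn]
  rw [t25_two_tv]
  · rw [← Equiv.sum_comp e.permCongr]
    unfold av
    rw [Finset.sum_div]
    refine Finset.sum_congr rfl fun σ _ => ?_
    rw [t25_law n e s hs t σ, hu, div_sub_div_same, abs_div, abs_of_pos hc]
  · rw [← Equiv.sum_comp e.permCongr, ← Equiv.sum_comp e.permCongr (unifOn univ)]
    simp only [t25_law n e s hs t, hu]
    have h1 := hd.2
    unfold av at h1
    rw [← Finset.sum_div, h1, Finset.sum_const, Finset.card_univ, nsmul_eq_mul]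
    field_simp

end Pool.Agent.H9.Low
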