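import Pool.Agent.H9.Low.T2c
import Pool.Agent.H9.Low.Defs2

/-!
# Letters of small norm on low level functions
-/

namespace Pool.Agent.H9.Low

open Equiv Finset

theorem t26a_PA_zero {Y K : Type} [Fintype Y] [Group K] [Fintype K] [MulAction K Y]
    (htr : ∀ x y : Y, ∃ k : K, k • x = y) (φ : Y → ℝ) (hφ : av φ = 0) (x : Y) :
    PA (1 : K →* ℤˣ) φ x = 0 := by
  have hK : (0 : ℝ) < Fintype.card K := by exact_mod_cast Fintype.card_pos
  have hY : (0 : ℝ) < Fintype.card Y := by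
    have : Nonempty Y := ⟨x⟩
    exact_mod_cast Fintype.card_pos
  have h1 : ∀ y, PA (1 : K →* ℤˣ) φ y = av fun k : K => φ (k • y) := by
    intro y
    unfold PA
    congr 1
    ext k
    simp
  have hinv : ∀ y, PA (1 : K →* ℤˣ) φ y = PA (1 : K →* ℤˣ) φ x := by
    intro y
    obtain ⟨h, hh⟩ := htr x y
    rw [h1, h1, ← hh]
    rw [← av_mulRight h (fun k : K => φ (k • x))]
    congr 1
    ext k
    rw [mul_smul]
  have hsum : av (fun y => PA (1 : K →* ℤˣ) φ y) = 0 := by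
    have e1 : (fun y => PA (1 : K →* ℤˣ) φ y) = fun y => av fun k : K => φ (k • y) :=
      funext h1
    rw [e1, av_comm]
    have e2 : (fun k : K => av fun y => φ (k • y)) = fun _ : K => (0 : ℝ) := by
      ext k
      have := av_comp_equiv (MulAction.toPerm k : Perm Y) φ
      simp only [MulAction.toPerm_apply] at this
      rw [this, hφ]
    rw [e2, av_zero]
  have e3 : (fun y => PA (1 : K →* ℤˣ) φ y) = fun _ => PA (1 : K →* ℤˣ) φ x := funext hinv
  have : Nonempty Y := ⟨x⟩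
  rw [e3, av_const] at hsum
  exact hsum

theorem ex_A (s w j : ℕ) (hjw : 2 ^ j ≤ w) (hs : 4 * (s.factorial : ℝ) ≤ Real.exp (2 ^ j)) :
    ∃ a : Fin w → Perm (Fin s), ∀ ψ : Perm (Fin s) → ℝ, av ψ = 0 →
      nsq (Mav a ψ) ≤ 4 * Real.exp 1 * 2 ^ j / w * nsq ψ := by
  obtain ⟨a, ha⟩ := randnorm (Y := Perm (Fin s)) (K := Perm (Fin s)) w j hjw
    (by rw [Fintype.card_perm, Fintype.card_fin]; exact hs) (fun _ => Equiv.refl _)
    (fun _ _ _ => rfl) 1
  refine ⟨a, fun ψ hψ => ?_⟩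
  have h1 := (ha (fun y => ψ y⁻¹)).1
  have h2 : ∀ y, PA (1 : Perm (Fin s) →* ℤˣ) (fun y => ψ y⁻¹) y = 0 := by
    intro y
    apply t26a_PA_zero
    · intro x z
      exact ⟨z * x⁻¹, by rw [smul_eq_mul, inv_mul_cancel_right]⟩
    · rw [av_inv]
      exact hψ
  have h3 : nsq (fun y : Perm (Fin s) => ψ y⁻¹) = nsq ψ := by
    unfold nsq
    exact av_inv (fun y => ψ y ^ 2)
  have h4 : nsq (Mav a ψ) = nsq (fun y : Perm (Fin s) => Mav a ψ y⁻¹) := by
    unfold nsq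
    exact (av_inv (fun y => Mav a ψ y ^ 2)).symm
  rw [h3] at h1
  rw [h4]
  refine le_trans (le_of_eq ?_) h1
  congr 1
  ext y
  unfold Mav
  congr 1
  ext i
  rw [h2, sub_zero, smul_eq_mul, Equiv.refl_apply, mul_inv_rev]

theorem t26a_smul {X : Type} (J : ℕ) (g : Perm X) (x : Fin J ↪ X) :
    g • x = x.trans g.toEmbedding := by
  ext i
  rfl

theorem ex_B {X : Type} [Fintype X] [DecidableEq X] (J w j : ℕ) (hjw : 2 ^ j ≤ w)
    (hY : 4 * (Fintype.card (Fin J ↪ X) : ℝ) ≤ Real.exp (2 ^ j)) :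
    ∃ B : Fin w → Perm X, ∀ φ : (Fin J ↪ X) → ℝ, av φ = 0 →
      nsq (fun x : Fin J ↪ X => av fun k => φ (x.trans (B k).toEmbedding))
        ≤ 4 * Real.exp 1 * 2 ^ j / w * nsq φ := by
  obtain ⟨B, hB⟩ := randnorm (Y := Fin J ↪ X) (K := Perm X) w j hjw hY
    (fun _ => Equiv.refl _) (fun _ _ _ => rfl) 1
  refine ⟨B, fun φ hφ => ?_⟩
  have h1 := (hB φ).1
  have htr : ∀ x y : Fin J ↪ X, ∃ k : Perm X, k • x = y := by
    intro x y
    have := Equiv.Perm.isMultiplyPretransitive X J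
    exact MulAction.exists_smul_eq (Perm X) x y
  refine le_trans (le_of_eq ?_) h1
  congr 1
  ext x
  congr 1
  ext i
  rw [t26a_PA_zero htr φ hφ, sub_zero, Equiv.refl_apply, t26a_smul]

end Pool.Agent.H9.Low
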