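import Pool.Agent.H9.Low.T2c
import Pool.Agent.H9.Low.Defs2

/-!
# The letters `B2` of small norm
-/

namespace Pool.Agent.H9.Low

open Equiv Finset

section t26c

variable {β I : Type} {d : ℕ}

theorem t26c_zt_comm (z : I → Bool) (h : Perm β) :
    (zt z : Perm (Pos β I d)) * inlP β (Out I d) h = inlP β (Out I d) h * zt z := by
  ext x
  rcases x with x | ⟨i, b⟩ | x
  · rfl
  · rfl
  · rfl

theorem t26c_smul {X : Type} (J : ℕ) (g : Perm X) (x : Fin J ↪ X) :
    g • x = x.trans g.toEmbedding := by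
  ext i
  rfl

/-- two bulk positions outside the range of a tuple -/
theorem t26c_two [Fintype β] [DecidableEq β] (J : ℕ) (hJ : J + 2 ≤ Fintype.card β)
    (x : Fin J ↪ Pos β I d) :
    ∃ a b : β, a ≠ b ∧ (∀ i, x i ≠ Sum.inl a) ∧ (∀ i, x i ≠ Sum.inl b) := by
  classical
  have h1 : (univ.filter fun a : β => ∃ i, x i = Sum.inl a).card ≤ J := by
    have h2 : (univ.filter fun a : β => ∃ i, x i = Sum.inl a).card ≤
        ((univ : Finset (Fin J)).image fun i => x i).card := by
      refine Finset.card_le_card_of_injOn (fun a => (Sum.inl a : Pos β I d)) ?_ ?_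
      · intro a ha
        have ha' := (Finset.mem_filter.1 (Finset.mem_coe.1 ha)).2
        obtain ⟨i, hi⟩ := ha'
        exact Finset.mem_coe.2 (Finset.mem_image.2 ⟨i, Finset.mem_univ i, hi⟩)
      · intro a _ b _ hab
        exact Sum.inl_injective hab
    refine h2.trans (Finset.card_image_le.trans ?_)
    simp
  have h3 : 1 < (univ.filter fun a : β => ¬ ∃ i, x i = Sum.inl a).card := by
    have h4 := Finset.card_filter_add_card_filter_not (s := (univ : Finset β))
      (fun a : β => ∃ i, x i = Sum.inl a)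
    rw [Finset.card_univ] at h4
    omega
  obtain ⟨a, ha, b, hb, hab⟩ := Finset.one_lt_card.1 h3
  refine ⟨a, b, hab, ?_, ?_⟩
  · intro i hi
    exact (Finset.mem_filter.1 ha).2 ⟨i, hi⟩
  · intro i hi
    exact (Finset.mem_filter.1 hb).2 ⟨i, hi⟩

end t26c

theorem ex_B2 {β : Type} [Fintype β] [DecidableEq β] (w w2 d J j : ℕ) (hjw : 2 ^ j ≤ w2)
    (hY : 4 * (Fintype.card (Fin J ↪ Pos β (II w w2) d) : ℝ) ≤ Real.exp (2 ^ j))
    (hν : 4 * Real.exp 1 * 2 ^ j / w2 ≤ 1 / 16) (hJ : J + 2 ≤ Fintype.card β) :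
    ∃ θ2 : Fin w2 → Perm β, ∀ S : HSys β (II w w2) w w2 d, S.e = Equiv.refl _ →
      (∀ k, S.θ (Sum.inr (Sum.inr k)) = θ2 k) → N3 S J := by
  let act : MulAction (Perm β) (Fin J ↪ Pos β (II w w2) d) :=
    MulAction.compHom (Fin J ↪ Pos β (II w w2) d) (inlP β (Out (II w w2) d))
  have hact : ∀ (k : Perm β) (y : Fin J ↪ Pos β (II w w2) d),
      k • y = y.trans (inlP β (Out (II w w2) d) k).toEmbedding := fun _ _ => rfl
  let C : Fin w2 → Perm (Fin J ↪ Pos β (II w w2) d) := fun k =>
    MulAction.toPerm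
      (zt (fun i => decide (i = Sum.inr (Sum.inr k))) : Perm (Pos β (II w w2) d))
  have hCap : ∀ k y, C k y =
      y.trans (zt (fun i => decide (i = Sum.inr (Sum.inr k))) :
        Perm (Pos β (II w w2) d)).toEmbedding := fun _ _ => rfl
  have hC : ∀ i (k : Perm β) y, C i (k • y) = k • C i y := by
    intro i k y
    rw [hCap, hact, hCap, hact]
    ext a
    have := congrArg (fun p : Perm (Pos β (II w w2) d) => p (y a))
      (t26c_zt_comm (β := β) (d := d) (fun l : II w w2 => decide (l = Sum.inr (Sum.inr i))) k)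
    exact this
  obtain ⟨g, hg⟩ := randnorm w2 j hjw hY C hC (Perm.sign : Perm β →* ℤˣ)
  refine ⟨g, fun S hSe hSθ φ => ?_⟩
  have hB2 : ∀ k (x : Fin J ↪ Pos β (II w w2) d),
      x.trans (S.B2 k).toEmbedding = g k • C k x := by
    intro k x
    rw [hact, hCap]
    unfold HSys.B2 Sys.g
    rw [hSe]
    have e1 : S.θ ((Equiv.refl (II w w2)) (Sum.inr (Sum.inr k))) = g k := hSθ k
    rw [e1]
    rfl
  have hPA1 : ∀ x, PA (1 : Perm β →* ℤˣ) φ x = EHt φ x := by
    intro x
    unfold PA EHt
    congr 1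
    ext k
    rw [hact]
    simp
  have hPAs : ∀ x, PA (Perm.sign : Perm β →* ℤˣ) φ x = 0 := by
    intro x
    obtain ⟨a, b, hab, ha, hb⟩ := t26c_two J hJ x
    have h1 : ∀ k : Perm β, (k * swap a b) • x = k • x := by
      intro k
      rw [mul_smul]
      congr 1
      rw [hact]
      ext i
      change inlP β (Out (II w w2) d) (swap a b) (x i) = x i
      rcases hx : x i with y | y
      · rw [inlP_inl, swap_apply_of_ne_of_ne]
        · intro h
          exact ha i (by rw [hx, h])
        · intro h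
          exact hb i (by rw [hx, h])
      · rfl
    have h2 : PA (Perm.sign : Perm β →* ℤˣ) φ x = - PA (Perm.sign : Perm β →* ℤˣ) φ x := by
      conv_lhs => unfold PA
      rw [← av_mulRight (swap a b)]
      unfold PA
      rw [← neg_one_mul (av _), ← av_mul_left]
      congr 1
      ext k
      rw [h1, map_mul, Perm.sign_swap hab]
      push_cast
      ring
    linarith
  have hn : 0 ≤ nsq φ := nsq_nonneg φ
  constructor
  · refine le_trans (le_of_eq ?_) (((hg φ).1).trans (mul_le_mul_of_nonneg_right hν hn))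
    congr 1
    ext x
    congr 1
    ext k
    rw [hPA1, hB2]
  · refine le_trans (le_of_eq ?_) (((hg φ).2).trans (mul_le_mul_of_nonneg_right hν hn))
    congr 1
    ext x
    congr 1
    ext k
    have e1 : S.θ (S.e (Sum.inr (Sum.inr k))) = g k := by
      rw [hSe]
      exact hSθ k
    rw [hPAs, hB2, e1, sub_zero]
    rfl

end Pool.Agent.H9.Low
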