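import Pool.Agent.H9.Low.Basic

/-!
# Eigenvectors of the transposition Laplacian: lower bound from the minimal level
-/

namespace Pool.Agent.H9.Low

open Equiv Finset

variable {X : Type} [Fintype X] [DecidableEq X]

/-- marginals of a translate by a transposition -/
private theorem t4a_mg_swap {K : ℕ} (F : Perm X → ℝ) (a b : X) (x z : Fin K ↪ X) :
    mg (fun σ => F (σ * swap a b)) x z = mg F (x.trans (swap a b).toEmbedding) z := by
  unfold mg
  refine Fintype.sum_equiv (Equiv.mulRight (swap a b)) _ _ fun σ => ?_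
  have h : (∀ i, (σ * swap a b) ((x.trans (swap a b).toEmbedding) i) = z i)
      ↔ ∀ i, σ (x i) = z i := by
    refine forall_congr' fun i => ?_
    simp [Function.Embedding.trans_apply]
  simp only [Equiv.coe_mulRight, h]

/-- the marginals of the Laplacian -/
private theorem t4a_lap {K : ℕ} (F : Perm X → ℝ) (l : ℝ)
    (hl : ∀ σ, ∑ x, ∑ y, Qsw x y F σ = l * F σ) (x z : Fin K ↪ X) :
    2 * (l * mg F x z)
      = ∑ a, ∑ b, (mg F x z - mg F (x.trans (swap a b).toEmbedding) z) := by
  have h1 : ∀ a b, mg F x z - mg F (x.trans (swap a b).toEmbedding) z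
      = ∑ σ : Perm X, if ∀ i, σ (x i) = z i then 2 * Qsw a b F σ else 0 := by
    intro a b
    rw [← t4a_mg_swap]
    unfold mg
    rw [← Finset.sum_sub_distrib]
    refine Finset.sum_congr rfl fun σ _ => ?_
    by_cases h : ∀ i, σ (x i) = z i
    · rw [if_pos h, if_pos h, if_pos h]; unfold Qsw; ring
    · rw [if_neg h, if_neg h, if_neg h, sub_zero]
  simp only [h1]
  have h2 : ∀ a : X, ∑ b : X, (∑ σ : Perm X, if ∀ i, σ (x i) = z i then 2 * Qsw a b F σ else 0)
      = ∑ σ : Perm X, if ∀ i, σ (x i) = z i then 2 * ∑ b, Qsw a b F σ else 0 := by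
    intro a
    rw [Finset.sum_comm]
    refine Finset.sum_congr rfl fun σ _ => ?_
    by_cases h : ∀ i, σ (x i) = z i
    · simp only [if_pos h, Finset.mul_sum]
    · simp only [if_neg h, Finset.sum_const_zero]
  simp only [h2]
  rw [Finset.sum_comm]
  unfold mg
  rw [Finset.mul_sum, Finset.mul_sum]
  refine Finset.sum_congr rfl fun σ _ => ?_
  by_cases h : ∀ i, σ (x i) = z i
  · simp only [if_pos h]
    rw [← Finset.mul_sum, hl]
  · simp only [if_neg h, Finset.sum_const_zero, mul_zero]

/-- the sum over all values of one coordinate -/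
private theorem t4a_forget (F : Perm X → ℝ) (J : ℕ)
    (h0 : ∀ x z : Fin J ↪ X, mg F x z = 0) (x z : Fin (J + 1) ↪ X) (i : Fin (J + 1)) :
    mg F x z + ∑ b ∈ univ.filter (fun b => ∀ j, x j ≠ b),
      mg F (x.trans (swap (x i) b).toEmbedding) z = 0 := by
  -- the `J`-marginal
  set x' : Fin J ↪ X := (Fin.succAboveEmb i).trans x with hx'
  set z' : Fin J ↪ X := (Fin.succAboveEmb i).trans z with hz'
  rw [← h0 x' z']
  have hS : mg F x z = ∑ b ∈ {x i}, mg F (x.trans (swap (x i) b).toEmbedding) z := by
    rw [Finset.sum_singleton]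
    congr 1
    ext j
    simp
  have hdisj : Disjoint {x i} (univ.filter (fun b => ∀ j, x j ≠ b)) := by
    rw [Finset.disjoint_singleton_left]
    simp
  rw [hS, ← Finset.sum_union hdisj]
  unfold mg
  rw [Finset.sum_comm]
  refine Finset.sum_congr rfl fun σ _ => ?_
  have hmem : ∀ b, b ∈ {x i} ∪ univ.filter (fun b => ∀ j, x j ≠ b) ↔ ∀ j, j ≠ i → x j ≠ b := by
    intro b
    rw [Finset.mem_union, Finset.mem_singleton, Finset.mem_filter]
    constructor
    · rintro (rfl | ⟨_, h⟩) j hj
      · exact fun h => hj (x.injective h)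
      · exact h j
    · intro h
      by_cases hb : b = x i
      · exact Or.inl hb
      · refine Or.inr ⟨Finset.mem_univ _, fun j => ?_⟩
        by_cases hj : j = i
        · rw [hj]; exact fun h => hb h.symm
        · exact h j hj
  have hval : ∀ b, (∀ j, j ≠ i → x j ≠ b) →
      ((∀ j, σ ((x.trans (swap (x i) b).toEmbedding) j) = z j)
        ↔ (b = σ.symm (z i) ∧ ∀ j, σ (x' j) = z' j)) := by
    intro b hb
    have e1 : ∀ j, (x.trans (swap (x i) b).toEmbedding) j = if j = i then b else x j := by
      intro j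
      rw [Function.Embedding.trans_apply, Equiv.coe_toEmbedding]
      by_cases hj : j = i
      · rw [if_pos hj, hj, swap_apply_left]
      · rw [if_neg hj, swap_apply_of_ne_of_ne (fun h => hj (x.injective h)) (hb j hj)]
    constructor
    · intro h
      constructor
      · have := h i
        rw [e1, if_pos rfl] at this
        rw [← this, Equiv.symm_apply_apply]
      · intro j
        have := h (i.succAbove j)
        rw [e1, if_neg (Fin.succAbove_ne i j)] at this
        exact this
    · rintro ⟨h1, h2⟩ j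
      rw [e1]
      by_cases hj : j = i
      · rw [if_pos hj, h1, Equiv.apply_symm_apply, hj]
      · rw [if_neg hj]
        obtain ⟨k, hk⟩ := Fin.exists_succAbove_eq hj
        have := h2 k
        rw [← hk]
        exact this
  by_cases h2 : ∀ j, σ (x' j) = z' j
  · rw [if_pos h2]
    have hin : σ.symm (z i) ∈ {x i} ∪ univ.filter (fun b => ∀ j, x j ≠ b) := by
      rw [hmem]
      intro j hj hh
      obtain ⟨k, hk⟩ := Fin.exists_succAbove_eq hj
      have h3 := h2 k
      have h4 : σ (x j) = z j := by rw [← hk]; exact h3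
      rw [hh, Equiv.apply_symm_apply] at h4
      exact hj (z.injective h4.symm)
    rw [Finset.sum_eq_single_of_mem _ hin]
    · rw [if_pos]
      rw [hval _ ((hmem _).1 hin)]
      exact ⟨rfl, h2⟩
    · intro b hb hne
      rw [if_neg]
      rw [hval b ((hmem b).1 hb)]
      exact fun h => hne h.1
  · rw [if_neg h2]
    refine Finset.sum_eq_zero fun b hb => ?_
    rw [if_neg]
    rw [hval b ((hmem b).1 hb)]
    exact fun h => h2 h.2

/-- sums over all pairs of a symmetric function vanishing outside the range of `x` -/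
private theorem t4a_pairs {K : ℕ} (f : X → X → ℝ) (hsym : ∀ a b, f a b = f b a)
    (x : Fin K ↪ X) (hf : ∀ a b, (∀ j, x j ≠ a) → (∀ j, x j ≠ b) → f a b = 0) :
    ∑ a, ∑ b, f a b
      = 2 * (∑ i, ∑ b ∈ univ.filter (fun b => ∀ j, x j ≠ b), f (x i) b)
        + ∑ i, ∑ j, f (x i) (x j) := by
  have hsplit : ∀ g : X → ℝ, ∑ a, g a
      = ∑ i, g (x i) + ∑ a ∈ univ.filter (fun b => ∀ j, x j ≠ b), g a := by
    intro g
    rw [← Finset.sum_filter_add_sum_filter_not univ (fun b => ∀ j, x j ≠ b) g, add_comm]
    congr 1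
    have : univ.filter (fun b => ¬ ∀ j, x j ≠ b) = univ.map x := by
      ext b
      simp
    rw [this, Finset.sum_map]
  rw [hsplit]
  have h1 : ∀ i, ∑ b, f (x i) b
      = ∑ j, f (x i) (x j) + ∑ b ∈ univ.filter (fun b => ∀ j, x j ≠ b), f (x i) b :=
    fun i => hsplit _
  have h2 : ∀ a ∈ univ.filter (fun b => ∀ j, x j ≠ b), ∑ b, f a b = ∑ i, f (x i) a := by
    intro a ha
    rw [hsplit]
    have : ∑ b ∈ univ.filter (fun b => ∀ j, x j ≠ b), f a b = 0 := by
      refine Finset.sum_eq_zero fun b hb => ?_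
      exact hf a b (Finset.mem_filter.1 ha).2 (Finset.mem_filter.1 hb).2
    rw [this, add_zero]
    exact Finset.sum_congr rfl fun i _ => hsym _ _
  have h3 : ∑ a ∈ univ.filter (fun b => ∀ j, x j ≠ b), ∑ i, f (x i) a
      = ∑ i, ∑ b ∈ univ.filter (fun b => ∀ j, x j ≠ b), f (x i) b := Finset.sum_comm
  rw [Finset.sum_congr rfl h2, h3, Finset.sum_congr rfl fun i _ => h1 i,
    Finset.sum_add_distrib]
  ring

/-- an eigenvector whose `J`-marginals vanish and which has a nonzero `(J+1)`-marginal -/
theorem t4a_min (F : Perm X → ℝ) (l : ℝ) (hl : ∀ σ, ∑ x, ∑ y, Qsw x y F σ = l * F σ) (J : ℕ)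
    (h0 : ∀ x z : Fin J ↪ X, mg F x z = 0) (x z : Fin (J + 1) ↪ X) (h1 : mg F x z ≠ 0) :
    ((J : ℝ) + 1) * ((Fintype.card X : ℝ) - J) ≤ l := by
  have key : ∀ y : Fin (J + 1) ↪ X, l * mg F y z
      = ((J : ℝ) + 1) * ((Fintype.card X : ℝ) - J) * mg F y z
        + (∑ i, ∑ j, (mg F y z - mg F ((swap i j).toEmbedding.trans y) z)) / 2 := by
    intro y
    have e1 := t4a_lap F l hl y z
    rw [t4a_pairs (fun a b => mg F y z - mg F (y.trans (swap a b).toEmbedding) z)
      (fun a b => by simp only [swap_comm a b]) y ?_] at e1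
    · have e2 : ∀ i, ∑ b ∈ univ.filter (fun b => ∀ j, y j ≠ b),
          (mg F y z - mg F (y.trans (swap (y i) b).toEmbedding) z)
          = ((Fintype.card X : ℝ) - J) * mg F y z := by
        intro i
        rw [Finset.sum_sub_distrib, Finset.sum_const, nsmul_eq_mul]
        have h3 := t4a_forget F J h0 y z i
        have h4 : ((univ.filter (fun b => ∀ j, y j ≠ b)).card : ℝ)
            = (Fintype.card X : ℝ) - (J + 1) := by
          have h5 := Finset.card_filter_add_card_filter_not (s := (univ : Finset X))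
            (fun b => ∀ j, y j ≠ b)
          have h6 : univ.filter (fun b => ¬ ∀ j, y j ≠ b) = univ.map y := by
            ext b
            simp
          rw [h6, Finset.card_map, Finset.card_univ, Finset.card_univ, Fintype.card_fin] at h5
          have h7 : ((univ.filter (fun b => ∀ j, y j ≠ b)).card : ℝ) + ((J + 1 : ℕ) : ℝ)
              = (Fintype.card X : ℝ) := by exact_mod_cast h5
          push_cast at h7
          linarith
        rw [h4]
        linarith
      have e3 : ∀ i j, mg F (y.trans (swap (y i) (y j)).toEmbedding) z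
          = mg F ((swap i j).toEmbedding.trans y) z := by
        intro i j
        congr 1
        ext k
        simp only [Function.Embedding.trans_apply, Equiv.coe_toEmbedding]
        exact (y.injective.map_swap i j k).symm
      simp only [e2, e3] at e1
      rw [Finset.sum_const, Finset.card_univ, Fintype.card_fin, nsmul_eq_mul] at e1
      push_cast at e1
      linarith
    · intro a b ha hb
      have : y.trans (swap a b).toEmbedding = y := by
        ext k
        simp only [Function.Embedding.trans_apply, Equiv.coe_toEmbedding]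
        exact swap_apply_of_ne_of_ne (ha k) (hb k)
      simp only [this, sub_self]
  -- pair with the marginal
  have hpos : 0 < ∑ y : Fin (J + 1) ↪ X, mg F y z ^ 2 := by
    refine Finset.sum_pos' (fun y _ => sq_nonneg _) ⟨x, Finset.mem_univ _, ?_⟩
    exact lt_of_le_of_ne (sq_nonneg _) (Ne.symm (pow_ne_zero 2 h1))
  have hpsd : ∀ i j : Fin (J + 1), 0 ≤ ∑ y : Fin (J + 1) ↪ X,
      mg F y z * (mg F y z - mg F ((swap i j).toEmbedding.trans y) z) := by
    intro i j
    have e : ∑ y : Fin (J + 1) ↪ X, mg F ((swap i j).toEmbedding.trans y) z ^ 2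
        = ∑ y : Fin (J + 1) ↪ X, mg F y z ^ 2 := by
      refine Fintype.sum_equiv (Equiv.embeddingCongr (swap i j) (Equiv.refl X)) _ _ fun y => ?_
      congr 2
    have : ∑ y : Fin (J + 1) ↪ X,
        mg F y z * (mg F y z - mg F ((swap i j).toEmbedding.trans y) z)
        = (∑ y : Fin (J + 1) ↪ X,
          (mg F y z - mg F ((swap i j).toEmbedding.trans y) z) ^ 2) / 2 := by
      have e' : ∑ y : Fin (J + 1) ↪ X,
          (mg F y z - mg F ((swap i j).toEmbedding.trans y) z) ^ 2
          = ∑ y : Fin (J + 1) ↪ X, (2 *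
            (mg F y z * (mg F y z - mg F ((swap i j).toEmbedding.trans y) z))
            + (mg F ((swap i j).toEmbedding.trans y) z ^ 2 - mg F y z ^ 2)) := by
        refine Finset.sum_congr rfl fun y _ => ?_
        ring
      rw [e', Finset.sum_add_distrib, Finset.sum_sub_distrib, e, ← Finset.mul_sum]
      ring
    rw [this]
    exact div_nonneg (Finset.sum_nonneg fun y _ => sq_nonneg _) (by norm_num)
  have htot : l * ∑ y : Fin (J + 1) ↪ X, mg F y z ^ 2
      = ((J : ℝ) + 1) * ((Fintype.card X : ℝ) - J) * ∑ y : Fin (J + 1) ↪ X, mg F y z ^ 2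
        + (∑ i : Fin (J + 1), ∑ j : Fin (J + 1), ∑ y : Fin (J + 1) ↪ X,
            mg F y z * (mg F y z - mg F ((swap i j).toEmbedding.trans y) z)) / 2 := by
    have e1 : ∑ i : Fin (J + 1), ∑ j : Fin (J + 1), ∑ y : Fin (J + 1) ↪ X,
            mg F y z * (mg F y z - mg F ((swap i j).toEmbedding.trans y) z)
        = ∑ y : Fin (J + 1) ↪ X, mg F y z * ∑ i : Fin (J + 1), ∑ j : Fin (J + 1),
            (mg F y z - mg F ((swap i j).toEmbedding.trans y) z) := by
      have e2 : ∀ i : Fin (J + 1), ∑ j : Fin (J + 1), ∑ y : Fin (J + 1) ↪ X,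
            mg F y z * (mg F y z - mg F ((swap i j).toEmbedding.trans y) z)
          = ∑ y : Fin (J + 1) ↪ X, mg F y z * ∑ j : Fin (J + 1),
            (mg F y z - mg F ((swap i j).toEmbedding.trans y) z) := by
        intro i
        rw [Finset.sum_comm]
        exact Finset.sum_congr rfl fun y _ => (Finset.mul_sum _ _ _).symm
      simp only [e2]
      rw [Finset.sum_comm]
      exact Finset.sum_congr rfl fun y _ => (Finset.mul_sum _ _ _).symm
    rw [e1, Finset.mul_sum, Finset.mul_sum, Finset.sum_div, ← Finset.sum_add_distrib]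
    refine Finset.sum_congr rfl fun y _ => ?_
    have := key y
    calc l * mg F y z ^ 2 = mg F y z * (l * mg F y z) := by ring
      _ = _ := by rw [this]; ring
  have hnn : 0 ≤ (∑ i : Fin (J + 1), ∑ j : Fin (J + 1), ∑ y : Fin (J + 1) ↪ X,
            mg F y z * (mg F y z - mg F ((swap i j).toEmbedding.trans y) z)) / 2 :=
    div_nonneg (Finset.sum_nonneg fun i _ => Finset.sum_nonneg fun j _ => hpsd i j) (by norm_num)
  have : ((J : ℝ) + 1) * ((Fintype.card X : ℝ) - J) * ∑ y : Fin (J + 1) ↪ X, mg F y z ^ 2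
      ≤ l * ∑ y : Fin (J + 1) ↪ X, mg F y z ^ 2 := by
    rw [htot]; linarith
  exact le_of_mul_le_mul_right this hpos

end Pool.Agent.H9.Low
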