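import Pool.Agent.H9.Low.T3
import Pool.Agent.H9.Low.T4a

/-!
# The Laplacian of the transpositions on functions without low marginals
-/

namespace Pool.Agent.H9.Low

open Equiv Finset

section lapl
variable {X : Type} [Fintype X] [DecidableEq X]

/-- the sum of the projections over all pairs, as a linear map -/
noncomputable def t4b_L (X : Type) [Fintype X] [DecidableEq X] :
    (Perm X → ℝ) →ₗ[ℝ] (Perm X → ℝ) where
  toFun F := fun σ => ∑ x, ∑ y, Qsw x y F σ
  map_add' F G := by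
    ext σ
    simp only [Pi.add_apply, ← Finset.sum_add_distrib]
    refine Finset.sum_congr rfl fun x _ => Finset.sum_congr rfl fun y _ => ?_
    simp only [Qsw, Pi.add_apply]; ring
  map_smul' c F := by
    ext σ
    simp only [Pi.smul_apply, smul_eq_mul, Finset.mul_sum, RingHom.id_apply]
    refine Finset.sum_congr rfl fun x _ => Finset.sum_congr rfl fun y _ => ?_
    simp only [Qsw, Pi.smul_apply, smul_eq_mul]; ring

theorem t4b_L_apply (F : Perm X → ℝ) (σ : Perm X) :
    t4b_L X F σ = ∑ x, ∑ y, Qsw x y F σ := rfl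

theorem t4b_Qsw_symm (x y : X) (F G : Perm X → ℝ) :
    ∑ σ, Qsw x y F σ * G σ = ∑ σ, F σ * Qsw x y G σ := by
  have h1 : ∑ σ : Perm X, F (σ * swap x y) * G σ = ∑ σ : Perm X, F σ * G (σ * swap x y) := by
    rw [← Equiv.sum_comp (Equiv.mulRight (swap x y))]
    refine Finset.sum_congr rfl fun σ _ => ?_
    simp only [Equiv.coe_mulRight, mul_assoc, Equiv.swap_mul_self, mul_one]
  simp only [Qsw]
  have e1 : ∀ σ : Perm X, (F σ - F (σ * swap x y)) / 2 * G σ
      = F σ * G σ / 2 - F (σ * swap x y) * G σ / 2 := fun σ => by ring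
  have e2 : ∀ σ : Perm X, F σ * ((G σ - G (σ * swap x y)) / 2)
      = F σ * G σ / 2 - F σ * G (σ * swap x y) / 2 := fun σ => by ring
  rw [Finset.sum_congr rfl fun σ _ => e1 σ, Finset.sum_congr rfl fun σ _ => e2 σ,
    Finset.sum_sub_distrib, Finset.sum_sub_distrib, ← Finset.sum_div, ← Finset.sum_div,
    ← Finset.sum_div, h1]

theorem t4b_L_symm (F G : Perm X → ℝ) :
    ∑ σ, t4b_L X F σ * G σ = ∑ σ, F σ * t4b_L X G σ := by
  simp only [t4b_L_apply, Finset.sum_mul, Finset.mul_sum]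
  rw [Finset.sum_comm]
  rw [Finset.sum_comm (f := fun σ x => ∑ y, F σ * Qsw x y G σ)]
  refine Finset.sum_congr rfl fun x _ => ?_
  rw [Finset.sum_comm]
  rw [Finset.sum_comm (f := fun σ y => F σ * Qsw x y G σ)]
  exact Finset.sum_congr rfl fun y _ => t4b_Qsw_symm x y F G

theorem t4b_mg_mul {J : ℕ} (F : Perm X → ℝ) (g : Perm X) (x z : Fin J ↪ X) :
    mg (fun σ => F (σ * g)) x z = mg F (x.trans g⁻¹.toEmbedding) z := by
  unfold mg
  rw [← Equiv.sum_comp (Equiv.mulRight g⁻¹)]
  refine Finset.sum_congr rfl fun σ _ => ?_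
  simp [mul_assoc]

theorem t4b_L_mem (J : ℕ) (F : Perm X → ℝ) (hF : F ∈ HighS X J) : t4b_L X F ∈ HighS X J := by
  have h1 : t4b_L X F = ∑ x : X, ∑ y : X, ((1 / 2 : ℝ) • F - (1 / 2 : ℝ) • fun σ => F (σ * swap x y)) := by
    ext σ
    rw [t4b_L_apply, Finset.sum_apply]
    refine Finset.sum_congr rfl fun x _ => ?_
    rw [Finset.sum_apply]
    refine Finset.sum_congr rfl fun y _ => ?_
    simp only [Qsw, Pi.sub_apply, Pi.smul_apply, smul_eq_mul]; ring
  rw [h1]
  refine Submodule.sum_mem _ fun x _ => Submodule.sum_mem _ fun y _ => ?_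
  refine Submodule.sub_mem _ (Submodule.smul_mem _ _ hF) (Submodule.smul_mem _ _ ?_)
  intro a z
  rw [t4b_mg_mul]
  exact hF _ _

/-! ### marginals -/

/-- `k`-marginals are sums of `(k+1)`-marginals -/
theorem t4b_mg_succ {k : ℕ} (hk : k + 1 ≤ Fintype.card X) (F : Perm X → ℝ)
    (h : ∀ x z : Fin (k + 1) ↪ X, mg F x z = 0) (x z : Fin k ↪ X) : mg F x z = 0 := by
  have hex : ∃ a, a ∉ Set.range x := by
    by_contra hcon
    push Not at hcon
    have := Fintype.card_le_of_surjective x (fun a => hcon a)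
    rw [Fintype.card_fin] at this
    omega
  obtain ⟨a, ha⟩ := hex
  set x' : Fin (k + 1) ↪ X := Fin.Embedding.snoc x ha with hx'
  have key : mg F x z = ∑ z' : Fin (k + 1) ↪ X,
      if ∀ i : Fin k, z' i.castSucc = z i then mg F x' z' else 0 := by
    unfold mg
    simp only [← Finset.sum_filter]
    rw [Finset.sum_sigma']
    refine Finset.sum_bij' (fun σ _ => ⟨x'.trans σ.toEmbedding, σ⟩) (fun p _ => p.2) ?_ ?_ ?_ ?_ ?_
    · intro σ hσ
      rw [Finset.mem_filter] at hσ
      rw [Finset.mem_sigma]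
      refine ⟨?_, ?_⟩
      · rw [Finset.mem_filter]
        refine ⟨Finset.mem_univ _, fun i => ?_⟩
        simp only [hx', Function.Embedding.trans_apply, Fin.Embedding.snoc_castSucc]
        exact hσ.2 i
      · rw [Finset.mem_filter]
        exact ⟨Finset.mem_univ _, fun i => rfl⟩
    · rintro ⟨z', σ⟩ hp
      rw [Finset.mem_sigma] at hp
      obtain ⟨h1, h2⟩ := hp
      rw [Finset.mem_filter] at h1 h2 ⊢
      refine ⟨Finset.mem_univ _, fun i => ?_⟩
      have h3 := h2.2 i.castSucc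
      simp only [hx', Fin.Embedding.snoc_castSucc] at h3
      exact h3.trans (h1.2 i)
    · intro σ _; rfl
    · rintro ⟨z', σ⟩ hp
      rw [Finset.mem_sigma] at hp
      obtain ⟨h1, h2⟩ := hp
      rw [Finset.mem_filter] at h2
      have : x'.trans σ.toEmbedding = z' := by
        ext i; exact h2.2 i
      simp only [this]
    · intro σ _; rfl
  rw [key]
  refine Finset.sum_eq_zero fun z' _ => ?_
  rw [h x' z', ite_self]

theorem t4b_mg_le {J k : ℕ} (hkJ : k ≤ J) (hJ : J ≤ Fintype.card X) (F : Perm X → ℝ)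
    (h : ∀ x z : Fin J ↪ X, mg F x z = 0) : ∀ x z : Fin k ↪ X, mg F x z = 0 := by
  induction hkJ using Nat.decreasingInduction with
  | self => exact h
  | of_succ k hk ih => exact t4b_mg_succ (by omega) F ih

/-- the marginals of full length are the values -/
theorem t4b_mg_card (F : Perm X → ℝ) (h : ∀ x z : Fin (Fintype.card X) ↪ X, mg F x z = 0) :
    F = 0 := by
  ext σ
  have e := (Fintype.equivFin X).symm
  have h1 := h e.toEmbedding (e.toEmbedding.trans σ.toEmbedding)
  unfold mg at h1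
  rw [Finset.sum_eq_single σ] at h1
  · have h2 : ∀ i, σ (e.toEmbedding i) = (e.toEmbedding.trans σ.toEmbedding) i := fun i => rfl
    rw [if_pos h2] at h1; exact h1
  · intro τ _ hτ
    rw [if_neg]
    intro hcon
    apply hτ
    ext y
    have := hcon (e.symm y)
    simpa using this
  · intro hcon; exact absurd (Finset.mem_univ _) hcon

/-- if the `j`-marginals vanish then the sums over the cosets of `Sym S`, `|S| = N - j`, vanish -/
theorem t4b_coset (j : ℕ) (F : Perm X → ℝ) (h : ∀ x z : Fin j ↪ X, mg F x z = 0)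
    (S : Finset X) (hS : S.card + j = Fintype.card X) (σ : Perm X) :
    ∑ k : Perm {x // x ∈ S}, F (σ * Perm.ofSubtype k) = 0 := by
  have hc : Fintype.card {x // x ∉ S} = j := by
    have h1 : Fintype.card {x // x ∉ S} = Sᶜ.card := by
      rw [Fintype.card_subtype]; congr 1; ext x; simp
    rw [h1, Finset.card_compl]; omega
  let e : Fin j ≃ {x // x ∉ S} := (Fintype.equivFinOfCardEq hc).symm
  let x : Fin j ↪ X := e.toEmbedding.trans (Function.Embedding.subtype _)
  have h1 := h x (x.trans σ.toEmbedding)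
  rw [← h1]
  unfold mg
  rw [← Finset.sum_filter]
  refine Finset.sum_bij (fun k _ => σ * Perm.ofSubtype k) ?_ ?_ ?_ ?_
  · intro k _
    rw [Finset.mem_filter]
    refine ⟨Finset.mem_univ _, fun i => ?_⟩
    have : Perm.ofSubtype k (x i) = x i := Perm.ofSubtype_apply_of_not_mem k (e i).2
    rw [Perm.mul_apply, this]; rfl
  · intro k _ k' _ hkk
    exact Perm.ofSubtype_injective (mul_left_cancel hkk)
  · intro τ hτ
    rw [Finset.mem_filter] at hτ
    have hfix : ∀ y, y ∉ S → (σ⁻¹ * τ) y = y := by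
      intro y hy
      have := hτ.2 (e.symm ⟨y, hy⟩)
      have hx : x (e.symm ⟨y, hy⟩) = y := by simp [x]
      rw [hx] at this
      rw [Perm.mul_apply, this]
      simp [hx]
    have hmem : ∀ y, y ∈ S ↔ (σ⁻¹ * τ) y ∈ S := by
      intro y
      constructor
      · intro hy
        by_contra hcon
        have h2 := hfix _ hcon
        have h3 : (σ⁻¹ * τ) y = y := (σ⁻¹ * τ).injective h2
        rw [h3] at hcon; exact hcon hy
      · intro hy
        by_contra hcon
        rw [hfix y hcon] at hy; exact hcon hy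
    refine ⟨(σ⁻¹ * τ).subtypePerm (fun y => (hmem y).symm), Finset.mem_univ _, ?_⟩
    rw [Perm.ofSubtype_subtypePerm]
    · rw [mul_inv_cancel_left]
    · intro y hy
      by_contra hcon
      exact hy (hfix y hcon)
  · intro k _; rfl

/-! ### the spectral gap -/

theorem tg_eig (F : Perm X → ℝ) (hF : F ∈ HighS X 0) (hF0 : F ≠ 0) (l : ℝ)
    (hl : ∀ σ, ∑ x, ∑ y, Qsw x y F σ = l * F σ) : (Fintype.card X : ℝ) ≤ l := by
  classical
  have hex : ∃ k, ∃ x z : Fin k ↪ X, mg F x z ≠ 0 := by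
    by_contra hcon
    push Not at hcon
    exact hF0 (t4b_mg_card F fun x z => hcon _ x z)
  obtain ⟨x, z, hxz⟩ := Nat.find_spec hex
  have hmin : ∀ k < Nat.find hex, ∀ x z : Fin k ↪ X, mg F x z = 0 := by
    intro k hk x z
    by_contra hcon
    exact Nat.find_min hex hk ⟨x, z, hcon⟩
  have hf0 : Nat.find hex ≠ 0 := by
    intro hcon
    have h0 : ∀ x z : Fin (Nat.find hex) ↪ X, mg F x z = 0 := by
      rw [hcon]; exact hF
    exact hxz (h0 x z)
  have hfN : Nat.find hex ≤ Fintype.card X := by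
    have := Fintype.card_le_of_injective x x.injective
    rwa [Fintype.card_fin] at this
  obtain ⟨j, hj⟩ : ∃ j, Nat.find hex = j + 1 := ⟨Nat.find hex - 1, by omega⟩
  have hjvan := hmin j (by omega)
  have hex1 : ∃ x z : Fin (j + 1) ↪ X, mg F x z ≠ 0 := by
    have := Nat.find_spec hex
    rwa [hj] at this
  obtain ⟨x1, z1, hxz1⟩ := hex1
  have hb := t4a_min F l hl j hjvan x1 z1 hxz1
  have h1 : (j : ℝ) + 1 ≤ Fintype.card X := by
    have : j + 1 ≤ Fintype.card X := by omega
    exact_mod_cast this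
  have h2 : (0 : ℝ) ≤ j := Nat.cast_nonneg j
  nlinarith [mul_nonneg h2 (sub_nonneg.2 h1)]

/-- the spectral gap on the functions with sum zero -/
theorem tg_gap (F : Perm X → ℝ) (hF : ∑ σ, F σ = 0) :
    (Fintype.card X : ℝ) * ∑ σ, F σ ^ 2 ≤ ∑ σ, F σ * t4b_L X F σ := by
  have hF' : F ∈ HighS X 0 := by
    intro x z
    unfold mg
    rw [← hF]
    refine Finset.sum_congr rfl fun σ _ => ?_
    rw [if_pos]
    intro i; exact i.elim0
  have h1 := tev (-(t4b_L X)) (fun f g => by
      simp only [LinearMap.neg_apply, Pi.neg_apply, neg_mul, mul_neg, Finset.sum_neg_distrib]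
      rw [t4b_L_symm]) (HighS X 0)
    (fun f hf => by
      rw [LinearMap.neg_apply]
      exact Submodule.neg_mem _ (t4b_L_mem 0 f hf))
    (-(Fintype.card X : ℝ)) (fun f hf hf0 l hl => by
      have h2 : ∀ σ, ∑ x, ∑ y, Qsw x y f σ = (-l) * f σ := by
        intro σ
        have h3 := congrFun hl σ
        rw [LinearMap.neg_apply, Pi.neg_apply, Pi.smul_apply, smul_eq_mul, t4b_L_apply] at h3
        linarith
      have h4 := tg_eig f hf hf0 (-l) h2
      linarith) F hF'
  simp only [LinearMap.neg_apply, Pi.neg_apply, mul_neg, Finset.sum_neg_distrib] at h1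
  linarith

theorem tg_swap (S : Finset X) (x y : {x // x ∈ S}) :
    Perm.ofSubtype (swap x y) = swap (x : X) (y : X) := by
  ext z
  by_cases hz : z ∈ S
  · rw [Perm.ofSubtype_apply_of_mem _ hz]
    simp only [Equiv.swap_apply_def]
    by_cases h1 : z = x
    · have : (⟨z, hz⟩ : {x // x ∈ S}) = x := Subtype.ext h1
      rw [if_pos this, if_pos h1]
    · have : ¬ (⟨z, hz⟩ : {x // x ∈ S}) = x := fun h => h1 (congrArg Subtype.val h)
      rw [if_neg this, if_neg h1]
      by_cases h2 : z = y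
      · have : (⟨z, hz⟩ : {x // x ∈ S}) = y := Subtype.ext h2
        rw [if_pos this, if_pos h2]
      · have : ¬ (⟨z, hz⟩ : {x // x ∈ S}) = y := fun h => h2 (congrArg Subtype.val h)
        rw [if_neg this, if_neg h2]
  · rw [Perm.ofSubtype_apply_of_not_mem _ hz, Equiv.swap_apply_of_ne_of_ne]
    · rintro rfl; exact hz x.2
    · rintro rfl; exact hz y.2

theorem t4b_gap (S : Finset X) (F : Perm X → ℝ)
    (h : ∀ σ, ∑ k : Perm {x // x ∈ S}, F (σ * Perm.ofSubtype k) = 0) :
    (S.card : ℝ) * nsq F ≤ ∑ x ∈ S, ∑ y ∈ S, ipr F (Qsw x y F) := by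
  have hfib : ∀ σ, (S.card : ℝ) * ∑ k : Perm {x // x ∈ S}, F (σ * Perm.ofSubtype k) ^ 2
      ≤ ∑ x ∈ S, ∑ y ∈ S, ∑ k : Perm {x // x ∈ S},
        F (σ * Perm.ofSubtype k) * Qsw x y F (σ * Perm.ofSubtype k) := by
    intro σ
    have h1 := tg_gap (fun k : Perm {x // x ∈ S} => F (σ * Perm.ofSubtype k)) (h σ)
    rw [Fintype.card_coe] at h1
    refine h1.trans (le_of_eq ?_)
    simp only [t4b_L_apply, Finset.mul_sum]
    rw [Finset.sum_comm, ← Finset.sum_coe_sort S]
    refine Finset.sum_congr rfl fun x _ => ?_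
    rw [Finset.sum_comm, ← Finset.sum_coe_sort S]
    refine Finset.sum_congr rfl fun y _ => ?_
    refine Finset.sum_congr rfl fun k _ => ?_
    unfold Qsw
    simp only [map_mul, tg_swap, mul_assoc]
  have hav : ∀ G : Perm X → ℝ, (Fintype.card (Perm {x // x ∈ S}) : ℝ) * ∑ σ, G σ
      = ∑ σ, ∑ k : Perm {x // x ∈ S}, G (σ * Perm.ofSubtype k) := by
    intro G
    rw [Finset.sum_comm]
    have : ∀ k : Perm {x // x ∈ S}, ∑ σ, G (σ * Perm.ofSubtype k) = ∑ σ, G σ := fun k =>
      Equiv.sum_comp (Equiv.mulRight (Perm.ofSubtype k)) G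
    simp only [this]
    rw [Finset.sum_const, nsmul_eq_mul, Finset.card_univ]
  have hK : (0 : ℝ) < Fintype.card (Perm {x // x ∈ S}) := by exact_mod_cast Fintype.card_pos
  have hsum : (S.card : ℝ) * ∑ σ, F σ ^ 2 ≤ ∑ x ∈ S, ∑ y ∈ S, ∑ σ, F σ * Qsw x y F σ := by
    have h1 := Finset.sum_le_sum (fun σ (_ : σ ∈ (univ : Finset (Perm X))) => hfib σ)
    rw [← Finset.mul_sum, ← hav (fun σ => F σ ^ 2)] at h1
    rw [Finset.sum_comm] at h1
    have h2 : ∀ x, ∑ σ : Perm X, ∑ y ∈ S, ∑ k : Perm {x // x ∈ S},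
        F (σ * Perm.ofSubtype k) * Qsw x y F (σ * Perm.ofSubtype k)
        = ∑ y ∈ S, (Fintype.card (Perm {x // x ∈ S}) : ℝ) * ∑ σ, F σ * Qsw x y F σ := by
      intro x
      rw [Finset.sum_comm]
      refine Finset.sum_congr rfl fun y _ => ?_
      exact (hav fun σ => F σ * Qsw x y F σ).symm
    simp only [h2, ← Finset.mul_sum] at h1
    have h3 : (Fintype.card (Perm {x // x ∈ S}) : ℝ) * ((S.card : ℝ) * ∑ σ, F σ ^ 2)
        ≤ (Fintype.card (Perm {x // x ∈ S}) : ℝ) * ∑ x ∈ S, ∑ y ∈ S, ∑ σ, F σ * Qsw x y F σ := by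
      refine le_trans (le_of_eq ?_) h1
      ring
    exact le_of_mul_le_mul_left h3 hK
  unfold nsq ipr av
  simp only [← Finset.sum_div]
  rw [← mul_div_assoc]
  exact div_le_div_of_nonneg_right hsum (Nat.cast_nonneg _)

/-- the bound for eigenvectors, case of a level near `N` -/
theorem t4b_eig_top (F : Perm X → ℝ) (l : ℝ) (hl : ∀ σ, ∑ x, ∑ y, Qsw x y F σ = l * F σ)
    (hF : F ≠ 0) (j r : ℕ) (hr : 1 ≤ r) (hjr : r + j = Fintype.card X)
    (h : ∀ x z : Fin j ↪ X, mg F x z = 0) :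
    2 ≤ r ∧ (Fintype.card X : ℝ) * ((Fintype.card X : ℝ) - 1) ≤ l * ((r : ℝ) - 1) := by
  have hn : 0 < nsq F := by
    rcases (nsq_nonneg F).lt_or_eq with h1 | h1
    · exact h1
    · exact absurd (nsq_eq_zero h1.symm) hF
  have hS : ∀ S ∈ powersetCard r (univ : Finset X),
      (r : ℝ) * nsq F ≤ ∑ x ∈ S, ∑ y ∈ S, ipr F (Qsw x y F) := by
    intro S hS
    rw [mem_powersetCard] at hS
    have h1 := t4b_gap S F (fun σ => t4b_coset j F h S (by rw [hS.2]; exact hjr) σ)
    rw [hS.2] at h1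
    exact h1
  have hdiag : ∀ x : X, ipr F (Qsw x x F) = 0 := by
    intro x
    have : Qsw x x F = fun _ => 0 := by
      ext σ
      unfold Qsw
      rw [Equiv.swap_self]
      change (F σ - F (σ * 1)) / 2 = 0
      rw [mul_one]; ring
    rw [this]; simp [ipr, av]
  have hr2 : 2 ≤ r := by
    by_contra hcon
    have hr1 : r = 1 := by omega
    subst hr1
    have hX : 0 < Fintype.card X := by omega
    rw [Fintype.card_pos_iff] at hX
    obtain ⟨a⟩ := hX
    have h1 := hS {a} (by simp)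
    simp only [Finset.sum_singleton, hdiag] at h1
    simp at h1
    linarith
  refine ⟨hr2, ?_⟩
  have hsum := Finset.sum_le_sum hS
  rw [Finset.sum_const, nsmul_eq_mul, card_powersetCard, Finset.card_univ] at hsum
  have hcount : ∑ S ∈ powersetCard r (univ : Finset X), ∑ x ∈ S, ∑ y ∈ S, ipr F (Qsw x y F)
      = ((Fintype.card X - 2).choose (r - 2) : ℝ) * (l * nsq F) := by
    have h1 : ∑ S ∈ powersetCard r (univ : Finset X), ∑ x ∈ S, ∑ y ∈ S, ipr F (Qsw x y F)
        = ∑ x : X, ∑ y : X, ∑ S ∈ powersetCard r (univ : Finset X),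
          if {x, y} ⊆ S then ipr F (Qsw x y F) else 0 := by
      have h2 : ∀ S : Finset X, ∑ x ∈ S, ∑ y ∈ S, ipr F (Qsw x y F)
          = ∑ x : X, ∑ y : X, if {x, y} ⊆ S then ipr F (Qsw x y F) else 0 := by
        intro S
        have h3 : ∀ x y : X, (if {x, y} ⊆ S then ipr F (Qsw x y F) else 0)
            = if x ∈ S then (if y ∈ S then ipr F (Qsw x y F) else 0) else 0 := by
          intro x y
          by_cases hx : x ∈ S <;> by_cases hy : y ∈ S <;>
            simp [Finset.insert_subset_iff, hx, hy]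
        simp only [h3]
        have h4 : ∀ x : X, (∑ y : X, if x ∈ S then (if y ∈ S then ipr F (Qsw x y F) else 0) else 0)
            = if x ∈ S then ∑ y ∈ S, ipr F (Qsw x y F) else 0 := by
          intro x
          by_cases hx : x ∈ S <;> simp [hx]
        simp only [h4]
        simp
      simp only [h2]
      rw [Finset.sum_comm]
      exact Finset.sum_congr rfl fun x _ => Finset.sum_comm
    have h3 : ∀ x y : X, ∑ S ∈ powersetCard r (univ : Finset X),
          (if {x, y} ⊆ S then ipr F (Qsw x y F) else 0)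
        = ((Fintype.card X - 2).choose (r - 2) : ℝ) * ipr F (Qsw x y F) := by
      intro x y
      rcases eq_or_ne x y with hxy | hxy
      · subst hxy; simp [hdiag]
      · rw [← Finset.sum_filter, Finset.sum_const, nsmul_eq_mul,
          card_filter_powersetCard_subset _ _ _ (subset_univ _)
            (by rw [Finset.card_pair hxy]; exact hr2), Finset.card_pair hxy,
          Finset.card_univ]
    have h4 : l * nsq F = ∑ x : X, ∑ y : X, ipr F (Qsw x y F) := by
      have h5 : l * nsq F = ipr F (fun σ => ∑ x, ∑ y, Qsw x y F σ) := by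
        have : (fun σ => ∑ x, ∑ y, Qsw x y F σ) = fun σ => l * F σ := funext hl
        rw [this, ipr_smul_right, nsq_eq_ipr]
      rw [h5]
      unfold ipr
      simp only [Finset.mul_sum]
      rw [av_sum]
      refine Finset.sum_congr rfl fun x _ => ?_
      rw [← av_sum]
    rw [h1, h4]
    simp only [Finset.mul_sum, h3]
  rw [hcount] at hsum
  obtain ⟨s, rfl⟩ : ∃ s, r = s + 2 := ⟨r - 2, by omega⟩
  obtain ⟨n, hn2⟩ : ∃ n, Fintype.card X = n + 2 := ⟨Fintype.card X - 2, by omega⟩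
  rw [hn2] at hsum ⊢
  have hid1 : ((n : ℝ) + 2) * ((n + 1).choose (s + 1) : ℝ)
      = ((n + 2).choose (s + 2) : ℝ) * ((s : ℝ) + 2) := by
    exact_mod_cast Nat.add_one_mul_choose_eq (n + 1) (s + 1)
  have hid2 : ((n : ℝ) + 1) * (n.choose s : ℝ) = ((n + 1).choose (s + 1) : ℝ) * ((s : ℝ) + 1) := by
    exact_mod_cast Nat.add_one_mul_choose_eq n s
  have hcp : (0 : ℝ) < (n.choose s : ℝ) := by
    exact_mod_cast Nat.choose_pos (by omega)
  simp only [Nat.add_sub_cancel] at hsum
  push_cast at hsum ⊢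
  have h5 : (n.choose s : ℝ) * (((n : ℝ) + 2) * ((n : ℝ) + 1)) * nsq F
      ≤ (n.choose s : ℝ) * (l * ((s : ℝ) + 1)) * nsq F := by
    have h6 : (n.choose s : ℝ) * (((n : ℝ) + 2) * ((n : ℝ) + 1))
        = ((n + 2).choose (s + 2) : ℝ) * ((s : ℝ) + 2) * ((s : ℝ) + 1) := by
      linear_combination ((n : ℝ) + 2) * hid2 + ((s : ℝ) + 1) * hid1
    rw [h6]
    have h7 := mul_le_mul_of_nonneg_right hsum (show (0 : ℝ) ≤ (s : ℝ) + 1 by positivity)
    calc ((n + 2).choose (s + 2) : ℝ) * ((s : ℝ) + 2) * ((s : ℝ) + 1) * nsq F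
        = ((n + 2).choose (s + 2) : ℝ) * (((s : ℝ) + 2) * nsq F) * ((s : ℝ) + 1) := by ring
      _ ≤ _ := h7
      _ = _ := by ring
  have h8 := le_of_mul_le_mul_right h5 hn
  have h9 := le_of_mul_le_mul_left h8 hcp
  calc ((n : ℝ) + 2) * ((n : ℝ) + 2 - 1) = ((n : ℝ) + 2) * ((n : ℝ) + 1) := by ring
    _ ≤ _ := h9
    _ = _ := by ring

/-- the bound for eigenvectors -/
theorem t4b_eig (J : ℕ) (hJ : 1 ≤ J) (hJ2 : J ^ 2 + 1 ≤ Fintype.card X) (F : Perm X → ℝ)
    (hF : F ∈ HighS X J) (hF0 : F ≠ 0) (l : ℝ) (hl : ∀ σ, ∑ x, ∑ y, Qsw x y F σ = l * F σ) :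
    (J : ℝ) * ((Fintype.card X : ℝ) - 1) / 2 ≤ l := by
  classical
  have hJN : J ≤ Fintype.card X := by nlinarith
  have hex : ∃ k, ∃ x z : Fin k ↪ X, mg F x z ≠ 0 := by
    by_contra hcon
    push Not at hcon
    exact hF0 (t4b_mg_card F fun x z => hcon _ x z)
  obtain ⟨x, z, hxz⟩ := Nat.find_spec hex
  have hmin : ∀ k < Nat.find hex, ∀ x z : Fin k ↪ X, mg F x z = 0 := by
    intro k hk x z
    by_contra hcon
    exact Nat.find_min hex hk ⟨x, z, hcon⟩
  have hlow : ∀ k ≤ J, ∀ x z : Fin k ↪ X, mg F x z = 0 := fun k hk =>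
    t4b_mg_le hk hJN F hF
  have hfJ : J < Nat.find hex := by
    by_contra hcon
    exact hxz (hlow _ (not_lt.1 hcon) x z)
  have hfN : Nat.find hex ≤ Fintype.card X := by
    have := Fintype.card_le_of_injective x x.injective
    rwa [Fintype.card_fin] at this
  obtain ⟨j, hj⟩ : ∃ j, Nat.find hex = j + 1 := ⟨Nat.find hex - 1, by omega⟩
  have hjvan := hmin j (by omega)
  have hex1 : ∃ x z : Fin (j + 1) ↪ X, mg F x z ≠ 0 := by
    have := Nat.find_spec hex
    rwa [hj] at this
  obtain ⟨x1, z1, hxz1⟩ := hex1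
  have hb := t4a_min F l hl j hjvan x1 z1 hxz1
  have hJr : (1 : ℝ) ≤ J := by exact_mod_cast hJ
  have hJ2r : (J : ℝ) ^ 2 + 1 ≤ Fintype.card X := by exact_mod_cast hJ2
  have hjJ : (J : ℝ) ≤ j := by
    have : J ≤ j := by omega
    exact_mod_cast this
  set N : ℝ := (Fintype.card X : ℝ) with hN
  rcases le_or_gt (j + J + 1) (Fintype.card X) with hc | hc
  · have hc' : (j : ℝ) + J + 1 ≤ N := by rw [hN]; exact_mod_cast hc
    refine le_trans ?_ hb
    have h1 : ((J : ℝ) + 1) * (N - J) ≤ ((j : ℝ) + 1) * (N - j) := by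
      nlinarith [mul_nonneg (sub_nonneg.2 hjJ) (sub_nonneg.2 hc')]
    refine le_trans ?_ h1
    nlinarith
  · have hr := t4b_eig_top F l hl hF0 j (Fintype.card X - j) (by omega) (by omega) hjvan
    obtain ⟨hr2, hr3⟩ := hr
    have hjN : j ≤ Fintype.card X := by omega
    rw [Nat.cast_sub hjN] at hr3
    have hr4 : (1 : ℝ) ≤ N - j - 1 := by
      have : j + 2 ≤ Fintype.card X := by omega
      have : (j : ℝ) + 2 ≤ N := by rw [hN]; exact_mod_cast this
      linarith
    have hr5 : N - j - 1 ≤ J - 1 := by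
      have : Fintype.card X ≤ j + J := by omega
      have : N ≤ (j : ℝ) + J := by rw [hN]; exact_mod_cast this
      linarith
    have hl0 : 0 ≤ l := by
      by_contra hcon
      push Not at hcon
      have : l * (N - j - 1) ≤ l * 1 := by nlinarith
      nlinarith
    have h6 : N * (N - 1) ≤ l * ((J : ℝ) - 1) :=
      hr3.trans (mul_le_mul_of_nonneg_left hr5 hl0)
    rw [div_le_iff₀ (by norm_num)]
    have hJ1 : (0 : ℝ) < J - 1 := by linarith
    have h7 : (J : ℝ) * (N - 1) * (J - 1) ≤ l * 2 * (J - 1) := by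
      have h8 : (J : ℝ) * (J - 1) ≤ 2 * N := by nlinarith
      have h9 : (0 : ℝ) ≤ N - 1 := by nlinarith
      nlinarith [mul_le_mul_of_nonneg_right h8 h9]
    exact le_of_mul_le_mul_right h7 hJ1

theorem t4b_Dlt (F : Perm X → ℝ) : Dlt F = fun σ =>
    t4b_L X F σ / ((Fintype.card X : ℝ) * ((Fintype.card X : ℝ) - 1)) := rfl

theorem lap_high (J : ℕ) (hJ : 1 ≤ J)
    (hJ2 : J ^ 2 + 1 ≤ Fintype.card X) (F : Perm X → ℝ) (hF : F ∈ HighS X J) :
    (J : ℝ) / (2 * Fintype.card X) * nsq F ≤ ipr F (Dlt F) := by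
  have h1 := tev (-(t4b_L X)) (fun f g => by
      simp only [LinearMap.neg_apply, Pi.neg_apply, neg_mul, mul_neg, Finset.sum_neg_distrib]
      rw [t4b_L_symm]) (HighS X J)
    (fun f hf => by
      rw [LinearMap.neg_apply]
      exact Submodule.neg_mem _ (t4b_L_mem J f hf))
    (-((J : ℝ) * ((Fintype.card X : ℝ) - 1) / 2)) (fun f hf hf0 l hl => by
      have h2 : ∀ σ, ∑ x, ∑ y, Qsw x y f σ = (-l) * f σ := by
        intro σ
        have h3 := congrFun hl σ
        rw [LinearMap.neg_apply, Pi.neg_apply, Pi.smul_apply, smul_eq_mul, t4b_L_apply] at h3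
        linarith
      have h4 := t4b_eig J hJ hJ2 f hf hf0 (-l) h2
      linarith) F hF
  have hN2 : (2 : ℝ) ≤ Fintype.card X := by
    have : 2 ≤ Fintype.card X := by nlinarith
    exact_mod_cast this
  set N : ℝ := (Fintype.card X : ℝ) with hN
  have hN0 : 0 < N := by linarith
  have hN1 : 0 < N - 1 := by linarith
  have h5 : (J : ℝ) * (N - 1) / 2 * ∑ σ, F σ ^ 2 ≤ ∑ σ, F σ * t4b_L X F σ := by
    simp only [LinearMap.neg_apply, Pi.neg_apply, mul_neg, Finset.sum_neg_distrib] at h1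
    linarith
  have h6 : ipr F (Dlt F) = (∑ σ, F σ * t4b_L X F σ) / (N * (N - 1)) / (Fintype.card (Perm X) : ℝ) := by
    unfold ipr av
    congr 1
    rw [Finset.sum_div]
    refine Finset.sum_congr rfl fun σ _ => ?_
    rw [t4b_Dlt, mul_div_assoc]
  rw [h6]
  unfold nsq av
  rw [← mul_div_assoc]
  refine div_le_div_of_nonneg_right ?_ (Nat.cast_nonneg _)
  rw [le_div_iff₀ (mul_pos hN0 hN1)]
  refine le_trans (le_of_eq ?_) h5
  field_simp

theorem lap_inv (J : ℕ) (hJ : 1 ≤ J)
    (hJ2 : J ^ 2 + 1 ≤ Fintype.card X) (F : Perm X → ℝ) (hF : F ∈ HighS X J) :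
    ∃ h ∈ HighS X J, Dlt h = F ∧
      ipr h F ≤ (2 * Fintype.card X / J : ℝ) * nsq F ∧
      nsq h ≤ (2 * Fintype.card X / J : ℝ) ^ 2 * nsq F := by
  have hN2 : (2 : ℝ) ≤ Fintype.card X := by
    have : 2 ≤ Fintype.card X := by nlinarith
    exact_mod_cast this
  have hJ0 : (0 : ℝ) < J := by
    have : (1 : ℝ) ≤ J := by exact_mod_cast hJ
    linarith
  set N : ℝ := (Fintype.card X : ℝ) with hN
  have hN0 : 0 < N := by linarith
  have hN1 : 0 < N - 1 := by linarith
  -- the operator on `HighS`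
  let D : (HighS X J) →ₗ[ℝ] (HighS X J) :=
    ((1 / (N * (N - 1))) • t4b_L X).restrict (fun f hf => by
      rw [LinearMap.smul_apply]
      exact Submodule.smul_mem _ _ (t4b_L_mem J f hf))
  have hD : ∀ f : HighS X J, ((D f : HighS X J) : Perm X → ℝ) = Dlt (f : Perm X → ℝ) := by
    intro f
    ext σ
    rw [t4b_Dlt]
    simp only [D, LinearMap.restrict_apply, LinearMap.smul_apply, Pi.smul_apply, smul_eq_mul]
    rw [hN]; ring
  have hinj : Function.Injective D := by
    rw [← LinearMap.ker_eq_bot, LinearMap.ker_eq_bot']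
    intro f hf
    have h1 := lap_high J hJ hJ2 (f : Perm X → ℝ) f.2
    rw [← hD f, hf] at h1
    have h2 : ipr (f : Perm X → ℝ) ((0 : HighS X J) : Perm X → ℝ) = 0 := by
      simp [ipr, av]
    rw [h2] at h1
    have h3 : nsq (f : Perm X → ℝ) ≤ 0 := by
      by_contra hcon
      push Not at hcon
      have : 0 < (J : ℝ) / (2 * Fintype.card X) * nsq (f : Perm X → ℝ) :=
        mul_pos (div_pos hJ0 (by rw [← hN]; linarith)) hcon
      linarith
    exact Subtype.ext (nsq_eq_zero (le_antisymm h3 (nsq_nonneg _)))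
  have hsurj := LinearMap.injective_iff_surjective.1 hinj
  obtain ⟨h, hh⟩ := hsurj ⟨F, hF⟩
  have hh' : Dlt (h : Perm X → ℝ) = F := by rw [← hD h, hh]
  refine ⟨h, h.2, hh', ?_⟩
  have h1 := lap_high J hJ hJ2 (h : Perm X → ℝ) h.2
  rw [hh'] at h1
  have h2 := ipr_sq_le (h : Perm X → ℝ) F
  have hh0 := nsq_nonneg (h : Perm X → ℝ)
  have hF0 := nsq_nonneg F
  have h3 : 0 ≤ ipr (h : Perm X → ℝ) F := le_trans (by positivity) h1
  set a := nsq (h : Perm X → ℝ) with ha
  set b := nsq F with hb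
  set p := ipr (h : Perm X → ℝ) F with hp
  have h4 : a ≤ (2 * N / J) * p := by
    have h5 : a = (2 * N / J) * ((J : ℝ) / (2 * N) * a) := by field_simp
    rw [h5]
    exact mul_le_mul_of_nonneg_left h1 (by positivity)
  have h5 : p ≤ (2 * N / J) * b := by
    rcases h3.lt_or_eq with hp0 | hp0
    · have h6 : p * p ≤ (2 * N / J * b) * p := by
        calc p * p = p ^ 2 := by ring
          _ ≤ a * b := h2
          _ ≤ (2 * N / J) * p * b := mul_le_mul_of_nonneg_right h4 hF0
          _ = _ := by ring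
      exact le_of_mul_le_mul_right h6 hp0
    · rw [← hp0]; positivity
  refine ⟨h5, h4.trans ?_⟩
  calc (2 * N / J) * p ≤ (2 * N / J) * ((2 * N / J) * b) :=
        mul_le_mul_of_nonneg_left h5 (by positivity)
    _ = _ := by ring

end lapl

end Pool.Agent.H9.Low
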