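import Pool.Agent.H9.Low.T6a
import Pool.Agent.H9.Low.T4b

/-!
# The tensor step: words of the second group of letters contract the high functions
-/

namespace Pool.Agent.H9.Low

open Equiv Finset

theorem tens {τ β' ι : Type} [Fintype τ] [DecidableEq τ] [Fintype β'] [DecidableEq β']
    [Fintype ι] [Nonempty ι]
    (q : ℕ) (hq : 1 ≤ q) (xy : Fin q × Bool ↪ τ) (W : ι → Perm (τ ⊕ β')) (δ : ℝ)
    (hW : ∀ x z : Fin 4 ↪ τ ⊕ β', |av (fun b => if ∀ i, W b (x i) = z i then (1 : ℝ) else 0)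
       - 1 / (Fintype.card (Fin 4 ↪ τ ⊕ β') : ℝ)| ≤ δ)
    (J : ℕ) (hJ : 1 ≤ J) (N : ℕ) (hN : N = Fintype.card (τ ⊕ β')) (hJ2 : J ^ 2 + 1 ≤ N)
    (hN20 : 20 ≤ N) (F : Perm (τ ⊕ β') → ℝ) (hF : F ∈ HighS (τ ⊕ β') J) :
    av (fun b => nsq (EK (inlP τ β') (R (W b) F))) ≤
      (6 / (N : ℝ) + (2 * N / J) * (1 / q + 4 / (N : ℝ) ^ 2)
        + 4 * (N : ℝ) ^ 4 * δ * (2 * N / J) ^ 2) * nsq F := by
  subst hN
  obtain ⟨h, hh, hD, hi, hn⟩ := lap_inv J hJ hJ2 F hF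
  have hJ' : (1 : ℝ) ≤ J := by exact_mod_cast hJ
  have hK1 : (1 : ℝ) ≤ 2 * (Fintype.card (τ ⊕ β') : ℝ) / J := by
    rw [le_div_iff₀ (by linarith), one_mul]
    have h1 : (J : ℝ) ^ 2 + 1 ≤ (Fintype.card (τ ⊕ β') : ℝ) := by exact_mod_cast hJ2
    nlinarith
  refine (av_le_av fun b => t6_word q hq xy (W b) F h).trans ?_
  exact t6_avg q hq (xy.trans Function.Embedding.inl) W δ hW _ rfl hN20 _ hK1 F h hD hi hn

end Pool.Agent.H9.Low
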