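import Pool.Agent.H9.Low.T7
import Pool.Agent.H9.Low.MSc

/-!
# The contraction hypothesis on the letters from its two halves
-/

namespace Pool.Agent.H9.Low

open Equiv Finset

namespace T8

/-- orthogonal decomposition -/
theorem exists_decomp {Y : Type*} [Fintype Y] (U : Submodule ℝ (Y → ℝ)) (F : Y → ℝ) :
    ∃ a ∈ orth U, ∃ b ∈ U, F = fun y => a y + b y := by
  classical
  let E := EuclideanSpace ℝ Y
  let Φ : E ≃ₗ[ℝ] (Y → ℝ) := (WithLp.linearEquiv 2 ℝ (Y → ℝ))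
  have hin : ∀ x y : E, inner ℝ x y = ∑ i, Φ x i * Φ y i := by
    intro x y
    rw [PiLp.inner_apply]
    refine Finset.sum_congr rfl fun i _ => ?_
    simp only [RCLike.inner_apply, conj_trivial]
    exact mul_comm _ _
  let U' : Submodule ℝ E := U.comap (Φ : E →ₗ[ℝ] (Y → ℝ))
  have hMem : ∀ x : E, x ∈ U' ↔ Φ x ∈ U := fun x => Iff.rfl
  obtain ⟨y, hy, z, hz, hyz⟩ := U'.exists_add_mem_mem_orthogonal (Φ.symm F)
  refine ⟨Φ z, ?_, Φ y, (hMem y).1 hy, ?_⟩
  · intro G hG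
    have h1 : Φ.symm G ∈ U' := by rw [hMem]; simpa using hG
    have h2 := (Submodule.mem_orthogonal _ _).1 hz _ h1
    rw [hin] at h2
    rw [← h2]
    refine Finset.sum_congr rfl fun i _ => ?_
    rw [LinearEquiv.apply_symm_apply]
    exact mul_comm _ _
  · have h3 := congrArg Φ hyz
    rw [LinearEquiv.apply_symm_apply, map_add] at h3
    ext i
    rw [h3, Pi.add_apply, add_comm]

theorem ipr_orth {Y : Type*} [Fintype Y] {U : Submodule ℝ (Y → ℝ)} {a b : Y → ℝ}
    (ha : a ∈ orth U) (hb : b ∈ U) : ipr a b = 0 := by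
  unfold ipr av
  rw [ha b hb, zero_div]

theorem nsq_orth {Y : Type*} [Fintype Y] {U : Submodule ℝ (Y → ℝ)} {a b : Y → ℝ}
    (ha : a ∈ orth U) (hb : b ∈ U) : nsq (fun y => a y + b y) = nsq a + nsq b := by
  rw [nsq_add, ipr_orth ha hb]
  ring

section EK

variable {G K : Type*} [Group G] [Fintype G] [Group K] [Fintype K] (κ : K →* G)

theorem av_fib (f : G → ℝ) : av (fun σ => av fun k : K => f (σ * κ k)) = av f := av_EK κ f

theorem nsq_fib (f : G → ℝ) : av (fun σ => nsq fun k : K => f (σ * κ k)) = nsq f :=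
  av_EK κ (fun σ => f σ ^ 2)

variable {ι : Type*} [Fintype ι]

omit [Fintype G] in
/-- averages over letters of the subgroup fix the invariant functions -/
theorem Mav_EK [Nonempty ι] (a : ι → K) (F : G → ℝ) :
    Mav (fun j => κ (a j)) (EK κ F) = EK κ F := by
  ext σ
  unfold Mav
  have : ∀ j, EK κ F (σ * (κ (a j))⁻¹) = EK κ F σ := by
    intro j
    rw [← map_inv]
    exact EK_mul_right κ F σ _
  simp only [this]
  exact av_const _

omit [Fintype G] in
theorem EK_Mav [Nonempty ι] (a : ι → K) (F : G → ℝ) :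
    EK κ (Mav (fun j => κ (a j)) F) = EK κ F := by
  ext σ
  unfold EK Mav
  rw [av_comm]
  have : ∀ j, (av fun k : K => F (σ * κ k * (κ (a j))⁻¹)) = av fun k : K => F (σ * κ k) := by
    intro j
    rw [← av_mulRight (a j) (fun k : K => F (σ * κ k * (κ (a j))⁻¹))]
    refine congrArg av (funext fun k => ?_)
    rw [map_mul, mul_assoc, mul_inv_cancel_right]
  simp only [this]
  exact av_const _

/-- fibrewise contraction -/
theorem nsq_Mav_fib (a : ι → K) (c : ℝ)
    (hA : ∀ ψ : K → ℝ, av ψ = 0 → nsq (Mav a ψ) ≤ c * nsq ψ)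
    (H : G → ℝ) (hH : ∀ σ, EK κ H σ = 0) :
    nsq (Mav (fun j => κ (a j)) H) ≤ c * nsq H := by
  rw [← nsq_fib κ (Mav (fun j => κ (a j)) H), ← nsq_fib κ H, ← av_mul_left]
  refine av_le_av fun σ => ?_
  have h1 := hA (fun k => H (σ * κ k)) (hH σ)
  have h2 : (fun k : K => Mav (fun j => κ (a j)) H (σ * κ k)) =
      Mav a (fun k => H (σ * κ k)) := by
    ext k
    unfold Mav
    refine congrArg av (funext fun j => ?_)
    change H (σ * κ k * (κ (a j))⁻¹) = H (σ * κ (k * (a j)⁻¹))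
    rw [map_mul, map_inv, mul_assoc]
  rw [h2]
  exact h1

theorem nsq_Mav_EK [Nonempty ι] (a : ι → K) (c : ℝ)
    (hA : ∀ ψ : K → ℝ, av ψ = 0 → nsq (Mav a ψ) ≤ c * nsq ψ) (F : G → ℝ) :
    nsq (Mav (fun j => κ (a j)) F) ≤ nsq (EK κ F) + c * nsq (fun σ => F σ - EK κ F σ) := by
  have h0 : ∀ σ, EK κ (fun σ => F σ - EK κ F σ) σ = 0 := by
    intro σ
    rw [EK_sub, EK_idem]
    exact sub_self _
  rw [nsq_EK κ (Mav (fun j => κ (a j)) F), EK_Mav]
  have h1 := nsq_Mav_fib κ a c hA (fun σ => F σ - EK κ F σ) h0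
  rw [Mav_sub, Mav_EK] at h1
  linarith

end EK

theorem Mav_mem {G : Type*} [Group G] {ι : Type*} [Fintype ι] {U : Submodule ℝ (G → ℝ)}
    (hU : ∀ g F, F ∈ U → R g F ∈ U) (s : ι → G) {F : G → ℝ} (hF : F ∈ U) : Mav s F ∈ U :=
  T7.av_mem (fun i => R (s i) F) fun _ => hU _ _ hF

end T8

open T8 in
theorem MS {τ β' : Type} [Fintype τ] [DecidableEq τ] [Fintype β'] [DecidableEq β']
    (w : ℕ) (hw : 1 ≤ w) (a : Fin w → Perm τ) (B : Fin w → Perm (τ ⊕ β')) (J ℓ : ℕ)
    (ν νA κT : ℝ) (hν : 0 ≤ ν) (hνA : 0 ≤ νA) (hκT : 0 ≤ κT)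
    (hA : ∀ ψ : Perm τ → ℝ, av ψ = 0 → nsq (Mav a ψ) ≤ νA * nsq ψ)
    (hB : ∀ φ : (Fin J ↪ τ ⊕ β') → ℝ, av φ = 0 →
      nsq (fun x : Fin J ↪ τ ⊕ β' => av fun k => φ (x.trans (B k).toEmbedding)) ≤ ν * nsq φ)
    (hT : ∀ F ∈ HighS (τ ⊕ β') J,
      av (fun v : Fin ℓ → Fin w => nsq (EK (inlP τ β') (R (wd B v) F))) ≤ κT * nsq F) :
    MSc (fun j => inlP τ β' (a j)) B ℓ (ν + νA + κT) := by
  intro F hF0
  have : Nonempty (Fin w) := ⟨⟨0, hw⟩⟩
  obtain ⟨FL, hL, FU, hU, hF⟩ := exists_decomp (HighS (τ ⊕ β') J) F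
  have hFsum : av F = av FL + av FU := by rw [hF]; exact av_add _ _
  -- both parts have average zero
  have hU0 : av FU = 0 := by
    rcases isEmpty_or_nonempty (Fin J ↪ τ ⊕ β') with hE | ⟨⟨z⟩⟩
    · have hL0 : FL = 0 := by
        by_contra hne
        obtain ⟨x, _⟩ := T7.low_marg (J := J) hL hne
        exact hE.elim x
      rw [hF0, hL0] at hFsum
      have : av (0 : Perm (τ ⊕ β') → ℝ) = 0 := av_zero
      rw [this, zero_add] at hFsum
      exact hFsum.symm
    · have h1 := T7.sum_mg FU z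
      have h2 : ∑ x : Fin J ↪ τ ⊕ β', mg FU x z = 0 :=
        Finset.sum_eq_zero fun x _ => hU x z
      unfold av
      rw [← h1, h2, zero_div]
  have hL0 : av FL = 0 := by
    rw [hF0, hU0, add_zero] at hFsum
    exact hFsum.symm
  have hnF : nsq F = nsq FL + nsq FU := by rw [hF]; exact nsq_orth hL hU
  have hRlow : ∀ (g : Perm (τ ⊕ β')) F, F ∈ orth (HighS (τ ⊕ β') J) →
      R g F ∈ orth (HighS (τ ⊕ β') J) := fun g F h => T7.low_R g h
  have hRhigh : ∀ (g : Perm (τ ⊕ β')) F, F ∈ HighS (τ ⊕ β') J →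
      R g F ∈ HighS (τ ⊕ β') J := fun g F h => T7.high_R g h
  -- each word
  have hv : ∀ g : Perm (τ ⊕ β'),
      nsq (Mav B (Mav (fun j => inlP τ β' (a j)) (R g F))) ≤
        ν * nsq FL + (nsq (EK (inlP τ β') (R g FU)) + νA * nsq FU) := by
    intro g
    have e0 : R g F = fun σ => R g FL σ + R g FU σ := by
      ext σ
      simp only [R]
      rw [hF]
    have e1 : Mav B (Mav (fun j => inlP τ β' (a j)) (R g F)) =
        fun σ => Mav B (Mav (fun j => inlP τ β' (a j)) (R g FL)) σ +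
          Mav B (Mav (fun j => inlP τ β' (a j)) (R g FU)) σ := by
      rw [e0, Mav_add, Mav_add]
    rw [e1, nsq_orth (Mav_mem hRlow B (Mav_mem hRlow _ (hRlow g FL hL)))
      (Mav_mem hRhigh B (Mav_mem hRhigh _ (hRhigh g FU hU)))]
    have h1 : nsq (Mav B (Mav (fun j => inlP τ β' (a j)) (R g FL))) ≤ ν * nsq FL := by
      have h2 := low_contr B J ν hB (Mav (fun j => inlP τ β' (a j)) (R g FL))
        (Mav_mem hRlow _ (hRlow g FL hL)) (by rw [av_Mav, av_R, hL0])
      refine h2.trans (mul_le_mul_of_nonneg_left ?_ hν)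
      refine (nsq_Mav_le _ _).trans (le_of_eq (nsq_R _ _))
    have h3 : nsq (Mav B (Mav (fun j => inlP τ β' (a j)) (R g FU))) ≤
        nsq (EK (inlP τ β') (R g FU)) + νA * nsq FU := by
      refine (nsq_Mav_le _ _).trans ?_
      refine (nsq_Mav_EK (inlP τ β') a νA hA (R g FU)).trans ?_
      have h4 := nsq_sub_EK_le (inlP τ β') (R g FU)
      rw [nsq_R] at h4
      have h5 := mul_le_mul_of_nonneg_left h4 hνA
      linarith
    linarith
  have h6 : av (fun v : Fin ℓ → Fin w =>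
      nsq (Mav B (Mav (fun j => inlP τ β' (a j)) (R (wd B v) F)))) ≤
      ν * nsq FL + (κT * nsq FU + νA * nsq FU) := by
    refine (av_le_av fun v => hv (wd B v)).trans ?_
    rw [av_add, av_add, av_const, av_const]
    have := hT FU hU
    linarith
  refine h6.trans ?_
  rw [hnF]
  have n1 := nsq_nonneg FL
  have n2 := nsq_nonneg FU
  have m1 := mul_nonneg hνA n1
  have m2 := mul_nonneg hκT n1
  have m3 := mul_nonneg hν n2
  linarith

end Pool.Agent.H9.Low
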