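import Pool.Agent.H9.Low.T24
import Pool.Agent.H9.Low.T8
import Pool.Agent.H9.Low.T6
import Pool.Agent.H9.Low.T26a
import Pool.Agent.H9.Low.T26c
import Pool.Agent.H9.Low.Defs2

/-!
# The letters, together
-/

namespace Pool.Agent.H9.Low

open Equiv Finset

theorem ex_sys (s b w w2 d J J0 j1 j2 j3 ℓ q : ℕ) (hw : 1 ≤ w)
    (h1 : 2 ^ j1 ≤ w) (h1' : 4 * (s.factorial : ℝ) ≤ Real.exp (2 ^ j1))
    (h2 : 2 ^ j2 ≤ w)
    (h2' : 4 * (Fintype.card (Fin J ↪ Fin s ⊕ Fin b) : ℝ) ≤ Real.exp (2 ^ j2))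
    (h3 : 2 ^ j3 ≤ w2)
    (h3' : 4 * (Fintype.card (Fin J0 ↪ Pos (Fin s ⊕ Fin b) (II w w2) d) : ℝ)
      ≤ Real.exp (2 ^ j3))
    (h3'' : 4 * Real.exp 1 * 2 ^ j3 / w2 ≤ 1 / 16)
    (hq : 1 ≤ q) (hqs : 2 * q ≤ s) (hJ4 : 4 ≤ J) (hJ2 : J ^ 2 + 1 ≤ s + b) (hN20 : 20 ≤ s + b)
    (hJ0 : J0 + 2 ≤ s + b) (hc : w + (w + w2) + 1 ≤ s + b) (N κ ν νA : ℝ) (hN : N = s + b)
    (hν : ν = 4 * Real.exp 1 * 2 ^ j2 / w) (hνA : νA = 4 * Real.exp 1 * 2 ^ j1 / w)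
    (hκ : ν + νA + (6 / N + (2 * N / J) * (1 / q + 4 / N ^ 2)
        + 4 * N ^ 4 * (√ν) ^ ℓ * (2 * N / J) ^ 2) ≤ κ) :
    ∃ S : HSys (Fin s ⊕ Fin b) (II w w2) w w2 d,
      MSc (fun j => S.θ (S.e (Sum.inl j))) (fun j => S.θ (S.e (Sum.inr (Sum.inl j)))) ℓ κ ∧
      N3 S J0 := by
  obtain ⟨a, ha⟩ := ex_A s w j1 h1 h1'
  obtain ⟨B, hB⟩ := ex_B (X := Fin s ⊕ Fin b) J w j2 h2 h2'
  obtain ⟨θ2, hθ2⟩ := ex_B2 (β := Fin s ⊕ Fin b) w w2 d J0 j3 h3 h3' h3''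
    (by rw [Fintype.card_sum, Fintype.card_fin, Fintype.card_fin]; exact hJ0)
  obtain ⟨S0, hS0⟩ := exists_sys (β := Fin s ⊕ Fin b) (I := II w w2) d
    (Sum.elim (fun j => inlP (Fin s) (Fin b) (a j)) (Sum.elim B θ2))
    (by simp only [Fintype.card_sum, Fintype.card_fin]; exact hc)
  have hwpos : Nonempty (Fin w) := ⟨⟨0, hw⟩⟩
  have hν0 : 0 ≤ ν := by rw [hν]; positivity
  have hνA0 : 0 ≤ νA := by rw [hνA]; positivity
  have hN0 : 0 ≤ N := by rw [hN]; positivity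
  have hcard : Fintype.card (Fin s ⊕ Fin b) = s + b := by
    rw [Fintype.card_sum, Fintype.card_fin, Fintype.card_fin]
  have hNc : ((s + b : ℕ) : ℝ) = N := by rw [hN]; push_cast; rfl
  have hJX : J ≤ Fintype.card (Fin s ⊕ Fin b) := by
    rw [hcard]; nlinarith
  obtain ⟨xy⟩ : Nonempty (Fin q × Bool ↪ Fin s) := by
    refine Function.Embedding.nonempty_of_card_le ?_
    rw [Fintype.card_prod, Fintype.card_fin, Fintype.card_fin, Fintype.card_bool]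
    omega
  have hT : ∀ F ∈ HighS (Fin s ⊕ Fin b) J,
      av (fun v : Fin ℓ → Fin w => nsq (EK (inlP (Fin s) (Fin b)) (R (wd B v) F)))
        ≤ (6 / N + (2 * N / J) * (1 / q + 4 / N ^ 2)
          + 4 * N ^ 4 * (√ν) ^ ℓ * (2 * N / J) ^ 2) * nsq F := by
    intro F hF
    have h := tens (τ := Fin s) (β' := Fin b) (ι := Fin ℓ → Fin w) q hq xy
      (fun v => wd B v) ((√ν) ^ ℓ) (fun x z => env B J hJ4 hJX (√ν) (Real.sqrt_nonneg _)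
        (fun φ hφ => by rw [Real.sq_sqrt hν0, hν]; exact hB φ hφ) ℓ x z) J (by omega) (s + b)
      hcard.symm hJ2 hN20 F hF
    rw [hNc] at h
    exact h
  have hMS := MS (τ := Fin s) (β' := Fin b) w hw a B J ℓ ν νA _ hν0 hνA0 (by positivity)
    (fun ψ hψ => by rw [hνA]; exact ha ψ hψ) (fun φ hφ => by rw [hν]; exact hB φ hφ) hT
  refine ⟨⟨S0, Equiv.refl _⟩, ?_, ?_⟩
  · intro F hF
    have h := hMS F hF
    have e1 : (fun j => S0.θ ((Equiv.refl (II w w2)) (Sum.inl j)))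
        = fun j => inlP (Fin s) (Fin b) (a j) := by
      funext j; rw [hS0]; rfl
    have e2 : (fun j => S0.θ ((Equiv.refl (II w w2)) (Sum.inr (Sum.inl j)))) = B := by
      funext j; rw [hS0]; rfl
    rw [e1, e2]
    exact h.trans (mul_le_mul_of_nonneg_right hκ (nsq_nonneg _))
  · refine hθ2 _ rfl fun k => ?_
    change S0.θ (Sum.inr (Sum.inr k)) = θ2 k
    rw [hS0]; rfl

end Pool.Agent.H9.Low
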