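import Pool.Agent.H9.Low.Defs2
import Pool.Agent.H9.Low.T26d

/-!
# The parameters of the letters
-/

namespace Pool.Agent.H9.Low

open Equiv Finset Filter Topology

namespace T27a

lemma thr : ∃ r0 : ℕ, ∀ r : ℕ, r0 ≤ r → 10 ^ 6 ≤ r ∧ 2400 * Real.log r ≤ r := by
  have h1 : Tendsto (fun x : ℝ => Real.log x / x) atTop (𝓝 0) := by
    have := Real.tendsto_pow_log_div_mul_add_atTop 1 0 1 one_ne_zero
    simpa using this
  have h2 := h1.comp (tendsto_natCast_atTop_atTop (R := ℝ))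
  have h3 : ∀ᶠ r : ℕ in atTop, Real.log r / r < 1 / 2400 :=
    h2.eventually_lt_const (by norm_num)
  obtain ⟨r0, hr0⟩ := eventually_atTop.1 (h3.and (eventually_ge_atTop (10 ^ 6)))
  refine ⟨r0, fun r hr => ?_⟩
  obtain ⟨a1, a2⟩ := hr0 r hr
  refine ⟨a2, ?_⟩
  have hr1 : (0 : ℝ) < r := by
    have : 0 < r := by omega
    exact_mod_cast this
  rw [div_lt_div_iff₀ hr1 (by norm_num)] at a1
  linarith

lemma two_pow {X : ℝ} (hX : 1 ≤ X) : ∃ j : ℕ, X ≤ 2 ^ j ∧ (2 : ℝ) ^ j ≤ 2 * X := by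
  obtain ⟨n, h1, h2⟩ := exists_nat_pow_near hX one_lt_two
  refine ⟨n + 1, h2.le, ?_⟩
  rw [pow_succ]; linarith

lemma log6 {x : ℝ} (hx : 10 ^ 6 ≤ x) : 10 ≤ Real.log x := by
  rw [Real.le_log_iff_exp_le (by linarith)]
  have h1 : Real.exp 10 = Real.exp 1 ^ 10 := by rw [← Real.exp_nat_mul]; norm_num
  rw [h1]
  have h2 := Real.exp_one_lt_d9
  calc Real.exp 1 ^ 10 ≤ (2.7182818286 : ℝ) ^ 10 :=
        pow_le_pow_left₀ (Real.exp_pos 1).le h2.le 10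
    _ ≤ 10 ^ 6 := by norm_num
    _ ≤ x := hx

lemma two_pow20 {x : ℝ} (hx : 10 ^ 6 ≤ x) : (x + 1) ^ 20 ≤ 2 * x ^ 20 := by
  have hx0 : 0 < x := by linarith
  have h1 : (x + 1) ≤ x * (1 + 1 / 1000) := by nlinarith
  calc (x + 1) ^ 20 ≤ (x * (1 + 1 / 1000)) ^ 20 := pow_le_pow_left₀ (by linarith) h1 20
    _ = x ^ 20 * (1 + 1 / 1000) ^ 20 := by rw [mul_pow]
    _ ≤ x ^ 20 * 2 := mul_le_mul_of_nonneg_left (by norm_num) (by positivity)
    _ = 2 * x ^ 20 := by ring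

lemma log4 : Real.log 4 ≤ 2 := by
  rw [Real.log_le_iff_le_exp (by norm_num)]
  have h1 : Real.exp 2 = Real.exp 1 ^ 2 := by rw [← Real.exp_nat_mul]; norm_num
  rw [h1]
  have h2 := Real.exp_one_gt_d9
  nlinarith

lemma e_lt : 4 * Real.exp 1 ≤ 10.9 := by
  have := Real.exp_one_lt_d9
  linarith

/-- `4 M^k ≤ exp X` -/
lemma four_pow {M X l : ℝ} {k : ℕ} (hM : 0 < M) (hl : Real.log M ≤ l) (h : k * l + 2 ≤ X) :
    4 * M ^ k ≤ Real.exp X := by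
  rw [← Real.log_le_iff_le_exp (by positivity), Real.log_mul (by norm_num) (by positivity),
    Real.log_pow]
  have h1 : (k : ℝ) * Real.log M ≤ k * l := mul_le_mul_of_nonneg_left hl (Nat.cast_nonneg k)
  linarith [log4]

lemma emb_le (k : ℕ) (Y : Type) [Fintype Y] [DecidableEq Y] :
    (Fintype.card (Fin k ↪ Y) : ℝ) ≤ (Fintype.card Y : ℝ) ^ k := by
  rw [Fintype.card_embedding_eq, Fintype.card_fin]
  exact_mod_cast Nat.descFactorial_le_pow _ _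

lemma nat_big {r d : ℕ} (hr6 : 10 ^ 6 ≤ r) (hd : d + 1 ≤ r ^ 7) :
    131076 * r ^ 14 + (d + 1) + r ^ 19 ≤ r ^ 20 := by
  have e1 : r ^ 7 ≤ r ^ 14 := Nat.pow_le_pow_right (by omega) (by norm_num)
  have e0 : r ≤ r ^ 5 := Nat.le_self_pow (by norm_num) r
  have e2 : 131077 * r ^ 14 ≤ r ^ 19 := by
    calc 131077 * r ^ 14 ≤ (r ^ 5) * r ^ 14 := Nat.mul_le_mul_right _ (by omega)
      _ = r ^ 19 := by ring
  have e3 : 2 * r ^ 19 ≤ r ^ 20 := by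
    calc 2 * r ^ 19 ≤ r * r ^ 19 := Nat.mul_le_mul_right _ (by omega)
      _ = r ^ 20 := by ring
  omega

lemma nat_s {r : ℕ} (hr6 : 10 ^ 6 ≤ r) : 2 * r ^ 12 ≤ r ^ 19 := by
  have e0 : r ≤ r ^ 7 := Nat.le_self_pow (by norm_num) r
  calc 2 * r ^ 12 ≤ r ^ 7 * r ^ 12 := Nat.mul_le_mul_right _ (by omega)
    _ = r ^ 19 := by ring

lemma x1420 {x : ℝ} (hx : 10 ^ 6 ≤ x) : x ^ 14 * 10 ^ 6 ≤ x ^ 20 := by
  have hx1 : 1 ≤ x := by linarith
  calc x ^ 14 * 10 ^ 6 ≤ x ^ 14 * x ^ 6 :=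
        mul_le_mul_of_nonneg_left (hx.trans (le_self_pow₀ hx1 (by norm_num))) (by positivity)
    _ = x ^ 20 := by ring

lemma lo {x N n d : ℝ} (hx : 10 ^ 6 ≤ x) (h : N + 131076 * x ^ 14 + (d + 1) = n)
    (hn : x ^ 20 ≤ n) (hd : d + 1 ≤ x ^ 7) : x ^ 20 / 2 ≤ N := by
  have hx1 : 1 ≤ x := by linarith
  have e5 : x ^ 7 ≤ x ^ 14 := pow_le_pow_right₀ hx1 (by norm_num)
  have e6 := x1420 hx
  have e7 : 0 ≤ x ^ 14 := by positivity
  linarith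

lemma logn {x n L : ℝ} (hx : 10 ^ 6 ≤ x) (hL : L = Real.log x) (hn0 : 0 < n)
    (hnx : n ≤ 2 * x ^ 20) : Real.log n ≤ 21 * L := by
  have hx0 : 0 < x := by linarith
  have e1 : Real.log n ≤ Real.log (2 * x ^ 20) := Real.log_le_log hn0 hnx
  rw [Real.log_mul (by norm_num) (by positivity), Real.log_pow, ← hL] at e1
  have e2 := Real.log_two_lt_d9
  have e3 := log6 hx
  rw [← hL] at e3
  push_cast at e1
  linarith

lemma j0a {x L J : ℝ} (hx : 10 ^ 6 ≤ x) (hL : 10 ≤ L)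
    (hJ : J ≤ 65536 * x ^ 14 / (14700 * L)) :
    J * (21 * L) ≤ 65536 * x ^ 14 / 700 ∧ J ≤ x ^ 14 := by
  have hL0 : 0 < L := by linarith
  have hx14 : 0 < x ^ 14 := by
    have : 0 < x := by linarith
    positivity
  constructor
  · calc J * (21 * L) ≤ 65536 * x ^ 14 / (14700 * L) * (21 * L) :=
          mul_le_mul_of_nonneg_right hJ (by positivity)
      _ = 65536 * x ^ 14 / 700 := by field_simp; ring
  · refine hJ.trans ?_
    rw [div_le_iff₀ (by positivity)]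
    have h1 : x ^ 14 * 10 ≤ x ^ 14 * L := mul_le_mul_of_nonneg_left hL hx14.le
    have h2 : x ^ 14 * (14700 * L) = 14700 * (x ^ 14 * L) := by ring
    rw [h2]
    linarith

lemma w1 {x L : ℝ} (hx : 10 ^ 6 ≤ x) (hL0 : 0 < L) (hL : 2400 * L ≤ x) :
    54 * x ^ 12 * L ≤ x ^ 14 ∧ 22 * x ^ 10 * L ≤ x ^ 14 := by
  have hx1 : 1 ≤ x := by linarith
  have hx0 : 0 < x := by linarith
  constructor
  · have e1 : 54 * L ≤ x ^ 2 := by
      have : x ≤ x ^ 2 := le_self_pow₀ hx1 (by norm_num)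
      linarith
    calc 54 * x ^ 12 * L = x ^ 12 * (54 * L) := by ring
      _ ≤ x ^ 12 * x ^ 2 := mul_le_mul_of_nonneg_left e1 (by positivity)
      _ = x ^ 14 := by ring
  · have e1 : 22 * L ≤ x ^ 4 := by
      have : x ≤ x ^ 4 := le_self_pow₀ hx1 (by norm_num)
      linarith
    calc 22 * x ^ 10 * L = x ^ 10 * (22 * L) := by ring
      _ ≤ x ^ 10 * x ^ 4 := mul_le_mul_of_nonneg_left e1 (by positivity)
      _ = x ^ 14 := by ring

lemma fac {x L P : ℝ} (hx : 10 ^ 6 ≤ x) (hL10 : 10 ≤ L) (hP : 27 * x ^ 12 * L ≤ P) :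
    (2 * x ^ 12) * (1 + 12 * L) + 2 ≤ P := by
  have hx1 : 1 ≤ x := by linarith
  refine le_trans ?_ hP
  have e2 : 1 ≤ x ^ 12 := one_le_pow₀ hx1
  have e3 : x ^ 12 * 10 ≤ x ^ 12 * L := mul_le_mul_of_nonneg_left hL10 (by positivity)
  have e4 : (2 * x ^ 12) * (1 + 12 * L) + 2 = 2 * x ^ 12 + 24 * (x ^ 12 * L) + 2 := by ring
  have e5 : 27 * x ^ 12 * L = 27 * (x ^ 12 * L) := by ring
  rw [e4, e5]
  linarith

lemma tup {x L P J : ℝ} (hx : 10 ^ 6 ≤ x) (hL10 : 10 ≤ L) (hP : 11 * x ^ 10 * L ≤ P)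
    (hJ : J ≤ x ^ 10 / 2) : J * (21 * L) + 2 ≤ P := by
  have hx1 : 1 ≤ x := by linarith
  refine le_trans ?_ hP
  have e2 : 1 ≤ x ^ 10 := one_le_pow₀ hx1
  have e3 : x ^ 10 * 10 ≤ x ^ 10 * L := mul_le_mul_of_nonneg_left hL10 (by positivity)
  have e4 : J * (21 * L) ≤ (x ^ 10 / 2) * (21 * L) :=
    mul_le_mul_of_nonneg_right hJ (by positivity)
  have e5 : (x ^ 10 / 2) * (21 * L) = 21 / 2 * (x ^ 10 * L) := by ring
  have e6 : 11 * x ^ 10 * L = 11 * (x ^ 10 * L) := by ring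
  rw [e6]
  rw [e5] at e4
  linarith

lemma nu {x L P : ℝ} (hx : 10 ^ 6 ≤ x) (hL0 : 0 < L) (hL : 2400 * L ≤ x) (hP0 : 0 ≤ P)
    (hP : P ≤ 2 * (11 * x ^ 10 * L)) : 4 * Real.exp 1 * P / x ^ 14 ≤ 1 / x ^ 3 := by
  have hx0 : 0 < x := by linarith
  rw [div_le_div_iff₀ (by positivity) (by positivity), one_mul]
  calc 4 * Real.exp 1 * P * x ^ 3 ≤ 10.9 * (2 * (11 * x ^ 10 * L)) * x ^ 3 := by
        refine mul_le_mul_of_nonneg_right ?_ (by positivity)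
        exact mul_le_mul e_lt hP hP0 (by norm_num)
    _ = 239.8 * (x ^ 13 * L) := by ring
    _ ≤ 2400 * (x ^ 13 * L) := mul_le_mul_of_nonneg_right (by norm_num) (by positivity)
    _ = x ^ 13 * (2400 * L) := by ring
    _ ≤ x ^ 13 * x := mul_le_mul_of_nonneg_left hL (by positivity)
    _ = x ^ 14 := by ring

lemma nuA {x L P : ℝ} (hx : 10 ^ 6 ≤ x) (hL0 : 0 < L) (hP0 : 0 ≤ P)
    (hP : P ≤ 2 * (27 * x ^ 12 * L)) : 4 * Real.exp 1 * P / x ^ 14 ≤ 600 * L / x ^ 2 := by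
  have hx0 : 0 < x := by linarith
  rw [div_le_div_iff₀ (by positivity) (by positivity)]
  calc 4 * Real.exp 1 * P * x ^ 2 ≤ 10.9 * (2 * (27 * x ^ 12 * L)) * x ^ 2 := by
        refine mul_le_mul_of_nonneg_right ?_ (by positivity)
        exact mul_le_mul e_lt hP hP0 (by norm_num)
    _ = 588.6 * (x ^ 14 * L) := by ring
    _ ≤ 600 * (x ^ 14 * L) := mul_le_mul_of_nonneg_right (by norm_num) (by positivity)
    _ = 600 * L * x ^ 14 := by ring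

lemma nu3 {x P : ℝ} (hx : 10 ^ 6 ≤ x) (hP0 : 0 ≤ P) (hP : P ≤ 2 * (65536 * x ^ 14 / 350)) :
    4 * Real.exp 1 * P / (65536 * x ^ 14) ≤ 1 / 16 := by
  have hx0 : 0 < x := by linarith
  have hx14 : 0 < x ^ 14 := by positivity
  rw [div_le_iff₀ (by positivity)]
  calc 4 * Real.exp 1 * P ≤ 10.9 * (2 * (65536 * x ^ 14 / 350)) :=
        mul_le_mul e_lt hP hP0 (by norm_num)
    _ ≤ 1 / 16 * (65536 * x ^ 14) := by linarith

/-- the sum of the contraction terms -/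
lemma kappa {x L N J ν νA q : ℝ} (hx : 10 ^ 6 ≤ x) (hL0 : 0 < L) (hL : 2400 * L ≤ x)
    (hN1 : x ^ 20 / 2 ≤ N) (hN2 : N ≤ 2 * x ^ 20) (hJ : x ^ 10 / 4 ≤ J) (hq : q = x ^ 12)
    (hν0 : 0 ≤ ν) (hν : ν ≤ 1 / x ^ 3) (hνA : νA ≤ 600 * L / x ^ 2) :
    ν + νA + (6 / N + (2 * N / J) * (1 / q + 4 / N ^ 2)
        + 4 * N ^ 4 * (√ν) ^ 100 * (2 * N / J) ^ 2) ≤ 1 / x := by
  have hx0 : 0 < x := by linarith
  have hx1 : 1 ≤ x := by linarith
  have hN0 : 0 < N := lt_of_lt_of_le (by positivity) hN1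
  have hJ0 : 0 < J := lt_of_lt_of_le (by positivity) hJ
  have hu : (1 : ℝ) / x ≤ 1 / 10 ^ 6 := one_div_le_one_div_of_le (by norm_num) hx
  set u : ℝ := 1 / x with hu'
  have hu0 : 0 < u := by positivity
  have hxu : x * u = 1 := by rw [hu']; field_simp
  have hpow : ∀ k : ℕ, 1 / x ^ k = u ^ k := fun k => by rw [hu', div_pow, one_pow]
  -- the terms
  have t1 : ν ≤ u ^ 3 := by rw [← hpow]; exact hν
  have t2 : νA ≤ u / 4 := by
    refine hνA.trans ?_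
    have : 600 * L / x ^ 2 ≤ (x / 4) / x ^ 2 := by
      refine div_le_div_of_nonneg_right ?_ (by positivity)
      linarith
    refine this.trans (le_of_eq ?_)
    rw [hu']; field_simp
  have t3 : 6 / N ≤ 12 * u ^ 20 := by
    rw [← hpow, div_le_iff₀ hN0]
    calc (6 : ℝ) = 12 * (1 / x ^ 20) * (x ^ 20 / 2) := by field_simp; norm_num
      _ ≤ 12 * (1 / x ^ 20) * N := mul_le_mul_of_nonneg_left hN1 (by positivity)
  have t4 : 2 * N / J ≤ 16 * x ^ 10 := by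
    rw [div_le_iff₀ hJ0]
    calc 2 * N ≤ 16 * x ^ 10 * (x ^ 10 / 4) := by linarith [hN2]
      _ ≤ 16 * x ^ 10 * J := mul_le_mul_of_nonneg_left hJ (by positivity)
  have t40 : 0 ≤ 2 * N / J := by positivity
  have t5 : 4 / N ^ 2 ≤ 16 * u ^ 40 := by
    rw [← hpow, div_le_iff₀ (by positivity)]
    calc (4 : ℝ) = 16 * (1 / x ^ 40) * (x ^ 20 / 2) ^ 2 := by field_simp; norm_num
      _ ≤ 16 * (1 / x ^ 40) * N ^ 2 := by gcongr
  have t6 : 1 / q = u ^ 12 := by rw [hq, hpow]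
  have t7 : (√ν) ^ 100 = ν ^ 50 := by
    calc (√ν) ^ 100 = ((√ν) ^ 2) ^ 50 := by ring
      _ = ν ^ 50 := by rw [Real.sq_sqrt hν0]
  have t8 : ν ^ 50 ≤ u ^ 150 := by
    calc ν ^ 50 ≤ (u ^ 3) ^ 50 := pow_le_pow_left₀ hν0 t1 50
      _ = u ^ 150 := by ring
  have s1 : (2 * N / J) * (1 / q + 4 / N ^ 2) ≤ 16 * u ^ 2 + 256 * u ^ 30 := by
    rw [t6]
    calc (2 * N / J) * (u ^ 12 + 4 / N ^ 2) ≤ (16 * x ^ 10) * (u ^ 12 + 16 * u ^ 40) := by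
          gcongr
      _ = 16 * ((x * u) ^ 10 * u ^ 2) + 256 * ((x * u) ^ 10 * u ^ 30) := by ring
      _ = _ := by rw [hxu]; ring
  have s2 : 4 * N ^ 4 * (√ν) ^ 100 * (2 * N / J) ^ 2 ≤ 16384 * u ^ 50 := by
    rw [t7]
    have c1 : N ^ 4 ≤ 16 * x ^ 80 := by
      calc N ^ 4 ≤ (2 * x ^ 20) ^ 4 := pow_le_pow_left₀ hN0.le hN2 4
        _ = 16 * x ^ 80 := by ring
    have c2 : (2 * N / J) ^ 2 ≤ 256 * x ^ 20 := by
      calc (2 * N / J) ^ 2 ≤ (16 * x ^ 10) ^ 2 := pow_le_pow_left₀ t40 t4 2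
        _ = 256 * x ^ 20 := by ring
    have c3 : x ^ 100 * u ^ 150 = u ^ 50 := by
      have : u ^ 150 = u ^ 100 * u ^ 50 := by rw [← pow_add]
      rw [this, ← mul_assoc, ← mul_pow, hxu, one_pow, one_mul]
    calc 4 * N ^ 4 * ν ^ 50 * (2 * N / J) ^ 2
        ≤ 4 * (16 * x ^ 80) * u ^ 150 * (256 * x ^ 20) := by
          have c4 : 0 ≤ ν ^ 50 := pow_nonneg hν0 _
          have c5 : 0 ≤ N ^ 4 := by positivity
          have c6 : 0 ≤ (2 * N / J) ^ 2 := by positivity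
          have c7 : 0 ≤ u ^ 150 := pow_nonneg hu0.le _
          generalize u ^ 150 = v at *
          generalize ν ^ 50 = v' at *
          have c8 : 4 * N ^ 4 ≤ 4 * (16 * x ^ 80) := by linarith
          exact mul_le_mul (mul_le_mul c8 t8 c4 (by linarith)) c2 c6
            (mul_nonneg (by linarith) c7)
      _ = 16384 * (x ^ 80 * x ^ 20 * u ^ 150) := by
          generalize u ^ 150 = v
          generalize x ^ 80 = a
          generalize x ^ 20 = b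
          ring
      _ = 16384 * (x ^ 100 * u ^ 150) := by rw [← pow_add]
      _ = _ := by rw [c3]
  -- powers of u against u
  have hk : ∀ k : ℕ, u ^ (k + 2) ≤ u / 10 ^ 6 := by
    intro k
    calc u ^ (k + 2) = u ^ k * (u * u) := by ring
      _ ≤ 1 * (u * (1 / 10 ^ 6)) := by
          refine mul_le_mul (pow_le_one₀ hu0.le (by linarith)) ?_ (by positivity) zero_le_one
          exact mul_le_mul_of_nonneg_left hu hu0.le
      _ = u / 10 ^ 6 := by ring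
  have k3 := hk 1
  have k2 := hk 0
  have k20 := hk 18
  have k30 := hk 28
  have k50 := hk 48
  norm_num at k3 k2 k20 k30 k50
  linarith

end T27a

open T27a in
theorem ex_par : ∃ r0 : ℕ, ∀ r ≥ r0, ∀ n d : ℕ, r ^ 20 ≤ n → n < (r + 1) ^ 20 →
    d + 1 ≤ r ^ 7 →
    ∃ (β I : Type) (_ : Fintype β) (_ : DecidableEq β) (_ : Fintype I) (_ : DecidableEq I)
      (S : HSys β I (r ^ 14) (65536 * r ^ 14) d),
      Fintype.card β + 131076 * r ^ 14 + (d + 1) = n ∧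
      MSc (fun j => S.θ (S.e (Sum.inl j))) (fun j => S.θ (S.e (Sum.inr (Sum.inl j)))) 100
        (1 / r) ∧ N3 S (J0r r) := by
  obtain ⟨r0, hr0⟩ := thr
  refine ⟨r0, fun r hr n d hn1 hn2 hd => ?_⟩
  obtain ⟨hr6, hrL⟩ := hr0 r hr
  have hx : (10 : ℝ) ^ 6 ≤ r := by exact_mod_cast hr6
  have hnx : (n : ℝ) ≤ 2 * (r : ℝ) ^ 20 := by
    have e1 : (n : ℝ) ≤ ((r : ℝ) + 1) ^ 20 := by exact_mod_cast hn2.le
    exact e1.trans (two_pow20 hx)
  clear hn2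
  have hL10 := log6 hx
  have hbig := nat_big hr6 hd
  have hs19 := nat_s hr6
  obtain ⟨Nn, hNn1⟩ : ∃ Nn : ℕ, Nn + 131076 * r ^ 14 + (d + 1) = n :=
    ⟨n - 131076 * r ^ 14 - (d + 1), by omega⟩
  have hNn2 : Nn ≤ n := by omega
  obtain ⟨b, hsb⟩ : ∃ b : ℕ, 2 * r ^ 12 + b = Nn := ⟨Nn - 2 * r ^ 12, by omega⟩
  clear hbig hs19
  have hr1 : 1 ≤ r := by omega
  -- real versions
  have hxs1 : (r : ℝ) ^ 20 / 2 ≤ (Nn : ℝ) :=
    lo (d := (d : ℝ)) (n := (n : ℝ)) hx (by exact_mod_cast hNn1) (by exact_mod_cast hn1)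
      (by exact_mod_cast hd)
  have hxs2 : (Nn : ℝ) ≤ 2 * (r : ℝ) ^ 20 := le_trans (by exact_mod_cast hNn2) hnx
  have hn0 : (0 : ℝ) < n := by
    have h1 : (r : ℝ) ^ 20 ≤ n := by exact_mod_cast hn1
    have h2 : (0 : ℝ) < r := by linarith
    exact lt_of_lt_of_le (by positivity) h1
  have hNn2r : (Nn : ℝ) ≤ n := by exact_mod_cast hNn2
  have hcardn : Fintype.card (Pos (Fin (2 * r ^ 12) ⊕ Fin b) (II (r ^ 14) (65536 * r ^ 14)) d)
      = n := by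
    simp only [Fintype.card_sum, Fintype.card_prod, Fintype.card_fin, Fintype.card_bool]
    rw [← hNn1, ← hsb]
    ring
  have hcardN : Fintype.card (Fin (2 * r ^ 12) ⊕ Fin b) = Nn := by
    rw [Fintype.card_sum, Fintype.card_fin, Fintype.card_fin]; exact hsb
  have hsbr : (Nn : ℝ) = ((2 * r ^ 12 : ℕ) : ℝ) + (b : ℝ) := by
    rw [← hsb]; push_cast; ring
  have hJup : 2 * (r ^ 10 / 2) ≤ r ^ 10 := Nat.mul_div_le _ _
  have hJlo : r ^ 10 < 2 * (r ^ 10 / 2) + 2 := by omega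
  set J : ℕ := r ^ 10 / 2 with hJ
  have hJupr : (J : ℝ) ≤ (r : ℝ) ^ 10 / 2 := by
    have : (2 : ℝ) * J ≤ (r : ℝ) ^ 10 := by exact_mod_cast hJup
    linarith
  have hJlo' : (r : ℝ) ^ 10 < 2 * (J : ℝ) + 2 := by exact_mod_cast hJlo
  have hcastw : ((r ^ 14 : ℕ) : ℝ) = (r : ℝ) ^ 14 := by push_cast; rfl
  have hcastw2 : ((65536 * r ^ 14 : ℕ) : ℝ) = 65536 * (r : ℝ) ^ 14 := by push_cast; rfl
  have hcasts : ((2 * r ^ 12 : ℕ) : ℝ) = 2 * (r : ℝ) ^ 12 := by push_cast; rfl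
  have hcastq : ((r ^ 12 : ℕ) : ℝ) = (r : ℝ) ^ 12 := by push_cast; rfl
  have hJ0fl : ((J0r r : ℕ) : ℝ) ≤ 65536 * (r : ℝ) ^ 14 / (14700 * Real.log r) :=
    Nat.floor_le (by positivity)
  have hlogn := logn hx rfl hn0 hnx
  clear hn1 hd hJup hJlo
  generalize hxdef : (r : ℝ) = x at *
  generalize hLdef : Real.log x = L at *
  have hx0 : 0 < x := by linarith
  have hx1 : 1 ≤ x := by linarith
  have hL0 : 0 < L := by linarith
  obtain ⟨hJ0, hJ0n⟩ := j0a hx hL10 hJ0fl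
  obtain ⟨hx12, hx10'⟩ := w1 hx hL0 hrL
  have hx14 : (0 : ℝ) < x ^ 14 := by positivity
  have hx141 : (1 : ℝ) ≤ x ^ 14 := one_le_pow₀ hx1
  have hx1420 := x1420 hx
  have hx10 : (10 : ℝ) ^ 6 ≤ x ^ 10 := hx.trans (le_self_pow₀ hx1 (by norm_num))
  have hx20 : (10 : ℝ) ^ 6 ≤ x ^ 20 := hx.trans (le_self_pow₀ hx1 (by norm_num))
  have hJlor : x ^ 10 / 4 ≤ J := by linarith
  have hXone : ∀ c : ℝ, 1 ≤ c → ∀ k : ℕ, 1 ≤ c * x ^ k * L := by
    intro c hc k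
    have h1 : 1 ≤ x ^ k := one_le_pow₀ hx1
    have h2 : 1 ≤ c * x ^ k := one_le_mul_of_one_le_of_one_le hc h1
    exact one_le_mul_of_one_le_of_one_le h2 (by linarith)
  obtain ⟨j1, hj1, hj1'⟩ := two_pow (hXone 27 (by norm_num) 12)
  obtain ⟨j2, hj2, hj2'⟩ := two_pow (hXone 11 (by norm_num) 10)
  have hw2one : 1 ≤ 65536 * x ^ 14 / 350 := by
    rw [le_div_iff₀ (by norm_num)]; linarith
  obtain ⟨j3, hj3, hj3'⟩ := two_pow hw2one
  have a1 : 2 ^ j1 ≤ r ^ 14 := by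
    have : ((2 ^ j1 : ℕ) : ℝ) ≤ ((r ^ 14 : ℕ) : ℝ) := by
      rw [hcastw]; push_cast; linarith
    exact_mod_cast this
  have a2 : 2 ^ j2 ≤ r ^ 14 := by
    have : ((2 ^ j2 : ℕ) : ℝ) ≤ ((r ^ 14 : ℕ) : ℝ) := by
      rw [hcastw]; push_cast; linarith
    exact_mod_cast this
  have a3 : 2 ^ j3 ≤ 65536 * r ^ 14 := by
    have : ((2 ^ j3 : ℕ) : ℝ) ≤ ((65536 * r ^ 14 : ℕ) : ℝ) := by
      rw [hcastw2]; push_cast; linarith
    exact_mod_cast this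
  have a1' : 4 * ((2 * r ^ 12).factorial : ℝ) ≤ Real.exp (2 ^ j1) := by
    have hs0 : (0 : ℝ) < ((2 * r ^ 12 : ℕ) : ℝ) := by rw [hcasts]; positivity
    have hlogs : Real.log ((2 * r ^ 12 : ℕ) : ℝ) ≤ 1 + 12 * L := by
      rw [hcasts, Real.log_mul (by norm_num) (by positivity), Real.log_pow, hLdef]
      have := Real.log_two_lt_d9
      push_cast
      linarith
    have hX : ((2 * r ^ 12 : ℕ) : ℝ) * (1 + 12 * L) + 2 ≤ 2 ^ j1 := by
      rw [hcasts]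
      exact fac hx hL10 hj1
    refine le_trans ?_ (four_pow hs0 hlogs hX)
    have h1 := Nat.factorial_le_pow (2 * r ^ 12)
    have h2 : ((2 * r ^ 12).factorial : ℝ) ≤ ((2 * r ^ 12 : ℕ) : ℝ) ^ (2 * r ^ 12) := by
      exact_mod_cast h1
    exact mul_le_mul_of_nonneg_left h2 (by norm_num)
  have a2' : 4 * (Fintype.card (Fin J ↪ Fin (2 * r ^ 12) ⊕ Fin b) : ℝ) ≤ Real.exp (2 ^ j2) := by
    refine le_trans ?_ (four_pow hn0 hlogn (tup hx hL10 hj2 hJupr))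
    have e1 := emb_le J (Fin (2 * r ^ 12) ⊕ Fin b)
    rw [hcardN] at e1
    have e2 : (Nn : ℝ) ^ J ≤ (n : ℝ) ^ J := pow_le_pow_left₀ (Nat.cast_nonneg _) hNn2r J
    exact mul_le_mul_of_nonneg_left (e1.trans e2) (by norm_num)
  have a3' : 4 * (Fintype.card (Fin (J0r r) ↪
      Pos (Fin (2 * r ^ 12) ⊕ Fin b) (II (r ^ 14) (65536 * r ^ 14)) d) : ℝ)
      ≤ Real.exp (2 ^ j3) := by
    have hX : ((J0r r : ℕ) : ℝ) * (21 * L) + 2 ≤ 2 ^ j3 := by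
      refine le_trans ?_ hj3
      linarith
    refine le_trans ?_ (four_pow hn0 hlogn hX)
    have e1 := emb_le (J0r r) (Pos (Fin (2 * r ^ 12) ⊕ Fin b) (II (r ^ 14) (65536 * r ^ 14)) d)
    rw [hcardn] at e1
    exact mul_le_mul_of_nonneg_left e1 (by norm_num)
  have a3'' : 4 * Real.exp 1 * 2 ^ j3 / ((65536 * r ^ 14 : ℕ) : ℝ) ≤ 1 / 16 := by
    rw [hcastw2]; exact nu3 hx (by positivity) hj3'
  have a4 : 4 ≤ J := by
    have : (4 : ℝ) ≤ J := by linarith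
    exact_mod_cast this
  have a5 : J ^ 2 + 1 ≤ 2 * r ^ 12 + b := by
    rw [hsb]
    have e1 : ((J : ℝ)) ^ 2 + 1 ≤ Nn := by
      have e2 : (J : ℝ) ^ 2 ≤ (x ^ 10 / 2) ^ 2 := pow_le_pow_left₀ (Nat.cast_nonneg _) hJupr 2
      have e3 : (x ^ 10 / 2) ^ 2 = x ^ 20 / 4 := by ring
      linarith
    exact_mod_cast e1
  have a6 : 20 ≤ 2 * r ^ 12 + b := by
    rw [hsb]
    have : (20 : ℝ) ≤ Nn := by linarith
    exact_mod_cast this
  have a7 : J0r r + 2 ≤ 2 * r ^ 12 + b := by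
    rw [hsb]
    have : ((J0r r : ℕ) : ℝ) + 2 ≤ Nn := by linarith
    exact_mod_cast this
  have a8 : r ^ 14 + (r ^ 14 + 65536 * r ^ 14) + 1 ≤ 2 * r ^ 12 + b := by
    rw [hsb]
    have : ((r ^ 14 + (r ^ 14 + 65536 * r ^ 14) + 1 : ℕ) : ℝ) ≤ (Nn : ℝ) := by
      push_cast
      rw [hxdef]
      linarith
    exact_mod_cast this
  have a9 : 4 * Real.exp 1 * 2 ^ j2 / ((r ^ 14 : ℕ) : ℝ) ≤ 1 / x ^ 3 := by
    rw [hcastw]; exact nu hx hL0 hrL (by positivity) hj2'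
  have a10 : 4 * Real.exp 1 * 2 ^ j1 / ((r ^ 14 : ℕ) : ℝ) ≤ 600 * L / x ^ 2 := by
    rw [hcastw]; exact nuA hx hL0 (by positivity) hj1'
  have a11 := kappa (ν := 4 * Real.exp 1 * 2 ^ j2 / ((r ^ 14 : ℕ) : ℝ)) hx hL0 hrL hxs1 hxs2
    hJlor hcastq (by positivity) a9 a10
  obtain ⟨S, hS1, hS2⟩ := ex_sys (2 * r ^ 12) b (r ^ 14) (65536 * r ^ 14) d J (J0r r) j1 j2 j3 100
    (r ^ 12) (Nat.one_le_pow _ _ hr1) a1 a1' a2 a2' a3 a3' a3'' (Nat.one_le_pow _ _ hr1)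
    (le_refl _) a4 a5 a6 a7 a8 (Nn : ℝ) (1 / x) _ _ hsbr rfl rfl a11
  refine ⟨Fin (2 * r ^ 12) ⊕ Fin b, II (r ^ 14) (65536 * r ^ 14), inferInstance, inferInstance,
    inferInstance, inferInstance, S, ?_, hS1, hS2⟩
  rw [hcardN]
  exact hNn1

end Pool.Agent.H9.Low
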