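import Pool.Agent.H9.Low.Defs2

/-!
# The binomial coefficient against `exp (12 r ^ 14)`
-/

set_option autoImplicit false

namespace Pool.Agent.H9.Low

open Finset

private theorem dim_par_log {r : ℕ} (hr : 100 ≤ r) : 4 ≤ Real.log r := by
  have h1 : Real.exp 4 ≤ r := by
    have h2 : Real.exp 4 = Real.exp 1 ^ 4 := by
      rw [← Real.exp_nat_mul]; norm_num
    have h3 : Real.exp 1 ^ 4 ≤ (2.72 : ℝ) ^ 4 :=
      pow_le_pow_left₀ (Real.exp_pos 1).le (by have := Real.exp_one_lt_d9; linarith) 4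
    have h4 : (100 : ℝ) ≤ r := by exact_mod_cast hr
    rw [h2]
    have h5 : (2.72 : ℝ) ^ 4 ≤ 100 := by norm_num
    linarith
  have h2 := Real.log_le_log (Real.exp_pos 4) h1
  rwa [Real.log_exp] at h2

theorem dim_par : ∃ r0 : ℕ, ∀ r ≥ r0, ∀ n : ℕ, r ^ 20 ≤ n → n < (r + 1) ^ 20 →
    2 * (J0r r / 2) + 1 ≤ n / 2 ∧ r ^ 7 ≤ J0r r ∧ 2 * J0r r ≤ n ∧
    Real.exp (12 * (r : ℝ) ^ 14) ≤ ((n / 2).choose (J0r r / 2) : ℝ) := by
  refine ⟨100, fun r hr n hn hn2 => ?_⟩
  clear hn2
  have hL4 := dim_par_log hr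
  set L := Real.log r with hL
  have hr' : (100 : ℝ) ≤ r := by exact_mod_cast hr
  have hr0 : (0 : ℝ) < r := by linarith
  have hL0 : 0 < L := by linarith
  have hLr : L ≤ r := by
    have := Real.log_le_sub_one_of_pos hr0
    rw [← hL] at this
    linarith
  have hn' : (r : ℝ) ^ 20 ≤ n := by exact_mod_cast hn
  clear hn
  -- powers
  have hp6 : (1000 : ℝ) ≤ (r : ℝ) ^ 6 := by
    calc (1000 : ℝ) ≤ 100 ^ 6 := by norm_num
      _ ≤ _ := pow_le_pow_left₀ (by norm_num) hr' 6
  have hp8 : (1000 : ℝ) * r ≤ (r : ℝ) ^ 14 := by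
    have h0 : (1 : ℝ) ≤ (r : ℝ) ^ 7 := one_le_pow₀ (by linarith)
    have h1 : (r : ℝ) ^ 14 = r * r ^ 6 * r ^ 7 := by ring
    rw [h1]
    have h2 : (1000 : ℝ) * r ≤ r * r ^ 6 := by
      rw [mul_comm]
      exact mul_le_mul_of_nonneg_left (by linarith) hr0.le
    calc (1000 : ℝ) * r ≤ r * r ^ 6 := h2
      _ = r * r ^ 6 * 1 := (mul_one _).symm
      _ ≤ r * r ^ 6 * r ^ 7 := mul_le_mul_of_nonneg_left h0 (by positivity)
  have hp20 : (r : ℝ) ^ 20 = r ^ 14 * r ^ 6 := by ring
  set X : ℝ := (r : ℝ) ^ 14 with hX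
  set Z : ℝ := (r : ℝ) ^ 6 with hZ
  have hX100 : (1000 : ℝ) * r ≤ X := hp8
  have hXpos : 0 < X := by positivity
  have hZpos : 0 < Z := by positivity
  -- the value of the quotient
  set a : ℝ := 65536 * X / (14700 * L) with ha
  have haL : a * L = 65536 / 14700 * X := by
    rw [ha]; field_simp
  have ha0 : 0 < a := by positivity
  have haX : a ≤ 1.12 * X := by
    have h1 : a * 4 ≤ a * L := mul_le_mul_of_nonneg_left hL4 ha0.le
    rw [haL] at h1
    linarith
  have hJle : (J0r r : ℝ) ≤ a := Nat.floor_le ha0.le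
  have hJlt : a < (J0r r : ℝ) + 1 := Nat.lt_floor_add_one a
  set J := J0r r with hJ
  set k := J / 2 with hk
  have hkJ : 2 * k ≤ J := Nat.mul_div_le J 2
  have hJk : J ≤ 2 * k + 1 := by omega
  have hkJ' : 2 * (k : ℝ) ≤ J := by exact_mod_cast hkJ
  have hJk' : (J : ℝ) ≤ 2 * k + 1 := by exact_mod_cast hJk
  have hX3 : (100 : ℝ) ≤ X := by linarith
  have h20 : 4 * X ≤ (r : ℝ) ^ 20 := by
    rw [hp20, mul_comm]
    exact mul_le_mul_of_nonneg_left (by linarith) hXpos.le
  clear_value X Z L a k J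
  have hkk : (k : ℝ) ≤ 0.56 * X := by linarith
  have hklow : a / 2 - 1 ≤ k := by linarith
  refine ⟨?_, ?_, ?_, ?_⟩
  · rw [Nat.le_div_iff_mul_le (by norm_num)]
    have : ((2 * k + 1) * 2 : ℝ) ≤ n := by linarith
    exact_mod_cast this
  · rw [hJ, J0r]
    apply Nat.le_floor
    push_cast
    rw [← hX, ← hL, ← ha]
    have h1 : (r : ℝ) ^ 7 * L ≤ a * L := by
      rw [haL]
      have h2 : (r : ℝ) ^ 7 * L ≤ (r : ℝ) ^ 7 * r := mul_le_mul_of_nonneg_left hLr (by positivity)
      have h3 : (r : ℝ) ^ 7 * r ≤ X := by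
        have h4 : X = (r : ℝ) ^ 7 * r * r ^ 6 := by rw [hX]; ring
        rw [h4]
        apply le_mul_of_one_le_right (by positivity)
        linarith
      linarith
    exact le_of_mul_le_mul_right h1 hL0
  · have : (2 * J : ℝ) ≤ n := by linarith
    exact_mod_cast this
  · set M := n / 2 with hM
    have hMn : n ≤ 2 * M + 1 := by omega
    have hMn' : (n : ℝ) ≤ 2 * M + 1 := by exact_mod_cast hMn
    clear_value M
    have hkM : k ≤ M + 1 := by
      have : (k : ℝ) ≤ M + 1 := by linarith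
      exact_mod_cast this
    -- lower bound by a power
    have h1 : (((M + 1 - k : ℕ) : ℝ) ^ k) / (k.factorial : ℝ) ≤ (M.choose k : ℝ) :=
      Nat.pow_le_choose k M
    have h2 : ((k.factorial : ℕ) : ℝ) ≤ (k : ℝ) ^ k := by
      exact_mod_cast Nat.factorial_le_pow k
    have hk0 : 0 < k := by
      rcases Nat.eq_zero_or_pos k with h | h
      · exfalso
        rw [h] at hklow
        push_cast at hklow
        have h3 : a ≤ 2 := by linarith
        have h4 : a * L ≤ 2 * L := mul_le_mul_of_nonneg_right h3 hL0.le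
        rw [haL] at h4
        linarith
      · exact h
    have hk0' : (0 : ℝ) < k := by exact_mod_cast hk0
    have h3 : (k : ℝ) * (Z / 3) ≤ ((M + 1 - k : ℕ) : ℝ) := by
      rw [Nat.cast_sub hkM]
      push_cast
      have h4 : (k : ℝ) * (Z / 3 + 1) ≤ 0.56 * X * (0.34 * Z) := by
        apply mul_le_mul hkk (by linarith) (by positivity) (by positivity)
      have h5 : X * Z ≤ n := by rw [← hp20]; exact hn'
      have h6 : 0 < X * Z := by positivity
      have h7 : 0.56 * X * (0.34 * Z) = 0.1904 * (X * Z) := by ring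
      rw [h7] at h4
      have h8 : (k : ℝ) * (Z / 3 + 1) = k * (Z / 3) + k := by ring
      rw [h8] at h4
      have h9 : 1 * X ≤ Z * X := mul_le_mul_of_nonneg_right (by linarith) hXpos.le
      linarith
    have h4 : (Z / 3) ^ k ≤ (M.choose k : ℝ) := by
      refine le_trans ?_ h1
      rw [le_div_iff₀ (by positivity)]
      calc (Z / 3) ^ k * (k.factorial : ℝ) ≤ (Z / 3) ^ k * (k : ℝ) ^ k :=
            mul_le_mul_of_nonneg_left h2 (by positivity)
        _ = ((k : ℝ) * (Z / 3)) ^ k := by rw [← mul_pow]; ring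
        _ ≤ ((M + 1 - k : ℕ) : ℝ) ^ k := by
            have hnn : (0 : ℝ) ≤ (k : ℝ) * (Z / 3) := by positivity
            exact pow_le_pow_left₀ hnn h3 k
    refine le_trans ?_ h4
    have h5 : Real.log (Z / 3) = 6 * L - Real.log 3 := by
      rw [Real.log_div hZpos.ne' (by norm_num), hZ, Real.log_pow]
      rw [hL]
      norm_num
    have h6 : Real.log 3 ≤ 1.1 := by
      have h7 : Real.log 3 ≤ Real.log (Real.exp 1.1) := by
        apply Real.log_le_log (by norm_num)
        have h8 : (3 : ℝ) ≤ Real.exp 1.1 := by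
          have h9 := Real.sum_le_exp_of_nonneg (x := 1.1) (by norm_num) 6
          refine le_trans ?_ h9
          norm_num [Finset.sum_range_succ, Nat.factorial]
        exact h8
      rwa [Real.log_exp] at h7
    rw [← Real.exp_log (show (0 : ℝ) < Z / 3 by positivity), ← Real.exp_nat_mul, Real.exp_le_exp, h5]
    have h7 : (a / 2 - 1) * (6 * L - 1.1) ≤ k * (6 * L - Real.log 3) := by
      apply mul_le_mul hklow (by linarith) (by linarith) hk0'.le
    refine le_trans ?_ h7
    have h8 : (a / 2 - 1) * (6 * L - 1.1) = 3 * (a * L) - 0.55 * a - 6 * L + 1.1 := by ring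
    rw [h8, haL]
    linarith

end Pool.Agent.H9.Low
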