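import Pool.Agent.H9.Low.Defs2
import Pool.Agent.H9.Low.T14

/-!
# Parameters: words with many outer positions kept are rare, and the sup bound
-/

namespace Pool.Agent.H9.Low

open Equiv Finset

theorem law_cd_out {I : Type} [Fintype I] {r d : ℕ} (hI : Fintype.card I = 65538 * r ^ 14) :
    Fintype.card (Out I d) = 131076 * r ^ 14 + (d + 1) := by
  rw [Fintype.card_sum, Fintype.card_prod, Fintype.card_bool, Fintype.card_fin, hI]
  ring

theorem law_cd_r0 : ∃ r0 : ℕ, ∀ r ≥ r0, (10000000000000 : ℝ) ≤ (r : ℝ) := by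
  obtain ⟨r0, h⟩ := exists_nat_ge ((10000000000000 : ℝ))
  refine ⟨r0, fun r hr => h.trans ?_⟩
  exact_mod_cast hr

/-- the real inequalities -/
theorem law_cd_real {x n d N o : ℝ} (hx : (10000000000000 : ℝ) ≤ x) (hn : x ^ 20 ≤ n)
    (hd : d + 1 ≤ x ^ 7) (hN : N + 131076 * x ^ 14 + (d + 1) = n)
    (ho : o = 131076 * x ^ 14 + (d + 1)) :
    o ≤ 131077 * x ^ 14 ∧ x ^ 20 / 2 ≤ N - o ∧ 2 * o ≤ N := by
  have hx1 : 1 ≤ x := le_trans (by norm_num) hx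
  have e7 : x ^ 7 ≤ x ^ 14 := pow_le_pow_right₀ hx1 (by norm_num)
  have e14 : 0 ≤ x ^ 14 := pow_nonneg (by linarith) 14
  have e6 : (10 : ℝ) ^ 6 ≤ x ^ 6 :=
    pow_le_pow_left₀ (by norm_num) (le_trans (by norm_num) hx) 6
  have e20 : x ^ 20 = x ^ 6 * x ^ 14 := by ring
  have e20' : (10 : ℝ) ^ 6 * x ^ 14 ≤ x ^ 20 := by
    rw [e20]; exact mul_le_mul_of_nonneg_right e6 e14
  have h1 : o ≤ 131077 * x ^ 14 := by rw [ho]; linarith
  exact ⟨h1, by linarith, by linarith⟩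

theorem law_cd_t1 {x m : ℝ} {s : ℕ} (hx : (10000000000000 : ℝ) ≤ x) (hm : 1 ≤ m)
    (hs : 45 * m * Real.log x ≤ s) :
    (1 - 1 / (3 * m)) ^ s * (5 / 2 * (65538 * x ^ 14)) ≤ 1 := by
  have hx0 : 0 < x := lt_of_lt_of_le (by norm_num) hx
  have hm0 : 0 < 3 * m := by linarith
  have h1 : (1 - 1 / (3 * m)) ≤ Real.exp (-(1 / (3 * m))) := by
    have := Real.add_one_le_exp (-(1 / (3 * m)))
    linarith
  have h0 : 0 ≤ 1 - 1 / (3 * m) := by
    have : 1 / (3 * m) ≤ 1 := by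
      rw [div_le_one hm0]
      linarith
    linarith
  have h6 : 15 * Real.log x ≤ (s : ℝ) * (1 / (3 * m)) := by
    rw [mul_one_div, le_div_iff₀ hm0]
    linarith
  have h2 : (1 - 1 / (3 * m)) ^ s ≤ Real.exp (-(15 * Real.log x)) := by
    refine (pow_le_pow_left₀ h0 h1 s).trans ?_
    rw [← Real.exp_nat_mul]
    apply Real.exp_le_exp.2
    linarith
  have h3 : Real.exp (-(15 * Real.log x)) = 1 / x ^ 15 := by
    rw [Real.exp_neg, one_div]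
    congr 1
    have : (15 : ℝ) * Real.log x = ((15 : ℕ) : ℝ) * Real.log x := by norm_num
    rw [this, Real.exp_nat_mul, Real.exp_log hx0]
  rw [h3] at h2
  have h4 : 0 ≤ 5 / 2 * (65538 * x ^ 14) := by
    have := pow_pos hx0 14
    linarith
  calc (1 - 1 / (3 * m)) ^ s * (5 / 2 * (65538 * x ^ 14))
      ≤ 1 / x ^ 15 * (5 / 2 * (65538 * x ^ 14)) := mul_le_mul_of_nonneg_right h2 h4
    _ = 163845 / x := by field_simp; ring
    _ ≤ 1 := by rw [div_le_one hx0]; linarith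

theorem law_cd_t2 {x m c o N : ℝ} (hx : (10000000000000 : ℝ) ≤ x) (hm : m = 65538 * x ^ 14 + 1)
    (hc0 : 0 ≤ c) (hc : c ≤ x) (_ho0 : 0 ≤ o) (ho : o ≤ 131077 * x ^ 14)
    (hN : x ^ 20 / 2 ≤ N) :
    3 * (65538 * x ^ 14) * (40 * c / m + 2 * o / N) ≤ 120 * x + 10 ^ 12 * x ^ 8 := by
  have hx0 : 0 < x := lt_of_lt_of_le (by norm_num) hx
  have h14 : 0 < x ^ 14 := pow_pos hx0 14
  have h20 : 0 < x ^ 20 / 2 := half_pos (pow_pos hx0 20)
  have h8 : 0 < x ^ 8 := pow_pos hx0 8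
  have hm0 : 0 < m := by rw [hm]; linarith
  have h2 : 65538 * x ^ 14 / m ≤ 1 := by
    rw [div_le_one hm0, hm]
    linarith
  have h1 : 3 * (65538 * x ^ 14) * (40 * c / m) ≤ 120 * x := by
    have h3 : 3 * (65538 * x ^ 14) * (40 * c / m) = 120 * c * (65538 * x ^ 14 / m) := by ring
    rw [h3]
    have h4 : 120 * c * (65538 * x ^ 14 / m) ≤ 120 * c * 1 :=
      mul_le_mul_of_nonneg_left h2 (by linarith)
    linarith
  have h5 : 2 * o / N ≤ 2 * (131077 * x ^ 14) / (x ^ 20 / 2) := by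
    apply div_le_div₀ (by linarith) (by linarith) h20 hN
  have h6 : 3 * (65538 * x ^ 14) * (2 * o / N) ≤ 10 ^ 12 * x ^ 8 := by
    calc 3 * (65538 * x ^ 14) * (2 * o / N)
        ≤ 3 * (65538 * x ^ 14) * (2 * (131077 * x ^ 14) / (x ^ 20 / 2)) :=
          mul_le_mul_of_nonneg_left h5 (by linarith)
      _ = 103086293112 * x ^ 8 := by field_simp; ring
      _ ≤ 10 ^ 12 * x ^ 8 := mul_le_mul_of_nonneg_right (by norm_num) h8.le
  rw [mul_add]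
  linarith

theorem law_cd_t3 {x d : ℝ} (hx : (10000000000000 : ℝ) ≤ x) (hd : d + 1 ≤ x ^ 7) :
    1 + (120 * x + 10 ^ 12 * x ^ 8) + (d + 1) ≤ x ^ 9 := by
  have hx1 : 1 ≤ x := le_trans (by norm_num) hx
  have e2 : x ≤ x ^ 8 := by
    calc x = x ^ 1 := (pow_one _).symm
      _ ≤ x ^ 8 := pow_le_pow_right₀ hx1 (by norm_num)
  have e3 : x ^ 7 ≤ x ^ 8 := pow_le_pow_right₀ hx1 (by norm_num)
  have e4 : (10000000000000 : ℝ) * x ^ 8 ≤ x ^ 9 := by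
    have e1 : x ^ 9 = x * x ^ 8 := by ring
    rw [e1]
    exact mul_le_mul_of_nonneg_right hx (pow_nonneg (by linarith) 8)
  linarith

/-- Markov -/
theorem law_cd_mk {Y : Type} [Fintype Y] (k : Y → ℕ) (r : ℕ) (hr : (0 : ℝ) < r)
    (h : av (fun v => (k v : ℝ)) ≤ (r : ℝ) ^ 9) :
    av (fun v => if r ^ 12 < k v then (1 : ℝ) else 0) ≤ 1 / (r : ℝ) ^ 3 := by
  have h12 : (0 : ℝ) < (r : ℝ) ^ 12 := pow_pos hr 12
  have hmk : av (fun v => if r ^ 12 < k v then (1 : ℝ) else 0)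
      ≤ av (fun v => 1 / (r : ℝ) ^ 12 * (k v : ℝ)) := by
    apply av_le_av
    intro v
    split_ifs with h
    · have h1 : (r : ℝ) ^ 12 ≤ (k v : ℝ) := by exact_mod_cast h.le
      rw [one_div, inv_mul_eq_div, le_div_iff₀ h12, one_mul]
      exact h1
    · exact mul_nonneg (one_div_nonneg.2 h12.le) (Nat.cast_nonneg _)
  rw [av_mul_left] at hmk
  refine hmk.trans ?_
  calc 1 / (r : ℝ) ^ 12 * av (fun v => (k v : ℝ))
      ≤ 1 / (r : ℝ) ^ 12 * (r : ℝ) ^ 9 := mul_le_mul_of_nonneg_left h (one_div_nonneg.2 h12.le)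
    _ = 1 / (r : ℝ) ^ 3 := by field_simp

/-- words with many outer positions kept are rare -/
theorem law_c : ∃ r0 : ℕ, ∀ r ≥ r0, ∀ n d : ℕ, r ^ 20 ≤ n →
    n < (r + 1) ^ 20 → d + 1 ≤ r ^ 7 →
    ∀ (β I : Type) [Fintype β] [DecidableEq β] [Fintype I] [DecidableEq I] (S : Sys β I d),
      Fintype.card β + 131076 * r ^ 14 + (d + 1) = n → Fintype.card I = 65538 * r ^ 14 →
      M8 S (40 * ⌈Real.log r⌉₊) →
    ∀ s ≥ 45 * (65538 * r ^ 14 + 1) * ⌈Real.log r⌉₊,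
      av (fun v : Fin s → Option I => if r ^ 12 < kk (wd S.gl v) then (1 : ℝ) else 0)
        ≤ 1 / (r : ℝ) ^ 3 := by
  obtain ⟨r0, hr0⟩ := law_cd_r0
  refine ⟨r0, fun r hr n d hn _ hd β I _ _ _ _ S hβ hI hM s hs => ?_⟩
  have hx : (10000000000000 : ℝ) ≤ (r : ℝ) := hr0 r hr
  have hx0 : (0 : ℝ) < (r : ℝ) := lt_of_lt_of_le (by norm_num) hx
  have hn' : (r : ℝ) ^ 20 ≤ (n : ℝ) := by exact_mod_cast hn
  have hd' : (d : ℝ) + 1 ≤ (r : ℝ) ^ 7 := by exact_mod_cast hd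
  have hβ' : (Fintype.card β : ℝ) + 131076 * (r : ℝ) ^ 14 + (d + 1) = n := by exact_mod_cast hβ
  have ho' : (Fintype.card (Out I d) : ℝ) = 131076 * (r : ℝ) ^ 14 + (d + 1) := by
    rw [law_cd_out hI]; push_cast; ring
  have hI' : (Fintype.card I : ℝ) = 65538 * (r : ℝ) ^ 14 := by rw [hI]; push_cast; ring
  obtain ⟨ho, hN, -⟩ := law_cd_real hx hn' hd' hβ' ho'
  have ho0 : (0 : ℝ) ≤ Fintype.card (Out I d) := Nat.cast_nonneg _
  have hk := kexp S (40 * ⌈Real.log r⌉₊) hM (65538 * (r : ℝ) ^ 14 + 1) (by rw [hI']) s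
  have hlog : Real.log r ≤ r := (Real.log_le_sub_one_of_pos hx0).trans (by linarith)
  have hceil : (⌈Real.log r⌉₊ : ℝ) ≤ r := by
    have h1 : ⌈Real.log r⌉₊ ≤ r := Nat.ceil_le.2 hlog
    exact_mod_cast h1
  have h14 : (0 : ℝ) ≤ (r : ℝ) ^ 14 := pow_nonneg hx0.le 14
  have hs' : 45 * (65538 * (r : ℝ) ^ 14 + 1) * Real.log r ≤ s := by
    have h3 : (45 * (65538 * (r : ℝ) ^ 14 + 1) * (⌈Real.log r⌉₊ : ℝ)) ≤ (s : ℝ) := by
      exact_mod_cast hs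
    refine le_trans ?_ h3
    exact mul_le_mul_of_nonneg_left (Nat.le_ceil _) (by linarith)
  have t1 := law_cd_t1 (x := (r : ℝ)) (m := 65538 * (r : ℝ) ^ 14 + 1) (s := s) hx (by linarith) hs'
  have t2 := law_cd_t2 (x := (r : ℝ)) (m := 65538 * (r : ℝ) ^ 14 + 1) (c := (⌈Real.log r⌉₊ : ℝ))
    (o := (Fintype.card (Out I d) : ℝ)) (N := (Fintype.card β : ℝ)) hx rfl (Nat.cast_nonneg _)
    hceil ho0 ho (by linarith)
  have t3 := law_cd_t3 hx hd'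
  apply law_cd_mk _ r hx0
  rw [hI'] at hk
  push_cast at hk
  linarith

theorem law_cd_n {r n : ℕ} (hx : (10000000000000 : ℝ) ≤ (r : ℝ)) (hn2 : n < (r + 1) ^ 20) :
    (n : ℝ) ≤ (r : ℝ) ^ 21 := by
  have hx0 : (0 : ℝ) ≤ (r : ℝ) := Nat.cast_nonneg _
  have h1 : (n : ℝ) ≤ ((r : ℝ) + 1) ^ 20 := by exact_mod_cast hn2.le
  have h10 : (1 : ℝ) ≤ r := le_trans (by norm_num) hx
  have h2 : ((r : ℝ) + 1) ^ 20 ≤ (2 * (r : ℝ)) ^ 20 :=
    pow_le_pow_left₀ (by linarith) (by linarith) 20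
  have h3 : (2 * (r : ℝ)) ^ 20 = 1048576 * (r : ℝ) ^ 20 := by ring
  have h4 : 1048576 * (r : ℝ) ^ 20 ≤ (r : ℝ) * (r : ℝ) ^ 20 :=
    mul_le_mul_of_nonneg_right (le_trans (by norm_num) hx) (pow_nonneg hx0 20)
  have h5 : (r : ℝ) * (r : ℝ) ^ 20 = (r : ℝ) ^ 21 := by ring
  linarith

theorem law_cd_f1 {r n k : ℕ} (hx : (10000000000000 : ℝ) ≤ (r : ℝ)) (hn1 : 1 ≤ n)
    (hn2 : n < (r + 1) ^ 20) (hk : k ≤ r ^ 12) :
    (n : ℝ) ^ k ≤ Real.exp (21 * Real.log r * (r : ℝ) ^ 12) := by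
  have hx0 : (0 : ℝ) < (r : ℝ) := lt_of_lt_of_le (by norm_num) hx
  have hnR : (1 : ℝ) ≤ (n : ℝ) := by exact_mod_cast hn1
  calc (n : ℝ) ^ k ≤ (n : ℝ) ^ (r ^ 12) := pow_le_pow_right₀ hnR hk
    _ ≤ ((r : ℝ) ^ 21) ^ (r ^ 12) := pow_le_pow_left₀ (by linarith) (law_cd_n hx hn2) _
    _ = Real.exp (21 * Real.log r * (r : ℝ) ^ 12) := by
      have h1 : 21 * Real.log r * (r : ℝ) ^ 12 = ((r ^ 12 : ℕ) : ℝ) * (((21 : ℕ) : ℝ) *
          Real.log r) := by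
        push_cast
        ring
      rw [h1, Real.exp_nat_mul, Real.exp_nat_mul, Real.exp_log hx0]

theorem law_cd_f2 {x N : ℝ} {o : ℕ} (hx : (10000000000000 : ℝ) ≤ x) (ho : (o : ℝ) ≤ 131077 * x ^ 14)
    (hN : x ^ 20 / 2 ≤ N - o) (hlog : 1 ≤ Real.log x) :
    ((N + o) / (N - o)) ^ o ≤ Real.exp (Real.log x * x ^ 12) := by
  have hx0 : 0 < x := lt_of_lt_of_le (by norm_num) hx
  have hx1 : 1 ≤ x := le_trans (by norm_num) hx
  have ho0 : (0 : ℝ) ≤ (o : ℝ) := Nat.cast_nonneg _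
  have h20 : 0 < x ^ 20 / 2 := half_pos (pow_pos hx0 20)
  have h14 : 0 < x ^ 14 := pow_pos hx0 14
  have hNo : 0 < N - o := by linarith
  have h1 : (N + o) / (N - o) = 1 + 2 * o / (N - o) := by
    field_simp
    ring
  have h2 : (N + o) / (N - o) ≤ Real.exp (2 * o / (N - o)) := by
    rw [h1]
    have := Real.add_one_le_exp (2 * (o : ℝ) / (N - o))
    linarith
  have h0 : 0 ≤ (N + o) / (N - o) := div_nonneg (by linarith) hNo.le
  refine (pow_le_pow_left₀ h0 h2 _).trans ?_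
  rw [← Real.exp_nat_mul]
  apply Real.exp_le_exp.2
  have h3 : 2 * (o : ℝ) / (N - o) ≤ 2 * (131077 * x ^ 14) / (x ^ 20 / 2) :=
    div_le_div₀ (by linarith) (by linarith) h20 hN
  have h4 : 0 ≤ 2 * (o : ℝ) / (N - o) := div_nonneg (by linarith) hNo.le
  calc (o : ℝ) * (2 * o / (N - o))
      ≤ (131077 * x ^ 14) * (2 * (131077 * x ^ 14) / (x ^ 20 / 2)) :=
        mul_le_mul ho h3 h4 (by linarith)
    _ = 68724719716 * x ^ 8 := by field_simp; ring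
    _ ≤ x * x ^ 8 :=
        mul_le_mul_of_nonneg_right (le_trans (by norm_num) hx) (pow_nonneg hx0.le 8)
    _ = x ^ 9 := by ring
    _ ≤ x ^ 12 := pow_le_pow_right₀ hx1 (by norm_num)
    _ ≤ Real.log x * x ^ 12 := le_mul_of_one_le_left (pow_nonneg hx0.le 12) hlog

/-- the sup bound with the parameters -/
theorem law_d : ∃ r0 : ℕ, ∀ r ≥ r0, ∀ n d : ℕ, r ^ 20 ≤ n →
    n < (r + 1) ^ 20 → d + 1 ≤ r ^ 7 →
    ∀ (β I : Type) [Fintype β] [DecidableEq β] [Fintype I] [DecidableEq I],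
      Fintype.card β + 131076 * r ^ 14 + (d + 1) = n → Fintype.card I = 65538 * r ^ 14 →
    ∀ g : Perm (Pos β I d), kk g ≤ r ^ 12 → ∀ h : Perm (Pos β I d) → ℝ, SD h → EH h = h →
      ∀ σ, EH (R g h) σ ≤ Real.exp (22 * Real.log r * (r : ℝ) ^ 12) := by
  obtain ⟨r0, hr0⟩ := law_cd_r0
  refine ⟨r0, fun r hr n d hn hn2 hd β I _ _ _ _ hβ hI g hkk h hSD hinv σ => ?_⟩
  have hx : (10000000000000 : ℝ) ≤ (r : ℝ) := hr0 r hr
  have hx0 : (0 : ℝ) < (r : ℝ) := lt_of_lt_of_le (by norm_num) hx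
  have hn' : (r : ℝ) ^ 20 ≤ (n : ℝ) := by exact_mod_cast hn
  have hd' : (d : ℝ) + 1 ≤ (r : ℝ) ^ 7 := by exact_mod_cast hd
  have hβ' : (Fintype.card β : ℝ) + 131076 * (r : ℝ) ^ 14 + (d + 1) = n := by exact_mod_cast hβ
  have ho' : (Fintype.card (Out I d) : ℝ) = 131076 * (r : ℝ) ^ 14 + (d + 1) := by
    rw [law_cd_out hI]; push_cast; ring
  obtain ⟨ho, hN, hγ⟩ := law_cd_real hx hn' hd' hβ' ho'
  have hγ' : 2 * Fintype.card (Out I d) ≤ Fintype.card β := by exact_mod_cast hγ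
  have hsup := sup_bound (β := β) (γ := Out I d) g hγ' h hSD hinv σ
  have hlog1 : 1 ≤ Real.log r := by
    rw [Real.le_log_iff_exp_le hx0]
    exact le_trans (le_trans Real.exp_one_lt_d9.le (by norm_num)) hx
  have hcard : Fintype.card (β ⊕ Out I d) = n := by
    rw [Fintype.card_sum, law_cd_out hI, ← hβ]
    ring
  have hn0 : 1 ≤ n := by rw [← hβ]; exact Nat.le_add_left_of_le (Nat.succ_le_succ (Nat.zero_le d))
  rw [hcard] at hsup
  have hf1 := law_cd_f1 hx hn0 hn2 hkk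
  have hf2 := law_cd_f2 (N := (Fintype.card β : ℝ)) hx ho hN hlog1
  have hf3 : (0 : ℝ) ≤ (((Fintype.card β : ℝ) + Fintype.card (Out I d)) /
      (Fintype.card β - Fintype.card (Out I d))) ^ Fintype.card (Out I d) := by
    apply pow_nonneg
    apply div_nonneg (add_nonneg (Nat.cast_nonneg _) (Nat.cast_nonneg _))
    have : (0 : ℝ) < (r : ℝ) ^ 20 / 2 := half_pos (pow_pos hx0 20)
    linarith
  refine (le_trans hsup (mul_le_mul hf1 hf2 hf3 (Real.exp_pos _).le)).trans ?_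
  rw [← Real.exp_add]
  apply Real.exp_le_exp.2
  linarith

end Pool.Agent.H9.Low
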