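import Pool.Agent.H9.Low.Defs2
import Pool.Agent.H9.Low.T16
import Pool.Agent.H9.Low.LawA
import Pool.Agent.H9.Low.LawB
import Pool.Agent.H9.Low.law_cd

/-!
# law_par: the law after `k` windows is bounded up to a small part (assembly of stage 1)
-/

namespace Pool.Agent.H9.Low

open Equiv Finset

/-! ## numerical facts -/

/-- the proportion of windows without `c` -/
theorem law_par_pw (M : ℝ) (hM : 0 < M) (W : ℕ) :
    Real.exp (-(W / M)) ≤ (1 - 1 / (M + 1)) ^ W := by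
  have h1 : 1 - 1 / (M + 1) = (1 + 1 / M)⁻¹ := by field_simp; ring
  have h2 : Real.exp (-(1 / M)) ≤ 1 - 1 / (M + 1) := by
    rw [h1, Real.exp_neg]
    refine inv_anti₀ (by positivity) ?_
    have := Real.add_one_le_exp (1 / M)
    linarith
  calc Real.exp (-(W / M)) = Real.exp (-(1 / M)) ^ W := by
        rw [← Real.exp_nat_mul]; congr 1; ring
    _ ≤ _ := pow_le_pow_left₀ (Real.exp_pos _).le h2 W

/-- the mass which sees `c` in all windows -/
theorem law_par_win (r : ℕ) (hr : 20736 ≤ r) (M : ℝ) (hM : 0 < M) (W : ℕ)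
    (hW : (W : ℝ) ≤ M * Real.log r / 2) :
    (1 - (1 - 1 / (M + 1)) ^ W) ^ r ≤ 1 / (r : ℝ) ^ 3 := by
  have hr0 : (0 : ℝ) < r := by
    have : 0 < r := by omega
    exact_mod_cast this
  set L := Real.log r with hL
  have hexp : Real.exp L = r := Real.exp_log hr0
  have h1 : Real.exp (-(L / 2)) ≤ (1 - 1 / (M + 1)) ^ W := by
    refine le_trans (Real.exp_le_exp.2 ?_) (law_par_pw M hM W)
    rw [neg_le_neg_iff, div_le_iff₀ hM]
    linarith
  have h2 : 0 ≤ 1 - (1 - 1 / (M + 1)) ^ W := by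
    have h3 : 0 ≤ 1 - 1 / (M + 1) := by
      rw [sub_nonneg, div_le_one (by linarith)]; linarith
    have h4 : 1 - 1 / (M + 1) ≤ 1 := by
      have : 0 ≤ 1 / (M + 1) := by positivity
      linarith
    have := pow_le_one₀ (n := W) h3 h4
    linarith
  have h3 : 1 - (1 - 1 / (M + 1)) ^ W ≤ Real.exp (-Real.exp (-(L / 2))) := by
    have := Real.add_one_le_exp (-Real.exp (-(L / 2)))
    linarith
  have h4 : (1 - (1 - 1 / (M + 1)) ^ W) ^ r ≤ Real.exp (-Real.exp (L / 2)) := by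
    calc (1 - (1 - 1 / (M + 1)) ^ W) ^ r ≤ Real.exp (-Real.exp (-(L / 2))) ^ r :=
          pow_le_pow_left₀ h2 h3 r
      _ = Real.exp (-Real.exp (L / 2)) := by
          rw [← Real.exp_nat_mul]
          congr 1
          have h5 : (r : ℝ) = Real.exp (L / 2) * Real.exp (L / 2) := by
            rw [← Real.exp_add, ← hexp]; congr 1; ring
          have h6 : Real.exp (L / 2) * Real.exp (-(L / 2)) = 1 := by
            rw [← Real.exp_add, add_neg_cancel, Real.exp_zero]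
          calc (r : ℝ) * -Real.exp (-(L / 2))
              = -(Real.exp (L / 2) * (Real.exp (L / 2) * Real.exp (-(L / 2)))) := by
                rw [h5]; ring
            _ = _ := by rw [h6, mul_one]
  refine h4.trans ?_
  -- `3 L ≤ exp (L / 2)`
  have h7 : (12 : ℝ) ≤ Real.exp (L / 4) := by
    by_contra hcon
    rw [not_le] at hcon
    have h8 : Real.exp (L / 4) ^ 4 < 12 ^ 4 := pow_lt_pow_left₀ hcon (Real.exp_pos _).le (by norm_num)
    have h9 : Real.exp (L / 4) ^ 4 = r := by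
      rw [← Real.exp_nat_mul, ← hexp]
      congr 1
      push_cast
      ring
    rw [h9] at h8
    have h10 : (20736 : ℝ) ≤ r := by exact_mod_cast hr
    norm_num at h8
    linarith
  have h8 : L / 4 ≤ Real.exp (L / 4) := by
    have := Real.add_one_le_exp (L / 4)
    linarith
  have h9 : 3 * L ≤ Real.exp (L / 2) := by
    have h10 : Real.exp (L / 2) = Real.exp (L / 4) * Real.exp (L / 4) := by
      rw [← Real.exp_add]; congr 1; ring
    rw [h10]
    nlinarith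
  have h10 : 1 / (r : ℝ) ^ 3 = Real.exp (-(3 * L)) := by
    rw [Real.exp_neg, one_div]
    congr 1
    rw [← hexp, ← Real.exp_nat_mul]
    norm_num
  rw [h10]
  exact Real.exp_le_exp.2 (by linarith)

theorem law_par_half (r : ℕ) (hr : 1 ≤ r) : (1 / 2 : ℝ) ^ (r ^ 14) ≤ 1 / (r : ℝ) ^ 14 := by
  have h1 : r ^ 14 < 2 ^ (r ^ 14) := Nat.lt_two_pow_self
  have h2 : ((r : ℝ) ^ 14) ≤ 2 ^ (r ^ 14) := by
    have : ((r ^ 14 : ℕ) : ℝ) ≤ ((2 ^ (r ^ 14) : ℕ) : ℝ) := by exact_mod_cast h1.le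
    push_cast at this
    exact this
  have hr0 : (0 : ℝ) < r := by exact_mod_cast hr
  rw [one_div_pow]
  exact one_div_le_one_div_of_le (by positivity) h2

theorem law_par_e1 (r : ℕ) (hr : 1 ≤ r) (A1 : ℝ) (hA : 0 < A1) :
    Real.exp (-((2 * A1 + 10) * Real.log r)) * Real.exp (A1 * Real.log r)
      ≤ 1 / (r : ℝ) ^ 10 := by
  have hr0 : (0 : ℝ) < r := by exact_mod_cast hr
  have hL : 0 ≤ Real.log r := Real.log_nonneg (by exact_mod_cast hr)
  have h10 : 1 / (r : ℝ) ^ 10 = Real.exp (-(10 * Real.log r)) := by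
    rw [Real.exp_neg, one_div]
    congr 1
    conv_lhs => rw [← Real.exp_log hr0, ← Real.exp_nat_mul]
    norm_num
  rw [h10, ← Real.exp_add]
  refine Real.exp_le_exp.2 ?_
  nlinarith [mul_nonneg hA.le hL]

theorem law_par_C (r : ℕ) (hr : 876 ≤ r) :
    (r : ℝ) ^ 2 * 16 ^ (r ^ 14) * Real.exp (22 * Real.log r * (r : ℝ) ^ 12)
      ≤ Real.exp (2.8 * (r : ℝ) ^ 14) := by
  have hr1 : 1 ≤ r := by omega
  have hr0 : (0 : ℝ) < r := by exact_mod_cast hr1
  have hr8 : (876 : ℝ) ≤ r := by exact_mod_cast hr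
  have hL : Real.log r ≤ r := (Real.log_le_sub_one_of_pos hr0).trans (by linarith)
  have hL0 : 0 ≤ Real.log r := Real.log_nonneg (by exact_mod_cast hr1)
  have h1 : (r : ℝ) ^ 2 = Real.exp (2 * Real.log r) := by
    conv_lhs => rw [← Real.exp_log hr0, ← Real.exp_nat_mul]
    norm_num
  have h2 : (16 : ℝ) ^ (r ^ 14) = Real.exp ((r : ℝ) ^ 14 * (4 * Real.log 2)) := by
    have h3 : Real.exp (4 * Real.log 2) = 16 := by
      have h4 : Real.exp (4 * Real.log 2) = Real.exp (Real.log 2) ^ 4 := by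
        rw [← Real.exp_nat_mul]; norm_num
      rw [h4, Real.exp_log (by norm_num)]; norm_num
    have h5 : (r : ℝ) ^ 14 = ((r ^ 14 : ℕ) : ℝ) := by push_cast; ring
    rw [h5, Real.exp_nat_mul, h3]
  rw [h1, h2, ← Real.exp_add, ← Real.exp_add]
  refine Real.exp_le_exp.2 ?_
  have h3 := Real.log_two_lt_d9
  have h12 : (0 : ℝ) < (r : ℝ) ^ 12 := by positivity
  have h13 : (r : ℝ) ≤ (r : ℝ) ^ 13 := by
    calc (r : ℝ) = (r : ℝ) ^ 1 := (pow_one _).symm
      _ ≤ (r : ℝ) ^ 13 := pow_le_pow_right₀ (by exact_mod_cast hr1) (by norm_num)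
  have h4 : 22 * Real.log r * (r : ℝ) ^ 12 ≤ 22 * (r : ℝ) ^ 13 := by
    calc 22 * Real.log r * (r : ℝ) ^ 12 ≤ 22 * r * (r : ℝ) ^ 12 :=
          mul_le_mul_of_nonneg_right (by linarith) h12.le
      _ = 22 * (r : ℝ) ^ 13 := by ring
  have h5 : (r : ℝ) ^ 14 * (4 * Real.log 2) ≤ 2.7725887232 * (r : ℝ) ^ 14 := by
    have h14 : (0 : ℝ) < (r : ℝ) ^ 14 := by positivity
    nlinarith
  have h6 : 876 * (r : ℝ) ^ 13 ≤ (r : ℝ) ^ 14 := by
    have : (r : ℝ) ^ 14 = r * (r : ℝ) ^ 13 := by ring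
    rw [this]
    exact mul_le_mul_of_nonneg_right hr8 (by positivity)
  have h7 : (0 : ℝ) < (r : ℝ) ^ 13 := by positivity
  norm_num at *
  nlinarith

/-- the total mass of the exceptional part -/
theorem law_par_sum (r : ℝ) (hr : 1 ≤ r) (a b b' c P : ℝ) (ha : a ≤ 1 / r ^ 3)
    (hb : b ≤ 1 / r ^ 10) (hb' : b' ≤ 1 / r ^ 10) (hc : c ≤ 1 / r ^ 14) (hP : P ≤ 1 / r ^ 3) :
    a + r * (b + c) + r * (a + r * (P + b' + c)) ≤ 10 / r := by
  have hr0 : 0 < r := by linarith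
  have h : ∀ k l : ℕ, l ≤ k → 1 / r ^ k ≤ 1 / r ^ l := fun k l hkl =>
    one_div_le_one_div_of_le (by positivity) (pow_le_pow_right₀ hr hkl)
  have hb3 := hb.trans (h 10 3 (by norm_num))
  have hb3' := hb'.trans (h 10 3 (by norm_num))
  have hc3 := hc.trans (h 14 3 (by norm_num))
  have h1 : a + r * (b + c) + r * (a + r * (P + b' + c))
      ≤ 1 / r ^ 3 + r * (1 / r ^ 3 + 1 / r ^ 3)
        + r * (1 / r ^ 3 + r * (1 / r ^ 3 + 1 / r ^ 3 + 1 / r ^ 3)) := by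
    gcongr
  refine h1.trans ?_
  have e1 : r * (1 / r ^ 3) = 1 / r ^ 2 := by field_simp
  have e2 : r * (1 / r ^ 2) = 1 / r := by field_simp
  have e3 : 1 / r ^ 3 + r * (1 / r ^ 3 + 1 / r ^ 3)
        + r * (1 / r ^ 3 + r * (1 / r ^ 3 + 1 / r ^ 3 + 1 / r ^ 3))
        = 1 / r ^ 3 + 3 * (1 / r ^ 2) + 3 * (1 / r) := by
    field_simp
    ring
  have e4 := h 3 1 (by norm_num)
  have e5 := h 2 1 (by norm_num)
  rw [pow_one] at e4 e5
  rw [e3]
  have e6 : 10 / r = 10 * (1 / r) := by ring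
  have e7 : 0 < 1 / r := by positivity
  rw [e6]
  linarith

theorem law_par_card {β I : Type} [Fintype I] {w w2 d : ℕ} (S : HSys β I w w2 d) :
    Fintype.card I = w + (w + w2) := by
  rw [← Fintype.card_congr S.e]
  simp [II, Fintype.card_sum]

theorem law_par_Dec_nonneg {β I : Type} [Fintype β] [DecidableEq β] [Fintype I] [DecidableEq I]
    {w w2 d : ℕ} (S : HSys β I w w2 d) (F : Perm (Pos β I d) → ℝ) (y : ℝ)
    (h : Dec S.psi F y) : 0 ≤ y := by
  obtain ⟨n, p, G, h1, -, -, -, h5⟩ := h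
  refine le_trans (Finset.sum_nonneg fun i _ => mul_nonneg (h1 i) ?_) h5
  exact Real.rpow_nonneg (nsq_nonneg _) _

/-- the number of steps -/
theorem law_par_k (r n C : ℕ) (hr : 1 ≤ r) (hn : r ^ 20 ≤ n) :
    ∃ k : ℕ, 1 ≤ k ∧
      102 * (C * n) + r * (102 * qWr r) + 45 * (65538 * r ^ 14 + 1) * ⌈Real.log r⌉₊
        + r * (102 * qWr r) ≤ k * (2 * r ^ 14) ∧
      (k * (4 * r ^ 14) : ℝ) ≤ (204 * C + 20000000 : ℝ) * n := by
  set T := 102 * (C * n) + r * (102 * qWr r) + 45 * (65538 * r ^ 14 + 1) * ⌈Real.log r⌉₊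
        + r * (102 * qWr r) with hT
  have hr0 : (0 : ℝ) < r := by exact_mod_cast hr
  have hr1 : (1 : ℝ) ≤ r := by exact_mod_cast hr
  have h14 : 0 < 2 * r ^ 14 := by positivity
  refine ⟨T / (2 * r ^ 14) + 1, Nat.le_add_left 1 _, ?_, ?_⟩
  · have := Nat.div_add_mod T (2 * r ^ 14)
    have h2 := Nat.mod_lt T h14
    calc T = 2 * r ^ 14 * (T / (2 * r ^ 14)) + T % (2 * r ^ 14) := this.symm
      _ ≤ 2 * r ^ 14 * (T / (2 * r ^ 14)) + 2 * r ^ 14 := by omega
      _ = _ := by ring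
  · have h1 : T / (2 * r ^ 14) * (2 * r ^ 14) ≤ T := Nat.div_mul_le_self T _
    have h2 : ((T / (2 * r ^ 14) + 1 : ℕ) : ℝ) * (4 * (r : ℝ) ^ 14) ≤ 2 * T + 4 * (r : ℝ) ^ 14 := by
      have h3 : ((T / (2 * r ^ 14) * (2 * r ^ 14) : ℕ) : ℝ) ≤ (T : ℝ) := by exact_mod_cast h1
      push_cast at h3 ⊢
      linarith
    refine h2.trans ?_
    have hL : Real.log r ≤ r := (Real.log_le_sub_one_of_pos hr0).trans (by linarith)
    have hL0 : 0 ≤ Real.log r := Real.log_nonneg hr1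
    have hq : (qWr r : ℝ) ≤ 65538 * (r : ℝ) ^ 14 * Real.log r / 204 :=
      Nat.floor_le (div_nonneg (mul_nonneg (mul_nonneg (by norm_num) (pow_nonneg hr0.le _)) hL0)
        (by norm_num))
    have hc : (⌈Real.log r⌉₊ : ℝ) ≤ 2 * r := by
      have := (Nat.ceil_lt_add_one hL0).le
      linarith
    have hn' : (r : ℝ) ^ 20 ≤ n := by exact_mod_cast hn
    have hp : ∀ k ≤ 20, (r : ℝ) ^ k ≤ n := fun k hk =>
      (pow_le_pow_right₀ hr1 hk).trans hn'
    have e1 : (r : ℝ) * (102 * qWr r) ≤ 32769 * n := by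
      calc (r : ℝ) * (102 * qWr r)
          ≤ r * (102 * (65538 * (r : ℝ) ^ 14 * Real.log r / 204)) := by gcongr
        _ = 32769 * ((r : ℝ) ^ 15 * Real.log r) := by ring
        _ ≤ 32769 * ((r : ℝ) ^ 15 * r) := by gcongr
        _ = 32769 * (r : ℝ) ^ 16 := by ring
        _ ≤ 32769 * n := by
            have := hp 16 (by norm_num)
            linarith
    have e2 : 45 * (65538 * (r : ℝ) ^ 14 + 1) * (⌈Real.log r⌉₊ : ℝ) ≤ 5898510 * n := by
      have h4 : 1 ≤ (r : ℝ) ^ 14 := one_le_pow₀ hr1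
      calc 45 * (65538 * (r : ℝ) ^ 14 + 1) * (⌈Real.log r⌉₊ : ℝ)
          ≤ 45 * (65538 * (r : ℝ) ^ 14 + (r : ℝ) ^ 14) * (2 * r) := by gcongr
        _ = 5898510 * (r : ℝ) ^ 15 := by ring
        _ ≤ 5898510 * n := by
            have := hp 15 (by norm_num)
            linarith
    have e3 : (T : ℝ) = 102 * (C * n) + r * (102 * qWr r)
        + 45 * (65538 * (r : ℝ) ^ 14 + 1) * (⌈Real.log r⌉₊ : ℝ) + r * (102 * qWr r) := by
      rw [hT]; push_cast; ring
    have e4 := hp 14 (by norm_num)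
    have hn0 : (0 : ℝ) ≤ n := Nat.cast_nonneg n
    rw [e3]
    have e5 : 2 * (102 * ((C : ℝ) * n) + r * (102 * qWr r)
        + 45 * (65538 * (r : ℝ) ^ 14 + 1) * (⌈Real.log r⌉₊ : ℝ) + r * (102 * qWr r))
        + 4 * (r : ℝ) ^ 14 ≤ 204 * (C * n) + 4 * (32769 * n) + 2 * (5898510 * n) + 4 * n := by
      linarith
    refine e5.trans ?_
    have e6 : 204 * ((C : ℝ) * n) + 4 * (32769 * n) + 2 * (5898510 * n) + 4 * n
        = (204 * C + 11928100) * n := by ring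
    rw [e6]
    refine mul_le_mul_of_nonneg_right ?_ hn0
    linarith

theorem law_par : ∃ C1 : ℝ, ∃ r0 : ℕ, ∀ r ≥ r0, ∀ n d : ℕ, r ^ 20 ≤ n → n < (r + 1) ^ 20 →
    d + 1 ≤ r ^ 7 →
    ∀ (β I : Type) [Fintype β] [DecidableEq β] [Fintype I] [DecidableEq I]
      (S : HSys β I (r ^ 14) (65536 * r ^ 14) d),
      Fintype.card β + 131076 * r ^ 14 + (d + 1) = n →
      MSc (fun j => S.θ (S.e (Sum.inl j))) (fun j => S.θ (S.e (Sum.inr (Sum.inl j)))) 100
        (1 / r) → M8 S.toSys (40 * ⌈Real.log r⌉₊) →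
    ∃ k : ℕ, 1 ≤ k ∧ (k * (4 * r ^ 14) : ℝ) ≤ C1 * n ∧
      ∃ ρ : Perm (Pos β I d) → ℝ, (∀ σ, 0 ≤ ρ σ) ∧ av ρ ≤ 10 / r ∧
        ∀ σ, S.P^[k * (2 * r ^ 14)] (dl (Perm (Pos β I d))) σ
          ≤ Real.exp (2.8 * (r : ℝ) ^ 14) + ρ σ := by
  obtain ⟨C1, A1, hA1, ra, ha⟩ := law_a
  obtain ⟨rb, hb⟩ := law_b (2 * A1 + 10)
  obtain ⟨rc, hc⟩ := law_c
  obtain ⟨rd, hd⟩ := law_d
  refine ⟨204 * C1 + 20000000, max (max ra rb) (max (max rc rd) 20736), ?_⟩
  intro r hr n d hn hn' hd7 β I _ _ _ _ S hcard hMS hM8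
  have hra : ra ≤ r := le_trans (le_trans (le_max_left _ _) (le_max_left _ _)) hr
  have hrb : rb ≤ r := le_trans (le_trans (le_max_right _ _) (le_max_left _ _)) hr
  have hr' : max (max rc rd) 20736 ≤ r := le_trans (le_max_right _ _) hr
  have hrc : rc ≤ r := le_trans (le_trans (le_max_left _ _) (le_max_left _ _)) hr'
  have hrd : rd ≤ r := le_trans (le_trans (le_max_right _ _) (le_max_left _ _)) hr'
  have hrn : 20736 ≤ r := le_trans (le_max_right _ _) hr'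
  have hr1 : 1 ≤ r := by omega
  have hr0 : (0 : ℝ) < r := by exact_mod_cast hr1
  have hr1' : (1 : ℝ) ≤ r := by exact_mod_cast hr1
  have hL0 : 0 ≤ Real.log r := Real.log_nonneg hr1'
  have hI : Fintype.card I = 65538 * r ^ 14 := by
    rw [law_par_card S]; ring
  obtain ⟨hDec, hx'⟩ := ha r hra n d hn hn' hd7 β I S hcard hMS
  have hlb := hb r hrb n d hn hn' hd7 β I S hcard hMS
  have hlc := hc r hrc n d hn hn' hd7 β I S.toSys hcard hI hM8
  have hld := hd r hrd n d hn hn' hd7 β I hcard hI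
  obtain ⟨k, hk1, hk2, hk3⟩ := law_par_k r n C1 hr1 hn
  have hw : 1 ≤ r ^ 14 := Nat.one_le_pow _ _ hr1
  have : Nonempty I := ⟨S.e (Sum.inl ⟨0, hw⟩)⟩
  have hst := stage1 S hw r (102 * qWr r) (45 * (65538 * r ^ 14 + 1) * ⌈Real.log r⌉₊)
    (102 * (C1 * n)) (r ^ 12) (Fintype.card I + 1) rfl (Real.exp (A1 * Real.log r))
    (16 * ((Fintype.card (Pos β I d) : ℝ) ^ Fintype.card (Out I d)) ^ ((1 : ℝ) / (r ^ 14 : ℕ)))
    (Real.exp (-((2 * A1 + 10) * Real.log r))) ((1 / 2) ^ (r ^ 14)) (1 / (r : ℝ) ^ 3)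
    (Real.exp (22 * Real.log r * (r : ℝ) ^ 12)) (Real.exp_pos _).le
    (pow_nonneg (by norm_num) _) (Real.exp_pos _).le (one_div_nonneg.2 (pow_nonneg hr0.le _))
    (Real.exp_pos _).le rfl
    (fun F y hF hy => hlb F y (law_par_Dec_nonneg S F y hy) hF hy)
    (fun i _ => by
      have e1 : 102 * (C1 * n) + i * (102 * qWr r) = 102 * (C1 * n + i * qWr r) := by ring
      rw [e1]
      exact hDec _ (Nat.le_add_right _ _))
    hlc hld
  obtain ⟨ρ, g1, g2, g3⟩ := hst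
  have hB : t16_B (S.P^[102 * (C1 * n) + r * (102 * qWr r)
      + 45 * (65538 * r ^ 14 + 1) * ⌈Real.log r⌉₊ + r * (102 * qWr r)]
      (dl (Perm (Pos β I d)))) (Real.exp (2.8 * (r : ℝ) ^ 14)) (10 / r) := by
    refine t16_B_mono' ⟨ρ, g1, g2, g3⟩ (law_par_C r (by omega)) ?_
    have hcI : (0 : ℝ) < Fintype.card I := by exact_mod_cast Fintype.card_pos
    refine law_par_sum r hr1' _ _ _ _ _ ?_ ?_ ?_ (law_par_half r hr1) le_rfl
    · refine law_par_win r hrn (Fintype.card I) hcI _ ?_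
      have hq : (qWr r : ℝ) ≤ 65538 * (r : ℝ) ^ 14 * Real.log r / 204 :=
        Nat.floor_le (div_nonneg (mul_nonneg (mul_nonneg (by norm_num) (pow_nonneg hr0.le _)) hL0)
        (by norm_num))
      rw [hI]
      push_cast
      linarith
    · exact law_par_e1 r hr1 A1 hA1
    · exact (mul_le_mul_of_nonneg_left hx' (Real.exp_pos _).le).trans
        (law_par_e1 r hr1 A1 hA1)
  refine ⟨k, hk1, hk3, ?_⟩
  obtain ⟨e, he⟩ := Nat.exists_eq_add_of_le hk2
  rw [he, add_comm _ e, Function.iterate_add_apply]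
  exact t16_B_iter S.gl hB e

end Pool.Agent.H9.Low
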