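import Pool.Agent.H9.Low.T27cM
import Pool.Agent.H9.Low.T27a
import Pool.Agent.H9.Low.law_par
import Pool.Agent.H9.Low.dim_par

/-!
# The upper bound for one `n`
-/

namespace Pool.Agent.H9.Low

open Equiv Finset

theorem upper_par : ∃ A C1 : ℝ, ∃ r0 : ℕ, ∀ r ≥ r0, ∀ n d : ℕ, r ^ 20 ≤ n →
    n < (r + 1) ^ 20 → d + 1 ≤ r ^ 7 →
    ∃ (β I : Type) (_ : Fintype β) (_ : DecidableEq β) (_ : Fintype I) (_ : DecidableEq I)
      (S : HSys β I (r ^ 14) (65536 * r ^ 14) d),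
      Fintype.card β + 131076 * r ^ 14 + (d + 1) = n ∧
      ∀ η : ℝ, 0 < η → η < 1 → ∀ t : ℕ, C1 * n ≤ t →
        (1 + 3 * η) * (65538 * r ^ 14 + 1) * (d + 1) + r ^ 16 ≤ t →
        av (fun σ => |S.P^[t] (dl (Perm (Pos β I d))) σ - 1|)
          ≤ A * (1 / r + (d + 1) * Real.exp (-(η * (d + 1) / 12))
              + Real.exp (-(η ^ 2 * (d + 1) / 2)) / η) :=
  upper_of ex_par law_par dim_par

end Pool.Agent.H9.Low
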