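import Pool.Agent.H9.Low.T27cN

/-!
# The upper bound for one `n`: the parameters
-/

namespace Pool.Agent.H9.Low

namespace T27c

open T27cN

/-- the numbers of windows -/
theorem params {x L m q b N η n Cl t : ℝ} {k : ℕ} (hx10 : 10 ^ 10 ≤ x) (hL : L = Real.log x)
    (hL0 : 0 ≤ L) (hLx : L ≤ x) (hClx : Cl ≤ x) (hn0 : 0 ≤ n) (s1 : n ≤ 2 * x ^ 20)
    (s2 : x ^ 20 ≤ n) (hm : m = 65538 * x ^ 14 + 1) (hq : q = 4 * x ^ 14 / m) (hb1 : 1 ≤ b)
    (hb7 : b ≤ x ^ 7) (s4 : x ^ 20 / 2 ≤ N) (s5 : N ≤ n) (hη : 0 < η) (hη1 : η < 1)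
    (hk2 : k * (4 * x ^ 14) ≤ Cl * n) (ht1 : (Cl + 1) * n ≤ t)
    (ht2 : (1 + 3 * η) * m * b + x ^ 16 ≤ t) :
    ∃ r2 r3 r4 R : ℕ, Real.log (4 * N) ≤ q / 12 * r2 ∧ (1 + 2 * η) * m * b ≤ r3 * (4 * x ^ 14) ∧
      η * b / 12 ≤ q / 12 * r4 ∧ 12 / q * (30 * L) + 2 ≤ R ∧ r2 + r3 + r4 ≤ k + R ∧
      ((k + R : ℕ) : ℝ) ≤ x ^ 8 ∧ (R : ℝ) ≤ x ^ 8 ∧ (k : ℝ) ≤ x ^ 8 ∧
      ((k + R : ℕ) : ℝ) * (4 * x ^ 14) ≤ t := by
  have hx1 : 1 ≤ x := by linarith
  have hx0 : 0 < x := by linarith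
  obtain ⟨q1, q2⟩ := q_bounds hx1 hm hq
  have hq0 : 0 < q := lt_of_lt_of_le (by norm_num) q1
  have hm0 : 0 < m := by rw [hm]; positivity
  have hx14 : 1 ≤ x ^ 14 := one_le_pow₀ hx1
  have hN0 : 0 < N := lt_of_lt_of_le (by positivity) s4
  have hlogN : Real.log (4 * N) ≤ 21 * L := by
    have e1 : 4 * N ≤ x ^ 21 := by
      have : 8 * x ^ 20 ≤ x * x ^ 20 := mul_le_mul_of_nonneg_right (by linarith) (by positivity)
      have e : x * x ^ 20 = x ^ 21 := by ring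
      linarith
    calc Real.log (4 * N) ≤ Real.log (x ^ 21) := Real.log_le_log (by positivity) e1
      _ = 21 * L := by rw [Real.log_pow, hL]; norm_num
  have hlogN0 : 0 ≤ Real.log (4 * N) := by
    apply Real.log_nonneg
    have : 1 ≤ x ^ 20 := one_le_pow₀ hx1
    linarith
  have hqi : 12 / q ≤ 196620 := by
    rw [div_le_iff₀ hq0]
    linarith
  have hqi0 : 0 < 12 / q := by positivity
  obtain ⟨r2, hr2'⟩ : ∃ r2 : ℕ, r2 = ⌈12 / q * Real.log (4 * N)⌉₊ := ⟨_, rfl⟩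
  obtain ⟨r3, hr3'⟩ : ∃ r3 : ℕ, r3 = ⌈(1 + 2 * η) * b / q⌉₊ := ⟨_, rfl⟩
  obtain ⟨r4, hr4'⟩ : ∃ r4 : ℕ, r4 = ⌈η * b / q⌉₊ := ⟨_, rfl⟩
  obtain ⟨Rm, hRm⟩ : ∃ Rm : ℕ, Rm = ⌈12 / q * (30 * L)⌉₊ + 2 := ⟨_, rfl⟩
  -- lower bounds
  have l2 : Real.log (4 * N) ≤ q / 12 * r2 := by
    have e1 : 12 / q * Real.log (4 * N) ≤ r2 := by rw [hr2']; exact Nat.le_ceil _
    have e2 : q / 12 * (12 / q * Real.log (4 * N)) ≤ q / 12 * r2 :=
      mul_le_mul_of_nonneg_left e1 (by positivity)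
    have e3 : q / 12 * (12 / q * Real.log (4 * N)) = Real.log (4 * N) := by field_simp
    linarith
  have hqm : q * m = 4 * x ^ 14 := by rw [hq]; field_simp
  have l3 : (1 + 2 * η) * m * b ≤ r3 * (4 * x ^ 14) := by
    have e1 : (1 + 2 * η) * b / q ≤ r3 := by rw [hr3']; exact Nat.le_ceil _
    rw [div_le_iff₀ hq0] at e1
    have e2 : (1 + 2 * η) * b * m ≤ r3 * q * m := mul_le_mul_of_nonneg_right e1 hm0.le
    have e3 : (r3 : ℝ) * q * m = r3 * (4 * x ^ 14) := by rw [← hqm]; ring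
    linarith
  have l4 : η * b / 12 ≤ q / 12 * r4 := by
    have e1 : η * b / q ≤ r4 := by rw [hr4']; exact Nat.le_ceil _
    rw [div_le_iff₀ hq0] at e1
    linarith
  have lm : 12 / q * (30 * L) + 2 ≤ Rm := by
    have e1 : 12 / q * (30 * L) ≤ (⌈12 / q * (30 * L)⌉₊ : ℝ) := Nat.le_ceil _
    rw [hRm]
    push_cast
    linarith
  -- upper bounds
  have u2 : (r2 : ℝ) ≤ 5000000 * x := by
    have e1 : (r2 : ℝ) < 12 / q * Real.log (4 * N) + 1 := by
      rw [hr2']; exact Nat.ceil_lt_add_one (by positivity)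
    have e2 : 12 / q * Real.log (4 * N) ≤ 196620 * (21 * x) :=
      mul_le_mul hqi (by linarith) hlogN0 (by norm_num)
    linarith
  have u3 : (r3 : ℝ) ≤ (1 + 2 * η) * b / q + 1 := by
    rw [hr3']; exact (Nat.ceil_lt_add_one (by positivity)).le
  have u4 : (r4 : ℝ) ≤ η * b / q + 1 := by
    rw [hr4']; exact (Nat.ceil_lt_add_one (by positivity)).le
  have um : (Rm : ℝ) ≤ 6000000 * x := by
    have e1 : (⌈12 / q * (30 * L)⌉₊ : ℝ) < 12 / q * (30 * L) + 1 :=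
      Nat.ceil_lt_add_one (by positivity)
    have e2 : 12 / q * (30 * L) ≤ 196620 * (30 * x) :=
      mul_le_mul hqi (by linarith) (by linarith) (by norm_num)
    rw [hRm]
    push_cast
    linarith
  have hbq : b / q ≤ 16385 * x ^ 7 := by
    rw [div_le_iff₀ hq0]
    have e1 : (1 : ℝ) ≤ 16385 * q := by linarith
    have e2 : x ^ 7 * 1 ≤ x ^ 7 * (16385 * q) := mul_le_mul_of_nonneg_left e1 (by positivity)
    linarith
  have hbq0 : 0 ≤ b / q := by positivity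
  have u3' : (r3 : ℝ) ≤ 49155 * x ^ 7 + 1 := by
    have e1 : (1 + 2 * η) * b / q = (1 + 2 * η) * (b / q) := by ring
    have e2 : (1 + 2 * η) * (b / q) ≤ 3 * (16385 * x ^ 7) :=
      mul_le_mul (by linarith) hbq hbq0 (by norm_num)
    linarith
  have u4' : (r4 : ℝ) ≤ 16385 * x ^ 7 + 1 := by
    have e1 : η * b / q = η * (b / q) := by ring
    have e2 : η * (b / q) ≤ 1 * (16385 * x ^ 7) :=
      mul_le_mul hη1.le hbq hbq0 (by norm_num)
    linarith
  have uk : (k : ℝ) ≤ x ^ 7 / 2 := by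
    have e1 : Cl * n ≤ x * (2 * x ^ 20) := by
      calc Cl * n ≤ x * n := mul_le_mul_of_nonneg_right hClx hn0
        _ ≤ x * (2 * x ^ 20) := mul_le_mul_of_nonneg_left s1 hx0.le
    have e2 : (k : ℝ) * (4 * x ^ 14) ≤ x ^ 7 / 2 * (4 * x ^ 14) := by
      have : x ^ 7 / 2 * (4 * x ^ 14) = x * (2 * x ^ 20) := by ring
      linarith
    exact le_of_mul_le_mul_right e2 (by positivity)
  obtain ⟨R, hR⟩ : ∃ R : ℕ, R = max Rm (r2 + r3 + r4 - k) := ⟨_, rfl⟩
  have hRRm : Rm ≤ R := by rw [hR]; exact le_max_left _ _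
  have hRs : r2 + r3 + r4 ≤ k + R := by
    have : r2 + r3 + r4 - k ≤ R := by rw [hR]; exact le_max_right _ _
    omega
  have hcase : R = Rm ∨ k + R = r2 + r3 + r4 := by
    rcases le_total (r2 + r3 + r4 - k) Rm with h | h
    · left; rw [hR]; exact max_eq_left h
    · right
      have e1 : R = r2 + r3 + r4 - k := by rw [hR]; exact max_eq_right h
      have : 2 ≤ Rm := by omega
      omega
  have hx78 : 65542 * x ^ 7 ≤ x ^ 8 := by
    have e1 : 65542 * x ^ 7 ≤ x * x ^ 7 := mul_le_mul_of_nonneg_right (by linarith) (by positivity)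
    have e2 : x * x ^ 7 = x ^ 8 := by ring
    linarith
  have hx7 : 10 ^ 10 * x ≤ x ^ 7 := by
    have e1 : (1 : ℝ) ≤ x ^ 5 := one_le_pow₀ hx1
    calc (10 : ℝ) ^ 10 * x ≤ x * x := mul_le_mul_of_nonneg_right hx10 hx0.le
      _ = x * x * 1 := by ring
      _ ≤ x * x * x ^ 5 := mul_le_mul_of_nonneg_left e1 (by positivity)
      _ = x ^ 7 := by ring
  have hK8 : ((k + R : ℕ) : ℝ) ≤ x ^ 8 := by
    rcases hcase with h | h
    · rw [h]
      push_cast
      linarith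
    · rw [h]
      push_cast
      linarith
  have hR8 : (R : ℝ) ≤ x ^ 8 := by
    have : (R : ℝ) ≤ ((k + R : ℕ) : ℝ) := by exact_mod_cast (by omega : R ≤ k + R)
    linarith
  have hk8 : (k : ℝ) ≤ x ^ 8 := by
    have : (k : ℝ) ≤ ((k + R : ℕ) : ℝ) := by exact_mod_cast (by omega : k ≤ k + R)
    linarith
  -- the time condition
  have htime : ((k + R : ℕ) : ℝ) * (4 * x ^ 14) ≤ t := by
    rcases hcase with h | h
    · rw [h]
      refine le_trans ?_ ht1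
      push_cast
      have e2 : (Rm : ℝ) * (4 * x ^ 14) ≤ 6000000 * x * (4 * x ^ 14) :=
        mul_le_mul_of_nonneg_right um (by positivity)
      have e3 : 6000000 * x * (4 * x ^ 14) = 24000000 * x ^ 15 := by ring
      have e4 : 24000000 * x ^ 15 ≤ x ^ 5 * x ^ 15 := by
        apply mul_le_mul_of_nonneg_right _ (by positivity)
        calc (24000000 : ℝ) ≤ x := by linarith
          _ = x ^ 1 := (pow_one x).symm
          _ ≤ x ^ 5 := pow_le_pow_right₀ hx1 (by norm_num)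
      have e5 : x ^ 5 * x ^ 15 = x ^ 20 := by ring
      linarith
    · rw [h]
      refine le_trans ?_ ht2
      push_cast
      have e2 : (r2 : ℝ) * (4 * x ^ 14) ≤ 5000000 * x * (4 * x ^ 14) :=
        mul_le_mul_of_nonneg_right u2 (by positivity)
      have e3 : (r3 : ℝ) * (4 * x ^ 14) ≤ ((1 + 2 * η) * b / q + 1) * (4 * x ^ 14) :=
        mul_le_mul_of_nonneg_right u3 (by positivity)
      have e4 : (r4 : ℝ) * (4 * x ^ 14) ≤ (η * b / q + 1) * (4 * x ^ 14) :=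
        mul_le_mul_of_nonneg_right u4 (by positivity)
      have e5 : ((1 + 2 * η) * b / q + 1) * (4 * x ^ 14) =
          (1 + 2 * η) * m * b + 4 * x ^ 14 := by
        rw [← hqm]; field_simp
      have e6 : (η * b / q + 1) * (4 * x ^ 14) = η * m * b + 4 * x ^ 14 := by
        rw [← hqm]; field_simp
      have e7 : 5000000 * x * (4 * x ^ 14) = 20000000 * x ^ 15 := by ring
      have e8 : 10 ^ 10 * x ^ 15 ≤ x * x ^ 15 :=
        mul_le_mul_of_nonneg_right hx10 (by positivity)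
      have e9 : x * x ^ 15 = x ^ 16 := by ring
      have e10 : x ^ 14 ≤ x ^ 15 := pow_le_pow_right₀ hx1 (by norm_num)
      have e11 : 0 ≤ x ^ 14 := by positivity
      linarith
  have hRmR : (Rm : ℝ) ≤ R := by exact_mod_cast hRRm
  exact ⟨r2, r3, r4, R, l2, l3, l4, by linarith, hRs, hK8, hR8, hk8, htime⟩

end T27c

end Pool.Agent.H9.Low
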