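import Pool.Agent.H9.Low.Defs2
import Pool.Agent.H9.Low.T17a

/-!
# Contraction of the walk without `c` for functions on tuples of positions
-/

namespace Pool.Agent.H9.Low

open Equiv Finset

section restr

variable {X : Type} [Fintype X] [DecidableEq X] {J J0 : ℕ}

omit [Fintype X] [DecidableEq X] in
/-- any two tuples differ by a permutation -/
theorem x1_trans (y y' : Fin J ↪ X) : ∃ τ : Perm X, y' = y.trans τ.toEmbedding := by
  obtain ⟨τ, hτ⟩ := (MulAction.isMultiplyPretransitive_iff (G := Perm X) (α := X) (n := J)).1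
    (Equiv.Perm.isMultiplyPretransitive X J) y y'
  refine ⟨τ, ?_⟩
  rw [← hτ]
  ext j
  rfl

/-- the average over the restrictions of the tuples -/
theorem x1_av_restr (hJ : J ≤ J0) (hc : J0 ≤ Fintype.card X) (f : (Fin J ↪ X) → ℝ) :
    av (fun x : Fin J0 ↪ X => f ((Fin.castLEEmb hJ).trans x)) = av f := by
  set F : (Fin J ↪ X) → ℝ := fun y => av fun σ : Perm X => f (y.trans σ.toEmbedding) with hF
  have hconst : ∀ y y' : Fin J ↪ X, F y' = F y := by
    intro y y'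
    obtain ⟨τ, hτ⟩ := x1_trans y y'
    have h1 : F y' = av fun σ : Perm X =>
        (fun σ : Perm X => f (y.trans σ.toEmbedding)) (σ * τ) := by
      rw [hF]
      refine congrArg av (funext fun σ => ?_)
      rw [hτ, t17a_trans]
    rw [h1]
    exact av_mulRight τ (fun σ : Perm X => f (y.trans σ.toEmbedding))
  have hne0 : Nonempty (Fin J0 ↪ X) :=
    Function.Embedding.nonempty_of_card_le (by rw [Fintype.card_fin]; exact hc)
  obtain ⟨x0⟩ := hne0
  have hne : Nonempty (Fin J ↪ X) := ⟨(Fin.castLEEmb hJ).trans x0⟩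
  have hne0' : Nonempty (Fin J0 ↪ X) := ⟨x0⟩
  have hF1 : av F = av f := by
    rw [hF, av_comm]
    have h2 : (fun σ : Perm X => av fun y : Fin J ↪ X => f (y.trans σ.toEmbedding)) =
        fun _ => av f := funext fun σ => t17a_av_tr σ f
    rw [h2, av_const]
  have hF2 : ∀ y, F y = av f := by
    intro y
    rw [← hF1]
    have h3 : F = fun _ => F y := funext fun y' => hconst y y'
    calc F y = av (fun _ : Fin J ↪ X => F y) := (av_const (F y)).symm
      _ = av F := by rw [← h3]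
  have h4 : av (fun x : Fin J0 ↪ X => f ((Fin.castLEEmb hJ).trans x)) =
      av fun σ : Perm X => av fun x : Fin J0 ↪ X =>
        f ((Fin.castLEEmb hJ).trans (x.trans σ.toEmbedding)) := by
    have h5 : (fun σ : Perm X => av fun x : Fin J0 ↪ X =>
        f ((Fin.castLEEmb hJ).trans (x.trans σ.toEmbedding))) =
        fun _ => av (fun x : Fin J0 ↪ X => f ((Fin.castLEEmb hJ).trans x)) :=
      funext fun σ => t17a_av_tr σ (fun x : Fin J0 ↪ X => f ((Fin.castLEEmb hJ).trans x))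
    rw [h5, av_const]
  rw [h4, av_comm]
  have h6 : (fun x : Fin J0 ↪ X => av fun σ : Perm X =>
      f ((Fin.castLEEmb hJ).trans (x.trans σ.toEmbedding))) = fun _ => av f :=
    funext fun x => hF2 ((Fin.castLEEmb hJ).trans x)
  rw [h6, av_const]

end restr

section tup

variable {β I : Type} [Fintype β] [DecidableEq β] [Fintype I] [DecidableEq I] {w w2 d : ℕ}

omit [DecidableEq I] [Fintype I] in
theorem x1_EHt_inv {J : ℕ} (φ : (Fin J ↪ Pos β I d) → ℝ) (x : Fin J ↪ Pos β I d)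
    (h : Perm β) : EHt φ (x.trans (inlP β (Out I d) h).toEmbedding) = EHt φ x := by
  unfold EHt
  rw [← av_mulRight h (fun k : Perm β => φ (x.trans (inlP β (Out I d) k).toEmbedding))]
  refine congrArg av (funext fun k => ?_)
  rw [t17a_trans, map_mul]

omit [DecidableEq I] [Fintype I] in
theorem x1_EHt_idem {J : ℕ} (φ : (Fin J ↪ Pos β I d) → ℝ) (x : Fin J ↪ Pos β I d) :
    EHt (EHt φ) x = EHt φ x := by
  have h1 : EHt (EHt φ) x =
      av fun h : Perm β => EHt φ (x.trans (inlP β (Out I d) h).toEmbedding) := rfl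
  rw [h1]
  simp only [x1_EHt_inv]
  exact av_const _

/-- the part without bulk average -/
noncomputable def x1_D {J : ℕ} (φ : (Fin J ↪ Pos β I d) → ℝ) : (Fin J ↪ Pos β I d) → ℝ :=
  fun x => φ x - EHt φ x

omit [DecidableEq I] [Fintype I] in
theorem x1_EHt_D {J : ℕ} (φ : (Fin J ↪ Pos β I d) → ℝ) (x : Fin J ↪ Pos β I d) :
    EHt (x1_D φ) x = 0 := by
  have h1 : EHt (x1_D φ) x = av fun h : Perm β =>
      φ (x.trans (inlP β (Out I d) h).toEmbedding) -
        EHt φ (x.trans (inlP β (Out I d) h).toEmbedding) := rfl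
  rw [h1, av_sub]
  simp only [x1_EHt_inv]
  rw [av_const]
  exact sub_self _

/-- the letters commute with the bulk average -/
theorem x1_EHt_Qo (S : Sys β I d) {J : ℕ} (φ : (Fin J ↪ Pos β I d) → ℝ)
    (x : Fin J ↪ Pos β I d) : EHt (Qo S φ) x = Qo S (EHt φ) x := by
  have h1 : EHt (Qo S φ) x = av fun i : I => av fun h : Perm β =>
      φ ((x.trans (inlP β (Out I d) h).toEmbedding).trans (S.g i).toEmbedding) := by
    rw [av_comm]
    rfl
  have h2 : Qo S (EHt φ) x = av fun i : I => av fun h : Perm β =>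
      φ ((x.trans (S.g i).toEmbedding).trans (inlP β (Out I d) h).toEmbedding) := rfl
  rw [h1, h2]
  refine congrArg av (funext fun i => ?_)
  rw [← av_comp_equiv (MulAut.conj (S.θ i)).toEquiv (fun h : Perm β =>
      φ ((x.trans (S.g i).toEmbedding).trans (inlP β (Out I d) h).toEmbedding))]
  refine congrArg av (funext fun h => ?_)
  simp only [MulEquiv.toEquiv_eq_coe, MulEquiv.coe_toEquiv, MulAut.conj_apply]
  rw [t17a_trans, t17a_trans, t17a_conj]

theorem x1_D_Qo (S : Sys β I d) {J : ℕ} (φ : (Fin J ↪ Pos β I d) → ℝ) :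
    x1_D (Qo S φ) = Qo S (x1_D φ) := by
  funext x
  have h1 : Qo S (x1_D φ) x = Qo S φ x - Qo S (EHt φ) x := by
    have h2 : Qo S (x1_D φ) x = av fun i : I =>
        φ (x.trans (S.g i).toEmbedding) - EHt φ (x.trans (S.g i).toEmbedding) := rfl
    rw [h2, av_sub]
    rfl
  rw [h1, ← x1_EHt_Qo]
  rfl

omit [DecidableEq I] in
theorem x1_D_le {J : ℕ} (φ : (Fin J ↪ Pos β I d) → ℝ) : nsq (x1_D φ) ≤ nsq φ := by
  classical
  have h := t17a_P_le (t17a_one (Pos β I d)) (fun g => by change (1 : ℝ) * 1 = 1; norm_num) φ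
  refine le_trans (le_of_eq ?_) h
  refine congrArg nsq (funext fun x => ?_)
  have h5 : t17a_B (t17a_one (Pos β I d)) (fun h : Perm β => inlP β (Out I d) h) φ x
      = EHt φ x := by
    unfold t17a_B EHt
    rw [← av_inv]
    refine congrArg av (funext fun h => ?_)
    change (1 : ℝ) * _ = _
    rw [one_mul]
    rfl
  rw [h5]
  rfl

/-- the norm bound for the letters `B2` on shorter tuples -/
theorem x1_B2 (S : HSys β I w w2 d) (J0 : ℕ) (hN : N3 S J0) (J : ℕ) (hJ : J ≤ J0)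
    (hJ0 : J0 ≤ Fintype.card (Pos β I d)) (ψ : (Fin J ↪ Pos β I d) → ℝ)
    (hE : ∀ x, EHt ψ x = 0) :
    nsq (fun x : Fin J ↪ Pos β I d => av fun k : Fin w2 => ψ (x.trans (S.B2 k).toEmbedding))
      ≤ 1 / 16 * nsq ψ := by
  have h := (hN (fun x : Fin J0 ↪ Pos β I d => ψ ((Fin.castLEEmb hJ).trans x))).1
  have hE' : ∀ y : Fin J0 ↪ Pos β I d,
      EHt (fun x : Fin J0 ↪ Pos β I d => ψ ((Fin.castLEEmb hJ).trans x)) y = 0 := fun y =>
    hE ((Fin.castLEEmb hJ).trans y)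
  simp only [hE', sub_zero] at h
  have e1 : nsq (fun x : Fin J0 ↪ Pos β I d => av fun k : Fin w2 =>
      ψ ((Fin.castLEEmb hJ).trans (x.trans (S.B2 k).toEmbedding))) =
      nsq (fun x : Fin J ↪ Pos β I d => av fun k : Fin w2 => ψ (x.trans (S.B2 k).toEmbedding)) :=
    x1_av_restr hJ hJ0 (fun x : Fin J ↪ Pos β I d =>
      (av fun k : Fin w2 => ψ (x.trans (S.B2 k).toEmbedding)) ^ 2)
  have e2 : nsq (fun x : Fin J0 ↪ Pos β I d => ψ ((Fin.castLEEmb hJ).trans x)) = nsq ψ :=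
    x1_av_restr hJ hJ0 (fun x : Fin J ↪ Pos β I d => ψ x ^ 2)
  rw [e1, e2] at h
  exact h

/-- one step -/
theorem x1_step (S : HSys β I w w2 d) (J0 : ℕ) (hN : N3 S J0) (hw : 8 * w ≤ w2)
    (hw1 : 1 ≤ w) (J : ℕ) (hJ : J ≤ J0) (hJ0 : J0 ≤ Fintype.card (Pos β I d))
    (ψ : (Fin J ↪ Pos β I d) → ℝ) (hE : ∀ x, EHt ψ x = 0) :
    nsq (Qo S.toSys ψ) ≤ 1 / 4 * nsq ψ :=
  t17a_split hw1 hw S.e (fun i (x : Fin J ↪ Pos β I d) => ψ (x.trans (S.g i).toEmbedding))
    (nsq ψ) (nsq_nonneg _)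
    (fun i => le_of_eq (t17a_av_tr (S.g i) (fun x : Fin J ↪ Pos β I d => ψ x ^ 2)))
    (x1_B2 S J0 hN J hJ hJ0 ψ hE)

theorem tup_alpha (S : HSys β I w w2 d) (J0 : ℕ) (hN : N3 S J0) (hw : 8 * w ≤ w2)
    (hw1 : 1 ≤ w) (J : ℕ) (hJ : J ≤ J0) (hJ0 : J0 ≤ Fintype.card (Pos β I d)) (t : ℕ)
    (φ : (Fin J ↪ Pos β I d) → ℝ) :
    nsq (fun x => (Qo S.toSys)^[t] φ x - EHt ((Qo S.toSys)^[t] φ) x)
      ≤ (1 / 4) ^ t * nsq φ := by
  change nsq (x1_D ((Qo S.toSys)^[t] φ)) ≤ (1 / 4) ^ t * nsq φ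
  induction t with
  | zero =>
    rw [Function.iterate_zero, pow_zero, one_mul]
    exact x1_D_le φ
  | succ t ih =>
    rw [Function.iterate_succ_apply', x1_D_Qo]
    refine (x1_step S J0 hN hw hw1 J hJ hJ0 _ (fun x => x1_EHt_D _ x)).trans ?_
    calc 1 / 4 * nsq (x1_D ((Qo S.toSys)^[t] φ)) ≤ 1 / 4 * ((1 / 4) ^ t * nsq φ) :=
          mul_le_mul_of_nonneg_left ih (by norm_num)
      _ = (1 / 4) ^ (t + 1) * nsq φ := by rw [pow_succ]; ring

/-- a value is at most the norm times the square root of the size of the space -/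
theorem x1_val {E : Type} [Fintype E] (G : E → ℝ) (x : E) :
    G x ^ 2 ≤ (Fintype.card E : ℝ) * nsq G := by
  have hc : (Fintype.card E : ℝ) ≠ 0 := by
    have : 0 < Fintype.card E := Fintype.card_pos_iff.2 ⟨x⟩
    exact_mod_cast this.ne'
  unfold nsq av
  rw [mul_div_cancel₀ _ hc]
  exact Finset.single_le_sum (f := fun y => G y ^ 2) (fun y _ => sq_nonneg _)
    (Finset.mem_univ x)

theorem tup_sup (S : HSys β I w w2 d) (J0 : ℕ) (hN : N3 S J0) (hw : 8 * w ≤ w2)
    (hw1 : 1 ≤ w) (J : ℕ) (hJ : J ≤ J0) (hJ0 : J0 ≤ Fintype.card (Pos β I d)) (t : ℕ)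
    (φ : (Fin J ↪ Pos β I d) → ℝ) (hφ : ∀ y, |φ y| ≤ 1) (x : Fin J ↪ Pos β I d) :
    |(Qo S.toSys)^[t] φ x - EHt ((Qo S.toSys)^[t] φ) x|
      ≤ √((Fintype.card (Pos β I d) : ℝ) ^ J) * (1 / 2) ^ t := by
  have h1 := tup_alpha S J0 hN hw hw1 J hJ hJ0 t φ
  have h2 := x1_val (fun x => (Qo S.toSys)^[t] φ x - EHt ((Qo S.toSys)^[t] φ) x) x
  have h3 : nsq φ ≤ 1 := by
    have : Nonempty (Fin J ↪ Pos β I d) := ⟨x⟩
    refine av_le_const fun y => ?_
    have h4 := hφ y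
    rw [← sq_abs]
    have h5 := abs_nonneg (φ y)
    nlinarith
  have h6 : (Fintype.card (Fin J ↪ Pos β I d) : ℝ) ≤ (Fintype.card (Pos β I d) : ℝ) ^ J := by
    have h7 : Fintype.card (Fin J ↪ Pos β I d) ≤ Fintype.card (Pos β I d) ^ J := by
      have h8 := Fintype.card_le_of_injective
        (fun (e : Fin J ↪ Pos β I d) => (e : Fin J → Pos β I d)) DFunLike.coe_injective
      rwa [Fintype.card_fun, Fintype.card_fin] at h8
    exact_mod_cast h7
  have h9 : ((Qo S.toSys)^[t] φ x - EHt ((Qo S.toSys)^[t] φ) x) ^ 2 ≤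
      (Fintype.card (Pos β I d) : ℝ) ^ J * (1 / 4) ^ t := by
    refine h2.trans ?_
    have h10 : nsq (fun x => (Qo S.toSys)^[t] φ x - EHt ((Qo S.toSys)^[t] φ) x) ≤
        (1 / 4) ^ t := by
      refine h1.trans ?_
      calc (1 / 4 : ℝ) ^ t * nsq φ ≤ (1 / 4) ^ t * 1 :=
            mul_le_mul_of_nonneg_left h3 (by positivity)
        _ = (1 / 4) ^ t := mul_one _
    exact mul_le_mul h6 h10 (nsq_nonneg _) (by positivity)
  have h11 : |(Qo S.toSys)^[t] φ x - EHt ((Qo S.toSys)^[t] φ) x| ≤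
      √((Fintype.card (Pos β I d) : ℝ) ^ J * (1 / 4) ^ t) := Real.abs_le_sqrt h9
  refine h11.trans (le_of_eq ?_)
  rw [Real.sqrt_mul (by positivity)]
  congr 1
  rw [show (1 / 4 : ℝ) = (1 / 2) ^ 2 by norm_num, ← pow_mul, mul_comm, pow_mul]
  exact Real.sqrt_sq (by positivity)

end tup

end Pool.Agent.H9.Low
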