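import Pool.Agent.H9.Low.Defs2

/-!
# Closeness of the marginals of the walk and of the modified walk
-/

namespace Pool.Agent.H9.Low

open Equiv Finset

variable {β I : Type} [Fintype β] [DecidableEq β] [Fintype I] [DecidableEq I] {w w2 d : ℕ}

/-- the marginal of `F` at the tuple `x`, tested against `ψ` -/
noncomputable def x2_M {X : Type} [Fintype X] [DecidableEq X] {J : ℕ} (F : Perm X → ℝ)
    (ψ : (Fin J ↪ X) → ℝ) (x : Fin J ↪ X) : ℝ :=
  av fun σ : Perm X => F σ * ψ (x.trans σ.toEmbedding)

theorem x2_trans_mul {X : Type} {J : ℕ} (x : Fin J ↪ X) (g σ : Perm X) :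
    x.trans (σ * g).toEmbedding = (x.trans g.toEmbedding).trans σ.toEmbedding := by
  ext j; rfl

theorem x2_M_sub {X : Type} [Fintype X] [DecidableEq X] {J : ℕ} (F G : Perm X → ℝ)
    (ψ : (Fin J ↪ X) → ℝ) (x : Fin J ↪ X) :
    (av fun σ : Perm X => (F σ - G σ) * ψ (x.trans σ.toEmbedding)) = x2_M F ψ x - x2_M G ψ x := by
  unfold x2_M
  rw [← av_sub]
  congr 1
  funext σ
  ring

theorem x2_M_R {X : Type} [Fintype X] [DecidableEq X] {J : ℕ} (g : Perm X) (F : Perm X → ℝ)
    (ψ : (Fin J ↪ X) → ℝ) (x : Fin J ↪ X) :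
    x2_M (R g F) ψ x = x2_M F ψ (x.trans g.toEmbedding) := by
  unfold x2_M
  rw [← av_mulRight g (fun σ : Perm X => R g F σ * ψ (x.trans σ.toEmbedding))]
  congr 1
  funext σ
  rw [x2_trans_mul]
  unfold R
  rw [mul_inv_cancel_right]

theorem x2_M_av {X : Type} [Fintype X] [DecidableEq X] {J : ℕ} {ι : Type} [Fintype ι]
    (F : ι → Perm X → ℝ) (ψ : (Fin J ↪ X) → ℝ) (x : Fin J ↪ X) :
    x2_M (fun σ => av fun i => F i σ) ψ x = av fun i => x2_M (F i) ψ x := by
  unfold x2_M
  rw [av_comm]
  congr 1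
  funext σ
  rw [av_mul_right]

theorem x2_M_EH {J : ℕ} (F : Perm (Pos β I d) → ℝ) (ψ : (Fin J ↪ Pos β I d) → ℝ)
    (x : Fin J ↪ Pos β I d) : x2_M (EH F) ψ x = EHt (x2_M F ψ) x := by
  have h1 : EH F = fun σ => av fun h : Perm β => R (inlP β (Out I d) h⁻¹) F σ := by
    funext σ
    unfold EH EK R
    refine congrArg av (funext fun h => ?_)
    rw [map_inv, inv_inv]
  rw [h1, x2_M_av]
  have h2 : (fun h : Perm β => x2_M (R (inlP β (Out I d) h⁻¹) F) ψ x) = fun h : Perm β =>
      (fun h' : Perm β => x2_M F ψ (x.trans (inlP β (Out I d) h').toEmbedding)) h⁻¹ := by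
    funext h
    rw [x2_M_R]
  rw [h2]
  exact av_inv (fun h' : Perm β => x2_M F ψ (x.trans (inlP β (Out I d) h').toEmbedding))

omit [Fintype β] [DecidableEq β] in
/-- iterates of the step on tuples are averages over words -/
theorem x2_Qo_iter (S : Sys β I d) {J : ℕ} (T : ℕ) (φ : (Fin J ↪ Pos β I d) → ℝ)
    (x : Fin J ↪ Pos β I d) :
    (Qo S)^[T] φ x = av fun v : Fin T → I => φ (x.trans (wd S.g v).toEmbedding) := by
  induction T generalizing φ x with
  | zero =>
    have h : ∀ v : Fin 0 → I, φ (x.trans (wd S.g v).toEmbedding) = φ x := fun v => by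
      rw [wd_zero]
      congr 1
    simp only [h, Function.iterate_zero, id]
    rw [av_const]
  | succ T ih =>
    rw [Function.iterate_succ_apply, ih, av_cons, av_comm]
    congr 1
    funext v
    unfold Qo
    congr 1
    funext i
    rw [wd_cons, x2_trans_mul]

theorem x2_sum_eq {ι : Type} [Fintype ι] (f : ι → ℝ) :
    ∑ i, f i = (Fintype.card ι : ℝ) * av f := by
  unfold av
  rcases isEmpty_or_nonempty ι with h | h
  · simp
  · have hc : (Fintype.card ι : ℝ) ≠ 0 := by exact_mod_cast Fintype.card_ne_zero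
    field_simp

omit [DecidableEq I] in
/-- averages over the words without the letter `none` -/
theorem x2_av_none (T : ℕ) (f : (Fin T → Option I) → ℝ) :
    (av fun v : Fin T → Option I => if ∀ i, v i ≠ none then f v else 0) =
      ((Fintype.card I : ℝ) / ((Fintype.card I : ℝ) + 1)) ^ T *
        av fun u : Fin T → I => f (fun i => some (u i)) := by
  induction T with
  | zero =>
    have h1 : ∀ v : Fin 0 → Option I, (if ∀ i, v i ≠ none then f v else 0) = f Fin.elim0 := by
      intro v
      rw [if_pos (fun i => Fin.elim0 i)]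
      congr 1
      funext i
      exact Fin.elim0 i
    have h2 : ∀ u : Fin 0 → I, f (fun i => some (u i)) = f Fin.elim0 := by
      intro u
      congr 1
      funext i
      exact Fin.elim0 i
    simp only [h1, h2]
    rw [av_const, av_const, pow_zero, one_mul]
  | succ T ih =>
    rw [av_cons, av_cons]
    have h0 : (av fun v : Fin T → Option I =>
        if ∀ i, (Fin.cons (none : Option I) v : Fin (T + 1) → Option I) i ≠ none then
          f (Fin.cons (none : Option I) v) else 0) = 0 := by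
      have : ∀ v : Fin T → Option I,
          (if ∀ i, (Fin.cons (none : Option I) v : Fin (T + 1) → Option I) i ≠ none then
            f (Fin.cons (none : Option I) v) else 0) = 0 := by
        intro v
        rw [if_neg]
        intro h
        exact h 0 rfl
      simp only [this]
      exact av_zero
    have h1 : ∀ a : I, (av fun v : Fin T → Option I =>
        if ∀ i, (Fin.cons (some a) v : Fin (T + 1) → Option I) i ≠ none then
          f (Fin.cons (some a) v) else 0) =
        ((Fintype.card I : ℝ) / ((Fintype.card I : ℝ) + 1)) ^ T *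
          av fun u : Fin T → I => f (fun i => some ((Fin.cons a u : Fin (T + 1) → I) i)) := by
      intro a
      have h2 := ih (fun v => f (Fin.cons (some a) v))
      have h3 : (fun v : Fin T → Option I =>
          if ∀ i, (Fin.cons (some a) v : Fin (T + 1) → Option I) i ≠ none then
            f (Fin.cons (some a) v) else 0) =
          fun v : Fin T → Option I =>
            if ∀ i, v i ≠ none then f (Fin.cons (some a) v) else 0 := by
        funext v
        by_cases hv : ∀ i, v i ≠ none
        · rw [if_pos hv, if_pos]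
          intro i
          refine Fin.cases ?_ (fun j => ?_) i
          · rw [Fin.cons_zero]
            exact Option.some_ne_none a
          · rw [Fin.cons_succ]
            exact hv j
        · rw [if_neg hv, if_neg]
          intro h
          refine hv fun j => ?_
          have := h j.succ
          rwa [Fin.cons_succ] at this
      rw [h3, h2]
      congr 2
      funext u
      congr 1
      funext i
      refine Fin.cases ?_ (fun j => ?_) i
      · rw [Fin.cons_zero, Fin.cons_zero]
      · rw [Fin.cons_succ, Fin.cons_succ]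
    have hO : ∀ g : Option I → ℝ, av g =
        (g none + ∑ i, g (some i)) / ((Fintype.card I : ℝ) + 1) := by
      intro g
      unfold av
      rw [Fintype.sum_option, Fintype.card_option, Nat.cast_add, Nat.cast_one]
    rw [hO, h0, zero_add, x2_sum_eq]
    simp only [h1]
    rw [av_mul_left, pow_succ]
    ring

theorem x2_Dm_eq (S : Sys β I d) (T : ℕ) {J : ℕ} (F : Perm (Pos β I d) → ℝ)
    (ψ : (Fin J ↪ Pos β I d) → ℝ) (x : Fin J ↪ Pos β I d) :
    x2_M (S.Dm T F) ψ x = av fun v : Fin T → Option I => x2_M (S.st v F) ψ x :=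
  x2_M_av (fun v : Fin T → Option I => S.st v F) ψ x

/-- the marginals of `S.st v F` -/
theorem x2_st_pos (S : Sys β I d) {T : ℕ} {J : ℕ} (v : Fin T → Option I)
    (hv : ∀ i, v i ≠ none) (F : Perm (Pos β I d) → ℝ)
    (ψ : (Fin J ↪ Pos β I d) → ℝ) (x : Fin J ↪ Pos β I d) :
    x2_M (S.st v F) ψ x = av fun h : Perm β =>
      x2_M F ψ ((x.trans (inlP β (Out I d) h).toEmbedding).trans (wd S.gl v).toEmbedding) := by
  unfold Sys.st
  rw [if_pos hv, x2_M_EH]
  unfold EHt
  congr 1
  funext h
  rw [x2_M_R]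

theorem x2_st_neg (S : Sys β I d) {T : ℕ} {J : ℕ} (v : Fin T → Option I)
    (hv : ¬ ∀ i, v i ≠ none) (F : Perm (Pos β I d) → ℝ)
    (ψ : (Fin J ↪ Pos β I d) → ℝ) (x : Fin J ↪ Pos β I d) :
    x2_M (S.st v F) ψ x = x2_M F ψ (x.trans (wd S.gl v).toEmbedding) := by
  unfold Sys.st
  rw [if_neg hv, x2_M_R]

/-- one window of the modified walk does not increase the distance of the marginals -/
theorem x2_Dm_mono (S : Sys β I d) (J T : ℕ) {δ : ℝ} {F G : Perm (Pos β I d) → ℝ}
    (h : TMc J F G δ) : TMc J (S.Dm T F) (S.Dm T G) δ := by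
  intro x ψ hψ
  have hM : ∀ y : Fin J ↪ Pos β I d, |x2_M F ψ y - x2_M G ψ y| ≤ δ := by
    intro y
    rw [← x2_M_sub]
    exact h y ψ hψ
  rw [x2_M_sub, x2_Dm_eq, x2_Dm_eq, ← av_sub]
  refine (av_abs_le _).trans (av_le_const fun v => ?_)
  by_cases hv : ∀ i, v i ≠ none
  · rw [x2_st_pos S v hv, x2_st_pos S v hv, ← av_sub]
    exact (av_abs_le _).trans (av_le_const fun h' => hM _)
  · rw [x2_st_neg S v hv, x2_st_neg S v hv]
    exact hM _

omit [Fintype β] [DecidableEq β] [Fintype I] in
theorem x2_wd_some (S : Sys β I d) {T : ℕ} (u : Fin T → I) :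
    wd S.gl (fun i => some (u i)) = wd S.g u := rfl

/-- one window: the walk and the modified walk -/
theorem x2_one (S : Sys β I d) (J T : ℕ) (e : ℝ) (he : 0 ≤ e)
    (hQ : ∀ φ : (Fin J ↪ Pos β I d) → ℝ, (∀ y, |φ y| ≤ 1) → ∀ x,
      |(Qo S)^[T] φ x - EHt ((Qo S)^[T] φ) x| ≤ e)
    (F : Perm (Pos β I d) → ℝ) (hF : Dens F) : TMc J (S.P^[T] F) (S.Dm T F) e := by
  intro x ψ hψ
  rw [x2_M_sub, x2_Dm_eq]
  have hP : x2_M (S.P^[T] F) ψ x = av fun v : Fin T → Option I =>
      x2_M F ψ (x.trans (wd S.gl v).toEmbedding) := by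
    have h1 : S.P^[T] F = fun σ => av fun v : Fin T → Option I => R (wd S.gl v) F σ :=
      Mav_iter S.gl T F
    rw [h1, x2_M_av]
    congr 1
    funext v
    rw [x2_M_R]
  rw [hP, ← av_sub]
  have h2 : (fun v : Fin T → Option I =>
      x2_M F ψ (x.trans (wd S.gl v).toEmbedding) - x2_M (S.st v F) ψ x) =
      fun v : Fin T → Option I => if ∀ i, v i ≠ none then
        (fun v : Fin T → Option I => x2_M F ψ (x.trans (wd S.gl v).toEmbedding) -
          av fun h : Perm β => x2_M F ψ
            ((x.trans (inlP β (Out I d) h).toEmbedding).trans (wd S.gl v).toEmbedding)) v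
        else 0 := by
    funext v
    by_cases hv : ∀ i, v i ≠ none
    · rw [if_pos hv, x2_st_pos S v hv]
    · rw [if_neg hv, x2_st_neg S v hv, sub_self]
  rw [h2, x2_av_none]
  simp only [x2_wd_some]
  have h3 : (av fun u : Fin T → I => x2_M F ψ (x.trans (wd S.g u).toEmbedding) -
      av fun h : Perm β => x2_M F ψ
        ((x.trans (inlP β (Out I d) h).toEmbedding).trans (wd S.g u).toEmbedding)) =
      av fun σ : Perm (Pos β I d) => F σ *
        ((Qo S)^[T] (fun y => ψ (y.trans σ.toEmbedding)) x -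
          EHt ((Qo S)^[T] (fun y => ψ (y.trans σ.toEmbedding))) x) := by
    have h4 : ∀ σ : Perm (Pos β I d),
        (Qo S)^[T] (fun y => ψ (y.trans σ.toEmbedding)) x -
          EHt ((Qo S)^[T] (fun y => ψ (y.trans σ.toEmbedding))) x =
        av fun u : Fin T → I => ψ ((x.trans (wd S.g u).toEmbedding).trans σ.toEmbedding) -
          av fun h : Perm β =>
            ψ (((x.trans (inlP β (Out I d) h).toEmbedding).trans
              (wd S.g u).toEmbedding).trans σ.toEmbedding) := by
      intro σ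
      unfold EHt
      rw [av_sub, x2_Qo_iter]
      congr 1
      rw [av_comm]
      congr 1
      funext h
      rw [x2_Qo_iter]
    simp only [h4, ← av_mul_left]
    rw [av_comm]
    congr 1
    funext u
    unfold x2_M
    rw [av_comm, ← av_sub]
    congr 1
    funext σ
    rw [mul_sub, av_mul_left]
  rw [h3, abs_mul]
  have hr0 : 0 ≤ (Fintype.card I : ℝ) / ((Fintype.card I : ℝ) + 1) := by positivity
  have hr1 : (Fintype.card I : ℝ) / ((Fintype.card I : ℝ) + 1) ≤ 1 := by
    rw [div_le_one (by positivity)]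
    linarith
  have h5 : |((Fintype.card I : ℝ) / ((Fintype.card I : ℝ) + 1)) ^ T| ≤ 1 := by
    rw [abs_of_nonneg (pow_nonneg hr0 T)]
    exact pow_le_one₀ hr0 hr1
  have h6 : |av fun σ : Perm (Pos β I d) => F σ *
        ((Qo S)^[T] (fun y => ψ (y.trans σ.toEmbedding)) x -
          EHt ((Qo S)^[T] (fun y => ψ (y.trans σ.toEmbedding))) x)| ≤ e := by
    refine (av_abs_le _).trans ?_
    have h7 : (av fun σ : Perm (Pos β I d) => |F σ *
        ((Qo S)^[T] (fun y => ψ (y.trans σ.toEmbedding)) x -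
          EHt ((Qo S)^[T] (fun y => ψ (y.trans σ.toEmbedding))) x)|) ≤
        av fun σ : Perm (Pos β I d) => F σ * e := by
      refine av_le_av fun σ => ?_
      rw [abs_mul, abs_of_nonneg (hF.1 σ)]
      exact mul_le_mul_of_nonneg_left (hQ _ (fun y => hψ _) x) (hF.1 σ)
    refine h7.trans ?_
    rw [av_mul_right, hF.2, one_mul]
  calc _ ≤ 1 * e := mul_le_mul h5 h6 (abs_nonneg _) zero_le_one
    _ = e := one_mul e

theorem x2_tri {X : Type} [Fintype X] [DecidableEq X] {J : ℕ} {F G H : Perm X → ℝ} {δ ε : ℝ}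
    (h1 : TMc J F G δ) (h2 : TMc J G H ε) : TMc J F H (δ + ε) := by
  intro x ψ hψ
  have e1 := h1 x ψ hψ
  have e2 := h2 x ψ hψ
  rw [x2_M_sub] at e1 e2 ⊢
  have e3 : x2_M F ψ x - x2_M H ψ x =
      (x2_M F ψ x - x2_M G ψ x) + (x2_M G ψ x - x2_M H ψ x) := by ring
  rw [e3]
  exact (abs_add_le _ _).trans (add_le_add e1 e2)

theorem x2_iter_dens (S : Sys β I d) (t : ℕ) {F : Perm (Pos β I d) → ℝ} (hF : Dens F) :
    Dens (S.P^[t] F) := by
  induction t with
  | zero => exact hF
  | succ t ih =>
    rw [Function.iterate_succ_apply']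
    exact dens_Mav ih S.gl

/-- the walk and the modified walk have close marginals -/
theorem tup_close (S : Sys β I d) (J T : ℕ) (e : ℝ) (he : 0 ≤ e)
    (hQ : ∀ φ : (Fin J ↪ Pos β I d) → ℝ, (∀ y, |φ y| ≤ 1) → ∀ x,
      |(Qo S)^[T] φ x - EHt ((Qo S)^[T] φ) x| ≤ e)
    (F : Perm (Pos β I d) → ℝ) (hF : Dens F) (k : ℕ) :
    TMc J (S.P^[k * T] F) ((S.Dm T)^[k] F) (k * e) := by
  induction k with
  | zero =>
    intro x ψ _
    rw [Nat.zero_mul, Function.iterate_zero, Function.iterate_zero, x2_M_sub, sub_self,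
      abs_zero, Nat.cast_zero, zero_mul]
  | succ k ih =>
    have h1 : S.P^[(k + 1) * T] F = S.P^[T] (S.P^[k * T] F) := by
      rw [← Function.iterate_add_apply]
      congr 1
      ring
    have h2 : (S.Dm T)^[k + 1] F = S.Dm T ((S.Dm T)^[k] F) := Function.iterate_succ_apply' _ _ _
    have h3 := x2_one S J T e he hQ (S.P^[k * T] F) (x2_iter_dens S (k * T) hF)
    have h4 := x2_tri h3 (x2_Dm_mono S J T ih)
    rw [h1, h2]
    have h5 : ((k + 1 : ℕ) : ℝ) * e = e + (k : ℝ) * e := by push_cast; ring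
    rw [h5]
    exact h4

end Pool.Agent.H9.Low
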