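import Pool.Agent.H9.Low.Defs2
import Pool.Agent.H9.Low.T20

/-!
# X3: two laws with close marginals on the device
-/

namespace Pool.Agent.H9.Low

open Equiv Finset

section x3
variable {β I : Type} [Fintype β] [DecidableEq β] [Fintype I] [DecidableEq I] {d : ℕ}

theorem x3_dual (S : Sys β I d) (T r : ℕ) : ∀ φ F : Perm (Pos β I d) → ℝ,
    ipr φ ((S.Dm T)^[r] F) = ipr ((t20_Ds S T)^[r] φ) F := by
  induction r with
  | zero => intro φ F; rfl
  | succ r ih =>
    intro φ F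
    rw [Function.iterate_succ_apply', t20_dual, ih, Function.iterate_succ_apply]

theorem x3_wt (S : Sys β I d) (T r : ℕ) : ∀ (φ : Perm (Pos β I d) → ℝ) (Ω : Pos β I d → ℝ),
    (∀ a, 0 ≤ Ω a) → Wt φ Ω →
    (∀ a, 0 ≤ (t20_Ws S T)^[r] Ω a) ∧ Wt ((t20_Ds S T)^[r] φ) ((t20_Ws S T)^[r] Ω) := by
  induction r with
  | zero => intro φ Ω hΩ h; exact ⟨hΩ, h⟩
  | succ r ih =>
    intro φ Ω hΩ h
    rw [Function.iterate_succ_apply, Function.iterate_succ_apply]
    exact ih _ _ (t20_Ws_nonneg S T hΩ) (t20_wt S T hΩ h)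

theorem x3_sum (S : Sys β I d) (T r : ℕ) : ∀ n Ω : Pos β I d → ℝ,
    ∑ a, n a * (t20_Ws S T)^[r] Ω a = ∑ a, (S.WW T)^[r] n a * Ω a := by
  induction r with
  | zero => intro n Ω; rfl
  | succ r ih =>
    intro n Ω
    rw [Function.iterate_succ_apply, ih, t20_sum, Function.iterate_succ_apply']

theorem x3_EH_le {φ : Perm (Pos β I d) → ℝ} (h : ∀ σ, |φ σ| ≤ 1) (σ : Perm (Pos β I d)) :
    |EH φ σ| ≤ 1 := by
  unfold EH EK
  exact (av_abs_le _).trans (av_le_const fun k => h _)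

theorem x3_Ds_le (S : Sys β I d) (T : ℕ) {φ : Perm (Pos β I d) → ℝ} (h : ∀ σ, |φ σ| ≤ 1)
    (σ : Perm (Pos β I d)) : |t20_Ds S T φ σ| ≤ 1 := by
  unfold t20_Ds
  refine (av_abs_le _).trans (av_le_const fun v => ?_)
  by_cases hv : ∀ i, v i ≠ none
  · simp only [if_pos hv]
    exact x3_EH_le h _
  · simp only [if_neg hv]
    exact h _

theorem x3_Ds_iter (S : Sys β I d) (T r : ℕ) : ∀ φ : Perm (Pos β I d) → ℝ, (∀ σ, |φ σ| ≤ 1) →
    ∀ σ, |(t20_Ds S T)^[r] φ σ| ≤ 1 := by
  induction r with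
  | zero => intro φ h; exact h
  | succ r ih =>
    intro φ h
    rw [Function.iterate_succ_apply]
    exact ih _ (x3_Ds_le S T h)

/-- the device tuple -/
def x3_dev (β I : Type) (d : ℕ) : Fin (d + 1) ↪ Pos β I d :=
  ⟨fun j => Sum.inr (Sum.inr j), fun _ _ h => Sum.inr_injective (Sum.inr_injective h)⟩

theorem x3_key (φ : Perm (Pos β I d) → ℝ) (hφ : ∀ σ, |φ σ| ≤ 1) (Ω : Pos β I d → ℝ)
    (hΩ : ∀ a, 0 ≤ Ω a) (h : Wt φ Ω) (F G : Perm (Pos β I d) → ℝ) (hF : Dens F) (hG : Dens G)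
    (δ : ℝ) (hFG : TMc (d + 1) F G δ) :
    |ipr (EH φ) (fun σ => F σ - G σ)| ≤ δ + 2 * ∑ a, n0 β I d a * Ω a := by
  classical
  have hψ : Wt (EH φ) (t20_E Ω) := t20_EK φ Ω hΩ h
  have hψ1 := x3_EH_le hφ
  set M : ℝ := ∑ a, n0 β I d a * Ω a with hM
  have hMe : M = ∑ y : I × Bool, t20_E Ω (Sum.inr (Sum.inl y)) := by
    rw [hM]
    have hA : ∀ f : Pos β I d → ℝ, ∑ a, f a = ∑ x, f (Sum.inl x) +
        (∑ y, f (Sum.inr (Sum.inl y)) + ∑ j, f (Sum.inr (Sum.inr j))) := fun f => by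
      rw [Fintype.sum_sum_type f, Fintype.sum_sum_type (fun y => f (Sum.inr y))]
    rw [hA]
    simp only [n0, t20_E, Sum.elim_inl, Sum.elim_inr, one_mul, zero_mul, Finset.sum_const_zero,
      add_zero]
    rw [Finset.sum_add_distrib, Finset.sum_const, Finset.card_univ, Fintype.card_prod,
      Fintype.card_bool, nsmul_eq_mul, ← Finset.mul_sum, Nat.cast_mul, Nat.cast_ofNat]
    ring
  have hE0 : ∀ a, 0 ≤ t20_E Ω a := t20_E_nonneg hΩ
  let Ψ : (Fin (d + 1) ↪ Pos β I d) → ℝ := fun z =>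
    if hz : ∃ τ : Perm (Pos β I d), (x3_dev β I d).trans τ.toEmbedding = z
      then EH φ hz.choose else 0
  have hΨ1 : ∀ z, |Ψ z| ≤ 1 := by
    intro z
    simp only [Ψ]
    split_ifs with hz
    · exact hψ1 _
    · simp
  have h1 := hFG (x3_dev β I d) Ψ hΨ1
  have h2 : ∀ σ : Perm (Pos β I d),
      |EH φ σ - Ψ ((x3_dev β I d).trans σ.toEmbedding)| ≤ M := by
    intro σ
    have hz : ∃ τ : Perm (Pos β I d), (x3_dev β I d).trans τ.toEmbedding =
      (x3_dev β I d).trans σ.toEmbedding := ⟨σ, rfl⟩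
    have e : Ψ ((x3_dev β I d).trans σ.toEmbedding) = EH φ hz.choose := by
      simp only [Ψ]
      rw [dif_pos hz]
    rw [e]
    have hs := hz.choose_spec
    refine (hψ σ hz.choose).trans ?_
    rw [Fintype.sum_sum_type, Fintype.sum_sum_type]
    have e1 : (∑ x : β, if σ (Sum.inl x) ≠ hz.choose (Sum.inl x) then t20_E Ω (Sum.inl x)
        else 0) = 0 := by
      refine Finset.sum_eq_zero fun x _ => ?_
      split_ifs
      · rfl
      · rfl
    have e2 : (∑ j : Fin (d + 1), if σ (Sum.inr (Sum.inr j)) ≠ hz.choose (Sum.inr (Sum.inr j))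
        then t20_E Ω (Sum.inr (Sum.inr j)) else 0) = 0 := by
      refine Finset.sum_eq_zero fun j _ => ?_
      rw [if_neg]
      rw [not_not]
      have := DFunLike.congr_fun hs j
      exact this.symm
    rw [e1, e2, zero_add, add_zero, hMe]
    refine Finset.sum_le_sum fun y _ => ?_
    split_ifs
    · exact le_rfl
    · exact hE0 _
  have e : ipr (EH φ) (fun σ => F σ - G σ) =
      (av fun σ => (F σ - G σ) * Ψ ((x3_dev β I d).trans σ.toEmbedding)) +
      av fun σ => (F σ - G σ) * (EH φ σ - Ψ ((x3_dev β I d).trans σ.toEmbedding)) := by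
    unfold ipr
    rw [← av_add]
    congr 1
    ext σ
    ring
  have h3 : |av fun σ => (F σ - G σ) * (EH φ σ - Ψ ((x3_dev β I d).trans σ.toEmbedding))| ≤
      2 * M := by
    refine (av_abs_le _).trans ?_
    have h4 : ∀ σ : Perm (Pos β I d),
        |(F σ - G σ) * (EH φ σ - Ψ ((x3_dev β I d).trans σ.toEmbedding))| ≤
        (F σ + G σ) * M := by
      intro σ
      rw [abs_mul]
      have ha : |F σ - G σ| ≤ F σ + G σ := by
        rw [abs_le]
        constructor <;> linarith [hF.1 σ, hG.1 σ]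
      exact mul_le_mul ha (h2 σ) (abs_nonneg _) (add_nonneg (hF.1 σ) (hG.1 σ))
    refine (av_le_av h4).trans (le_of_eq ?_)
    rw [av_mul_right, av_add, hF.2, hG.2]
    ring
  rw [e]
  exact (abs_add_le _ _).trans (add_le_add h1 h3)

theorem x3_TMc_R {F G : Perm (Pos β I d) → ℝ} {δ : ℝ} {J : ℕ} (h : TMc J F G δ)
    (g : Perm (Pos β I d)) : TMc J (R g F) (R g G) δ := by
  intro x ψ hψ
  have e : (av fun σ => (R g F σ - R g G σ) * ψ (x.trans σ.toEmbedding)) =
      av fun σ => (F σ - G σ) * ψ ((x.trans g.toEmbedding).trans σ.toEmbedding) := by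
    rw [← av_mulRight g (fun σ => (R g F σ - R g G σ) * ψ (x.trans σ.toEmbedding))]
    congr 1
    ext σ
    have e1 : R g F (σ * g) = F σ := by simp [R]
    have e2 : R g G (σ * g) = G σ := by simp [R]
    rw [e1, e2]
    rfl
  rw [e]
  exact h _ ψ hψ

theorem x3_ind (T : ℕ) :
    (av fun v : Fin T → Option I => if ∀ i, v i ≠ none then (1 : ℝ) else 0) =
      ((Fintype.card I : ℝ) / (Fintype.card I + 1)) ^ T := by
  let f : Option I → ℝ := fun x => if x ≠ none then (1 : ℝ) else 0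
  have h1 : ∀ v : Fin T → Option I, (if ∀ i, v i ≠ none then (1 : ℝ) else 0) =
      ∏ i, f (v i) := by
    intro v
    by_cases hv : ∀ i, v i ≠ none
    · rw [if_pos hv]
      exact (Finset.prod_eq_one fun i _ => if_pos (hv i)).symm
    · rw [if_neg hv]
      push Not at hv
      obtain ⟨i, hi⟩ := hv
      exact (Finset.prod_eq_zero (Finset.mem_univ i) (if_neg (not_not.2 hi))).symm
  unfold av
  rw [Finset.sum_congr rfl fun v _ => h1 v, ← Fintype.sum_pow f T, Fintype.sum_option]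
  simp only [f]
  simp only [ne_eq, not_true_eq_false, if_false, reduceCtorEq, not_false_eq_true, if_true,
    zero_add, Finset.sum_const, Finset.card_univ, nsmul_eq_mul, mul_one, Fintype.card_fun,
    Fintype.card_option, Fintype.card_fin, Nat.cast_pow, Nat.cast_add, Nat.cast_one]
  rw [div_pow]

theorem x3_main (S : Sys β I d) (T : ℕ) (δ q : ℝ) (hδ : 0 ≤ δ)
    (hq : 1 - ((Fintype.card I : ℝ) / (Fintype.card I + 1)) ^ T ≤ q)
    (φ : Perm (Pos β I d) → ℝ) (Ω : Pos β I d → ℝ) (hφ : ∀ σ, |φ σ| ≤ 1)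
    (hΩ : ∀ a, 0 ≤ Ω a) (h : Wt φ Ω) (r : ℕ) :
    ∀ F G : Perm (Pos β I d) → ℝ, Dens F → Dens G → TMc (d + 1) F G δ →
    |ipr φ (fun σ => (S.Dm T)^[r] F σ - (S.Dm T)^[r] G σ)| ≤
      δ + 2 * ∑ k ∈ range r, q ^ k * ∑ a, (S.WW T)^[r - 1 - k] (n0 β I d) a * Ω a
        + 2 * q ^ r := by
  set p0 : ℝ := ((Fintype.card I : ℝ) / (Fintype.card I + 1)) ^ T with hp0
  have hc : (0 : ℝ) < (Fintype.card I : ℝ) + 1 := by positivity
  have hp00 : 0 ≤ p0 := by positivity
  have hp01 : p0 ≤ 1 := by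
    rw [hp0]
    refine pow_le_one₀ (by positivity) ?_
    rw [div_le_one hc]
    linarith
  have hq0 : 0 ≤ q := by linarith
  have hM0 : ∀ j, 0 ≤ ∑ a, (S.WW T)^[j] (n0 β I d) a * Ω a := by
    intro j
    rw [← x3_sum]
    refine Finset.sum_nonneg fun a _ => mul_nonneg ?_ ((x3_wt S T j φ Ω hΩ h).1 a)
    unfold n0
    rcases a with x | y | j
    · simp only [Sum.elim_inl]; positivity
    · simp
    · simp
  induction r with
  | zero =>
    intro F G hF hG _
    simp only [Function.iterate_zero, id, Finset.range_zero, Finset.sum_empty, mul_zero,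
      add_zero, pow_zero, mul_one]
    have h1 : |ipr φ (fun σ => F σ - G σ)| ≤ av fun σ => F σ + G σ := by
      refine (av_abs_le _).trans (av_le_av fun σ => ?_)
      rw [abs_mul]
      have ha : |F σ - G σ| ≤ F σ + G σ := by
        rw [abs_le]
        constructor <;> linarith [hF.1 σ, hG.1 σ]
      calc |φ σ| * |F σ - G σ| ≤ 1 * (F σ + G σ) :=
            mul_le_mul (hφ σ) ha (abs_nonneg _) zero_le_one
        _ = _ := one_mul _
    rw [av_add, hF.2, hG.2] at h1
    linarith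
  | succ r ih =>
    intro F G hF hG hFG
    set Sr : ℝ := ∑ k ∈ range r, q ^ k * ∑ a, (S.WW T)^[r - 1 - k] (n0 β I d) a * Ω a with hSr
    set Mr : ℝ := ∑ a, (S.WW T)^[r] (n0 β I d) a * Ω a with hMr
    have hSr0 : 0 ≤ Sr :=
      Finset.sum_nonneg fun k _ => mul_nonneg (pow_nonneg hq0 _) (hM0 _)
    have hsum : (∑ k ∈ range (r + 1), q ^ k *
        ∑ a, (S.WW T)^[r + 1 - 1 - k] (n0 β I d) a * Ω a) = Mr + q * Sr := by
      have hA : (∑ k ∈ range r, q ^ (k + 1) *
          ∑ a, (S.WW T)^[r + 1 - 1 - (k + 1)] (n0 β I d) a * Ω a) = q * Sr := by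
        rw [hSr, Finset.mul_sum]
        refine Finset.sum_congr rfl fun k _ => ?_
        have : r + 1 - 1 - (k + 1) = r - 1 - k := by omega
        rw [this, pow_succ]
        ring
      rw [Finset.sum_range_succ', hA, pow_zero, one_mul, Nat.sub_zero, Nat.add_sub_cancel, ← hMr,
        add_comm]
    rw [hsum]
    have hdec : ipr φ (fun σ => (S.Dm T)^[r + 1] F σ - (S.Dm T)^[r + 1] G σ) =
        av fun v : Fin T → Option I =>
          ipr ((t20_Ds S T)^[r] φ) (fun σ => S.st v F σ - S.st v G σ) := by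
      rw [ipr_sub_right, Function.iterate_succ_apply, Function.iterate_succ_apply, x3_dual,
        x3_dual, ← ipr_sub_right, ← ipr_av_right]
      congr 1
      ext σ
      unfold Sys.Dm
      rw [av_sub]
    have hterm : ∀ v : Fin T → Option I,
        |ipr ((t20_Ds S T)^[r] φ) (fun σ => S.st v F σ - S.st v G σ)| ≤
        (δ + 2 * Sr + 2 * q ^ r) + (if ∀ i, v i ≠ none then (1 : ℝ) else 0) *
          (2 * Mr - 2 * Sr - 2 * q ^ r) := by
      intro v
      have dF := dens_R hF (wd S.gl v)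
      have dG := dens_R hG (wd S.gl v)
      have dT := x3_TMc_R hFG (wd S.gl v)
      by_cases hv : ∀ i, v i ≠ none
      · rw [if_pos hv]
        simp only [Sys.st, if_pos hv]
        have e : ipr ((t20_Ds S T)^[r] φ)
            (fun σ => EH (R (wd S.gl v) F) σ - EH (R (wd S.gl v) G) σ) =
            ipr (EH ((t20_Ds S T)^[r] φ)) (fun σ => R (wd S.gl v) F σ - R (wd S.gl v) G σ) := by
          unfold EH
          rw [ipr_EK_left, EK_sub]
        rw [e]
        have h1 := x3_key ((t20_Ds S T)^[r] φ) (x3_Ds_iter S T r φ hφ) ((t20_Ws S T)^[r] Ω)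
          (x3_wt S T r φ Ω hΩ h).1 (x3_wt S T r φ Ω hΩ h).2 _ _ dF dG δ dT
        rw [x3_sum] at h1
        refine h1.trans (le_of_eq ?_)
        rw [← hMr]
        ring
      · rw [if_neg hv, zero_mul, add_zero]
        simp only [Sys.st, if_neg hv]
        rw [ipr_sub_right, ← x3_dual, ← x3_dual, ← ipr_sub_right]
        exact ih _ _ dF dG dT
    rw [hdec]
    refine (av_abs_le _).trans ((av_le_av hterm).trans ?_)
    rw [av_add, av_const, av_mul_right, x3_ind, ← hp0]
    have hMr0 : 0 ≤ Mr := hM0 r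
    have hqr : 0 ≤ q ^ r := pow_nonneg hq0 r
    rw [pow_succ]
    nlinarith [mul_nonneg (sub_nonneg.2 hp01) hMr0,
      mul_nonneg (by linarith : (0 : ℝ) ≤ q - (1 - p0)) (add_nonneg hSr0 hqr)]

theorem two_laws (S : Sys β I d) (T r : ℕ) (hβ : Nonempty β)
    (F G : Perm (Pos β I d) → ℝ) (hF : Dens F) (hG : Dens G) (δ q : ℝ) (hδ : 0 ≤ δ)
    (hFG : TMc (d + 1) F G δ) (hq1 : q ≤ 1)
    (hq : 1 - ((Fintype.card I : ℝ) / (Fintype.card I + 1)) ^ T ≤ q) :
    av (fun σ => |(S.Dm T)^[r] F σ - (S.Dm T)^[r] G σ|) ≤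
      δ + 2 * ∑ k ∈ range r, q ^ k * tot ((S.WW T)^[r - 1 - k] (n0 β I d)) + 2 * q ^ r := by
  classical
  let D : Perm (Pos β I d) → ℝ := fun σ => (S.Dm T)^[r] F σ - (S.Dm T)^[r] G σ
  let φ : Perm (Pos β I d) → ℝ := fun σ => if 0 ≤ D σ then 1 else -1
  have h1 : (fun σ => |(S.Dm T)^[r] F σ - (S.Dm T)^[r] G σ|) = fun σ => φ σ * D σ := by
    ext σ
    change |D σ| = φ σ * D σ
    simp only [φ]
    split_ifs with h
    · rw [abs_of_nonneg h]; ring
    · rw [abs_of_neg (not_le.mp h)]; ring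
  have h0 : ∀ σ, |φ σ| ≤ 1 := by
    intro σ
    simp only [φ]
    split_ifs <;> norm_num
  have h2 : Wt φ (fun _ => 1) := by
    intro σ σ'
    by_cases hs : σ = σ'
    · subst hs; simp
    · have h3 : |φ σ - φ σ'| ≤ 2 := by
        simp only [φ]
        split_ifs <;> norm_num
      refine h3.trans ?_
      have h4 : 2 ≤ (σ'⁻¹ * σ).support.card := by
        apply Perm.two_le_card_support_of_ne_one
        intro h
        apply hs
        rw [inv_mul_eq_one] at h
        exact h.symm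
      have h5 : (∑ a, if σ a ≠ σ' a then (1 : ℝ) else 0) = ((σ'⁻¹ * σ).support.card : ℝ) := by
        rw [← Finset.sum_filter, Finset.sum_const, nsmul_eq_mul, mul_one]
        congr 2
        ext a
        simp only [Finset.mem_filter, Finset.mem_univ, true_and, Perm.mem_support,
          Perm.mul_apply, Ne, Perm.inv_eq_iff_eq]
      rw [h5]
      exact_mod_cast h4
  have h6 := x3_main S T δ q hδ hq φ (fun _ => 1) h0 (fun _ => zero_le_one) h2 r F G hF hG hFG
  simp only [mul_one] at h6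
  rw [h1]
  exact (le_abs_self _).trans h6

end x3

end Pool.Agent.H9.Low
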