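import Pool.Agent.H9.Low.X5a
import Pool.Agent.H9.Low.X2
import Pool.Agent.H9.Low.X3

/-!
# The final total variation bound, second form
-/

namespace Pool.Agent.H9.Low

open Equiv Finset

variable {β I : Type} [Fintype β] [DecidableEq β] [Fintype I] [DecidableEq I] {w w2 d : ℕ}

theorem final_tv2 (S : HSys β I w w2 d) (hβ : Nonempty β) (J D t2 T k r : ℕ) (hD0 : 0 < D)
    (hD : ∀ V : Submodule ℝ (Perm (Pos β I d) → ℝ), V ≤ HH (Pos β I d) J → V ≠ ⊥ →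
      (∀ (g : Perm (Pos β I d)) (F : Perm (Pos β I d) → ℝ), F ∈ V → Lt g F ∈ V) →
      D ≤ Module.finrank ℝ V)
    (C ε : ℝ) (hC : 1 ≤ C) (ρ : Perm (Pos β I d) → ℝ) (hρ : ∀ σ, 0 ≤ ρ σ) (hρ1 : av ρ ≤ ε)
    (hfC : ∀ σ, S.P^[t2] (dl (Perm (Pos β I d))) σ ≤ C + ρ σ)
    (hlow : ∀ F ∈ UU (Pos β I d) J,
      nsq (fun σ => S.Po^[T] F σ - EH (S.Po^[T] F) σ) ≤ (1 / 4) ^ T * nsq F)
    (e q : ℝ) (he : 0 ≤ e)
    (hQ : ∀ φ : (Fin (d + 1) ↪ Pos β I d) → ℝ, (∀ y, |φ y| ≤ 1) → ∀ x,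
      |(Qo S.toSys)^[T] φ x - EHt ((Qo S.toSys)^[T] φ) x| ≤ e) (hq1 : q ≤ 1)
    (hq : 1 - ((Fintype.card I : ℝ) / (Fintype.card I + 1)) ^ T ≤ q)
    (hk : k * T = 2 * t2) (t : ℕ) (ht : (k + r) * T ≤ t) :
    av (fun σ => |S.P^[t] (dl (Perm (Pos β I d))) σ - 1|) ≤
      2 * (2 * ε + C / √D) + r * (1 / 2) ^ T * √C
        + (k * e + 2 * ∑ j ∈ range r, q ^ j * tot ((S.WW T)^[r - 1 - j] (n0 β I d)) + 2 * q ^ r)
        + tot ((S.WW T)^[k + r] (fun _ => 1)) :=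
  final_tv2_of S hβ J D t2 T k r hD0
    (fun e he hQ => tup_close S.toSys (d + 1) T e he hQ _ dens_dl k)
    (fun F G hF hG δ q hδ hFG hq1 hq => two_laws S.toSys T r hβ F G hF hG δ q hδ hFG hq1 hq)
    hD C ε hC ρ hρ hρ1 hfC hlow e q he hQ hq1 hq hk t ht

end Pool.Agent.H9.Low
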