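import Pool.Agent.H9.Low.T27cW
import Pool.Agent.H9.Low.T27cP
import Pool.Agent.H9.Low.X1
import Pool.Agent.H9.Low.X5

/-!
# The upper bound for one `n`, from the law, the existence and the dimension parts
-/

namespace Pool.Agent.H9.Low

open Equiv Finset

open T27c T27cN in
theorem upper_of
    (hE : ∃ r0 : ℕ, ∀ r ≥ r0, ∀ n d : ℕ, r ^ 20 ≤ n → n < (r + 1) ^ 20 →
        d + 1 ≤ r ^ 7 →
        ∃ (β I : Type) (_ : Fintype β) (_ : DecidableEq β) (_ : Fintype I) (_ : DecidableEq I)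
          (S : HSys β I (r ^ 14) (65536 * r ^ 14) d),
          Fintype.card β + 131076 * r ^ 14 + (d + 1) = n ∧
          MSc (fun j => S.θ (S.e (Sum.inl j))) (fun j => S.θ (S.e (Sum.inr (Sum.inl j)))) 100
            (1 / r) ∧ N3 S (J0r r))
    (hL : ∃ C1 : ℝ, ∃ r0 : ℕ, ∀ r ≥ r0, ∀ n d : ℕ, r ^ 20 ≤ n → n < (r + 1) ^ 20 →
        d + 1 ≤ r ^ 7 →
        ∀ (β I : Type) [Fintype β] [DecidableEq β] [Fintype I] [DecidableEq I]
          (S : HSys β I (r ^ 14) (65536 * r ^ 14) d),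
          Fintype.card β + 131076 * r ^ 14 + (d + 1) = n →
          MSc (fun j => S.θ (S.e (Sum.inl j))) (fun j => S.θ (S.e (Sum.inr (Sum.inl j)))) 100
            (1 / r) → M8 S.toSys (40 * ⌈Real.log r⌉₊) →
        ∃ k : ℕ, 1 ≤ k ∧ (k * (4 * r ^ 14) : ℝ) ≤ C1 * n ∧
          ∃ ρ : Perm (Pos β I d) → ℝ, (∀ σ, 0 ≤ ρ σ) ∧ av ρ ≤ 10 / r ∧
            ∀ σ, S.P^[k * (2 * r ^ 14)] (dl (Perm (Pos β I d))) σ
              ≤ Real.exp (2.8 * (r : ℝ) ^ 14) + ρ σ)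
    (hD : ∃ r0 : ℕ, ∀ r ≥ r0, ∀ n : ℕ, r ^ 20 ≤ n → n < (r + 1) ^ 20 →
        2 * (J0r r / 2) + 1 ≤ n / 2 ∧ r ^ 7 ≤ J0r r ∧ 2 * J0r r ≤ n ∧
        Real.exp (12 * (r : ℝ) ^ 14) ≤ ((n / 2).choose (J0r r / 2) : ℝ)) :
    ∃ A C1 : ℝ, ∃ r0 : ℕ, ∀ r ≥ r0, ∀ n d : ℕ, r ^ 20 ≤ n →
        n < (r + 1) ^ 20 → d + 1 ≤ r ^ 7 →
        ∃ (β I : Type) (_ : Fintype β) (_ : DecidableEq β) (_ : Fintype I) (_ : DecidableEq I)
          (S : HSys β I (r ^ 14) (65536 * r ^ 14) d),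
          Fintype.card β + 131076 * r ^ 14 + (d + 1) = n ∧
          ∀ η : ℝ, 0 < η → η < 1 → ∀ t : ℕ, C1 * n ≤ t →
            (1 + 3 * η) * (65538 * r ^ 14 + 1) * (d + 1) + r ^ 16 ≤ t →
            av (fun σ => |S.P^[t] (dl (Perm (Pos β I d))) σ - 1|)
              ≤ A * (1 / r + (d + 1) * Real.exp (-(η * (d + 1) / 12))
                  + Real.exp (-(η ^ 2 * (d + 1) / 2)) / η) := by
  obtain ⟨ra, hra⟩ := hE
  obtain ⟨Cl, rb, hrb⟩ := hL
  obtain ⟨rc, hrc⟩ := hD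
  refine ⟨10 ^ 8, Cl + 1, max (max ra rb) (max rc (max (10 ^ 10) ⌈Cl⌉₊)), ?_⟩
  intro r hr n d h1 h2 h3
  have hr1 : ra ≤ r := le_trans (le_trans (le_max_left _ _) (le_max_left _ _)) hr
  have hr2 : rb ≤ r := le_trans (le_trans (le_max_right _ _) (le_max_left _ _)) hr
  have hr3 : rc ≤ r := le_trans (le_trans (le_max_left _ _) (le_max_right _ _)) hr
  have hr4 : 10 ^ 10 ≤ r :=
    le_trans (le_trans (le_trans (le_max_left _ _) (le_max_right _ _)) (le_max_right _ _)) hr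
  have hr5 : ⌈Cl⌉₊ ≤ r :=
    le_trans (le_trans (le_trans (le_max_right _ _) (le_max_right _ _)) (le_max_right _ _)) hr
  obtain ⟨β, I, i1, i2, i3, i4, S, hcard, hMS, hN3⟩ := hra r hr1 n d h1 h2 h3
  refine ⟨β, I, i1, i2, i3, i4, S, hcard, ?_⟩
  intro η hη hη1 t ht1 ht2
  obtain ⟨x, hx⟩ : ∃ x : ℝ, x = (r : ℝ) := ⟨_, rfl⟩
  have hx10 : 10 ^ 10 ≤ x := by rw [hx]; exact_mod_cast hr4
  have hx1 : 1 ≤ x := by linarith
  have hx0 : 0 < x := by linarith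
  have hClx : Cl ≤ x := by
    rw [hx]
    exact (Nat.le_ceil Cl).trans (by exact_mod_cast hr5)
  obtain ⟨s1, s2, s3, s4, s5⟩ := sizes hx hx10 h1 h2 h3 hcard
  obtain ⟨L, hL⟩ : ∃ L : ℝ, L = Real.log x := ⟨_, rfl⟩
  have hL0 : 0 ≤ L := by rw [hL]; exact Real.log_nonneg hx1
  have hLx : L ≤ x := by
    rw [hL]
    have := Real.log_le_sub_one_of_pos hx0
    linarith
  -- cardinalities
  have hIcard : Fintype.card I = 65538 * r ^ 14 := by
    rw [← Fintype.card_congr S.e]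
    simp only [Fintype.card_sum, Fintype.card_fin]
    ring
  have hPos : Fintype.card (Pos β I d) = n := by
    have : Fintype.card (Pos β I d) = Fintype.card β + (Fintype.card I * 2 + (d + 1)) := by
      simp only [Fintype.card_sum, Fintype.card_prod, Fintype.card_bool, Fintype.card_fin]
    rw [this, hIcard, ← hcard]
    ring
  obtain ⟨c1, c2, c3, c4⟩ := hrc r hr3 n h1 h2
  have hN : (Fintype.card β : ℝ) = (Fintype.card β : ℝ) := rfl
  have hJβ : J0r r + 2 ≤ Fintype.card β := by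
    have e1 : (2 * J0r r : ℝ) ≤ n := by exact_mod_cast c3
    have e2 : ((Fintype.card β : ℕ) : ℝ) + 131076 * x ^ 14 + (d + 1) = n := by
      rw [hx]; exact_mod_cast hcard
    have h5 : (10 ^ 10 : ℝ) ≤ x ^ 6 := by
      calc (10 ^ 10 : ℝ) ≤ x := hx10
        _ = x ^ 1 := (pow_one x).symm
        _ ≤ x ^ 6 := pow_le_pow_right₀ hx1 (by norm_num)
    have h6 : 10 ^ 10 * x ^ 14 ≤ x ^ 6 * x ^ 14 := mul_le_mul_of_nonneg_right h5 (by positivity)
    have h7 : x ^ 6 * x ^ 14 = x ^ 20 := by ring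
    have h8 : x ^ 7 ≤ x ^ 14 := pow_le_pow_right₀ hx1 (by norm_num)
    have h9 : 1 ≤ x ^ 14 := one_le_pow₀ hx1
    have e3 : ((J0r r + 2 : ℕ) : ℝ) ≤ (Fintype.card β : ℝ) := by
      push_cast
      linarith
    exact_mod_cast e3
  have hβne : Nonempty β := Fintype.card_pos_iff.1 (by omega)
  have hr14 : 1 ≤ r ^ 14 := Nat.one_le_pow _ _ (by omega)
  have hr7 : 1 ≤ r ^ 7 := Nat.one_le_pow _ _ (by omega)
  obtain ⟨g0, hg0⟩ : ∃ g0 : ℕ, g0 = 40 * ⌈Real.log r⌉₊ := ⟨_, rfl⟩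
  have hM8 : M8 S.toSys g0 := by
    rw [hg0]
    exact m8 S (J0r r) (hr7.trans c2) hN3 (by omega) hr14 (by omega) _
      (two_pow_g0 hx hx10 (s5.trans s1))
  have hg : (g0 : ℝ) ≤ 80 * x := by rw [hg0]; exact g0_le hx hx10
  obtain ⟨k, hk1, hk2, ρ, hρ0, hρ1, hρ2⟩ := hrb r hr2 n d h1 h2 h3 β I S hcard hMS
    (by rw [← hg0]; exact hM8)
  -- parameters
  obtain ⟨m, hm⟩ : ∃ m : ℝ, m = 65538 * x ^ 14 + 1 := ⟨_, rfl⟩
  obtain ⟨q, hq⟩ : ∃ q : ℝ, q = 4 * x ^ 14 / m := ⟨_, rfl⟩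
  obtain ⟨b, hb⟩ : ∃ b : ℝ, b = (d : ℝ) + 1 := ⟨_, rfl⟩
  obtain ⟨q1, q2⟩ := q_bounds hx1 hm hq
  have hq0 : 0 < q := lt_of_lt_of_le (by norm_num) q1
  have hm0 : 0 < m := by rw [hm]; positivity
  have hx14 : 1 ≤ x ^ 14 := one_le_pow₀ hx1
  have hb1 : 1 ≤ b := by rw [hb]; have : (0 : ℝ) ≤ d := Nat.cast_nonneg d; linarith
  have hb7 : b ≤ x ^ 7 := by rw [hb]; exact s3
  obtain ⟨N, hNN⟩ : ∃ N : ℝ, N = (Fintype.card β : ℝ) := ⟨_, rfl⟩
  rw [← hNN] at s4 s5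
  have hN0 : 0 < N := lt_of_lt_of_le (by positivity) s4
  rw [← hx] at hk2
  have hn0' : (0 : ℝ) ≤ n := Nat.cast_nonneg n
  rw [← hx, ← hm, ← hb] at ht2
  obtain ⟨r2, r3, r4, R, l2, l3, l4, lm, hRs, hK8, hR8, hk8, htime'⟩ := params hx10 hL hL0 hLx
    hClx hn0' s1 s2 hm hq hb1 hb7 s4 s5 hη hη1 hk2 ht1 ht2
  have htime : (k + R) * (4 * r ^ 14) ≤ t := by
    have e0 : (((k + R) * (4 * r ^ 14) : ℕ) : ℝ) = ((k + R : ℕ) : ℝ) * (4 * x ^ 14) := by
      rw [hx]; push_cast; ring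
    have e1 : (((k + R) * (4 * r ^ 14) : ℕ) : ℝ) ≤ t := by rw [e0]; exact htime'
    exact_mod_cast e1
  -- the pieces
  have hTc : ((4 * r ^ 14 : ℕ) : ℝ) = 4 * x ^ 14 := by rw [hx]; push_cast; ring
  have hIc : (Fintype.card I : ℝ) = 65538 * x ^ 14 := by rw [hIcard, hx]; push_cast; ring
  have hwin := win_part S.toSys r g0 (k + R) r2 r3 r4 hx hx10 hM8 hg hIcard hm hq hb hb7 hNN
    s4 hη hη1 l2 l3 l4 hRs hK8
  have hsum := sum_part S.toSys r g0 R hx hx10 hM8 hg hIcard hm hq s3 hNN s4 (by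
    rw [← hL]
    linarith) hR8
  have hD0 : 0 < (n / 2).choose (J0r r / 2) := by
    have : (0 : ℝ) < ((n / 2).choose (J0r r / 2) : ℝ) :=
      lt_of_lt_of_le (Real.exp_pos _) c4
    exact_mod_cast this
  have hhalf := half_pow r
  rw [← hx] at hhalf
  have hh0 : (0 : ℝ) ≤ (1 / 2 : ℝ) ^ (4 * r ^ 14) := by positivity
  have hn0 : (0 : ℝ) < n := lt_of_lt_of_le (by positivity) s2
  have hmain := final_tv2 S hβne (J0r r) ((n / 2).choose (J0r r / 2)) (k * (2 * r ^ 14))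
    (4 * r ^ 14) k R hD0 (fun V hV hne hinv => by
      have := dim_HH (X := Pos β I d) (J0r r) (by rw [hPos]; exact c1) V hV hne hinv
      rw [hPos] at this
      exact this)
    (Real.exp (2.8 * x ^ 14)) (10 / x) (Real.one_le_exp (by positivity)) ρ hρ0
    (by rw [hx]; exact hρ1) (by rw [hx]; exact hρ2)
    (fun F hF => low_alpha S (J0r r) hN3 (by omega) hr14 hJβ (4 * r ^ 14) F hF)
    (√((Fintype.card (Pos β I d) : ℝ) ^ (d + 1)) * (1 / 2) ^ (4 * r ^ 14)) q (by positivity)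
    (fun φ hφ y => tup_sup S (J0r r) hN3 (by omega) hr14 (d + 1) (h3.trans c2)
      (by rw [hPos]; omega) (4 * r ^ 14) φ hφ y) (by linarith) (by
      -- Bernoulli
      have e1 := one_add_mul_le_pow (a := -(1 / m)) (by
        have : 1 / m ≤ 1 := by
          rw [div_le_one hm0, hm]
          linarith
        linarith) (4 * r ^ 14)
      have e2 : 1 + -(1 / m) = (Fintype.card I : ℝ) / (Fintype.card I + 1) := by
        rw [hIc, hm]
        field_simp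
        ring
      rw [e2, hTc] at e1
      have e3 : 1 + 4 * x ^ 14 * -(1 / m) = 1 - q := by rw [hq]; ring
      rw [e3] at e1
      linarith) (by ring) t htime
  refine hmain.trans ?_
  rw [hPos]
  have p1 := t1 (D := (((n / 2).choose (J0r r / 2) : ℕ) : ℝ)) hx1 (by rw [hx]; exact c4)
  have p2 := t2 hx1 (Nat.cast_nonneg R) hR8 hh0 hhalf
  have p3 := t3 (d + 1) (by linarith : 1000 ≤ x) hL hLx (Nat.cast_nonneg k) hk8 hh0 hn0 s1
    (by push_cast; exact s3) hhalf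
  have p4 := t4 R hx1 hq0.le (by linarith) (by
    have e2 : 12 * (30 * L) ≤ 12 / q * (30 * L) := by
      apply mul_le_mul_of_nonneg_right _ (by positivity)
      rw [le_div_iff₀ hq0]
      linarith
    rw [← hL]
    linarith)
  rw [← hx, ← hb]
  have hE1 : 0 ≤ b * Real.exp (-(η * b / 12)) := by positivity
  have hE2 : 0 ≤ Real.exp (-(η ^ 2 * b / 2)) / η := by positivity
  have hE3 : 0 ≤ 1 / x := by positivity
  have z1 : 2 * b * Real.exp (-(η * b / 12)) = 2 * (b * Real.exp (-(η * b / 12))) := by ring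
  have z2 : 2 / η * Real.exp (-(η ^ 2 * b / 2)) = 2 * (Real.exp (-(η ^ 2 * b / 2)) / η) := by ring
  have z3 : 10 / x = 10 * (1 / x) := by ring
  have z4 : 3 / x = 3 * (1 / x) := by ring
  have z5 : 2 / x = 2 * (1 / x) := by ring
  rw [z1, z2, z5] at hwin
  rw [z4] at hsum
  rw [z3]
  linarith

end Pool.Agent.H9.Low
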