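import Mathlib

/-!
# Numerical lemmas for the upper bound for one `n`
-/

namespace Pool.Agent.H9.Low.T27cN

open Finset

theorem q_bounds {x q m : ℝ} (hx : 1 ≤ x) (hm : m = 65538 * x ^ 14 + 1)
    (hq : q = 4 * x ^ 14 / m) : 1 / 16385 ≤ q ∧ q ≤ 1 / 16384 := by
  have h1 : 1 ≤ x ^ 14 := one_le_pow₀ hx
  have hm0 : 0 < m := by rw [hm]; linarith
  constructor
  · rw [hq, div_le_div_iff₀ (by norm_num) hm0, hm]
    linarith
  · rw [hq, div_le_div_iff₀ hm0 (by norm_num), hm]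
    linarith

theorem exp_neg_le {y : ℝ} (hy : 0 < y) : Real.exp (-y) ≤ 1 / y := by
  rw [Real.exp_neg, ← one_div]
  apply one_div_le_one_div_of_le hy
  have := Real.add_one_le_exp y
  linarith

theorem exp_small {x y : ℝ} (hx : 1 ≤ x) (hy : x ^ 14 ≤ y) :
    x ^ 8 * Real.exp (-y) ≤ 1 / x := by
  have hx0 : 0 < x := by linarith
  have h1 : Real.exp (-y) ≤ 1 / x ^ 14 :=
    (Real.exp_le_exp.2 (by linarith)).trans (exp_neg_le (by positivity : 0 < x ^ 14))
  have h2 : x ^ 8 * Real.exp (-y) ≤ x ^ 8 * (1 / x ^ 14) :=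
    mul_le_mul_of_nonneg_left h1 (by positivity)
  have h3 : x ^ 8 * (1 / x ^ 14) = 1 / x ^ 6 := by field_simp
  have h4 : 1 / x ^ 6 ≤ 1 / x := by
    apply one_div_le_one_div_of_le hx0
    calc x = x ^ 1 := (pow_one x).symm
      _ ≤ x ^ 6 := pow_le_pow_right₀ hx (by norm_num)
  linarith

theorem exp_small' {x y : ℝ} (hx : 1 ≤ x) (hy : x ^ 14 ≤ y) : Real.exp (-y) ≤ 1 / x := by
  have h1 := exp_small hx hy
  have h2 : 1 * Real.exp (-y) ≤ x ^ 8 * Real.exp (-y) :=
    mul_le_mul_of_nonneg_right (one_le_pow₀ hx) (Real.exp_pos _).le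
  linarith

/-- the factor `(1/2)^T` -/
theorem half_pow (r : ℕ) : (1 / 2 : ℝ) ^ (4 * r ^ 14) ≤ Real.exp (-(2.77 * (r : ℝ) ^ 14)) := by
  have h1 : (0 : ℝ) < (1 / 2 : ℝ) ^ (4 * r ^ 14) := by positivity
  rw [← Real.exp_log h1]
  apply Real.exp_le_exp.2
  rw [Real.log_pow, one_div, Real.log_inv]
  push_cast
  have h2 := Real.log_two_gt_d9
  have h3 : (0 : ℝ) ≤ (r : ℝ) ^ 14 := by positivity
  nlinarith

/-- `1 - u ≤ exp (-u)`, powers -/
theorem one_sub_pow_le {u v : ℝ} (n : ℕ) (hu1 : u ≤ 1) (h : v ≤ u * n) :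
    (1 - u) ^ n ≤ Real.exp (-v) := by
  have h1 : 1 - u ≤ Real.exp (-u) := Real.one_sub_le_exp_neg u
  calc (1 - u) ^ n ≤ (Real.exp (-u)) ^ n := pow_le_pow_left₀ (by linarith) h1 n
    _ = Real.exp (-(u * n)) := by rw [← Real.exp_nat_mul]; congr 1; ring
    _ ≤ Real.exp (-v) := Real.exp_le_exp.2 (by linarith)

theorem t1 {x D : ℝ} (hx : 1 ≤ x) (hD : Real.exp (12 * x ^ 14) ≤ D) :
    Real.exp (2.8 * x ^ 14) / √D ≤ 1 / x := by
  have h0 : 0 < Real.exp (12 * x ^ 14) := Real.exp_pos _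
  have h1 : Real.exp (6 * x ^ 14) ≤ √D := by
    apply Real.le_sqrt_of_sq_le
    refine le_trans (le_of_eq ?_) hD
    rw [← Real.exp_nat_mul]
    congr 1
    push_cast
    ring
  have h2 : Real.exp (2.8 * x ^ 14) / √D ≤
      Real.exp (2.8 * x ^ 14) / Real.exp (6 * x ^ 14) :=
    div_le_div_of_nonneg_left (Real.exp_pos _).le (Real.exp_pos _) h1
  rw [← Real.exp_sub] at h2
  have h3 : 2.8 * x ^ 14 - 6 * x ^ 14 = -(3.2 * x ^ 14) := by ring
  rw [h3] at h2
  refine h2.trans (exp_small' hx ?_)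
  have : 0 ≤ x ^ 14 := by positivity
  linarith

theorem t2 {x R h : ℝ} (hx : 1 ≤ x) (_hR0 : 0 ≤ R) (hR : R ≤ x ^ 8) (hh0 : 0 ≤ h)
    (hh : h ≤ Real.exp (-(2.77 * x ^ 14))) :
    R * h * √(Real.exp (2.8 * x ^ 14)) ≤ 1 / x := by
  have h1 : √(Real.exp (2.8 * x ^ 14)) = Real.exp (1.4 * x ^ 14) := by
    have h0 : Real.exp (2.8 * x ^ 14) = Real.exp (1.4 * x ^ 14) ^ 2 := by
      rw [← Real.exp_nat_mul]
      congr 1
      push_cast
      ring
    rw [h0, Real.sqrt_sq (Real.exp_pos _).le]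
  rw [h1, mul_assoc]
  have h2 : h * Real.exp (1.4 * x ^ 14) ≤ Real.exp (-(1.37 * x ^ 14)) := by
    calc h * Real.exp (1.4 * x ^ 14) ≤ Real.exp (-(2.77 * x ^ 14)) * Real.exp (1.4 * x ^ 14) :=
          mul_le_mul_of_nonneg_right hh (Real.exp_pos _).le
      _ = Real.exp (-(1.37 * x ^ 14)) := by
          rw [← Real.exp_add]
          congr 1
          ring
  calc R * (h * Real.exp (1.4 * x ^ 14)) ≤ x ^ 8 * Real.exp (-(1.37 * x ^ 14)) :=
        mul_le_mul hR h2 (by positivity) (by positivity)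
    _ ≤ 1 / x := exp_small hx (by
        have : 0 ≤ x ^ 14 := by positivity
        linarith)

theorem t3 {x L k M h : ℝ} (b : ℕ) (hx : 1000 ≤ x) (hL : L = Real.log x) (hLx : L ≤ x)
    (hk0 : 0 ≤ k) (hk : k ≤ x ^ 8) (hh0 : 0 ≤ h) (hM0 : 0 < M) (hM : M ≤ 2 * x ^ 20)
    (hb : (b : ℝ) ≤ x ^ 7) (hh : h ≤ Real.exp (-(2.77 * x ^ 14))) :
    k * (√(M ^ b) * h) ≤ 1 / x := by
  have hx0 : 0 < x := by linarith
  have hx1 : 1 ≤ x := by linarith
  have hL0 : 0 ≤ L := by rw [hL]; exact Real.log_nonneg hx1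
  have h1 : M ^ b ≤ Real.exp (21 * x ^ 8) := by
    have hpos : 0 < M ^ b := by positivity
    rw [← Real.exp_log hpos]
    apply Real.exp_le_exp.2
    rw [Real.log_pow]
    have e1 : Real.log M ≤ 21 * L := by
      have e2 : M ≤ x ^ 21 := by
        refine hM.trans ?_
        have : 2 * x ^ 20 ≤ x * x ^ 20 := mul_le_mul_of_nonneg_right (by linarith) (by positivity)
        calc 2 * x ^ 20 ≤ x * x ^ 20 := this
          _ = x ^ 21 := by ring
      calc Real.log M ≤ Real.log (x ^ 21) := Real.log_le_log hM0 e2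
        _ = 21 * L := by rw [Real.log_pow, hL]; norm_num
    calc (b : ℝ) * Real.log M ≤ b * (21 * L) :=
          mul_le_mul_of_nonneg_left e1 (Nat.cast_nonneg b)
      _ ≤ x ^ 7 * (21 * x) := mul_le_mul hb (by linarith) (by positivity) (by positivity)
      _ = 21 * x ^ 8 := by ring
  have h2 : √(M ^ b) ≤ Real.exp (11 * x ^ 8) := by
    rw [Real.sqrt_le_left (Real.exp_pos _).le, ← Real.exp_nat_mul]
    refine h1.trans (Real.exp_le_exp.2 ?_)
    push_cast
    have : 0 ≤ x ^ 8 := by positivity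
    linarith
  have h3 : 11 * x ^ 8 ≤ x ^ 14 := by
    have e1 : (11 : ℝ) ≤ x ^ 6 := by
      calc (11 : ℝ) ≤ x := by linarith
        _ = x ^ 1 := (pow_one x).symm
        _ ≤ x ^ 6 := pow_le_pow_right₀ hx1 (by norm_num)
    calc 11 * x ^ 8 ≤ x ^ 6 * x ^ 8 := mul_le_mul_of_nonneg_right e1 (by positivity)
      _ = x ^ 14 := by ring
  have h4 : √(M ^ b) * h ≤ Real.exp (-(1.77 * x ^ 14)) := by
    calc √(M ^ b) * h ≤ Real.exp (11 * x ^ 8) * Real.exp (-(2.77 * x ^ 14)) :=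
          mul_le_mul h2 hh hh0 (Real.exp_pos _).le
      _ = Real.exp (11 * x ^ 8 + -(2.77 * x ^ 14)) := (Real.exp_add _ _).symm
      _ ≤ Real.exp (-(1.77 * x ^ 14)) := Real.exp_le_exp.2 (by linarith)
  calc k * (√(M ^ b) * h) ≤ x ^ 8 * Real.exp (-(1.77 * x ^ 14)) :=
        mul_le_mul hk h4 (by positivity) (by positivity)
    _ ≤ 1 / x := exp_small hx1 (by
        have : 0 ≤ x ^ 14 := by positivity
        linarith)

theorem t4 {x q : ℝ} (R : ℕ) (hx : 1 ≤ x) (hq0 : 0 ≤ q) (hq : q ≤ 1 / 2)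
    (hR : 2 * Real.log x ≤ R) : q ^ R ≤ 1 / x := by
  have hx0 : 0 < x := by linarith
  have h1 : q ^ R ≤ (1 - 1 / 2) ^ R := by
    apply pow_le_pow_left₀ hq0
    linarith
  have h2 : (1 - 1 / 2 : ℝ) ^ R ≤ Real.exp (-(Real.log x)) :=
    one_sub_pow_le R (by norm_num) (by linarith)
  rw [Real.exp_neg, Real.exp_log hx0, ← one_div] at h2
  linarith

theorem sum_bound {R : ℕ} {q α β γ : ℝ} {f : ℕ → ℝ} (hq0 : 0 ≤ q) (hq : q ≤ 1 / 4)
    (hα : 0 ≤ α) (hβ : 0 ≤ β) (hγ : 0 ≤ γ)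
    (hf : ∀ s < R, f s ≤ α * (1 - q / 12) ^ s + β + γ * s) :
    ∑ j ∈ range R, q ^ j * f (R - 1 - j) ≤
      2 * (α * (1 - q / 12) ^ (R - 1)) + 2 * (β + γ * R) := by
  have h12 : 0 ≤ 1 - q / 12 := by linarith
  have key : ∀ j ∈ range R, q ^ j * f (R - 1 - j) ≤
      (1 / 2) ^ j * (α * (1 - q / 12) ^ (R - 1) + (β + γ * R)) := by
    intro j hj
    have hjR := Finset.mem_range.1 hj
    have h1 := hf (R - 1 - j) (by omega)
    have h2 : ((R - 1 - j : ℕ) : ℝ) ≤ R := by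
      exact_mod_cast (by omega : R - 1 - j ≤ R)
    have h3 : γ * ((R - 1 - j : ℕ) : ℝ) ≤ γ * R := mul_le_mul_of_nonneg_left h2 hγ
    have hqj : 0 ≤ q ^ j := by positivity
    have h4 : q ^ j ≤ (1 / 2) ^ j := pow_le_pow_left₀ hq0 (by linarith) j
    have h5 : q ^ j * (1 - q / 12) ^ (R - 1 - j) ≤ (1 / 2) ^ j * (1 - q / 12) ^ (R - 1) := by
      have e1 : q ^ j ≤ (1 / 2 * (1 - q / 12)) ^ j := pow_le_pow_left₀ hq0 (by linarith) j
      calc q ^ j * (1 - q / 12) ^ (R - 1 - j)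
          ≤ (1 / 2 * (1 - q / 12)) ^ j * (1 - q / 12) ^ (R - 1 - j) :=
            mul_le_mul_of_nonneg_right e1 (by positivity)
        _ = (1 / 2) ^ j * ((1 - q / 12) ^ j * (1 - q / 12) ^ (R - 1 - j)) := by
            rw [mul_pow]; ring
        _ = (1 / 2) ^ j * (1 - q / 12) ^ (R - 1) := by
            rw [← pow_add]
            congr 2
            omega
    calc q ^ j * f (R - 1 - j)
        ≤ q ^ j * (α * (1 - q / 12) ^ (R - 1 - j) + (β + γ * R)) :=
          mul_le_mul_of_nonneg_left (by linarith) hqj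
      _ = α * (q ^ j * (1 - q / 12) ^ (R - 1 - j)) + q ^ j * (β + γ * R) := by ring
      _ ≤ α * ((1 / 2) ^ j * (1 - q / 12) ^ (R - 1)) + (1 / 2) ^ j * (β + γ * R) :=
          add_le_add (mul_le_mul_of_nonneg_left h5 hα)
            (mul_le_mul_of_nonneg_right h4 (by positivity))
      _ = (1 / 2) ^ j * (α * (1 - q / 12) ^ (R - 1) + (β + γ * R)) := by ring
  refine (Finset.sum_le_sum key).trans ?_
  rw [← Finset.sum_mul]
  have h6 : ∑ j ∈ range R, (1 / 2 : ℝ) ^ j ≤ 2 := sum_geometric_two_le R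
  have h7 : 0 ≤ α * (1 - q / 12) ^ (R - 1) + (β + γ * R) := by positivity
  calc (∑ j ∈ range R, (1 / 2 : ℝ) ^ j) * (α * (1 - q / 12) ^ (R - 1) + (β + γ * R))
      ≤ 2 * (α * (1 - q / 12) ^ (R - 1) + (β + γ * R)) := mul_le_mul_of_nonneg_right h6 h7
    _ = _ := by ring

/-- the device term -/
theorem dev_term {η m b : ℝ} (B n : ℕ) (hη : 0 < η) (hη1 : η < 1) (hm : 1 ≤ m)
    (hb : b = (B : ℝ)) (hn : (1 + 2 * η) * m * b ≤ n) :
    (1 + η) ^ (B + 1) / (1 + η - 1) * (1 - (1 - 1 / (1 + η)) / m) ^ n ≤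
      2 / η * Real.exp (-(η ^ 2 * b / 2)) := by
  have hm0 : 0 < m := by linarith
  have hb0 : 0 ≤ b := by rw [hb]; positivity
  have h1 : (1 + η) ^ (B + 1) ≤ 2 * Real.exp (η * b) := by
    have e1 : (1 + η) ^ B ≤ Real.exp (η * b) := by
      calc (1 + η) ^ B ≤ (Real.exp η) ^ B := by
            apply pow_le_pow_left₀ (by linarith)
            have := Real.add_one_le_exp η
            linarith
        _ = Real.exp (η * b) := by rw [← Real.exp_nat_mul, hb]; congr 1; ring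
    rw [pow_succ]
    have e2 : 0 < Real.exp (η * b) := Real.exp_pos _
    have e3 : (1 + η) ^ B * (1 + η) ≤ Real.exp (η * b) * 2 :=
      mul_le_mul e1 (by linarith) (by linarith) e2.le
    linarith
  have h2 : (1 - (1 - 1 / (1 + η)) / m) ^ n ≤
      Real.exp (-(η * (1 + 2 * η) * b / (1 + η))) := by
    have e0 : (1 - 1 / (1 + η)) / m = η / ((1 + η) * m) := by
      field_simp
      ring
    rw [e0]
    apply one_sub_pow_le
    · rw [div_le_one (by positivity)]
      have : 1 * 1 ≤ (1 + η) * m := mul_le_mul (by linarith) hm (by norm_num) (by linarith)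
      linarith
    · have e1 : η / ((1 + η) * m) * ((1 + 2 * η) * m * b) ≤ η / ((1 + η) * m) * n :=
        mul_le_mul_of_nonneg_left hn (by positivity)
      have e2 : η / ((1 + η) * m) * ((1 + 2 * η) * m * b) = η * (1 + 2 * η) * b / (1 + η) := by
        field_simp
      linarith
  have h3 : 1 + η - 1 = η := by ring
  rw [h3]
  calc (1 + η) ^ (B + 1) / η * (1 - (1 - 1 / (1 + η)) / m) ^ n
      ≤ (2 * Real.exp (η * b)) / η * Real.exp (-(η * (1 + 2 * η) * b / (1 + η))) := by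
        apply mul_le_mul (div_le_div_of_nonneg_right h1 hη.le) h2 _ (by positivity)
        apply pow_nonneg
        have e0 : (1 - 1 / (1 + η)) / m = η / ((1 + η) * m) := by
          field_simp
          ring
        rw [e0, sub_nonneg, div_le_one (by positivity)]
        have : 1 * 1 ≤ (1 + η) * m := mul_le_mul (by linarith) hm (by norm_num) (by linarith)
        linarith
    _ = 2 / η * Real.exp (η * b - η * (1 + 2 * η) * b / (1 + η)) := by
        rw [sub_eq_add_neg, Real.exp_add]; ring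
    _ ≤ 2 / η * Real.exp (-(η ^ 2 * b / 2)) := by
        apply mul_le_mul_of_nonneg_left _ (by positivity)
        apply Real.exp_le_exp.2
        have e1 : η * b - η * (1 + 2 * η) * b / (1 + η) = -(η ^ 2 * b / (1 + η)) := by
          field_simp
          ring
        rw [e1]
        have e2 : η ^ 2 * b / 2 ≤ η ^ 2 * b / (1 + η) :=
          div_le_div_of_nonneg_left (by positivity) (by linarith) (by linarith)
        linarith

/-- the small terms of `win_bound` -/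
theorem rest_term {x q m N b s g : ℝ} (hx : 1000 ≤ x) (hq0 : 0 < q) (hq : q ≤ 1)
    (hm : 65538 * x ^ 14 ≤ m) (hN : x ^ 20 / 2 ≤ N) (hb0 : 0 ≤ b) (hb : b ≤ x ^ 7)
    (_hs0 : 0 ≤ s) (hs : s ≤ x ^ 8) (hg0 : 0 ≤ g) (hg : g ≤ 80 * x) :
    s * q * (400 * b / (q * N) + 2 * g / m) ≤ 2 / x := by
  have hx0 : 0 < x := by linarith
  have hx1 : 1 ≤ x := by linarith
  have hN0 : 0 < N := lt_of_lt_of_le (by positivity) hN
  have hm0 : 0 < m := lt_of_lt_of_le (by positivity) hm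
  have e0 : s * q * (400 * b / (q * N) + 2 * g / m) = s * (400 * b) / N + s * q * (2 * g) / m := by
    field_simp
  have e1 : s * (400 * b) / N ≤ 1 / x := by
    rw [div_le_div_iff₀ hN0 hx0]
    have h1 : s * (400 * b) ≤ x ^ 8 * (400 * x ^ 7) :=
      mul_le_mul hs (by linarith) (by positivity) (by positivity)
    have h2 : x ^ 8 * (400 * x ^ 7) * x ≤ x ^ 20 / 2 := by
      have h3 : (800 : ℝ) ≤ x ^ 4 := by
        calc (800 : ℝ) ≤ x := by linarith
          _ = x ^ 1 := (pow_one x).symm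
          _ ≤ x ^ 4 := pow_le_pow_right₀ hx1 (by norm_num)
      have h4 : 800 * x ^ 16 ≤ x ^ 4 * x ^ 16 := mul_le_mul_of_nonneg_right h3 (by positivity)
      have h5 : x ^ 4 * x ^ 16 = x ^ 20 := by ring
      have h6 : x ^ 8 * (400 * x ^ 7) * x = 400 * x ^ 16 := by ring
      linarith
    have h7 : s * (400 * b) * x ≤ x ^ 8 * (400 * x ^ 7) * x :=
      mul_le_mul_of_nonneg_right h1 hx0.le
    linarith
  have e2 : s * q * (2 * g) / m ≤ 1 / x := by
    rw [div_le_div_iff₀ hm0 hx0]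
    have h1 : s * q ≤ x ^ 8 * 1 := mul_le_mul hs hq hq0.le (by positivity)
    have h2 : s * q * (2 * g) ≤ x ^ 8 * 1 * (2 * (80 * x)) :=
      mul_le_mul h1 (by linarith) (by positivity) (by positivity)
    have h3 : s * q * (2 * g) * x ≤ x ^ 8 * 1 * (2 * (80 * x)) * x :=
      mul_le_mul_of_nonneg_right h2 hx0.le
    have h4 : x ^ 8 * 1 * (2 * (80 * x)) * x = 160 * x ^ 10 := by ring
    have h5 : x ^ 10 ≤ x ^ 14 := pow_le_pow_right₀ hx1 (by norm_num)
    have h6 : 0 ≤ x ^ 10 := by positivity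
    linarith
  have e3 : 2 / x = 1 / x + 1 / x := by ring
  rw [e0, e3]
  linarith

/-- the coefficients of `win_bound0` -/
theorem coef0 {x q m N g p : ℝ} (R : ℝ) (hx : 10 ^ 10 ≤ x) (hq : 1 / 16385 ≤ q)
    (hm : 65538 * x ^ 14 ≤ m) (hN : x ^ 20 / 2 ≤ N) (hg : g ≤ 80 * x)
    (hR0 : 0 ≤ R) (hR : R ≤ x ^ 8) (hp0 : 0 ≤ p) (hp : p ≤ 1 / x ^ 30) :
    2 * (300 * (65538 * x ^ 14) / q * p) +
      2 * (2000000 * (65538 * x ^ 14) / (q ^ 2 * N) + 400 * g / m * R) ≤ 3 / x := by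
  have hx0 : 0 < x := by linarith
  have hx1 : 1 ≤ x := by linarith
  have hq0 : 0 < q := lt_of_lt_of_le (by norm_num) hq
  have hN0 : 0 < N := lt_of_lt_of_le (by positivity) hN
  have hm0 : 0 < m := lt_of_lt_of_le (by positivity) hm
  have hqi : 1 / q ≤ 16385 := by
    rw [div_le_iff₀ hq0]
    linarith
  have e1 : 2 * (300 * (65538 * x ^ 14) / q * p) ≤ 1 / x := by
    have h1 : 2 * (300 * (65538 * x ^ 14) / q * p) = 39322800 * x ^ 14 * (1 / q) * p := by ring
    rw [h1]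
    have h2 : 39322800 * x ^ 14 * (1 / q) * p ≤ 39322800 * x ^ 14 * 16385 * (1 / x ^ 30) := by
      apply mul_le_mul _ hp hp0 (by positivity)
      exact mul_le_mul_of_nonneg_left hqi (by positivity)
    have h3 : 39322800 * x ^ 14 * 16385 * (1 / x ^ 30) = 644304078000 / x ^ 16 := by
      field_simp
      norm_num
    have h4 : 644304078000 / x ^ 16 ≤ 1 / x := by
      rw [div_le_div_iff₀ (by positivity) hx0]
      have h5 : (644304078000 : ℝ) ≤ x ^ 15 := by
        calc (644304078000 : ℝ) ≤ (10 ^ 10) ^ 15 := by norm_num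
          _ ≤ x ^ 15 := pow_le_pow_left₀ (by norm_num) hx 15
      have h6 : 644304078000 * x ≤ x ^ 15 * x := mul_le_mul_of_nonneg_right h5 hx0.le
      have h7 : x ^ 15 * x = x ^ 16 := by ring
      linarith
    linarith
  have e2 : 2 * (2000000 * (65538 * x ^ 14) / (q ^ 2 * N)) ≤ 1 / x := by
    have h1 : 2 * (2000000 * (65538 * x ^ 14) / (q ^ 2 * N)) =
        262152000000 * x ^ 14 * (1 / q * (1 / q)) * (1 / N) := by
      field_simp
      ring
    rw [h1]
    have h2 : 1 / q * (1 / q) ≤ 16385 * 16385 :=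
      mul_le_mul hqi hqi (by positivity) (by norm_num)
    have h3 : 1 / N ≤ 1 / (x ^ 20 / 2) := one_div_le_one_div_of_le (by positivity) hN
    have h4 : 262152000000 * x ^ 14 * (1 / q * (1 / q)) * (1 / N) ≤
        262152000000 * x ^ 14 * (16385 * 16385) * (1 / (x ^ 20 / 2)) := by
      apply mul_le_mul _ h3 (by positivity) (by positivity)
      exact mul_le_mul_of_nonneg_left h2 (by positivity)
    have h6 : 262152000000 * x ^ 14 * (16385 * 16385) * (1 / (x ^ 20 / 2)) ≤ 1 / x := by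
      have h7 : 262152000000 * x ^ 14 * (16385 * 16385) * (1 / (x ^ 20 / 2)) =
          (262152000000 * (16385 * 16385) * 2) / x ^ 6 := by
        field_simp
      rw [h7, div_le_div_iff₀ (by positivity) hx0]
      have h8 : (262152000000 * (16385 * 16385) * 2 : ℝ) ≤ x ^ 5 := by
        calc (262152000000 * (16385 * 16385) * 2 : ℝ) ≤ (10 ^ 10) ^ 5 := by norm_num
          _ ≤ x ^ 5 := pow_le_pow_left₀ (by norm_num) hx 5
      have h9 : 262152000000 * (16385 * 16385) * 2 * x ≤ x ^ 5 * x :=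
        mul_le_mul_of_nonneg_right h8 hx0.le
      have h10 : x ^ 5 * x = x ^ 6 := by ring
      linarith
    linarith
  have e3 : 2 * (400 * g / m * R) ≤ 1 / x := by
    have h1 : 2 * (400 * g / m * R) = 800 * g * R / m := by ring
    rw [h1, div_le_div_iff₀ hm0 hx0]
    have h2 : 800 * g * R ≤ 800 * (80 * x) * x ^ 8 :=
      mul_le_mul (by linarith) hR hR0 (by positivity)
    have h3 : 800 * g * R * x ≤ 800 * (80 * x) * x ^ 8 * x :=
      mul_le_mul_of_nonneg_right h2 hx0.le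
    have h4 : 800 * (80 * x) * x ^ 8 * x = 64000 * x ^ 10 := by ring
    have h5 : x ^ 10 ≤ x ^ 14 := pow_le_pow_right₀ hx1 (by norm_num)
    have h6 : 0 ≤ x ^ 10 := by positivity
    linarith
  have e4 : 3 / x = 1 / x + 1 / x + 1 / x := by ring
  rw [e4]
  linarith

/-- the last decay -/
theorem decay30 {x q : ℝ} (R : ℕ) (hx : 1 ≤ x) (hq0 : 0 < q) (hq : q ≤ 1)
    (hR : 12 / q * (30 * Real.log x) + 1 ≤ R) : (1 - q / 12) ^ (R - 1) ≤ 1 / x ^ 30 := by
  have hx0 : 0 < x := by linarith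
  have hl0 : 0 ≤ Real.log x := Real.log_nonneg hx
  have hR1 : 1 ≤ R := by
    have : (1 : ℝ) ≤ R := by
      have : 0 ≤ 12 / q * (30 * Real.log x) := by positivity
      linarith
    exact_mod_cast this
  have h1 : (1 - q / 12) ^ (R - 1) ≤ Real.exp (-(30 * Real.log x)) := by
    apply one_sub_pow_le _ (by linarith)
    rw [Nat.cast_sub hR1]
    push_cast
    have h2 : q / 12 * (12 / q * (30 * Real.log x)) ≤ q / 12 * ((R : ℝ) - 1) :=
      mul_le_mul_of_nonneg_left (by linarith) (by positivity)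
    have h3 : q / 12 * (12 / q * (30 * Real.log x)) = 30 * Real.log x := by field_simp
    linarith
  have h4 : Real.exp (-(30 * Real.log x)) = 1 / x ^ 30 := by
    rw [Real.exp_neg, ← one_div]
    congr 1
    have : 30 * Real.log x = ((30 : ℕ) : ℝ) * Real.log x := by norm_num
    rw [this, Real.exp_nat_mul, Real.exp_log hx0]
  rw [← h4]
  exact h1

end Pool.Agent.H9.Low.T27cN
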