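import Pool.Agent.H9.Low.Defs2
import Pool.Agent.H9.Low.T21

/-!
# Masses started from `n0` (X4)
-/

namespace Pool.Agent.H9.Low

open Equiv Finset

section xfour
variable {β I : Type} [Fintype β] [DecidableEq β] [Fintype I] [DecidableEq I] {d : ℕ}

/-- the device inside one window -/
theorem x4_dev (S : Sys β I d) (n : Pos β I d → ℝ) (hn : ∀ a, 0 ≤ n a) (m K : ℝ)
    (hm : m = Fintype.card I + 1)
    (hK : ∀ t, (fw S.gl)^[t] n (Sum.inl S.p) ≤ K) (t : ℕ) :
    DV ((fw S.gl)^[t] n) ≤ DV n + t / m * K := by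
  have hm0 : 0 < m := by rw [hm]; positivity
  induction t with
  | zero => simp
  | succ t ih =>
    rw [Function.iterate_succ_apply']
    have h1 := DV_step S ((fw S.gl)^[t] n) (t15_nonneg_iter S.gl t n hn) m hm
    have h2 : 1 / m * (fw S.gl)^[t] n (Sum.inl S.p) ≤ 1 / m * K :=
      mul_le_mul_of_nonneg_left (hK t) (by positivity)
    have h3 : ((t + 1 : ℕ) : ℝ) / m * K = t / m * K + 1 / m * K := by
      push_cast
      ring
    rw [h3]
    linarith

theorem x4_geom (a : ℝ) (ha0 : 0 ≤ a) (ha1 : a < 1) (k : ℕ) :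
    ∑ j ∈ range k, a ^ j ≤ 1 / (1 - a) := by
  have h1 : (∑ j ∈ range k, a ^ j) * (1 - a) = 1 - a ^ k := geom_sum_mul_neg a k
  rw [le_div_iff₀ (by linarith), h1]
  have := pow_nonneg ha0 k
  linarith

theorem win_bound0 (S : Sys β I d) (g0 T s : ℕ) (hM : M8 S g0) (m q N : ℝ)
    (hm : m = Fintype.card I + 1) (hN : N = Fintype.card β) (hq : q = T / m) (hq2 : q ≤ 1 / 2)
    (hg : g0 ≤ T) (hT : 1 ≤ T)
    (hδ : g0 / m + q * (2 * Fintype.card I / N + g0 / m) ≤ q / 192)
    (hIN : 2 * Fintype.card (Out I d) ≤ N) (hs : 1000 * s ≤ N) :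
    tot ((S.WW T)^[s] (n0 β I d)) ≤
      300 * Fintype.card I / q * (1 - q / 12) ^ s
        + 2000000 * Fintype.card I / (q ^ 2 * N) + 400 * s * g0 / m := by
  have hm1 : 1 ≤ m := by rw [hm]; linarith [(Nat.cast_nonneg (Fintype.card I) : (0 : ℝ) ≤ _)]
  have hm0 : 0 < m := by linarith
  have hq0 : 0 < q := by
    rw [hq]
    have : (0 : ℝ) < T := by exact_mod_cast hT
    positivity
  have hcard : (Fintype.card (Out I d) : ℝ) = 2 * Fintype.card I + (d + 1) := by
    simp only [Out, Fintype.card_sum, Fintype.card_prod, Fintype.card_bool, Fintype.card_fin]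
    push_cast
    ring
  have hd0 : (0 : ℝ) ≤ d := Nat.cast_nonneg _
  obtain ⟨i0, hi0⟩ : ∃ i0 : ℝ, i0 = Fintype.card I := ⟨_, rfl⟩
  have hI0 : 0 ≤ i0 := by rw [hi0]; exact Nat.cast_nonneg _
  have hN2 : 2 + 4 * i0 ≤ N := by rw [hcard, ← hi0] at hIN; linarith
  have hN0 : 0 < N := by linarith
  have ha0 : 0 ≤ 1 - q / 12 := by linarith
  have ha1 : 1 - q / 12 < 1 := by linarith
  have ha2 : 23 / 24 ≤ 1 - q / 12 := by linarith
  rw [← hi0] at hδ ⊢
  obtain ⟨a, ha⟩ : ∃ a : ℝ, a = 1 - q / 12 := ⟨_, rfl⟩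
  rw [← ha] at ha0 ha1 ha2 ⊢
  -- the masses
  obtain ⟨nn, hnn⟩ : ∃ nn : ℕ → Pos β I d → ℝ, nn = fun r => (S.WW T)^[r] (n0 β I d) :=
    ⟨_, rfl⟩
  have hnn0 : nn 0 = n0 β I d := by rw [hnn]; rfl
  have hnns : ∀ r, nn (r + 1) = S.WW T (nn r) := by
    intro r
    rw [hnn]
    exact Function.iterate_succ_apply' _ _ _
  have hbulk0 : 2 * i0 / N ≤ 1 := by
    rw [div_le_one hN0]
    linarith
  have hstart : ∀ a', 0 ≤ n0 β I d a' ∧ n0 β I d a' ≤ 1 := by
    intro a'
    rcases a' with x | (y | j)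
    · simp only [n0, Sum.elim_inl]
      rw [← hN, ← hi0]
      exact ⟨by positivity, hbulk0⟩
    · simp only [n0, Sum.elim_inl, Sum.elim_inr]
      exact ⟨zero_le_one, le_refl _⟩
    · simp only [n0, Sum.elim_inr]
      exact ⟨le_refl _, zero_le_one⟩
  have hn : ∀ r a', 0 ≤ nn r a' := by
    intro r
    induction r with
    | zero => intro a'; rw [hnn0]; exact (hstart a').1
    | succ r ih => intro a'; rw [hnns]; exact t21_WW_nonneg S T _ ih a'
  have hn1 : ∀ r a', nn r a' ≤ 1 := by
    intro r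
    induction r with
    | zero => intro a'; rw [hnn0]; exact (hstart a').2
    | succ r ih => intro a'; rw [hnns]; exact t21_WW_le_one S T _ ih N hN hIN a'
  -- start
  have hV0 : VV (nn 0) = 5 / 2 * i0 := by
    rw [hnn0]
    unfold VV n0
    simp only [Sum.elim_inl, Sum.elim_inr]
    rw [Finset.sum_const, Finset.card_univ, nsmul_eq_mul, ← hi0]
    ring
  have hB0 : BM (nn 0) = 2 * i0 := by
    rw [hnn0]
    unfold BM n0
    simp only [Sum.elim_inl]
    rw [Finset.sum_const, Finset.card_univ, nsmul_eq_mul, ← hi0, ← hN]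
    field_simp
  have hD0 : DV (nn 0) = 0 := by
    rw [hnn0]
    unfold DV n0
    simp only [Sum.elim_inr, Finset.sum_const_zero]
  have htot0 : 2 * i0 ≤ tot (nn 0) := by
    unfold tot
    rw [t21_split]
    have h1 : 0 ≤ ∑ y, nn 0 (Sum.inr y) := Finset.sum_nonneg fun y _ => hn 0 _
    have h2 : ∑ x, nn 0 (Sum.inl x) = 2 * i0 := hB0
    linarith
  -- the potential
  obtain ⟨Φ, hΦ⟩ : ∃ Φ : ℕ → ℝ, Φ = fun r => VV (nn r) + q / 48 * BM (nn r) := ⟨_, rfl⟩
  have hΦs : ∀ r, Φ (r + 1) ≤ (1 - q / 12) * Φ r + q / 16 * DV (nn r) := by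
    intro r
    rw [hΦ]
    simp only [hnns]
    exact t21_Phi S g0 T hM m q N hm hN hq hq2 (by rw [← hi0]; exact hδ) (nn r) (hn r)
  have hΦ0 : Φ 0 ≤ 3 * i0 := by
    rw [hΦ]
    simp only [hV0, hB0]
    have h4 : q / 48 * (2 * i0) ≤ 1 / 96 * (2 * i0) :=
      mul_le_mul_of_nonneg_right (by linarith) (by linarith)
    linarith
  have htot : ∀ r, tot (nn r) ≤ 48 / q * Φ r + DV (nn r) := by
    intro r
    have h1 := t21_tot (nn r) (hn r)
    have hV := t21_VV_nonneg (nn r) (hn r)
    have h3 : 48 / q * Φ r = 48 / q * VV (nn r) + BM (nn r) := by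
      rw [hΦ]
      field_simp
    have h4 : 1 * VV (nn r) ≤ 48 / q * VV (nn r) := by
      refine mul_le_mul_of_nonneg_right ?_ hV
      rw [le_div_iff₀ hq0]
      linarith
    linarith
  -- the bound for the device
  obtain ⟨Ds, hDs⟩ : ∃ Ds : ℝ, Ds = 20736 * i0 / (q * N) + 4 * s * q * g0 / m := ⟨_, rfl⟩
  have hDs0 : 0 ≤ Ds := by rw [hDs]; positivity
  have hMk : ∀ k, (∀ j, j < k → DV (nn j) ≤ Ds) → DV (nn k) ≤ Ds →
      tot (nn k) ≤ 144 * i0 / q * a ^ k + 37 * Ds / q := by
    intro k hk1 hk2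
    have h1 := t21_rec Φ (fun r => DV (nn r)) q Ds hq0.le hq2 0 k hΦs
      (fun j hj => by rw [zero_add]; exact hk1 j hj) hDs0 k le_rfl
    rw [zero_add, ← ha] at h1
    have h2 := htot k
    have h3 : a ^ k * Φ 0 ≤ a ^ k * (3 * i0) := mul_le_mul_of_nonneg_left hΦ0 (pow_nonneg ha0 k)
    have h4 : 48 / q * Φ k ≤ 48 / q * (a ^ k * (3 * i0) + 3 / 4 * Ds) :=
      mul_le_mul_of_nonneg_left (by linarith) (by positivity)
    have h5 : Ds ≤ Ds / q := by
      rw [le_div_iff₀ hq0]
      nlinarith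
    have h6 : 144 * i0 / q * a ^ k + 37 * Ds / q =
        48 / q * (a ^ k * (3 * i0) + 3 / 4 * Ds) + Ds / q := by
      field_simp
      ring
    linarith
  -- one window for the device
  have hDstep : ∀ k, (∀ j, j ≤ k → DV (nn j) ≤ Ds) →
      DV (nn (k + 1)) ≤ DV (nn k) + (453 * i0 / N * a ^ k + (111 * Ds / N + 2 * q * g0 / m)) := by
    intro k hk
    obtain ⟨K, hK⟩ : ∃ K : ℝ, K = 3 / N * (151 * i0 / q * a ^ k + 37 * Ds / q) + g0 / m :=
      ⟨_, rfl⟩
    have hak := pow_nonneg ha0 k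
    have hx0 : 0 ≤ i0 / q * a ^ k := by positivity
    have hg0 : (0 : ℝ) ≤ g0 / m := by positivity
    have hMkk : tot (nn k) ≤ 151 * i0 / q * a ^ k + 37 * Ds / q := by
      have h1 := hMk k (fun j hj => hk j hj.le) (hk k le_rfl)
      have h2 : 144 * i0 / q * a ^ k = 144 * (i0 / q * a ^ k) := by ring
      have h3 : 151 * i0 / q * a ^ k = 151 * (i0 / q * a ^ k) := by ring
      rw [h3]
      linarith
    have hK0 : 0 ≤ K := by rw [hK]; positivity
    have hb1 : ∀ x, nn k (Sum.inl x) ≤ K := by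
      intro x
      rcases k with _ | k
      · have h1 : nn 0 (Sum.inl x) = 2 * i0 / N := by
          rw [hnn0]
          simp only [n0, Sum.elim_inl]
          rw [← hN, ← hi0]
        have h2 : 3 / N * (2 * i0) ≤ 3 / N * (151 * i0 / q * a ^ 0 + 37 * Ds / q) :=
          mul_le_mul_of_nonneg_left (htot0.trans hMkk) (by positivity)
        have h3 : 2 * i0 / N ≤ 3 / N * (2 * i0) := by
          have : 0 ≤ i0 / N := by positivity
          have e1 : 2 * i0 / N = 2 * (i0 / N) := by ring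
          have e2 : 3 / N * (2 * i0) = 6 * (i0 / N) := by ring
          rw [e1, e2]
          linarith
        rw [h1, hK]
        linarith
      · have h1 := t21_pt S g0 T hM m N hm hN hg (nn k) (hn _) (hn1 _) x
        rw [← hnns] at h1
        have h2 := hMk k (fun j hj => hk j (by omega)) (hk k (by omega))
        have h3 : 144 * i0 / q * a ^ k ≤ 151 * i0 / q * a ^ (k + 1) := by
          have hakk := pow_nonneg ha0 k
          have hy0 : 0 ≤ i0 / q * a ^ k := by positivity
          have e1 : 144 * i0 / q * a ^ k = 144 * (i0 / q * a ^ k) := by ring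
          have e2 : 151 * i0 / q * a ^ (k + 1) = 151 * (a * (i0 / q * a ^ k)) := by
            rw [pow_succ]
            ring
          have e3 : 23 / 24 * (i0 / q * a ^ k) ≤ a * (i0 / q * a ^ k) :=
            mul_le_mul_of_nonneg_right ha2 hy0
          rw [e1, e2]
          linarith
        have h4 : 3 / N * tot (nn k) ≤ 3 / N * (151 * i0 / q * a ^ (k + 1) + 37 * Ds / q) :=
          mul_le_mul_of_nonneg_left (by linarith) (by positivity)
        rw [hK]
        linarith
    have hb2 : 2 / N * tot (nn k) ≤ K := by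
      have h1 : 2 / N * tot (nn k) ≤ 3 / N * tot (nn k) := by
        have := t21_tot_nonneg (nn k) (hn k)
        gcongr
        norm_num
      have h2 : 3 / N * tot (nn k) ≤ 3 / N * (151 * i0 / q * a ^ k + 37 * Ds / q) :=
        mul_le_mul_of_nonneg_left hMkk (by positivity)
      rw [hK]
      linarith
    have hin : ∀ t, (fw S.gl)^[t] (nn k) (Sum.inl S.p) ≤ K + g0 / m := fun t =>
      t21_in S g0 hM m N K hm hN (nn k) (hn _) (hn1 _) hb1 hb2 hK0 t S.p
    have h1 := x4_dev S (nn k) (hn k) m (K + g0 / m) hm hin T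
    rw [← hq] at h1
    have h2 : DV (nn (k + 1)) = DV ((fw S.gl)^[T] (nn k)) := by
      rw [hnns]
      unfold DV
      simp only [t21_WW_inr]
    have h3 : q * (K + g0 / m) =
        453 * i0 / N * a ^ k + (111 * Ds / N + 2 * q * g0 / m) := by
      rw [hK]
      field_simp
      ring
    rw [h2, ← h3]
    exact h1
  have hDk : ∀ k, k ≤ s → (∀ j, j ≤ k → DV (nn j) ≤ Ds) ∧
      DV (nn k) ≤ 453 * i0 / N * ∑ j ∈ range k, a ^ j + k * (111 * Ds / N + 2 * q * g0 / m) := by
    intro k
    induction k with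
    | zero =>
      intro _
      refine ⟨fun j hj => ?_, ?_⟩
      · have : j = 0 := by omega
        rw [this, hD0]
        exact hDs0
      · rw [hD0]
        simp
    | succ k ih =>
      intro hks
      obtain ⟨h1, h2⟩ := ih (by omega)
      have h3 := hDstep k h1
      have h4 : DV (nn (k + 1)) ≤ 453 * i0 / N * ∑ j ∈ range (k + 1), a ^ j +
          ((k + 1 : ℕ) : ℝ) * (111 * Ds / N + 2 * q * g0 / m) := by
        rw [Finset.sum_range_succ]
        push_cast
        linarith
      refine ⟨fun j hj => ?_, h4⟩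
      rcases Nat.lt_or_ge j (k + 1) with h | h
      · exact h1 j (by omega)
      · have hjk : j = k + 1 := by omega
        rw [hjk]
        have h5 := x4_geom a ha0 ha1 (k + 1)
        have h6 : 1 / (1 - a) = 12 / q := by
          have e : 1 - a = q / 12 := by rw [ha]; ring
          rw [e, one_div_div]
        rw [h6] at h5
        have h7 : 453 * i0 / N * ∑ j ∈ range (k + 1), a ^ j ≤ 453 * i0 / N * (12 / q) :=
          mul_le_mul_of_nonneg_left h5 (by positivity)
        have h8 : ((k + 1 : ℕ) : ℝ) ≤ s := by exact_mod_cast hks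
        have h9 : ((k + 1 : ℕ) : ℝ) * (111 * Ds / N + 2 * q * g0 / m) ≤
            s * (111 * Ds / N + 2 * q * g0 / m) :=
          mul_le_mul_of_nonneg_right h8 (by positivity)
        have h10 : s * (111 * Ds / N) ≤ 111 / 1000 * Ds := by
          have e1 : s * (111 * Ds / N) = 111 * Ds * (s / N) := by ring
          have e2 : (s : ℝ) / N ≤ 1 / 1000 := by
            rw [div_le_div_iff₀ hN0 (by norm_num)]
            linarith
          rw [e1]
          calc 111 * Ds * (s / N) ≤ 111 * Ds * (1 / 1000) :=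
                mul_le_mul_of_nonneg_left e2 (by positivity)
            _ = 111 / 1000 * Ds := by ring
        have h11 : 453 * i0 / N * (12 / q) = 5436 * (i0 / (q * N)) := by
          field_simp
          ring
        have h12 : s * (2 * q * g0 / m) = 2 * (s * q * g0 / m) := by ring
        have h13 : Ds = 20736 * (i0 / (q * N)) + 4 * (s * q * g0 / m) := by
          rw [hDs]
          ring
        have h14 : 0 ≤ i0 / (q * N) := by positivity
        have h15 : 0 ≤ s * q * g0 / m := by positivity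
        have h16 : s * (111 * Ds / N + 2 * q * g0 / m) =
            s * (111 * Ds / N) + s * (2 * q * g0 / m) := by ring
        linarith
  have hfin := (hDk s le_rfl).1
  have h1 := hMk s (fun j hj => hfin j hj.le) (hfin s le_rfl)
  have e0 : (S.WW T)^[s] (n0 β I d) = nn s := by rw [hnn]
  rw [e0]
  have h2 : 37 * Ds / q = 767232 * (i0 / (q ^ 2 * N)) + 148 * (s * g0 / m) := by
    rw [hDs]
    field_simp
    ring
  have h3 : 300 * i0 / q * a ^ s = 300 * (i0 / q * a ^ s) := by ring
  have h4 : 144 * i0 / q * a ^ s = 144 * (i0 / q * a ^ s) := by ring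
  have h5 : 2000000 * i0 / (q ^ 2 * N) = 2000000 * (i0 / (q ^ 2 * N)) := by ring
  have h6 : 400 * (s : ℝ) * g0 / m = 400 * (s * g0 / m) := by ring
  have h7 : 0 ≤ i0 / q * a ^ s := by
    have := pow_nonneg ha0 s
    positivity
  have h8 : 0 ≤ i0 / (q ^ 2 * N) := by positivity
  have h9 : (0 : ℝ) ≤ s * g0 / m := by positivity
  rw [h2, h4] at h1
  rw [h3, h5, h6]
  linarith

end xfour

end Pool.Agent.H9.Low
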