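import Pool.Agent.H9.Low.T27cN
import Pool.Agent.H9.Low.X4
import Pool.Agent.H9.Low.T21
import Pool.Agent.H9.Low.T17b
import Pool.Agent.H9.Low.T17a
import Pool.Agent.H9.Low.T18

/-!
# The upper bound for one `n`: the window parts
-/

namespace Pool.Agent.H9.Low

open Equiv Finset

namespace T27c

open T27cN

theorem pow_succ_le {x : ℝ} (hx : 100 ≤ x) : (x + 1) ^ 20 ≤ 2 * x ^ 20 := by
  have hx0 : 0 < x := by linarith
  have h1 : 1 + ((20 : ℕ) : ℝ) * (-(1 / (x + 1))) ≤ (1 + -(1 / (x + 1))) ^ 20 := by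
    apply one_add_mul_le_pow
    have : 1 / (x + 1) ≤ 1 := by
      rw [div_le_one (by linarith)]
      linarith
    linarith
  have h2 : 1 + -(1 / (x + 1)) = x / (x + 1) := by field_simp; ring
  have h3 : 1 / 2 ≤ 1 + ((20 : ℕ) : ℝ) * (-(1 / (x + 1))) := by
    have h4 : 1 / (x + 1) ≤ 1 / 100 := one_div_le_one_div_of_le (by norm_num) (by linarith)
    push_cast
    linarith
  rw [h2, div_pow] at h1
  have h5 : 1 / 2 ≤ x ^ 20 / (x + 1) ^ 20 := h3.trans h1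
  rw [le_div_iff₀ (by positivity)] at h5
  linarith

/-- sizes -/
theorem sizes {r n d c : ℕ} {x : ℝ} (hx : x = (r : ℝ)) (hr : 10 ^ 10 ≤ x) (h1 : r ^ 20 ≤ n)
    (h2 : n < (r + 1) ^ 20) (h3 : d + 1 ≤ r ^ 7) (hc : c + 131076 * r ^ 14 + (d + 1) = n) :
    (n : ℝ) ≤ 2 * x ^ 20 ∧ x ^ 20 ≤ n ∧ ((d : ℝ) + 1) ≤ x ^ 7 ∧ x ^ 20 / 2 ≤ (c : ℝ) ∧
      (c : ℝ) ≤ n := by
  have e1 : (n : ℝ) ≤ (x + 1) ^ 20 := by rw [hx]; exact_mod_cast h2.le
  have e2 : x ^ 20 ≤ n := by rw [hx]; exact_mod_cast h1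
  have e3 : ((d : ℝ) + 1) ≤ x ^ 7 := by rw [hx]; exact_mod_cast h3
  have e4 : (c : ℝ) + 131076 * x ^ 14 + (d + 1) = n := by rw [hx]; exact_mod_cast hc
  have hx1 : 1 ≤ x := by linarith
  refine ⟨e1.trans (pow_succ_le (by linarith)), e2, e3, ?_, ?_⟩
  · have h5 : (262154 : ℝ) ≤ x ^ 6 := by
      calc (262154 : ℝ) ≤ x := by linarith
        _ = x ^ 1 := (pow_one x).symm
        _ ≤ x ^ 6 := pow_le_pow_right₀ hx1 (by norm_num)
    have h6 : 262154 * x ^ 14 ≤ x ^ 6 * x ^ 14 := mul_le_mul_of_nonneg_right h5 (by positivity)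
    have h7 : x ^ 6 * x ^ 14 = x ^ 20 := by ring
    have h8 : x ^ 7 ≤ x ^ 14 := pow_le_pow_right₀ hx1 (by norm_num)
    linarith
  · have : 0 ≤ x ^ 14 := by positivity
    linarith

/-- `g0` is large enough -/
theorem two_pow_g0 {r : ℕ} {x y : ℝ} (hx : x = (r : ℝ)) (hr : 10 ^ 10 ≤ x)
    (hy : y ≤ 2 * x ^ 20) : y ≤ 2 ^ (40 * ⌈Real.log r⌉₊) := by
  have hx0 : 0 < x := by linarith
  have hx1 : 1 ≤ x := by linarith
  have h0 : (0 : ℝ) < 2 ^ (40 * ⌈Real.log r⌉₊) := by positivity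
  have hl0 : 0 ≤ Real.log x := Real.log_nonneg hx1
  have h1 : Real.log x ≤ (⌈Real.log r⌉₊ : ℝ) := by rw [hx]; exact Nat.le_ceil _
  have h2 : x ^ 21 ≤ 2 ^ (40 * ⌈Real.log r⌉₊) := by
    rw [← Real.exp_log h0, ← Real.exp_log (by positivity : 0 < x ^ 21)]
    apply Real.exp_le_exp.2
    rw [Real.log_pow, Real.log_pow]
    push_cast
    have h3 := Real.log_two_gt_d9
    have h4 : (40 * (⌈Real.log r⌉₊ : ℝ)) * (69 / 100) ≤ 40 * (⌈Real.log r⌉₊ : ℝ) * Real.log 2 :=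
      mul_le_mul_of_nonneg_left (by linarith) (by positivity)
    linarith
  have h5 : 2 * x ^ 20 ≤ x ^ 21 := by
    have : 2 * x ^ 20 ≤ x * x ^ 20 := mul_le_mul_of_nonneg_right (by linarith) (by positivity)
    have e : x * x ^ 20 = x ^ 21 := by ring
    linarith
  linarith

theorem g0_le {r : ℕ} {x : ℝ} (hx : x = (r : ℝ)) (hr : 10 ^ 10 ≤ x) :
    ((40 * ⌈Real.log r⌉₊ : ℕ) : ℝ) ≤ 80 * x := by
  have hx1 : 1 ≤ x := by linarith
  have hl0 : 0 ≤ Real.log x := Real.log_nonneg hx1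
  have h1 : (⌈Real.log r⌉₊ : ℝ) < Real.log x + 1 := by
    rw [← hx]
    exact Nat.ceil_lt_add_one hl0
  have h2 : Real.log x ≤ x - 1 := Real.log_le_sub_one_of_pos (by linarith)
  push_cast
  linarith

/-- the total mass after the windows -/
theorem win_part {β I : Type} [Fintype β] [DecidableEq β] [Fintype I] [DecidableEq I] {d : ℕ}
    (S : Sys β I d) (r g0 K r2 r3 r4 : ℕ) {x m q b N η : ℝ} (hx : x = (r : ℝ))
    (hr : 10 ^ 10 ≤ x) (hM : M8 S g0) (hg : (g0 : ℝ) ≤ 80 * x)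
    (hI : Fintype.card I = 65538 * r ^ 14) (hm : m = 65538 * x ^ 14 + 1)
    (hq : q = 4 * x ^ 14 / m) (hb : b = (d : ℝ) + 1) (hb7 : b ≤ x ^ 7)
    (hN : N = Fintype.card β) (hN20 : x ^ 20 / 2 ≤ N) (hη : 0 < η) (hη1 : η < 1)
    (h2 : Real.log (4 * N) ≤ q / 12 * r2) (h3 : (1 + 2 * η) * m * b ≤ r3 * (4 * x ^ 14))
    (h4 : η * b / 12 ≤ q / 12 * r4) (hK : r2 + r3 + r4 ≤ K) (hK8 : (K : ℝ) ≤ x ^ 8) :
    tot ((S.WW (4 * r ^ 14))^[K] (fun _ => 1)) ≤
      3277000 * (2 * b * Real.exp (-(η * b / 12)) + 2 / η * Real.exp (-(η ^ 2 * b / 2))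
        + 2 / x) := by
  have hx1 : 1 ≤ x := by linarith
  have hx0 : 0 < x := by linarith
  have hx14 : 1 ≤ x ^ 14 := one_le_pow₀ hx1
  obtain ⟨q1, q2⟩ := q_bounds hx1 hm hq
  have hq0 : 0 < q := lt_of_lt_of_le (by norm_num) q1
  have hN0 : 0 < N := lt_of_lt_of_le (by positivity) hN20
  have hm0 : 0 < m := by rw [hm]; positivity
  have hm1 : 1 ≤ m := by rw [hm]; linarith
  have hmx : 65538 * x ^ 14 ≤ m := by rw [hm]; linarith
  have hb1 : 1 ≤ b := by rw [hb]; have : (0 : ℝ) ≤ d := Nat.cast_nonneg d; linarith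
  obtain ⟨r3', hr3'⟩ : ∃ r3' : ℕ, K = r2 + r3' + r4 := ⟨K - r2 - r4, by omega⟩
  have hr33 : r3 ≤ r3' := by omega
  have hTc : ((4 * r ^ 14 : ℕ) : ℝ) = 4 * x ^ 14 := by rw [hx]; push_cast; ring
  have hIc : (Fintype.card I : ℝ) = 65538 * x ^ 14 := by rw [hI, hx]; push_cast; ring
  have hT1 : 1 ≤ 4 * r ^ 14 := by
    have : (1 : ℝ) ≤ ((4 * r ^ 14 : ℕ) : ℝ) := by rw [hTc]; linarith
    exact_mod_cast this
  have hgT : g0 ≤ 4 * r ^ 14 := by
    have e1 : (80 : ℝ) * x ≤ 4 * x ^ 14 := by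
      have e2 : (20 : ℝ) ≤ x ^ 13 := by
        calc (20 : ℝ) ≤ x := by linarith
          _ = x ^ 1 := (pow_one x).symm
          _ ≤ x ^ 13 := pow_le_pow_right₀ hx1 (by norm_num)
      have e3 : 20 * x ≤ x ^ 13 * x := mul_le_mul_of_nonneg_right e2 hx0.le
      have e4 : x ^ 13 * x = x ^ 14 := by ring
      linarith
    have e2 : (g0 : ℝ) ≤ ((4 * r ^ 14 : ℕ) : ℝ) := by rw [hTc]; linarith
    exact_mod_cast e2
  -- small ratios
  have hgm : (g0 : ℝ) / m ≤ 1 / 10 ^ 9 := by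
    rw [div_le_div_iff₀ hm0 (by norm_num)]
    have e2 : (1 : ℝ) ≤ x ^ 12 := one_le_pow₀ hx1
    have e3 : 10 ^ 10 * x ≤ x * x * x ^ 12 := by
      calc (10 : ℝ) ^ 10 * x ≤ x * x := mul_le_mul_of_nonneg_right hr hx0.le
        _ = x * x * 1 := by ring
        _ ≤ x * x * x ^ 12 := mul_le_mul_of_nonneg_left e2 (by positivity)
    have e4 : x * x * x ^ 12 = x ^ 14 := by ring
    linarith
  have hIN : 2 * (Fintype.card I : ℝ) / N ≤ 1 / 10 ^ 9 := by
    rw [div_le_div_iff₀ hN0 (by norm_num), hIc]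
    have e2 : (10 : ℝ) ^ 15 ≤ x ^ 6 := by
      calc (10 : ℝ) ^ 15 ≤ (10 ^ 10) ^ 6 := by norm_num
        _ ≤ x ^ 6 := pow_le_pow_left₀ (by norm_num) hr 6
    have e3 : 10 ^ 15 * x ^ 14 ≤ x ^ 6 * x ^ 14 := mul_le_mul_of_nonneg_right e2 (by positivity)
    have e4 : x ^ 6 * x ^ 14 = x ^ 20 := by ring
    linarith
  have key := win_bound S g0 (4 * r ^ 14) r2 r3' r4 hM m q b N (by rw [hIc, hm]) hN hb
    (by rw [hTc, hq]) (by linarith) hgT hT1 (by
      have e1 : q * (2 * (Fintype.card I : ℝ) / N + g0 / m) ≤ q * (1 / 10 ^ 9 + 1 / 10 ^ 9) :=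
        mul_le_mul_of_nonneg_left (by linarith) hq0.le
      have e2 : (1 : ℝ) / 10 ^ 9 ≤ q / 1000 := by
        have : (1 : ℝ) / 16385 / 1000 ≤ q / 1000 := by linarith
        norm_num at this ⊢
        linarith
      linarith) (by
      have e1 : (Fintype.card (Out I d) : ℝ) = 2 * (65538 * x ^ 14) + b := by
        rw [hb, ← hIc]
        simp only [Fintype.card_sum, Fintype.card_prod, Fintype.card_bool, Fintype.card_fin]
        push_cast
        ring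
      rw [e1]
      have h5 : (524308 : ℝ) ≤ x ^ 6 := by
        calc (524308 : ℝ) ≤ x := by linarith
          _ = x ^ 1 := (pow_one x).symm
          _ ≤ x ^ 6 := pow_le_pow_right₀ hx1 (by norm_num)
      have h6 : 524308 * x ^ 14 ≤ x ^ 6 * x ^ 14 := mul_le_mul_of_nonneg_right h5 (by positivity)
      have h7 : x ^ 6 * x ^ 14 = x ^ 20 := by ring
      have h8 : x ^ 7 ≤ x ^ 14 := pow_le_pow_right₀ hx1 (by norm_num)
      linarith) (by
      have e1 := one_sub_pow_le (u := q / 12) r2 (by linarith) h2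
      rw [Real.exp_neg, Real.exp_log (by positivity)] at e1
      have e2 : (1 - q / 12) ^ r2 * (4 * N) ≤ (4 * N)⁻¹ * (4 * N) :=
        mul_le_mul_of_nonneg_right e1 (by positivity)
      rw [inv_mul_cancel₀ (by positivity)] at e2
      linarith) (1 + η) (by linarith)
  rw [← hr3'] at key
  refine key.trans ?_
  -- the three terms
  have a1 : 2 * b * (1 - q / 12) ^ r4 ≤ 2 * b * Real.exp (-(η * b / 12)) :=
    mul_le_mul_of_nonneg_left (one_sub_pow_le r4 (by linarith) h4) (by linarith)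
  have a2 := dev_term (η := η) (m := m) (b := b) (d + 1) (r3' * (4 * r ^ 14)) hη hη1 hm1
    (by rw [hb]; push_cast; ring) (by
      have e1 : (r3 : ℝ) * (4 * x ^ 14) ≤ r3' * (4 * x ^ 14) :=
        mul_le_mul_of_nonneg_right (by exact_mod_cast hr33) (by positivity)
      have e2 : ((r3' * (4 * r ^ 14) : ℕ) : ℝ) = r3' * (4 * x ^ 14) := by
        rw [← hTc]; push_cast; ring
      rw [e2]
      linarith)
  have a3 := rest_term (x := x) (q := q) (m := m) (N := N) (b := b) (s := (r3' : ℝ) + r4)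
    (g := (g0 : ℝ)) (by linarith) hq0 (by linarith) hmx hN20 (by linarith) hb7 (by positivity)
    (by
      have : (r3' : ℝ) + r4 ≤ K := by
        have : r3' + r4 ≤ K := by omega
        exact_mod_cast this
      linarith) (Nat.cast_nonneg g0) hg
  have a4 : 200 / q ≤ 3277000 := by
    rw [div_le_iff₀ hq0]
    linarith
  have hsum : 2 * b * (1 - q / 12) ^ r4 +
      (1 + η) ^ (d + 2) / (1 + η - 1) * (1 - (1 - 1 / (1 + η)) / m) ^ (r3' * (4 * r ^ 14)) +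
      (r3' + r4) * q * (400 * b / (q * N) + 2 * g0 / m) ≤
      2 * b * Real.exp (-(η * b / 12)) + 2 / η * Real.exp (-(η ^ 2 * b / 2)) + 2 / x :=
    add_le_add (add_le_add a1 a2) a3
  have hpos : 0 ≤ 2 * b * Real.exp (-(η * b / 12)) + 2 / η * Real.exp (-(η ^ 2 * b / 2))
      + 2 / x := by positivity
  calc 200 / q * _ ≤ 200 / q * (2 * b * Real.exp (-(η * b / 12)) +
        2 / η * Real.exp (-(η ^ 2 * b / 2)) + 2 / x) :=
        mul_le_mul_of_nonneg_left hsum (by positivity)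
    _ ≤ _ := mul_le_mul_of_nonneg_right a4 hpos

/-- the sum of the masses started from `n0` -/
theorem sum_part {β I : Type} [Fintype β] [DecidableEq β] [Fintype I] [DecidableEq I] {d : ℕ}
    (S : Sys β I d) (r g0 R : ℕ) {x m q N : ℝ} (hx : x = (r : ℝ))
    (hr : 10 ^ 10 ≤ x) (hM : M8 S g0) (hg : (g0 : ℝ) ≤ 80 * x)
    (hI : Fintype.card I = 65538 * r ^ 14) (hm : m = 65538 * x ^ 14 + 1)
    (hq : q = 4 * x ^ 14 / m) (hd : (d : ℝ) + 1 ≤ x ^ 7)
    (hN : N = Fintype.card β) (hN20 : x ^ 20 / 2 ≤ N)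
    (hR : 12 / q * (30 * Real.log x) + 1 ≤ R) (hR8 : (R : ℝ) ≤ x ^ 8) :
    ∑ j ∈ range R, q ^ j * tot ((S.WW (4 * r ^ 14))^[R - 1 - j] (n0 β I d)) ≤ 3 / x := by
  have hx1 : 1 ≤ x := by linarith
  have hx0 : 0 < x := by linarith
  have hx14 : 1 ≤ x ^ 14 := one_le_pow₀ hx1
  obtain ⟨q1, q2⟩ := q_bounds hx1 hm hq
  have hq0 : 0 < q := lt_of_lt_of_le (by norm_num) q1
  have hN0 : 0 < N := lt_of_lt_of_le (by positivity) hN20
  have hm0 : 0 < m := by rw [hm]; positivity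
  have hmx : 65538 * x ^ 14 ≤ m := by rw [hm]; linarith
  have hTc : ((4 * r ^ 14 : ℕ) : ℝ) = 4 * x ^ 14 := by rw [hx]; push_cast; ring
  have hIc : (Fintype.card I : ℝ) = 65538 * x ^ 14 := by rw [hI, hx]; push_cast; ring
  have hT1 : 1 ≤ 4 * r ^ 14 := by
    have : (1 : ℝ) ≤ ((4 * r ^ 14 : ℕ) : ℝ) := by rw [hTc]; linarith
    exact_mod_cast this
  have hgT : g0 ≤ 4 * r ^ 14 := by
    have e1 : (80 : ℝ) * x ≤ 4 * x ^ 14 := by
      have e2 : (20 : ℝ) ≤ x ^ 13 := by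
        calc (20 : ℝ) ≤ x := by linarith
          _ = x ^ 1 := (pow_one x).symm
          _ ≤ x ^ 13 := pow_le_pow_right₀ hx1 (by norm_num)
      have e3 : 20 * x ≤ x ^ 13 * x := mul_le_mul_of_nonneg_right e2 hx0.le
      have e4 : x ^ 13 * x = x ^ 14 := by ring
      linarith
    have e2 : (g0 : ℝ) ≤ ((4 * r ^ 14 : ℕ) : ℝ) := by rw [hTc]; linarith
    exact_mod_cast e2
  have hgm : (g0 : ℝ) / m ≤ 1 / 10 ^ 9 := by
    rw [div_le_div_iff₀ hm0 (by norm_num)]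
    have e2 : (1 : ℝ) ≤ x ^ 12 := one_le_pow₀ hx1
    have e3 : 10 ^ 10 * x ≤ x * x * x ^ 12 := by
      calc (10 : ℝ) ^ 10 * x ≤ x * x := mul_le_mul_of_nonneg_right hr hx0.le
        _ = x * x * 1 := by ring
        _ ≤ x * x * x ^ 12 := mul_le_mul_of_nonneg_left e2 (by positivity)
    have e4 : x * x * x ^ 12 = x ^ 14 := by ring
    linarith
  have hIN : 2 * (Fintype.card I : ℝ) / N ≤ 1 / 10 ^ 9 := by
    rw [div_le_div_iff₀ hN0 (by norm_num), hIc]
    have e2 : (10 : ℝ) ^ 15 ≤ x ^ 6 := by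
      calc (10 : ℝ) ^ 15 ≤ (10 ^ 10) ^ 6 := by norm_num
        _ ≤ x ^ 6 := pow_le_pow_left₀ (by norm_num) hr 6
    have e3 : 10 ^ 15 * x ^ 14 ≤ x ^ 6 * x ^ 14 := mul_le_mul_of_nonneg_right e2 (by positivity)
    have e4 : x ^ 6 * x ^ 14 = x ^ 20 := by ring
    linarith
  have hf : ∀ s < R, tot ((S.WW (4 * r ^ 14))^[s] (n0 β I d)) ≤
      300 * (65538 * x ^ 14) / q * (1 - q / 12) ^ s +
        2000000 * (65538 * x ^ 14) / (q ^ 2 * N) + 400 * g0 / m * s := by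
    intro s hs
    have h1 := win_bound0 S g0 (4 * r ^ 14) s hM m q N (by rw [hIc, hm]) hN (by rw [hTc, hq])
      (by linarith) hgT hT1 (by
      have e1 : q * (2 * (Fintype.card I : ℝ) / N + g0 / m) ≤ q * (1 / 10 ^ 9 + 1 / 10 ^ 9) :=
        mul_le_mul_of_nonneg_left (by linarith) hq0.le
      have e2 : (1 : ℝ) / 10 ^ 9 ≤ q / 1000 := by
        have : (1 : ℝ) / 16385 / 1000 ≤ q / 1000 := by linarith
        norm_num at this ⊢
        linarith
      linarith) (by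
      have e1 : (Fintype.card (Out I d) : ℝ) = 2 * (65538 * x ^ 14) + (d + 1) := by
        rw [← hIc]
        simp only [Fintype.card_sum, Fintype.card_prod, Fintype.card_bool, Fintype.card_fin]
        push_cast
        ring
      rw [e1]
      have h5 : (524308 : ℝ) ≤ x ^ 6 := by
        calc (524308 : ℝ) ≤ x := by linarith
          _ = x ^ 1 := (pow_one x).symm
          _ ≤ x ^ 6 := pow_le_pow_right₀ hx1 (by norm_num)
      have h6 : 524308 * x ^ 14 ≤ x ^ 6 * x ^ 14 := mul_le_mul_of_nonneg_right h5 (by positivity)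
      have h7 : x ^ 6 * x ^ 14 = x ^ 20 := by ring
      have h8 : x ^ 7 ≤ x ^ 14 := pow_le_pow_right₀ hx1 (by norm_num)
      linarith) (by
      have e1 : (s : ℝ) ≤ R := by exact_mod_cast hs.le
      have e2 : (2000 : ℝ) ≤ x ^ 12 := by
        calc (2000 : ℝ) ≤ x := by linarith
          _ = x ^ 1 := (pow_one x).symm
          _ ≤ x ^ 12 := pow_le_pow_right₀ hx1 (by norm_num)
      have e3 : 2000 * x ^ 8 ≤ x ^ 12 * x ^ 8 := mul_le_mul_of_nonneg_right e2 (by positivity)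
      have e4 : x ^ 12 * x ^ 8 = x ^ 20 := by ring
      linarith)
    rw [hIc] at h1
    have e5 : 400 * (s : ℝ) * g0 / m = 400 * g0 / m * s := by ring
    rw [e5] at h1
    exact h1
  refine (sum_bound (α := 300 * (65538 * x ^ 14) / q)
    (β := 2000000 * (65538 * x ^ 14) / (q ^ 2 * N)) (γ := 400 * g0 / m) hq0.le (by linarith)
    (by positivity) (by positivity) (by positivity) hf).trans ?_
  exact coef0 (x := x) (q := q) (m := m) (N := N) (g := (g0 : ℝ)) (R : ℝ) hr q1 hmx hN20 hg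
    (Nat.cast_nonneg R) hR8
    (pow_nonneg (by linarith) _) (decay30 R hx1 hq0 (by linarith) hR)

end T27c

end Pool.Agent.H9.Low
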