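import Pool.Agent.H9.Low.T28a1
import Pool.Agent.H9.Low.T27c

namespace Pool.Agent.H9.Low

open Equiv Finset

open Pool.Agent.H79.Cut in
/-- the walks on `Perm (Fin n)` with upper and lower bounds -/
theorem fin_par : ∃ A C1 : ℝ, ∃ r0 b0 : ℕ, ∀ r ≥ r0, ∀ n d : ℕ, r ^ 20 ≤ n →
    n < (r + 1) ^ 20 → b0 ≤ d + 1 → d + 1 ≤ r ^ 7 →
    ∃ p : Perm (Fin n) → ℝ, IsMinGenWalk p ∧
      (∀ η : ℝ, 0 < η → η < 1 → ∀ t : ℕ, C1 * n ≤ t →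
        (1 + 3 * η) * (65538 * r ^ 14 + 1) * (d + 1) + r ^ 16 ≤ t →
        tv (convPow p t) (unifOn univ) ≤ A * (1 / r + (d + 1) * Real.exp (-(η * (d + 1) / 12))
              + Real.exp (-(η ^ 2 * (d + 1) / 2)) / η)) ∧
      (∀ t : ℕ, (t : ℝ) / (65538 * r ^ 14 + 1) < d + 1 →
        1 - (t / (65538 * r ^ 14 + 1)) / (d + 1 - t / (65538 * r ^ 14 + 1)) ^ 2 - (d + 1) / n
          ≤ tv (convPow p t) (unifOn univ)) :=
  fin_par_of upper_par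

end Pool.Agent.H9.Low
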