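import Pool.Agent.H9.Low.T23
import Pool.Agent.H9.Low.T24
import Pool.Agent.H9.Low.T25
import Pool.Agent.H9.Low.Defs2

/-!
# The walk on `Perm (Fin n)`: assembly for one `n`
-/

namespace Pool.Agent.H9.Low

open Equiv Finset

theorem t28a_card {β I : Type} [Fintype I] {w w2 d : ℕ} (S : HSys β I w w2 d) :
    Fintype.card I = w + (w + w2) := by
  rw [← Fintype.card_congr S.e, Fintype.card_sum, Fintype.card_sum, Fintype.card_fin,
    Fintype.card_fin]

open Pool.Agent.H79.Cut in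
theorem t28a_minGen {G H : Type*} [Group G] [Fintype G] [DecidableEq G] [Group H] [Fintype H]
    [DecidableEq H] (φ : G ≃* H) (S : Finset G) (h : IsMinGen S) :
    IsMinGen (S.image fun g => φ g) := by
  constructor
  · have h1 : ((S.image fun g => φ g : Finset H) : Set H) = φ.toMonoidHom '' (S : Set G) := by
      rw [Finset.coe_image]
      rfl
    rw [h1, ← MonoidHom.map_closure, h.1]
    exact Subgroup.map_top_of_surjective _ φ.surjective
  · intro T hT htop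
    rw [Finset.ssubset_iff_subset_ne] at hT
    refine h.2 (T.image fun g => φ.symm g) ?_ ?_
    · rw [Finset.ssubset_iff_subset_ne]
      constructor
      · intro x hx
        obtain ⟨y, hy, rfl⟩ := Finset.mem_image.mp hx
        obtain ⟨z, hz, rfl⟩ := Finset.mem_image.mp (hT.1 hy)
        simpa using hz
      · intro hEq
        apply hT.2
        rw [← hEq, Finset.image_image]
        ext x
        simp
    · have h1 : ((T.image fun g => φ.symm g : Finset G) : Set G)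
          = φ.symm.toMonoidHom '' (T : Set H) := by
        rw [Finset.coe_image]
        rfl
      rw [h1, ← MonoidHom.map_closure, htop]
      exact Subgroup.map_top_of_surjective _ φ.symm.surjective

theorem t28a_small (ε : ℝ) (hε : 0 < ε) : ∃ b0 : ℕ, ∀ b : ℝ, b0 ≤ b →
    b * Real.exp (-((1 / 2) * b / 12)) + Real.exp (-((1 / 2) ^ 2 * b / 2)) / (1 / 2) ≤ ε := by
  have h1 := Real.tendsto_pow_mul_exp_neg_atTop_nhds_zero 1
  have h0 := Real.tendsto_pow_mul_exp_neg_atTop_nhds_zero 0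
  have e1 : ∀ᶠ x : ℝ in Filter.atTop, x ^ 1 * Real.exp (-x) < ε / 48 :=
    (tendsto_order.1 h1).2 _ (by positivity)
  have e0 : ∀ᶠ x : ℝ in Filter.atTop, x ^ 0 * Real.exp (-x) < ε / 4 :=
    (tendsto_order.1 h0).2 _ (by positivity)
  obtain ⟨a1, ha1⟩ := Filter.eventually_atTop.1 e1
  obtain ⟨a0, ha0⟩ := Filter.eventually_atTop.1 e0
  refine ⟨⌈24 * (|a1| + |a0|)⌉₊, fun b hb => ?_⟩
  have hb' : 24 * (|a1| + |a0|) ≤ b := (Nat.le_ceil _).trans hb
  have ha1' := le_abs_self a1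
  have ha0' := le_abs_self a0
  have ha1'' := abs_nonneg a1
  have ha0'' := abs_nonneg a0
  have k1 := ha1 (b / 24) (by linarith)
  have k0 := ha0 (b / 8) (by linarith)
  rw [pow_one] at k1
  rw [pow_zero, one_mul] at k0
  have r1 : -((1 / 2) * b / 12) = -(b / 24) := by ring
  have r0 : -((1 / 2) ^ 2 * b / 2) = -(b / 8) := by ring
  rw [r1, r0]
  have : Real.exp (-(b / 8)) / (1 / 2) = 2 * Real.exp (-(b / 8)) := by ring
  rw [this]
  linarith

theorem t28a_pos (r : ℕ) (hr : 1 ≤ r) : 0 < 65538 * r ^ 14 :=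
  Nat.mul_pos (Nat.succ_pos _) (Nat.pow_pos hr)

theorem t28a_eq (a b c : ℕ) : a + (65538 * b * 2 + c) = a + 131076 * b + c := by ring

theorem t28a_d (d : ℕ) : (0 : ℝ) ≤ (d : ℝ) + 1 := by positivity

theorem t28a_nn (η b : ℝ) (hη : 0 < η) (hb : 0 ≤ b) :
    0 ≤ b * Real.exp (-(η * b / 12)) + Real.exp (-(η ^ 2 * b / 2)) / η := by positivity

theorem t28a_num (A : ℝ) (r : ℕ) (x y : ℝ) (hr : 4 * (|A| + 1) ≤ (r : ℝ))
    (h1 : x + y ≤ 1 / (4 * (|A| + 1))) (h0 : 0 ≤ x + y) : A * (1 / r + x + y) < 1 := by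
  have hA : (0 : ℝ) < |A| + 1 := by positivity
  have h2 : (1 : ℝ) / r ≤ 1 / (4 * (|A| + 1)) := one_div_le_one_div_of_le (by positivity) hr
  have h3 : 0 ≤ (1 : ℝ) / r + x + y := by
    have : (0 : ℝ) ≤ 1 / r := by positivity
    linarith
  have h4 : (1 : ℝ) / r + x + y ≤ 1 / (2 * (|A| + 1)) := by
    have : (1 : ℝ) / (2 * (|A| + 1)) = 1 / (4 * (|A| + 1)) + 1 / (4 * (|A| + 1)) := by
      field_simp
      norm_num
    linarith
  have h5 : A ≤ |A| + 1 := (le_abs_self A).trans (by linarith)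
  have h6 : A * ((1 : ℝ) / r + x + y) ≤ (|A| + 1) * (1 / (2 * (|A| + 1))) :=
    mul_le_mul h5 h4 h3 hA.le
  have h7 : (|A| + 1) * (1 / (2 * (|A| + 1))) = 1 / 2 := by
    field_simp
  linarith

theorem t28a_num2 (A : ℝ) (r : ℕ) (x y v a : ℝ) (h0 : 0 ≤ x + y) (h1 : 2 * v = a)
    (h2 : a ≤ A * (1 / r + x + y)) : v ≤ |A| * (1 / r + x + y) := by
  have h3 : 0 ≤ (1 : ℝ) / r + x + y := by
    have : (0 : ℝ) ≤ 1 / r := by positivity
    linarith
  have h4 : A * ((1 : ℝ) / r + x + y) ≤ |A| * ((1 : ℝ) / r + x + y) :=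
    mul_le_mul_of_nonneg_right (le_abs_self A) h3
  have h5 : 0 ≤ |A| * ((1 : ℝ) / r + x + y) := mul_nonneg (abs_nonneg _) h3
  linarith

theorem t28a_num3 {a b c u v : ℝ} (h1 : a ≤ u) (h2 : v ≤ b) (h3 : u - v ≤ c) :
    a - b ≤ c := by linarith

section transport

variable {β I : Type} [Fintype β] [DecidableEq β] [Fintype I] [DecidableEq I] {d : ℕ}

/-- the letters on `Fin n` -/
noncomputable def t28a_S (S : Sys β I d) {n : ℕ} (e : Pos β I d ≃ Fin n) :
    Finset (Perm (Fin n)) := univ.image fun i => e.permCongr (S.gl i)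

open Pool.Agent.H79.Cut in
theorem t28a_gen (S : Sys β I d) {n : ℕ} (e : Pos β I d ≃ Fin n)
    (h : IsMinGen (univ.image S.gl)) : IsMinGen (t28a_S S e) := by
  have hφ : ∀ a b : Perm (Pos β I d), e.permCongr (a * b) = e.permCongr a * e.permCongr b :=
    fun a b => Equiv.permCongr_mul e a b
  have h1 := t28a_minGen (MulEquiv.mk' e.permCongr hφ) _ h
  rw [Finset.image_image] at h1
  exact h1

open Pool.Agent.H79.Cut in
theorem t28a_upper (S : Sys β I d) {n : ℕ} (e : Pos β I d ≃ Fin n)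
    (hs : Function.Injective S.gl) (t : ℕ) :
    2 * tv (convPow (unifOn (t28a_S S e)) t) (unifOn univ)
      = av (fun σ => |S.P^[t] (dl (Perm (Pos β I d))) σ - 1|) :=
  tv_transport n e S.gl hs t

open Pool.Agent.H79.Cut Classical in
theorem t28a_lower (S : Sys β I d) {n : ℕ} (e : Pos β I d ≃ Fin n)
    (hs : Function.Injective S.gl) (t : ℕ) (f : Perm (Pos β I d) → Prop) :
    av (fun σ => (if f σ then (1 : ℝ) else 0) * S.P^[t] (dl (Perm (Pos β I d))) σ)
      - av (fun σ : Perm (Pos β I d) => if f σ then (1 : ℝ) else 0)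
      ≤ tv (convPow (unifOn (t28a_S S e)) t) (unifOn univ) := by
  have hcn : (Fintype.card (Perm (Pos β I d)) : ℝ) = ((univ : Finset (Perm (Fin n))).card : ℝ) := by
    rw [Finset.card_univ, Fintype.card_congr e.permCongr]
  let A : Finset (Perm (Pos β I d)) := univ.filter f
  let B : Finset (Perm (Fin n)) := A.map e.permCongr.toEmbedding
  have h1 : ∑ g ∈ B, convPow (unifOn (t28a_S S e)) t g
      = av (fun σ => (if f σ then (1 : ℝ) else 0) * S.P^[t] (dl (Perm (Pos β I d))) σ) := by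
    rw [Finset.sum_map]
    unfold av
    rw [Finset.sum_div, Finset.sum_filter]
    refine Finset.sum_congr rfl fun σ _ => ?_
    by_cases h : f σ
    · rw [if_pos h, if_pos h, one_mul]
      exact t25_law n e S.gl hs t σ
    · rw [if_neg h, if_neg h, zero_mul, zero_div]
  have h2 : ∑ g ∈ B, unifOn (univ : Finset (Perm (Fin n))) g
      = av (fun σ : Perm (Pos β I d) => if f σ then (1 : ℝ) else 0) := by
    rw [Finset.sum_map]
    unfold av
    rw [Finset.sum_div, Finset.sum_filter]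
    refine Finset.sum_congr rfl fun σ _ => ?_
    by_cases h : f σ
    · rw [if_pos h, if_pos h, hcn]
      simp only [unifOn, Finset.mem_univ, if_true]
    · rw [if_neg h, if_neg h, zero_div]
  rw [← h1, ← h2]
  exact (le_abs_self _).trans (t25_le_tv _ _ B)

end transport

open Pool.Agent.H79.Cut in
theorem fin_par_of (hU : ∃ A C1 : ℝ, ∃ r0 : ℕ, ∀ r ≥ r0, ∀ n d : ℕ, r ^ 20 ≤ n →
    n < (r + 1) ^ 20 → d + 1 ≤ r ^ 7 →
    ∃ (β I : Type) (_ : Fintype β) (_ : DecidableEq β) (_ : Fintype I) (_ : DecidableEq I)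
      (S : HSys β I (r ^ 14) (65536 * r ^ 14) d),
      Fintype.card β + 131076 * r ^ 14 + (d + 1) = n ∧
      ∀ η : ℝ, 0 < η → η < 1 → ∀ t : ℕ, C1 * n ≤ t →
        (1 + 3 * η) * (65538 * r ^ 14 + 1) * (d + 1) + r ^ 16 ≤ t →
        av (fun σ => |S.P^[t] (dl (Perm (Pos β I d))) σ - 1|)
          ≤ A * (1 / r + (d + 1) * Real.exp (-(η * (d + 1) / 12))
              + Real.exp (-(η ^ 2 * (d + 1) / 2)) / η)) :
    ∃ A C1 : ℝ, ∃ r0 b0 : ℕ, ∀ r ≥ r0, ∀ n d : ℕ, r ^ 20 ≤ n →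
    n < (r + 1) ^ 20 → b0 ≤ d + 1 → d + 1 ≤ r ^ 7 →
    ∃ p : Perm (Fin n) → ℝ, IsMinGenWalk p ∧
      (∀ η : ℝ, 0 < η → η < 1 → ∀ t : ℕ, C1 * n ≤ t →
        (1 + 3 * η) * (65538 * r ^ 14 + 1) * (d + 1) + r ^ 16 ≤ t →
        tv (convPow p t) (unifOn univ) ≤ A * (1 / r + (d + 1) * Real.exp (-(η * (d + 1) / 12))
              + Real.exp (-(η ^ 2 * (d + 1) / 2)) / η)) ∧
      (∀ t : ℕ, (t : ℝ) / (65538 * r ^ 14 + 1) < d + 1 →
        1 - (t / (65538 * r ^ 14 + 1)) / (d + 1 - t / (65538 * r ^ 14 + 1)) ^ 2 - (d + 1) / n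
          ≤ tv (convPow p t) (unifOn univ)) := by
  obtain ⟨A, C1, r0, h⟩ := hU
  have hA : (0 : ℝ) < |A| + 1 := by positivity
  obtain ⟨b0, hb0⟩ := t28a_small (1 / (4 * (|A| + 1))) (by positivity)
  refine ⟨|A|, C1, max (max r0 1) ⌈4 * (|A| + 1)⌉₊, b0, fun r hr n d hn1 hn2 hb hd => ?_⟩
  have hr0 : r0 ≤ r := (le_max_left _ _).trans ((le_max_left _ _).trans hr)
  have hr1 : 1 ≤ r := (le_max_right _ _).trans ((le_max_left _ _).trans hr)
  have hrA : 4 * (|A| + 1) ≤ (r : ℝ) :=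
    (Nat.le_ceil _).trans (by exact_mod_cast (le_max_right _ _).trans hr)
  obtain ⟨β, I, i1, i2, i3, i4, S, hcard, hup⟩ := h r hr0 n d hn1 hn2 hd
  have hI : Fintype.card I = 65538 * r ^ 14 := by
    rw [t28a_card S]
    ring
  have hI0 : 0 < Fintype.card I := by
    rw [hI]
    exact t28a_pos r hr1
  have hneI : Nonempty I := Fintype.card_pos_iff.1 hI0
  have hneβ : Nonempty β := ⟨S.p⟩
  have hPos : Fintype.card (Pos β I d) = n := by
    rw [Fintype.card_sum, Fintype.card_sum, Fintype.card_prod, Fintype.card_bool,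
      Fintype.card_fin, hI, ← hcard]
    exact t28a_eq _ _ _
  have hb' : (b0 : ℝ) ≤ (d : ℝ) + 1 := by exact_mod_cast hb
  -- one time with small distance
  obtain ⟨t1, ht1, ht1'⟩ : ∃ t1 : ℕ, C1 * n ≤ t1 ∧
      (1 + 3 * (1 / 2 : ℝ)) * (65538 * r ^ 14 + 1) * (d + 1) + r ^ 16 ≤ t1 :=
    ⟨max ⌈C1 * n⌉₊ ⌈(1 + 3 * (1 / 2 : ℝ)) * (65538 * r ^ 14 + 1) * (d + 1) + r ^ 16⌉₊,
      (Nat.le_ceil _).trans (by exact_mod_cast le_max_left _ _),
      (Nat.le_ceil _).trans (by exact_mod_cast le_max_right _ _)⟩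
  have hsmall : av (fun σ => |S.P^[t1] (dl (Perm (Pos β I d))) σ - 1|) < 1 :=
    (hup (1 / 2) (by norm_num) (by norm_num) t1 ht1 ht1').trans_lt
      (t28a_num A r _ _ hrA (hb0 ((d : ℝ) + 1) hb') (t28a_nn (1 / 2) ((d : ℝ) + 1)
        one_half_pos (t28a_d d)))
  obtain ⟨hinj, hmin⟩ := sys_isMinGen S.toSys t1 hsmall
  let e : Pos β I d ≃ Fin n := Fintype.equivFinOfCardEq hPos
  refine ⟨unifOn (t28a_S S.toSys e), ⟨t28a_S S.toSys e, t28a_gen S.toSys e hmin, Or.inl rfl⟩,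
    fun η hη hη1 t ht1 ht2 => ?_, fun t ht => ?_⟩
  · exact t28a_num2 A r _ _ _ _ (t28a_nn η ((d : ℝ) + 1) hη (t28a_d d))
      (t28a_upper S.toSys e hinj t) (hup η hη hη1 t ht1 ht2)
  · have hm : (65538 * (r : ℝ) ^ 14 + 1) = (Fintype.card I : ℝ) + 1 := by
      rw [hI]
      push_cast
      ring
    have h1 := lower_walk S.toSys t (65538 * (r : ℝ) ^ 14 + 1) hm ht
    have h2 := lower_unif (β := β) (I := I) (d := d)
    rw [hPos] at h2
    have h3 := t28a_lower S.toSys e hinj t (inDev β I d)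
    exact t28a_num3 h1 h2 h3

end Pool.Agent.H9.Low
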