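import Pool.Agent.H9.Low.T28a
import Pool.Agent.H79.CutEntropy
import Pool.Agent.H79.CutLink

/-!
# Fast cut-off times below `n log² n`
-/

namespace Pool.Agent.H9.Low

open Equiv Finset Filter Topology Pool.Agent.H79.Cut

/-! ### total variation is at most one -/

theorem t28b_convPow_nonneg {G : Type*} [Group G] [Fintype G] [DecidableEq G] {p : G → ℝ}
    (hp : ∀ g, 0 ≤ p g) (t : ℕ) : ∀ g, 0 ≤ convPow p t g := by
  induction t with
  | zero =>
    intro g
    unfold convPow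
    split_ifs <;> norm_num
  | succ t ih =>
    intro g
    unfold convPow conv
    exact Finset.sum_nonneg fun h _ => mul_nonneg (ih h) (hp _)

theorem t28b_tv_le_one {n : ℕ} (hn : 2 ≤ n) {p : Perm (Fin n) → ℝ} (hp : IsMinGenWalk p)
    (t : ℕ) : tv (convPow p t) (unifOn univ) ≤ 1 := by
  have hnt : Nontrivial (Fin n) := Fin.nontrivial_iff_two_le.mpr hn
  have hnt2 : Nontrivial (Perm (Fin n)) := inferInstance
  obtain ⟨S, hS, hpS, -⟩ := walk_support hp
  have hp0 : ∀ g, 0 ≤ p g := by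
    intro g
    rw [hpS]
    unfold unifOn
    split_ifs
    · positivity
    · exact le_refl _
  have h1 : ∑ g, convPow p t g = 1 := by
    apply sum_convPow_eq_one
    rw [hpS]
    exact sum_unifOn hS
  have h2 : ∑ g, unifOn (univ : Finset (Perm (Fin n))) g = 1 := sum_unifOn univ_nonempty
  have h0 := t28b_convPow_nonneg hp0 t
  have h0' : ∀ g : Perm (Fin n), 0 ≤ unifOn (univ : Finset (Perm (Fin n))) g := by
    intro g
    unfold unifOn
    split_ifs
    · positivity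
    · exact le_refl _
  apply tv_le
  intro A
  have a1 : ∑ g ∈ A, convPow p t g ≤ 1 := by
    rw [← h1]
    exact Finset.sum_le_sum_of_subset_of_nonneg (Finset.subset_univ _) fun g _ _ => h0 g
  have a2 : ∑ g ∈ A, unifOn (univ : Finset (Perm (Fin n))) g ≤ 1 := by
    rw [← h2]
    exact Finset.sum_le_sum_of_subset_of_nonneg (Finset.subset_univ _) fun g _ _ => h0' g
  have a3 : 0 ≤ ∑ g ∈ A, convPow p t g := Finset.sum_nonneg fun g _ => h0 g
  have a4 : 0 ≤ ∑ g ∈ A, unifOn (univ : Finset (Perm (Fin n))) g :=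
    Finset.sum_nonneg fun g _ => h0' g
  rw [abs_le]
  constructor <;> linarith

/-! ### the twentieth root -/

/-- the integer part of the twentieth root -/
def t28b_r (n : ℕ) : ℕ := Nat.findGreatest (fun r => r ^ 20 ≤ n) n

theorem t28b_r_le (n : ℕ) : t28b_r n ^ 20 ≤ n := by
  unfold t28b_r
  exact Nat.findGreatest_spec (P := fun r => r ^ 20 ≤ n) (m := 0) (Nat.zero_le n)
    (by simp)

theorem t28b_lt_r (n : ℕ) : n < (t28b_r n + 1) ^ 20 := by
  by_contra hc
  push Not at hc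
  have h1 : t28b_r n + 1 ≤ (t28b_r n + 1) ^ 20 := Nat.le_self_pow (by norm_num) _
  have h2 : t28b_r n + 1 ≤ t28b_r n := by
    conv_rhs => unfold t28b_r
    exact Nat.le_findGreatest (h1.trans hc) hc
  omega

theorem t28b_r_ge {M n : ℕ} (h : M ^ 20 ≤ n) : M ≤ t28b_r n := by
  unfold t28b_r
  exact Nat.le_findGreatest ((Nat.le_self_pow (by norm_num) _).trans h) h

theorem t28b_r_tendsto : Tendsto t28b_r atTop atTop := by
  rw [tendsto_atTop]
  intro M
  filter_upwards [eventually_ge_atTop (M ^ 20)] with n hn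
  exact t28b_r_ge hn

theorem t28b_pow_le {R : ℝ} (hR : 40 ≤ R) : (R + 1) ^ 20 ≤ 2 * R ^ 20 := by
  have h1 := one_add_mul_le_pow (a := -(1 / (R + 1))) (by
    have : 1 / (R + 1) ≤ 1 := by
      rw [div_le_one (by linarith)]
      linarith
    linarith) 20
  have h2 : 1 + -(1 / (R + 1)) = R / (R + 1) := by
    field_simp
    ring
  rw [h2, div_pow] at h1
  have h3 : (1 : ℝ) / (R + 1) ≤ 1 / 41 := by
    apply one_div_le_one_div_of_le <;> linarith
  have h4 : (1 : ℝ) / 2 ≤ R ^ 20 / (R + 1) ^ 20 := by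
    push_cast at h1
    linarith
  rw [le_div_iff₀ (by positivity)] at h4
  linarith

theorem t28b_log_sq {R : ℝ} (hR : 40 ≤ R) : Real.log (R + 1) ^ 2 ≤ 8 * R := by
  have h1 : Real.log (R + 1) = 2 * Real.log (√(R + 1)) := by
    rw [Real.log_sqrt (by linarith)]
    ring
  have h2 : Real.log (√(R + 1)) ≤ √(R + 1) :=
    (Real.log_le_sub_one_of_pos (Real.sqrt_pos.mpr (by linarith))).trans (by linarith)
  have h3 : 0 ≤ Real.log (√(R + 1)) := Real.log_nonneg (by
    rw [Real.one_le_sqrt]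
    linarith)
  have h4 : √(R + 1) ^ 2 = R + 1 := Real.sq_sqrt (by linarith)
  rw [h1, mul_pow]
  have h5 : Real.log (√(R + 1)) ^ 2 ≤ √(R + 1) ^ 2 := pow_le_pow_left₀ h3 h2 2
  rw [h4] at h5
  linarith

/-- the normalised time is at most `r ^ 7` -/
theorem t28b_x_le {R N t : ℝ} (hR : 40 ≤ R) (hN1 : R ^ 20 ≤ N) (hN : N ≤ (R + 1) ^ 20)
    (ht : t ≤ N * Real.log N ^ 2) : t / (65538 * R ^ 14 + 1) ≤ R ^ 7 := by
  have hN0 : 1 ≤ N := (one_le_pow₀ (by linarith)).trans hN1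
  have hl0 : 0 ≤ Real.log N := Real.log_nonneg hN0
  have hl : Real.log N ≤ 20 * Real.log (R + 1) := by
    have := Real.log_le_log (by linarith) hN
    rw [Real.log_pow] at this
    push_cast at this
    exact this
  have hl2 : Real.log N ^ 2 ≤ 400 * (8 * R) := by
    calc Real.log N ^ 2 ≤ (20 * Real.log (R + 1)) ^ 2 := pow_le_pow_left₀ hl0 hl 2
      _ = 400 * Real.log (R + 1) ^ 2 := by ring
      _ ≤ 400 * (8 * R) := mul_le_mul_of_nonneg_left (t28b_log_sq hR) (by norm_num)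
  have h2 : N ≤ 2 * R ^ 20 := hN.trans (t28b_pow_le hR)
  have h3 : t ≤ (2 * R ^ 20) * (400 * (8 * R)) :=
    ht.trans (mul_le_mul h2 hl2 (sq_nonneg _) (by positivity))
  rw [div_le_iff₀ (by positivity)]
  have h4 : R ^ 7 * (65538 * R ^ 14 + 1) = 65538 * R ^ 21 + R ^ 7 := by ring
  have h5 : (2 * R ^ 20) * (400 * (8 * R)) = 6400 * R ^ 21 := by ring
  rw [h4]
  rw [h5] at h3
  have h6 : 0 ≤ R ^ 21 := by positivity
  have h7 : 0 ≤ R ^ 7 := by positivity
  linarith

/-- the normalised time is at least `r` -/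
theorem t28b_x_ge {R N t : ℝ} (hR : 40 ≤ R) (hN1 : R ^ 20 ≤ N) (ht : N ≤ t) :
    R ≤ t / (65538 * R ^ 14 + 1) := by
  rw [le_div_iff₀ (by positivity)]
  have h1 : R * (65538 * R ^ 14 + 1) = 65538 * R ^ 15 + R := by ring
  have h2 : R ≤ R ^ 15 := le_self_pow₀ (by linarith) (by norm_num)
  have h3 : (40 : ℝ) ^ 5 ≤ R ^ 5 := pow_le_pow_left₀ (by norm_num) hR 5
  have h4 : R ^ 20 = R ^ 5 * R ^ 15 := by ring
  have h5 : (0 : ℝ) ≤ R ^ 15 := by positivity
  have h6 : (40 : ℝ) ^ 5 * R ^ 15 ≤ R ^ 5 * R ^ 15 := mul_le_mul_of_nonneg_right h3 h5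
  rw [h1]
  norm_num at h6
  linarith

theorem t28b_tendsto_mul_exp {c : ℝ} (hc : 0 < c) :
    Tendsto (fun x : ℝ => x * Real.exp (-(c * x))) atTop (𝓝 0) := by
  have h1 := Real.tendsto_pow_mul_exp_neg_atTop_nhds_zero 1
  have h2 : Tendsto (fun x : ℝ => c * x) atTop atTop := tendsto_id.const_mul_atTop hc
  have h3 := (h1.comp h2).const_mul (1 / c)
  rw [mul_zero] at h3
  refine h3.congr fun x => ?_
  simp only [Function.comp_apply, pow_one]
  field_simp

theorem t28b_tendsto_exp {c : ℝ} (hc : 0 < c) :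
    Tendsto (fun x : ℝ => Real.exp (-(c * x))) atTop (𝓝 0) := by
  have h2 : Tendsto (fun x : ℝ => c * x) atTop atTop := tendsto_id.const_mul_atTop hc
  exact Real.tendsto_exp_neg_atTop_nhds_zero.comp h2

theorem fast_cut : ∃ C0 : ℝ, ∀ t : ℕ → ℝ, (∀ᶠ n : ℕ in atTop, C0 * n ≤ t n) →
    (∀ᶠ n : ℕ in atTop, t n ≤ n * Real.log n ^ 2) → IsCutoffTime t := by
  obtain ⟨A, C1, r0, b0, hfin⟩ := fin_par
  refine ⟨max C1 0 + 2, ?_⟩
  intro t ht1 ht2
  have hC1 : C1 ≤ max C1 0 := le_max_left _ _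
  have hC0 : 0 ≤ max C1 0 := le_max_right _ _
  set x : ℕ → ℝ := fun n => t n / (65538 * (t28b_r n : ℝ) ^ 14 + 1) with hx
  set D : ℕ → ℕ := fun n => ⌊x n⌋₊ with hD
  -- basic eventual facts
  have hrR : Tendsto (fun n => (t28b_r n : ℝ)) atTop atTop :=
    tendsto_natCast_atTop_atTop.comp t28b_r_tendsto
  have hbase : ∀ᶠ n : ℕ in atTop, 40 ≤ (t28b_r n : ℝ) ∧ r0 ≤ t28b_r n ∧ 2 ≤ n ∧
      ((t28b_r n : ℝ) ^ 20 ≤ n) ∧ ((n : ℝ) ≤ ((t28b_r n : ℝ) + 1) ^ 20) ∧
      (max C1 0 + 2) * n ≤ t n ∧ t n ≤ n * Real.log n ^ 2 := by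
    filter_upwards [hrR.eventually_ge_atTop 40, t28b_r_tendsto.eventually_ge_atTop r0,
      eventually_ge_atTop 2, ht1, ht2] with n h1 h2 h3 h4 h5
    refine ⟨h1, h2, h3, ?_, ?_, h4, h5⟩
    · exact_mod_cast t28b_r_le n
    · exact_mod_cast (t28b_lt_r n).le
  have htn : ∀ᶠ n : ℕ in atTop, 2 * (n : ℝ) ≤ t n := by
    filter_upwards [ht1] with n h1
    have : (0 : ℝ) ≤ n := Nat.cast_nonneg n
    nlinarith
  have hxge : ∀ᶠ n : ℕ in atTop, (t28b_r n : ℝ) ≤ x n := by
    filter_upwards [hbase, htn] with n h1 h2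
    have : (0 : ℝ) ≤ n := Nat.cast_nonneg n
    exact t28b_x_ge h1.1 h1.2.2.2.1 (by linarith)
  have hxinf : Tendsto x atTop atTop := tendsto_atTop_mono' _ hxge hrR
  have hxle : ∀ᶠ n : ℕ in atTop, x n ≤ (t28b_r n : ℝ) ^ 7 := by
    filter_upwards [hbase] with n h1
    exact t28b_x_le h1.1 h1.2.2.2.1 h1.2.2.2.2.1 h1.2.2.2.2.2.2
  have hDinf : Tendsto D atTop atTop := tendsto_nat_floor_atTop.comp hxinf
  have hDR : Tendsto (fun n => (D n : ℝ)) atTop atTop :=
    tendsto_natCast_atTop_atTop.comp hDinf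
  have hDle : ∀ᶠ n : ℕ in atTop, D n ≤ t28b_r n ^ 7 := by
    filter_upwards [hxle] with n h1
    rw [hD]
    have : (⌊x n⌋₊ : ℝ) ≤ (t28b_r n : ℝ) ^ 7 := by
      by_cases h0 : 0 ≤ x n
      · exact (Nat.floor_le h0).trans h1
      · rw [Nat.floor_of_nonpos (by linarith)]
        push_cast
        positivity
    exact_mod_cast this
  -- the walks
  have hex : ∀ n : ℕ, ∃ p : Perm (Fin n) → ℝ,
      (r0 ≤ t28b_r n ∧ b0 ≤ D n ∧ 1 ≤ D n ∧ D n ≤ t28b_r n ^ 7) →
      IsMinGenWalk p ∧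
      (∀ η : ℝ, 0 < η → η < 1 → ∀ T : ℕ, C1 * n ≤ T →
        (1 + 3 * η) * (65538 * (t28b_r n : ℝ) ^ 14 + 1) * (D n : ℝ) + (t28b_r n : ℝ) ^ 16 ≤ T →
        tv (convPow p T) (unifOn univ) ≤ A * (1 / (t28b_r n : ℝ)
              + (D n : ℝ) * Real.exp (-(η * (D n : ℝ) / 12))
              + Real.exp (-(η ^ 2 * (D n : ℝ) / 2)) / η)) ∧
      (∀ T : ℕ, (T : ℝ) / (65538 * (t28b_r n : ℝ) ^ 14 + 1) < (D n : ℝ) →
        1 - (T / (65538 * (t28b_r n : ℝ) ^ 14 + 1)) /
            ((D n : ℝ) - T / (65538 * (t28b_r n : ℝ) ^ 14 + 1)) ^ 2 - (D n : ℝ) / n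
          ≤ tv (convPow p T) (unifOn univ)) := by
    intro n
    by_cases h : r0 ≤ t28b_r n ∧ b0 ≤ D n ∧ 1 ≤ D n ∧ D n ≤ t28b_r n ^ 7
    · obtain ⟨h1, h2, h3, h4⟩ := h
      have h5 : D n - 1 + 1 = D n := Nat.sub_add_cancel h3
      obtain ⟨p, hp⟩ := hfin (t28b_r n) h1 n (D n - 1) (t28b_r_le n) (t28b_lt_r n)
        (by rw [h5]; exact h2) (by rw [h5]; exact h4)
      have h6 : ((D n - 1 : ℕ) : ℝ) + 1 = (D n : ℝ) := by
        exact_mod_cast h5
      rw [h6] at hp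
      exact ⟨p, fun _ => hp⟩
    · exact ⟨0, fun h' => absurd h' h⟩
  choose p hp using hex
  have hev : ∀ᶠ n : ℕ in atTop, r0 ≤ t28b_r n ∧ b0 ≤ D n ∧ 1 ≤ D n ∧ D n ≤ t28b_r n ^ 7 := by
    filter_upwards [hbase, hDinf.eventually_ge_atTop b0, hDinf.eventually_ge_atTop 1, hDle]
      with n h1 h2 h3 h4
    exact ⟨h1.2.1, h2, h3, h4⟩
  have htinf : Tendsto t atTop atTop := by
    refine tendsto_atTop_mono' _ htn ?_
    exact tendsto_natCast_atTop_atTop.const_mul_atTop (by norm_num)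
  refine ⟨p, ?_, htinf.eventually_gt_atTop 0, htinf, ?_⟩
  · filter_upwards [hev] with n h
    exact (hp n h).1
  intro ε hε hε1
  constructor
  · -- upper bound
    set η : ℝ := ε / 6 with hη
    have hη0 : 0 < η := by positivity
    have hη1 : η < 1 := by rw [hη]; linarith
    have hlim : Tendsto (fun n : ℕ => A * (1 / (t28b_r n : ℝ)
              + (D n : ℝ) * Real.exp (-(η * (D n : ℝ) / 12))
              + Real.exp (-(η ^ 2 * (D n : ℝ) / 2)) / η)) atTop (𝓝 0) := by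
      have l1 : Tendsto (fun n : ℕ => 1 / (t28b_r n : ℝ)) atTop (𝓝 0) := by
        refine (tendsto_inv_atTop_zero.comp hrR).congr fun n => ?_
        simp
      have l2 : Tendsto (fun n : ℕ => (D n : ℝ) * Real.exp (-(η * (D n : ℝ) / 12))) atTop
          (𝓝 0) := by
        refine ((t28b_tendsto_mul_exp (c := η / 12) (by positivity)).comp hDR).congr fun n => ?_
        simp only [Function.comp_apply]
        congr 3
        ring
      have l3 : Tendsto (fun n : ℕ => Real.exp (-(η ^ 2 * (D n : ℝ) / 2)) / η) atTop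
          (𝓝 0) := by
        have := ((t28b_tendsto_exp (c := η ^ 2 / 2) (by positivity)).comp hDR).div_const η
        rw [zero_div] at this
        refine this.congr fun n => ?_
        simp only [Function.comp_apply]
        congr 3
        ring
      have := ((l1.add l2).add l3).const_mul A
      simpa using this
    refine squeeze_zero' (Eventually.of_forall fun n => tv_nonneg _ _) ?_ hlim
    filter_upwards [hev, hbase, htn, hxge, hrR.eventually_ge_atTop (2 / ε)]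
      with n h1 h2 h3 h4 h5
    obtain ⟨b1, b2, b3, b4, b5, b6, b7⟩ := h2
    have hn0 : (2 : ℝ) ≤ n := by exact_mod_cast b3
    have ht0 : 0 ≤ t n := by linarith
    have hT1 : (1 + ε) * t n - 1 < (⌊(1 + ε) * t n⌋₊ : ℝ) := by
      have := Nat.lt_floor_add_one ((1 + ε) * t n)
      linarith
    have hx0 : 0 ≤ x n := by linarith
    have hm0 : (0 : ℝ) < 65538 * (t28b_r n : ℝ) ^ 14 + 1 := by positivity
    have hDx : (D n : ℝ) ≤ x n := Nat.floor_le hx0
    have hmD : (65538 * (t28b_r n : ℝ) ^ 14 + 1) * (D n : ℝ) ≤ t n := by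
      calc (65538 * (t28b_r n : ℝ) ^ 14 + 1) * (D n : ℝ)
          ≤ (65538 * (t28b_r n : ℝ) ^ 14 + 1) * x n := mul_le_mul_of_nonneg_left hDx hm0.le
        _ = t n := by
            rw [hx]
            exact mul_div_cancel₀ _ hm0.ne'
    apply (hp n h1).2.1 η hη0 hη1
    · nlinarith
    · have e1 : (1 + 3 * η) * (65538 * (t28b_r n : ℝ) ^ 14 + 1) * (D n : ℝ)
          ≤ (1 + 3 * η) * t n := by
        rw [mul_assoc]
        exact mul_le_mul_of_nonneg_left hmD (by positivity)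
      have e2 : (t28b_r n : ℝ) ^ 16 + 1 ≤ ε / 2 * t n := by
        have f1 : 2 ≤ ε * (t28b_r n : ℝ) := by
          rw [div_le_iff₀ hε] at h5
          linarith
        have f2 : (1 : ℝ) ≤ (t28b_r n : ℝ) ^ 16 := one_le_pow₀ (by linarith)
        have f3 : (t28b_r n : ℝ) ≤ (t28b_r n : ℝ) ^ 4 := le_self_pow₀ (by linarith) (by norm_num)
        have f4 : ε / 2 * (2 * (t28b_r n : ℝ) ^ 20) ≤ ε / 2 * t n := by
          apply mul_le_mul_of_nonneg_left _ (by positivity)
          linarith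
        have f5 : ε / 2 * (2 * (t28b_r n : ℝ) ^ 20)
            = (ε * (t28b_r n : ℝ) ^ 4) * (t28b_r n : ℝ) ^ 16 := by ring
        have f6 : 2 ≤ ε * (t28b_r n : ℝ) ^ 4 :=
          f1.trans (mul_le_mul_of_nonneg_left f3 hε.le)
        have f7 : 2 * (t28b_r n : ℝ) ^ 16 ≤ (ε * (t28b_r n : ℝ) ^ 4) * (t28b_r n : ℝ) ^ 16 :=
          mul_le_mul_of_nonneg_right f6 (by positivity)
        linarith
      have e3 : 3 * η = ε / 2 := by rw [hη]; ring
      rw [e3] at e1 ⊢
      nlinarith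
  · -- lower bound
    have hlow : Tendsto (fun n : ℕ => 1 - 4 / ε ^ 2 * (x n)⁻¹ - (t28b_r n : ℝ)⁻¹) atTop
        (𝓝 1) := by
      have l1 := (tendsto_inv_atTop_zero.comp hxinf).const_mul (4 / ε ^ 2)
      have l2 := tendsto_inv_atTop_zero.comp hrR
      have := ((tendsto_const_nhds (x := (1 : ℝ))).sub l1).sub l2
      simpa using this
    refine tendsto_of_tendsto_of_tendsto_of_le_of_le' hlow tendsto_const_nhds ?_ ?_
    · filter_upwards [hev, hbase, htn, hxge, hxinf.eventually_ge_atTop (2 / ε)]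
        with n h1 h2 h3 h4 h5
      obtain ⟨b1, b2, b3, b4, b5, b6, b7⟩ := h2
      have hn0 : (2 : ℝ) ≤ n := by exact_mod_cast b3
      have ht0 : 0 ≤ t n := by linarith
      have hx0 : 0 < x n := by linarith
      have hm0 : (0 : ℝ) < 65538 * (t28b_r n : ℝ) ^ 14 + 1 := by positivity
      have hT0 : (⌊(1 - ε) * t n⌋₊ : ℝ) ≤ (1 - ε) * t n :=
        Nat.floor_le (mul_nonneg (by linarith) ht0)
      set T : ℕ := ⌊(1 - ε) * t n⌋₊ with hT
      have hy : (T : ℝ) / (65538 * (t28b_r n : ℝ) ^ 14 + 1) ≤ (1 - ε) * x n := by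
        rw [hx, ← mul_div_assoc]
        exact div_le_div_of_nonneg_right hT0 hm0.le
      have hy0 : 0 ≤ (T : ℝ) / (65538 * (t28b_r n : ℝ) ^ 14 + 1) := by positivity
      set y : ℝ := (T : ℝ) / (65538 * (t28b_r n : ℝ) ^ 14 + 1) with hydef
      have hDx : x n - 1 < (D n : ℝ) := by
        have := Nat.lt_floor_add_one (x n)
        linarith
      have hεx : 2 ≤ ε * x n := by
        rw [div_le_iff₀ hε] at h5
        linarith
      have hgap : ε * x n / 2 ≤ (D n : ℝ) - y := by linarith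
      have hlt : y < (D n : ℝ) := by linarith
      have hmain := (hp n h1).2.2 T hlt
      refine le_trans ?_ hmain
      have e1 : y / ((D n : ℝ) - y) ^ 2 ≤ 4 / ε ^ 2 * (x n)⁻¹ := by
        have g1 : (ε * x n / 2) ^ 2 ≤ ((D n : ℝ) - y) ^ 2 :=
          pow_le_pow_left₀ (by positivity) hgap 2
        calc y / ((D n : ℝ) - y) ^ 2 ≤ x n / (ε * x n / 2) ^ 2 := by
              apply div_le_div₀ hx0.le _ (by positivity) g1
              nlinarith
          _ = 4 / ε ^ 2 * (x n)⁻¹ := by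
              field_simp
              ring
      have e2 : (D n : ℝ) / n ≤ (t28b_r n : ℝ)⁻¹ := by
        have g1 : (D n : ℝ) ≤ (t28b_r n : ℝ) ^ 7 := by exact_mod_cast h1.2.2.2
        have hr0 : (0 : ℝ) < t28b_r n := by linarith
        rw [div_le_iff₀ (by linarith), inv_mul_eq_div, le_div_iff₀ hr0]
        calc (D n : ℝ) * (t28b_r n : ℝ) ≤ (t28b_r n : ℝ) ^ 7 * (t28b_r n : ℝ) :=
              mul_le_mul_of_nonneg_right g1 hr0.le
          _ = (t28b_r n : ℝ) ^ 8 := by ring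
          _ ≤ (t28b_r n : ℝ) ^ 20 := pow_le_pow_right₀ (by linarith) (by norm_num)
          _ ≤ n := b4
      linarith
    · filter_upwards [hev, eventually_ge_atTop 2] with n h1 h2
      exact t28b_tv_le_one h2 (hp n h1).1 _

end Pool.Agent.H9.Low
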