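import Pool.Agent.H9.Low.Defs2
import Pool.Agent.H9.Cut.Window3

/-!
# All sequences between `C n` and `n³ log n`
-/

namespace Pool.Agent.H9.Low

open Equiv Finset

open Filter Topology Pool.Agent.H79.Cut in
theorem window_all_of (h : ∃ C0 : ℝ, ∀ t : ℕ → ℝ, (∀ᶠ n : ℕ in atTop, C0 * n ≤ t n) →
    (∀ᶠ n : ℕ in atTop, t n ≤ n * Real.log n ^ 2) → IsCutoffTime t) :
    ∃ C0 : ℝ, ∀ t : ℕ → ℝ, (∀ᶠ n : ℕ in atTop, C0 * n ≤ t n) →
    Tendsto (fun n : ℕ => t n / ((n : ℝ) ^ 3 * Real.log n)) atTop (𝓝 0) → IsCutoffTime t := by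
  obtain ⟨C0, hC⟩ := h
  refine ⟨C0, fun t ht1 ht2 => ?_⟩
  classical
  have hlogT : Tendsto (fun n : ℕ => Real.log n) atTop atTop :=
    Real.tendsto_log_atTop.comp tendsto_natCast_atTop_atTop
  have hnT : Tendsto (fun n : ℕ => (n : ℝ)) atTop atTop := tendsto_natCast_atTop_atTop
  -- the lower sequence
  have c1 : IsCutoffTime (fun n => min (t n) ((n : ℝ) * Real.log n ^ 2)) := by
    refine hC _ ?_ (Eventually.of_forall fun n => min_le_right _ _)
    filter_upwards [ht1, hlogT.eventually_ge_atTop (max C0 1)] with n h1 h2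
    refine le_min h1 ?_
    have h3 : (1 : ℝ) ≤ Real.log n := (le_max_right _ _).trans h2
    have h4 : C0 ≤ Real.log n := (le_max_left _ _).trans h2
    have h5 : C0 ≤ Real.log n ^ 2 := by nlinarith
    have h6 : (0 : ℝ) ≤ n := Nat.cast_nonneg n
    calc C0 * n ≤ Real.log n ^ 2 * n := mul_le_mul_of_nonneg_right h5 h6
      _ = n * Real.log n ^ 2 := mul_comm _ _
  -- the upper sequence
  have c2 : IsCutoffTime (fun n => max (t n) ((n : ℝ) * Real.log n ^ 2)) := by
    apply Pool.Agent.H9.Cut.window3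
    · refine tendsto_atTop_mono' _ ?_ hlogT
      filter_upwards [hlogT.eventually_ge_atTop 1, hnT.eventually_ge_atTop 1] with n h1 h2
      have h3 : (0 : ℝ) < (n : ℝ) * Real.log n := by nlinarith
      rw [le_div_iff₀ h3]
      refine le_trans (le_of_eq ?_) (le_max_right _ _)
      ring
    · have h0 : Tendsto (fun n : ℕ => max (t n / ((n : ℝ) ^ 3 * Real.log n))
          ((n : ℝ) * Real.log n ^ 2 / ((n : ℝ) ^ 3 * Real.log n))) atTop (𝓝 (max 0 0)) := by
        refine ht2.max ?_
        have h1 : Tendsto (fun x : ℝ => Real.log x / x) atTop (𝓝 0) := by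
          have := Real.isLittleO_log_id_atTop.tendsto_div_nhds_zero
          simpa using this
        have h2 := h1.comp hnT
        refine squeeze_zero' ?_ ?_ h2
        · filter_upwards [hlogT.eventually_ge_atTop 1] with n h1
          positivity
        · filter_upwards [hlogT.eventually_ge_atTop 1, hnT.eventually_ge_atTop 1] with n h1 h2
          have h3 : (0 : ℝ) < (n : ℝ) ^ 3 * Real.log n := by positivity
          have h4 : (0 : ℝ) < (n : ℝ) := by linarith
          show _ ≤ Real.log (n : ℝ) / (n : ℝ)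
          rw [div_le_div_iff₀ h3 h4]
          have h5 : (n : ℝ) ^ 2 * Real.log n ^ 2 * 1 ≤ (n : ℝ) ^ 2 * Real.log n ^ 2 * n :=
            mul_le_mul_of_nonneg_left h2 (by positivity)
          nlinarith
      rw [max_self] at h0
      refine h0.congr' ?_
      filter_upwards [hlogT.eventually_ge_atTop 1, hnT.eventually_ge_atTop 1] with n h1 h2
      have h3 : (0 : ℝ) < (n : ℝ) ^ 3 * Real.log n := by positivity
      exact max_div_div_right h3.le _ _
  obtain ⟨p1, hp1, h1⟩ := c1
  obtain ⟨p2, hp2, h2⟩ := c2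
  refine ⟨fun n => if t n ≤ (n : ℝ) * Real.log n ^ 2 then p1 n else p2 n, ?_, ?_, ?_, ?_⟩
  · filter_upwards [hp1, hp2] with n a b
    split_ifs
    · exact a
    · exact b
  · filter_upwards [h1.1] with n a
    exact lt_of_lt_of_le a (min_le_left _ _)
  · exact tendsto_atTop_mono (fun n => min_le_left _ _) h1.2.1
  · intro ε hε hε1
    obtain ⟨a1, a2⟩ := h1.2.2 ε hε hε1
    obtain ⟨b1, b2⟩ := h2.2.2 ε hε hε1
    have key : ∀ s : ℝ → ℕ → ℕ, (fun n => tv (convPow (if t n ≤ (n : ℝ) * Real.log n ^ 2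
        then p1 n else p2 n) (s (t n) n)) (unifOn univ)) =
        fun n => if t n ≤ (n : ℝ) * Real.log n ^ 2 then
          tv (convPow (p1 n) (s (min (t n) ((n : ℝ) * Real.log n ^ 2)) n)) (unifOn univ)
        else tv (convPow (p2 n) (s (max (t n) ((n : ℝ) * Real.log n ^ 2)) n)) (unifOn univ) := by
      intro s
      funext n
      by_cases hn : t n ≤ (n : ℝ) * Real.log n ^ 2
      · simp only [if_pos hn, min_eq_left hn]
      · simp only [if_neg hn, max_eq_left (not_le.1 hn).le]
    constructor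
    · have := key (fun x _ => ⌊(1 + ε) * x⌋₊)
      rw [this]
      exact a1.if' b1
    · have := key (fun x _ => ⌊(1 - ε) * x⌋₊)
      rw [this]
      exact a2.if' b2

end Pool.Agent.H9.Low
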