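import Pool.Agent.H9.Low.T28b
import Pool.Agent.H9.Low.T28c

/-!
# All sequences between `C n` and `n³ log n`: final form
-/

namespace Pool.Agent.H9.Low

open Filter Topology Pool.Agent.H79.Cut

theorem window_all : ∃ C0 : ℝ, ∀ t : ℕ → ℝ, (∀ᶠ n : ℕ in atTop, C0 * n ≤ t n) →
    Tendsto (fun n : ℕ => t n / ((n : ℝ) ^ 3 * Real.log n)) atTop (𝓝 0) → IsCutoffTime t :=
  window_all_of fast_cut

end Pool.Agent.H9.Low
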