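import Pool.Agent.H9.Low.Basic

/-!
# Power traces bound norms; the matrices of the random operators
-/

namespace Pool.Agent.H9.Low

open Equiv Finset Matrix

section opn

variable {Y : Type*} [Fintype Y]

theorem t2_sum_mulVec_sq_le (A : Matrix Y Y ℝ) (v : Y → ℝ) :
    ∑ y, (A.mulVec v) y ^ 2 ≤ (A.transpose * A).trace * ∑ y, v y ^ 2 := by
  have h1 : (A.transpose * A).trace = ∑ y, ∑ z, A y z ^ 2 := by
    unfold Matrix.trace
    rw [Finset.sum_comm]
    refine Finset.sum_congr rfl fun z _ => ?_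
    rw [Matrix.diag_apply, Matrix.mul_apply]
    refine Finset.sum_congr rfl fun y _ => ?_
    rw [Matrix.transpose_apply, pow_two]
  rw [h1, Finset.sum_mul]
  refine Finset.sum_le_sum fun y _ => ?_
  exact Finset.sum_mul_sq_le_sq_mul_sq _ (A y) v

theorem t2_dot_sq [DecidableEq Y] (A : Matrix Y Y ℝ) (v : Y → ℝ) :
    v ⬝ᵥ ((A.transpose * A).mulVec v) = ∑ y, (A.mulVec v) y ^ 2 := by
  rw [← Matrix.mulVec_mulVec, Matrix.dotProduct_mulVec, Matrix.vecMul_transpose]
  unfold dotProduct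
  refine Finset.sum_congr rfl fun y _ => (pow_two _).symm

theorem opn [DecidableEq Y] (M : Matrix Y Y ℝ) (j : ℕ) (v : Y → ℝ) :
    (∑ y, (M.mulVec v) y ^ 2) ^ (2 ^ j) ≤
      ((M.transpose * M) ^ (2 ^ j)).trace * (∑ y, v y ^ 2) ^ (2 ^ j) := by
  set S := M.transpose * M with hS
  have hST : S.transpose = S := by
    rw [hS, Matrix.transpose_mul, Matrix.transpose_transpose]
  have hSpT : ∀ k, (S ^ k).transpose = S ^ k := fun k => by
    rw [Matrix.transpose_pow, hST]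
  set n := ∑ y, v y ^ 2 with hn
  have hn0 : 0 ≤ n := Finset.sum_nonneg fun _ _ => sq_nonneg _
  set a : ℕ → ℝ := fun i => v ⬝ᵥ ((S ^ (2 ^ i)).mulVec v) with ha
  have ha1 : ∀ i, a (i + 1) = ∑ y, ((S ^ (2 ^ i)).mulVec v) y ^ 2 := fun i => by
    rw [← t2_dot_sq, hSpT, ← pow_add, ← two_mul, ← pow_succ']
  have ha0 : a 0 = ∑ y, (M.mulVec v) y ^ 2 := by
    rw [← t2_dot_sq, ha]
    simp only [pow_zero, pow_one, hS]
  have hcs : ∀ i, a i ^ 2 ≤ n * a (i + 1) := fun i => by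
    rw [ha1]
    exact Finset.sum_mul_sq_le_sq_mul_sq _ v _
  have hpos : 0 ≤ a 0 := by rw [ha0]; exact Finset.sum_nonneg fun _ _ => sq_nonneg _
  have hind : ∀ i, (a 0) ^ (2 ^ i) ≤ n ^ (2 ^ i - 1) * a i := by
    intro i
    induction i with
    | zero => simp
    | succ i ih =>
      have h1 : (a 0) ^ (2 ^ (i + 1)) = ((a 0) ^ (2 ^ i)) ^ 2 := by rw [← pow_mul, pow_succ]
      have h2 : ((a 0) ^ (2 ^ i)) ^ 2 ≤ (n ^ (2 ^ i - 1) * a i) ^ 2 :=
        pow_le_pow_left₀ (pow_nonneg hpos _) ih 2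
      have h3 : (n ^ (2 ^ i - 1) * a i) ^ 2 ≤ (n ^ (2 ^ i - 1)) ^ 2 * (n * a (i + 1)) := by
        rw [mul_pow]
        exact mul_le_mul_of_nonneg_left (hcs i) (sq_nonneg _)
      have h4 : (n ^ (2 ^ i - 1)) ^ 2 * (n * a (i + 1)) = n ^ (2 ^ (i + 1) - 1) * a (i + 1) := by
        rw [← mul_assoc, ← pow_mul, ← pow_succ]
        congr 2
        have : 1 ≤ 2 ^ i := Nat.one_le_two_pow
        rw [pow_succ]
        omega
      rw [h1]
      exact h2.trans (h3.trans (le_of_eq h4))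
  have hlast : a j ≤ (S ^ (2 ^ j)).trace * n := by
    rcases j with _ | j
    · rw [ha0]
      simpa using t2_sum_mulVec_sq_le M v
    · rw [ha1]
      have h := t2_sum_mulVec_sq_le (S ^ (2 ^ j)) v
      rw [hSpT, ← pow_add, ← two_mul, ← pow_succ'] at h
      exact h
  have h5 := hind j
  have h6 : n ^ (2 ^ j - 1) * a j ≤ n ^ (2 ^ j - 1) * ((S ^ (2 ^ j)).trace * n) :=
    mul_le_mul_of_nonneg_left hlast (pow_nonneg hn0 _)
  have h7 : n ^ (2 ^ j - 1) * ((S ^ (2 ^ j)).trace * n) = (S ^ (2 ^ j)).trace * n ^ (2 ^ j) := by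
    have : 1 ≤ 2 ^ j := Nat.one_le_two_pow
    have h8 : n ^ (2 ^ j) = n ^ (2 ^ j - 1) * n := by
      rw [← pow_succ]; congr 1; omega
    rw [h8]; ring
  rw [← ha0]
  exact h5.trans (h6.trans (le_of_eq h7))

theorem t2_trace_nonneg [DecidableEq Y] (M : Matrix Y Y ℝ) (k : ℕ) :
    0 ≤ ((M.transpose * M) ^ k).trace := by
  have h1 : (M.transpose * M).PosSemidef := by
    have := Matrix.posSemidef_conjTranspose_mul_self M
    rwa [Matrix.conjTranspose_eq_transpose_of_trivial] at this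
  exact (h1.pow k).trace_nonneg

end opn

/-- average with a character -/
noncomputable def PA {Y K : Type*} [Group K] [Fintype K] [MulAction K Y] (s : K →* ℤˣ)
    (φ : Y → ℝ) : Y → ℝ :=
  fun y => av fun k : K => (((s k : ℤˣ) : ℤ) : ℝ) * φ (k • y)

/-- the matrix of the random operator given by the letters `g` -/
noncomputable def TT {Y K : Type*} [DecidableEq Y] [Group K] [Fintype K]
    [MulAction K Y] {w : ℕ} (s : K →* ℤˣ) (C : Fin w → Perm Y) (g : Fin w → K) : Matrix Y Y ℝ :=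
  fun y z => av fun i => (((s (g i) : ℤˣ) : ℤ) : ℝ) *
    ((if g i • C i y = z then (1 : ℝ) else 0)
      - PA s (fun y1 => if y1 = z then (1 : ℝ) else 0) (g i • C i y))

section TT

variable {Y K : Type*} [Fintype Y] [DecidableEq Y] [Group K] [Fintype K] [MulAction K Y]

theorem t2_sum_PA (s : K →* ℤˣ) (φ : Y → ℝ) (y : Y) :
    ∑ z, PA s (fun y1 => if y1 = z then (1 : ℝ) else 0) y * φ z = PA s φ y := by
  unfold PA
  simp_rw [← av_mul_right]
  rw [← av_sum]
  unfold av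
  congr 1
  refine Finset.sum_congr rfl fun k _ => ?_
  simp_rw [mul_assoc]
  rw [← Finset.mul_sum]
  congr 1
  simp

theorem TT_mulVec {w : ℕ} (s : K →* ℤˣ) (C : Fin w → Perm Y) (g : Fin w → K) (φ : Y → ℝ) :
    (TT s C g).mulVec φ = fun y => av fun i => (((s (g i) : ℤˣ) : ℤ) : ℝ) *
      (φ (g i • C i y) - PA s φ (g i • C i y)) := by
  ext y
  unfold Matrix.mulVec dotProduct TT
  simp_rw [← av_mul_right]
  rw [← av_sum]
  unfold av
  congr 1
  refine Finset.sum_congr rfl fun i _ => ?_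
  simp_rw [mul_assoc]
  rw [← Finset.mul_sum]
  congr 1
  simp_rw [sub_mul]
  rw [Finset.sum_sub_distrib, t2_sum_PA]
  congr 1
  simp

end TT

end Pool.Agent.H9.Low
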