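import Pool.Agent.H9.Low.T1
import Pool.Agent.H9.Low.T2d

/-!
# Expected trace of powers of the random operators
-/

namespace Pool.Agent.H9.Low

open Equiv Finset Matrix

/-! ### contractions -/

section ctr

variable {Y : Type*} [Fintype Y]

/-- contractions -/
def T2bCtr (A : Matrix Y Y ℝ) : Prop :=
  ∀ v : Y → ℝ, ∑ y, (A.mulVec v) y ^ 2 ≤ ∑ y, v y ^ 2

theorem T2bCtr.mul {A B : Matrix Y Y ℝ} (hA : T2bCtr A) (hB : T2bCtr B) : T2bCtr (A * B) := by
  intro v
  rw [← Matrix.mulVec_mulVec]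
  exact (hA _).trans (hB v)

theorem T2bCtr.one [DecidableEq Y] : T2bCtr (1 : Matrix Y Y ℝ) := by
  intro v
  rw [Matrix.one_mulVec]

theorem T2bCtr.transpose {A : Matrix Y Y ℝ} (hA : T2bCtr A) : T2bCtr A.transpose := by
  intro v
  set u := A.transpose.mulVec v with hu
  have h1 : ∑ y, u y ^ 2 = ∑ y, (A.mulVec u) y * v y := by
    have e1 : ∑ y, u y ^ 2 = u ⬝ᵥ (A.transpose.mulVec v) := by
      unfold dotProduct
      refine Finset.sum_congr rfl fun y _ => ?_
      rw [pow_two]
    rw [e1, Matrix.dotProduct_mulVec, Matrix.vecMul_transpose]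
    rfl
  have h2 : (∑ y, u y ^ 2) ^ 2 ≤ (∑ y, u y ^ 2) * ∑ y, v y ^ 2 := by
    calc (∑ y, u y ^ 2) ^ 2 = (∑ y, (A.mulVec u) y * v y) ^ 2 := by rw [h1]
      _ ≤ (∑ y, (A.mulVec u) y ^ 2) * ∑ y, v y ^ 2 := Finset.sum_mul_sq_le_sq_mul_sq _ _ _
      _ ≤ (∑ y, u y ^ 2) * ∑ y, v y ^ 2 :=
          mul_le_mul_of_nonneg_right (hA u) (Finset.sum_nonneg fun _ _ => sq_nonneg _)
  have h3 : 0 ≤ ∑ y, u y ^ 2 := Finset.sum_nonneg fun _ _ => sq_nonneg _
  have h4 : 0 ≤ ∑ y, v y ^ 2 := Finset.sum_nonneg fun _ _ => sq_nonneg _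
  rcases h3.eq_or_lt with h5 | h5
  · rw [← h5]
    exact h4
  · rw [pow_two] at h2
    exact le_of_mul_le_mul_left h2 h5

theorem T2bCtr.diag [DecidableEq Y] {A : Matrix Y Y ℝ} (hA : T2bCtr A) (y : Y) :
    |A y y| ≤ 1 := by
  have h1 := hA (Pi.single y 1)
  have h2 : ∑ x, (Pi.single y 1 : Y → ℝ) x ^ 2 = 1 := by
    rw [Finset.sum_eq_single y]
    · simp
    · intro x _ hx
      simp [hx]
    · intro h
      exact absurd (Finset.mem_univ y) h
  rw [h2] at h1
  have h3 : (A.mulVec (Pi.single y 1)) y = A y y := by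
    rw [Matrix.mulVec_single_one]
    rfl
  have h4 : (A.mulVec (Pi.single y 1)) y ^ 2 ≤ ∑ x, (A.mulVec (Pi.single y 1)) x ^ 2 :=
    Finset.single_le_sum (f := fun x => (A.mulVec (Pi.single y 1)) x ^ 2)
      (fun _ _ => sq_nonneg _) (Finset.mem_univ y)
  rw [h3] at h4
  exact (sq_le_one_iff_abs_le_one _).mp (h4.trans h1)

theorem T2bCtr.trace [DecidableEq Y] {A : Matrix Y Y ℝ} (hA : T2bCtr A) :
    A.trace ≤ Fintype.card Y := by
  calc A.trace = ∑ y, A y y := rfl
    _ ≤ ∑ _y : Y, (1 : ℝ) := Finset.sum_le_sum fun y _ => (le_abs_self _).trans (hA.diag y)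
    _ = Fintype.card Y := by simp

theorem T2bCtr.listProd [DecidableEq Y] : ∀ (k : ℕ) (F : Fin k → Matrix Y Y ℝ),
    (∀ i, T2bCtr (F i)) → T2bCtr (List.ofFn F).prod
  | 0, F, _ => by
    rw [List.ofFn_zero, List.prod_nil]
    exact T2bCtr.one
  | k + 1, F, h => by
    rw [List.ofFn_succ, List.prod_cons]
    exact (h 0).mul (T2bCtr.listProd k (fun i => F i.succ) fun i => h i.succ)

end ctr

/-! ### the centred letters -/

section letters

variable {Y K : Type*} [Group K] [Fintype K] [MulAction K Y]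

omit [Fintype K] [MulAction K Y] in
theorem t2b_s_sq (s : K →* ℤˣ) (h : K) :
    (((s h : ℤˣ) : ℤ) : ℝ) * (((s h : ℤˣ) : ℤ) : ℝ) = 1 := by
  have : ((s h : ℤˣ) : ℤ) * ((s h : ℤˣ) : ℤ) = 1 := by
    rw [← Units.val_mul, Int.units_mul_self]
    rfl
  exact_mod_cast this

omit [Fintype K] [MulAction K Y] in
theorem t2b_s_mul (s : K →* ℤˣ) (h k : K) :
    (((s (h * k) : ℤˣ) : ℤ) : ℝ) = (((s h : ℤˣ) : ℤ) : ℝ) * (((s k : ℤˣ) : ℤ) : ℝ) := by
  rw [map_mul, Units.val_mul]
  push_cast
  rfl

omit [Fintype K] [MulAction K Y] in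
theorem t2b_s_inv (s : K →* ℤˣ) (h : K) :
    (((s h⁻¹ : ℤˣ) : ℤ) : ℝ) = (((s h : ℤˣ) : ℤ) : ℝ) := by
  rw [map_inv, Int.units_inv_eq_self]

theorem t2b_PA_smul (s : K →* ℤˣ) (φ : Y → ℝ) (h : K) (y : Y) :
    PA s φ (h • y) = (((s h : ℤˣ) : ℤ) : ℝ) * PA s φ y := by
  unfold PA
  rw [← av_mul_left, ← av_mulRight h (fun k : K => (((s h : ℤˣ) : ℤ) : ℝ) *
    ((((s k : ℤˣ) : ℤ) : ℝ) * φ (k • y)))]
  congr 1
  ext k
  rw [t2b_s_mul, mul_smul]
  calc (((s k : ℤˣ) : ℤ) : ℝ) * φ (k • h • y)
      = ((((s h : ℤˣ) : ℤ) : ℝ) * (((s h : ℤˣ) : ℤ) : ℝ)) *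
        ((((s k : ℤˣ) : ℤ) : ℝ) * φ (k • h • y)) := by rw [t2b_s_sq, one_mul]
    _ = _ := by ring

theorem t2b_PA_PA (s : K →* ℤˣ) (φ : Y → ℝ) (y : Y) : PA s (PA s φ) y = PA s φ y := by
  have h1 : PA s (PA s φ) y = av fun _ : K => PA s φ y := by
    conv_lhs => unfold PA
    congr 1
    ext k
    have := t2b_PA_smul s φ k y
    unfold PA at this ⊢
    rw [this, ← mul_assoc, t2b_s_sq, one_mul]
  rw [h1, av_const]

theorem t2b_PA_symm [Fintype Y] (s : K →* ℤˣ) (φ ψ : Y → ℝ) :
    ∑ y, φ y * PA s ψ y = ∑ y, PA s φ y * ψ y := by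
  have h1 : ∑ y, φ y * PA s ψ y
      = av fun k : K => ∑ y, φ y * ((((s k : ℤˣ) : ℤ) : ℝ) * ψ (k • y)) := by
    rw [av_sum]
    refine Finset.sum_congr rfl fun y _ => ?_
    unfold PA
    rw [av_mul_left]
  have h2 : ∑ y, PA s φ y * ψ y
      = av fun k : K => ∑ y, ((((s k : ℤˣ) : ℤ) : ℝ) * φ (k • y)) * ψ y := by
    rw [av_sum]
    refine Finset.sum_congr rfl fun y _ => ?_
    unfold PA
    rw [av_mul_right]
  rw [h1, h2, ← av_inv]
  congr 1
  ext k
  rw [← Equiv.sum_comp (MulAction.toPerm k : Perm Y)]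
  refine Finset.sum_congr rfl fun y _ => ?_
  rw [MulAction.toPerm_apply, inv_smul_smul, t2b_s_inv]
  ring

theorem t2b_norm_sub [Fintype Y] (s : K →* ℤˣ) (φ : Y → ℝ) :
    ∑ y, (φ y - PA s φ y) ^ 2 ≤ ∑ y, φ y ^ 2 := by
  have h1 : ∑ y, PA s φ y ^ 2 = ∑ y, φ y * PA s φ y := by
    have := t2b_PA_symm s φ (PA s φ)
    have e1 : ∑ y, φ y * PA s (PA s φ) y = ∑ y, φ y * PA s φ y :=
      Finset.sum_congr rfl fun y _ => by rw [t2b_PA_PA]
    rw [e1] at this
    rw [this]
    exact Finset.sum_congr rfl fun y _ => by rw [pow_two]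
  have h2 : ∑ y, (φ y - PA s φ y) ^ 2
      = ∑ y, φ y ^ 2 - 2 * ∑ y, φ y * PA s φ y + ∑ y, PA s φ y ^ 2 := by
    rw [Finset.mul_sum, ← Finset.sum_sub_distrib, ← Finset.sum_add_distrib]
    refine Finset.sum_congr rfl fun y _ => ?_
    ring
  have h3 : 0 ≤ ∑ y, PA s φ y ^ 2 := Finset.sum_nonneg fun _ _ => sq_nonneg _
  rw [h2]
  linarith

/-- one centred letter -/
noncomputable def t2bM [DecidableEq Y] (s : K →* ℤˣ) (c : Perm Y) (h : K) : Matrix Y Y ℝ :=
  fun y z => (((s h : ℤˣ) : ℤ) : ℝ) *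
    ((if h • c y = z then (1 : ℝ) else 0)
      - PA s (fun y1 => if y1 = z then (1 : ℝ) else 0) (h • c y))

variable [Fintype Y] [DecidableEq Y]

theorem t2bM_mulVec (s : K →* ℤˣ) (c : Perm Y) (h : K) (φ : Y → ℝ) (y : Y) :
    (t2bM s c h).mulVec φ y = (((s h : ℤˣ) : ℤ) : ℝ) * (φ (h • c y) - PA s φ (h • c y)) := by
  unfold Matrix.mulVec dotProduct t2bM
  simp_rw [mul_assoc]
  rw [← Finset.mul_sum]
  congr 1
  simp_rw [sub_mul]
  rw [Finset.sum_sub_distrib, t2_sum_PA]
  congr 1
  simp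

theorem t2bM_ctr (s : K →* ℤˣ) (c : Perm Y) (h : K) : T2bCtr (t2bM s c h) := by
  intro φ
  have h1 : ∀ y, (t2bM s c h).mulVec φ y ^ 2 = (φ (h • c y) - PA s φ (h • c y)) ^ 2 := by
    intro y
    rw [t2bM_mulVec, mul_pow, pow_two (((s h : ℤˣ) : ℤ) : ℝ), t2b_s_sq, one_mul]
  rw [Finset.sum_congr rfl fun y _ => h1 y]
  have h2 := Equiv.sum_comp (c.trans (MulAction.toPerm h : Perm Y))
    (fun y => (φ y - PA s φ y) ^ 2)
  simp only [Equiv.trans_apply, MulAction.toPerm_apply] at h2
  rw [h2]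
  exact t2b_norm_sub s φ

omit [Fintype Y] in
theorem t2bM_sum (s : K →* ℤˣ) (c : Perm Y) : ∑ h : K, t2bM s c h = 0 := by
  ext y z
  rw [Matrix.sum_apply, Matrix.zero_apply]
  unfold t2bM
  simp_rw [mul_sub, t2b_PA_smul, ← mul_assoc, t2b_s_sq, one_mul]
  rw [Finset.sum_sub_distrib, Finset.sum_const, Finset.card_univ, nsmul_eq_mul]
  have hK : (Fintype.card K : ℝ) ≠ 0 := by exact_mod_cast Fintype.card_ne_zero
  have h1 : PA s (fun y1 => if y1 = z then (1 : ℝ) else 0) (c y)
      = (∑ k : K, (((s k : ℤˣ) : ℤ) : ℝ) * (if k • c y = z then (1 : ℝ) else 0))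
        / Fintype.card K := rfl
  rw [h1, mul_div_cancel₀ _ hK, sub_self]

end letters

/-! ### functions of `g` -/

section centred

variable {K R : Type*} [Group K] [Fintype K] [Ring R] {w : ℕ}

omit [Group K] [Fintype K] [Ring R] in
/-- independent of the coordinate `x` -/
def T2bInd (x : Fin w) (F : (Fin w → K) → R) : Prop :=
  ∀ g h, F (Function.update g x h) = F g

/-- mean zero in the coordinate `x` -/
def T2bCen (x : Fin w) (F : (Fin w → K) → R) : Prop :=
  ∀ g, ∑ h : K, F (Function.update g x h) = 0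

omit [Group K] in
theorem T2bCen.mul_right {x : Fin w} {F G : (Fin w → K) → R} (hF : T2bCen x F)
    (hG : T2bInd x G) : T2bCen x (fun g => F g * G g) := by
  intro g
  simp_rw [hG g]
  rw [← Finset.sum_mul, hF g, zero_mul]

omit [Group K] in
theorem T2bCen.mul_left {x : Fin w} {F G : (Fin w → K) → R} (hF : T2bInd x F)
    (hG : T2bCen x G) : T2bCen x (fun g => F g * G g) := by
  intro g
  simp_rw [hF g]
  rw [← Finset.mul_sum, hG g, mul_zero]

omit [Group K] [Fintype K] in
theorem T2bInd.mul {x : Fin w} {F G : (Fin w → K) → R} (hF : T2bInd x F)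
    (hG : T2bInd x G) : T2bInd x (fun g => F g * G g) := by
  intro g h
  simp only
  rw [hF g h, hG g h]

omit [Group K] [Fintype K] in
theorem T2bInd.listProd {x : Fin w} : ∀ (k : ℕ) (F : Fin k → (Fin w → K) → R),
    (∀ i, T2bInd x (F i)) → T2bInd x (fun g => (List.ofFn fun i => F i g).prod)
  | 0, F, _ => by
    intro g h
    simp
  | k + 1, F, hF => by
    have h1 := (hF 0).mul (T2bInd.listProd k (fun i => F i.succ) fun i => hF i.succ)
    intro g h
    have h2 := h1 g h
    simp only at h2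
    simp only [List.ofFn_succ, List.prod_cons]
    exact h2

omit [Group K] in
theorem T2bCen.listProd {x : Fin w} : ∀ (k : ℕ) (F : Fin k → (Fin w → K) → R) (i0 : Fin k),
    T2bCen x (F i0) → (∀ i, i ≠ i0 → T2bInd x (F i)) →
    T2bCen x (fun g => (List.ofFn fun i => F i g).prod)
  | 0, _, i0, _, _ => i0.elim0
  | k + 1, F, i0, hc, hi => by
    have key : T2bCen x (fun g => F 0 g * (List.ofFn fun i : Fin k => F i.succ g).prod) := by
      rcases Fin.eq_zero_or_eq_succ i0 with h | ⟨j, h⟩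
      · subst h
        exact hc.mul_right (T2bInd.listProd k (fun i => F i.succ) fun i => hi _ (Fin.succ_ne_zero i))
      · subst h
        refine T2bCen.mul_left (hi 0 (Fin.succ_ne_zero j).symm) ?_
        exact T2bCen.listProd k (fun i => F i.succ) j hc
          (fun i hij => hi _ fun h => hij (Fin.succ_injective _ h))
    intro g
    have h2 := key g
    simp only at h2
    simp only [List.ofFn_succ, List.prod_cons]
    exact h2

theorem T2bCen.sum_zero {x : Fin w} {F : (Fin w → K) → R} (hF : T2bCen x F)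
    (hR : ∀ a : R, (Fintype.card K : ℕ) • a = 0 → a = 0) : ∑ g, F g = 0 := by
  apply hR
  have h1 : ∀ h : K, ∑ g : Fin w → K, F (Function.update g x (h * g x)) = ∑ g, F g := by
    intro h
    rw [← Equiv.sum_comp (Equiv.mulLeft (Pi.mulSingle x h : Fin w → K)) F]
    refine Finset.sum_congr rfl fun g _ => ?_
    congr 1
    ext j
    by_cases hj : j = x
    · subst hj
      simp
    · simp [hj]
  have h2 : (Fintype.card K : ℕ) • ∑ g, F g
      = ∑ h : K, ∑ g : Fin w → K, F (Function.update g x (h * g x)) := by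
    rw [Finset.sum_congr rfl fun h _ => h1 h, Finset.sum_const, Finset.card_univ]
  rw [h2, Finset.sum_comm]
  refine Finset.sum_eq_zero fun g _ => ?_
  have h3 := Equiv.sum_comp (Equiv.mulRight (g x)) (fun h : K => F (Function.update g x h))
  simp only [Equiv.coe_mulRight] at h3
  rw [h3]
  exact hF g

end centred

/-- expansion of a power of a sum -/
theorem t2b_pow {R ι : Type*} [Ring R] [Fintype ι] (N : ι → R) : ∀ k : ℕ,
    (∑ p, N p) ^ k = ∑ v : Fin k → ι, (List.ofFn fun i => N (v i)).prod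
  | 0 => by simp
  | k + 1 => by
    rw [pow_succ', t2b_pow N k, Finset.sum_mul_sum,
      ← (Fin.consEquiv (fun _ : Fin (k + 1) => ι)).sum_comp, Fintype.sum_prod_type]
    refine Finset.sum_congr rfl fun p _ => Finset.sum_congr rfl fun v _ => ?_
    rw [List.ofFn_succ, List.prod_cons]
    rfl

section main

variable {Y K : Type*} [Fintype Y] [DecidableEq Y] [Group K] [Fintype K] [MulAction K Y]

omit [Fintype Y] in
theorem t2b_TT_eq {w : ℕ} (s : K →* ℤˣ) (C : Fin w → Perm Y) (g : Fin w → K) :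
    TT s C g = (w : ℝ)⁻¹ • ∑ i, t2bM s (C i) (g i) := by
  ext y z
  rw [Matrix.smul_apply, Matrix.sum_apply]
  unfold TT av t2bM
  rw [Fintype.card_fin, smul_eq_mul, div_eq_inv_mul]

/-- one factor -/
noncomputable def t2bN {w : ℕ} (s : K →* ℤˣ) (C : Fin w → Perm Y) (p : Bool → Fin w)
    (g : Fin w → K) : Matrix Y Y ℝ :=
  (t2bM s (C (p false)) (g (p false))).transpose * t2bM s (C (p true)) (g (p true))

theorem t2b_sq {w : ℕ} (s : K →* ℤˣ) (C : Fin w → Perm Y) (g : Fin w → K) :
    (TT s C g).transpose * TT s C g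
      = ((w : ℝ)⁻¹ * (w : ℝ)⁻¹) • ∑ p : Bool → Fin w, t2bN s C p g := by
  rw [t2b_TT_eq, Matrix.transpose_smul, Matrix.smul_mul, Matrix.mul_smul, smul_smul,
    Matrix.transpose_sum, Finset.sum_mul_sum]
  congr 1
  rw [← (Equiv.boolArrowEquivProd (Fin w)).symm.sum_comp, Fintype.sum_prod_type]
  rfl

theorem t2b_word_le {w k : ℕ} (s : K →* ℤˣ) (C : Fin w → Perm Y)
    (v : Fin k → Bool → Fin w) :
    av (fun g : Fin w → K => (List.ofFn fun i => t2bN s C (v i) g).prod.trace)
      ≤ if ∀ x, (univ.filter fun a : Fin k × Bool => v a.1 a.2 = x).card ≠ 1 then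
        (Fintype.card Y : ℝ) else 0 := by
  split_ifs with h
  · apply av_le_const
    intro g
    apply T2bCtr.trace
    apply T2bCtr.listProd
    intro i
    exact (t2bM_ctr _ _ _).transpose.mul (t2bM_ctr _ _ _)
  · push Not at h
    obtain ⟨x, hx⟩ := h
    obtain ⟨⟨i0, b0⟩, hu⟩ := Finset.card_eq_one.1 hx
    have hmem : v i0 b0 = x := by
      have : (i0, b0) ∈ (univ.filter fun a : Fin k × Bool => v a.1 a.2 = x) := by
        rw [hu]; exact Finset.mem_singleton_self _
      simpa using this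
    have huniq : ∀ i b, v i b = x → i = i0 ∧ b = b0 := by
      intro i b hib
      have : (i, b) ∈ (univ.filter fun a : Fin k × Bool => v a.1 a.2 = x) := by
        simpa using hib
      rw [hu, Finset.mem_singleton] at this
      exact ⟨congrArg Prod.fst this, congrArg Prod.snd this⟩
    -- the letters
    have hind : ∀ i b, v i b ≠ x →
        T2bInd x (fun g : Fin w → K => t2bM s (C (v i b)) (g (v i b))) := by
      intro i b hib g h
      simp only
      rw [Function.update_of_ne hib]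
    have hcen : ∀ i b, v i b = x →
        T2bCen x (fun g : Fin w → K => t2bM s (C (v i b)) (g (v i b))) := by
      intro i b hib g
      simp only [hib, Function.update_self]
      exact t2bM_sum s (C x)
    have hindT : ∀ i b, v i b ≠ x →
        T2bInd x (fun g : Fin w → K => (t2bM s (C (v i b)) (g (v i b))).transpose) := by
      intro i b hib g h
      simp only
      rw [Function.update_of_ne hib]
    have hcenT : ∀ i b, v i b = x →
        T2bCen x (fun g : Fin w → K => (t2bM s (C (v i b)) (g (v i b))).transpose) := by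
      intro i b hib g
      have h1 := hcen i b hib g
      rw [← Matrix.transpose_sum, h1, Matrix.transpose_zero]
    have hN1 : T2bCen x (fun g : Fin w → K => t2bN s C (v i0) g) := by
      unfold t2bN
      cases b0
      · refine (hcenT i0 false hmem).mul_right (hind i0 true fun hh => ?_)
        have := (huniq i0 true hh).2
        exact Bool.noConfusion this
      · refine T2bCen.mul_left (hindT i0 false fun hh => ?_) (hcen i0 true hmem)
        have := (huniq i0 false hh).2
        exact Bool.noConfusion this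
    have hN2 : ∀ i, i ≠ i0 → T2bInd x (fun g : Fin w → K => t2bN s C (v i) g) := by
      intro i hi
      unfold t2bN
      exact (hindT i false fun hh => hi (huniq i false hh).1).mul
        (hind i true fun hh => hi (huniq i true hh).1)
    have hall := T2bCen.listProd k (fun i g => t2bN s C (v i) g) i0 hN1 hN2
    have hsum := hall.sum_zero (fun a ha => by
      have hK : (Fintype.card K : ℝ) ≠ 0 := by exact_mod_cast Fintype.card_ne_zero
      ext y z
      have h1 := congrFun (congrFun ha y) z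
      rw [Matrix.smul_apply, Matrix.zero_apply, nsmul_eq_mul] at h1
      rw [Matrix.zero_apply]
      exact (mul_eq_zero.mp h1).resolve_left hK)
    unfold av
    rw [← Matrix.trace_sum, hsum, Matrix.trace_zero, zero_div]

end main

theorem trace_TT {Y K : Type} [Fintype Y] [DecidableEq Y] [Group K] [Fintype K] [MulAction K Y]
    {w : ℕ} (k : ℕ) (hk : 1 ≤ k) (hkw : k ≤ w)
    (C : Fin w → Perm Y) (_hC : ∀ i (h : K) y, C i (h • y) = h • C i y) (s : K →* ℤˣ) :
    av (fun g : Fin w → K => (((TT s C g).transpose * TT s C g) ^ k).trace)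
      ≤ 2 * (Fintype.card Y : ℝ) * (4 * k / w) ^ k := by
  have hw : (0 : ℝ) < w := by
    have : 0 < w := by omega
    exact_mod_cast this
  have h1 : ∀ g : Fin w → K, (((TT s C g).transpose * TT s C g) ^ k).trace
      = ((w : ℝ)⁻¹ * (w : ℝ)⁻¹) ^ k * ∑ v : Fin k → Bool → Fin w,
        (List.ofFn fun i => t2bN s C (v i) g).prod.trace := by
    intro g
    rw [t2b_sq, smul_pow, t2b_pow, Matrix.trace_smul, Matrix.trace_sum, smul_eq_mul]
  have h2 : av (fun g : Fin w → K => (((TT s C g).transpose * TT s C g) ^ k).trace)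
      = ((w : ℝ)⁻¹ * (w : ℝ)⁻¹) ^ k * ∑ v : Fin k → Bool → Fin w,
        av (fun g : Fin w → K => (List.ofFn fun i => t2bN s C (v i) g).prod.trace) := by
    have e1 : (fun g : Fin w → K => (((TT s C g).transpose * TT s C g) ^ k).trace)
        = fun g => ((w : ℝ)⁻¹ * (w : ℝ)⁻¹) ^ k * ∑ v : Fin k → Bool → Fin w,
        (List.ofFn fun i => t2bN s C (v i) g).prod.trace := funext h1
    rw [e1, av_mul_left, av_sum]
  rw [h2]
  have h3 : ∑ v : Fin k → Bool → Fin w,
      av (fun g : Fin w → K => (List.ofFn fun i => t2bN s C (v i) g).prod.trace)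
      ≤ (4 ^ k * (k : ℝ) ^ k * (w : ℝ) ^ k) * Fintype.card Y := by
    calc _ ≤ ∑ v : Fin k → Bool → Fin w,
          (if ∀ x, (univ.filter fun a : Fin k × Bool => v a.1 a.2 = x).card ≠ 1 then
            (Fintype.card Y : ℝ) else 0) := Finset.sum_le_sum fun v _ => t2b_word_le s C v
      _ = (((univ : Finset (Fin k → Bool → Fin w)).filter
            fun v => ∀ x, (univ.filter fun a : Fin k × Bool => v a.1 a.2 = x).card ≠ 1).card : ℝ)
            * Fintype.card Y := by
          rw [← Finset.sum_filter, Finset.sum_const, nsmul_eq_mul]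
      _ ≤ (4 ^ k * (k : ℝ) ^ k * (w : ℝ) ^ k) * Fintype.card Y := by
          apply mul_le_mul_of_nonneg_right _ (Nat.cast_nonneg _)
          refine le_trans ?_ (count_nosing k w hk hkw)
          have hcard : Fintype.card (Fin (2 * k)) = Fintype.card (Fin k × Bool) := by
            rw [Fintype.card_prod, Fintype.card_fin, Fintype.card_fin, Fintype.card_bool, mul_comm]
          have e : Fin (2 * k) ≃ Fin k × Bool := Fintype.equivOfCardEq hcard
          have hle : ((univ : Finset (Fin k → Bool → Fin w)).filter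
            fun v => ∀ x, (univ.filter fun a : Fin k × Bool => v a.1 a.2 = x).card ≠ 1).card
              ≤ ((univ : Finset (Fin (2 * k) → Fin w)).filter
                fun f => ∀ x, (univ.filter fun a => f a = x).card ≠ 1).card := by
            apply Finset.card_le_card_of_injOn (fun v => fun a => v (e a).1 (e a).2)
            · intro v hv
              rw [Finset.mem_coe, Finset.mem_filter] at hv ⊢
              refine ⟨Finset.mem_univ _, fun x => ?_⟩
              have h4 : (univ.filter fun a => v (e a).1 (e a).2 = x).card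
                  = (univ.filter fun a : Fin k × Bool => v a.1 a.2 = x).card := by
                apply Finset.card_bij (fun a _ => e a)
                · intro a ha
                  simpa using ha
                · intro a _ b _ hab
                  exact e.injective hab
                · intro b hb
                  refine ⟨e.symm b, by simpa using hb, by simp⟩
              rw [h4]
              exact hv.2 x
            · intro v _ v' _ hvv
              ext i b
              have := congrFun hvv (e.symm (i, b))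
              simp only [Equiv.apply_symm_apply] at this
              rw [this]
          exact_mod_cast hle
  have h5 : ((w : ℝ)⁻¹ * (w : ℝ)⁻¹) ^ k * ((4 ^ k * (k : ℝ) ^ k * (w : ℝ) ^ k) * Fintype.card Y)
      = (Fintype.card Y : ℝ) * (4 * k / w) ^ k := by
    rw [div_pow, mul_pow, mul_pow, inv_pow]
    have : (w : ℝ) ^ k ≠ 0 := by positivity
    field_simp
  have h6 : (0 : ℝ) ≤ (Fintype.card Y : ℝ) * (4 * k / w) ^ k := by positivity
  calc ((w : ℝ)⁻¹ * (w : ℝ)⁻¹) ^ k * ∑ v : Fin k → Bool → Fin w,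
        av (fun g : Fin w → K => (List.ofFn fun i => t2bN s C (v i) g).prod.trace)
      ≤ ((w : ℝ)⁻¹ * (w : ℝ)⁻¹) ^ k *
        ((4 ^ k * (k : ℝ) ^ k * (w : ℝ) ^ k) * Fintype.card Y) :=
        mul_le_mul_of_nonneg_left h3 (by positivity)
    _ = (Fintype.card Y : ℝ) * (4 * k / w) ^ k := h5
    _ ≤ 2 * (Fintype.card Y : ℝ) * (4 * k / w) ^ k := by linarith

end Pool.Agent.H9.Low
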