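import Pool.Agent.H9.Low.T2b

/-!
# Random letters give operators of small norm
-/

namespace Pool.Agent.H9.Low

open Equiv Finset Matrix

section T2c

variable {Y K : Type} [Fintype Y] [DecidableEq Y] [Group K] [Fintype K] [MulAction K Y]

omit [Fintype Y] [DecidableEq Y] [MulAction K Y] [Group K] in
theorem t2c_exists_le {X : Type*} [Fintype X] [Nonempty X] (f : X → ℝ) (c : ℝ) (h : av f ≤ c) :
    ∃ x, f x ≤ c := by
  by_contra hcon
  have hcon' : ∀ x, c < f x := fun x => not_le.1 fun hx => hcon ⟨x, hx⟩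
  have hc : (0 : ℝ) < Fintype.card X := by exact_mod_cast Fintype.card_pos
  have h1 : ∑ _x : X, c < ∑ x, f x :=
    Finset.sum_lt_sum_of_nonempty Finset.univ_nonempty fun x _ => hcon' x
  rw [Finset.sum_const, nsmul_eq_mul, Finset.card_univ] at h1
  unfold av at h
  rw [div_le_iff₀ hc] at h
  linarith

theorem t2c_norm {w : ℕ} (j : ℕ) (C : Fin w → Perm Y) (s : K →* ℤˣ) (g : Fin w → K) (c : ℝ)
    (hc : 0 ≤ c) (h : (((TT s C g).transpose * TT s C g) ^ (2 ^ j)).trace ≤ c ^ (2 ^ j))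
    (φ : Y → ℝ) :
    nsq (fun y => av fun i => (((s (g i) : ℤˣ) : ℤ) : ℝ) *
          (φ (g i • C i y) - PA s φ (g i • C i y))) ≤ c * nsq φ := by
  rw [← TT_mulVec s C g φ]
  have h1 := opn (TT s C g) j φ
  have h0 : (0 : ℝ) ≤ ∑ y, φ y ^ 2 := Finset.sum_nonneg fun _ _ => sq_nonneg _
  have h2 : (∑ y, ((TT s C g).mulVec φ) y ^ 2) ^ (2 ^ j) ≤ (c * ∑ y, φ y ^ 2) ^ (2 ^ j) := by
    rw [mul_pow]
    exact h1.trans (mul_le_mul_of_nonneg_right h (pow_nonneg h0 _))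
  have h3 : ∑ y, ((TT s C g).mulVec φ) y ^ 2 ≤ c * ∑ y, φ y ^ 2 :=
    le_of_pow_le_pow_left₀ (by positivity) (mul_nonneg hc h0) h2
  unfold nsq av
  rw [← mul_div_assoc]
  exact div_le_div_of_nonneg_right h3 (Nat.cast_nonneg _)

theorem randnorm
    (w j : ℕ) (hjw : 2 ^ j ≤ w) (hY : 4 * (Fintype.card Y : ℝ) ≤ Real.exp (2 ^ j))
    (C : Fin w → Perm Y) (hC : ∀ i (k : K) y, C i (k • y) = k • C i y) (s : K →* ℤˣ) :
    ∃ g : Fin w → K, ∀ φ : Y → ℝ,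
      nsq (fun y => av fun i => φ (g i • C i y) - PA (1 : K →* ℤˣ) φ (g i • C i y))
        ≤ 4 * Real.exp 1 * 2 ^ j / w * nsq φ ∧
      nsq (fun y => av fun i => (((s (g i) : ℤˣ) : ℤ) : ℝ) *
          (φ (g i • C i y) - PA s φ (g i • C i y)))
        ≤ 4 * Real.exp 1 * 2 ^ j / w * nsq φ := by
  have hk : 1 ≤ 2 ^ j := Nat.one_le_two_pow
  have b1 := trace_TT (2 ^ j) hk hjw C hC (1 : K →* ℤˣ)
  have b2 := trace_TT (2 ^ j) hk hjw C hC s
  have hsum : av (fun g : Fin w → K =>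
      (((TT (1 : K →* ℤˣ) C g).transpose * TT (1 : K →* ℤˣ) C g) ^ (2 ^ j)).trace +
      (((TT s C g).transpose * TT s C g) ^ (2 ^ j)).trace)
      ≤ (4 * Real.exp 1 * 2 ^ j / w) ^ (2 ^ j) := by
    rw [av_add]
    have h1 : 4 * (Fintype.card Y : ℝ) * (4 * ((2 ^ j : ℕ) : ℝ) / w) ^ (2 ^ j) ≤
        Real.exp (2 ^ j) * (4 * ((2 ^ j : ℕ) : ℝ) / w) ^ (2 ^ j) :=
      mul_le_mul_of_nonneg_right hY (by positivity)
    have h2 : Real.exp (2 ^ j) * (4 * ((2 ^ j : ℕ) : ℝ) / w) ^ (2 ^ j) =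
        (4 * Real.exp 1 * 2 ^ j / w) ^ (2 ^ j) := by
      have h3 : Real.exp (2 ^ j) = Real.exp 1 ^ (2 ^ j) := by
        rw [Real.exp_one_pow (2 ^ j)]
        push_cast
        rfl
      rw [h3, ← mul_pow]
      congr 1
      push_cast
      ring
    linarith
  obtain ⟨g, hg⟩ := t2c_exists_le _ _ hsum
  have c0 : (0 : ℝ) ≤ 4 * Real.exp 1 * 2 ^ j / w := by positivity
  have p1 := t2_trace_nonneg (TT (1 : K →* ℤˣ) C g) (2 ^ j)
  have p2 := t2_trace_nonneg (TT s C g) (2 ^ j)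
  refine ⟨g, fun φ => ⟨?_, ?_⟩⟩
  · have := t2c_norm j C (1 : K →* ℤˣ) g _ c0 (by linarith) φ
    simpa using this
  · exact t2c_norm j C s g _ c0 (by linarith) φ

end T2c

end Pool.Agent.H9.Low
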