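import Pool.Agent.H9.Low.Basic

/-!
# Bounding a symmetric operator on an invariant subspace by its eigenvalues
-/

namespace Pool.Agent.H9.Low

open Finset

theorem tev {Y : Type*} [Fintype Y] (M : (Y → ℝ) →ₗ[ℝ] (Y → ℝ))
    (hsym : ∀ f g : Y → ℝ, ∑ y, M f y * g y = ∑ y, f y * M g y) (U : Submodule ℝ (Y → ℝ))
    (hU : ∀ f ∈ U, M f ∈ U) (c : ℝ)
    (h : ∀ f ∈ U, f ≠ 0 → ∀ l : ℝ, M f = l • f → l ≤ c) :
    ∀ f ∈ U, ∑ y, f y * M f y ≤ c * ∑ y, f y ^ 2 := by
  classical
  -- transport to EuclideanSpace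
  let E := EuclideanSpace ℝ Y
  let Φ : E ≃ₗ[ℝ] (Y → ℝ) := (WithLp.linearEquiv 2 ℝ (Y → ℝ))
  have hin : ∀ x y : E, inner ℝ x y = ∑ i, Φ x i * Φ y i := by
    intro x y
    rw [PiLp.inner_apply]
    refine Finset.sum_congr rfl fun i _ => ?_
    simp only [RCLike.inner_apply, conj_trivial]
    exact mul_comm _ _
  let U' : Submodule ℝ E := U.comap (Φ : E →ₗ[ℝ] (Y → ℝ))
  have hMem : ∀ x : E, x ∈ U' ↔ Φ x ∈ U := fun x => Iff.rfl
  let T : E →ₗ[ℝ] E := (Φ.symm : (Y → ℝ) →ₗ[ℝ] E) ∘ₗ M ∘ₗ (Φ : E →ₗ[ℝ] (Y → ℝ))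
  have hT : ∀ x, Φ (T x) = M (Φ x) := fun x => by simp [T]
  have hTU : ∀ x ∈ U', T x ∈ U' := by
    intro x hx
    rw [hMem, hT]
    exact hU _ hx
  have hTsym : T.IsSymmetric := by
    intro x y
    rw [hin, hin, hT, hT]
    exact hsym _ _
  let T' : U' →ₗ[ℝ] U' := T.restrict hTU
  have hT'sym : T'.IsSymmetric := hTsym.restrict_invariant hTU
  -- orthonormal eigenbasis of U'
  let n := Module.finrank ℝ U'
  let b := hT'sym.eigenvectorBasis (rfl : Module.finrank ℝ U' = n)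
  let ev := hT'sym.eigenvalues (rfl : Module.finrank ℝ U' = n)
  have hev : ∀ i, T' (b i) = (ev i : ℝ) • b i := fun i => hT'sym.apply_eigenvectorBasis rfl i
  have hle : ∀ i, ev i ≤ c := by
    intro i
    have hne : b i ≠ 0 := b.orthonormal.ne_zero i
    refine h (Φ (b i : E)) (b i).2 ?_ (ev i) ?_
    · intro h0
      apply hne
      have : ((b i : U') : E) = 0 := by
        have := congrArg Φ.symm h0
        simpa using this
      exact Subtype.ext this
    · have h1 : ((T' (b i) : U') : E) = (ev i) • ((b i : U') : E) := by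
        rw [hev i]; rfl
      have h2 : ((T' (b i) : U') : E) = T (b i : E) := rfl
      rw [h2] at h1
      have h3 := congrArg Φ h1
      rw [hT, map_smul] at h3
      exact h3
  intro f hf
  let x : U' := ⟨Φ.symm f, by rw [hMem]; simpa using hf⟩
  have hx : Φ (x : E) = f := by simp [x]
  have e1 : ∑ y, f y * M f y = inner ℝ x (T' x) := by
    have : (inner ℝ x (T' x) : ℝ) = inner ℝ (x : E) (T (x : E)) := rfl
    rw [this, hin, hT, hx]
  have e2 : ∑ y, f y ^ 2 = inner ℝ x x := by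
    have : (inner ℝ x x : ℝ) = inner ℝ (x : E) (x : E) := rfl
    rw [this, hin, hx]
    exact Finset.sum_congr rfl fun i _ => pow_two _
  rw [e1, e2]
  have e3 : inner ℝ x (T' x) = ∑ i, ev i * (inner ℝ (b i) x) ^ 2 := by
    rw [← b.sum_inner_mul_inner x (T' x)]
    refine Finset.sum_congr rfl fun i _ => ?_
    have h1 : inner ℝ (b i) (T' x) = ev i * inner ℝ (b i) x := by
      rw [← hT'sym (b i) x, hev i]
      exact inner_smul_left (𝕜 := ℝ) (b i) x (ev i)
    rw [h1, real_inner_comm (b i) x]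
    ring
  have e4 : inner ℝ x x = ∑ i, (inner ℝ (b i) x) ^ 2 := by
    rw [← b.sum_inner_mul_inner x x]
    refine Finset.sum_congr rfl fun i _ => ?_
    rw [real_inner_comm (b i) x]
    ring
  rw [e3, e4, Finset.mul_sum]
  exact Finset.sum_le_sum fun i _ => mul_le_mul_of_nonneg_right (hle i) (sq_nonneg _)

end Pool.Agent.H9.Low
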