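import Pool.Agent.H9.Low.Basic

/-!
# Two disjoint random transpositions
-/

namespace Pool.Agent.H9.Low

open Equiv Finset

section D2
variable {X : Type} [Fintype X] [DecidableEq X]

theorem t5_ipr_sum_left {Y ι : Type*} [Fintype Y] (s : Finset ι) (F : ι → Y → ℝ) (G : Y → ℝ) :
    ipr (fun y => ∑ i ∈ s, F i y) G = ∑ i ∈ s, ipr (F i) G := by
  unfold ipr
  rw [← av_sum]
  congr 1; ext y; rw [Finset.sum_mul]

theorem t5_ipr_sum_right {Y ι : Type*} [Fintype Y] (s : Finset ι) (F : ι → Y → ℝ) (G : Y → ℝ) :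
    ipr G (fun y => ∑ i ∈ s, F i y) = ∑ i ∈ s, ipr G (F i) := by
  rw [ipr_comm, t5_ipr_sum_left]
  exact Finset.sum_congr rfl fun i _ => ipr_comm _ _

theorem t5_Q_comm (x y : X) (h : Perm X → ℝ) : Qsw x y h = Qsw y x h := by
  ext σ; simp only [Qsw, Equiv.swap_comm x y]

theorem t5_Q_self (x : X) (h : Perm X → ℝ) : Qsw x x h = fun _ => 0 := by
  ext σ
  unfold Qsw
  rw [Equiv.swap_self]
  change (h σ - h (σ * 1)) / 2 = 0
  rw [mul_one]; ring

theorem t5_Q_nsq (x y : X) (h : Perm X → ℝ) :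
    ipr (Qsw x y h) (Qsw x y h) = ipr h (Qsw x y h) := by
  have h1 : ipr (fun σ => h (σ * swap x y)) (Qsw x y h) = - ipr h (Qsw x y h) := by
    have e1 := ipr_R (swap x y) h (fun σ => - Qsw x y h σ)
    have e2 : R (swap x y) h = fun σ => h (σ * swap x y) := by
      ext σ; simp [R, Equiv.swap_inv]
    have e3 : R (swap x y) (fun σ => - Qsw x y h σ) = Qsw x y h := by
      ext σ
      simp only [R, Equiv.swap_inv, Qsw, mul_assoc, Equiv.swap_mul_self, mul_one]
      ring
    rw [e2, e3] at e1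
    rw [e1]
    have e4 : (fun σ => - Qsw x y h σ) = fun σ => (-1) * Qsw x y h σ := by ext σ; ring
    rw [e4, ipr_smul_right]; ring
  have h2 : ipr (Qsw x y h) (Qsw x y h)
      = ipr (fun σ => (1 / 2) * h σ - (1 / 2) * h (σ * swap x y)) (Qsw x y h) := by
    congr 1; ext σ; simp only [Qsw]; ring
  rw [h2, ipr_sub_left, ipr_smul_left, ipr_smul_left, h1]; ring

/-- sums over injective 4-tuples -/
theorem t5_sum_emb (G : X → X → X → X → ℝ) :
    ∑ e : Fin 4 ↪ X, G (e 0) (e 1) (e 2) (e 3)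
      = ∑ a, ∑ b, ∑ c, ∑ d,
        if a ≠ b ∧ a ≠ c ∧ a ≠ d ∧ b ≠ c ∧ b ≠ d ∧ c ≠ d then G a b c d else 0 := by
  have h1 : ∑ a, ∑ b, ∑ c, ∑ d,
        (if a ≠ b ∧ a ≠ c ∧ a ≠ d ∧ b ≠ c ∧ b ≠ d ∧ c ≠ d then G a b c d else 0)
      = ∑ p : X × X × X × X,
        if p.1 ≠ p.2.1 ∧ p.1 ≠ p.2.2.1 ∧ p.1 ≠ p.2.2.2 ∧ p.2.1 ≠ p.2.2.1 ∧ p.2.1 ≠ p.2.2.2 ∧
          p.2.2.1 ≠ p.2.2.2 then G p.1 p.2.1 p.2.2.1 p.2.2.2 else 0 := by
    simp only [Fintype.sum_prod_type]
  rw [h1, ← Finset.sum_filter]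
  refine Finset.sum_bij (fun e _ => (e 0, e 1, e 2, e 3)) ?_ ?_ ?_ ?_
  · intro e _
    rw [Finset.mem_filter]
    refine ⟨Finset.mem_univ _, ?_⟩
    simp only [ne_eq, EmbeddingLike.apply_eq_iff_eq]
    decide
  · intro e _ e' _ hee
    simp only [Prod.mk.injEq] at hee
    obtain ⟨h0, h2, h3, h4⟩ := hee
    ext i
    fin_cases i
    · exact h0
    · exact h2
    · exact h3
    · exact h4
  · rintro ⟨a, b, c, d⟩ hp
    rw [Finset.mem_filter] at hp
    obtain ⟨_, hab, hac, had, hbc, hbd, hcd⟩ := hp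
    simp only at hab hac had hbc hbd hcd
    refine ⟨⟨![a, b, c, d], ?_⟩, Finset.mem_univ _, ?_⟩
    · intro i j hij
      fin_cases i <;> fin_cases j <;> simp_all
    · simp
  · intro e _; rfl

/-- the identity of inclusion and exclusion -/
theorem t5_incl (G : X → X → X → X → ℝ) (h1 : ∀ a c d, G a a c d = 0)
    (h2 : ∀ a b c, G a b c c = 0) (h3 : ∀ a b c d, G a b c d = G b a c d)
    (h4 : ∀ a b c d, G a b c d = G a b d c) :
    ∑ e : Fin 4 ↪ X, G (e 0) (e 1) (e 2) (e 3)
      = ∑ a, ∑ b, ∑ c, ∑ d, G a b c d - 4 * ∑ y, ∑ x, ∑ x', G x y x' y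
        + 2 * ∑ x, ∑ y, G x y x y := by
  have key : ∀ a b c d : X,
      (if a ≠ b ∧ a ≠ c ∧ a ≠ d ∧ b ≠ c ∧ b ≠ d ∧ c ≠ d then G a b c d else 0)
      = G a b c d - (if c = a then G a b c d else 0) - (if d = a then G a b c d else 0)
        - (if c = b then G a b c d else 0) - (if d = b then G a b c d else 0)
        + (if c = a then (if d = b then G a b c d else 0) else 0)
        + (if d = a then (if c = b then G a b c d else 0) else 0) := by
    intro a b c d
    by_cases hab : a = b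
    · subst hab; simp [h1]
    by_cases hcd : c = d
    · subst hcd; simp [h2]
    by_cases hca : c = a
    · subst hca
      by_cases hdb : d = b
      · subst hdb
        simp [hcd, Ne.symm hcd]
      · have hdc : ¬ d = c := fun h => hcd h.symm
        simp [hcd, hab, hdb, hdc]
    by_cases hda : d = a
    · subst hda
      by_cases hcb : c = b
      · subst hcb
        simp [hcd, Ne.symm hcd]
      · have hdc : ¬ d = c := fun h => hcd h.symm
        simp [hcd, hab, hcb, hdc]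
    by_cases hcb : c = b
    · subst hcb
      have hdc : ¬ d = c := fun h => hcd h.symm
      simp [hcd, hab, hca, hda, hdc]
    by_cases hdb : d = b
    · subst hdb
      simp [hcd, hab, hca, hda, hcb]
    · have e1 : a ≠ c := fun h => hca h.symm
      have e2 : a ≠ d := fun h => hda h.symm
      have e3 : b ≠ c := fun h => hcb h.symm
      have e4 : b ≠ d := fun h => hdb h.symm
      simp [hcd, hab, hca, hda, hcb, hdb, e1, e2, e3, e4]
  rw [t5_sum_emb]
  simp only [key, Finset.sum_add_distrib, Finset.sum_sub_distrib]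
  have s1 : ∑ a, ∑ b, ∑ c, ∑ d, (if c = a then G a b c d else 0)
      = ∑ y, ∑ x, ∑ x', G x y x' y := by
    have : ∀ a b : X, ∑ c, ∑ d, (if c = a then G a b c d else 0) = ∑ d, G a b a d := by
      intro a b
      rw [Finset.sum_comm]
      refine Finset.sum_congr rfl fun d _ => ?_
      rw [Finset.sum_ite_eq' Finset.univ a]; simp
    simp only [this]
    refine Finset.sum_congr rfl fun a _ => Finset.sum_congr rfl fun b _ =>
      Finset.sum_congr rfl fun d _ => ?_
    rw [h3, h4]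
  have s2 : ∑ a, ∑ b, ∑ c, ∑ d, (if d = a then G a b c d else 0)
      = ∑ y, ∑ x, ∑ x', G x y x' y := by
    have : ∀ a b c : X, ∑ d, (if d = a then G a b c d else 0) = G a b c a := by
      intro a b c
      rw [Finset.sum_ite_eq' Finset.univ a]; simp
    simp only [this]
    refine Finset.sum_congr rfl fun a _ => Finset.sum_congr rfl fun b _ =>
      Finset.sum_congr rfl fun d _ => ?_
    rw [h3]
  have s3 : ∑ a, ∑ b, ∑ c, ∑ d, (if c = b then G a b c d else 0)
      = ∑ y, ∑ x, ∑ x', G x y x' y := by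
    have : ∀ a b : X, ∑ c, ∑ d, (if c = b then G a b c d else 0) = ∑ d, G a b b d := by
      intro a b
      rw [Finset.sum_comm]
      refine Finset.sum_congr rfl fun d _ => ?_
      rw [Finset.sum_ite_eq' Finset.univ b]; simp
    simp only [this]
    rw [Finset.sum_comm]
    refine Finset.sum_congr rfl fun a _ => Finset.sum_congr rfl fun b _ =>
      Finset.sum_congr rfl fun d _ => ?_
    rw [h4]
  have s4 : ∑ a, ∑ b, ∑ c, ∑ d, (if d = b then G a b c d else 0)
      = ∑ y, ∑ x, ∑ x', G x y x' y := by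
    have : ∀ a b c : X, ∑ d, (if d = b then G a b c d else 0) = G a b c b := by
      intro a b c
      rw [Finset.sum_ite_eq' Finset.univ b]; simp
    simp only [this]
    rw [Finset.sum_comm]
  have s5 : ∑ a, ∑ b, ∑ c, ∑ d, (if c = a then (if d = b then G a b c d else 0) else 0)
      = ∑ x, ∑ y, G x y x y := by
    refine Finset.sum_congr rfl fun a _ => Finset.sum_congr rfl fun b _ => ?_
    rw [Finset.sum_comm]
    have : ∀ d : X, ∑ c, (if c = a then (if d = b then G a b c d else 0) else 0)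
        = if d = b then G a b a d else 0 := by
      intro d
      rw [Finset.sum_ite_eq' Finset.univ a]; simp
    simp only [this]
    rw [Finset.sum_ite_eq' Finset.univ b]; simp
  have s6 : ∑ a, ∑ b, ∑ c, ∑ d, (if d = a then (if c = b then G a b c d else 0) else 0)
      = ∑ x, ∑ y, G x y x y := by
    refine Finset.sum_congr rfl fun a _ => Finset.sum_congr rfl fun b _ => ?_
    have : ∀ c : X, ∑ d, (if d = a then (if c = b then G a b c d else 0) else 0)
        = if c = b then G a b c a else 0 := by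
      intro d
      rw [Finset.sum_ite_eq' Finset.univ a]; simp
    simp only [this]
    rw [Finset.sum_ite_eq' Finset.univ b]
    simp only [Finset.mem_univ, if_true]
    rw [h4]
  rw [s1, s2, s3, s4, s5, s6]; ring

theorem D2_bound (hN : 20 ≤ Fintype.card X)
    (h : Perm X → ℝ) :
    av (fun e : Fin 4 ↪ X => ipr (Qsw (e 0) (e 1) h) (Qsw (e 2) (e 3) h))
      ≤ (1 + 6 / (Fintype.card X : ℝ)) * nsq (Dlt h)
        + 4 / (Fintype.card X : ℝ) ^ 2 * ipr h (Dlt h) := by
  have h1 := t5_incl (fun a b c d : X => ipr (Qsw a b h) (Qsw c d h))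
    (fun a c d => by simp only [t5_Q_self]; simp [ipr, av])
    (fun a b c => by simp only [t5_Q_self]; simp [ipr, av])
    (fun a b c d => by rw [t5_Q_comm a b])
    (fun a b c d => by rw [t5_Q_comm c d])
  set N : ℝ := (Fintype.card X : ℝ) with hNd
  have hN20 : (20 : ℝ) ≤ N := by rw [hNd]; exact_mod_cast hN
  have hN1 : (0 : ℝ) < N * (N - 1) := mul_pos (by linarith) (by linarith)
  -- the sum of all terms
  have h2 : ∑ a : X, ∑ b : X, ∑ c : X, ∑ d : X, ipr (Qsw a b h) (Qsw c d h)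
      = (N * (N - 1)) ^ 2 * nsq (Dlt h) := by
    have e1 : (N * (N - 1)) ^ 2 * nsq (Dlt h) = nsq (fun σ => ∑ x, ∑ y, Qsw x y h σ) := by
      rw [← nsq_smul]
      congr 1; ext σ
      unfold Dlt
      rw [← hNd, mul_div_cancel₀ _ hN1.ne']
    rw [e1, nsq_eq_ipr, t5_ipr_sum_left]
    refine Finset.sum_congr rfl fun a _ => ?_
    rw [t5_ipr_sum_left]
    refine Finset.sum_congr rfl fun b _ => ?_
    rw [t5_ipr_sum_right]
    refine Finset.sum_congr rfl fun c _ => ?_
    rw [t5_ipr_sum_right]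
  have h3 : ∀ y : X, 0 ≤ ∑ x : X, ∑ x' : X, ipr (Qsw x y h) (Qsw x' y h) := by
    intro y
    have e1 : ∑ x : X, ∑ x' : X, ipr (Qsw x y h) (Qsw x' y h)
        = nsq (fun σ => ∑ x, Qsw x y h σ) := by
      rw [nsq_eq_ipr, t5_ipr_sum_left]
      refine Finset.sum_congr rfl fun a _ => ?_
      rw [t5_ipr_sum_right]
    rw [e1]; exact nsq_nonneg _
  have h4 : ∑ x : X, ∑ y : X, ipr (Qsw x y h) (Qsw x y h) = N * (N - 1) * ipr h (Dlt h) := by
    rw [← ipr_smul_right]
    have e1 : (fun σ => N * (N - 1) * Dlt h σ) = fun σ => ∑ x, ∑ y, Qsw x y h σ := by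
      ext σ
      unfold Dlt
      rw [← hNd, mul_div_cancel₀ _ hN1.ne']
    rw [e1, t5_ipr_sum_right]
    refine Finset.sum_congr rfl fun x _ => ?_
    rw [t5_ipr_sum_right]
    exact Finset.sum_congr rfl fun y _ => t5_Q_nsq x y h
  have h5 : 0 ≤ ipr h (Dlt h) := by
    have e1 : 0 ≤ N * (N - 1) * ipr h (Dlt h) := by
      rw [← h4]
      refine Finset.sum_nonneg fun x _ => Finset.sum_nonneg fun y _ => ?_
      rw [← nsq_eq_ipr]; exact nsq_nonneg _
    exact nonneg_of_mul_nonneg_right e1 hN1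
  have hcard : (Fintype.card (Fin 4 ↪ X) : ℝ) = N * (N - 1) * ((N - 2) * (N - 3)) := by
    rw [Fintype.card_embedding_eq, Fintype.card_fin]
    obtain ⟨n, hn⟩ : ∃ n, Fintype.card X = n + 4 := ⟨Fintype.card X - 4, by omega⟩
    rw [hNd, hn]
    have : (n + 4).descFactorial 4 = (n + 4) * (n + 3) * ((n + 2) * (n + 1)) := by
      simp only [Nat.descFactorial, Nat.sub_zero]
      have e1 : n + 4 - 1 = n + 3 := by omega
      have e2 : n + 4 - 2 = n + 2 := by omega
      have e3 : n + 4 - 3 = n + 1 := by omega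
      rw [e1, e2, e3]; ring
    rw [this]; push_cast; ring
  have hB : (0 : ℝ) < (N - 2) * (N - 3) := mul_pos (by linarith) (by linarith)
  unfold av
  rw [h1, h2, h4, hcard, div_le_iff₀ (mul_pos hN1 hB)]
  have h6 : 0 ≤ ∑ y : X, ∑ x : X, ∑ x' : X, ipr (Qsw x y h) (Qsw x' y h) :=
    Finset.sum_nonneg fun y _ => h3 y
  have h7 : N * (N - 1) ≤ (1 + 6 / N) * ((N - 2) * (N - 3)) := by
    have e1 : (1 + 6 / N) * ((N - 2) * (N - 3)) = (N + 6) * ((N - 2) * (N - 3)) / N := by
      field_simp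
    rw [e1, le_div_iff₀ (by linarith)]
    nlinarith
  have h8 : (2 : ℝ) ≤ 4 / N ^ 2 * ((N - 2) * (N - 3)) := by
    have e1 : 4 / N ^ 2 * ((N - 2) * (N - 3)) = 4 * ((N - 2) * (N - 3)) / N ^ 2 := by
      ring
    rw [e1, le_div_iff₀ (by positivity)]
    nlinarith
  have hn0 := nsq_nonneg (Dlt h)
  have h9 := mul_le_mul_of_nonneg_right h7 (mul_nonneg hN1.le hn0)
  have h10 := mul_le_mul_of_nonneg_right h8 (mul_nonneg hN1.le h5)
  nlinarith

end D2

end Pool.Agent.H9.Low
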