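import Pool.Agent.H9.Low.T5

/-!
# The tensor step: words of the second group of letters contract the high functions (part a)

`h` with `Dlt h = F`; the average over the left part kills the projections of the swaps of the
pairs `xy (l, false)`, `xy (l, true)`.
-/

namespace Pool.Agent.H9.Low

open Equiv Finset

section tens6
variable {X : Type} [Fintype X] [DecidableEq X]

theorem t6_card (hN : 4 ≤ Fintype.card X) : (Fintype.card (Fin 4 ↪ X) : ℝ)
    = ((Fintype.card X : ℝ) * (Fintype.card X - 1)) *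
      (((Fintype.card X : ℝ) - 2) * (Fintype.card X - 3)) := by
  rw [Fintype.card_embedding_eq, Fintype.card_fin]
  obtain ⟨n, hn⟩ : ∃ n, Fintype.card X = n + 4 := ⟨Fintype.card X - 4, by omega⟩
  rw [hn]
  have : (n + 4).descFactorial 4 = (n + 4) * (n + 3) * ((n + 2) * (n + 1)) := by
    simp only [Nat.descFactorial, Nat.sub_zero]
    have e1 : n + 4 - 1 = n + 3 := by omega
    have e2 : n + 4 - 2 = n + 2 := by omega
    have e3 : n + 4 - 3 = n + 1 := by omega
    rw [e1, e2, e3]; ring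
  rw [this]; push_cast; ring

theorem t6_card_le : (Fintype.card (Fin 4 ↪ X) : ℝ) ≤ (Fintype.card X : ℝ) ^ 4 := by
  rw [Fintype.card_embedding_eq, Fintype.card_fin]
  exact_mod_cast Nat.descFactorial_le_pow _ _

/-- number of pairs avoiding two points -/
theorem t6_count (hN : 4 ≤ Fintype.card X) (f : X → X → ℝ) (h0 : ∀ a, f a a = 0) (a b : X) :
    ∑ c : X, ∑ d : X,
        (if a ≠ b ∧ a ≠ c ∧ a ≠ d ∧ b ≠ c ∧ b ≠ d ∧ c ≠ d then f a b else 0)
      = (((Fintype.card X : ℝ) - 2) * (Fintype.card X - 3)) * f a b := by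
  by_cases hab : a = b
  · subst hab; simp [h0]
  · have h3 : ∀ c : X, ∑ d : X,
        (if a ≠ b ∧ a ≠ c ∧ a ≠ d ∧ b ≠ c ∧ b ≠ d ∧ c ≠ d then f a b else 0)
        = if a ≠ c ∧ b ≠ c then ((Fintype.card X : ℝ) - 3) * f a b else 0 := by
      intro c
      by_cases hc : a ≠ c ∧ b ≠ c
      · rw [if_pos hc, ← Finset.sum_filter, Finset.sum_const, nsmul_eq_mul]
        congr 1
        have e1 : (univ.filter fun d : X =>
            a ≠ b ∧ a ≠ c ∧ a ≠ d ∧ b ≠ c ∧ b ≠ d ∧ c ≠ d) = ({a, b, c} : Finset X)ᶜ := by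
          ext d
          simp only [Finset.mem_filter, Finset.mem_univ, true_and, Finset.mem_compl,
            Finset.mem_insert, Finset.mem_singleton, not_or]
          constructor
          · rintro ⟨_, _, h1, _, h2, h3⟩
            exact ⟨Ne.symm h1, Ne.symm h2, Ne.symm h3⟩
          · rintro ⟨h1, h2, h3⟩
            exact ⟨hab, hc.1, Ne.symm h1, hc.2, Ne.symm h2, Ne.symm h3⟩
        have e2 : ({a, b, c} : Finset X).card = 3 := by
          rw [Finset.card_insert_of_notMem, Finset.card_insert_of_notMem,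
            Finset.card_singleton]
          · simpa using hc.2
          · simp only [Finset.mem_insert, Finset.mem_singleton, not_or]
            exact ⟨hab, hc.1⟩
        rw [e1, Finset.card_compl, e2, Nat.cast_sub (by omega)]
        norm_num
      · rw [if_neg hc]
        refine Finset.sum_eq_zero fun d _ => if_neg ?_
        rintro ⟨_, h1, _, h2, _, _⟩
        exact hc ⟨h1, h2⟩
    simp only [h3]
    rw [← Finset.sum_filter, Finset.sum_const, nsmul_eq_mul, mul_assoc]
    congr 1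
    have e1 : (univ.filter fun c : X => a ≠ c ∧ b ≠ c) = ({a, b} : Finset X)ᶜ := by
      ext c
      simp only [Finset.mem_filter, Finset.mem_univ, true_and, Finset.mem_compl,
        Finset.mem_insert, Finset.mem_singleton, not_or]
      constructor
      · rintro ⟨h1, h2⟩
        exact ⟨Ne.symm h1, Ne.symm h2⟩
      · rintro ⟨h1, h2⟩
        exact ⟨Ne.symm h1, Ne.symm h2⟩
    have e2 : ({a, b} : Finset X).card = 2 := Finset.card_pair hab
    rw [e1, Finset.card_compl, e2, Nat.cast_sub (by omega)]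
    norm_num

/-- the law of the first two of four distinct points -/
theorem t6_pair (hN : 4 ≤ Fintype.card X) (f : X → X → ℝ) (h0 : ∀ a, f a a = 0) :
    av (fun e : Fin 4 ↪ X => f (e 0) (e 1))
      = (∑ x, ∑ y, f x y) / ((Fintype.card X : ℝ) * ((Fintype.card X : ℝ) - 1)) := by
  have hN' : (4 : ℝ) ≤ Fintype.card X := by exact_mod_cast hN
  unfold av
  rw [t5_sum_emb (fun a b _ _ => f a b), t6_card hN]
  have h1 : ∑ a, ∑ b, ∑ c : X, ∑ d : X,
        (if a ≠ b ∧ a ≠ c ∧ a ≠ d ∧ b ≠ c ∧ b ≠ d ∧ c ≠ d then f a b else 0)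
      = (((Fintype.card X : ℝ) - 2) * (Fintype.card X - 3)) * ∑ a, ∑ b, f a b := by
    rw [Finset.mul_sum]
    refine Finset.sum_congr rfl fun a _ => ?_
    rw [Finset.mul_sum]
    exact Finset.sum_congr rfl fun b _ => t6_count hN f h0 a b
  rw [h1, mul_comm ((Fintype.card X : ℝ) * (Fintype.card X - 1)), mul_div_mul_left]
  have h2 : (0 : ℝ) < ((Fintype.card X : ℝ) - 2) * (Fintype.card X - 3) :=
    mul_pos (by linarith) (by linarith)
  exact h2.ne'

/-- two distinct points are the first two of four distinct points -/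
theorem t6_ext (hN : 4 ≤ Fintype.card X) (a b : X) (hab : a ≠ b) :
    ∃ e : Fin 4 ↪ X, e 0 = a ∧ e 1 = b := by
  have hex : ∀ s : Finset X, s.card < 4 → ∃ c, c ∉ s := by
    intro s hs
    by_contra hcon
    push Not at hcon
    have : s = univ := Finset.eq_univ_iff_forall.2 hcon
    rw [this, Finset.card_univ] at hs
    omega
  obtain ⟨c, hc⟩ := hex {a, b} (lt_of_le_of_lt Finset.card_le_two (by norm_num))
  obtain ⟨d, hd⟩ := hex {a, b, c} (lt_of_le_of_lt Finset.card_le_three (by norm_num))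
  simp only [Finset.mem_insert, Finset.mem_singleton, not_or] at hc hd
  refine ⟨⟨![a, b, c, d], ?_⟩, rfl, rfl⟩
  intro i j hij
  have h1 := hc.1; have h2 := hc.2; have h3 := hd.1; have h4 := hd.2.1; have h5 := hd.2.2
  have h1' := Ne.symm h1; have h2' := Ne.symm h2; have h3' := Ne.symm h3
  have h4' := Ne.symm h4; have h5' := Ne.symm h5; have hab' := Ne.symm hab
  fin_cases i <;> fin_cases j <;> simp_all

/-- replacing the law of a tuple by the uniform law -/
theorem t6_law {ι : Type} [Fintype ι] [Nonempty ι] (W : ι → Perm X) (δ : ℝ)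
    (hW : ∀ x z : Fin 4 ↪ X, |av (fun b => if ∀ i, W b (x i) = z i then (1 : ℝ) else 0)
       - 1 / (Fintype.card (Fin 4 ↪ X) : ℝ)| ≤ δ)
    (x : Fin 4 ↪ X) (φ : (Fin 4 ↪ X) → ℝ) (M : ℝ) (hM : ∀ z, |φ z| ≤ M) :
    |av (fun b => φ (x.trans (W b).toEmbedding)) - av φ|
      ≤ (Fintype.card X : ℝ) ^ 4 * δ * M := by
  have hδ : 0 ≤ δ := (abs_nonneg _).trans (hW x x)
  have hM0 : 0 ≤ M := (abs_nonneg _).trans (hM x)
  have h1 : ∀ b, φ (x.trans (W b).toEmbedding)
      = ∑ z, φ z * (if ∀ i, W b (x i) = z i then (1 : ℝ) else 0) := by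
    intro b
    have e1 : ∀ z : Fin 4 ↪ X, (∀ i, W b (x i) = z i) ↔ z = x.trans (W b).toEmbedding := by
      intro z
      constructor
      · intro h; ext i; exact (h i).symm
      · intro h i; rw [h]; rfl
    simp only [e1, mul_ite, mul_one, mul_zero]
    rw [Finset.sum_ite_eq' Finset.univ]
    simp
  have h2 : av (fun b => φ (x.trans (W b).toEmbedding))
      = ∑ z, φ z * av (fun b => if ∀ i, W b (x i) = z i then (1 : ℝ) else 0) := by
    simp only [h1]
    rw [av_sum]
    exact Finset.sum_congr rfl fun z _ => av_mul_left _ _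
  have h3 : av φ = ∑ z, φ z * (1 / (Fintype.card (Fin 4 ↪ X) : ℝ)) := by
    unfold av
    rw [← Finset.sum_mul, mul_one_div]
  rw [h2, h3, ← Finset.sum_sub_distrib]
  calc |∑ z, (φ z * av (fun b => if ∀ i, W b (x i) = z i then (1 : ℝ) else 0)
        - φ z * (1 / (Fintype.card (Fin 4 ↪ X) : ℝ)))|
      ≤ ∑ z, |φ z * av (fun b => if ∀ i, W b (x i) = z i then (1 : ℝ) else 0)
        - φ z * (1 / (Fintype.card (Fin 4 ↪ X) : ℝ))| := Finset.abs_sum_le_sum_abs _ _
    _ ≤ ∑ _z : Fin 4 ↪ X, M * δ := by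
        refine Finset.sum_le_sum fun z _ => ?_
        rw [← mul_sub, abs_mul]
        exact mul_le_mul (hM z) (hW x z) (abs_nonneg _) hM0
    _ = (Fintype.card (Fin 4 ↪ X) : ℝ) * (M * δ) := by
        rw [Finset.sum_const, nsmul_eq_mul, Finset.card_univ]
    _ ≤ (Fintype.card X : ℝ) ^ 4 * (M * δ) :=
        mul_le_mul_of_nonneg_right t6_card_le (mul_nonneg hM0 hδ)
    _ = (Fintype.card X : ℝ) ^ 4 * δ * M := by ring

theorem t6_nsq_Q (x y : X) (h : Perm X → ℝ) : nsq (Qsw x y h) ≤ nsq h := by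
  have h1 : nsq (Qsw x y h) = ipr h (Qsw x y h) := by rw [nsq_eq_ipr, t5_Q_nsq]
  have h2 : nsq (Qsw x y h) ^ 2 ≤ nsq h * nsq (Qsw x y h) := by
    have := ipr_sq_le h (Qsw x y h)
    rwa [← h1] at this
  rcases (nsq_nonneg (Qsw x y h)).eq_or_lt with h3 | h3
  · rw [← h3]; exact nsq_nonneg h
  · rw [pow_two] at h2
    exact le_of_mul_le_mul_right h2 h3

theorem t6_Q_R (g : Perm X) (x y : X) (G : Perm X → ℝ) :
    Qsw x y (R g G) = R g (Qsw (g x) (g y) G) := by
  ext σ
  simp only [Qsw, R]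
  congr 3
  rw [mul_assoc, mul_assoc]
  congr 1
  rw [Equiv.swap_apply_apply]
  group

end tens6

theorem t6_EK_Q {τ β' : Type} [Fintype τ] [DecidableEq τ] [Fintype β'] [DecidableEq β']
    (a b : τ) (G : Perm (τ ⊕ β') → ℝ) :
    EK (inlP τ β') (Qsw (Sum.inl a) (Sum.inl b) G) = fun _ => 0 := by
  ext σ
  have e0 : swap (Sum.inl a : τ ⊕ β') (Sum.inl b) = inlP τ β' (swap a b) := by
    ext x
    cases x with
    | inl x =>
      rw [inlP_inl]
      simp only [Equiv.swap_apply_def, Sum.inl.injEq]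
      split_ifs <;> rfl
    | inr x =>
      rw [inlP_inr, Equiv.swap_apply_of_ne_of_ne] <;> simp
  have h1 : EK (inlP τ β') (Qsw (Sum.inl a) (Sum.inl b) G) σ
      = (1 / 2) * (av (fun k : Perm τ => G (σ * inlP τ β' k))
        - av (fun k : Perm τ => G (σ * inlP τ β' (k * swap a b)))) := by
    unfold EK Qsw
    rw [← av_sub, ← av_mul_left]
    congr 1; ext k
    rw [e0, map_mul, mul_assoc]
    ring
  rw [h1, av_mulRight (swap a b) (fun k : Perm τ => G (σ * inlP τ β' k))]
  ring

/-- one word -/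
theorem t6_word {τ β' : Type} [Fintype τ] [DecidableEq τ] [Fintype β'] [DecidableEq β']
    (q : ℕ) (hq : 1 ≤ q) (xy : Fin q × Bool ↪ τ) (g : Perm (τ ⊕ β'))
    (F h : Perm (τ ⊕ β') → ℝ) :
    nsq (EK (inlP τ β') (R g F)) ≤ nsq F
      - 2 * av (fun l : Fin q =>
          ipr F (Qsw (g (Sum.inl (xy (l, false)))) (g (Sum.inl (xy (l, true)))) h))
      + av (fun l : Fin q => av fun l' : Fin q =>
          ipr (Qsw (g (Sum.inl (xy (l, false)))) (g (Sum.inl (xy (l, true)))) h)
            (Qsw (g (Sum.inl (xy (l', false)))) (g (Sum.inl (xy (l', true)))) h)) := by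
  haveI : Nonempty (Fin q) := ⟨⟨0, hq⟩⟩
  have h1 : EK (inlP τ β') (R g F) = EK (inlP τ β') (R g (fun σ => F σ - av fun l : Fin q =>
      Qsw (g (Sum.inl (xy (l, false)))) (g (Sum.inl (xy (l, true)))) h σ)) := by
    have e1 : R g (fun σ => F σ - av fun l : Fin q =>
        Qsw (g (Sum.inl (xy (l, false)))) (g (Sum.inl (xy (l, true)))) h σ)
        = fun σ => R g F σ - av fun l : Fin q =>
          Qsw (Sum.inl (xy (l, false))) (Sum.inl (xy (l, true))) (R g h) σ := by
      ext σ
      simp only [t6_Q_R]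
      rfl
    rw [e1, EK_sub]
    ext σ
    have e2 : EK (inlP τ β') (fun σ => av fun l : Fin q =>
          Qsw (Sum.inl (xy (l, false))) (Sum.inl (xy (l, true))) (R g h) σ) σ = 0 := by
      unfold EK
      rw [av_comm]
      have : ∀ l : Fin q, av (fun k : Perm τ => Qsw (Sum.inl (xy (l, false)))
          (Sum.inl (xy (l, true))) (R g h) (σ * inlP τ β' k)) = 0 := by
        intro l
        exact congrFun (t6_EK_Q (β' := β') (xy (l, false)) (xy (l, true)) (R g h)) σ
      simp only [this]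
      exact av_zero
    rw [e2, sub_zero]
  rw [h1]
  refine (nsq_EK_le _ _).trans ?_
  rw [nsq_R, nsq_sub]
  refine le_of_eq ?_
  rw [ipr_av_right]
  congr 1
  rw [nsq_eq_ipr, ipr_av_left]
  congr 1; ext l
  rw [ipr_av_right]

section avg6
variable {X : Type} [Fintype X] [DecidableEq X]

/-- the average over the words, with the law of the tuples replaced by the uniform law -/
theorem t6_avg {ι : Type} [Fintype ι] [Nonempty ι] (q : ℕ) (hq : 1 ≤ q)
    (p : Fin q × Bool ↪ X) (W : ι → Perm X) (δ : ℝ)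
    (hW : ∀ x z : Fin 4 ↪ X, |av (fun b => if ∀ i, W b (x i) = z i then (1 : ℝ) else 0)
       - 1 / (Fintype.card (Fin 4 ↪ X) : ℝ)| ≤ δ)
    (N : ℝ) (hNd : N = (Fintype.card X : ℝ)) (hN20 : 20 ≤ Fintype.card X)
    (K : ℝ) (hK1 : 1 ≤ K) (F h : Perm X → ℝ) (hD : Dlt h = F)
    (hi : ipr h F ≤ K * nsq F) (hn : nsq h ≤ K ^ 2 * nsq F) :
    av (fun b => nsq F - 2 * av (fun l : Fin q =>
          ipr F (Qsw (W b (p (l, false))) (W b (p (l, true))) h))
      + av (fun l : Fin q => av fun l' : Fin q =>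
          ipr (Qsw (W b (p (l, false))) (W b (p (l, true))) h)
            (Qsw (W b (p (l', false))) (W b (p (l', true))) h))) ≤
      (6 / N + K * (1 / q + 4 / N ^ 2) + 4 * N ^ 4 * δ * K ^ 2) * nsq F := by
  haveI : Nonempty (Fin q) := ⟨⟨0, hq⟩⟩
  have hN20' : (20 : ℝ) ≤ N := by rw [hNd]; exact_mod_cast hN20
  have hN4 : 4 ≤ Fintype.card X := by omega
  have hq' : (1 : ℝ) ≤ q := by exact_mod_cast hq
  have hF0 := nsq_nonneg F
  have hne : ∀ l : Fin q, p (l, false) ≠ p (l, true) := by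
    intro l h; have := p.injective h; simp at this
  -- an embedding exists
  have hex : ∀ a b : X, a ≠ b → ∃ e : Fin 4 ↪ X, e 0 = a ∧ e 1 = b := t6_ext hN4
  have hδ : 0 ≤ δ := by
    obtain ⟨e, _, _⟩ := hex _ _ (hne ⟨0, hq⟩)
    exact (abs_nonneg _).trans (hW e e)
  -- notation for the projections
  let Q : ι → Fin q → Perm X → ℝ := fun b l =>
    Qsw (W b (p (l, false))) (W b (p (l, true))) h
  -- averages of the two functions of pairs
  have hav1 : ∀ G : Perm X → ℝ, av (fun e : Fin 4 ↪ X => ipr G (Qsw (e 0) (e 1) h))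
      = ipr G (Dlt h) := by
    intro G
    have e1 := t6_pair hN4 (fun a b => ipr G (Qsw a b h))
      (fun a => by simp only [t5_Q_self]; simp [ipr, av])
    rw [e1]
    have e2 : Dlt h = fun σ => (1 / (N * (N - 1))) * ∑ x, ∑ y, Qsw x y h σ := by
      ext σ; unfold Dlt; rw [← hNd]; ring
    rw [e2, ipr_smul_right, t5_ipr_sum_right, ← hNd]
    rw [div_eq_mul_inv, mul_comm, one_div]
    congr 1
    refine Finset.sum_congr rfl fun x _ => ?_
    rw [t5_ipr_sum_right]
  have hsqrt : √(nsq h) ≤ K * √(nsq F) := by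
    rw [show K * √(nsq F) = √(K ^ 2 * nsq F) by
      rw [Real.sqrt_mul (by positivity), Real.sqrt_sq (by linarith)]]
    exact Real.sqrt_le_sqrt hn
  have hM1 : ∀ x y : X, |ipr F (Qsw x y h)| ≤ K * nsq F := by
    intro x y
    calc |ipr F (Qsw x y h)| ≤ √(nsq F) * √(nsq (Qsw x y h)) := abs_ipr_le _ _
      _ ≤ √(nsq F) * (K * √(nsq F)) :=
        mul_le_mul_of_nonneg_left ((Real.sqrt_le_sqrt (t6_nsq_Q x y h)).trans hsqrt)
          (Real.sqrt_nonneg _)
      _ = K * (√(nsq F) * √(nsq F)) := by ring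
      _ = K * nsq F := by rw [Real.mul_self_sqrt hF0]
  have hM2 : ∀ x y x' y' : X, |ipr (Qsw x y h) (Qsw x' y' h)| ≤ K ^ 2 * nsq F := by
    intro x y x' y'
    calc |ipr (Qsw x y h) (Qsw x' y' h)|
        ≤ √(nsq (Qsw x y h)) * √(nsq (Qsw x' y' h)) := abs_ipr_le _ _
      _ ≤ √(nsq h) * √(nsq h) :=
        mul_le_mul (Real.sqrt_le_sqrt (t6_nsq_Q x y h)) (Real.sqrt_le_sqrt (t6_nsq_Q x' y' h))
          (Real.sqrt_nonneg _) (Real.sqrt_nonneg _)
      _ = nsq h := Real.mul_self_sqrt (nsq_nonneg h)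
      _ ≤ K ^ 2 * nsq F := hn
  have hi0 : 0 ≤ ipr h F := by
    rw [← hD, ← hav1 h]
    refine av_nonneg fun e => ?_
    rw [← t5_Q_nsq, ← nsq_eq_ipr]
    exact nsq_nonneg _
  obtain ⟨E, hE⟩ : ∃ E : ℝ, E = N ^ 4 * δ * (K ^ 2 * nsq F) := ⟨_, rfl⟩
  have hE0 : 0 ≤ E := by rw [hE]; positivity
  -- first order term
  have h1 : ∀ l : Fin q, nsq F - E ≤ av fun b => ipr F (Q b l) := by
    intro l
    obtain ⟨e, he0, he1⟩ := hex _ _ (hne l)
    have e1 := t6_law W δ hW e (fun z => ipr F (Qsw (z 0) (z 1) h)) (K * nsq F)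
      (fun z => hM1 _ _)
    rw [hav1 F, hD, ← nsq_eq_ipr, ← hNd] at e1
    have e2 : (fun b => ipr F (Qsw ((e.trans (W b).toEmbedding) 0)
        ((e.trans (W b).toEmbedding) 1) h)) = fun b => ipr F (Q b l) := by
      ext b
      simp only [Q, Function.Embedding.trans_apply, he0, he1, Equiv.coe_toEmbedding]
    rw [e2] at e1
    have e3 := (abs_le.1 e1).1
    have e4 : N ^ 4 * δ * (K * nsq F) ≤ E := by
      rw [hE]
      refine mul_le_mul_of_nonneg_left (mul_le_mul_of_nonneg_right ?_ hF0) (by positivity)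
      nlinarith
    linarith
  -- second order terms
  have h2 : ∀ l l' : Fin q, av (fun b => ipr (Q b l) (Q b l'))
      ≤ (if l = l' then ipr h F else (1 + 6 / N) * nsq F + 4 / N ^ 2 * ipr h F) + E := by
    intro l l'
    by_cases hll : l = l'
    · subst hll
      rw [if_pos rfl]
      obtain ⟨e, he0, he1⟩ := hex _ _ (hne l)
      have e1 := t6_law W δ hW e (fun z => ipr (Qsw (z 0) (z 1) h) (Qsw (z 0) (z 1) h))
        (K ^ 2 * nsq F) (fun z => hM2 _ _ _ _)
      have e2 : (fun b => ipr (Qsw ((e.trans (W b).toEmbedding) 0)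
          ((e.trans (W b).toEmbedding) 1) h) (Qsw ((e.trans (W b).toEmbedding) 0)
          ((e.trans (W b).toEmbedding) 1) h)) = fun b => ipr (Q b l) (Q b l) := by
        ext b
        simp only [Q, Function.Embedding.trans_apply, he0, he1, Equiv.coe_toEmbedding]
      have e3 : av (fun z : Fin 4 ↪ X => ipr (Qsw (z 0) (z 1) h) (Qsw (z 0) (z 1) h))
          = ipr h F := by
        simp only [t5_Q_nsq]
        rw [hav1 h, hD]
      rw [e2, e3, ← hNd, ← hE] at e1
      have e4 := (abs_le.1 e1).2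
      linarith
    · rw [if_neg hll]
      have hinj : Function.Injective (![(l, false), (l, true), (l', false), (l', true)] :
          Fin 4 → Fin q × Bool) := by
        have hll' : ¬ l' = l := fun h => hll h.symm
        intro i j hij
        fin_cases i <;> fin_cases j <;> simp_all
      have e1 := t6_law W δ hW
        ((⟨![(l, false), (l, true), (l', false), (l', true)], hinj⟩ :
          Fin 4 ↪ Fin q × Bool).trans p)
        (fun z => ipr (Qsw (z 0) (z 1) h) (Qsw (z 2) (z 3) h))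
        (K ^ 2 * nsq F) (fun z => hM2 _ _ _ _)
      have e3 := D2_bound hN20 h
      rw [hD, ← hNd] at e3
      rw [← hNd, ← hE] at e1
      have e4 := (abs_le.1 e1).2
      have e5 : av (fun b => ipr (Q b l) (Q b l')) ≤
        av (fun z : Fin 4 ↪ X => ipr (Qsw (z 0) (z 1) h) (Qsw (z 2) (z 3) h)) + E := by
        have e6 := sub_le_iff_le_add'.1 e4
        exact e6
      linarith
  -- the sum over the pairs
  have h3 : ∀ A B : ℝ, av (fun l : Fin q => av fun l' : Fin q => (if l = l' then A else B) + E)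
      = 1 / q * A + (1 - 1 / q) * B + E := by
    intro A B
    have e1 : ∀ l : Fin q, av (fun l' : Fin q => (if l = l' then A else B) + E)
        = 1 / q * A + (1 - 1 / q) * B + E := by
      intro l
      rw [av_add, av_const]
      congr 1
      have e2 : (fun l' : Fin q => if l = l' then A else B)
          = fun l' => (if l = l' then A - B else 0) + B := by
        ext l'; split_ifs <;> ring
      rw [e2, av_add, av_const]
      unfold av
      rw [Finset.sum_ite_eq Finset.univ l, Fintype.card_fin]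
      simp only [Finset.mem_univ, if_true]
      have : (q : ℝ) ≠ 0 := by linarith
      field_simp
      ring
    simp only [e1]
    rw [av_const]
  have h4 : av (fun b => nsq F - 2 * av (fun l : Fin q => ipr F (Q b l))
        + av (fun l : Fin q => av fun l' : Fin q => ipr (Q b l) (Q b l'))) =
      nsq F - 2 * av (fun l : Fin q => av fun b => ipr F (Q b l))
        + av (fun l : Fin q => av fun l' : Fin q => av fun b => ipr (Q b l) (Q b l')) := by
    rw [av_add, av_sub, av_const, av_mul_left, av_comm]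
    congr 1
    rw [av_comm]
    congr 1; ext l
    rw [av_comm]
  have h5 : nsq F - E ≤ av (fun l : Fin q => av fun b => ipr F (Q b l)) := by
    calc nsq F - E = av (fun _ : Fin q => nsq F - E) := (av_const _).symm
      _ ≤ _ := av_le_av h1
  have h6 : av (fun l : Fin q => av fun l' : Fin q => av fun b => ipr (Q b l) (Q b l'))
      ≤ 1 / q * ipr h F + (1 - 1 / q) * ((1 + 6 / N) * nsq F + 4 / N ^ 2 * ipr h F) + E := by
    rw [← h3]
    exact av_le_av fun l => av_le_av fun l' => h2 l l'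
  have hq0 : 0 ≤ 1 / (q : ℝ) := by positivity
  have h7 : (1 - 1 / (q : ℝ)) * ((1 + 6 / N) * nsq F + 4 / N ^ 2 * ipr h F)
      ≤ (1 + 6 / N) * nsq F + 4 / N ^ 2 * ipr h F := by
    have e1 : 0 ≤ (1 + 6 / N) * nsq F + 4 / N ^ 2 * ipr h F := by positivity
    have e2 := mul_nonneg hq0 e1
    rw [sub_mul, one_mul]
    linarith
  have h8 : (1 / (q : ℝ) + 4 / N ^ 2) * ipr h F ≤ (1 / (q : ℝ) + 4 / N ^ 2) * (K * nsq F) :=
    mul_le_mul_of_nonneg_left hi (by positivity)
  have h9 : (6 / N + K * (1 / q + 4 / N ^ 2) + 4 * N ^ 4 * δ * K ^ 2) * nsq F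
      = 6 / N * nsq F + (1 / (q : ℝ) + 4 / N ^ 2) * (K * nsq F) + 4 * E := by
    rw [hE]; ring
  have h10 : (1 / (q : ℝ) + 4 / N ^ 2) * ipr h F = 1 / (q : ℝ) * ipr h F + 4 / N ^ 2 * ipr h F :=
    add_mul _ _ _
  have h11 : (1 + 6 / N) * nsq F = nsq F + 6 / N * nsq F := by rw [add_mul, one_mul]
  rw [h9]
  change av (fun b => nsq F - 2 * av (fun l : Fin q => ipr F (Q b l))
        + av (fun l : Fin q => av fun l' : Fin q => ipr (Q b l) (Q b l'))) ≤ _
  rw [h4]
  linarith

end avg6

end Pool.Agent.H9.Low
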