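import Pool.Agent.H9.Low.T3

/-!
# Contraction on low levels from contraction on tuples
-/

namespace Pool.Agent.H9.Low

open Equiv Finset

namespace T7

section tup

variable {X : Type*}

/-- a permutation acting on tuples -/
def tpe {J : ℕ} (g : Perm X) : (Fin J ↪ X) ≃ (Fin J ↪ X) where
  toFun x := x.trans g.toEmbedding
  invFun x := x.trans g.symm.toEmbedding
  left_inv x := by ext i; simp
  right_inv x := by ext i; simp

theorem tpe_apply {J : ℕ} (g : Perm X) (x : Fin J ↪ X) : tpe g x = x.trans g.toEmbedding := rfl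

theorem tpe_apply_apply {J : ℕ} (g : Perm X) (x : Fin J ↪ X) (i : Fin J) :
    tpe g x i = g (x i) := rfl

theorem tpe_mul {J : ℕ} (g h : Perm X) (x : Fin J ↪ X) : tpe (g * h) x = tpe g (tpe h x) := by
  ext i; rfl

theorem tpe_one {J : ℕ} (x : Fin J ↪ X) : tpe (1 : Perm X) x = x := by
  ext i; rfl

variable [Fintype X] [DecidableEq X]

theorem mg_R {J : ℕ} (g : Perm X) (F : Perm X → ℝ) (x z : Fin J ↪ X) :
    mg (R g F) x z = mg F (tpe g x) z := by
  unfold mg
  rw [← Equiv.sum_comp (Equiv.mulRight g)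
    (fun σ : Perm X => if ∀ i, σ (x i) = z i then R g F σ else 0)]
  refine Finset.sum_congr rfl fun σ _ => ?_
  have e1 : R g F ((Equiv.mulRight g) σ) = F σ := by
    simp [R]
  rw [e1]
  rfl

theorem high_R {J : ℕ} (g : Perm X) {F : Perm X → ℝ} (hF : F ∈ HighS X J) :
    R g F ∈ HighS X J := by
  intro x z
  rw [mg_R]
  exact hF _ _

theorem sum_R_mul (g : Perm X) (F F' : Perm X → ℝ) :
    ∑ σ, R g F σ * F' σ = ∑ σ, F σ * R g⁻¹ F' σ := by
  rw [← Equiv.sum_comp (Equiv.mulRight g) (fun σ : Perm X => R g F σ * F' σ)]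
  refine Finset.sum_congr rfl fun σ _ => ?_
  simp [R]

theorem low_R {J : ℕ} (g : Perm X) {F : Perm X → ℝ} (hF : F ∈ LowS X J) :
    R g F ∈ LowS X J := by
  intro G hG
  rw [sum_R_mul]
  exact hF _ (high_R g⁻¹ hG)

/-- averages of elements of a subspace -/
theorem av_mem {Y : Type*} {U : Submodule ℝ (Y → ℝ)} {ι : Type*} [Fintype ι]
    (f : ι → Y → ℝ) (h : ∀ i, f i ∈ U) : (fun y => av fun i => f i y) ∈ U := by
  have e : (fun y => av fun i => f i y) = ((Fintype.card ι : ℝ)⁻¹) • ∑ i, f i := by
    ext y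
    simp only [av, Pi.smul_apply, Finset.sum_apply, smul_eq_mul]
    rw [div_eq_inv_mul]
  rw [e]
  exact U.smul_mem _ (U.sum_mem fun i _ => h i)

/-- a nonzero function of low level has a nonzero marginal -/
theorem low_marg {J : ℕ} {F : Perm X → ℝ} (hF : F ∈ LowS X J) (hne : F ≠ 0) :
    ∃ x z : Fin J ↪ X, mg F x z ≠ 0 := by
  by_contra hcon
  push Not at hcon
  apply hne
  have h1 := hF F hcon
  have h2 : ∀ σ ∈ (Finset.univ : Finset (Perm X)), F σ * F σ = 0 :=
    (Finset.sum_eq_zero_iff_of_nonneg fun σ _ => mul_self_nonneg _).1 h1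
  ext σ
  exact mul_self_eq_zero.1 (h2 σ (Finset.mem_univ σ))

/-- the marginals of a function of average zero have average zero -/
theorem sum_mg {J : ℕ} (F : Perm X → ℝ) (z : Fin J ↪ X) :
    ∑ x : Fin J ↪ X, mg F x z = ∑ σ, F σ := by
  unfold mg
  rw [Finset.sum_comm]
  refine Finset.sum_congr rfl fun σ _ => ?_
  rw [Finset.sum_eq_single (tpe σ⁻¹ z)]
  · rw [if_pos]
    intro i
    rw [tpe_apply_apply]
    exact σ.apply_symm_apply (z i)
  · intro x _ hx
    rw [if_neg]
    intro h
    apply hx
    ext i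
    rw [tpe_apply_apply, ← h i]
    exact (σ.symm_apply_apply (x i)).symm
  · intro h
    exact absurd (Finset.mem_univ _) h

omit [DecidableEq X] in
theorem av_tpe {J : ℕ} (g : Perm X) (f : (Fin J ↪ X) → ℝ) :
    av (fun x => f (tpe g x)) = av f := av_comp_equiv (tpe g) f

end tup

end T7

open T7 in
theorem low_contr {X ι : Type} [Fintype X] [DecidableEq X] [Fintype ι] [Nonempty ι]
    (B : ι → Perm X) (J : ℕ) (ν : ℝ)
    (hB : ∀ φ : (Fin J ↪ X) → ℝ, av φ = 0 →
      nsq (fun x : Fin J ↪ X => av fun k => φ (x.trans (B k).toEmbedding)) ≤ ν * nsq φ)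
    (F : Perm X → ℝ) (hF : F ∈ LowS X J) (h0 : av F = 0) : nsq (Mav B F) ≤ ν * nsq F := by
  classical
  have hc : (0 : ℝ) < Fintype.card (Perm X) := by exact_mod_cast Fintype.card_pos
  -- the operator
  let M : (Perm X → ℝ) →ₗ[ℝ] (Perm X → ℝ) :=
    { toFun := fun f σ => av fun k => av fun k' => R (B k' * (B k)⁻¹) f σ
      map_add' := by
        intro f f'
        ext σ
        simp only [R, Pi.add_apply]
        simp only [av_add]
      map_smul' := by
        intro c f
        ext σ
        simp only [R, Pi.smul_apply, smul_eq_mul, RingHom.id_apply]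
        simp only [av_mul_left] }
  have hM : ∀ f σ, M f σ = av fun k => av fun k' => R (B k' * (B k)⁻¹) f σ := fun f σ => rfl
  let A0 : Submodule ℝ (Perm X → ℝ) :=
    { carrier := {f | ∑ σ, f σ = 0}
      add_mem' := by
        intro f f' hf hf'
        simp only [Set.mem_ofPred_eq, Pi.add_apply, Finset.sum_add_distrib] at *
        rw [hf, hf', add_zero]
      zero_mem' := by simp
      smul_mem' := by
        intro c f hf
        simp only [Set.mem_ofPred_eq, Pi.smul_apply, smul_eq_mul, ← Finset.mul_sum] at *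
        rw [hf, mul_zero] }
  have hA0 : ∀ f, f ∈ A0 ↔ ∑ σ, f σ = 0 := fun f => Iff.rfl
  have hMU : ∀ (U : Submodule ℝ (Perm X → ℝ)), (∀ g f, f ∈ U → R g f ∈ U) →
      ∀ f ∈ U, M f ∈ U := by
    intro U hU f hf
    have : M f = fun σ => av fun k => av fun k' => R (B k' * (B k)⁻¹) f σ := rfl
    rw [this]
    exact av_mem _ fun k => av_mem _ fun k' => hU _ _ hf
  have hA0R : ∀ g f, f ∈ A0 → R g f ∈ A0 := by
    intro g f hf
    rw [hA0] at *
    rw [← hf]
    exact Equiv.sum_comp (Equiv.mulRight g⁻¹) f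
  have hsum : ∀ (f g : Perm X → ℝ), ∑ σ, M f σ * g σ =
      av fun k => av fun k' => ∑ σ, R (B k' * (B k)⁻¹) f σ * g σ := by
    intro f g
    unfold av
    simp only [hM, av, Finset.sum_div, Finset.sum_mul]
    rw [Finset.sum_comm]
    refine Finset.sum_congr rfl fun k _ => ?_
    rw [Finset.sum_comm]
    refine Finset.sum_congr rfl fun k' _ => Finset.sum_congr rfl fun σ _ => ?_
    ring
  have hsym : ∀ f g : Perm X → ℝ, ∑ y, M f y * g y = ∑ y, f y * M g y := by
    intro f g
    have e2 : ∑ y, f y * M g y = ∑ y, M g y * f y :=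
      Finset.sum_congr rfl fun y _ => mul_comm _ _
    rw [e2, hsum, hsum, av_comm]
    refine congrArg av (funext fun k => congrArg av (funext fun k' => ?_))
    rw [sum_R_mul]
    refine Finset.sum_congr rfl fun σ _ => ?_
    rw [mul_inv_rev, inv_inv]
    ring
  have key := tev M hsym (LowS X J ⊓ A0) (fun f hf =>
    ⟨hMU _ (fun g f hf => low_R g hf) f hf.1, hMU _ hA0R f hf.2⟩) ν ?_ F
    ⟨hF, (hA0 F).2 (by
      unfold av at h0
      rcases div_eq_zero_iff.1 h0 with h | h
      · exact h
      · exact absurd h hc.ne')⟩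
  · have e1 : nsq (Mav B F) = (∑ σ, F σ * M F σ) / Fintype.card (Perm X) := by
      have e2 : ∑ σ, F σ * M F σ = av fun k => av fun k' =>
          ∑ σ, R (B k' * (B k)⁻¹) F σ * F σ := by
        rw [← hsum]
        exact Finset.sum_congr rfl fun σ _ => mul_comm _ _
      have e3 : ∀ k k', ∑ σ, R (B k' * (B k)⁻¹) F σ * F σ =
          ∑ σ, R (B k') F σ * R (B k) F σ := by
        intro k k'
        have : R (B k' * (B k)⁻¹) F = R (B k)⁻¹ (R (B k') F) := by rw [R_R]
        rw [this, sum_R_mul, inv_inv]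
      rw [e2]
      unfold nsq
      have e4 : ∀ σ, Mav B F σ ^ 2 =
          av fun k => av fun k' => R (B k') F σ * R (B k) F σ := by
        intro σ
        rw [pow_two]
        have e5 : ∀ k, (av fun k' => R (B k') F σ * R (B k) F σ) =
            Mav B F σ * R (B k) F σ := fun k => av_mul_right _ _
        simp only [e5]
        rw [av_mul_left]
        rfl
      simp only [e4, e3]
      rw [av_comm]
      simp only [av, Finset.sum_div]
      refine Finset.sum_congr rfl fun k _ => ?_
      rw [Finset.sum_comm]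
      refine Finset.sum_congr rfl fun k' _ => Finset.sum_congr rfl fun σ _ => ?_
      ring
    rw [e1]
    unfold nsq av
    rw [← mul_div_assoc]
    exact div_le_div_of_nonneg_right key hc.le
  · intro f hf hne l hl
    obtain ⟨x0, z, hx0⟩ := low_marg hf.1 hne
    have hsumf : ∑ σ, f σ = 0 := hf.2
    let φ : (Fin J ↪ X) → ℝ := fun x => mg f x z
    have hφ0 : av φ = 0 := by
      unfold av
      rw [show ∑ x, φ x = ∑ σ, f σ from sum_mg f z, hsumf, zero_div]
    have h1 := hB φ hφ0
    have hMf : ∀ x, l * φ x = av fun k => av fun k' => φ (tpe (B k' * (B k)⁻¹) x) := by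
      intro x
      have e1 : mg (M f) x z = l * mg f x z := by rw [hl, mg_smul]
      have e2 : mg (M f) x z = av fun k => av fun k' => mg (R (B k' * (B k)⁻¹) f) x z := by
        unfold mg
        simp only [hM]
        unfold av
        simp only [Finset.sum_div]
        have e3 : ∀ σ : Perm X, (if ∀ i, σ (x i) = z i then
            ∑ k, ∑ k', R (B k' * (B k)⁻¹) f σ / (Fintype.card ι : ℝ) / (Fintype.card ι : ℝ)
            else 0) = ∑ k, ∑ k', (if ∀ i, σ (x i) = z i then
              R (B k' * (B k)⁻¹) f σ else 0) / (Fintype.card ι : ℝ) / (Fintype.card ι : ℝ) := by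
          intro σ
          by_cases h : ∀ i, σ (x i) = z i
          · simp only [if_pos h]
          · simp only [if_neg h]
            simp
        simp only [e3]
        rw [Finset.sum_comm]
        refine Finset.sum_congr rfl fun k _ => ?_
        rw [Finset.sum_comm]
      rw [← e1, e2]
      refine congrArg av (funext fun k => congrArg av (funext fun k' => ?_))
      rw [mg_R]
    have h2 : l * nsq φ = nsq (fun x : Fin J ↪ X => av fun k =>
        φ (x.trans (B k).toEmbedding)) := by
      have e1 : l * nsq φ = av fun x => (l * φ x) * φ x := by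
        unfold nsq
        rw [← av_mul_left]
        refine congrArg av (funext fun x => ?_)
        ring
      rw [e1]
      simp only [hMf]
      have e2 : ∀ x, (av fun k => av fun k' => φ (tpe (B k' * (B k)⁻¹) x)) * φ x =
          av fun k => av fun k' => φ (tpe (B k' * (B k)⁻¹) x) * φ x := by
        intro x
        rw [← av_mul_right]
        refine congrArg av (funext fun k => ?_)
        rw [← av_mul_right]
      simp only [e2]
      rw [av_comm]
      have e3 : ∀ k, (av fun x => av fun k' => φ (tpe (B k' * (B k)⁻¹) x) * φ x) =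
          av fun x => av fun k' => φ (tpe (B k') x) * φ (tpe (B k) x) := by
        intro k
        rw [← av_tpe (B k)]
        refine congrArg av (funext fun x => congrArg av (funext fun k' => ?_))
        rw [← tpe_mul, inv_mul_cancel_right]
      simp only [e3]
      rw [av_comm]
      unfold nsq
      refine congrArg av (funext fun x => ?_)
      rw [pow_two]
      have e5 : ∀ k, (av fun k' => φ (tpe (B k') x) * φ (tpe (B k) x)) =
          (av fun k' => φ (tpe (B k') x)) * φ (tpe (B k) x) := fun k => av_mul_right _ _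
      simp only [e5]
      rw [av_mul_left]
      rfl
    rw [← h2] at h1
    have hpos : 0 < nsq φ := by
      rcases (nsq_nonneg φ).lt_or_eq with h | h
      · exact h
      · exfalso
        have := nsq_eq_zero h.symm
        exact hx0 (congrFun this x0)
    exact le_of_mul_le_mul_right h1 hpos

namespace T7

section envs

variable {X : Type} [Fintype X] [DecidableEq X]

omit [Fintype X] [DecidableEq X] in
theorem exists_tpe {J : ℕ} (x y : Fin J ↪ X) : ∃ g : Perm X, tpe g x = y := by
  have h := Equiv.Perm.isMultiplyPretransitive X J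
  obtain ⟨g, hg⟩ := h.exists_smul_eq x y
  exact ⟨g, by rw [← hg]; ext i; rfl⟩

/-- averaging over the symmetric group equals averaging over the tuples -/
theorem av_perm_tuple {J : ℕ} (f : (Fin J ↪ X) → ℝ) (y : Fin J ↪ X) :
    av (fun g : Perm X => f (tpe g y)) = av f := by
  have : Nonempty (Fin J ↪ X) := ⟨y⟩
  have h1 : ∀ y', av (fun g : Perm X => f (tpe g y')) = av (fun g : Perm X => f (tpe g y)) := by
    intro y'
    obtain ⟨h, hh⟩ := exists_tpe y y'
    rw [← hh]
    rw [← av_mulRight h (fun g : Perm X => f (tpe g y))]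
    refine congrArg av (funext fun g => ?_)
    rw [tpe_mul]
  have h2 : av (fun y' => av (fun g : Perm X => f (tpe g y'))) =
      av (fun g : Perm X => f (tpe g y)) := by
    simp only [h1]
    exact av_const _
  rw [← h2, av_comm]
  have h3 : (fun g : Perm X => av fun y' => f (tpe g y')) = fun _ => av f := by
    ext g
    exact av_tpe g f
  rw [h3]
  exact av_const _

/-- the first `K` coordinates -/
def rst4 {J K : ℕ} (h : K ≤ J) (x : Fin J ↪ X) : Fin K ↪ X :=
  (Fin.castLEEmb h).trans x

omit [Fintype X] [DecidableEq X] in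
theorem rst4_tpe {J K : ℕ} (h : K ≤ J) (g : Perm X) (x : Fin J ↪ X) :
    rst4 h (tpe g x) = tpe g (rst4 h x) := by
  ext i; rfl

theorem av_rst4 {J K : ℕ} (h : K ≤ J) (hJ : J ≤ Fintype.card X) (f : (Fin K ↪ X) → ℝ) :
    av (fun x : Fin J ↪ X => f (rst4 h x)) = av f := by
  have : Nonempty (Fin J ↪ X) := by
    rw [Function.Embedding.nonempty_iff_card_le, Fintype.card_fin]
    exact hJ
  have h1 : ∀ g : Perm X, av (fun x : Fin J ↪ X => f (rst4 h x)) =
      av (fun x : Fin J ↪ X => f (tpe g (rst4 h x))) := by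
    intro g
    rw [← av_tpe g (fun x : Fin J ↪ X => f (rst4 h x))]
    refine congrArg av (funext fun x => ?_)
    rw [rst4_tpe]
  have h2 : av (fun x : Fin J ↪ X => f (rst4 h x)) =
      av (fun g : Perm X => av (fun x : Fin J ↪ X => f (tpe g (rst4 h x)))) := by
    have : (fun g : Perm X => av (fun x : Fin J ↪ X => f (tpe g (rst4 h x)))) =
        fun _ => av (fun x : Fin J ↪ X => f (rst4 h x)) := by
      ext g; exact (h1 g).symm
    rw [this]
    exact (av_const _).symm
  rw [h2, av_comm]
  have h3 : (fun x : Fin J ↪ X => av fun g : Perm X => f (tpe g (rst4 h x))) =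
      fun _ => av f := by
    ext x
    exact av_perm_tuple f _
  rw [h3]
  exact av_const _

end envs

/-- one step on functions of tuples -/
noncomputable def tstep {X ι : Type} [Fintype ι] {J : ℕ} (B : ι → Perm X)
    (f : (Fin J ↪ X) → ℝ) : (Fin J ↪ X) → ℝ := fun x => av fun k => f (tpe (B k) x)

theorem tstep_iter {X ι : Type} [Fintype ι] {J : ℕ} (B : ι → Perm X) (t : ℕ)
    (f : (Fin J ↪ X) → ℝ) (x : Fin J ↪ X) :
    (tstep B)^[t] f x = av fun v : Fin t → ι => f (tpe (wd B v) x) := by
  induction t generalizing f with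
  | zero =>
    simp only [Function.iterate_zero, id]
    have : ∀ v : Fin 0 → ι, f (tpe (wd B v) x) = f x := fun v => by rw [wd_zero, tpe_one]
    simp only [this]
    rw [av_const]
  | succ t ih =>
    rw [Function.iterate_succ_apply, ih, av_cons, av_comm]
    refine congrArg av (funext fun v => ?_)
    unfold tstep
    refine congrArg av (funext fun k => ?_)
    rw [wd_cons, tpe_mul]

end T7

open T7 in
theorem env {X ι : Type} [Fintype X] [DecidableEq X] [Fintype ι] [Nonempty ι]
    (B : ι → Perm X) (J : ℕ) (hJ : 4 ≤ J) (hJX : J ≤ Fintype.card X) (ε : ℝ) (hε : 0 ≤ ε)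
    (hB : ∀ φ : (Fin J ↪ X) → ℝ, av φ = 0 →
      nsq (fun x : Fin J ↪ X => av fun k => φ (x.trans (B k).toEmbedding)) ≤ ε ^ 2 * nsq φ)
    (ℓ : ℕ) (x z : Fin 4 ↪ X) :
    |av (fun v : Fin ℓ → ι => if ∀ i, wd B v (x i) = z i then (1 : ℝ) else 0)
      - 1 / (Fintype.card (Fin 4 ↪ X) : ℝ)| ≤ ε ^ ℓ := by
  classical
  have : Nonempty (Fin 4 ↪ X) := ⟨x⟩
  obtain ⟨n4, hn4⟩ : ∃ n4 : ℝ, n4 = (Fintype.card (Fin 4 ↪ X) : ℝ) := ⟨_, rfl⟩
  have hn0 : 0 < n4 := by rw [hn4]; exact_mod_cast Fintype.card_pos
  -- contraction on functions of four positions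
  have hstep : ∀ f : (Fin 4 ↪ X) → ℝ, av f = 0 →
      av (tstep B f) = 0 ∧ nsq (tstep B f) ≤ ε ^ 2 * nsq f := by
    intro f hf
    refine ⟨?_, ?_⟩
    · unfold tstep
      rw [av_comm]
      have : (fun k : ι => av fun y => f (tpe (B k) y)) = fun _ => (0 : ℝ) := by
        ext k
        rw [av_tpe, hf]
      rw [this]
      exact av_zero
    · have h1 := hB (fun y => f (rst4 hJ y)) (by rw [av_rst4 hJ hJX, hf])
      have h2 : nsq (fun y : Fin J ↪ X => f (rst4 hJ y)) = nsq f :=
        av_rst4 hJ hJX (fun y => f y ^ 2)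
      have h3 : nsq (fun y : Fin J ↪ X => av fun k =>
          f (rst4 hJ (y.trans (B k).toEmbedding))) = nsq (tstep B f) := by
        have h4 : (fun y : Fin J ↪ X => av fun k => f (rst4 hJ (y.trans (B k).toEmbedding))) =
            fun y => tstep B f (rst4 hJ y) := by
          ext y
          unfold tstep
          refine congrArg av (funext fun k => ?_)
          rw [← rst4_tpe]
          rfl
        rw [h4]
        exact av_rst4 hJ hJX (fun y => tstep B f y ^ 2)
      rw [h2] at h1
      rw [← h3]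
      exact h1
  have hiter : ∀ (t : ℕ) (f : (Fin 4 ↪ X) → ℝ), av f = 0 →
      nsq ((tstep B)^[t] f) ≤ (ε ^ t) ^ 2 * nsq f := by
    intro t
    induction t with
    | zero => intro f _; simp
    | succ t ih =>
      intro f hf
      rw [Function.iterate_succ_apply]
      obtain ⟨a1, a2⟩ := hstep f hf
      refine (ih _ a1).trans ?_
      calc (ε ^ t) ^ 2 * nsq (tstep B f) ≤ (ε ^ t) ^ 2 * (ε ^ 2 * nsq f) :=
            mul_le_mul_of_nonneg_left a2 (by positivity)
        _ = (ε ^ (t + 1)) ^ 2 * nsq f := by ring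
  -- the test function
  let f : (Fin 4 ↪ X) → ℝ := fun y => (if ∀ i, y i = z i then (1 : ℝ) else 0) - 1 / n4
  have hind : av (fun y : Fin 4 ↪ X => if ∀ i, y i = z i then (1 : ℝ) else 0) = 1 / n4 := by
    unfold av
    rw [← hn4]
    congr 1
    rw [Finset.sum_eq_single z]
    · simp
    · intro y _ hy
      rw [if_neg]
      intro h
      exact hy (Function.Embedding.ext h)
    · intro h
      exact absurd (Finset.mem_univ _) h
  have hf0 : av f = 0 := by
    change av (fun y : Fin 4 ↪ X => (if ∀ i, y i = z i then (1 : ℝ) else 0) - 1 / n4) = 0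
    rw [av_sub, hind, av_const, sub_self]
  have hf2 : nsq f ≤ 1 / n4 := by
    have e1 : nsq f = av (fun y : Fin 4 ↪ X =>
        (1 - 2 / n4) * (if ∀ i, y i = z i then (1 : ℝ) else 0) + (1 / n4) ^ 2) := by
      unfold nsq
      refine congrArg av (funext fun y => ?_)
      change ((if ∀ i, y i = z i then (1 : ℝ) else 0) - 1 / n4) ^ 2 = _
      by_cases h : ∀ i, y i = z i
      · rw [if_pos h]; ring
      · rw [if_neg h]; ring
    rw [e1, av_add, av_mul_left, hind, av_const]
    have e2 : (1 - 2 / n4) * (1 / n4) + (1 / n4) ^ 2 = 1 / n4 - (1 / n4) ^ 2 := by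
      field_simp; ring
    rw [e2]
    have : 0 ≤ (1 / n4) ^ 2 := by positivity
    linarith
  have hval : av (fun v : Fin ℓ → ι => if ∀ i, wd B v (x i) = z i then (1 : ℝ) else 0)
      - 1 / n4 = (tstep B)^[ℓ] f x := by
    rw [tstep_iter]
    change _ = av (fun v : Fin ℓ → ι =>
      (if ∀ i, tpe (wd B v) x i = z i then (1 : ℝ) else 0) - 1 / n4)
    rw [av_sub, av_const]
    rfl
  rw [← hn4, hval]
  have h5 : ((tstep B)^[ℓ] f x) ^ 2 ≤ (ε ^ ℓ) ^ 2 := by
    have e1 : ((tstep B)^[ℓ] f x) ^ 2 ≤ n4 * nsq ((tstep B)^[ℓ] f) := by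
      unfold nsq av
      rw [← hn4, mul_div_cancel₀ _ hn0.ne']
      exact Finset.single_le_sum (f := fun y => ((tstep B)^[ℓ] f y) ^ 2)
        (fun y _ => sq_nonneg _) (Finset.mem_univ x)
    have e2 : n4 * nsq ((tstep B)^[ℓ] f) ≤ n4 * ((ε ^ ℓ) ^ 2 * (1 / n4)) := by
      apply mul_le_mul_of_nonneg_left _ hn0.le
      exact (hiter ℓ f hf0).trans (mul_le_mul_of_nonneg_left hf2 (by positivity))
    have e3 : n4 * ((ε ^ ℓ) ^ 2 * (1 / n4)) = (ε ^ ℓ) ^ 2 := by
      field_simp
    linarith
  exact abs_le_of_sq_le_sq h5 (by positivity)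

end Pool.Agent.H9.Low
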