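import Pool.Agent.H9.Low.MSc

/-!
# T9: hidden blocks contract the part orthogonal to the functions invariant under the bulk
-/

namespace Pool.Agent.H9.Low

open Equiv Finset

section gen

variable {G K : Type*} [Group G] [Group K]

/-- restriction to a fibre -/
private def t9fib (κ : K →* G) (F : G → ℝ) (σ : G) : K → ℝ := fun k => F (σ * κ k)

private theorem t9_Mav_fib (κ : K →* G) {ι : Type*} [Fintype ι] (s : ι → K) (F : G → ℝ) (σ : G) :
    t9fib κ (Mav (fun i => κ (s i)) F) σ = Mav s (t9fib κ F σ) := by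
  ext k
  simp only [t9fib, Mav, map_mul, map_inv, mul_assoc]

private theorem t9_R_fib (κ : K →* G) (g : K) (F : G → ℝ) (σ : G) :
    t9fib κ (R (κ g) F) σ = R g (t9fib κ F σ) := by
  ext k
  simp only [t9fib, R, map_mul, map_inv, mul_assoc]

private theorem t9_wd (κ : K →* G) {ι : Type*} (s : ι → K) {t : ℕ} (v : Fin t → ι) :
    wd (fun i => κ (s i)) v = κ (wd s v) := by
  unfold wd
  rw [map_list_prod, List.map_ofFn]
  rfl

private theorem t9_nsq [Fintype G] [Fintype K] (κ : K →* G) (F : G → ℝ) :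
    nsq F = av fun σ => nsq (t9fib κ F σ) := by
  unfold nsq
  rw [← av_EK κ (fun σ => F σ ^ 2)]
  rfl

/-- a contraction on the fibres gives a contraction on the functions with fibre averages `0` -/
private theorem t9_main [Fintype G] [Fintype K] (κ : K →* G) {V : Type*} [Fintype V]
    (c : ℝ) (T : V → (G → ℝ) → (G → ℝ)) (T' : V → (K → ℝ) → (K → ℝ))
    (hT : ∀ v F σ, t9fib κ (T v F) σ = T' v (t9fib κ F σ))
    (hc : ∀ F : K → ℝ, av F = 0 → av (fun v => nsq (T' v F)) ≤ c * nsq F)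
    (F : G → ℝ) (hF : ∀ σ, EK κ F σ = 0) :
    av (fun v => nsq (T v F)) ≤ c * nsq F := by
  have h1 : (fun v => nsq (T v F)) = fun v => av fun σ => nsq (T' v (t9fib κ F σ)) := by
    ext v
    rw [t9_nsq κ (T v F)]
    congr 1; ext σ
    rw [hT]
  rw [h1, av_comm, t9_nsq κ F, ← av_mul_left]
  exact av_le_av fun σ => hc _ (hF σ)

end gen

section

variable {β I : Type} [Fintype β] [DecidableEq β] [Fintype I] [DecidableEq I] {w w2 d : ℕ}

omit [Fintype β] [DecidableEq β] [Fintype I] [DecidableEq I] in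
private theorem t9_zt_mul (z z' : I → Bool) :
    (zt z : Perm (Pos β I d)) * zt z' = zt (fun i => xor (z' i) (z i)) := by
  ext x
  rcases x with x | ⟨i, b⟩ | x
  · rfl
  · simp [Perm.mul_apply]
  · rfl

omit [Fintype β] [DecidableEq β] [Fintype I] [DecidableEq I] in
private theorem t9_zt_inv (z : I → Bool) : (zt z : Perm (Pos β I d))⁻¹ = zt z := by
  refine inv_eq_of_mul_eq_one_left ?_
  rw [t9_zt_mul]
  ext x
  rcases x with x | ⟨i, b⟩ | x
  · rfl
  · simp
  · rfl

omit [Fintype β] [DecidableEq β] [Fintype I] [DecidableEq I] in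
private theorem t9_zt_comm (z : I → Bool) (h : Perm β) :
    (zt z : Perm (Pos β I d)) * inlP β (Out I d) h = inlP β (Out I d) h * zt z := by
  ext x
  rcases x with x | ⟨i, b⟩ | x
  · rfl
  · rfl
  · rfl

private theorem t9_EZ_R (S : HSys β I w w2 d) (y : Fin w ⊕ Fin w) (x : II w w2)
    (hx : ∀ z : Fin w ⊕ Fin w → Bool,
      (fun i => xor (decide (i = x)) (ext z i)) = ext (w2 := w2) (fun y' => xor (decide (y' = y)) (z y')))
    (F : Perm (Pos β I d) → ℝ) :
    S.EZ (R (S.g (S.e x)) F) = R (inlP β (Out I d) (S.θ (S.e x))) (S.EZ F) := by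
  ext σ
  unfold HSys.EZ R
  let E : (Fin w ⊕ Fin w → Bool) ≃ (Fin w ⊕ Fin w → Bool) :=
    ⟨fun z y' => xor (decide (y' = y)) (z y'), fun z y' => xor (decide (y' = y)) (z y'),
      fun z => by ext y'; simp, fun z => by ext y'; simp⟩
  rw [← av_comp_equiv E]
  congr 1; ext z
  congr 1
  have h1 : (S.g (S.e x))⁻¹ = zt (fun j => decide (j = S.e x)) *
      (inlP β (Out I d) (S.θ (S.e x)))⁻¹ := by
    unfold Sys.g
    rw [mul_inv_rev, t9_zt_inv]
  have h2 : (zt (fun i => ext (E z) (S.e.symm i)) : Perm (Pos β I d)) =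
      zt (fun i => ext z (S.e.symm i)) * zt (fun j => decide (j = S.e x)) := by
    rw [t9_zt_mul]
    congr 1
    ext i
    have h3 := congrFun (hx z) (S.e.symm i)
    have h4 : decide (S.e.symm i = x) = decide (i = S.e x) := by
      rw [decide_eq_decide]; exact S.e.symm_apply_eq
    rw [h4] at h3
    exact h3.symm
  have h5 : (zt (fun j => decide (j = S.e x)) : Perm (Pos β I d)) *
      zt (fun j => decide (j = S.e x)) = 1 := by
    have h6 := t9_zt_inv (β := β) (d := d) (fun j => decide (j = S.e x))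
    have h8 := mul_inv_cancel (zt (fun j => decide (j = S.e x)) : Perm (Pos β I d))
    rw [h6] at h8
    exact h8
  have h7 := t9_zt_comm (d := d) (fun i => ext z (S.e.symm i)) (S.θ (S.e x))⁻¹
  rw [map_inv] at h7
  show σ * zt (fun i => ext (E z) (S.e.symm i)) * (S.g (S.e x))⁻¹ =
    σ * (inlP β (Out I d) (S.θ (S.e x)))⁻¹ * zt (fun i => ext z (S.e.symm i))
  rw [h1, h2, mul_assoc, mul_assoc, ← mul_assoc (zt (fun j => decide (j = S.e x))), h5, one_mul,
    h7, mul_assoc]

private theorem t9_EZ_R_A (S : HSys β I w w2 d) (j : Fin w) (F : Perm (Pos β I d) → ℝ) :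
    S.EZ (R (S.A1 j) F) = R (inlP β (Out I d) (S.θ (S.e (Sum.inl j)))) (S.EZ F) := by
  refine t9_EZ_R S (Sum.inl j) (Sum.inl j) (fun z => ?_) F
  ext i
  rcases i with i | i | i <;> simp [ext]

private theorem t9_EZ_R_B (S : HSys β I w w2 d) (j : Fin w) (F : Perm (Pos β I d) → ℝ) :
    S.EZ (R (S.B1 j) F)
      = R (inlP β (Out I d) (S.θ (S.e (Sum.inr (Sum.inl j))))) (S.EZ F) := by
  refine t9_EZ_R S (Sum.inr j) (Sum.inr (Sum.inl j)) (fun z => ?_) F
  ext i
  rcases i with i | i | i <;> simp [ext]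

private theorem t9_EZ_av (S : HSys β I w w2 d) {ι : Type*} [Fintype ι]
    (F : ι → Perm (Pos β I d) → ℝ) :
    S.EZ (fun σ => av fun i => F i σ) = fun σ => av fun i => S.EZ (F i) σ := by
  ext σ
  unfold HSys.EZ
  rw [av_comm]

private theorem t9_EZ_word (S : HSys β I w w2 d) {t : ℕ} (v : Fin t → Fin w)
    (F : Perm (Pos β I d) → ℝ) :
    S.EZ (R (wd S.B1 v) F) =
      R (wd (fun j => inlP β (Out I d) (S.θ (S.e (Sum.inr (Sum.inl j))))) v) (S.EZ F) := by
  induction t generalizing F with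
  | zero => rw [wd_zero, wd_zero, R_one, R_one]
  | succ t ih =>
    rw [← Fin.cons_self_tail v, wd_cons, wd_cons, ← R_R, ← R_R, ih, t9_EZ_R_B]

private theorem t9_EZ_hb (S : HSys β I w w2 d) {ℓ : ℕ} (v : Fin ℓ → Fin w)
    (F : Perm (Pos β I d) → ℝ) :
    S.EZ (S.hb v F) =
      Mav (fun j => inlP β (Out I d) (S.θ (S.e (Sum.inr (Sum.inl j)))))
        (Mav (fun j => inlP β (Out I d) (S.θ (S.e (Sum.inl j))))
          (R (wd (fun j => inlP β (Out I d) (S.θ (S.e (Sum.inr (Sum.inl j))))) v) (S.EZ F))) := by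
  unfold HSys.hb
  have h1 : ∀ F' : Perm (Pos β I d) → ℝ, S.EZ (Mav S.B1 F') =
      Mav (fun j => inlP β (Out I d) (S.θ (S.e (Sum.inr (Sum.inl j))))) (S.EZ F') := by
    intro F'
    have := t9_EZ_av S (fun i => R (S.B1 i) F')
    refine this.trans ?_
    ext σ
    simp only [t9_EZ_R_B]
    rfl
  have h2 : ∀ F' : Perm (Pos β I d) → ℝ, S.EZ (Mav S.A1 F') =
      Mav (fun j => inlP β (Out I d) (S.θ (S.e (Sum.inl j)))) (S.EZ F') := by
    intro F'
    have := t9_EZ_av S (fun i => R (S.A1 i) F')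
    refine this.trans ?_
    ext σ
    simp only [t9_EZ_R_A]
    rfl
  rw [h1, h2, t9_EZ_word]

theorem hb_contr {β I : Type} [Fintype β] [DecidableEq β] [Fintype I] [DecidableEq I]
    {w w2 d : ℕ} (S : HSys β I w w2 d) (hw : 1 ≤ w) (ℓ : ℕ) (κ : ℝ) (hκ : 0 ≤ κ)
    (hMS : MSc (fun j => S.θ (S.e (Sum.inl j))) (fun j => S.θ (S.e (Sum.inr (Sum.inl j)))) ℓ κ)
    (F : Perm (Pos β I d) → ℝ) :
    av (fun v : Fin ℓ → Fin w =>
      nsq (fun σ => S.EZ (S.hb v F) σ - EH (S.EZ (S.hb v F)) σ))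
      ≤ κ * nsq (fun σ => S.EZ F σ - EH (S.EZ F) σ) := by
  haveI : Nonempty (Fin w) := ⟨⟨0, hw⟩⟩
  set ka := inlP β (Out I d) with hka
  set a : Fin w → Perm β := fun j => S.θ (S.e (Sum.inl j)) with ha
  set b : Fin w → Perm β := fun j => S.θ (S.e (Sum.inr (Sum.inl j))) with hb
  -- the operators
  let T : (Fin ℓ → Fin w) → (Perm (Pos β I d) → ℝ) → (Perm (Pos β I d) → ℝ) := fun v F' =>
    Mav (fun j => ka (b j)) (Mav (fun j => ka (a j)) (R (wd (fun j => ka (b j)) v) F'))
  let T' : (Fin ℓ → Fin w) → (Perm β → ℝ) → (Perm β → ℝ) := fun v F' =>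
    Mav b (Mav a (R (wd b v) F'))
  have hTT' : ∀ v F' σ, t9fib ka (T v F') σ = T' v (t9fib ka F' σ) := by
    intro v F' σ
    simp only [T, T']
    rw [t9_Mav_fib, t9_Mav_fib, t9_wd, t9_R_fib]
  have hsub : ∀ v F' F'', T v (fun σ => F' σ - F'' σ) = fun σ => T v F' σ - T v F'' σ := by
    intro v F' F''
    simp only [T]
    have h1 : R (wd (fun j => ka (b j)) v) (fun σ => F' σ - F'' σ) =
        fun σ => R (wd (fun j => ka (b j)) v) F' σ - R (wd (fun j => ka (b j)) v) F'' σ := rfl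
    rw [h1, Mav_sub, Mav_sub]
  have hEHR : ∀ (g : Perm β) (F' : Perm (Pos β I d) → ℝ), EH (R (ka g) F') = EH F' := by
    intro g F'
    ext σ
    have h1 := av_mulRight g⁻¹ (fun h : Perm β => F' (σ * ka h))
    have h2 : EH F' σ = av fun h : Perm β => F' (σ * ka h) := rfl
    rw [h2, ← h1]
    show (av fun h : Perm β => R (ka g) F' (σ * ka h)) = _
    congr 1; ext h
    simp only [R, map_mul, map_inv, mul_assoc]
  have hEHM : ∀ (s : Fin w → Perm β) (F' : Perm (Pos β I d) → ℝ),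
      EH (Mav (fun i => ka (s i)) F') = EH F' := by
    intro s F'
    have h1 : EH (Mav (fun i => ka (s i)) F') =
        fun σ => av fun i => EH (R (ka (s i)) F') σ := by
      ext σ
      show (av fun h : Perm β => av fun i => F' (σ * ka h * (ka (s i))⁻¹)) = _
      rw [av_comm]
      rfl
    rw [h1]
    ext σ
    simp only [hEHR]
    exact av_const _
  have hEHT : ∀ v F', EH (T v F') = EH F' := by
    intro v F'
    simp only [T]
    rw [hEHM, hEHM, t9_wd, hEHR]
  have hinv : ∀ v (F' : Perm (Pos β I d) → ℝ), T v (EH F') = EH F' := by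
    intro v F'
    have hR : ∀ g : Perm β, R (ka g) (EH F') = EH F' := by
      intro g
      ext σ
      have := EK_mul_right ka F' σ g⁻¹
      rw [map_inv] at this
      exact this
    have hM : ∀ s : Fin w → Perm β, Mav (fun i => ka (s i)) (EH F') = EH F' := by
      intro s
      ext σ
      have h1 : Mav (fun i => ka (s i)) (EH F') σ = av fun i => R (ka (s i)) (EH F') σ := rfl
      rw [h1]
      simp only [hR]
      exact av_const _
    simp only [T]
    rw [t9_wd, hR, hM, hM]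
  have hkey : ∀ v : Fin ℓ → Fin w,
      (fun σ => S.EZ (S.hb v F) σ - EH (S.EZ (S.hb v F)) σ) =
        T v (fun σ => S.EZ F σ - EH (S.EZ F) σ) := by
    intro v
    have h1 : S.EZ (S.hb v F) = T v (S.EZ F) := t9_EZ_hb S v F
    rw [h1, hEHT, hsub, hinv]
  have hmain := t9_main ka κ T T' hTT' (fun F' hF' => hMS F' hF')
    (fun σ => S.EZ F σ - EH (S.EZ F) σ) (by
      intro σ
      have h1 := EK_sub ka (S.EZ F) (EH (S.EZ F))
      have h2 : EK ka (EH (S.EZ F)) = EK ka (S.EZ F) := EK_idem ka (S.EZ F)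
      rw [h1, h2]
      exact sub_self _)
  simp only [hkey]
  exact hmain

end

end Pool.Agent.H9.Low
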