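import Pool.Agent.H9.Low.T22
import Pool.Agent.H9.Low.Defs2

/-!
# The final total variation bound, second form, from its inputs
-/

namespace Pool.Agent.H9.Low

open Equiv Finset

variable {β I : Type} [Fintype β] [DecidableEq β] [Fintype I] [DecidableEq I] {w w2 d : ℕ}

theorem x5_dens_Dm (S : Sys β I d) (T : ℕ) {F : Perm (Pos β I d) → ℝ} (hF : Dens F) :
    Dens (S.Dm T F) := by
  have h1 : ∀ v : Fin T → Option I, Dens (S.st v F) := by
    intro v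
    unfold Sys.st
    by_cases h : ∀ i, v i ≠ none
    · rw [if_pos h]
      exact dens_EK (inlP β (Out I d)) (dens_R hF _)
    · rw [if_neg h]
      exact dens_R hF _
  refine ⟨fun σ => av_nonneg fun v => (h1 v).1 σ, ?_⟩
  unfold Sys.Dm
  rw [av_comm]
  have h2 : (fun v : Fin T → Option I => av fun σ => S.st v F σ) = fun _ => 1 := by
    funext v
    exact (h1 v).2
  rw [h2]
  exact av_const 1

theorem x5_dens_Dm_iter (S : Sys β I d) (T r : ℕ) {F : Perm (Pos β I d) → ℝ} (hF : Dens F) :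
    Dens ((S.Dm T)^[r] F) := by
  induction r with
  | zero => exact hF
  | succ r ih =>
    rw [Function.iterate_succ_apply']
    exact x5_dens_Dm S T ih

/-- replacement of the walk by the modified walk, in `L1` (from the proof of `final_tv`) -/
theorem rep_tv (S : HSys β I w w2 d) (hβ : Nonempty β) (J D t2 T r : ℕ) (hD0 : 0 < D)
    (hD : ∀ V : Submodule ℝ (Perm (Pos β I d) → ℝ), V ≤ HH (Pos β I d) J → V ≠ ⊥ →
      (∀ (g : Perm (Pos β I d)) (F : Perm (Pos β I d) → ℝ), F ∈ V → Lt g F ∈ V) →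
      D ≤ Module.finrank ℝ V)
    (C ε : ℝ) (hC : 1 ≤ C) (ρ : Perm (Pos β I d) → ℝ) (hρ : ∀ σ, 0 ≤ ρ σ) (hρ1 : av ρ ≤ ε)
    (hfC : ∀ σ, S.P^[t2] (dl (Perm (Pos β I d))) σ ≤ C + ρ σ)
    (hlow : ∀ F ∈ UU (Pos β I d) J,
      nsq (fun σ => S.Po^[T] F σ - EH (S.Po^[T] F) σ) ≤ (1 / 4) ^ T * nsq F) :
    av (fun σ => |S.P^[2 * t2 + r * T] (dl (Perm (Pos β I d))) σ
        - (S.Dm T)^[r] (S.P^[2 * t2] (dl (Perm (Pos β I d)))) σ|) ≤
      2 * (2 * ε + C / √D) + r * (1 / 2) ^ T * √C := by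
  obtain ⟨low, hlU, hlC, hl1⟩ := quasi J D hD0 hD _ ρ C ε hC
    (t22_iter_dens S.gl t2 dens_dl) hρ hρ1 hfC
  have hUU : ∀ (g : Perm (Pos β I d)) (F : Perm (Pos β I d) → ℝ), F ∈ UU (Pos β I d) J →
      R g F ∈ UU (Pos β I d) J := fun g _ hF => t19_UU_R J g hF
  have hcv : cv ((Mav S.gl)^[t2] (dl (Perm (Pos β I d))))
      ((Mav S.gl)^[t2] (dl (Perm (Pos β I d)))) = S.P^[2 * t2] (dl (Perm (Pos β I d))) := by
    rw [t22_cv S.gl t2, ← Function.iterate_add_apply, two_mul]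
    rfl
  rw [hcv] at hl1
  rw [add_comm (2 * t2), Function.iterate_add_apply]
  set f := S.P^[2 * t2] (dl (Perm (Pos β I d))) with hf
  set P := S.P with hP
  have hPM : P = Mav S.gl := rfl
  have htel : ∀ k : ℕ, av (fun σ => |P^[k * T] low σ - (S.Dm T)^[k] low σ|) ≤
      k * (1 / 2) ^ T * √C := by
    intro k
    induction k with
    | zero => simp [av]
    | succ k ih =>
      have hmem : P^[k * T] low ∈ UU (Pos β I d) J := t22_iter_mem S.toSys J hUU _ _ hlU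
      have hn : nsq (P^[k * T] low) ≤ C := by
        refine le_trans ?_ hlC
        rw [hPM]
        exact t22_iter_nsq S.gl _ _
      have h1 : ∀ σ, P^[(k + 1) * T] low σ - (S.Dm T)^[k + 1] low σ =
          (P^[T] (P^[k * T] low) σ - S.Dm T (P^[k * T] low) σ) +
            S.Dm T (fun σ => P^[k * T] low σ - (S.Dm T)^[k] low σ) σ := by
        intro σ
        rw [t22_Dm_sub, Function.iterate_succ_apply', ← Function.iterate_add_apply,
          show T + k * T = (k + 1) * T by ring]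
        ring
      simp only [h1]
      refine (t22_abs_add _ _).trans ?_
      have h2 : av (fun σ => |P^[T] (P^[k * T] low) σ - S.Dm T (P^[k * T] low) σ|) ≤
          (1 / 2) ^ T * √C := by
        refine (av_abs_le_sqrt _).trans ?_
        have h3 := t22_diff_nsq S.toSys T (P^[k * T] low) _ (hlow _ hmem)
        refine (Real.sqrt_le_sqrt h3).trans ?_
        rw [Real.sqrt_mul (by positivity), show ((1 : ℝ) / 4) ^ T = ((1 / 2) ^ T) ^ 2 by
          rw [← pow_mul, mul_comm T 2, pow_mul]; norm_num, Real.sqrt_sq (by positivity)]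
        exact mul_le_mul_of_nonneg_left (Real.sqrt_le_sqrt hn) (by positivity)
      have h4 := t22_Dm_abs S.toSys T (fun σ => P^[k * T] low σ - (S.Dm T)^[k] low σ)
      push_cast
      linarith
  have hA : av (fun σ => |P^[r * T] f σ - P^[r * T] low σ|) ≤ 2 * ε + C / √D := by
    have h1 : ∀ σ, P^[r * T] f σ - P^[r * T] low σ =
        (Mav S.gl)^[r * T] (fun σ => f σ - low σ) σ := by
      intro σ
      rw [t22_iter_sub, hPM]
    simp only [h1]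
    exact (t22_iter_abs S.gl _ _).trans hl1
  have hB : av (fun σ => |(S.Dm T)^[r] low σ - (S.Dm T)^[r] f σ|) ≤ 2 * ε + C / √D := by
    have h1 : ∀ σ, |(S.Dm T)^[r] low σ - (S.Dm T)^[r] f σ| =
        |(S.Dm T)^[r] (fun σ => f σ - low σ) σ| := by
      intro σ
      rw [t22_Dm_iter_sub, abs_sub_comm]
    simp only [h1]
    exact (t22_Dm_iter_abs S.toSys T r _).trans hl1
  have hsum : ∀ σ, P^[r * T] f σ - (S.Dm T)^[r] f σ =
      (P^[r * T] f σ - P^[r * T] low σ) +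
        ((P^[r * T] low σ - (S.Dm T)^[r] low σ) +
          ((S.Dm T)^[r] low σ - (S.Dm T)^[r] f σ)) := by
    intro σ
    ring
  simp only [hsum]
  have s1 := t22_abs_add (fun σ => P^[r * T] f σ - P^[r * T] low σ)
    (fun σ => (P^[r * T] low σ - (S.Dm T)^[r] low σ) +
      ((S.Dm T)^[r] low σ - (S.Dm T)^[r] f σ))
  have s2 := t22_abs_add (fun σ => P^[r * T] low σ - (S.Dm T)^[r] low σ)
    (fun σ => (S.Dm T)^[r] low σ - (S.Dm T)^[r] f σ)
  have h5 := htel r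
  linarith

/-- `final_tv2` with `tup_close` and `two_laws` as hypotheses -/
theorem final_tv2_of (S : HSys β I w w2 d) (hβ : Nonempty β) (J D t2 T k r : ℕ) (hD0 : 0 < D)
    (hclose : ∀ (e : ℝ), 0 ≤ e →
      (∀ φ : (Fin (d + 1) ↪ Pos β I d) → ℝ, (∀ y, |φ y| ≤ 1) → ∀ x,
        |(Qo S.toSys)^[T] φ x - EHt ((Qo S.toSys)^[T] φ) x| ≤ e) →
      TMc (d + 1) (S.P^[k * T] (dl (Perm (Pos β I d))))
        ((S.Dm T)^[k] (dl (Perm (Pos β I d)))) (k * e))
    (htwo : ∀ (F G : Perm (Pos β I d) → ℝ) (_ : Dens F) (_ : Dens G) (δ q : ℝ) (_ : 0 ≤ δ)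
      (_ : TMc (d + 1) F G δ) (_ : q ≤ 1)
      (_ : 1 - ((Fintype.card I : ℝ) / (Fintype.card I + 1)) ^ T ≤ q),
      av (fun σ => |(S.Dm T)^[r] F σ - (S.Dm T)^[r] G σ|) ≤
        δ + 2 * ∑ k ∈ range r, q ^ k * tot ((S.WW T)^[r - 1 - k] (n0 β I d)) + 2 * q ^ r)
    (hD : ∀ V : Submodule ℝ (Perm (Pos β I d) → ℝ), V ≤ HH (Pos β I d) J → V ≠ ⊥ →
      (∀ (g : Perm (Pos β I d)) (F : Perm (Pos β I d) → ℝ), F ∈ V → Lt g F ∈ V) →
      D ≤ Module.finrank ℝ V)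
    (C ε : ℝ) (hC : 1 ≤ C) (ρ : Perm (Pos β I d) → ℝ) (hρ : ∀ σ, 0 ≤ ρ σ) (hρ1 : av ρ ≤ ε)
    (hfC : ∀ σ, S.P^[t2] (dl (Perm (Pos β I d))) σ ≤ C + ρ σ)
    (hlow : ∀ F ∈ UU (Pos β I d) J,
      nsq (fun σ => S.Po^[T] F σ - EH (S.Po^[T] F) σ) ≤ (1 / 4) ^ T * nsq F)
    (e q : ℝ) (he : 0 ≤ e)
    (hQ : ∀ φ : (Fin (d + 1) ↪ Pos β I d) → ℝ, (∀ y, |φ y| ≤ 1) → ∀ x,
      |(Qo S.toSys)^[T] φ x - EHt ((Qo S.toSys)^[T] φ) x| ≤ e) (hq1 : q ≤ 1)
    (hq : 1 - ((Fintype.card I : ℝ) / (Fintype.card I + 1)) ^ T ≤ q)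
    (hk : k * T = 2 * t2) (t : ℕ) (ht : (k + r) * T ≤ t) :
    av (fun σ => |S.P^[t] (dl (Perm (Pos β I d))) σ - 1|) ≤
      2 * (2 * ε + C / √D) + r * (1 / 2) ^ T * √C
        + (k * e + 2 * ∑ j ∈ range r, q ^ j * tot ((S.WW T)^[r - 1 - j] (n0 β I d)) + 2 * q ^ r)
        + tot ((S.WW T)^[k + r] (fun _ => 1)) := by
  have hrep := rep_tv S hβ J D t2 T r hD0 hD C ε hC ρ hρ hρ1 hfC hlow
  have hF : Dens (S.P^[k * T] (dl (Perm (Pos β I d)))) := t22_iter_dens S.gl _ dens_dl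
  have hG : Dens ((S.Dm T)^[k] (dl (Perm (Pos β I d)))) := x5_dens_Dm_iter S.toSys T k dens_dl
  have h2 := htwo _ _ hF hG (k * e) q (by positivity) (hclose e he hQ) hq1 hq
  have h3 := disc S.toSys T (k + r) hβ (dl (Perm (Pos β I d))) dens_dl
  rw [add_comm k r, Function.iterate_add_apply, ← add_comm k r] at h3
  have hmono : av (fun σ => |S.P^[t] (dl (Perm (Pos β I d))) σ - 1|) ≤
      av (fun σ => |S.P^[2 * t2 + r * T] (dl (Perm (Pos β I d))) σ - 1|) :=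
    t22_mono S.gl (by rw [← hk]; linarith [add_mul k r T]) _
  refine hmono.trans ?_
  rw [← hk] at hrep ⊢
  have hsum : ∀ σ, S.P^[k * T + r * T] (dl (Perm (Pos β I d))) σ - 1 =
      (S.P^[k * T + r * T] (dl (Perm (Pos β I d))) σ
        - (S.Dm T)^[r] (S.P^[k * T] (dl (Perm (Pos β I d)))) σ) +
      (((S.Dm T)^[r] (S.P^[k * T] (dl (Perm (Pos β I d)))) σ
        - (S.Dm T)^[r] ((S.Dm T)^[k] (dl (Perm (Pos β I d)))) σ) +
      ((S.Dm T)^[r] ((S.Dm T)^[k] (dl (Perm (Pos β I d)))) σ - 1)) := by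
    intro σ
    ring
  simp only [hsum]
  have s1 := t22_abs_add (fun σ => S.P^[k * T + r * T] (dl (Perm (Pos β I d))) σ
        - (S.Dm T)^[r] (S.P^[k * T] (dl (Perm (Pos β I d)))) σ)
    (fun σ => ((S.Dm T)^[r] (S.P^[k * T] (dl (Perm (Pos β I d)))) σ
        - (S.Dm T)^[r] ((S.Dm T)^[k] (dl (Perm (Pos β I d)))) σ) +
      ((S.Dm T)^[r] ((S.Dm T)^[k] (dl (Perm (Pos β I d)))) σ - 1))
  have s2 := t22_abs_add (fun σ => (S.Dm T)^[r] (S.P^[k * T] (dl (Perm (Pos β I d)))) σ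
        - (S.Dm T)^[r] ((S.Dm T)^[k] (dl (Perm (Pos β I d)))) σ)
    (fun σ => (S.Dm T)^[r] ((S.Dm T)^[k] (dl (Perm (Pos β I d)))) σ - 1)
  linarith

end Pool.Agent.H9.Low
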